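import Mathlib
import Pool.Graph.R_seed8.H447R2.MZ.Tup

set_option autoImplicit false

/-! # The indices `u` for which a given index occurs in the stuffle product of a fixed index and `u` -/

namespace Pool.Agent.H491.Hit

open Pool.Agent.H447R2.MZ

/-- a list that contains every `u` with `w ∈ st v u` -/
def del : List ℕ → List ℕ → List (List ℕ)
  | [], w => [w]
  | (_ :: _), [] => []
  | (a :: s), (c :: w) => del s w ++ (del (a :: s) w).map (List.cons c) ++ (del s w).map (List.cons (c - a))
termination_by v w => v.length + w.length

theorem mem_del (v u : List ℕ) : ∀ w ∈ st v u, u ∈ del v w := by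
  induction v, u using st.induct with
  | case1 t =>
    intro w hw
    simp only [st, List.mem_singleton] at hw
    subst hw
    simp [del]
  | case2 a s =>
    intro w hw
    simp only [st, List.mem_singleton] at hw
    subst hw
    -- `[] ∈ del (a :: s) (a :: s)`
    have key : ∀ s : List ℕ, ([] : List ℕ) ∈ del s s := by
      intro s
      induction s with
      | nil => simp [del]
      | cons a s ih =>
        rw [del]
        simp only [List.mem_append]
        exact Or.inl (Or.inl ih)
    exact key (a :: s)
  | case3 a s b t ih1 ih2 ih3 =>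
    intro w hw
    rw [st] at hw
    simp only [List.mem_append, List.mem_map] at hw
    rcases hw with (⟨x, hx, rfl⟩ | ⟨x, hx, rfl⟩) | ⟨x, hx, rfl⟩
    · rw [del]
      simp only [List.mem_append]
      exact Or.inl (Or.inl (ih1 x hx))
    · rw [del]
      simp only [List.mem_append]
      exact Or.inl (Or.inr (List.mem_map.2 ⟨t, ih2 x hx, rfl⟩))
    · rw [del]
      simp only [List.mem_append]
      refine Or.inr (List.mem_map.2 ⟨t, ih3 x hx, ?_⟩)
      simp

theorem length_del (v w : List ℕ) : (del v w).length ≤ (2 * w.length) ^ v.length := by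
  induction v, w using del.induct with
  | case1 w => simp [del]
  | case2 a s => simp [del]
  | case3 a s c w ih1 ih2 =>
    rw [del]
    simp only [List.length_append, List.length_map, List.length_cons] at ih1 ih2 ⊢
    have h1 : (2 * (w.length + 1)) ^ (s.length + 1) = (2 * (w.length + 1)) ^ s.length * (2 * w.length + 2) := by
      rw [pow_succ]; ring
    have h2 : (2 * w.length) ^ s.length ≤ (2 * (w.length + 1)) ^ s.length :=
      Nat.pow_le_pow_left (by omega) _
    have h3 : (2 * w.length) ^ (s.length + 1) ≤ (2 * (w.length + 1)) ^ s.length * (2 * w.length) := by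
      rw [pow_succ]
      exact Nat.mul_le_mul_right _ h2
    calc _ ≤ (2 * w.length) ^ s.length + (2 * w.length) ^ (s.length + 1) + (2 * w.length) ^ s.length := by
          omega
      _ ≤ (2 * (w.length + 1)) ^ s.length + (2 * (w.length + 1)) ^ s.length * (2 * w.length) +
            (2 * (w.length + 1)) ^ s.length := by omega
      _ = _ := by rw [h1]; ring

theorem del_length_le (v w : List ℕ) : ∀ u ∈ del v w, u.length ≤ w.length := by
  induction v, w using del.induct with
  | case1 w => simp [del]
  | case2 a s => simp [del]
  | case3 a s c w ih1 ih2 =>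
    intro u hu
    rw [del] at hu
    simp only [List.mem_append, List.mem_map] at hu
    rcases hu with (hu | ⟨x, hx, rfl⟩) | ⟨x, hx, rfl⟩
    · have := ih1 u hu
      simp only [List.length_cons]
      omega
    · have := ih2 x hx
      simp only [List.length_cons]
      omega
    · have := ih1 x hx
      simp only [List.length_cons]
      omega

open Classical in
/-- the indices `u` such that the stuffle product of `v` and `u` meets `B` (and some more) -/
noncomputable def pre (v : List ℕ) (B : Finset (List ℕ)) : Finset (List ℕ) :=
  B.biUnion fun w => (del v w).toFinset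

theorem notMem_of_notMem_pre {v : List ℕ} {B : Finset (List ℕ)} {u : List ℕ} (hu : u ∉ pre v B) :
    ∀ w ∈ st v u, w ∉ B := by
  intro w hw hB
  apply hu
  rw [pre, Finset.mem_biUnion]
  exact ⟨w, hB, List.mem_toFinset.2 (mem_del v u w hw)⟩

theorem pre_length {v : List ℕ} {B : Finset (List ℕ)} {N : ℕ} (hB : ∀ w ∈ B, w.length ≤ N) :
    ∀ u ∈ pre v B, u.length ≤ N := by
  intro u hu
  rw [pre, Finset.mem_biUnion] at hu
  obtain ⟨w, hw, hu⟩ := hu
  exact (del_length_le v w u (List.mem_toFinset.1 hu)).trans (hB w hw)

theorem card_pre {v : List ℕ} {B : Finset (List ℕ)} {N : ℕ} (hB : ∀ w ∈ B, w.length ≤ N) :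
    (pre v B).card ≤ (2 * N) ^ v.length * B.card := by
  rw [pre]
  refine (Finset.card_biUnion_le_card_mul _ _ ((2 * N) ^ v.length) ?_).trans_eq (by ring)
  intro w hw
  refine (List.toFinset_card_le _).trans ((length_del v w).trans ?_)
  exact Nat.pow_le_pow_left (Nat.mul_le_mul_left 2 (hB w hw)) _

/-- the iterated preimage -/
noncomputable def preL : List (List ℕ) → Finset (List ℕ) → Finset (List ℕ)
  | [], B => B
  | (v :: P), B => pre v (preL P B)

theorem preL_length {P : List (List ℕ)} {B : Finset (List ℕ)} {N : ℕ} (hB : ∀ w ∈ B, w.length ≤ N) :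
    ∀ u ∈ preL P B, u.length ≤ N := by
  induction P with
  | nil => exact hB
  | cons v P ih =>
    intro u hu
    rw [preL] at hu
    exact pre_length ih u hu

theorem card_preL {P : List (List ℕ)} {B : Finset (List ℕ)} {N : ℕ} (hB : ∀ w ∈ B, w.length ≤ N) :
    (preL P B).card ≤ (2 * N) ^ (P.map List.length).sum * B.card := by
  induction P with
  | nil => simp [preL]
  | cons v P ih =>
    rw [preL]
    refine (card_pre (preL_length hB)).trans ?_
    rw [List.map_cons, List.sum_cons, pow_add, mul_assoc]
    exact Nat.mul_le_mul_left _ ih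

/-- values of the iterated products -/
theorem lift_mem {A : Type*} [Field A] [Algebra A ℝ] (E : Submodule A ℝ) (B : Finset (List ℕ)) (C : ℕ → List ℕ → Prop)
    (P : List (List ℕ)) (hP : ∀ v ∈ P, Adm v)
    (hC : ∀ v ∈ P, ∀ j u w, C j u → w ∈ st v u → C (j + v.length) w) (k t : ℕ)
    (hB : ∀ w, Adm w → w.sum = k → C t w → w ∉ B → val w ∈ E) :
    ∀ u j, Adm u → u.sum + (P.map List.sum).sum = k → C j u → j + (P.map List.length).sum = t → u ∉ preL P B →
      (P.map val).prod * val u ∈ E := by
  induction P with
  | nil =>
    intro u j hu hk hj ht hn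
    simp only [List.map_nil, List.sum_nil, add_zero] at hk ht
    subst ht
    simpa using hB u hu hk hj hn
  | cons v P ih =>
    intro u j hu hk hj ht hn
    have hv : Adm v := hP v (by simp)
    have hP' : ∀ x ∈ P, Adm x := fun x hx => hP x (by simp [hx])
    have hC' : ∀ x ∈ P, ∀ j u w, C j u → w ∈ st x u → C (j + x.length) w := fun x hx => hC x (by simp [hx])
    rw [List.map_cons, List.prod_cons]
    have e : val v * (P.map val).prod * val u = (P.map val).prod * (val v * val u) := by ring
    rw [e, val_mul v u hv hu, ← List.sum_map_mul_left]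
    refine list_sum_mem ?_
    intro x hx
    obtain ⟨w, hw, rfl⟩ := List.mem_map.1 hx
    rw [preL] at hn
    refine ih hP' hC' w (j + v.length) (st_adm v u hv hu w hw) ?_ (hC v (by simp) j u w hj hw) ?_
      (notMem_of_notMem_pre hn w hw)
    · rw [st_sum v u w hw]
      rw [List.map_cons, List.sum_cons] at hk
      omega
    · rw [List.map_cons, List.sum_cons] at ht
      omega

end Pool.Agent.H491.Hit
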