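import Mathlib
import Pool.Agent.H491.Del
import Pool.Graph.R_seed8.H340R2.LW

set_option autoImplicit false

/-! # Real algebraic numbers, words of given weight, positivity of multiple zeta values -/

namespace Pool.Agent.H491.Hit

open Pool.Agent.H447R2.MZ Filter Topology

/-- the field of the real algebraic numbers -/
noncomputable abbrev RA : IntermediateField ℚ ℝ := algebraicClosure ℚ ℝ

theorem mem_RA {x : ℝ} : x ∈ RA ↔ IsAlgebraic ℚ x := mem_algebraicClosure_iff

theorem algebraic_of_RA {x : ℝ} (h : IsAlgebraic RA x) : IsAlgebraic ℚ x := by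
  have i1 := algebraicClosure.isAlgebraic ℚ ℝ
  exact @IsAlgebraic.restrictScalars ℚ (algebraicClosure ℚ ℝ) ℝ _ _ _ (algebraicClosure ℚ ℝ).algebra' _ _ _ _ i1 _ h

theorem mem_RA_of_algebraic {x : ℝ} (h : IsAlgebraic RA x) : x ∈ RA := mem_RA.2 (algebraic_of_RA h)

theorem transcendental_RA {x : ℝ} (h : x ∉ RA) : Transcendental RA x := fun h' => h (mem_RA_of_algebraic h')

theorem pi_pow_notMem (n : ℕ) (hn : n ≠ 0) : Real.pi ^ n ∉ RA := by
  rw [mem_RA]
  exact Pool.Agent.H340R2.LW.transcendental_pi.pow (Nat.pos_of_ne_zero hn)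

/-- powers of a number that is not algebraic are linearly independent over the real algebraic numbers -/
theorem linInd_pow {x : ℝ} (h : x ∉ RA) : LinearIndependent RA (fun n : ℕ => x ^ n) := by
  have h1 := transcendental_iff.1 (transcendental_RA h)
  have h2 : LinearIndependent RA (fun n : ℕ => ((LinearMap.mulLeft RA x) ^ n) (1 : ℝ)) := by
    rw [Polynomial.linearIndependent_powers_iff_aeval]
    intro p hp
    apply h1 p
    have e : (Polynomial.aeval (LinearMap.mulLeft RA x)) p = LinearMap.mulLeft RA (Polynomial.aeval x p) := by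
      exact Polynomial.aeval_algHom_apply (Algebra.lmul RA ℝ) x p
    rw [e] at hp
    simpa using hp
  have e : (fun n : ℕ => ((LinearMap.mulLeft RA x) ^ n) (1 : ℝ)) = fun n : ℕ => x ^ n := by
    funext n
    rw [LinearMap.pow_mulLeft]
    simp
  rwa [e] at h2

/-- the admissible indices of weight `k` -/
def W (k : ℕ) : Finset (List ℕ) :=
  ((Finset.univ : Finset (Composition k)).image Composition.blocks).filter fun s => ∀ a ∈ s.head?, 2 ≤ a

theorem mem_W {k : ℕ} {s : List ℕ} : s ∈ W k ↔ Adm s ∧ s.sum = k := by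
  rw [W, Finset.mem_filter, Finset.mem_image]
  constructor
  · rintro ⟨⟨c, -, rfl⟩, h⟩
    refine ⟨⟨fun a ha => c.blocks_pos ha, fun a t e => ?_⟩, c.blocks_sum⟩
    rw [e] at h
    exact h a (by simp)
  · rintro ⟨⟨h1, h2⟩, h3⟩
    refine ⟨⟨⟨s, fun {a} ha => h1 a ha, h3⟩, Finset.mem_univ _, rfl⟩, ?_⟩
    intro a ha
    rcases s with _ | ⟨b, t⟩
    · simp at ha
    · simp only [List.head?_cons, Option.mem_def, Option.some.injEq] at ha
      subst ha
      exact h2 b t rfl

theorem length_le_of_mem_W {k : ℕ} {s : List ℕ} (h : s ∈ W k) : s.length ≤ k := by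
  obtain ⟨h1, h2⟩ := mem_W.1 h
  have : ∀ l : List ℕ, (∀ a ∈ l, 1 ≤ a) → l.length ≤ l.sum := by
    intro l hl
    induction l with
    | nil => simp
    | cons a l ih =>
      have h3 := ih fun b hb => hl b (by simp [hb])
      have h4 := hl a (by simp)
      simp only [List.length_cons, List.sum_cons]
      omega
  rw [← h2]
  exact this s h1.1

/-- add one to the first entry -/
def bump : List ℕ → List ℕ
  | [] => []
  | (a :: t) => (a + 1) :: t

theorem bump_inj : Function.Injective bump := by
  intro s t h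
  rcases s with _ | ⟨a, s⟩ <;> rcases t with _ | ⟨b, t⟩ <;> simp_all [bump]

theorem card_W (k : ℕ) (hk : 2 ≤ k) : 2 ^ (k - 2) ≤ (W k).card := by
  have h1 : (Finset.univ : Finset (Composition (k - 1))).card = 2 ^ (k - 2) := by
    rw [Finset.card_univ, composition_card]
    congr 1
  rw [← h1]
  apply Finset.card_le_card_of_injOn (fun c : Composition (k - 1) => bump c.blocks)
  · intro c _
    rw [Finset.mem_coe, mem_W]
    have hs := c.blocks_sum
    have hp : ∀ a ∈ c.blocks, 1 ≤ a := fun a ha => c.blocks_pos ha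
    rcases hc : c.blocks with _ | ⟨a, t⟩
    · rw [hc] at hs
      simp at hs
      omega
    · rw [hc] at hs hp
      simp only [List.sum_cons] at hs
      have ha := hp a (by simp)
      have e : bump (a :: t) = (a + 1) :: t := rfl
      simp only [hc, e]
      refine ⟨⟨?_, ?_⟩, ?_⟩
      · intro b hb
        rcases List.mem_cons.1 hb with rfl | hb
        · omega
        · exact hp b (by simp [hb])
      · intro b s hb
        have := (List.cons.inj hb).1
        omega
      · rw [List.sum_cons]
        omega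
  · intro c _ d _ h
    exact Composition.ext (bump_inj h)

theorem H_pos (s : List ℕ) (N : ℕ) (h : s.length ≤ N) : 0 < H s N := by
  induction s generalizing N with
  | nil => simp [H_nil]
  | cons a s ih =>
    simp only [List.length_cons] at h
    obtain ⟨M, rfl⟩ : ∃ M, N = M + 1 := ⟨N - 1, by omega⟩
    rw [H_cons_succ]
    have h1 := ih M (by omega)
    have h2 := H_nonneg (a :: s) M
    have h3 : (0 : ℝ) < (((M + 1 : ℕ) : ℝ) ^ a)⁻¹ := by positivity
    have := mul_pos h3 h1
    linarith

theorem val_pos (s : List ℕ) (hs : Adm s) : 0 < val s :=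
  lt_of_lt_of_le (H_pos s s.length le_rfl) (H_le_val s hs s.length)

theorem adm_single (a : ℕ) (ha : 2 ≤ a) : Adm [a] := ⟨by simp; omega, by
    intro b t hb
    simp only [List.cons.injEq] at hb
    omega⟩

theorem adm_nil : Adm [] := ⟨by simp, by simp⟩

theorem val_nil : val [] = 1 := by
  simp [val, H_nil]

/-- Euler: the zeta values at even integers are rational multiples of the powers of `π` -/
theorem val_even (n : ℕ) (hn : n ≠ 0) : ∃ q : ℚ, q ≠ 0 ∧ val [2 * n] = q * Real.pi ^ (2 * n) := by
  have h1 := hasSum_zeta_nat hn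
  have h2 := (hasSum_nat_add_iff' (f := fun m : ℕ => (1 : ℝ) / (m : ℝ) ^ (2 * n)) 1).2 h1
  have h0 : (0 : ℝ) ^ (2 * n) = 0 := zero_pow (by omega)
  simp only [Finset.range_one, Finset.sum_singleton, Nat.cast_zero, h0, div_zero, sub_zero] at h2
  have h3 := val_single (2 * n) (by omega)
  push_cast at h2
  have h4 := h3.unique h2
  refine ⟨(-1) ^ (n + 1) * 2 ^ (2 * n - 1) * bernoulli (2 * n) / (2 * n).factorial, ?_, ?_⟩
  · intro h5
    have h6 := val_pos [2 * n] (adm_single _ (by omega))
    rw [h4] at h6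
    have h7 : (((-1) ^ (n + 1) * 2 ^ (2 * n - 1) * bernoulli (2 * n) / (2 * n).factorial : ℚ) : ℝ) = 0 := by
      rw [h5]; simp
    push_cast at h7
    have h8 : (-1 : ℝ) ^ (n + 1) * 2 ^ (2 * n - 1) * Real.pi ^ (2 * n) * (bernoulli (2 * n) : ℝ) / ((2 * n).factorial : ℝ) =
        ((-1) ^ (n + 1) * 2 ^ (2 * n - 1) * (bernoulli (2 * n) : ℝ) / ((2 * n).factorial : ℝ)) * Real.pi ^ (2 * n) := by
      ring
    rw [h8, h7] at h6
    simp at h6
  · rw [h4]
    push_cast
    ring

end Pool.Agent.H491.Hit
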