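import Mathlib

set_option autoImplicit false

/-! # A linear lemma: numbers `t ^ b ∑ R b i * w i` are almost linearly independent over a field over which `t` is transcendental -/

namespace Pool.Agent.H491.Sq

open Polynomial

variable {L : Subfield ℝ}

/-- a nontrivial relation between more than `r` vectors of a space of dimension at most `r` -/
theorem exists_rel (E : Submodule L ℝ) (r : ℕ) (hE : Module.rank L E ≤ r) (u : ℕ → ℝ) (B : Finset ℕ)
    (hB : ∀ b ∈ B, u b ∈ E) (hr : r < B.card) :
    ∃ b₁ ∈ B, ∃ c : ℕ → L, c b₁ ≠ 0 ∧ (∀ b, b₁ < b → c b = 0) ∧ ∑ b ∈ B, (c b : ℝ) * u b = 0 := by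
  classical
  have h1 : ¬ LinearIndependent L (fun b : B => (⟨u b, hB b b.2⟩ : E)) := by
    intro h
    have h2 := h.cardinal_le_rank.trans hE
    simp only [Cardinal.mk_fintype, Fintype.card_coe] at h2
    have h3 : B.card ≤ r := by exact_mod_cast h2
    omega
  rw [Fintype.not_linearIndependent_iff] at h1
  obtain ⟨g, hg, i, hi⟩ := h1
  let c : ℕ → L := fun b => if h : b ∈ B then g ⟨b, h⟩ else 0
  have hc : ∀ b : B, c b = g b := fun b => by simp [c]
  have hne : (B.filter fun b => c b ≠ 0).Nonempty := ⟨i, Finset.mem_filter.2 ⟨i.2, by rw [hc]; exact hi⟩⟩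
  refine ⟨(B.filter fun b => c b ≠ 0).max' hne, (Finset.mem_filter.1 (Finset.max'_mem _ hne)).1, c,
    (Finset.mem_filter.1 (Finset.max'_mem _ hne)).2, ?_, ?_⟩
  · intro b hb
    by_contra h
    have hbB : b ∈ B := by
      by_contra h'
      exact h (by simp [c, h'])
    have := Finset.le_max' (B.filter fun b => c b ≠ 0) b (Finset.mem_filter.2 ⟨hbB, h⟩)
    omega
  · have h2 := congrArg (Submodule.subtype E) hg
    rw [map_sum] at h2
    simp only [map_smul, Submodule.subtype_apply, map_zero] at h2
    rw [← Finset.sum_coe_sort B]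
    rw [← h2]
    refine Finset.sum_congr rfl fun b _ => ?_
    rw [hc]
    rfl

/-- `m` relations with different leading places -/
theorem exists_rels (E : Submodule L ℝ) (r : ℕ) (hE : Module.rank L E ≤ r) (u : ℕ → ℝ) (m : ℕ) :
    ∀ (B : Finset ℕ) (_ : ∀ b ∈ B, u b ∈ E) (_ : r + m ≤ B.card),
    ∃ β : Fin m → ℕ, Function.Injective β ∧ (∀ k, β k ∈ B) ∧ ∀ k, ∃ c : ℕ → L, c (β k) ≠ 0 ∧ (∀ b, β k < b → c b = 0) ∧
      (∀ b ∉ B, c b = 0) ∧ ∑ b ∈ B, (c b : ℝ) * u b = 0 := by
  classical
  induction m with
  | zero =>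
    intro B hB hr
    exact ⟨Fin.elim0, fun i => i.elim0, fun i => i.elim0, fun i => i.elim0⟩
  | succ m ih =>
    intro B hB hr
    obtain ⟨b₁, hb₁, c, hc1, hc2, hc3⟩ := exists_rel E r hE u B hB (by omega)
    obtain ⟨β, hβ, hβB, hβc⟩ := ih (B.erase b₁) (fun b hb => hB b (Finset.mem_of_mem_erase hb))
      (by rw [Finset.card_erase_of_mem hb₁]; omega)
    refine ⟨Fin.cons b₁ β, ?_, ?_, ?_⟩
    · rw [Fin.cons_injective_iff]
      refine ⟨?_, hβ⟩
      rintro ⟨k, hk⟩
      have := hβB k
      rw [hk] at this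
      simp at this
    · intro k
      refine Fin.cases ?_ (fun k => ?_) k
      · simpa using hb₁
      · simpa using Finset.mem_of_mem_erase (hβB k)
    · intro k
      refine Fin.cases ?_ (fun k => ?_) k
      · refine ⟨fun b => if b ∈ B then c b else 0, ?_, ?_, ?_, ?_⟩
        · simp [hb₁, hc1]
        · intro b hb
          simp only [Fin.cons_zero] at hb
          simp [hc2 b hb]
        · intro b hb
          simp [hb]
        · rw [← hc3]
          refine Finset.sum_congr rfl fun b hb => ?_
          simp [hb]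
      · obtain ⟨c', h1, h2, h3, h4⟩ := hβc k
        refine ⟨c', by simpa using h1, ?_, ?_, ?_⟩
        · intro b hb
          simp only [Fin.cons_succ] at hb
          exact h2 b hb
        · intro b hb
          exact h3 b fun h => hb (Finset.mem_of_mem_erase h)
        · rw [← h4]
          symm
          apply Finset.sum_subset (Finset.erase_subset _ _)
          intro b hb hb'
          rw [h3 b hb']
          simp

/-- Let `t` be transcendental over `L`, `w` a nonzero real vector of length `m` and `R b i` rational numbers all of whose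
`m × m` minors (rows in `B`) are nonzero. Then a space of dimension at most `r` over `L` contains at most
`r + m - 1` of the numbers `t ^ b * ∑ i, R b i * w i`, `b ∈ B`. -/
theorem linear_lemma (t : ℝ) (ht : Transcendental L t) (E : Submodule L ℝ) (r : ℕ) (hE : Module.rank L E ≤ r) (m : ℕ)
    (w : Fin m → ℝ) (hw : w ≠ 0) (R : ℕ → Fin m → ℚ) (B : Finset ℕ)
    (hR : ∀ β : Fin m → ℕ, Function.Injective β → (∀ k, β k ∈ B) → (Matrix.of fun k i => R (β k) i).det ≠ 0)
    (hB : ∀ b ∈ B, t ^ b * ∑ i, (R b i : ℝ) * w i ∈ E) : B.card < r + m := by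
  classical
  by_contra hcon
  push Not at hcon
  obtain ⟨β, hβ, hβB, hβc⟩ := exists_rels E r hE (fun b => t ^ b * ∑ i, (R b i : ℝ) * w i) m B hB hcon
  choose c hc1 hc2 hc3 hc4 using hβc
  set N : ℕ := ∑ k, β k with hN
  have hle : ∀ k, β k ≤ N := fun k => Finset.single_le_sum (f := β) (fun _ _ => Nat.zero_le _) (Finset.mem_univ k)
  clear_value N
  let M : Matrix (Fin m) (Fin m) L[X] := Matrix.of fun k i =>
    ∑ b ∈ B, C (c k b * (algebraMap ℚ L (R b i))) * X ^ (b + (N - β k))
  have hM : ∀ k i, M k i = ∑ b ∈ B, C (c k b * (algebraMap ℚ L (R b i))) * X ^ (b + (N - β k)) := fun k i => rfl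
  have hdeg : ∀ k i, (M k i).natDegree ≤ N := by
    intro k i
    rw [hM]
    apply Polynomial.natDegree_sum_le_of_forall_le
    intro b hb
    rcases le_or_gt b (β k) with h | h
    · refine (Polynomial.natDegree_C_mul_X_pow_le _ _).trans ?_
      have := hle k
      omega
    · rw [hc2 k b h]
      simp
  have hcoef : ∀ k i, (M k i).coeff N = c k (β k) * algebraMap ℚ L (R (β k) i) := by
    intro k i
    rw [hM, Polynomial.finsetSum_coeff]
    rw [Finset.sum_eq_single (β k)]
    · rw [Polynomial.coeff_C_mul_X_pow, if_pos]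
      have := hle k
      omega
    · intro b hb hne
      rw [Polynomial.coeff_C_mul_X_pow, if_neg]
      have := hle k
      omega
    · intro h
      exact absurd (hβB k) h
  have hdet : M.det = 0 := by
    have h1 : (M.map (Polynomial.aeval t : L[X] →ₐ[L] ℝ)).mulVec w = 0 := by
      funext k
      rw [Matrix.mulVec, dotProduct]
      simp only [Matrix.map_apply, Pi.zero_apply]
      have h2 : ∀ i, (Polynomial.aeval t (M k i) : ℝ) = t ^ (N - β k) * ∑ b ∈ B, (c k b : ℝ) * (t ^ b * (R b i : ℝ)) := by
        intro i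
        rw [hM, map_sum, Finset.mul_sum]
        refine Finset.sum_congr rfl fun b _ => ?_
        simp only [map_mul, Polynomial.aeval_C, map_pow, Polynomial.aeval_X]
        have e1 : (algebraMap L ℝ) (c k b) = (c k b : ℝ) := rfl
        have e2 : (algebraMap L ℝ) ((algebraMap ℚ L) (R b i)) = (R b i : ℝ) := by simp
        rw [e1, e2, pow_add]
        ring
      have h3 : ∑ i, (Polynomial.aeval t (M k i) : ℝ) * w i =
          t ^ (N - β k) * ∑ b ∈ B, (c k b : ℝ) * (t ^ b * ∑ i, (R b i : ℝ) * w i) := by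
        simp only [h2]
        simp only [Finset.mul_sum, Finset.sum_mul]
        rw [Finset.sum_comm]
        refine Finset.sum_congr rfl fun b _ => Finset.sum_congr rfl fun i _ => ?_
        ring
      rw [h3, hc4 k, mul_zero]
    have h4 : (M.map (Polynomial.aeval t : L[X] →ₐ[L] ℝ)).det = 0 := Matrix.exists_mulVec_eq_zero_iff.1 ⟨w, hw, h1⟩
    have h5 : (Polynomial.aeval t : L[X] →ₐ[L] ℝ) M.det = 0 := by
      rw [AlgHom.map_det]
      exact h4
    exact (transcendental_iff.1 ht) _ h5
  have h6 : M.det.coeff (m * N) = ((∏ k, c k (β k)) * algebraMap ℚ L (Matrix.of fun k i => R (β k) i).det) := by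
    rw [Matrix.det_apply', Matrix.det_apply', Polynomial.finsetSum_coeff, map_sum (algebraMap ℚ L), Finset.mul_sum]
    apply Finset.sum_congr rfl
    intro σ _
    have e1 : ((Equiv.Perm.sign σ : ℤ) : L[X]) = C ((Equiv.Perm.sign σ : ℤ) : L) := by simp
    rw [e1, Polynomial.coeff_C_mul]
    have e2 : (∏ i, M (σ i) i).coeff (m * N) = ∏ i, (M (σ i) i).coeff N := by
      have := Polynomial.coeff_prod_of_natDegree_le (s := (Finset.univ : Finset (Fin m))) (fun i => M (σ i) i) N
        (fun i _ => hdeg _ _)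
      simpa using this
    rw [e2]
    simp only [hcoef]
    rw [Finset.prod_mul_distrib, Equiv.prod_comp σ (fun k => c k (β k))]
    rw [map_mul, map_prod]
    simp only [Matrix.of_apply, map_intCast]
    ring
  rw [hdet, Polynomial.coeff_zero] at h6
  have h7 := h6.symm
  rw [mul_eq_zero] at h7
  rcases h7 with h7 | h7
  · rw [Finset.prod_eq_zero_iff] at h7
    obtain ⟨k, -, hk⟩ := h7
    exact hc1 k hk
  · rw [map_eq_zero] at h7
    exact hR β hβ hβB h7

end Pool.Agent.H491.Sq
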