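import Mathlib
import Pool.Agent.H491.Base
import Pool.Agent.H491.Sq1

set_option autoImplicit false

/-! # Zeta values: strict inequalities, two by two minors; counting pairs -/

namespace Pool.Agent.H491.Sq

open Pool.Agent.H447R2.MZ Pool.Agent.H491.Hit

/-- `ζ(s)` -/
noncomputable def z (s : ℕ) : ℝ := val [s]

theorem hasSum_z (s : ℕ) (hs : 2 ≤ s) : HasSum (fun n : ℕ => (1 : ℝ) / ((n : ℝ) + 1) ^ s) (z s) := val_single s hs

theorem hasSum_z' (s : ℕ) (hs : 2 ≤ s) : HasSum (fun n : ℕ => (1 : ℝ) / ((n : ℝ) + 2) ^ s) (z s - 1) := by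
  have h := (hasSum_nat_add_iff' (f := fun n : ℕ => (1 : ℝ) / ((n : ℝ) + 1) ^ s) 1).2 (hasSum_z s hs)
  simp only [Finset.range_one, Finset.sum_singleton, Nat.cast_zero, zero_add, one_pow, div_one] at h
  have e : (fun n : ℕ => (1 : ℝ) / ((n : ℝ) + 2) ^ s) = fun n : ℕ => (1 : ℝ) / (((n + 1 : ℕ) : ℝ) + 1) ^ s := by
    funext n
    have : (n : ℝ) + 2 = ((n + 1 : ℕ) : ℝ) + 1 := by push_cast; ring
    rw [this]
  rw [e]
  exact h

theorem z_anti (a b : ℕ) (ha : 2 ≤ a) (hab : a ≤ b) : z b ≤ z a := by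
  refine hasSum_le (fun n => ?_) (hasSum_z b (by omega)) (hasSum_z a ha)
  apply one_div_le_one_div_of_le (by positivity)
  apply pow_le_pow_right₀ _ hab
  have : (0 : ℝ) ≤ n := Nat.cast_nonneg n
  linarith

theorem one_lt_z (a : ℕ) (ha : 2 ≤ a) : 1 < z a := by
  have h := hasSum_z' a ha
  have h1 : (1 : ℝ) / ((0 : ℕ) + 2 : ℝ) ^ a ≤ z a - 1 := by
    have := le_hasSum h 0 fun n _ => by positivity
    exact this
  have h2 : (0 : ℝ) < 1 / ((0 : ℕ) + 2 : ℝ) ^ a := by positivity
  linarith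

theorem z_step (a : ℕ) (ha : 2 ≤ a) : z (a + 2) - 1 ≤ (z a - 1) / 4 := by
  have h1 := hasSum_z' (a + 2) (by omega)
  have h2 := (hasSum_z' a ha).div_const 4
  refine hasSum_le (fun n => ?_) h1 h2
  rw [div_div]
  apply one_div_le_one_div_of_le (by positivity)
  rw [pow_add]
  have h3 : (0 : ℝ) < ((n : ℝ) + 2) ^ a := by positivity
  have h4 : (4 : ℝ) ≤ ((n : ℝ) + 2) ^ 2 := by
    have : (0 : ℝ) ≤ n := Nat.cast_nonneg n
    nlinarith
  nlinarith

theorem z_two : z 2 ≤ 2 := by
  have h := hasSum_z 2 le_rfl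
  have h1 := h.tsum_eq
  rw [Pool.Agent.H447R2.MZ.zeta_two] at h1
  rw [← h1]
  have := Real.pi_lt_d2
  have h3 := Real.pi_gt_three
  nlinarith

/-- strict convexity: `ζ(2 k) ζ(2 l) < ζ(2 i) ζ(2 j)` if `i < k, l` -/
theorem strict (i j k l : ℕ) (hi : 1 ≤ i) (hj : 1 ≤ j) (hk : i < k) (hl : i < l) :
    z (2 * k) * z (2 * l) < z (2 * i) * z (2 * j) := by
  have h1 := z_anti (2 * i + 2) (2 * k) (by omega) (by omega)
  have h2 := z_anti (2 * i + 2) (2 * l) (by omega) (by omega)
  have h3 := z_step (2 * i) (by omega)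
  have h4 := z_anti 2 (2 * i) le_rfl (by omega)
  have h5 := z_two
  have h6 := one_lt_z (2 * i) (by omega)
  have h7 := one_lt_z (2 * j) (by omega)
  have h8 := one_lt_z (2 * k) (by omega)
  have h9 := one_lt_z (2 * l) (by omega)
  set d := z (2 * i) - 1 with hd
  have e : z (2 * i) = 1 + d := by rw [hd]; ring
  have h10 : z (2 * k) * z (2 * l) ≤ (1 + d / 4) * (1 + d / 4) := by
    apply mul_le_mul <;> linarith
  have hd0 : 0 < d := by linarith
  have hd1 : d ≤ 1 := by linarith
  calc z (2 * k) * z (2 * l) ≤ (1 + d / 4) * (1 + d / 4) := h10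
    _ < 1 + d := by nlinarith
    _ = z (2 * i) * 1 := by rw [e]; ring
    _ ≤ z (2 * i) * z (2 * j) := by
      apply mul_le_mul_of_nonneg_left h7.le
      linarith

/-- `ζ(2 m) = rho m * π ^ (2 m)` -/
noncomputable def rho (m : ℕ) : ℚ := if h : m ≠ 0 then (val_even m h).choose else 1

theorem z_even (m : ℕ) (hm : 1 ≤ m) : z (2 * m) = (rho m : ℝ) * (Real.pi ^ 2) ^ m := by
  have h : m ≠ 0 := by omega
  rw [rho, dif_pos h, ← pow_mul]
  exact (val_even m h).choose_spec.2

theorem rho_ne (m : ℕ) : rho m ≠ 0 := by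
  rw [rho]
  split_ifs with h
  · exact (val_even m h).choose_spec.1
  · exact one_ne_zero

/-- the two by two minors of the matrix `rho (b + j)` are nonzero -/
theorem minor_ne_aux (b b' a e : ℕ) (h1 : 1 ≤ b + a) (hb : b < b') (ha : a < e) :
    rho (b + a) * rho (b' + e) ≠ rho (b' + a) * rho (b + e) := by
  intro h
  have h2 := strict (b + a) (b' + e) (b' + a) (b + e) h1 (by omega) (by omega) (by omega)
  rw [z_even _ (by omega), z_even _ (by omega), z_even _ (by omega), z_even _ (by omega)] at h2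
  have h3 : ((rho (b + a) : ℝ) * (rho (b' + e) : ℝ)) = (rho (b' + a) : ℝ) * (rho (b + e) : ℝ) := by exact_mod_cast h
  have h4 : (rho (b' + a) : ℝ) * (Real.pi ^ 2) ^ (b' + a) * ((rho (b + e) : ℝ) * (Real.pi ^ 2) ^ (b + e)) =
      (rho (b + a) : ℝ) * (Real.pi ^ 2) ^ (b + a) * ((rho (b' + e) : ℝ) * (Real.pi ^ 2) ^ (b' + e)) := by
    have e1 : (Real.pi ^ 2) ^ (b' + a) * (Real.pi ^ 2) ^ (b + e) = (Real.pi ^ 2) ^ (b + a) * (Real.pi ^ 2) ^ (b' + e) := by
      rw [← pow_add, ← pow_add]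
      congr 1
      omega
    linear_combination (-(Real.pi ^ 2) ^ (b' + a) * (Real.pi ^ 2) ^ (b + e)) * h3 +
      (rho (b + a) : ℝ) * (rho (b' + e) : ℝ) * e1
  linarith

theorem minor_ne (b b' a e : ℕ) (h1 : 1 ≤ b + a) (h2 : 1 ≤ b' + a) (h3 : 1 ≤ b + e) (h4 : 1 ≤ b' + e) (hb : b ≠ b')
    (ha : a ≠ e) : rho (b + a) * rho (b' + e) ≠ rho (b' + a) * rho (b + e) := by
  rcases lt_or_gt_of_ne hb with hb | hb <;> rcases lt_or_gt_of_ne ha with ha | ha
  · exact minor_ne_aux b b' a e h1 hb ha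
  · intro h
    exact minor_ne_aux b b' e a h3 hb ha (by rw [mul_comm (rho (b + e)), ← h, mul_comm])
  · intro h
    exact minor_ne_aux b' b a e h2 hb ha h.symm
  · intro h
    exact minor_ne_aux b' b e a h4 hb ha (by rw [mul_comm (rho (b' + e)), h, mul_comm])

/-- A space of dimension at most `r` contains at most `r + 1` of the numbers
`(π ^ 2) ^ b * (rho (b + a) * X - rho (b + e) * Y)`. -/
theorem linear_two {L : Subfield ℝ} (hL : Transcendental L (Real.pi ^ 2)) (E : Submodule L ℝ) (r : ℕ)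
    (hE : Module.rank L E ≤ r) (X Y : ℝ) (hX : X ≠ 0) (a e : ℕ) (hae : a ≠ e) (B : Finset ℕ)
    (h1 : ∀ b ∈ B, 1 ≤ b + a ∧ 1 ≤ b + e)
    (hB : ∀ b ∈ B, (Real.pi ^ 2) ^ b * ((rho (b + a) : ℝ) * X - (rho (b + e) : ℝ) * Y) ∈ E) : B.card ≤ r + 1 := by
  have h := linear_lemma (Real.pi ^ 2) hL E r hE 2 ![X, -Y] (fun h => hX (by simpa using congrFun h 0))
    (fun b => ![rho (b + a), rho (b + e)]) B ?_ ?_
  · omega
  · intro β hβ hβB
    rw [Matrix.det_fin_two]
    simp only [Matrix.of_apply, Matrix.cons_val_zero, Matrix.cons_val_one]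
    have hne : β 0 ≠ β 1 := fun h => by simpa using hβ h
    have := minor_ne (β 0) (β 1) a e (h1 _ (hβB 0)).1 (h1 _ (hβB 1)).1 (h1 _ (hβB 0)).2 (h1 _ (hβB 1)).2 hne hae
    intro h0
    apply this
    linear_combination h0
  · intro b hb
    have := hB b hb
    rw [Fin.sum_univ_two]
    simp only [Matrix.cons_val_zero, Matrix.cons_val_one]
    convert this using 2
    ring

/-- Counting: if two different rows have at most `c` common entries, there are at most `√(c n³) + n` entries. -/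
theorem count (n c : ℕ) (S : Finset (ℕ × ℕ)) (hS : S ⊆ Finset.range n ×ˢ Finset.range n)
    (h : ∀ i ∈ Finset.range n, ∀ i' ∈ Finset.range n, i ≠ i' →
      ((Finset.range n).filter fun j => (i, j) ∈ S ∧ (i', j) ∈ S).card ≤ c) :
    (S.card : ℝ) ≤ √((c : ℝ) * n ^ 3) + n := by
  classical
  have h1 : S.card = ∑ j ∈ Finset.range n, ((Finset.range n).filter fun i => (i, j) ∈ S).card := by
    rw [Finset.card_eq_sum_card_fiberwise (f := Prod.snd) (t := Finset.range n)
      (fun p hp => (Finset.mem_product.1 (hS hp)).2)]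
    refine Finset.sum_congr rfl fun j hj => ?_
    refine Finset.card_bij' (fun p _ => p.1) (fun i _ => (i, j)) ?_ ?_ ?_ ?_
    · intro p hp
      rw [Finset.mem_filter] at hp ⊢
      refine ⟨(Finset.mem_product.1 (hS hp.1)).1, ?_⟩
      rw [← hp.2]
      exact hp.1
    · intro i hi
      rw [Finset.mem_filter] at hi ⊢
      exact ⟨hi.2, rfl⟩
    · intro p hp
      rw [Finset.mem_filter] at hp
      rw [← hp.2]
    · intro i _
      rfl
  have h2 : ∑ j ∈ Finset.range n, ((Finset.range n).filter fun i => (i, j) ∈ S).card ^ 2 ≤ S.card + c * n ^ 2 := by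
    have e1 : ∀ j, ((Finset.range n).filter fun i => (i, j) ∈ S).card ^ 2 =
        ∑ i ∈ Finset.range n, ∑ i' ∈ Finset.range n, if (i, j) ∈ S ∧ (i', j) ∈ S then 1 else 0 := by
      intro j
      rw [sq, Finset.card_filter, Finset.sum_mul_sum]
      refine Finset.sum_congr rfl fun i _ => Finset.sum_congr rfl fun i' _ => ?_
      by_cases h1 : (i, j) ∈ S <;> by_cases h2 : (i', j) ∈ S <;> simp [h1, h2]
    simp only [e1]
    rw [Finset.sum_comm]
    have e2 : ∀ i ∈ Finset.range n, (∑ j ∈ Finset.range n, ∑ i' ∈ Finset.range n,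
        if (i, j) ∈ S ∧ (i', j) ∈ S then 1 else 0) ≤ ((Finset.range n).filter fun j => (i, j) ∈ S).card + c * n := by
      intro i hi
      rw [Finset.sum_comm, ← Finset.add_sum_erase _ _ hi]
      apply Nat.add_le_add
      · rw [Finset.card_filter]
        simp
      · calc ∑ i' ∈ (Finset.range n).erase i, ∑ j ∈ Finset.range n, (if (i, j) ∈ S ∧ (i', j) ∈ S then 1 else 0)
            ≤ ∑ i' ∈ (Finset.range n).erase i, c := by
              refine Finset.sum_le_sum fun i' hi' => ?_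
              rw [← Finset.card_filter]
              exact h i hi i' (Finset.mem_of_mem_erase hi') (Finset.ne_of_mem_erase hi').symm
          _ ≤ c * n := by
              rw [Finset.sum_const, smul_eq_mul, mul_comm]
              apply Nat.mul_le_mul_left
              exact (Finset.card_erase_le).trans (by simp)
    refine (Finset.sum_le_sum e2).trans ?_
    rw [Finset.sum_add_distrib, Finset.sum_const, Finset.card_range, smul_eq_mul]
    have e3 : ∑ i ∈ Finset.range n, ((Finset.range n).filter fun j => (i, j) ∈ S).card = S.card := by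
      rw [Finset.card_eq_sum_card_fiberwise (f := Prod.fst) (s := S) (t := Finset.range n)
        (fun p hp => (Finset.mem_product.1 (hS hp)).1)]
      refine Finset.sum_congr rfl fun i hi => ?_
      symm
      refine Finset.card_bij' (fun p _ => p.2) (fun j _ => (i, j)) ?_ ?_ ?_ ?_
      · intro p hp
        rw [Finset.mem_filter] at hp ⊢
        refine ⟨(Finset.mem_product.1 (hS hp.1)).2, ?_⟩
        rw [← hp.2]
        exact hp.1
      · intro j hj
        rw [Finset.mem_filter] at hj ⊢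
        exact ⟨hj.2, rfl⟩
      · intro p hp
        rw [Finset.mem_filter] at hp
        rw [← hp.2]
      · intro i _
        rfl
    rw [e3]
    apply le_of_eq
    ring
  have h3 : S.card ^ 2 ≤ n * (S.card + c * n ^ 2) := by
    have := sq_sum_le_card_mul_sum_sq (s := Finset.range n) (f := fun j => ((Finset.range n).filter fun i => (i, j) ∈ S).card)
    rw [← h1, Finset.card_range] at this
    exact this.trans (Nat.mul_le_mul_left _ h2)
  have h4 : (S.card : ℝ) ^ 2 ≤ n * (S.card + c * n ^ 2) := by exact_mod_cast h3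
  by_contra hcon
  push Not at hcon
  have h5 := Real.sqrt_nonneg ((c : ℝ) * n ^ 3)
  have h6 := Real.sq_sqrt (show (0 : ℝ) ≤ (c : ℝ) * n ^ 3 by positivity)
  have h7 : (0 : ℝ) ≤ n := Nat.cast_nonneg n
  nlinarith

end Pool.Agent.H491.Sq
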