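import Mathlib
import Pool.Agent.H491.Sq2

set_option autoImplicit false

/-! # Double zeta values: the sum over the two orders -/

namespace Pool.Agent.H491.Sq

open Pool.Agent.H447R2.MZ Pool.Agent.H491.Hit

/-- the multiple zeta value of the index `k` -/
noncomputable def zt {D : ℕ} (k : Fin D → ℕ) : ℝ :=
  ∑' n : {n : Fin D → ℕ // StrictAnti n ∧ ∀ i, 1 ≤ n i}, ∏ i, (((n.1 i : ℕ) : ℝ) ^ k i)⁻¹

theorem adm_pair (x y : ℕ) (hx : 2 ≤ x) (hy : 1 ≤ y) : Adm [x, y] := by
  refine ⟨fun a ha => ?_, fun a t h => ?_⟩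
  · simp only [List.mem_cons, List.not_mem_nil, or_false] at ha
    omega
  · simp only [List.cons.injEq] at h
    omega

theorem zt_pair (x y : ℕ) (hx : 2 ≤ x) (hy : 1 ≤ y) : zt ![x, y] = val [x, y] := by
  have e : List.ofFn ![x, y] = [x, y] := by simp
  have h := (hasSum_val 2 ![x, y] (by rw [e]; exact adm_pair x y hx hy)).tsum_eq
  rw [e] at h
  exact h

/-- `ζ(x) ζ(y) = ζ(x, y) + ζ(y, x) + ζ(x + y)` -/
theorem z_mul (x y : ℕ) (hx : 2 ≤ x) (hy : 2 ≤ y) : z x * z y = zt ![x, y] + zt ![y, x] + z (x + y) := by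
  rw [z, z, val_mul [x] [y] (adm_single x hx) (adm_single y hy), zt_pair x y hx (by omega), zt_pair y x hy (by omega), z]
  simp [st]
  ring

theorem mem_of_pair {L : Subfield ℝ} (E : Submodule L ℝ) (x y : ℕ) (hx : 2 ≤ x) (hy : 2 ≤ y)
    (h : z x * z y - z (x + y) ∉ E) : zt ![x, y] ∉ E ∨ zt ![y, x] ∉ E := by
  by_contra hcon
  push Not at hcon
  apply h
  have : z x * z y - z (x + y) = zt ![x, y] + zt ![y, x] := by rw [z_mul x y hx hy]; ring
  rw [this]
  exact E.add_mem hcon.1 hcon.2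

theorem z_ne (s : ℕ) (hs : 2 ≤ s) : z s ≠ 0 := by
  have := one_lt_z s hs
  linarith

theorem transcendental_sq {L : Subfield ℝ} (hL : Transcendental L Real.pi) : Transcendental L (Real.pi ^ 2) :=
  hL.pow (by norm_num)

/-- the sum over both orders of a double zeta value with odd arguments `2 i + 3`, `2 j + 3` -/
noncomputable def al (i j : ℕ) : ℝ := z (2 * i + 3) * z (2 * j + 3) - z (2 * (i + j + 3))

theorem al_eq (i j : ℕ) : z (2 * i + 3) * z (2 * j + 3) = (rho (i + j + 3) : ℝ) * (Real.pi ^ 2) ^ (i + j + 3) + al i j := by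
  rw [al, z_even (i + j + 3) (by omega)]
  ring

/-- common neighbours: for `i ≠ i'` there are at most `2 r + 1` numbers `j` with `al i j ∈ E` and `al i' j ∈ E` -/
theorem odd_common {L : Subfield ℝ} (hL : Transcendental L Real.pi) (E : Submodule L ℝ) (r : ℕ)
    (hE : Module.rank L E ≤ r) (i i' : ℕ) (hi : i ≠ i') (B : Finset ℕ) (hB : ∀ j ∈ B, al i j ∈ E ∧ al i' j ∈ E) :
    B.card ≤ 2 * r + 1 := by
  let F : Submodule L ℝ := E.map (LinearMap.mulLeft L (z (2 * i + 3))) ⊔ E.map (LinearMap.mulLeft L (z (2 * i' + 3)))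
  have hF : Module.rank L F ≤ ((2 * r : ℕ) : Cardinal) := by
    refine (Submodule.rank_add_le_rank_add_rank _ _).trans ?_
    have h1 := rank_map_le (LinearMap.mulLeft L (z (2 * i + 3))) E
    have h2 := rank_map_le (LinearMap.mulLeft L (z (2 * i' + 3))) E
    have h3 : ((2 * r : ℕ) : Cardinal) = (r : Cardinal) + r := by rw [two_mul]; push_cast; rfl
    rw [h3]
    exact add_le_add (h1.trans hE) (h2.trans hE)
  refine linear_two (transcendental_sq hL) F (2 * r) hF ((Real.pi ^ 2) ^ (i + 3) * z (2 * i' + 3))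
    ((Real.pi ^ 2) ^ (i' + 3) * z (2 * i + 3)) ?_ (i + 3) (i' + 3) (by omega) B (fun b _ => by omega) ?_
  · exact mul_ne_zero (by positivity) (z_ne _ (by omega))
  · intro j hj
    have e1 := al_eq i j
    have e2 := al_eq i' j
    have e : (Real.pi ^ 2) ^ j * ((rho (j + (i + 3)) : ℝ) * ((Real.pi ^ 2) ^ (i + 3) * z (2 * i' + 3)) -
        (rho (j + (i' + 3)) : ℝ) * ((Real.pi ^ 2) ^ (i' + 3) * z (2 * i + 3))) =
        z (2 * i + 3) * al i' j + z (2 * i' + 3) * (- al i j) := by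
      have h1 : j + (i + 3) = i + j + 3 := by omega
      have h2 : j + (i' + 3) = i' + j + 3 := by omega
      rw [h1, h2]
      have h3 : (Real.pi ^ 2) ^ (i + j + 3) = (Real.pi ^ 2) ^ j * (Real.pi ^ 2) ^ (i + 3) := by
        rw [← pow_add]; congr 1; omega
      have h4 : (Real.pi ^ 2) ^ (i' + j + 3) = (Real.pi ^ 2) ^ j * (Real.pi ^ 2) ^ (i' + 3) := by
        rw [← pow_add]; congr 1; omega
      rw [h3] at e1
      rw [h4] at e2
      linear_combination (-z (2 * i' + 3)) * e1 + z (2 * i + 3) * e2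
    rw [e]
    apply Submodule.add_mem_sup
    · exact Submodule.mem_map.2 ⟨al i' j, (hB j hj).2, rfl⟩
    · exact Submodule.mem_map.2 ⟨-al i j, E.neg_mem (hB j hj).1, rfl⟩

/-- the bad pairs of odd numbers -/
theorem odd_count {L : Subfield ℝ} (hL : Transcendental L Real.pi) (E : Submodule L ℝ) (r : ℕ)
    (hE : Module.rank L E ≤ r) (n : ℕ) (S : Finset (ℕ × ℕ)) (hS : S ⊆ Finset.range n ×ˢ Finset.range n)
    (h : ∀ p ∈ S, al p.1 p.2 ∈ E) : (S.card : ℝ) ≤ √((2 * r + 1) * n ^ 3) + n := by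
  have := count n (2 * r + 1) S hS ?_
  · push_cast at this
    exact this
  · intro i _ i' _ hii
    refine odd_common hL E r hE i i' hii _ ?_
    intro j hj
    rw [Finset.mem_filter] at hj
    exact ⟨h (i, j) hj.2.1, h (i', j) hj.2.2⟩

open Polynomial in
/-- four odd numbers -/
theorem odd_square {L : Subfield ℝ} (hL : Transcendental L Real.pi) (a b c d : ℕ) (h1 : a ≠ d) (h2 : b ≠ c)
    (hab : al a b ∈ L) (hcd : al c d ∈ L) (hac : al a c ∈ L) (hbd : al b d ∈ L) : False := by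
  have e1 := al_eq a b
  have e2 := al_eq c d
  have e3 := al_eq a c
  have e4 := al_eq b d
  let q : ℕ → L := fun m => algebraMap ℚ L (rho m)
  have hq : ∀ m, (algebraMap L ℝ) (q m) = (rho m : ℝ) := fun m => by simp [q]
  let P : L[X] := (C (q (a + b + 3)) * X ^ (a + b + 3) + C ⟨al a b, hab⟩) *
      (C (q (c + d + 3)) * X ^ (c + d + 3) + C ⟨al c d, hcd⟩) -
    (C (q (a + c + 3)) * X ^ (a + c + 3) + C ⟨al a c, hac⟩) *
      (C (q (b + d + 3)) * X ^ (b + d + 3) + C ⟨al b d, hbd⟩)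
  have hP : aeval (Real.pi ^ 2) P = 0 := by
    simp only [P, map_sub, map_mul, map_add, aeval_C, map_pow, aeval_X, hq]
    have f1 : (algebraMap L ℝ) ⟨al a b, hab⟩ = al a b := rfl
    have f2 : (algebraMap L ℝ) ⟨al c d, hcd⟩ = al c d := rfl
    have f3 : (algebraMap L ℝ) ⟨al a c, hac⟩ = al a c := rfl
    have f4 : (algebraMap L ℝ) ⟨al b d, hbd⟩ = al b d := rfl
    rw [f1, f2, f3, f4, ← e1, ← e2, ← e3, ← e4]
    ring
  have hP0 : P = 0 := (transcendental_iff.1 (transcendental_sq hL)) P hP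
  have hc : P.coeff (a + b + c + d + 6) = q (a + b + 3) * q (c + d + 3) - q (a + c + 3) * q (b + d + 3) := by
    have g : P = C (q (a + b + 3) * q (c + d + 3) - q (a + c + 3) * q (b + d + 3)) * X ^ (a + b + c + d + 6) +
        C (q (a + b + 3) * ⟨al c d, hcd⟩) * X ^ (a + b + 3) + C (q (c + d + 3) * ⟨al a b, hab⟩) * X ^ (c + d + 3) -
        C (q (a + c + 3) * ⟨al b d, hbd⟩) * X ^ (a + c + 3) - C (q (b + d + 3) * ⟨al a c, hac⟩) * X ^ (b + d + 3) +
        C (⟨al a b, hab⟩ * ⟨al c d, hcd⟩ - ⟨al a c, hac⟩ * ⟨al b d, hbd⟩) := by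
      have g1 : (X : L[X]) ^ (a + b + c + d + 6) = X ^ (a + b + 3) * X ^ (c + d + 3) := by
        rw [← pow_add]; congr 1; omega
      have g2 : (X : L[X]) ^ (a + b + 3) * X ^ (c + d + 3) = X ^ (a + c + 3) * X ^ (b + d + 3) := by
        rw [← pow_add, ← pow_add]; congr 1; omega
      simp only [P, C_mul, C_sub]
      rw [g1]
      linear_combination (-C (q (a + c + 3)) * C (q (b + d + 3))) * g2
    rw [g]
    simp only [coeff_add, coeff_sub, coeff_C_mul_X_pow]
    rw [if_pos trivial, if_neg (by omega), if_neg (by omega), if_neg (by omega), if_neg (by omega), coeff_C, if_neg (by omega)]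
    ring
  rw [hP0, coeff_zero] at hc
  have h3 := minor_ne b c (a + 3) (d + 3) (by omega) (by omega) (by omega) (by omega) h2 (by omega)
  apply h3
  have h4 : algebraMap ℚ L (rho (a + b + 3) * rho (c + d + 3)) = algebraMap ℚ L (rho (a + c + 3) * rho (b + d + 3)) := by
    rw [map_mul, map_mul]
    exact (sub_eq_zero.1 hc.symm)
  have h5 := (algebraMap ℚ L).injective h4
  have k1 : b + (a + 3) = a + b + 3 := by omega
  have k2 : c + (d + 3) = c + d + 3 := by omega
  have k3 : c + (a + 3) = a + c + 3 := by omega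
  have k4 : b + (d + 3) = b + d + 3 := by omega
  rw [k1, k2, k3, k4]
  exact h5

end Pool.Agent.H491.Sq
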