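import Mathlib
import Pool.Agent.H491.Sq3

set_option autoImplicit false

/-! # Symmetric sums of multiple zeta values and their recursion -/

namespace Pool.Agent.H491.All

open Pool.Agent.H447R2.MZ Pool.Agent.H491.Hit

variable {α β : Type*}

/-- the lists which arise by changing one entry `f` to `op f g` -/
def mods (op : α → α → α) (g : α) : List α → List (List α)
  | [] => []
  | f :: F => (op f g :: F) :: (mods op g F).map (List.cons f)

/-- sum over the lists which arise by changing one entry -/
def MS (op : α → α → α) (g : α) (F : List α) (φ : List α → ℝ) : ℝ := ((mods op g F).map φ).sum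

theorem MS_nil (op : α → α → α) (g : α) (φ : List α → ℝ) : MS op g [] φ = 0 := by simp [MS, mods]

theorem MS_cons (op : α → α → α) (g f : α) (F : List α) (φ : List α → ℝ) :
    MS op g (f :: F) φ = φ (op f g :: F) + MS op g F (fun F' => φ (f :: F')) := by
  simp [MS, mods, Function.comp_def]

theorem length_mods (op : α → α → α) (g : α) (F : List α) : ∀ F' ∈ mods op g F, F'.length = F.length := by
  induction F with
  | nil => simp [mods]
  | cons f F ih =>
    intro F' h
    simp only [mods, List.mem_cons, List.mem_map] at h
    rcases h with rfl | ⟨F'', h, rfl⟩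
    · simp
    · simp [ih F'' h]

theorem length_mods' (op : α → α → α) (g : α) (F : List α) : (mods op g F).length = F.length := by
  induction F with
  | nil => simp [mods]
  | cons f F ih => simp [mods, ih]

theorem MS_congr (op : α → α → α) (g : α) (F : List α) (φ ψ : List α → ℝ)
    (h : ∀ F' ∈ mods op g F, φ F' = ψ F') : MS op g F φ = MS op g F ψ := by
  unfold MS
  rw [List.map_congr_left h]

theorem MS_add (op : α → α → α) (g : α) (F : List α) (φ ψ : List α → ℝ) :
    MS op g F (fun F' => φ F' + ψ F') = MS op g F φ + MS op g F ψ := by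
  unfold MS
  exact List.sum_map_add

theorem MS_mul (op : α → α → α) (g : α) (F : List α) (c : ℝ) (φ : List α → ℝ) :
    MS op g F (fun F' => c * φ F') = c * MS op g F φ := by
  unfold MS
  exact List.sum_map_mul_left (mods op g F) φ c

theorem MS_const (op : α → α → α) (g : α) (F : List α) (φ : List α → ℝ) (c : ℝ)
    (h : ∀ F' ∈ mods op g F, φ F' = c) : MS op g F φ = F.length * c := by
  rw [MS_congr op g F φ (fun _ => c) h]
  simp [MS, length_mods']

theorem MS_append (op : α → α → α) (g : α) (F G : List α) (φ : List α → ℝ) :
    MS op g (F ++ G) φ = MS op g F (fun F' => φ (F' ++ G)) + MS op g G (fun G' => φ (F ++ G')) := by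
  induction F generalizing φ with
  | nil => simp [MS_nil]
  | cons f F ih =>
    rw [List.cons_append, MS_cons, ih, MS_cons]
    simp only [List.cons_append]
    ring

/-- `n` steps of the recursion of the symmetric sums -/
def Sn (op : α → α → α) (p : α → ℝ) : ℕ → List α → ℝ
  | 0, _ => 1
  | _ + 1, [] => 1
  | n + 1, g :: F => p g * Sn op p n F - MS op g F (Sn op p n)

/-- the symmetric sum of a list -/
def S (op : α → α → α) (p : α → ℝ) (F : List α) : ℝ := Sn op p F.length F

theorem S_nil (op : α → α → α) (p : α → ℝ) : S op p [] = 1 := rfl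

theorem S_cons (op : α → α → α) (p : α → ℝ) (g : α) (F : List α) :
    S op p (g :: F) = p g * S op p F - MS op g F (S op p) := by
  have h : S op p (g :: F) = p g * Sn op p F.length F - MS op g F (Sn op p F.length) := rfl
  rw [h]
  congr 1
  apply MS_congr
  intro F' hF'
  rw [S, length_mods op g F F' hF']

theorem S_map (op : α → α → α) (p : α → ℝ) (op' : β → β → β) (p' : β → ℝ) (h : β → α)
    (hop : ∀ x y, h (op' x y) = op (h x) (h y)) (hp : ∀ x, p (h x) = p' x) :
    ∀ (n : ℕ) (F : List β), F.length = n → S op p (F.map h) = S op' p' F := by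
  have hmods : ∀ (g : β) (F : List β), mods op (h g) (F.map h) = (mods op' g F).map (List.map h) := by
    intro g F
    induction F with
    | nil => simp [mods]
    | cons f F ih => simp [mods, ih, hop, Function.comp_def]
  intro n
  induction n with
  | zero =>
    intro F hF
    rw [List.length_eq_zero_iff] at hF
    subst hF
    rfl
  | succ n ih =>
    intro F hF
    rcases F with _ | ⟨g, F⟩
    · rfl
    · simp only [List.length_cons, Nat.add_right_cancel_iff] at hF
      rw [List.map_cons, S_cons, S_cons, ih F hF, hp]
      congr 1
      unfold MS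
      rw [hmods, List.map_map]
      apply congrArg
      apply List.map_congr_left
      intro F' hF'
      rw [Function.comp_apply, ih F' (by rw [length_mods op' g F F' hF', hF])]

/-- sum over the permutations -/
def P (φ : List ℕ → ℝ) (A : List ℕ) : ℝ := (A.permutations'.map φ).sum

/-- sum over the insertions -/
def I (a : ℕ) (w : List ℕ) (φ : List ℕ → ℝ) : ℝ := ((w.permutations'Aux a).map φ).sum

theorem I_nil (a : ℕ) (φ : List ℕ → ℝ) : I a [] φ = φ [a] := by simp [I]

theorem I_cons (a x : ℕ) (w : List ℕ) (φ : List ℕ → ℝ) :
    I a (x :: w) φ = φ (a :: x :: w) + I a w (fun F => φ (x :: F)) := by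
  simp [I, Function.comp_def]

theorem P_nil (φ : List ℕ → ℝ) : P φ [] = φ [] := by simp [P]

theorem sum_flatMap' (f : List ℕ → List ℝ) (l : List (List ℕ)) : (l.flatMap f).sum = (l.map fun x => (f x).sum).sum := by
  induction l with
  | nil => simp
  | cons x l ih => simp [ih]

theorem P_cons (φ : List ℕ → ℝ) (a : ℕ) (A : List ℕ) : P φ (a :: A) = P (fun w => I a w φ) A := by
  unfold P
  have e : (a :: A).permutations' = A.permutations'.flatMap (List.permutations'Aux a) := rfl
  rw [e, List.map_flatMap, sum_flatMap']
  rfl

theorem I_MS (a b : ℕ) (w : List ℕ) (φ : List ℕ → ℝ) :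
    I a w (fun F => MS (· + ·) b F φ) = I (a + b) w φ + MS (· + ·) b w (fun F => I a F φ) := by
  induction w generalizing φ with
  | nil => simp [I_nil, MS_nil, MS_cons]
  | cons x w ih =>
    rw [I_cons, I_cons, MS_cons, MS_cons, MS_cons]
    simp only [I_cons, MS_cons]
    have h1 : I a w (fun F => φ ((x + b) :: F) + MS (· + ·) b F fun F' => φ (x :: F')) =
        I a w (fun F => φ ((x + b) :: F)) + I a w (fun F => MS (· + ·) b F fun F' => φ (x :: F')) := by
      unfold I
      exact List.sum_map_add
    rw [h1, ih, MS_add]
    ring

theorem P_MS (b : ℕ) (A : List ℕ) (φ : List ℕ → ℝ) :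
    P (fun w => MS (· + ·) b w φ) A = MS (· + ·) b A (P φ) := by
  induction A generalizing φ with
  | nil => simp [P_nil, MS_nil]
  | cons a A ih =>
    rw [P_cons, MS_cons, P_cons]
    simp only [I_MS, P_cons]
    have h1 : P (fun w => I (a + b) w φ + MS (· + ·) b w fun F => I a F φ) A =
        P (fun w => I (a + b) w φ) A + P (fun w => MS (· + ·) b w fun F => I a F φ) A := by
      unfold P
      exact List.sum_map_add
    rw [h1, ih]

theorem sum_st_single (b : ℕ) (w : List ℕ) (φ : List ℕ → ℝ) :
    ((st [b] w).map φ).sum = I b w φ + MS (· + ·) b w φ := by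
  induction w generalizing φ with
  | nil => simp [st, I_nil, MS_nil]
  | cons x w ih =>
    have e : st [b] (x :: w) = (st [] (x :: w)).map (List.cons b) ++ (st [b] w).map (List.cons x) ++
        (st [] w).map (List.cons (b + x)) := by conv_lhs => rw [st]
    have e1 : ∀ t : List ℕ, st [] t = [t] := fun t => by rw [st]
    rw [e, e1, e1]
    simp only [List.map_append, List.sum_append, List.map_map, List.map_cons, List.map_nil, List.sum_cons, List.sum_nil,
      add_zero, Function.comp_def]
    have h2 := ih (fun F => φ (x :: F))
    rw [h2, I_cons, MS_cons, add_comm b x]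
    ring

theorem P_val_cons (b : ℕ) (hb : 2 ≤ b) (A : List ℕ) (hA : ∀ a ∈ A, 2 ≤ a) :
    P val (b :: A) = Sq.z b * P val A - MS (· + ·) b A (P val) := by
  rw [← P_MS, P_cons]
  have hadm : ∀ w ∈ A.permutations', Adm w := by
    intro w hw
    rw [List.mem_permutations'] at hw
    refine ⟨fun a ha => ?_, fun a t h => ?_⟩
    · have := hA a (hw.mem_iff.1 ha)
      omega
    · exact hA a (hw.mem_iff.1 (by rw [h]; simp))
  have h1 : Sq.z b * P val A = (A.permutations'.map fun w => I b w val + MS (· + ·) b w val).sum := by
    unfold P
    rw [← List.sum_map_mul_left]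
    apply congrArg
    apply List.map_congr_left
    intro w hw
    rw [Sq.z, val_mul [b] w (adm_single b hb) (hadm w hw), sum_st_single]
  rw [h1]
  unfold P
  rw [List.sum_map_add]
  ring

/-- the symmetric sums of multiple zeta values satisfy the recursion -/
theorem S_eq_P : ∀ (n : ℕ) (A : List ℕ), A.length = n → (∀ a ∈ A, 2 ≤ a) → S (· + ·) Sq.z A = P val A := by
  intro n
  induction n with
  | zero =>
    intro A hA _
    rw [List.length_eq_zero_iff] at hA
    subst hA
    rw [S_nil, P_nil, val_nil]
  | succ n ih =>
    intro A hA h2
    rcases A with _ | ⟨b, A⟩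
    · simp at hA
    · simp only [List.length_cons, Nat.add_right_cancel_iff] at hA
      rw [S_cons, P_val_cons b (h2 b (by simp)) A (fun a ha => h2 a (by simp [ha])), ih A hA fun a ha => h2 a (by simp [ha])]
      congr 1
      apply MS_congr
      intro F' hF'
      apply ih F' (by rw [length_mods _ _ _ _ hF', hA])
      have : ∀ (A : List ℕ), (∀ a ∈ A, 2 ≤ a) → ∀ F ∈ mods (· + ·) b A, ∀ a ∈ F, 2 ≤ a := by
        intro A
        induction A with
        | nil => simp [mods]
        | cons x A ih =>
          intro hA F hF
          simp only [mods, List.mem_cons, List.mem_map] at hF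
          rcases hF with rfl | ⟨F'', h, rfl⟩
          · intro a ha
            rcases List.mem_cons.1 ha with rfl | ha
            · have := hA x (by simp)
              omega
            · exact hA a (by simp [ha])
          · intro a ha
            rcases List.mem_cons.1 ha with rfl | ha
            · exact hA a (by simp)
            · exact ih (fun a ha => hA a (by simp [ha])) F'' h a ha
      exact this A (fun a ha => h2 a (by simp [ha])) F' hF'

end Pool.Agent.H491.All
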