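import Mathlib
import Pool.Agent.H491.All1

set_option autoImplicit false

/-! # Symmetric sums of polynomials: linearity in each entry, annihilated families -/

namespace Pool.Agent.H491.All

open Polynomial

/-- the linear functional `X ^ k ↦ ζ(k)` -/
noncomputable def pz : ℝ[X] →ₗ[ℝ] ℝ :=
  Polynomial.lsum fun k => (LinearMap.id : ℝ →ₗ[ℝ] ℝ).smulRight (Sq.z k)

theorem pz_C_mul_X_pow (c : ℝ) (k : ℕ) : pz (C c * X ^ k) = c * Sq.z k := by
  rw [pz, C_mul_X_pow_eq_monomial]
  simp [Polynomial.lsum_apply, Polynomial.sum_monomial_index]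

theorem pz_X_pow (k : ℕ) : pz (X ^ k) = Sq.z k := by
  have := pz_C_mul_X_pow 1 k
  simpa using this

theorem pz_C_mul (c : ℝ) (f : ℝ[X]) : pz (C c * f) = c * pz f := by
  rw [← smul_eq_C_mul, map_smul, smul_eq_mul]

/-- linearity in each entry for lists of length `m` -/
def SL (φ : List ℝ[X] → ℝ) (m : ℕ) : Prop :=
  ∀ u v : List ℝ[X], u.length + v.length + 1 = m → IsLinearMap ℝ fun x => φ (u ++ x :: v)

theorem isLinear_listsum {ι : Type*} (l : List ι) (ψ : ι → ℝ[X] → ℝ) (h : ∀ i ∈ l, IsLinearMap ℝ (ψ i)) :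
    IsLinearMap ℝ fun x => (l.map fun i => ψ i x).sum := by
  induction l with
  | nil => exact ⟨fun _ _ => by simp, fun _ _ => by simp⟩
  | cons i l ih =>
    have h1 := h i (by simp)
    have h2 := ih fun j hj => h j (by simp [hj])
    simp only [List.map_cons, List.sum_cons]
    exact ⟨fun x y => by rw [h1.map_add, h2.map_add]; ring, fun c x => by rw [h1.map_smul, h2.map_smul, smul_add]⟩

theorem isLinear_MS (g : ℝ[X]) (v : List ℝ[X]) (ψ : ℝ[X] → List ℝ[X] → ℝ)
    (h : ∀ F ∈ mods (· * ·) g v, IsLinearMap ℝ fun x => ψ x F) : IsLinearMap ℝ fun x => MS (· * ·) g v (ψ x) := by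
  unfold MS
  exact isLinear_listsum (mods (· * ·) g v) (fun F x => ψ x F) h

theorem IsLinearMap.add' {f g : ℝ[X] → ℝ} (hf : IsLinearMap ℝ f) (hg : IsLinearMap ℝ g) : IsLinearMap ℝ fun x => f x + g x :=
  ⟨fun x y => by rw [hf.map_add, hg.map_add]; ring, fun c x => by rw [hf.map_smul, hg.map_smul, smul_add]⟩

theorem IsLinearMap.sub' {f g : ℝ[X] → ℝ} (hf : IsLinearMap ℝ f) (hg : IsLinearMap ℝ g) : IsLinearMap ℝ fun x => f x - g x :=
  ⟨fun x y => by rw [hf.map_add, hg.map_add]; ring, fun c x => by rw [hf.map_smul, hg.map_smul, smul_sub]⟩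

theorem IsLinearMap.comp_mul_left {f : ℝ[X] → ℝ} (hf : IsLinearMap ℝ f) (a : ℝ[X]) : IsLinearMap ℝ fun x => f (a * x) :=
  ⟨fun x y => by rw [mul_add, hf.map_add], fun c x => by rw [mul_smul_comm, hf.map_smul]⟩

theorem IsLinearMap.comp_mul_right {f : ℝ[X] → ℝ} (hf : IsLinearMap ℝ f) (a : ℝ[X]) : IsLinearMap ℝ fun x => f (x * a) :=
  ⟨fun x y => by rw [add_mul, hf.map_add], fun c x => by rw [smul_mul_assoc, hf.map_smul]⟩

theorem SL.cons {φ : List ℝ[X] → ℝ} {m : ℕ} (h : SL φ (m + 1)) (f : ℝ[X]) : SL (fun F => φ (f :: F)) m := by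
  intro u v huv
  exact h (f :: u) v (by simp only [List.length_cons]; omega)

theorem SL_MS_g (F : List ℝ[X]) : ∀ (φ : List ℝ[X] → ℝ), SL φ F.length → IsLinearMap ℝ fun x => MS (· * ·) x F φ := by
  induction F with
  | nil =>
    intro φ _
    simp only [MS_nil]
    exact ⟨fun _ _ => by simp, fun _ _ => by simp⟩
  | cons f F ih =>
    intro φ h
    simp only [MS_cons]
    refine IsLinearMap.add' ?_ (ih _ (SL.cons h f))
    exact IsLinearMap.comp_mul_left (h [] F (by simp)) f

theorem SL_MS (g : ℝ[X]) (u : List ℝ[X]) : ∀ (φ : List ℝ[X] → ℝ) (v : List ℝ[X]), SL φ (u.length + v.length + 1) →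
    IsLinearMap ℝ fun x => MS (· * ·) g (u ++ x :: v) φ := by
  induction u with
  | nil =>
    intro φ v h
    simp only [List.nil_append, MS_cons]
    refine IsLinearMap.add' ?_ ?_
    · exact IsLinearMap.comp_mul_right (h [] v (by simp)) g
    · apply isLinear_MS g v (fun x F' => φ (x :: F'))
      intro F hF
      exact h [] F (by rw [length_mods _ _ _ _ hF])
  | cons f u ih =>
    intro φ v h
    simp only [List.cons_append, MS_cons]
    refine IsLinearMap.add' ?_ ?_
    · exact h ((f * g) :: u) v (by simp)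
    · apply ih (fun F' => φ (f :: F')) v
      have e : (f :: u).length + v.length + 1 = (u.length + v.length + 1) + 1 := by simp only [List.length_cons]; omega
      rw [e] at h
      exact SL.cons h f

/-- the symmetric sum of polynomials -/
noncomputable def Sp (F : List ℝ[X]) : ℝ := S (· * ·) pz F

theorem Sp_cons (g : ℝ[X]) (F : List ℝ[X]) : Sp (g :: F) = pz g * Sp F - MS (· * ·) g F Sp := S_cons _ _ g F

theorem Sp_nil : Sp [] = 1 := S_nil _ _

theorem SL_Sp (m : ℕ) : SL Sp m := by
  induction m with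
  | zero =>
    intro u v h
    omega
  | succ m ih =>
    intro u v h
    rcases u with _ | ⟨g, u⟩
    · simp only [List.nil_append, Sp_cons]
      refine IsLinearMap.sub' ?_ ?_
      · exact ⟨fun x y => by rw [map_add]; ring, fun c x => by rw [map_smul]; simp only [smul_eq_mul]; ring⟩
      · apply SL_MS_g
        simp only [List.length_nil] at h
        have e : v.length = m := by omega
        rw [e]
        exact ih
    · simp only [List.cons_append, Sp_cons]
      simp only [List.length_cons] at h
      have h1 := ih u v (by omega)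
      refine IsLinearMap.sub' ?_ ?_
      · exact ⟨fun x y => by rw [h1.map_add]; ring, fun c x => by rw [h1.map_smul]; simp only [smul_eq_mul]; ring⟩
      · apply SL_MS
        have e : u.length + v.length + 1 = m := by omega
        rw [e]
        exact ih

/-- `∑_{k < w} c_k X ^ (a + 2 k)` -/
noncomputable def poly (w a : ℕ) (c : ℕ → ℝ) : ℝ[X] := ∑ k ∈ Finset.range w, C (c k) * X ^ (a + 2 * k)

theorem Sp_poly (w a : ℕ) (c : ℕ → ℝ) (u v : List ℝ[X]) :
    Sp (u ++ poly w a c :: v) = ∑ k ∈ Finset.range w, c k * Sp (u ++ X ^ (a + 2 * k) :: v) := by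
  have h := SL_Sp (u.length + v.length + 1) u v rfl
  have h1 : Sp (u ++ poly w a c :: v) = IsLinearMap.mk' _ h (poly w a c) := rfl
  rw [h1, poly, map_sum]
  refine Finset.sum_congr rfl fun k _ => ?_
  rw [← smul_eq_C_mul, map_smul]
  rfl

theorem Sp_X_pow (A : List ℕ) (hA : ∀ a ∈ A, 2 ≤ a) : Sp (A.map fun a => (X : ℝ[X]) ^ a) = P Pool.Agent.H447R2.MZ.val A := by
  rw [← S_eq_P A.length A rfl hA]
  exact S_map (· * ·) pz (· + ·) Sq.z (fun a => (X : ℝ[X]) ^ a) (fun x y => pow_add _ _ _) (fun x => pz_X_pow x) A.length A rfl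

/-- every product of a nonempty sublist is annihilated, also after multiplication by `A` -/
def Nul (l : List ℝ[X]) (A : ℝ[X]) : Prop := ∀ s, s.Sublist l → s ≠ [] → pz s.prod = 0 ∧ pz (A * s.prod) = 0

theorem sublist_mods (h : ℝ[X]) (t : List ℝ[X]) : ∀ F ∈ mods (· * ·) h t, ∀ s, s.Sublist F →
    (∃ s' : List ℝ[X], s'.Sublist t ∧ s'.prod = s.prod ∧ (s ≠ [] → s' ≠ [])) ∨
      ∃ s' : List ℝ[X], s'.Sublist t ∧ h * s'.prod = s.prod := by
  induction t with
  | nil => simp [mods]
  | cons f t ih =>
    intro F hF s hs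
    simp only [mods, List.mem_cons, List.mem_map] at hF
    rcases hF with rfl | ⟨F', hF', rfl⟩
    · rcases List.sublist_cons_iff.1 hs with hs | ⟨r, rfl, hr⟩
      · exact Or.inl ⟨s, hs.cons _, rfl, id⟩
      · refine Or.inr ⟨f :: r, hr.cons_cons f, ?_⟩
        simp only [List.prod_cons]
        ring
    · rcases List.sublist_cons_iff.1 hs with hs | ⟨r, rfl, hr⟩
      · rcases ih F' hF' s hs with ⟨s', h1, h2, h3⟩ | ⟨s', h1, h2⟩
        · exact Or.inl ⟨s', h1.cons _, h2, h3⟩
        · exact Or.inr ⟨s', h1.cons _, h2⟩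
      · rcases ih F' hF' r hr with ⟨s', h1, h2, h3⟩ | ⟨s', h1, h2⟩
        · exact Or.inl ⟨f :: s', h1.cons_cons f, by simp [h2], by simp⟩
        · refine Or.inr ⟨f :: s', h1.cons_cons f, ?_⟩
          simp only [List.prod_cons, ← h2]
          ring

theorem prod_mods (h : ℝ[X]) (t : List ℝ[X]) : ∀ F ∈ mods (· * ·) h t, F.prod = h * t.prod := by
  induction t with
  | nil => simp [mods]
  | cons f t ih =>
    intro F hF
    simp only [mods, List.mem_cons, List.mem_map] at hF
    rcases hF with rfl | ⟨F', hF', rfl⟩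
    · simp only [List.prod_cons]
      ring
    · simp only [List.prod_cons, ih F' hF']
      ring

/-- the symmetric sum of an annihilated family and two further polynomials -/
theorem Sp_nul (k : ℕ) : ∀ (l : List ℝ[X]) (A G : ℝ[X]), l.length = k → Nul l A →
    Sp (l ++ [A, G]) = (-1) ^ k * (k.factorial * (pz A * pz (G * l.prod)) - (k + 1).factorial * pz (A * G * l.prod)) := by
  induction k with
  | zero =>
    intro l A G hl _
    rw [List.length_eq_zero_iff] at hl
    subst hl
    rw [List.nil_append, Sp_cons, Sp_cons, MS_cons, MS_nil, MS_nil, Sp_cons, MS_nil, Sp_nil]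
    simp only [List.prod_nil, Nat.factorial, mul_one, pow_zero]
    rw [mul_comm A G]
    push_cast
    ring
  | succ k ih =>
    intro l A G hl hN
    rcases l with _ | ⟨h, t⟩
    · simp at hl
    · simp only [List.length_cons, Nat.add_right_cancel_iff] at hl
      have h0 := hN [h] (by simp) (by simp)
      simp only [List.prod_singleton] at h0
      rw [List.cons_append, Sp_cons, h0.1, MS_append, MS_cons, MS_cons, MS_nil]
      have hN1 : ∀ F ∈ mods (· * ·) h t, Nul F A := by
        intro F hF s hs hs0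
        rcases sublist_mods h t F hF s hs with ⟨s', h1, h2, h3⟩ | ⟨s', h1, h2⟩
        · rw [← h2]
          exact hN s' (h1.cons _) (h3 hs0)
        · have := hN (h :: s') (h1.cons_cons h) (by simp)
          rw [List.prod_cons] at this
          rw [← h2]
          exact this
      have hN2 : Nul t (A * h) := by
        intro s hs hs0
        refine ⟨(hN s (hs.cons _) hs0).1, ?_⟩
        have := (hN (h :: s) (hs.cons_cons h) (by simp)).2
        rw [List.prod_cons] at this
        rw [mul_assoc]
        exact this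
      have hN3 : Nul t A := fun s hs hs0 => hN s (hs.cons _) hs0
      rw [MS_const (· * ·) h t (fun F' => Sp (F' ++ [A, G]))
        ((-1) ^ k * (k.factorial * (pz A * pz (G * (h * t.prod))) - (k + 1).factorial * pz (A * G * (h * t.prod)))) ?_]
      · rw [ih t (A * h) G hl hN2, ih t A (G * h) hl hN3, h0.2, hl]
        simp only [List.prod_cons]
        have e1 : A * h * G * t.prod = A * G * (h * t.prod) := by ring
        have e2 : A * (G * h) * t.prod = A * G * (h * t.prod) := by ring
        have e3 : G * h * t.prod = G * (h * t.prod) := by ring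
        rw [e1, e2, e3]
        have f1 : ((k + 1 + 1).factorial : ℝ) = (k + 2) * (k + 1).factorial := by
          rw [Nat.factorial_succ (k + 1)]
          push_cast
          ring
        have f2 : ((k + 1).factorial : ℝ) = (k + 1) * k.factorial := by
          rw [Nat.factorial_succ k]
          push_cast
          ring
        rw [f1, f2, pow_succ]
        ring
      · intro F hF
        rw [ih F A G (by rw [length_mods _ _ _ _ hF, hl]) (hN1 F hF), prod_mods h t F hF]

end Pool.Agent.H491.All
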