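import Mathlib
import Pool.Agent.H491.Sq2

set_option autoImplicit false

/-! # The Hankel type minors of the sequence `rho` are nonzero (Descartes' rule of signs) -/

namespace Pool.Agent.H491.All

open Polynomial

theorem signVariations_lt (N : ℝ[X]) (hN : N ≠ 0) : N.signVariations < N.support.card := by
  have key : ∀ (n : ℕ) (N : ℝ[X]), N ≠ 0 → N.support.card = n → N.signVariations < n := by
    intro n
    induction n with
    | zero =>
      intro N hN h
      exact absurd (Polynomial.card_support_eq_zero.1 h) hN
    | succ n ih =>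
      intro N hN h
      by_cases he : N.eraseLead = 0
      · have h1 := Polynomial.signVariations_le_eraseLead_succ N
        have h3 : N = monomial N.natDegree N.leadingCoeff := by
          have := N.eraseLead_add_monomial_natDegree_leadingCoeff
          rw [he, zero_add] at this
          exact this.symm
        rw [h3, Polynomial.signVariations_monomial]
        omega
      · have h1 := Polynomial.signVariations_le_eraseLead_succ N
        have h2 : N.eraseLead.support.card = n := by
          have := Polynomial.card_support_eraseLead_add_one hN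
          omega
        have := ih _ he h2
        omega
  exact key _ N hN rfl

/-- `θ_n = 1 / (π ^ 2 (n + 1) ^ 2)` -/
noncomputable def theta (n : ℕ) : ℝ := 1 / (Real.pi ^ 2 * ((n : ℝ) + 1) ^ 2)

theorem theta_pos (n : ℕ) : 0 < theta n := by
  unfold theta
  positivity

theorem theta_inj : Function.Injective theta := by
  intro a b h
  unfold theta at h
  have h1 : Real.pi ^ 2 * ((a : ℝ) + 1) ^ 2 = Real.pi ^ 2 * ((b : ℝ) + 1) ^ 2 := by
    rw [one_div, one_div, inv_inj] at h
    exact h
  have h2 : ((a : ℝ) + 1) ^ 2 = ((b : ℝ) + 1) ^ 2 := mul_left_cancel₀ (by positivity) h1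
  have h3 : (a : ℝ) + 1 = (b : ℝ) + 1 := by
    have := (sq_eq_sq₀ (by positivity : (0 : ℝ) ≤ (a : ℝ) + 1) (by positivity : (0 : ℝ) ≤ (b : ℝ) + 1)).1 h2
    exact this
  have h4 : (a : ℝ) = b := by linarith
  exact_mod_cast h4

theorem hasSum_theta (m : ℕ) (hm : 1 ≤ m) : HasSum (fun n => theta n ^ m) (Sq.rho m : ℝ) := by
  have h := (Sq.hasSum_z (2 * m) (by omega)).div_const ((Real.pi ^ 2) ^ m)
  rw [Sq.z_even m hm, mul_div_assoc, div_self (by positivity), mul_one] at h
  have e : (fun n => theta n ^ m) = fun i : ℕ => 1 / ((i : ℝ) + 1) ^ (2 * m) / (Real.pi ^ 2) ^ m := by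
    funext n
    unfold theta
    rw [div_div, one_div, one_div, inv_pow, mul_pow, ← pow_mul, ← pow_mul, mul_comm]
  rw [e]
  exact h

theorem hankel_ne (m s₀ : ℕ) (hs : 1 ≤ s₀) (β : Fin m → ℕ) (hβ : Function.Injective β) :
    (Matrix.of fun k i : Fin m => Sq.rho (β k + (s₀ + i))).det ≠ 0 := by
  classical
  intro hdet
  have hdet' : (Matrix.of fun k i : Fin m => (Sq.rho (β k + (s₀ + i)) : ℝ)).det = 0 := by
    have h1 := congrArg (Rat.castHom ℝ) hdet
    rw [RingHom.map_det, map_zero] at h1
    exact h1
  obtain ⟨ν, hν0, hν⟩ := Matrix.exists_vecMul_eq_zero_iff.2 hdet'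
  have hν' : ∀ i : Fin m, ∑ k, ν k * (Sq.rho (β k + (s₀ + i)) : ℝ) = 0 := fun i => congrFun hν i
  set N : ℝ[X] := ∑ k, C (ν k) * X ^ β k with hN
  have hcoef : ∀ k, N.coeff (β k) = ν k := by
    intro k
    rw [hN, Polynomial.finsetSum_coeff, Finset.sum_eq_single k]
    · simp
    · intro j _ hj
      rw [Polynomial.coeff_C_mul_X_pow, if_neg]
      intro h
      exact hj (hβ h.symm)
    · intro h
      exact absurd (Finset.mem_univ k) h
  have hN0 : N ≠ 0 := by
    intro h
    apply hν0
    funext k
    rw [← hcoef k, h]
    simp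
  have hsupp : N.support.card ≤ m := by
    have h1 : N.support ⊆ Finset.univ.image β := by
      intro j hj
      rw [Finset.mem_image]
      by_contra hcon
      push Not at hcon
      rw [Polynomial.mem_support_iff] at hj
      apply hj
      rw [hN, Polynomial.finsetSum_coeff]
      apply Finset.sum_eq_zero
      intro k _
      rw [Polynomial.coeff_C_mul_X_pow, if_neg]
      exact fun h => hcon k (Finset.mem_univ k) h.symm
    refine (Finset.card_le_card h1).trans ((Finset.card_image_le).trans ?_)
    simp
  set Z := N.roots.filter (0 < ·) with hZ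
  have hZcard : Z.card < m := by
    have h1 := Polynomial.roots_countP_pos_le_signVariations (P := N)
    rw [Multiset.countP_eq_card_filter, ← hZ] at h1
    have h2 := signVariations_lt N hN0
    omega
  set q : ℝ[X] := (Z.map fun a => X - C a).prod with hq
  have hqm : q.Monic := Polynomial.monic_multiset_prod_of_monic _ _ fun a _ => Polynomial.monic_X_sub_C a
  have hqdeg : q.natDegree < m := by
    rw [hq, Polynomial.natDegree_multiset_prod_X_sub_C_eq_card]
    exact hZcard
  have hdvd : q ∣ N := by
    rw [hq]
    exact (Multiset.prod_X_sub_C_dvd_iff_le_roots hN0 Z).2 (Multiset.filter_le _ _)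
  obtain ⟨M, hM⟩ := hdvd
  have hM0 : M ≠ 0 := by
    rintro rfl
    rw [mul_zero] at hM
    exact hN0 hM
  have hMpos : ∀ x : ℝ, 0 < x → M.eval x ≠ 0 := by
    intro x hx hMx
    have h1 : N.roots = q.roots + M.roots := by
      rw [hM]
      exact Polynomial.roots_mul (by rw [← hM]; exact hN0)
    have h2 : q.roots = Z := by rw [hq]; exact Polynomial.roots_multiset_prod_X_sub_C Z
    have h3 : x ∈ M.roots := (Polynomial.mem_roots hM0).2 hMx
    have h4 : N.roots.count x = q.roots.count x + M.roots.count x := by rw [h1, Multiset.count_add]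
    have h5 : Z.count x = N.roots.count x := by rw [hZ, Multiset.count_filter, if_pos hx]
    rw [h2, h5] at h4
    have h6 := Multiset.count_pos.2 h3
    omega
  have hsum : HasSum (fun n => theta n ^ s₀ * (N.eval (theta n) * q.eval (theta n))) 0 := by
    have h1 : ∀ i : Fin m, HasSum (fun n => q.coeff i * (theta n ^ (s₀ + (i : ℕ)) * N.eval (theta n))) 0 := by
      intro i
      have h2 : HasSum (fun n => ∑ k, ν k * theta n ^ (β k + (s₀ + (i : ℕ)))) (∑ k, ν k * (Sq.rho (β k + (s₀ + i)) : ℝ)) :=
        hasSum_sum fun k _ => (hasSum_theta _ (by omega)).mul_left (ν k)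
      rw [hν' i] at h2
      have h3 := h2.mul_left (q.coeff i)
      rw [mul_zero] at h3
      have e : (fun n => q.coeff i * (theta n ^ (s₀ + (i : ℕ)) * N.eval (theta n))) =
          fun n => q.coeff i * ∑ k, ν k * theta n ^ (β k + (s₀ + (i : ℕ))) := by
        funext n
        congr 1
        rw [hN, Polynomial.eval_finsetSum, Finset.mul_sum]
        refine Finset.sum_congr rfl fun k _ => ?_
        simp only [Polynomial.eval_mul, Polynomial.eval_C, Polynomial.eval_pow, Polynomial.eval_X]
        rw [pow_add (theta n) (β k)]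
        ring
      rw [e]
      exact h3
    have h4 := hasSum_sum fun (i : Fin m) (_ : i ∈ Finset.univ) => h1 i
    rw [Finset.sum_const_zero] at h4
    have e : (fun n => theta n ^ s₀ * (N.eval (theta n) * q.eval (theta n))) =
        fun n => ∑ i : Fin m, q.coeff i * (theta n ^ (s₀ + (i : ℕ)) * N.eval (theta n)) := by
      funext n
      rw [Polynomial.eval_eq_sum_range' hqdeg, ← Fin.sum_univ_eq_sum_range (fun i => q.coeff i * theta n ^ i) m,
        Finset.mul_sum, Finset.mul_sum]
      refine Finset.sum_congr rfl fun i _ => ?_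
      rw [pow_add]
      ring
    rw [e]
    exact h4
  have hsum' : HasSum (fun n => theta n ^ s₀ * (q.eval (theta n) ^ 2 * M.eval (theta n))) 0 := by
    have e : (fun n => theta n ^ s₀ * (q.eval (theta n) ^ 2 * M.eval (theta n))) =
        fun n => theta n ^ s₀ * (N.eval (theta n) * q.eval (theta n)) := by
      funext n
      rw [hM, Polynomial.eval_mul]
      ring
    rw [e]
    exact hsum
  have hsign : (∀ x : ℝ, 0 < x → 0 < M.eval x) ∨ ∀ x : ℝ, 0 < x → M.eval x < 0 := by
    by_contra hcon
    push Not at hcon
    obtain ⟨⟨x, hx, hx'⟩, y, hy, hy'⟩ := hcon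
    have hc : ContinuousOn (fun t => M.eval t) (Set.Ioi (0 : ℝ)) := M.continuous.continuousOn
    have := isPreconnected_Ioi.intermediate_value (Set.mem_Ioi.2 hx) (Set.mem_Ioi.2 hy) hc
    obtain ⟨t, ht, ht0⟩ := this ⟨hx', hy'⟩
    exact hMpos t ht ht0
  have hzero : ∀ n, q.eval (theta n) = 0 := by
    rcases hsign with h | h
    · have h1 := (hasSum_zero_iff_of_nonneg (fun n => by
        have := h (theta n) (theta_pos n)
        have := theta_pos n
        positivity)).1 hsum'
      intro n
      have h2 := congrFun h1 n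
      simp only [Pi.zero_apply, mul_eq_zero] at h2
      rcases h2 with h2 | h2 | h2
      · exact absurd h2 (pow_ne_zero _ (theta_pos n).ne')
      · exact pow_eq_zero_iff (two_ne_zero) |>.1 h2
      · exact absurd h2 (h _ (theta_pos n)).ne'
    · have h0 := hsum'.neg
      rw [neg_zero] at h0
      have h1 := (hasSum_zero_iff_of_nonneg (fun n => by
        have h3 := h (theta n) (theta_pos n)
        have h4 := theta_pos n
        have h5 : 0 ≤ theta n ^ s₀ := by positivity
        have h6 : 0 ≤ q.eval (theta n) ^ 2 := by positivity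
        have : 0 ≤ theta n ^ s₀ * (q.eval (theta n) ^ 2 * (-M.eval (theta n))) :=
          mul_nonneg h5 (mul_nonneg h6 (by linarith))
        linarith)).1 h0
      intro n
      have h2 := congrFun h1 n
      simp only [Pi.zero_apply, neg_eq_zero, mul_eq_zero] at h2
      rcases h2 with h2 | h2 | h2
      · exact absurd h2 (pow_ne_zero _ (theta_pos n).ne')
      · exact pow_eq_zero_iff (two_ne_zero) |>.1 h2
      · exact absurd h2 (h _ (theta_pos n)).ne
  have hq0 : q = 0 := by
    apply Polynomial.eq_zero_of_infinite_isRoot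
    refine Set.Infinite.mono ?_ (Set.infinite_range_of_injective theta_inj)
    rintro _ ⟨n, rfl⟩
    exact hzero n
  exact hqm.ne_zero hq0

end Pool.Agent.H491.All
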