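import Mathlib
import Pool.Agent.H491.All2
import Pool.Agent.H491.All3

set_option autoImplicit false

/-! # Annihilated families of given shape; the values of the combinations -/

namespace Pool.Agent.H491.All

open Polynomial

variable {L : Subfield ℝ}

theorem poly_eq (w a : ℕ) (c : ℕ → ℝ) :
    poly w a c = X ^ a * expand ℝ 2 (∑ k ∈ Finset.range w, C (c k) * X ^ k) := by
  rw [poly, map_sum, Finset.mul_sum]
  refine Finset.sum_congr rfl fun k _ => ?_
  rw [map_mul, expand_C, map_pow, expand_X, pow_add, pow_mul]
  ring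

theorem poly_add_two (w a : ℕ) (c : ℕ → ℝ) : poly w (a + 2) c = X ^ 2 * poly w a c := by
  rw [poly_eq, poly_eq, pow_add]
  ring

theorem exists_null (w a : ℕ) (T : List ℝ[X]) (hT : T.length < w) :
    ∃ c : ℕ → ℝ, poly w a c ≠ 0 ∧ ∀ q ∈ T, pz (poly w a c * q) = 0 := by
  classical
  let Φ : (Fin w → ℝ) →ₗ[ℝ] (Fin T.length → ℝ) :=
    LinearMap.pi fun j => ∑ k : Fin w, (pz (X ^ (a + 2 * (k : ℕ)) * T.get j)) • LinearMap.proj k
  have h1 : LinearMap.ker Φ ≠ ⊥ := by
    apply LinearMap.ker_ne_bot_of_finrank_lt
    simpa using hT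
  obtain ⟨x, hx, hx0⟩ := Submodule.exists_mem_ne_zero_of_ne_bot h1
  let c : ℕ → ℝ := fun k => if h : k < w then x ⟨k, h⟩ else 0
  have hc : ∀ k : Fin w, c k = x k := fun k => by simp [c]
  refine ⟨c, ?_, ?_⟩
  · intro h
    apply hx0
    funext k
    have h2 : (poly w a c).coeff (a + 2 * k) = c k := by
      rw [poly, Polynomial.finsetSum_coeff, Finset.sum_eq_single (k : ℕ)]
      · simp
      · intro j _ hj
        rw [Polynomial.coeff_C_mul_X_pow, if_neg]
        omega
      · intro hk
        exact absurd (Finset.mem_range.2 k.2) hk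
    rw [h, coeff_zero, hc] at h2
    simpa using h2.symm
  · intro q hq
    obtain ⟨j, rfl⟩ := List.mem_iff_get.1 hq
    have h2 : Φ x j = 0 := by
      rw [LinearMap.mem_ker.1 hx]
      rfl
    rw [poly, Finset.sum_mul, map_sum, ← Fin.sum_univ_eq_sum_range (fun k => pz (C (c k) * X ^ (a + 2 * k) * T.get j)) w]
    rw [← h2]
    simp only [Φ, LinearMap.pi_apply, LinearMap.sum_apply, LinearMap.smul_apply, LinearMap.proj_apply, smul_eq_mul]
    refine Finset.sum_congr rfl fun k _ => ?_
    rw [mul_assoc, pz_C_mul, hc]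
    ring

theorem nul_cons (f : ℝ[X]) (l : List ℝ[X]) (A : ℝ[X]) (hl : Nul l A)
    (h : ∀ s : List ℝ[X], s.Sublist l → pz (f * s.prod) = 0 ∧ pz (f * (A * s.prod)) = 0) : Nul (f :: l) A := by
  intro s hs hs0
  rcases List.sublist_cons_iff.1 hs with hs | ⟨r, rfl, hr⟩
  · exact hl s hs hs0
  · rw [List.prod_cons]
    refine ⟨(h r hr).1, ?_⟩
    have := (h r hr).2
    have e : A * (f * r.prod) = f * (A * r.prod) := by ring
    rw [e]
    exact this

theorem exists_family (w : ℕ) (t1 t2 : List ℝ[X]) (A1 A2 : ℝ[X]) (h1 : Nul t1 A1) (h2 : Nul t2 A2)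
    (hl1 : t1.length ≤ 1) (hl2 : t2.length ≤ 1) : ∀ as : List ℕ, 4 * 2 ^ (as.length + 1) ≤ w →
    ∃ cs : List (ℕ → ℝ), cs.length = as.length ∧ Nul (List.zipWith (poly w) as cs ++ t1) A1 ∧
      Nul (List.zipWith (poly w) as cs ++ t2) A2 ∧ ∀ f ∈ List.zipWith (poly w) as cs, f ≠ 0 := by
  intro as
  induction as with
  | nil =>
    intro _
    exact ⟨[], rfl, by simpa using h1, by simpa using h2, by simp⟩
  | cons a as ih =>
    intro hw
    simp only [List.length_cons] at hw
    have hpow : 2 ^ (as.length + 1 + 1) = 2 * 2 ^ (as.length + 1) := by rw [pow_succ]; ring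
    obtain ⟨cs, h3, h4, h5, h6⟩ := ih (by omega)
    set l1 := List.zipWith (poly w) as cs ++ t1 with hl1'
    set l2 := List.zipWith (poly w) as cs ++ t2 with hl2'
    have hlen1 : l1.length ≤ as.length + 1 := by
      rw [hl1', List.length_append, List.length_zipWith, h3]
      simp only [min_self]
      omega
    have hlen2 : l2.length ≤ as.length + 1 := by
      rw [hl2', List.length_append, List.length_zipWith, h3]
      simp only [min_self]
      omega
    let T : List ℝ[X] := (l1.sublists.map fun s => s.prod) ++ (l1.sublists.map fun s => A1 * s.prod) ++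
      ((l2.sublists.map fun s => s.prod) ++ (l2.sublists.map fun s => A2 * s.prod))
    have hT : T.length < w := by
      simp only [T, List.length_append, List.length_map, List.length_sublists]
      have e1 : 2 ^ l1.length ≤ 2 ^ (as.length + 1) := Nat.pow_le_pow_right (by norm_num) hlen1
      have e2 : 2 ^ l2.length ≤ 2 ^ (as.length + 1) := Nat.pow_le_pow_right (by norm_num) hlen2
      have e3 : 0 < 2 ^ (as.length + 1) := by positivity
      omega
    obtain ⟨c, hc0, hc⟩ := exists_null w a T hT
    refine ⟨c :: cs, by simp [h3], ?_, ?_, ?_⟩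
    · rw [List.zipWith_cons_cons, List.cons_append]
      apply nul_cons _ _ _ h4
      intro s hs
      constructor
      · apply hc
        simp only [T, List.mem_append, List.mem_map, List.mem_sublists]
        exact Or.inl (Or.inl ⟨s, hs, rfl⟩)
      · apply hc
        simp only [T, List.mem_append, List.mem_map, List.mem_sublists]
        exact Or.inl (Or.inr ⟨s, hs, rfl⟩)
    · rw [List.zipWith_cons_cons, List.cons_append]
      apply nul_cons _ _ _ h5
      intro s hs
      constructor
      · apply hc
        simp only [T, List.mem_append, List.mem_map, List.mem_sublists]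
        exact Or.inr (Or.inl ⟨s, hs, rfl⟩)
      · apply hc
        simp only [T, List.mem_append, List.mem_map, List.mem_sublists]
        exact Or.inr (Or.inr ⟨s, hs, rfl⟩)
    · intro f hf
      rw [List.zipWith_cons_cons, List.mem_cons] at hf
      rcases hf with rfl | hf
      · exact hc0
      · exact h6 f hf

/-- the product of the family -/
theorem prod_family (w : ℕ) : ∀ (as : List ℕ) (cs : List (ℕ → ℝ)), cs.length = as.length →
    (∀ f ∈ List.zipWith (poly w) as cs, f ≠ 0) →
    ∃ V : ℝ[X], V ≠ 0 ∧ V.natDegree ≤ w * as.length ∧ (List.zipWith (poly w) as cs).prod = X ^ as.sum * expand ℝ 2 V := by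
  intro as
  induction as with
  | nil =>
    intro cs h _
    refine ⟨1, one_ne_zero, by simp, ?_⟩
    simp
  | cons a as ih =>
    intro cs h h0
    rcases cs with _ | ⟨c, cs⟩
    · simp at h
    · simp only [List.length_cons, Nat.add_right_cancel_iff] at h
      rw [List.zipWith_cons_cons] at h0
      obtain ⟨V, hV0, hVd, hV⟩ := ih cs h fun f hf => h0 f (by simp [hf])
      have h1 := h0 (poly w a c) (by simp)
      set U : ℝ[X] := ∑ k ∈ Finset.range w, C (c k) * X ^ k with hU
      have hp : poly w a c = X ^ a * expand ℝ 2 U := poly_eq w a c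
      have hU0 : U ≠ 0 := by
        intro h2
        apply h1
        rw [hp, h2]
        simp
      have hUd : U.natDegree ≤ w := by
        apply Polynomial.natDegree_sum_le_of_forall_le
        intro k hk
        have := Finset.mem_range.1 hk
        exact (Polynomial.natDegree_C_mul_X_pow_le _ _).trans (by omega)
      refine ⟨U * V, mul_ne_zero hU0 hV0, ?_, ?_⟩
      · refine Polynomial.natDegree_mul_le.trans ?_
        rw [List.length_cons, Nat.mul_succ]
        omega
      · rw [List.zipWith_cons_cons, List.prod_cons, hV, hp, List.sum_cons, pow_add, map_mul]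
        ring

/-- the sum of the multiples of a space by `c 0, …, c (n - 1)` -/
noncomputable def SS (F : Submodule L ℝ) (c : ℕ → ℝ) : ℕ → Submodule L ℝ
  | 0 => ⊥
  | n + 1 => SS F c n ⊔ F.map (LinearMap.mulLeft L (c n))

theorem rank_SS (F : Submodule L ℝ) (c : ℕ → ℝ) (R : ℕ) (hF : Module.rank L F ≤ R) (n : ℕ) :
    Module.rank L (SS F c n) ≤ ((n * R : ℕ) : Cardinal) := by
  induction n with
  | zero =>
    have e : Module.rank L (SS F c 0) = 0 := rank_bot L ℝ
    rw [e]
    simp
  | succ n ih =>
    rw [SS]
    refine (Submodule.rank_add_le_rank_add_rank _ _).trans ?_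
    rw [Nat.succ_mul]
    push_cast
    push_cast at ih
    exact add_le_add ih ((rank_map_le _ _).trans hF)

theorem mem_SS (F : Submodule L ℝ) (c : ℕ → ℝ) (n k : ℕ) (hk : k < n) (y : ℝ) (hy : y ∈ F) : c k * y ∈ SS F c n := by
  induction n with
  | zero => omega
  | succ n ih =>
    rw [SS]
    rcases Nat.lt_succ_iff_lt_or_eq.1 hk with h | h
    · exact Submodule.mem_sup_left (ih h)
    · subst h
      exact Submodule.mem_sup_right (Submodule.mem_map.2 ⟨y, hy, rfl⟩)

/-- the space which contains the combinations with coefficients `cs` -/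
noncomputable def EE (w : ℕ) (E : Submodule L ℝ) : List (ℕ → ℝ) → Submodule L ℝ
  | [] => E
  | c :: cs => SS (EE w E cs) c w

theorem rank_EE (w : ℕ) (E : Submodule L ℝ) (r : ℕ) (hE : Module.rank L E ≤ r) (cs : List (ℕ → ℝ)) :
    Module.rank L (EE w E cs) ≤ ((w ^ cs.length * r : ℕ) : Cardinal) := by
  induction cs with
  | nil =>
    have e : ((w ^ ([] : List (ℕ → ℝ)).length * r : ℕ) : Cardinal) = r := by simp
    rw [e]
    exact hE
  | cons c cs ih =>
    rw [EE]
    have := rank_SS (EE w E cs) c _ ih w
    rw [List.length_cons, pow_succ]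
    convert this using 2
    ring

theorem mem_EE (w : ℕ) (E : Submodule L ℝ) (tail : List ℕ) : ∀ (as : List ℕ) (cs : List (ℕ → ℝ)) (pre : List ℕ),
    cs.length = as.length →
    (∀ ks : List ℕ, ks.length = as.length → (∀ k ∈ ks, k < w) →
      Sp ((pre ++ List.zipWith (fun a k => a + 2 * k) as ks ++ tail).map fun a => (X : ℝ[X]) ^ a) ∈ E) →
    Sp (pre.map (fun a => (X : ℝ[X]) ^ a) ++ List.zipWith (poly w) as cs ++ tail.map fun a => (X : ℝ[X]) ^ a) ∈ EE w E cs := by
  intro as
  induction as with
  | nil =>
    intro cs pre h hE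
    rcases cs with _ | ⟨c, cs⟩
    · have := hE [] rfl (by simp)
      simpa [EE] using this
    · simp at h
  | cons a as ih =>
    intro cs pre h hE
    rcases cs with _ | ⟨c, cs⟩
    · simp at h
    · simp only [List.length_cons, Nat.add_right_cancel_iff] at h
      rw [List.zipWith_cons_cons, List.append_assoc, List.cons_append, Sp_poly, EE]
      apply Submodule.sum_mem
      intro k hk
      apply mem_SS _ _ _ _ (Finset.mem_range.1 hk)
      have := ih cs (pre ++ [a + 2 * k]) h ?_
      · simpa using this
      · intro ks h1 h2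
        have := hE (k :: ks) (by simp [h1]) (by
          intro k' hk'
          rcases List.mem_cons.1 hk' with rfl | hk'
          · exact Finset.mem_range.1 hk
          · exact h2 k' hk')
        simpa using this

end Pool.Agent.H491.All
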