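import Mathlib
import Pool.Agent.H491.All4

set_option autoImplicit false

/-! # The pattern lemma: a bounded pattern of indices with odd entries contains a value outside of a given space -/

namespace Pool.Agent.H491.All

open Polynomial Pool.Agent.H447R2.MZ

variable {L : Subfield ℝ}

theorem final_step (hL : Transcendental L Real.pi) (E' : Submodule L ℝ) (R : ℕ) (hE' : Module.rank L E' ≤ (R : Cardinal))
    (m j₀ : ℕ) (hj : Odd j₀) (V : ℝ[X]) (hV : V ≠ 0) (hVd : V.natDegree < m) (B : Finset ℕ)
    (hB : ∀ β ∈ B, pz (X ^ (2 * β + 3) * (X ^ j₀ * expand ℝ 2 V)) ∈ E') : B.card < R + m := by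
  obtain ⟨j, rfl⟩ := hj
  have hval : ∀ β : ℕ, pz (X ^ (2 * β + 3) * (X ^ (2 * j + 1) * expand ℝ 2 V)) =
      (Real.pi ^ 2) ^ β * ∑ i : Fin m, (Sq.rho (β + (j + 2 + i)) : ℝ) * (V.coeff i * (Real.pi ^ 2) ^ (j + 2 + (i : ℕ))) := by
    intro β
    have h1 : V = ∑ i : Fin m, C (V.coeff i) * X ^ (i : ℕ) := by
      conv_lhs => rw [V.as_sum_range' m hVd]
      rw [← Fin.sum_univ_eq_sum_range (fun i => monomial i (V.coeff i)) m]
      exact Finset.sum_congr rfl fun i _ => (C_mul_X_pow_eq_monomial).symm
    have h2 : X ^ (2 * β + 3) * (X ^ (2 * j + 1) * expand ℝ 2 V) =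
        ∑ i : Fin m, C (V.coeff i) * X ^ (2 * (β + (j + 2 + (i : ℕ)))) := by
      conv_lhs => rw [h1]
      rw [map_sum, Finset.mul_sum, Finset.mul_sum]
      refine Finset.sum_congr rfl fun i _ => ?_
      rw [map_mul, expand_C, map_pow, expand_X]
      ring
    rw [h2, map_sum, Finset.mul_sum]
    refine Finset.sum_congr rfl fun i _ => ?_
    rw [pz_C_mul_X_pow, Sq.z_even _ (by omega), pow_add]
    ring
  refine Sq.linear_lemma (Real.pi ^ 2) (Sq.transcendental_sq hL) E' R hE' m
    (fun i => V.coeff i * (Real.pi ^ 2) ^ (j + 2 + (i : ℕ))) ?_ (fun b i => Sq.rho (b + (j + 2 + i))) B ?_ ?_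
  · intro h
    apply hV
    ext i
    rw [coeff_zero]
    by_cases hi : i < m
    · have := congrFun h ⟨i, hi⟩
      simp only [Pi.zero_apply, mul_eq_zero] at this
      rcases this with h2 | h2
      · exact h2
      · exact absurd h2 (by positivity)
    · exact Polynomial.coeff_eq_zero_of_natDegree_lt (by omega)
  · intro β hβ _
    exact hankel_ne m (j + 2) (by omega) β hβ
  · intro b hb
    have := hB b hb
    rw [hval] at this
    exact this

theorem odd_sum (as : List ℕ) (has : ∀ x ∈ as, Odd x) : Odd as.sum ↔ Odd as.length := by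
  induction as with
  | nil => simp
  | cons a as ih =>
    have h1 := ih fun x hx => has x (by simp [hx])
    have h2 := has a (by simp)
    rw [List.sum_cons, List.length_cons, Nat.odd_add, Nat.odd_add_one]
    rw [← Nat.not_odd_iff_even, h1]
    simp [h2]

theorem nul_nil (A : ℝ[X]) : Nul [] A := by
  intro s hs hs0
  exact absurd (List.sublist_nil.1 hs) hs0

theorem nul_single (f A : ℝ[X]) (h1 : pz f = 0) (h2 : pz (A * f) = 0) : Nul [f] A := by
  intro s hs hs0
  rcases List.sublist_cons_iff.1 hs with hs | ⟨r, rfl, hr⟩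
  · exact absurd (List.sublist_nil.1 hs) hs0
  · have := List.sublist_nil.1 hr
    subst this
    simpa using ⟨h1, h2⟩

theorem Sp_word (as ks : List ℕ) (a b : ℕ) (has : ∀ x ∈ as, 3 ≤ x) (ha : 3 ≤ a) (hb : 3 ≤ b) :
    Sp ((([] : List ℕ) ++ List.zipWith (fun a k => a + 2 * k) as ks ++ [a, b]).map fun a => (X : ℝ[X]) ^ a) =
      P val (List.zipWith (fun a k => a + 2 * k) as ks ++ [a, b]) := by
  rw [List.nil_append]
  apply Sp_X_pow
  intro x hx
  rw [List.mem_append] at hx
  rcases hx with hx | hx
  · have : ∀ (as ks : List ℕ), (∀ x ∈ as, 3 ≤ x) → ∀ x ∈ List.zipWith (fun a k => a + 2 * k) as ks, 2 ≤ x := by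
      intro as
      induction as with
      | nil => simp
      | cons a as ih =>
        intro ks h x hx
        rcases ks with _ | ⟨k, ks⟩
        · simp at hx
        · rw [List.zipWith_cons_cons, List.mem_cons] at hx
          rcases hx with rfl | hx
          · have := h a (by simp)
            omega
          · exact ih ks (fun x hx => h x (by simp [hx])) x hx
    exact this as ks has x hx
  · simp only [List.mem_cons, List.not_mem_nil, or_false] at hx
    omega

theorem linear_ne (x y : ℝ) (hx : x ≠ 0) : (C x * X - C y : ℝ[X]) ≠ 0 := by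
  intro h
  have := congrArg (fun p => Polynomial.coeff p 1) h
  simp at this
  exact hx this

theorem natDegree_linear (x y : ℝ) : (C x * X - C y : ℝ[X]).natDegree ≤ 1 := by
  refine (Polynomial.natDegree_sub_le _ _).trans ?_
  rw [natDegree_C]
  simp only [zero_le, sup_of_le_left]
  have := Polynomial.natDegree_C_mul_X_pow_le x 1
  simpa using this

theorem pattern (hL : Transcendental L Real.pi) (E : Submodule L ℝ) (r : ℕ) (hE : Module.rank L E ≤ (r : Cardinal))
    (as : List ℕ) (has : ∀ x ∈ as, Odd x ∧ 3 ≤ x) (a : ℕ) (ha : Odd a) (ha3 : 3 ≤ a) (w : ℕ)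
    (hw : 4 * 2 ^ (as.length + 1) ≤ w) (B : Finset ℕ)
    (hB : ∀ β ∈ B, ∀ ks : List ℕ, ks.length = as.length → (∀ k ∈ ks, k ≤ w) → ∀ ε ≤ 1,
      P val (List.zipWith (fun a k => a + 2 * k) as ks ++ [a + 2 * ε, 2 * β + 3]) ∈ E) :
    B.card < 2 * w ^ as.length * r + (w * as.length + 2) := by
  rcases Nat.even_or_odd as.length with hpar | hpar
  · obtain ⟨cs, hcs, hN1, hN2, hne⟩ := exists_family w [] [] (X ^ a) (X ^ (a + 2)) (nul_nil _) (nul_nil _) (by simp)
      (by simp) as hw
    rw [List.append_nil] at hN1 hN2
    obtain ⟨V, hV0, hVd, hV⟩ := prod_family w as cs hcs hne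
    set l := List.zipWith (poly w) as cs with hl
    have hlen : l.length = as.length := by rw [hl, List.length_zipWith, hcs, min_self]
    let F : Submodule L ℝ := (EE w E cs).map (LinearMap.mulLeft L (Sq.z (a + 2))) ⊔
      (EE w E cs).map (LinearMap.mulLeft L (Sq.z a))
    have hF : Module.rank L F ≤ ((2 * w ^ as.length * r : ℕ) : Cardinal) := by
      refine (Submodule.rank_add_le_rank_add_rank _ _).trans ?_
      have h1 := (rank_map_le (LinearMap.mulLeft L (Sq.z (a + 2))) (EE w E cs)).trans (rank_EE w E r hE cs)
      have h2 := (rank_map_le (LinearMap.mulLeft L (Sq.z a)) (EE w E cs)).trans (rank_EE w E r hE cs)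
      have h3 : ((2 * w ^ as.length * r : ℕ) : Cardinal) = ((w ^ cs.length * r : ℕ) : Cardinal) + ((w ^ cs.length * r : ℕ) : Cardinal) := by
        rw [hcs, mul_assoc, two_mul]
        push_cast
        rfl
      rw [h3]
      exact add_le_add h1 h2
    set κ : ℝ := (-1) ^ as.length * (as.length + 1).factorial with hκ
    have hκ0 : κ ≠ 0 := by
      rw [hκ]
      apply mul_ne_zero
      · exact pow_ne_zero _ (by norm_num)
      · exact_mod_cast Nat.factorial_ne_zero _
    refine final_step hL F _ hF (w * as.length + 2) (as.sum + a) ?_ (C κ * V * (C (Sq.z a) * X - C (Sq.z (a + 2)))) ?_ ?_ B ?_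
    · rw [Nat.odd_add']
      simp only [ha, true_iff]
      rw [← Nat.not_odd_iff_even, odd_sum as fun x hx => (has x hx).1]
      rwa [Nat.not_odd_iff_even]
    · refine mul_ne_zero (mul_ne_zero (C_ne_zero.2 hκ0) hV0) (linear_ne _ _ (Sq.z_ne a (by omega)))
    · refine lt_of_le_of_lt Polynomial.natDegree_mul_le ?_
      have h1 := natDegree_linear (Sq.z a) (Sq.z (a + 2))
      have h2 := Polynomial.natDegree_C_mul_le κ V
      omega
    · intro β hβ
      have h1 : Sp (l ++ [X ^ a, X ^ (2 * β + 3)]) ∈ EE w E cs := by
        have := mem_EE w E [a, 2 * β + 3] as cs [] hcs ?_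
        · simpa using this
        · intro ks h3 h4
          rw [Sp_word as ks a (2 * β + 3) (fun x hx => (has x hx).2) ha3 (by omega)]
          have := hB β hβ ks h3 (fun k hk => (h4 k hk).le) 0 (by omega)
          simpa using this
      have h2 : Sp (l ++ [X ^ (a + 2), X ^ (2 * β + 3)]) ∈ EE w E cs := by
        have := mem_EE w E [a + 2, 2 * β + 3] as cs [] hcs ?_
        · simpa using this
        · intro ks h3 h4
          rw [Sp_word as ks (a + 2) (2 * β + 3) (fun x hx => (has x hx).2) (by omega) (by omega)]
          have := hB β hβ ks h3 (fun k hk => (h4 k hk).le) 1 le_rfl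
          simpa using this
      have h3 : pz (X ^ (2 * β + 3) * (X ^ (as.sum + a) * expand ℝ 2 (C κ * V * (C (Sq.z a) * X - C (Sq.z (a + 2)))))) =
          Sq.z (a + 2) * Sp (l ++ [X ^ a, X ^ (2 * β + 3)]) + Sq.z a * (-Sp (l ++ [X ^ (a + 2), X ^ (2 * β + 3)])) := by
        rw [Sp_nul as.length l _ _ hlen hN1, Sp_nul as.length l _ _ hlen hN2, pz_X_pow, pz_X_pow]
        have e : X ^ (2 * β + 3) * (X ^ (as.sum + a) * expand ℝ 2 (C κ * V * (C (Sq.z a) * X - C (Sq.z (a + 2))))) =
            C (κ * Sq.z a) * (X ^ (a + 2) * X ^ (2 * β + 3) * l.prod) -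
            C (κ * Sq.z (a + 2)) * (X ^ a * X ^ (2 * β + 3) * l.prod) := by
          rw [hV]
          simp only [map_mul, map_sub, expand_C, expand_X]
          ring
        rw [e, map_sub, pz_C_mul, pz_C_mul, hκ]
        ring
      rw [h3]
      apply Submodule.add_mem_sup
      · exact Submodule.mem_map.2 ⟨_, h1, rfl⟩
      · exact Submodule.mem_map.2 ⟨_, (EE w E cs).neg_mem h2, rfl⟩
  · rcases List.eq_nil_or_concat as with rfl | ⟨as', a₂, has'⟩
    · simp at hpar
    · rw [List.concat_eq_append] at has'
      subst has'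
      rw [List.length_append, List.length_singleton] at hw hpar ⊢
      have hw8 : 8 ≤ w := by
        have : 1 ≤ 2 ^ (as'.length) := Nat.one_le_two_pow
        have e : 2 ^ (as'.length + 1 + 1) = 4 * 2 ^ as'.length := by ring
        omega
      have ha₂ := has a₂ (by simp)
      obtain ⟨c₀, hc0, hc⟩ := exists_null w a₂ [1, X ^ 2, X ^ (a + 2)] (by simp only [List.length_cons, List.length_nil]; omega)
      have hc1 : pz (poly w a₂ c₀) = 0 := by simpa using hc 1 (by simp)
      have hc2 : pz (poly w a₂ c₀ * X ^ 2) = 0 := hc _ (by simp)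
      have hc3 : pz (poly w a₂ c₀ * X ^ (a + 2)) = 0 := hc _ (by simp)
      have hM1 : Nul [poly w (a₂ + 2) c₀] (X ^ a) := by
        apply nul_single
        · rw [poly_add_two, mul_comm]
          exact hc2
        · have e : X ^ a * poly w (a₂ + 2) c₀ = poly w a₂ c₀ * X ^ (a + 2) := by
            rw [poly_add_two]
            ring
          rw [e]
          exact hc3
      have hM2 : Nul [poly w a₂ c₀] (X ^ (a + 2)) := by
        apply nul_single _ _ hc1
        rw [mul_comm]
        exact hc3
      obtain ⟨cs, hcs, hN1, hN2, hne⟩ := exists_family w [poly w (a₂ + 2) c₀] [poly w a₂ c₀] (X ^ a) (X ^ (a + 2)) hM1 hM2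
        (by simp) (by simp) as' (by
          have e : 2 ^ (as'.length + 1 + 1) = 2 * 2 ^ (as'.length + 1) := by ring
          omega)
      have hz1 : List.zipWith (poly w) (as' ++ [a₂ + 2]) (cs ++ [c₀]) = List.zipWith (poly w) as' cs ++ [poly w (a₂ + 2) c₀] := by
        rw [List.zipWith_append hcs.symm]
        rfl
      have hz2 : List.zipWith (poly w) (as' ++ [a₂]) (cs ++ [c₀]) = List.zipWith (poly w) as' cs ++ [poly w a₂ c₀] := by
        rw [List.zipWith_append hcs.symm]
        rfl
      have hne' : ∀ f ∈ List.zipWith (poly w) (as' ++ [a₂]) (cs ++ [c₀]), f ≠ 0 := by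
        intro f hf
        rw [hz2, List.mem_append] at hf
        rcases hf with hf | hf
        · exact hne f hf
        · rw [List.mem_singleton] at hf
          rw [hf]
          exact hc0
      obtain ⟨V, hV0, hVd, hV⟩ := prod_family w (as' ++ [a₂]) (cs ++ [c₀]) (by simp [hcs]) hne'
      rw [hz2] at hV
      set l1 := List.zipWith (poly w) as' cs ++ [poly w (a₂ + 2) c₀] with hl1
      set l2 := List.zipWith (poly w) as' cs ++ [poly w a₂ c₀] with hl2
      have hlen1 : l1.length = as'.length + 1 := by
        rw [hl1, List.length_append, List.length_zipWith, hcs, min_self, List.length_singleton]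
      have hlen2 : l2.length = as'.length + 1 := by
        rw [hl2, List.length_append, List.length_zipWith, hcs, min_self, List.length_singleton]
      have hp : l1.prod = X ^ 2 * l2.prod := by
        rw [hl1, hl2, List.prod_append, List.prod_append, List.prod_singleton, List.prod_singleton, poly_add_two]
        ring
      have hF : Module.rank L (EE w E (cs ++ [c₀])) ≤ ((2 * w ^ (as'.length + 1) * r : ℕ) : Cardinal) := by
        refine (rank_EE w E r hE (cs ++ [c₀])).trans ?_
        rw [List.length_append, List.length_singleton, hcs]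
        have : w ^ (as'.length + 1) * r ≤ 2 * w ^ (as'.length + 1) * r := by
          rw [mul_assoc]
          omega
        exact_mod_cast this
      set κ : ℝ := (-1) ^ (as'.length + 1) * (as'.length + 1).factorial with hκ
      have hκ0 : κ ≠ 0 := by
        rw [hκ]
        apply mul_ne_zero
        · exact pow_ne_zero _ (by norm_num)
        · exact_mod_cast Nat.factorial_ne_zero _
      refine final_step hL (EE w E (cs ++ [c₀])) _ hF (w * (as'.length + 1) + 2) (as' ++ [a₂]).sum ?_
        (C κ * V * (C (Sq.z a) * X - C (Sq.z (a + 2)))) ?_ ?_ B ?_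
      · rw [odd_sum _ fun x hx => (has x hx).1, List.length_append, List.length_singleton]
        exact hpar
      · refine mul_ne_zero (mul_ne_zero (C_ne_zero.2 hκ0) hV0) (linear_ne _ _ (Sq.z_ne a (by omega)))
      · refine lt_of_le_of_lt Polynomial.natDegree_mul_le ?_
        have h1 := natDegree_linear (Sq.z a) (Sq.z (a + 2))
        have h2 := Polynomial.natDegree_C_mul_le κ V
        rw [List.length_append, List.length_singleton] at hVd
        omega
      · intro β hβ
        have h1 : Sp (l1 ++ [X ^ a, X ^ (2 * β + 3)]) ∈ EE w E (cs ++ [c₀]) := by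
          have := mem_EE w E [a, 2 * β + 3] (as' ++ [a₂ + 2]) (cs ++ [c₀]) [] (by simp [hcs]) ?_
          · rw [hz1] at this
            simpa using this
          · intro ks h3 h4
            rw [Sp_word (as' ++ [a₂ + 2]) ks a (2 * β + 3) ?_ ha3 (by omega)]
            · rcases List.eq_nil_or_concat ks with rfl | ⟨ks', k, hks⟩
              · simp at h3
              · rw [List.concat_eq_append] at hks
                subst hks
                simp only [List.length_append, List.length_singleton, Nat.add_right_cancel_iff] at h3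
                have h5 := hB β hβ (ks' ++ [k + 1]) (by simp [h3]) (by
                  intro k' hk'
                  rw [List.mem_append, List.mem_singleton] at hk'
                  rcases hk' with hk' | rfl
                  · exact (h4 k' (by simp [hk'])).le
                  · exact h4 k (by simp)) 0 (by omega)
                rw [List.zipWith_append h3.symm] at h5 ⊢
                have e : a₂ + 2 + 2 * k = a₂ + 2 * (k + 1) := by ring
                simp only [List.zipWith_cons_cons, List.zipWith_nil_left, mul_zero, add_zero] at h5 ⊢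
                rw [e]
                exact h5
            · intro x hx
              rw [List.mem_append, List.mem_singleton] at hx
              rcases hx with hx | rfl
              · exact (has x (by simp [hx])).2
              · omega
        have h2 : Sp (l2 ++ [X ^ (a + 2), X ^ (2 * β + 3)]) ∈ EE w E (cs ++ [c₀]) := by
          have := mem_EE w E [a + 2, 2 * β + 3] (as' ++ [a₂]) (cs ++ [c₀]) [] (by simp [hcs]) ?_
          · rw [hz2] at this
            simpa using this
          · intro ks h3 h4
            rw [Sp_word (as' ++ [a₂]) ks (a + 2) (2 * β + 3) (fun x hx => (has x hx).2) (by omega) (by omega)]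
            have := hB β hβ ks (by simpa using h3) (fun k hk => (h4 k hk).le) 1 le_rfl
            simpa using this
        have h3 : pz (X ^ (2 * β + 3) * (X ^ (as' ++ [a₂]).sum * expand ℝ 2 (C κ * V * (C (Sq.z a) * X - C (Sq.z (a + 2)))))) =
            Sp (l1 ++ [X ^ a, X ^ (2 * β + 3)]) - Sp (l2 ++ [X ^ (a + 2), X ^ (2 * β + 3)]) := by
          rw [Sp_nul (as'.length + 1) l1 _ _ hlen1 hN1, Sp_nul (as'.length + 1) l2 _ _ hlen2 hN2, pz_X_pow, pz_X_pow, hp]
          have e : X ^ (2 * β + 3) * (X ^ (as' ++ [a₂]).sum * expand ℝ 2 (C κ * V * (C (Sq.z a) * X - C (Sq.z (a + 2))))) =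
              C (κ * Sq.z a) * (X ^ (2 * β + 3) * (X ^ 2 * l2.prod)) -
              C (κ * Sq.z (a + 2)) * (X ^ (2 * β + 3) * l2.prod) := by
            rw [hV]
            simp only [map_mul, map_sub, expand_C, expand_X]
            ring
          have e2 : X ^ a * X ^ (2 * β + 3) * (X ^ 2 * l2.prod) = X ^ (a + 2) * X ^ (2 * β + 3) * l2.prod := by
            ring
          rw [e, e2, map_sub, pz_C_mul, pz_C_mul, hκ]
          ring
        rw [h3]
        exact (EE w E (cs ++ [c₀])).sub_mem h1 h2

end Pool.Agent.H491.All
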