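import Mathlib
import Pool.Agent.H491.All5

set_option autoImplicit false

/-! # Counting the indices with odd entries whose value is not in a given space -/

namespace Pool.Agent.H491.All

open Pool.Agent.H447R2.MZ

variable {L : Subfield ℝ}

theorem exists_perm {D : ℕ} (u v : Fin D → ℕ) (h : (List.ofFn u).Perm (List.ofFn v)) :
    ∃ σ : Equiv.Perm (Fin D), v = u ∘ σ := by
  have h1 : (List.ofFn (u ∘ Tuple.sort u)).Perm (List.ofFn (v ∘ Tuple.sort v)) :=
    ((Tuple.sort u).ofFn_comp_perm u).trans (h.trans ((Tuple.sort v).ofFn_comp_perm v).symm)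
  have h2 : List.ofFn (u ∘ Tuple.sort u) = List.ofFn (v ∘ Tuple.sort v) :=
    h1.eq_of_pairwise' (List.pairwise_ofFn.2 fun i j hij => Tuple.monotone_sort u hij.le)
      (List.pairwise_ofFn.2 fun i j hij => Tuple.monotone_sort v hij.le)
  have h3 : u ∘ Tuple.sort u = v ∘ Tuple.sort v := List.ofFn_injective h2
  refine ⟨(Tuple.sort v).symm.trans (Tuple.sort u), ?_⟩
  funext i
  have := congrFun h3 ((Tuple.sort v).symm i)
  simp only [Function.comp_apply, Equiv.apply_symm_apply] at this
  simp only [Function.comp_apply, Equiv.trans_apply]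
  exact this.symm

theorem exists_ofFn {k : ℕ} (ks : List ℕ) (h : ks.length = k) : ∃ g : Fin k → ℕ, List.ofFn g = ks := by
  subst h
  exact ⟨ks.get, List.ofFn_get ks⟩

theorem zipWith_ofFn {k : ℕ} (f g : Fin k → ℕ) :
    List.zipWith (fun a k => a + 2 * k) (List.ofFn f) (List.ofFn g) = List.ofFn (fun i => f i + 2 * g i) := by
  apply List.ext_getElem
  · simp
  · intro i h1 h2
    simp

theorem zt_eq {D : ℕ} (u : Fin D → ℕ) (hu : ∀ i, 2 ≤ u i) : Sq.zt u = val (List.ofFn u) := by
  have hadm : Adm (List.ofFn u) := by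
    refine ⟨fun b hb => ?_, fun b t e => ?_⟩
    · obtain ⟨i, rfl⟩ := (List.mem_ofFn' _ b).1 hb
      have := hu i
      omega
    · have : b ∈ List.ofFn u := by rw [e]; simp
      obtain ⟨i, rfl⟩ := (List.mem_ofFn' _ b).1 this
      exact hu i
  exact (hasSum_val D u hadm).tsum_eq

/-- the index with the entries `2 (x_i + e_i) + 3` -/
def word {D : ℕ} (x e : Fin D → ℕ) : Fin D → ℕ := fun i => 2 * (x i + e i) + 3

/-- all the values of the pattern at `x` are in `E` -/
def Bad (E : Submodule L ℝ) (w : ℕ) {D : ℕ} (x : Fin D → ℕ) : Prop :=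
  ∀ e : Fin D → ℕ, (∀ i, e i ≤ w) → ∀ σ : Equiv.Perm (Fin D), Sq.zt (word x e ∘ σ) ∈ E

theorem pattern_fn (hL : Transcendental L Real.pi) (E : Submodule L ℝ) (r : ℕ) (hE : Module.rank L E ≤ (r : Cardinal))
    (k w : ℕ) (hw : 4 * 2 ^ (k + 1) ≤ w) (y : Fin (k + 1) → ℕ) (B : Finset ℕ)
    (hB : ∀ β ∈ B, Bad E w (Fin.snoc y β : Fin (k + 2) → ℕ)) : B.card < 2 * w ^ k * r + (w * k + 2) := by
  have h := pattern hL E r hE (List.ofFn fun i : Fin k => 2 * y i.castSucc + 3) ?_ (2 * y (Fin.last k) + 3) ?_ (by omega) w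
    (by simpa using hw) B ?_
  · simpa using h
  · intro x hx
    obtain ⟨i, rfl⟩ := (List.mem_ofFn' _ x).1 hx
    exact ⟨⟨y i.castSucc + 1, by ring⟩, by simp only; omega⟩
  · exact ⟨y (Fin.last k) + 1, by ring⟩
  · intro β hβ ks h1 h2 ε hε
    rw [List.length_ofFn] at h1
    obtain ⟨g, rfl⟩ := exists_ofFn ks h1
    have hg : ∀ i, g i ≤ w := fun i => h2 _ ((List.mem_ofFn' _ _).2 ⟨i, rfl⟩)
    let e : Fin (k + 2) → ℕ := Fin.snoc (Fin.snoc g ε : Fin (k + 1) → ℕ) 0
    have he : ∀ i, e i ≤ w := by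
      intro i
      refine Fin.lastCases ?_ (fun i => ?_) i
      · simp [e]
      · simp only [e, Fin.snoc_castSucc]
        refine Fin.lastCases ?_ (fun i => ?_) i
        · simp only [Fin.snoc_last]
          have : 0 < 2 ^ (k + 1) := by positivity
          omega
        · simp only [Fin.snoc_castSucc]
          exact hg i
    have hword : List.zipWith (fun a k => a + 2 * k) (List.ofFn fun i : Fin k => 2 * y i.castSucc + 3) (List.ofFn g) ++
        [2 * y (Fin.last k) + 3 + 2 * ε, 2 * β + 3] = List.ofFn (word (Fin.snoc y β : Fin (k + 2) → ℕ) e) := by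
      rw [zipWith_ofFn, List.ofFn_succ', List.ofFn_succ', List.concat_eq_append, List.concat_eq_append, List.append_assoc]
      congr 1
      · apply congrArg
        funext i
        simp only [word, e, Fin.snoc_castSucc]
        ring
      · simp only [word, e, Fin.snoc_castSucc, Fin.snoc_last, List.singleton_append]
        congr 1
        ring
    rw [hword, P]
    apply list_sum_mem
    intro v hv
    rw [List.mem_map] at hv
    obtain ⟨u, hu, rfl⟩ := hv
    rw [List.mem_permutations'] at hu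
    have hlen : u.length = k + 2 := by rw [hu.length_eq, List.length_ofFn]
    obtain ⟨u', rfl⟩ := exists_ofFn u hlen
    obtain ⟨σ, rfl⟩ := exists_perm _ _ hu.symm
    have := hB β hβ e he σ
    rw [zt_eq] at this
    · exact this
    · intro i
      simp only [word, Function.comp_apply]
      omega

/-- the odd numbers `3, 5, …, 2 n + 1` -/
def odds (n : ℕ) : Finset ℕ := (Finset.Icc 3 (2 * n + 1)).filter Odd

open Classical in
theorem counting (hL : Transcendental L Real.pi) (E : Submodule L ℝ) (r : ℕ) (hE : Module.rank L E ≤ (r : Cardinal))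
    (k w : ℕ) (hw : 4 * 2 ^ (k + 1) ≤ w) (M : ℕ) :
    M ^ (k + 1) * (M - (2 * w ^ k * r + (w * k + 2))) ≤
      ((Fintype.piFinset fun _ : Fin (k + 2) => odds (M + w)).filter fun u => Sq.zt u ∉ E).card *
        ((k + 2).factorial * (w + 1) ^ (k + 2)) := by
  set C₀ := 2 * w ^ k * r + (w * k + 2) with hC₀
  set Tg := (Fintype.piFinset fun _ : Fin (k + 2) => odds (M + w)).filter fun u => Sq.zt u ∉ E with hTg
  set Y := Fintype.piFinset fun _ : Fin (k + 1) => Finset.range M with hY
  have hYcard : Y.card = M ^ (k + 1) := by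
    rw [hY, Fintype.card_piFinset_const, Finset.card_range]
  set Gd := (Y ×ˢ Finset.range M).filter fun p => ¬ Bad E w (Fin.snoc p.1 p.2 : Fin (k + 2) → ℕ) with hGd
  have h1 : M ^ (k + 1) * (M - C₀) ≤ Gd.card := by
    rw [hGd, Finset.card_filter, Finset.sum_product, ← hYcard, ← smul_eq_mul, ← Finset.sum_const]
    refine Finset.sum_le_sum fun y _ => ?_
    rw [← Finset.card_filter]
    have h2 := Finset.card_filter_add_card_filter_not (s := Finset.range M)
      (fun β => Bad E w (Fin.snoc y β : Fin (k + 2) → ℕ))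
    have h3 := pattern_fn hL E r hE k w hw y ((Finset.range M).filter fun β => Bad E w (Fin.snoc y β : Fin (k + 2) → ℕ))
      (fun β hβ => (Finset.mem_filter.1 hβ).2)
    rw [Finset.card_range] at h2
    simp only at h2 ⊢
    omega
  let Φ : (Fin (k + 2) → ℕ) × Equiv.Perm (Fin (k + 2)) × (Fin (k + 2) → Fin (w + 1)) → (Fin (k + 1) → ℕ) × ℕ := fun q =>
    (fun i => (q.1 (q.2.1 i.castSucc) - 3) / 2 - (q.2.2 i.castSucc : ℕ),
      (q.1 (q.2.1 (Fin.last (k + 1))) - 3) / 2 - (q.2.2 (Fin.last (k + 1)) : ℕ))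
  have h2 : Gd ⊆ (Tg ×ˢ ((Finset.univ : Finset (Equiv.Perm (Fin (k + 2)))) ×ˢ
      (Finset.univ : Finset (Fin (k + 2) → Fin (w + 1))))).image Φ := by
    intro p hp
    rw [hGd, Finset.mem_filter, Finset.mem_product, hY, Fintype.mem_piFinset] at hp
    obtain ⟨⟨hp1, hp2⟩, hp3⟩ := hp
    unfold Bad at hp3
    push Not at hp3
    obtain ⟨e, he, σ, hσ⟩ := hp3
    rw [Finset.mem_image]
    refine ⟨(word (Fin.snoc p.1 p.2 : Fin (k + 2) → ℕ) e ∘ σ, σ.symm, fun i => ⟨e i, Nat.lt_succ_of_le (he i)⟩), ?_, ?_⟩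
    · rw [Finset.mem_product, Finset.mem_product]
      refine ⟨?_, Finset.mem_univ _, Finset.mem_univ _⟩
      rw [hTg, Finset.mem_filter, Fintype.mem_piFinset]
      refine ⟨fun i => ?_, hσ⟩
      rw [odds, Finset.mem_filter, Finset.mem_Icc]
      have hx : ∀ j : Fin (k + 2), (Fin.snoc p.1 p.2 : Fin (k + 2) → ℕ) j < M := by
        intro j
        refine Fin.lastCases ?_ (fun j => ?_) j
        · rw [Fin.snoc_last]
          exact Finset.mem_range.1 hp2
        · rw [Fin.snoc_castSucc]
          exact Finset.mem_range.1 (hp1 j)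
      have h3 := hx (σ i)
      have h4 := he (σ i)
      simp only [word, Function.comp_apply]
      refine ⟨⟨by omega, by omega⟩, ⟨(Fin.snoc p.1 p.2 : Fin (k + 2) → ℕ) (σ i) + e (σ i) + 1, by ring⟩⟩
    · have h5 : ∀ j : Fin (k + 2), ((word (Fin.snoc p.1 p.2 : Fin (k + 2) → ℕ) e ∘ σ) (σ.symm j) - 3) / 2 - e j =
          (Fin.snoc p.1 p.2 : Fin (k + 2) → ℕ) j := by
        intro j
        simp only [Function.comp_apply, Equiv.apply_symm_apply, word]
        omega
      apply Prod.ext
      · funext i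
        have := h5 i.castSucc
        rw [Fin.snoc_castSucc] at this
        exact this
      · have := h5 (Fin.last (k + 1))
        rw [Fin.snoc_last] at this
        exact this
  calc M ^ (k + 1) * (M - C₀) ≤ Gd.card := h1
    _ ≤ _ := Finset.card_le_card h2
    _ ≤ _ := Finset.card_image_le
    _ = Tg.card * ((k + 2).factorial * (w + 1) ^ (k + 2)) := by
        rw [Finset.card_product, Finset.card_product, Finset.card_univ, Finset.card_univ, Fintype.card_perm,
          Fintype.card_fun, Fintype.card_fin, Fintype.card_fin]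

end Pool.Agent.H491.All
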