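import Mathlib

set_option autoImplicit false

/-! # Stuffle products over a general alphabet and the counting lemma -/

namespace Pool.Agent.H491.Gen

variable {α : Type} (m d : α → α → α)

/-- stuffle product of two words; `m` joins two letters -/
def st : List α → List α → List (List α)
  | [], t => [t]
  | (a :: s), [] => [a :: s]
  | (a :: s), (b :: t) => (st s (b :: t)).map (List.cons a) ++ (st (a :: s) t).map (List.cons b) ++
      (st s t).map (List.cons (m a b))
termination_by s t => s.length + t.length

variable (φ : α → ℕ → ℝ)

/-- truncated nested sums -/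
noncomputable def H : List α → ℕ → ℝ
  | [], _ => 1
  | (a :: s), N => ∑ n ∈ Finset.range N, φ a n * H s n

theorem H_nil (N : ℕ) : H φ [] N = 1 := by simp [H]

theorem H_cons (a : α) (s : List α) (N : ℕ) : H φ (a :: s) N = ∑ n ∈ Finset.range N, φ a n * H φ s n := by rw [H]

theorem H_cons_zero (a : α) (s : List α) : H φ (a :: s) 0 = 0 := by simp [H_cons]

theorem H_cons_succ (a : α) (s : List α) (N : ℕ) : H φ (a :: s) (N + 1) = H φ (a :: s) N + φ a N * H φ s N := by
  rw [H_cons, Finset.sum_range_succ, ← H_cons]

theorem sum_map_H_succ (a : α) (L : List (List α)) (N : ℕ) :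
    ((L.map (List.cons a)).map (fun u => H φ u (N + 1))).sum =
      ((L.map (List.cons a)).map (fun u => H φ u N)).sum + φ a N * (L.map (fun u => H φ u N)).sum := by
  induction L with
  | nil => simp
  | cons u L ih =>
    simp only [List.map_cons, List.sum_cons] at ih ⊢
    rw [ih, H_cons_succ]
    ring

theorem sum_map_H_zero (a : α) (L : List (List α)) :
    ((L.map (List.cons a)).map (fun u => H φ u 0)).sum = 0 := by
  induction L with
  | nil => simp
  | cons u L ih =>
    simp only [List.map_cons, List.sum_cons] at ih ⊢
    rw [ih, H_cons_zero]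
    ring

theorem H_mul (hφ : ∀ a b n, φ (m a b) n = φ a n * φ b n) (s t : List α) (N : ℕ) :
    H φ s N * H φ t N = ((st m s t).map (fun u => H φ u N)).sum := by
  induction s, t using st.induct generalizing N with
  | case1 t => simp [st, H_nil]
  | case2 a s => simp [st, H_nil]
  | case3 a s b t ih1 ih2 ih3 =>
    rw [st]
    simp only [List.map_append, List.sum_append]
    induction N with
    | zero =>
      rw [H_cons_zero, H_cons_zero]
      have e1 := sum_map_H_zero φ a (st m s (b :: t))
      have e2 := sum_map_H_zero φ b (st m (a :: s) t)
      have e3 := sum_map_H_zero φ (m a b) (st m s t)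
      rw [e1, e2, e3]
      ring
    | succ N ihN =>
      have e1 := sum_map_H_succ φ a (st m s (b :: t)) N
      have e2 := sum_map_H_succ φ b (st m (a :: s) t) N
      have e3 := sum_map_H_succ φ (m a b) (st m s t) N
      rw [e1, e2, e3, ← ih1 N, ← ih2 N, ← ih3 N, H_cons_succ, H_cons_succ, hφ]
      linear_combination ihN

/-- a list that contains every `u` with `w ∈ st v u` -/
def del [DecidableEq α] : List α → List α → List (List α)
  | [], w => [w]
  | (_ :: _), [] => []
  | (a :: s), (c :: w) => del s w ++ (del (a :: s) w).map (List.cons c) ++ (del s w).map (List.cons (d c a))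
termination_by v w => v.length + w.length

variable [DecidableEq α]

theorem mem_del (hd : ∀ a b, d (m a b) a = b) (v u : List α) : ∀ w ∈ st m v u, u ∈ del d v w := by
  induction v, u using st.induct with
  | case1 t =>
    intro w hw
    simp only [st, List.mem_singleton] at hw
    subst hw
    simp [del]
  | case2 a s =>
    intro w hw
    simp only [st, List.mem_singleton] at hw
    subst hw
    have key : ∀ s : List α, ([] : List α) ∈ del d s s := by
      intro s
      induction s with
      | nil => simp [del]
      | cons a s ih =>
        rw [del]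
        simp only [List.mem_append]
        exact Or.inl (Or.inl ih)
    exact key (a :: s)
  | case3 a s b t ih1 ih2 ih3 =>
    intro w hw
    rw [st] at hw
    simp only [List.mem_append, List.mem_map] at hw
    rcases hw with (⟨x, hx, rfl⟩ | ⟨x, hx, rfl⟩) | ⟨x, hx, rfl⟩
    · rw [del]
      simp only [List.mem_append]
      exact Or.inl (Or.inl (ih1 x hx))
    · rw [del]
      simp only [List.mem_append]
      exact Or.inl (Or.inr (List.mem_map.2 ⟨t, ih2 x hx, rfl⟩))
    · rw [del]
      simp only [List.mem_append]
      refine Or.inr (List.mem_map.2 ⟨t, ih3 x hx, ?_⟩)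
      rw [hd]

theorem length_del (v w : List α) : (del d v w).length ≤ (2 * w.length) ^ v.length := by
  induction v, w using del.induct with
  | case1 w => simp [del]
  | case2 a s => simp [del]
  | case3 a s c w ih1 ih2 =>
    rw [del]
    simp only [List.length_append, List.length_map, List.length_cons] at ih1 ih2 ⊢
    have h1 : (2 * (w.length + 1)) ^ (s.length + 1) = (2 * (w.length + 1)) ^ s.length * (2 * w.length + 2) := by
      rw [pow_succ]; ring
    have h2 : (2 * w.length) ^ s.length ≤ (2 * (w.length + 1)) ^ s.length :=
      Nat.pow_le_pow_left (by omega) _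
    have h3 : (2 * w.length) ^ (s.length + 1) ≤ (2 * (w.length + 1)) ^ s.length * (2 * w.length) := by
      rw [pow_succ]
      exact Nat.mul_le_mul_right _ h2
    calc _ ≤ (2 * w.length) ^ s.length + (2 * w.length) ^ (s.length + 1) + (2 * w.length) ^ s.length := by
          omega
      _ ≤ (2 * (w.length + 1)) ^ s.length + (2 * (w.length + 1)) ^ s.length * (2 * w.length) +
            (2 * (w.length + 1)) ^ s.length := by omega
      _ = _ := by rw [h1]; ring

theorem del_length_le (v w : List α) : ∀ u ∈ del d v w, u.length ≤ w.length := by
  induction v, w using del.induct with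
  | case1 w => simp [del]
  | case2 a s => simp [del]
  | case3 a s c w ih1 ih2 =>
    intro u hu
    rw [del] at hu
    simp only [List.mem_append, List.mem_map] at hu
    rcases hu with (hu | ⟨x, hx, rfl⟩) | ⟨x, hx, rfl⟩
    · have := ih1 u hu
      simp only [List.length_cons]
      omega
    · have := ih2 x hx
      simp only [List.length_cons]
      omega
    · have := ih1 x hx
      simp only [List.length_cons]
      omega

/-- the indices `u` such that the stuffle product of `v` and `u` meets `B` (and some more) -/
def pre (v : List α) (B : Finset (List α)) : Finset (List α) :=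
  B.biUnion fun w => (del d v w).toFinset

theorem notMem_of_notMem_pre (hd : ∀ a b, d (m a b) a = b) {v : List α} {B : Finset (List α)} {u : List α}
    (hu : u ∉ pre d v B) : ∀ w ∈ st m v u, w ∉ B := by
  intro w hw hB
  apply hu
  rw [pre, Finset.mem_biUnion]
  exact ⟨w, hB, List.mem_toFinset.2 (mem_del m d hd v u w hw)⟩

theorem pre_length {v : List α} {B : Finset (List α)} {N : ℕ} (hB : ∀ w ∈ B, w.length ≤ N) :
    ∀ u ∈ pre d v B, u.length ≤ N := by
  intro u hu
  rw [pre, Finset.mem_biUnion] at hu
  obtain ⟨w, hw, hu⟩ := hu
  exact (del_length_le d v w u (List.mem_toFinset.1 hu)).trans (hB w hw)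

theorem card_pre {v : List α} {B : Finset (List α)} {N : ℕ} (hB : ∀ w ∈ B, w.length ≤ N) :
    (pre d v B).card ≤ (2 * N) ^ v.length * B.card := by
  rw [pre]
  refine (Finset.card_biUnion_le_card_mul _ _ ((2 * N) ^ v.length) ?_).trans_eq (by ring)
  intro w hw
  refine (List.toFinset_card_le _).trans ((length_del d v w).trans ?_)
  exact Nat.pow_le_pow_left (Nat.mul_le_mul_left 2 (hB w hw)) _

/-- the iterated preimage -/
def preL : List (List α) → Finset (List α) → Finset (List α)
  | [], B => B
  | (v :: P), B => pre d v (preL P B)

theorem preL_length {P : List (List α)} {B : Finset (List α)} {N : ℕ} (hB : ∀ w ∈ B, w.length ≤ N) :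
    ∀ u ∈ preL d P B, u.length ≤ N := by
  induction P with
  | nil => exact hB
  | cons v P ih =>
    intro u hu
    rw [preL] at hu
    exact pre_length d ih u hu

theorem card_preL {P : List (List α)} {B : Finset (List α)} {N : ℕ} (hB : ∀ w ∈ B, w.length ≤ N) :
    (preL d P B).card ≤ (2 * N) ^ (P.map List.length).sum * B.card := by
  induction P with
  | nil => simp [preL]
  | cons v P ih =>
    rw [preL]
    refine (card_pre d (preL_length d hB)).trans ?_
    rw [List.map_cons, List.sum_cons, pow_add, mul_assoc]
    exact Nat.mul_le_mul_left _ ih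

/-- values of the iterated products; `C` is a property of words that is preserved by the products -/
theorem lift_mem (hd : ∀ a b, d (m a b) a = b) {A R : Type*} [Field A] [CommRing R] [Algebra A R] (E : Submodule A R)
    (B : Finset (List α)) (val : List α → R) (C : List (List α) → List α → Prop)
    (hmul : ∀ v P u, C (v :: P) u → val v * val u = ((st m v u).map val).sum)
    (hC : ∀ v P u w, C (v :: P) u → w ∈ st m v u → C P w)
    (hB : ∀ w, C [] w → w ∉ B → val w ∈ E) (P : List (List α)) :
    ∀ u, C P u → u ∉ preL d P B → (P.map val).prod * val u ∈ E := by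
  induction P with
  | nil =>
    intro u hu hn
    simpa using hB u hu hn
  | cons v P ih =>
    intro u hu hn
    rw [List.map_cons, List.prod_cons]
    have e : val v * (P.map val).prod * val u = (P.map val).prod * (val v * val u) := by ring
    rw [e, hmul v P u hu, ← List.sum_map_mul_left]
    refine list_sum_mem ?_
    intro x hx
    obtain ⟨w, hw, rfl⟩ := List.mem_map.1 hx
    rw [preL] at hn
    exact ih w (hC v P u w hu hw) (notMem_of_notMem_pre m d hd hn w hw)

end Pool.Agent.H491.Gen
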