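import Mathlib
import Pool.Agent.H491.Gen
import Pool.Graph.R_pool_sql_team_seeded_ab47071d.TH981.AMZ.Grow

set_option autoImplicit false

/-! # Alternating multiple zeta values: convergence, stuffle product, `log 2` and `π ^ 2` -/

namespace Pool.Agent.H491.Alt

open Filter Topology Pool.Agent.H491.Gen

/-- letters: an exponent and a sign -/
abbrev L : Type := ℕ × ℤˣ

/-- product of letters -/
def mu (a b : L) : L := (a.1 + b.1, a.2 * b.2)

/-- quotient of letters -/
def dv (c a : L) : L := (c.1 - a.1, c.2 * a.2)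

theorem dv_mu (a b : L) : dv (mu a b) a = b := by
  unfold dv mu
  ext
  · simp
  · simp only
    have : a.2 * b.2 * a.2 = b.2 := by
      rw [mul_comm a.2 b.2, mul_assoc, ← sq, Int.units_sq, mul_one]
    rw [this]

/-- the sign as a real number -/
def sr (x : ℤˣ) : ℝ := ((x : ℤ) : ℝ)

theorem sr_mul (x y : ℤˣ) : sr (x * y) = sr x * sr y := by simp [sr]

theorem sr_sq (x : ℤˣ) : sr x * sr x = 1 := by
  rw [← sr_mul, ← sq, Int.units_sq]
  simp [sr]

theorem abs_sr (x : ℤˣ) : |sr x| = 1 := by
  rcases Int.units_eq_one_or x with rfl | rfl <;> simp [sr]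

theorem sr_ne (x : ℤˣ) : sr x ≠ 0 := by
  rcases Int.units_eq_one_or x with rfl | rfl <;> simp [sr]

/-- the summand of a letter -/
noncomputable def ph (a : L) (n : ℕ) : ℝ := sr a.2 ^ (n + 1) / ((n : ℝ) + 1) ^ a.1

theorem ph_mu (a b : L) (n : ℕ) : ph (mu a b) n = ph a n * ph b n := by
  unfold ph mu
  simp only
  rw [sr_mul, mul_pow, pow_add ((n : ℝ) + 1), mul_div_mul_comm]

theorem abs_ph_le (a : L) (n : ℕ) : |ph a n| ≤ 1 := by
  unfold ph
  have h1 : (1 : ℝ) ≤ ((n : ℝ) + 1) ^ a.1 := one_le_pow₀ (by linarith [(Nat.cast_nonneg n : (0 : ℝ) ≤ n)])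
  rw [abs_div, abs_pow, abs_sr, one_pow, abs_of_pos (by positivity)]
  exact (div_le_one (by positivity)).2 h1

/-- admissible words: positive exponents, the first letter is not `(1, 1)` -/
def Adm (s : List L) : Prop := (∀ p ∈ s, 1 ≤ p.1) ∧ ∀ p t, s = p :: t → p ≠ (1, 1)

/-- the weight -/
def wt (s : List L) : ℕ := (s.map Prod.fst).sum

theorem wt_nil : wt [] = 0 := rfl

theorem wt_cons (p : L) (s : List L) : wt (p :: s) = p.1 + wt s := by simp [wt]

theorem st_pos (s t : List L) (hs : ∀ a ∈ s, 1 ≤ a.1) (ht : ∀ a ∈ t, 1 ≤ a.1) :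
    ∀ u ∈ st mu s t, ∀ a ∈ u, 1 ≤ a.1 := by
  induction s, t using st.induct with
  | case1 t =>
    intro u hu
    simp only [st, List.mem_singleton] at hu
    subst hu
    exact ht
  | case2 a s =>
    intro u hu
    simp only [st, List.mem_singleton] at hu
    subst hu
    exact hs
  | case3 a s b t ih1 ih2 ih3 =>
    have ha : 1 ≤ a.1 := hs a (by simp)
    have hb : 1 ≤ b.1 := ht b (by simp)
    have hs' : ∀ c ∈ s, 1 ≤ c.1 := fun c hc => hs c (by simp [hc])
    have ht' : ∀ c ∈ t, 1 ≤ c.1 := fun c hc => ht c (by simp [hc])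
    intro u hu c hc
    rw [st] at hu
    simp only [List.mem_append, List.mem_map] at hu
    rcases hu with (⟨v, hv, rfl⟩ | ⟨v, hv, rfl⟩) | ⟨v, hv, rfl⟩
    · rcases List.mem_cons.1 hc with rfl | hc
      · exact ha
      · exact ih1 hs' ht v hv c hc
    · rcases List.mem_cons.1 hc with rfl | hc
      · exact hb
      · exact ih2 hs ht' v hv c hc
    · rcases List.mem_cons.1 hc with rfl | hc
      · simp only [mu]; omega
      · exact ih3 hs' ht' v hv c hc

theorem st_wt (s t : List L) : ∀ u ∈ st mu s t, wt u = wt s + wt t := by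
  induction s, t using st.induct with
  | case1 t => simp [st, wt_nil]
  | case2 a s => simp [st, wt_nil]
  | case3 a s b t ih1 ih2 ih3 =>
    intro u hu
    rw [st] at hu
    simp only [List.mem_append, List.mem_map] at hu
    rcases hu with (⟨v, hv, rfl⟩ | ⟨v, hv, rfl⟩) | ⟨v, hv, rfl⟩
    · have := ih1 v hv
      simp only [wt_cons] at this ⊢
      omega
    · have := ih2 v hv
      simp only [wt_cons] at this ⊢
      omega
    · have := ih3 v hv
      simp only [wt_cons, mu] at this ⊢
      omega

theorem st_adm (s t : List L) (hs : Adm s) (ht : Adm t) : ∀ u ∈ st mu s t, Adm u := by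
  intro u hu
  refine ⟨st_pos s t hs.1 ht.1 u hu, ?_⟩
  intro c w hw
  subst hw
  rcases s with _ | ⟨a, s⟩
  · simp only [st, List.mem_singleton] at hu
    exact ht.2 c w hu.symm
  · rcases t with _ | ⟨b, t⟩
    · simp only [st, List.mem_singleton] at hu
      exact hs.2 c w hu.symm
    · have ha : 1 ≤ a.1 := hs.1 a (by simp)
      have hb : 1 ≤ b.1 := ht.1 b (by simp)
      have ha' := hs.2 a s rfl
      have hb' := ht.2 b t rfl
      rw [st] at hu
      simp only [List.mem_append, List.mem_map] at hu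
      rcases hu with (⟨v, hv, h⟩ | ⟨v, hv, h⟩) | ⟨v, hv, h⟩
      · simp only [List.cons.injEq] at h
        rw [← h.1]
        exact ha'
      · simp only [List.cons.injEq] at h
        rw [← h.1]
        exact hb'
      · simp only [List.cons.injEq] at h
        rw [← h.1]
        intro h2
        have := congrArg Prod.fst h2
        simp only [mu] at this
        omega

/-! ### Convergence -/

/-- the word in the notation of the library -/
def cw (s : List L) : List (ℕ × ℂ) := s.map fun p => (p.1, ((p.2 : ℤ) : ℂ))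

theorem liTrunc_cw (s : List L) (N : ℕ) : Pool.Agent.TH981.AMZ.liTrunc (cw s) N = ((H ph s N : ℝ) : ℂ) := by
  induction s generalizing N with
  | nil => simp [cw, Pool.Agent.TH981.AMZ.liTrunc, H_nil]
  | cons p s ih =>
    have e : cw (p :: s) = (p.1, ((p.2 : ℤ) : ℂ)) :: cw s := rfl
    rw [e, Pool.Agent.TH981.AMZ.liTrunc, H_cons]
    push_cast
    refine Finset.sum_congr rfl fun n _ => ?_
    rw [ih]
    unfold ph sr
    push_cast
    ring

theorem conv (s : List L) (hs : Adm s) : ∃ y : ℝ, Tendsto (H ph s) atTop (𝓝 y) := by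
  rcases s with _ | ⟨p, s⟩
  · refine ⟨1, ?_⟩
    have : H ph [] = fun _ => 1 := by funext N; exact H_nil ph N
    rw [this]
    exact tendsto_const_nhds
  · have h1 : Pool.Agent.TH981.AMZ.Adm 2 (((cw (p :: s)).map Prod.fst).sum) (cw (p :: s)) := by
      refine ⟨by simp [cw], ?_, rfl, ?_⟩
      · intro q hq
        obtain ⟨a, ha, rfl⟩ := List.mem_map.1 hq
        refine ⟨hs.1 a ha, ?_⟩
        simp only
        rcases Int.units_eq_one_or a.2 with h | h <;> rw [h] <;> simp
      · have h2 := hs.2 p s rfl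
        intro h3
        apply h2
        simp only [cw, List.map_cons, List.head?_cons, Option.some.injEq, Prod.mk.injEq] at h3
        ext
        · exact h3.1
        · have : ((p.2 : ℤ) : ℂ) = ((1 : ℤ) : ℂ) := by rw [h3.2]; norm_num
          simpa using (Int.cast_injective this)
    obtain ⟨y, hy⟩ := Pool.Agent.TH981.AMZ.conv_adm (by norm_num) h1
    refine ⟨y.re, ?_⟩
    have h4 := (Complex.continuous_re.tendsto y).comp hy
    refine h4.congr fun N => ?_
    simp only [Function.comp]
    rw [liTrunc_cw, Complex.ofReal_re]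

/-- the value of an alternating word -/
noncomputable def val (s : List L) : ℝ := limUnder atTop (H ph s)

theorem tendsto_val (s : List L) (hs : Adm s) : Tendsto (H ph s) atTop (𝓝 (val s)) := by
  obtain ⟨y, hy⟩ := conv s hs
  exact tendsto_nhds_limUnder ⟨y, hy⟩

theorem val_mul (s t : List L) (hs : Adm s) (ht : Adm t) : val s * val t = ((st mu s t).map val).sum := by
  have h1 : Tendsto (fun N => H ph s N * H ph t N) atTop (𝓝 (val s * val t)) :=
    (tendsto_val s hs).mul (tendsto_val t ht)
  have h2 : Tendsto (fun N => ((st mu s t).map (fun u => H ph u N)).sum) atTop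
      (𝓝 ((st mu s t).map val).sum) := by
    apply tendsto_list_sum
    intro u hu
    exact tendsto_val u (st_adm s t hs ht u hu)
  refine tendsto_nhds_unique h1 ?_
  simpa only [H_mul mu ph ph_mu] using h2

theorem adm_nil : Adm [] := ⟨by simp, by simp⟩

theorem val_nil : val [] = 1 := by
  have h1 := tendsto_val [] adm_nil
  have : H ph [] = fun _ => 1 := by funext N; exact H_nil ph N
  rw [this] at h1
  exact tendsto_nhds_unique h1 tendsto_const_nhds

theorem adm_single (p : L) (h1 : 1 ≤ p.1) (h2 : p ≠ (1, 1)) : Adm [p] := ⟨by simpa using h1, by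
    intro b t hb
    simp only [List.cons.injEq] at hb
    rw [← hb.1]
    exact h2⟩

theorem adm_log : Adm [(1, -1)] := adm_single _ le_rfl (by decide)

theorem adm_two : Adm [(2, 1)] := adm_single _ (by norm_num) (by decide)

theorem val_log : val [(1, -1)] = -Real.log 2 := by
  have h1 := tendsto_val _ adm_log
  have h2 := (Complex.continuous_ofReal.tendsto _).comp h1
  have h3 := Pool.Agent.TH981.AMZ.lim_one
  have e : Pool.Agent.TH981.AMZ.cn 1 1 = Complex.ofReal ∘ H ph [(1, -1)] := by
    funext N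
    simp only [Function.comp]
    rw [← liTrunc_cw, Pool.Agent.TH981.AMZ.cn_apply]
    simp only [cw, List.map_cons, List.map_nil, Pool.Agent.TH981.AMZ.liTrunc]
    refine Finset.sum_congr rfl fun k _ => ?_
    simp [Pool.Agent.TH981.AMZ.x]
  rw [e] at h3
  have h4 := tendsto_nhds_unique h2 h3
  have h5 : ((val [(1, -1)] : ℝ) : ℂ) = ((-Real.log 2 : ℝ) : ℂ) := by rw [h4]; push_cast; rfl
  exact_mod_cast h5

theorem val_two : val [(2, 1)] = Real.pi ^ 2 / 6 := by
  have h1 := tendsto_val _ adm_two
  have h2 := (Complex.continuous_ofReal.tendsto _).comp h1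
  have h3 := Pool.Agent.TH981.AMZ.lim_two
  have e : Pool.Agent.TH981.AMZ.cn 2 1 = Complex.ofReal ∘ H ph [(2, 1)] := by
    funext N
    simp only [Function.comp]
    rw [← liTrunc_cw, Pool.Agent.TH981.AMZ.cn_apply]
    simp only [cw, List.map_cons, List.map_nil, Pool.Agent.TH981.AMZ.liTrunc]
    refine Finset.sum_congr rfl fun k _ => ?_
    have : ((-1 : ℂ) ^ (k + 1)) ^ 2 = 1 := by rw [← pow_mul, mul_comm, pow_mul]; norm_num
    simp [Pool.Agent.TH981.AMZ.x, div_pow, this]
  rw [e] at h3
  have h4 := tendsto_nhds_unique h2 h3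
  have h5 : ((val [(2, 1)] : ℝ) : ℂ) = ((Real.pi ^ 2 / 6 : ℝ) : ℂ) := by rw [h4]; push_cast; rfl
  exact_mod_cast h5

/-- the quotient of `log 2` and `π` is transcendental (Gelfond–Schneider, Baker) -/
theorem log_div_pi : Transcendental ℚ (Real.log 2 / Real.pi) := by
  intro h
  apply Pool.Agent.TH981.AMZ.tau_transcendental
  have h1 := h.algebraMap (A := ℂ)
  have e : algebraMap ℝ ℂ (Real.log 2 / Real.pi) = Pool.Agent.TH981.AMZ.tau := by
    rw [Pool.Agent.TH981.AMZ.tau]
    simp
  rwa [e] at h1

end Pool.Agent.H491.Alt
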