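import Mathlib
import Pool.Agent.H491.Alt1

set_option autoImplicit false

/-! # Alternating multiple zeta values are not zero -/

namespace Pool.Agent.H491.Alt

open Filter Topology Pool.Agent.H491.Gen

theorem abs_H_le (s : List L) (N : ℕ) : |H ph s N| ≤ ((N : ℝ) + 1) ^ s.length := by
  induction s generalizing N with
  | nil => simp [H_nil]
  | cons p s ih =>
    rw [H_cons]
    calc |∑ n ∈ Finset.range N, ph p n * H ph s n| ≤ ∑ n ∈ Finset.range N, |ph p n * H ph s n| :=
          Finset.abs_sum_le_sum_abs _ _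
      _ ≤ ∑ n ∈ Finset.range N, ((N : ℝ) + 1) ^ s.length := by
          refine Finset.sum_le_sum fun n hn => ?_
          rw [abs_mul]
          have h1 := abs_ph_le p n
          have h2 := ih n
          have h3 : ((n : ℝ) + 1) ^ s.length ≤ ((N : ℝ) + 1) ^ s.length := by
            apply pow_le_pow_left₀ (by positivity)
            have : (n : ℝ) ≤ N := by exact_mod_cast (Finset.mem_range.1 hn).le
            linarith
          calc |ph p n| * |H ph s n| ≤ 1 * ((N : ℝ) + 1) ^ s.length :=
                mul_le_mul h1 (h2.trans h3) (abs_nonneg _) zero_le_one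
            _ = _ := one_mul _
      _ = (N : ℝ) * ((N : ℝ) + 1) ^ s.length := by rw [Finset.sum_const, Finset.card_range, nsmul_eq_mul]
      _ ≤ _ := by
          rw [List.length_cons, pow_succ, mul_comm]
          apply mul_le_mul_of_nonneg_left _ (by positivity)
          linarith

/-! ### Power series with coefficients of polynomial growth -/

theorem summable_poly (K : ℕ) (ρ : ℝ) (h0 : 0 < ρ) (h1 : ρ < 1) : Summable fun n : ℕ => ((n : ℝ) + 1) ^ K * ρ ^ n := by
  have h := summable_pow_mul_geometric_of_norm_lt_one K (r := ρ) (by rw [Real.norm_eq_abs, abs_of_pos h0]; exact h1)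
  have h2 := (summable_nat_add_iff 1).2 h
  have h3 := h2.mul_left ρ⁻¹
  refine h3.congr fun n => ?_
  push_cast
  rw [pow_succ]
  field_simp

theorem ps_summable {a : ℕ → ℝ} {K : ℕ} (ha : ∀ n, |a n| ≤ ((n : ℝ) + 1) ^ K) {t : ℝ} (ht : |t| < 1) :
    Summable fun n => a n * t ^ n := by
  obtain ⟨ρ, h1, h2⟩ := exists_between ht
  have h0 : 0 < ρ := (abs_nonneg t).trans_lt h1
  refine Summable.of_norm_bounded (summable_poly K ρ h0 h2) fun n => ?_
  rw [Real.norm_eq_abs, abs_mul, abs_pow]
  exact mul_le_mul (ha n) (pow_le_pow_left₀ (abs_nonneg t) h1.le n) (by positivity) (by positivity)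

theorem ps_summable' {a : ℕ → ℝ} {K : ℕ} (ha : ∀ n, |a n| ≤ ((n : ℝ) + 1) ^ K) {t : ℝ} (ht : |t| < 1) :
    Summable fun n => a n * t ^ (n + 1) := by
  refine ((ps_summable ha ht).mul_right t).congr fun n => ?_
  rw [pow_succ]
  ring

theorem ps_deriv {a : ℕ → ℝ} {K : ℕ} (ha : ∀ n, |a n| ≤ ((n : ℝ) + 1) ^ K) {t : ℝ} (ht : |t| < 1) :
    HasDerivAt (fun t => ∑' n, a n * t ^ (n + 1)) (∑' n, (a n * ((n : ℝ) + 1)) * t ^ n) t := by
  obtain ⟨ρ, h1, h2⟩ := exists_between ht
  have h0 : 0 < ρ := (abs_nonneg t).trans_lt h1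
  have hu := summable_poly (K + 1) ρ h0 h2
  refine hasDerivAt_tsum_of_isPreconnected (g := fun n t => a n * t ^ (n + 1))
    (g' := fun n t => (a n * ((n : ℝ) + 1)) * t ^ n) (t := Set.Ioo (-ρ) ρ) (y₀ := 0) hu isOpen_Ioo
    isPreconnected_Ioo ?_ ?_ ⟨by linarith, h0⟩ ?_ (abs_lt.1 h1)
  · intro n y _
    have h3 := (hasDerivAt_pow (n + 1) y).const_mul (a n)
    have h4 : a n * (((n + 1 : ℕ) : ℝ) * y ^ (n + 1 - 1)) = (a n * ((n : ℝ) + 1)) * y ^ n := by
      push_cast
      ring
    rw [h4] at h3
    exact h3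
  · intro n y hy
    have hy' : |y| < ρ := abs_lt.2 hy
    rw [Real.norm_eq_abs, abs_mul, abs_mul, abs_pow]
    have h4 : |((n : ℝ) + 1)| = (n : ℝ) + 1 := abs_of_pos (by positivity)
    rw [h4, pow_succ]
    exact mul_le_mul (mul_le_mul_of_nonneg_right (ha n) (by positivity)) (pow_le_pow_left₀ (abs_nonneg y) hy'.le n)
      (by positivity) (by positivity)
  · refine (summable_zero).congr fun n => ?_
    simp

/-! ### The multiple polylogarithms on the unit interval -/

/-- the power series of a word -/
noncomputable def F (p : L) (s : List L) (t : ℝ) : ℝ := ∑' n, (ph p n * H ph s n) * t ^ (n + 1)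

theorem coeff_bd (p : L) (s : List L) (n : ℕ) : |ph p n * H ph s n| ≤ ((n : ℝ) + 1) ^ s.length := by
  rw [abs_mul]
  calc |ph p n| * |H ph s n| ≤ 1 * ((n : ℝ) + 1) ^ s.length :=
        mul_le_mul (abs_ph_le p n) (abs_H_le s n) (abs_nonneg _) zero_le_one
    _ = _ := one_mul _

theorem F_zero (p : L) (s : List L) : F p s 0 = 0 := by
  unfold F
  simp

theorem F_diff (p : L) (s : List L) {t : ℝ} (ht : |t| < 1) :
    HasDerivAt (F p s) (∑' n, (ph p n * H ph s n * ((n : ℝ) + 1)) * t ^ n) t :=
  ps_deriv (coeff_bd p s) ht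

theorem F_deriv_ge_two (a : ℕ) (x : ℤˣ) (s : List L) {t : ℝ} (h0 : 0 < t) (h1 : t < 1) :
    HasDerivAt (F (a + 1, x) s) (F (a, x) s t / t) t := by
  have h := F_diff (a + 1, x) s (t := t) (by rw [abs_of_pos h0]; exact h1)
  convert h using 1
  unfold F
  rw [← tsum_div_const]
  refine tsum_congr fun n => ?_
  unfold ph
  simp only
  rw [pow_succ t, pow_succ ((n : ℝ) + 1)]
  field_simp

theorem ph_one (x : ℤˣ) (n : ℕ) : ph (1, x) n * ((n : ℝ) + 1) = sr x ^ (n + 1) := by
  unfold ph
  simp only [pow_one]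
  field_simp

theorem one_sub_pos (x : ℤˣ) {t : ℝ} (h0 : 0 < t) (h1 : t < 1) : 0 < 1 - sr x * t := by
  rcases Int.units_eq_one_or x with rfl | rfl
  · simp [sr]; linarith
  · simp [sr]; linarith

theorem F_deriv_nil (x : ℤˣ) {t : ℝ} (h0 : 0 < t) (h1 : t < 1) :
    HasDerivAt (F (1, x) []) (sr x / (1 - sr x * t)) t := by
  have ht : |t| < 1 := by rw [abs_of_pos h0]; exact h1
  have h := F_diff (1, x) [] ht
  convert h using 1
  have h2 : ‖sr x * t‖ < 1 := by
    rw [Real.norm_eq_abs, abs_mul, abs_sr, one_mul]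
    exact ht
  have h3 := tsum_geometric_of_norm_lt_one h2
  rw [div_eq_mul_inv, ← h3, ← tsum_mul_left]
  refine tsum_congr fun n => ?_
  rw [H_nil, mul_one, ph_one]
  rw [mul_pow, pow_succ]
  ring

theorem F_deriv_cons (x : ℤˣ) (q : L) (s : List L) {t : ℝ} (h0 : 0 < t) (h1 : t < 1) :
    HasDerivAt (F (1, x) (q :: s)) (sr x / (1 - sr x * t) * F (q.1, x * q.2) s t) t := by
  have ht : |t| < 1 := by rw [abs_of_pos h0]; exact h1
  have h := F_diff (1, x) (q :: s) ht
  convert h using 1
  have e1 : ∀ n : ℕ, ph (1, x) n * H ph (q :: s) n * ((n : ℝ) + 1) * t ^ n = sr x ^ (n + 1) * H ph (q :: s) n * t ^ n := by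
    intro n
    rw [← ph_one]
    ring
  rw [tsum_congr e1]
  have hb : ∀ n, |sr x ^ (n + 1) * H ph (q :: s) n| ≤ ((n : ℝ) + 1) ^ (q :: s).length := by
    intro n
    rw [abs_mul, abs_pow, abs_sr, one_pow, one_mul]
    exact abs_H_le _ _
  have hS := ps_summable hb ht
  set S := ∑' n, sr x ^ (n + 1) * H ph (q :: s) n * t ^ n with hSdef
  have hF := ps_summable' (coeff_bd (q.1, x * q.2) s) ht
  have e2 : S = sr x * t * S + sr x * F (q.1, x * q.2) s t := by
    have e3 := hS.tsum_eq_zero_add
    rw [H_cons_zero, mul_zero, zero_mul, zero_add] at e3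
    have e5 : S = ∑' n, sr x ^ (n + 1 + 1) * H ph (q :: s) (n + 1) * t ^ (n + 1) := e3
    rw [e5]
    have e6 : S = ∑' n, sr x ^ (n + 1) * H ph (q :: s) n * t ^ n := hSdef
    rw [← e5, e6]
    unfold F
    rw [← tsum_mul_left, ← tsum_mul_left, ← (hS.mul_left (sr x * t)).tsum_add (hF.mul_left (sr x)), ← e6, e5]
    refine tsum_congr fun n => ?_
    rw [H_cons_succ]
    unfold ph
    simp only
    rw [sr_mul, mul_pow, pow_succ (sr x) (n + 1), pow_succ t n]
    ring
  have h3 := one_sub_pos x h0 h1
  have h4 : (1 - sr x * t) * S = sr x * F (q.1, x * q.2) s t := by linear_combination e2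
  rw [div_mul_eq_mul_div, div_eq_iff h3.ne', mul_comm S]
  exact h4.symm

/-- the sign of a word, with a factor for the first sign -/
def sga : ℤˣ → List L → ℤˣ
  | _, [] => 1
  | c, (p :: s) => (c * p.2) * sga (c * p.2) s

theorem F_sign (n : ℕ) : ∀ (p : L) (s : List L), wt (p :: s) ≤ n → 1 ≤ p.1 → (∀ q ∈ s, 1 ≤ q.1) →
    ∀ t : ℝ, 0 < t → t < 1 → 0 < sr (sga 1 (p :: s)) * F p s t := by
  induction n with
  | zero =>
    intro p s hw hp
    rw [wt_cons] at hw
    omega
  | succ n ih =>
    intro p s hw hp hs t h0 h1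
    -- the derivative has the right sign
    have key : ∀ y : ℝ, 0 < y → y < 1 → ∃ D : ℝ, HasDerivAt (F p s) D y ∧ 0 < sr (sga 1 (p :: s)) * D := by
      intro y hy0 hy1
      obtain ⟨a, x⟩ := p
      simp only at hp
      rcases Nat.lt_or_ge a 2 with ha | ha
      · have ha1 : a = 1 := by omega
        subst ha1
        have hpos := one_sub_pos x hy0 hy1
        rcases s with _ | ⟨q, s⟩
        · refine ⟨_, F_deriv_nil x hy0 hy1, ?_⟩
          simp only [sga, one_mul, mul_one]
          rw [mul_div_assoc', sr_sq]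
          positivity
        · refine ⟨_, F_deriv_cons x q s hy0 hy1, ?_⟩
          have hq : 1 ≤ q.1 := hs q (by simp)
          have h2 := ih (q.1, x * q.2) s (by
            rw [wt_cons, wt_cons] at hw
            rw [wt_cons]
            simp only
            omega) hq (fun r hr => hs r (by simp [hr])) y hy0 hy1
          simp only [sga, one_mul] at h2 ⊢
          have e : sr (x * (x * q.2 * sga (x * q.2) s)) * (sr x / (1 - sr x * y) * F (q.1, x * q.2) s y) =
              (sr x * sr x) * (sr (x * q.2 * sga (x * q.2) s) * F (q.1, x * q.2) s y) / (1 - sr x * y) := by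
            rw [sr_mul x]
            ring
          rw [e, sr_sq, one_mul]
          exact div_pos h2 hpos
      · obtain ⟨b, rfl⟩ : ∃ b, a = b + 1 := ⟨a - 1, by omega⟩
        refine ⟨_, F_deriv_ge_two b x s hy0 hy1, ?_⟩
        have h2 := ih (b, x) s (by
          rw [wt_cons] at hw ⊢
          simp only at hw ⊢
          omega) (by simp only; omega) hs y hy0 hy1
        simp only [sga] at h2 ⊢
        rw [mul_div_assoc']
        exact div_pos h2 hy0
    have hmono : StrictMonoOn (fun y => sr (sga 1 (p :: s)) * F p s y) (Set.Icc 0 t) := by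
      apply strictMonoOn_of_deriv_pos (convex_Icc 0 t)
      · intro y hy
        have hy1 : |y| < 1 := by rw [abs_of_nonneg hy.1]; linarith [hy.2]
        exact ((F_diff p s hy1).continuousAt.const_mul _).continuousWithinAt
      · intro y hy
        rw [interior_Icc] at hy
        obtain ⟨D, hD1, hD2⟩ := key y hy.1 (hy.2.trans h1)
        rw [(hD1.const_mul (sr (sga 1 (p :: s)))).deriv]
        exact hD2
    have h3 := hmono (Set.left_mem_Icc.2 h0.le) (Set.right_mem_Icc.2 h0.le) h0
    simp only [F_zero, mul_zero] at h3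
    exact h3

/-- the function is increasing up to the sign, so the value at `1` is not zero -/
theorem val_ne_zero (s : List L) (hs : Adm s) : val s ≠ 0 := by
  rcases s with _ | ⟨p, s⟩
  · rw [val_nil]
    exact one_ne_zero
  · have hp : 1 ≤ p.1 := hs.1 p (by simp)
    have hs' : ∀ q ∈ s, 1 ≤ q.1 := fun q hq => hs.1 q (by simp [hq])
    have h1 := tendsto_val (p :: s) hs
    have h2 : Tendsto (fun n => ∑ i ∈ Finset.range n, ph p i * H ph s i) atTop (𝓝 (val (p :: s))) :=
      h1.congr fun N => H_cons ph p s N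
    have h3 := Real.tendsto_tsum_powerSeries_nhdsWithin_lt h2
    have h4 : Tendsto (fun y : ℝ => y) (𝓝[<] (1 : ℝ)) (𝓝 1) := tendsto_id.mono_left nhdsWithin_le_nhds
    have h5 := h3.mul h4
    rw [mul_one] at h5
    have h6 : Tendsto (fun y => sr (sga 1 (p :: s)) * F p s y) (𝓝[<] (1 : ℝ)) (𝓝 (sr (sga 1 (p :: s)) * val (p :: s))) := by
      refine (h5.const_mul _).congr fun y => ?_
      congr 1
      unfold F
      rw [← tsum_mul_right]
      refine tsum_congr fun n => ?_
      rw [pow_succ]
      ring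
    have hlow : ∀ y ∈ Set.Ioo (1 / 2 : ℝ) 1, sr (sga 1 (p :: s)) * F p s (1 / 2) ≤ sr (sga 1 (p :: s)) * F p s y := by
      intro y hy
      have hmono : MonotoneOn (fun y => sr (sga 1 (p :: s)) * F p s y) (Set.Icc 0 y) := by
        apply monotoneOn_of_deriv_nonneg (convex_Icc 0 y)
        · intro z hz
          have hz1 : |z| < 1 := by rw [abs_of_nonneg hz.1]; linarith [hz.2, hy.2]
          exact ((F_diff p s hz1).continuousAt.const_mul _).continuousWithinAt
        · intro z hz
          rw [interior_Icc] at hz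
          have hz1 : |z| < 1 := by rw [abs_of_pos hz.1]; linarith [hz.2, hy.2]
          exact ((F_diff p s hz1).differentiableAt.const_mul _).differentiableWithinAt
        · intro z hz
          rw [interior_Icc] at hz
          have hz0 := hz.1
          have hz1 : z < 1 := hz.2.trans hy.2
          have hzabs : |z| < 1 := by rw [abs_of_pos hz0]; exact hz1
          -- the difference quotients from the right are nonnegative by `F_sign`-type monotonicity
          obtain ⟨a, x⟩ := p
          simp only at hp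
          rcases Nat.lt_or_ge a 2 with ha | ha
          · have ha1 : a = 1 := by omega
            subst ha1
            have hpos := one_sub_pos x hz0 hz1
            rcases s with _ | ⟨q, s⟩
            · rw [((F_deriv_nil x hz0 hz1).const_mul _).deriv]
              simp only [sga, one_mul, mul_one]
              rw [mul_div_assoc', sr_sq]
              positivity
            · rw [((F_deriv_cons x q s hz0 hz1).const_mul _).deriv]
              have hq : 1 ≤ q.1 := hs' q (by simp)
              have h2 := F_sign _ (q.1, x * q.2) s le_rfl hq (fun r hr => hs' r (by simp [hr])) z hz0 hz1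
              simp only [sga, one_mul] at h2 ⊢
              have e : sr (x * (x * q.2 * sga (x * q.2) s)) * (sr x / (1 - sr x * z) * F (q.1, x * q.2) s z) =
                  (sr x * sr x) * (sr (x * q.2 * sga (x * q.2) s) * F (q.1, x * q.2) s z) / (1 - sr x * z) := by
                rw [sr_mul x]
                ring
              rw [e, sr_sq, one_mul]
              exact (div_pos h2 hpos).le
          · obtain ⟨b, rfl⟩ : ∃ b, a = b + 1 := ⟨a - 1, by omega⟩
            rw [((F_deriv_ge_two b x s hz0 hz1).const_mul _).deriv]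
            have h2 := F_sign _ (b, x) s le_rfl (by simp only; omega) hs' z hz0 hz1
            simp only [sga] at h2 ⊢
            rw [mul_div_assoc']
            exact (div_pos h2 hz0).le
      exact hmono ⟨by norm_num, hy.1.le⟩ ⟨by linarith [hy.1], le_rfl⟩ hy.1.le
    have h7 : sr (sga 1 (p :: s)) * F p s (1 / 2) ≤ sr (sga 1 (p :: s)) * val (p :: s) := by
      apply ge_of_tendsto h6
      have : Set.Ioo (1 / 2 : ℝ) 1 ∈ 𝓝[<] (1 : ℝ) := Ioo_mem_nhdsLT (by norm_num)
      filter_upwards [this] with y hy using hlow y hy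
    have h8 := F_sign _ p s le_rfl hp hs' (1 / 2) (by norm_num) (by norm_num)
    intro h9
    rw [h9, mul_zero] at h7
    linarith

end Pool.Agent.H491.Alt
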