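import Mathlib
import Pool.Agent.H491.Base

set_option autoImplicit false

/-! # The main counting estimate -/

namespace Pool.Agent.H491.Hit

open Pool.Agent.H447R2.MZ Filter Topology

/-- the list of factors -/
def PL (v : List ℕ) (e i : ℕ) : List (List ℕ) :=
  List.replicate (2 * i) v ++ (if i < e then [[2 * (v.sum * (e - i))]] else [])

theorem PL_sum (v : List ℕ) (e i : ℕ) (hi : i ≤ e) : ((PL v e i).map List.sum).sum = 2 * (v.sum * e) := by
  unfold PL
  obtain ⟨d, rfl⟩ := Nat.exists_eq_add_of_le hi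
  split_ifs with h
  · simp only [List.map_append, List.map_replicate, List.sum_append, List.sum_replicate, List.map_cons, List.map_nil,
      List.sum_cons, List.sum_nil, smul_eq_mul, add_zero]
    rw [Nat.add_sub_cancel_left]
    ring
  · have : d = 0 := by omega
    subst this
    simp only [List.append_nil, List.map_replicate, List.sum_replicate, smul_eq_mul, add_zero]
    ring

theorem PL_length (v : List ℕ) (e i : ℕ) (hi : i ≤ e) :
    ((PL v e i).map List.length).sum ≤ 2 * e * v.length + 1 := by
  unfold PL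
  have h0 : 2 * i * v.length ≤ 2 * e * v.length := Nat.mul_le_mul_right _ (by omega)
  split_ifs with h
  · simp only [List.map_append, List.map_replicate, List.sum_append, List.sum_replicate, List.map_cons, List.map_nil,
      List.sum_cons, List.sum_nil, smul_eq_mul, add_zero, List.length_cons, List.length_nil, zero_add]
    omega
  · simp only [List.append_nil, List.map_replicate, List.sum_replicate, smul_eq_mul]
    omega

theorem PL_adm (v : List ℕ) (hv : Adm v) (hs : 1 ≤ v.sum) (e i : ℕ) : ∀ x ∈ PL v e i, Adm x := by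
  intro x hx
  unfold PL at hx
  rw [List.mem_append] at hx
  rcases hx with hx | hx
  · rw [List.mem_replicate] at hx
    rw [hx.2]
    exact hv
  · split_ifs at hx with h
    · rw [List.mem_singleton] at hx
      subst hx
      apply adm_single
      have : 1 ≤ v.sum * (e - i) := Nat.one_le_iff_ne_zero.2 (Nat.mul_ne_zero (by omega) (by omega))
      omega
    · simp at hx

theorem PL_val (v : List ℕ) (hs : 1 ≤ v.sum) (e i : ℕ) (hi : i ≤ e) : ∃ q : ℚ, q ≠ 0 ∧
    ((PL v e i).map val).prod = q * Real.pi ^ (2 * (v.sum * e)) * ((val v / Real.pi ^ v.sum) ^ 2) ^ i := by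
  have hpi : (Real.pi : ℝ) ≠ 0 := Real.pi_ne_zero
  unfold PL
  obtain ⟨d, rfl⟩ := Nat.exists_eq_add_of_le hi
  split_ifs with h
  · rw [Nat.add_sub_cancel_left]
    obtain ⟨q, hq, h1⟩ := val_even (v.sum * d) (Nat.mul_ne_zero (by omega) (by omega))
    refine ⟨q, hq, ?_⟩
    simp only [List.map_append, List.map_replicate, List.prod_append, List.prod_replicate, List.map_cons, List.map_nil,
      List.prod_cons, List.prod_nil, mul_one]
    rw [h1, div_pow, ← pow_mul, div_pow, ← pow_mul, ← pow_mul]
    have e1 : 2 * (v.sum * (i + d)) = v.sum * 2 * i + 2 * (v.sum * d) := by ring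
    rw [e1, pow_add]
    have e2 : (Real.pi : ℝ) ^ (v.sum * 2 * i) ≠ 0 := pow_ne_zero _ hpi
    field_simp
  · have : d = 0 := by omega
    subst this
    refine ⟨1, one_ne_zero, ?_⟩
    simp only [List.append_nil, List.map_replicate, List.prod_replicate, add_zero]
    rw [div_pow, ← pow_mul, div_pow, ← pow_mul, ← pow_mul]
    have e1 : 2 * (v.sum * i) = v.sum * 2 * i := by ring
    rw [e1]
    have e2 : (Real.pi : ℝ) ^ (v.sum * 2 * i) ≠ 0 := pow_ne_zero _ hpi
    push_cast
    field_simp

theorem sum_pos_of_notMem {v : List ℕ} (hv : Adm v) (hθ : val v / Real.pi ^ v.sum ∉ RA) : 1 ≤ v.sum := by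
  rcases v with _ | ⟨a, t⟩
  · exfalso
    apply hθ
    rw [val_nil]
    simp
  · have := hv.2 a t rfl
    rw [List.sum_cons]
    omega

theorem linInd_scaled {θ : ℝ} (h : θ ∉ RA) (c : ℝ) (hc : c ≠ 0) (n : ℕ) (q : Fin n → ℚ) (hq : ∀ i, q i ≠ 0) :
    LinearIndependent RA (fun i : Fin n => (q i : ℝ) * c * θ ^ (i : ℕ)) := by
  have h1 : LinearIndependent RA (fun i : Fin n => θ ^ (i : ℕ)) := (linInd_pow h).comp _ Fin.val_injective
  rw [Fintype.linearIndependent_iff] at h1 ⊢
  intro g hg i
  have hqr : ∀ j, ((q j : ℚ) : ℝ) ∈ RA := fun j => mem_RA.2 (isAlgebraic_algebraMap (R := ℚ) (A := ℝ) (q j))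
  have h2 := h1 (fun j => g j * ⟨(q j : ℝ), hqr j⟩) (by
    have e : ∑ j : Fin n, (g j * (⟨(q j : ℝ), hqr j⟩ : RA)) • θ ^ (j : ℕ) =
        c⁻¹ * ∑ j : Fin n, g j • ((q j : ℝ) * c * θ ^ (j : ℕ)) := by
      rw [Finset.mul_sum]
      refine Finset.sum_congr rfl fun j _ => ?_
      rw [IntermediateField.smul_def, IntermediateField.smul_def]
      simp only [smul_eq_mul, MulMemClass.coe_mul]
      field_simp
    rw [e, hg, mul_zero]) i
  rcases mul_eq_zero.1 h2 with h3 | h3
  · exact h3
  · exfalso
    have h4 := congrArg (fun x : RA => (x : ℝ)) h3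
    simp only [ZeroMemClass.coe_zero, Rat.cast_eq_zero] at h4
    exact hq i h4

/-- if many multiple zeta values lie in a space of dimension `e`, then the word `v` is an algebraic multiple of the power
of `π` -/
theorem core {v : List ℕ} (hv : Adm v) (hθ : val v / Real.pi ^ v.sum ∉ RA) (e k : ℕ) (E : Submodule RA ℝ)
    (hE : Module.rank RA E ≤ e) (C : ℕ → List ℕ → Prop) (hmono : ∀ i j w, i ≤ j → C i w → C j w)
    (hC : ∀ i, i ≤ e → ∀ x ∈ PL v e i, ∀ j u w, C j u → w ∈ st x u → C (j + x.length) w)
    (U : Finset (List ℕ)) (hU : ∀ u ∈ U, Adm u ∧ u.sum + 2 * (v.sum * e) = k ∧ C 0 u)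
    (B : Finset (List ℕ)) (hk : 1 ≤ k) (hlen : ∀ w ∈ B, w.length ≤ k)
    (hB : ∀ w, Adm w → w.sum = k → C (2 * e * v.length + 1) w → w ∉ B → val w ∈ E) :
    U.card ≤ (e + 1) * (2 * k) ^ (2 * e * v.length + 1) * B.card := by
  classical
  have hs := sum_pos_of_notMem hv hθ
  have hθ2 : (val v / Real.pi ^ v.sum) ^ 2 ∉ RA := by
    intro h
    apply hθ
    rw [mem_RA] at h ⊢
    exact IsAlgebraic.of_pow (by norm_num) h
  -- every element of `U` is in one of the preimages
  have key : U ⊆ (Finset.range (e + 1)).biUnion fun i => preL (PL v e i) B := by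
    intro u hu
    by_contra hcon
    rw [Finset.mem_biUnion] at hcon
    push Not at hcon
    obtain ⟨hu1, hu2, hu3⟩ := hU u hu
    have hval : ∀ i : Fin (e + 1), ((PL v e i).map val).prod * val u ∈ E := by
      intro i
      have hi : (i : ℕ) ≤ e := by omega
      have hlen' := PL_length v e i hi
      refine lift_mem E B C (PL v e i) (PL_adm v hv hs e i) (hC i hi) k (2 * e * v.length + 1) hB u
        (2 * e * v.length + 1 - ((PL v e i).map List.length).sum) hu1 ?_ (hmono 0 _ u (Nat.zero_le _) hu3) ?_ ?_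
      · rw [PL_sum v e i hi]
        exact hu2
      · omega
      · exact hcon i (Finset.mem_range.2 i.2)
    choose q hq hqv using fun i : Fin (e + 1) => PL_val v hs e i (by omega)
    have hlin : LinearIndependent RA (fun i : Fin (e + 1) => (⟨_, hval i⟩ : E)) := by
      rw [← LinearMap.linearIndependent_iff E.subtype (by simp)]
      have h1 := linInd_scaled hθ2 (Real.pi ^ (2 * (v.sum * e)) * val u)
        (mul_ne_zero (pow_ne_zero _ Real.pi_ne_zero) (val_pos u hu1).ne') (e + 1) q hq
      have e1 : (E.subtype ∘ fun i : Fin (e + 1) => (⟨_, hval i⟩ : E)) = fun i : Fin (e + 1) =>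
          (q i : ℝ) * (Real.pi ^ (2 * (v.sum * e)) * val u) * ((val v / Real.pi ^ v.sum) ^ 2) ^ (i : ℕ) := by
        funext i
        simp only [Function.comp, Submodule.subtype_apply]
        rw [hqv i]
        ring
      rw [e1]
      exact h1
    have h2 := hlin.cardinal_le_rank
    have h3 : ((e + 1 : ℕ) : Cardinal) ≤ (e : ℕ) := by
      have := h2.trans hE
      rwa [Cardinal.mk_fin] at this
    have h4 : e + 1 ≤ e := by exact_mod_cast h3
    omega
  refine (Finset.card_le_card key).trans ((Finset.card_biUnion_le_card_mul _ _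
    ((2 * k) ^ (2 * e * v.length + 1) * B.card) ?_).trans_eq ?_)
  · intro i hi
    have hi' : i ≤ e := by
      have := Finset.mem_range.1 hi
      omega
    refine (card_preL hlen).trans (Nat.mul_le_mul_right _ ?_)
    exact Nat.pow_le_pow_right (by omega) (PL_length v e i hi')
  · rw [Finset.card_range]
    ring

end Pool.Agent.H491.Hit
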