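import Mathlib
import Pool.Agent.H491.Core

set_option autoImplicit false

/-! # The dichotomy and its unconditional consequences -/

namespace Pool.Agent.H491.Hit

open Pool.Agent.H447R2.MZ Filter Topology

open scoped Classical in
/-- the admissible indices of weight `k` whose value is not in `E` -/
noncomputable def outside (k : ℕ) (E : Submodule RA ℝ) : Finset (List ℕ) := (W k).filter fun s => val s ∉ E

theorem mem_outside {k : ℕ} {E : Submodule RA ℝ} {s : List ℕ} :
    s ∈ outside k E ↔ (Adm s ∧ s.sum = k) ∧ val s ∉ E := by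
  simp only [outside, Finset.mem_filter, mem_W]

/-- the core estimate for all words -/
theorem outside_card {v : List ℕ} (hv : Adm v) (hθ : val v / Real.pi ^ v.sum ∉ RA) (e k : ℕ)
    (hk : 2 * (v.sum * e) + 2 ≤ k) (E : Submodule RA ℝ) (hE : Module.rank RA E ≤ e) :
    2 ^ (k - 2 * (v.sum * e) - 2) ≤ (e + 1) * (2 * k) ^ (2 * e * v.length + 1) * (outside k E).card := by
  refine (card_W (k - 2 * (v.sum * e)) (by omega)).trans ?_
  refine core hv hθ e k E hE (fun _ _ => True) (fun _ _ _ _ _ => trivial) (fun _ _ _ _ _ _ _ _ _ => trivial)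
    (W (k - 2 * (v.sum * e))) ?_ (outside k E) (by omega) ?_ ?_
  · intro u hu
    obtain ⟨h1, h2⟩ := mem_W.1 hu
    exact ⟨h1, by omega, trivial⟩
  · intro w hw
    exact length_le_of_mem_W (mem_W.2 (mem_outside.1 hw).1)
  · intro w hw1 hw2 _ hw3
    by_contra hcon
    exact hw3 (mem_outside.2 ⟨⟨hw1, hw2⟩, hcon⟩)

/-- the core estimate in real form -/
theorem outside_card_real {v : List ℕ} (hv : Adm v) (hθ : val v / Real.pi ^ v.sum ∉ RA) (e : ℕ) :
    ∃ c : ℝ, 0 < c ∧ ∃ C K : ℕ, 1 ≤ K ∧ ∀ k : ℕ, K ≤ k → ∀ E : Submodule RA ℝ, Module.rank RA E ≤ e →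
      c * (2 ^ k / (k : ℝ) ^ C) ≤ ((outside k E).card : ℝ) := by
  set M := 2 * (v.sum * e) + 2 with hM
  set D := 2 * e * v.length + 1 with hD
  refine ⟨1 / (2 ^ M * ((e + 1) * 2 ^ D)), by positivity, D, M, by omega, ?_⟩
  intro k hk E hE
  have h1 := outside_card hv hθ e k (by omega) E hE
  have h2 : (2 : ℝ) ^ (k - M) ≤ (e + 1) * (2 * k) ^ D * ((outside k E).card : ℝ) := by
    have h3 : k - 2 * (v.sum * e) - 2 = k - M := by omega
    rw [h3] at h1
    exact_mod_cast h1
  have hk0 : (0 : ℝ) < k := by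
    have : 0 < k := by omega
    exact_mod_cast this
  have h4 : (2 : ℝ) ^ k = 2 ^ M * 2 ^ (k - M) := by
    rw [← pow_add]
    congr 1
    omega
  have h5 : (0 : ℝ) < (k : ℝ) ^ D := pow_pos hk0 D
  rw [h4]
  rw [mul_pow] at h2
  calc (1 / (2 ^ M * (((e : ℝ) + 1) * 2 ^ D))) * (2 ^ M * 2 ^ (k - M) / (k : ℝ) ^ D)
      = 2 ^ (k - M) / ((((e : ℝ) + 1) * 2 ^ D) * (k : ℝ) ^ D) := by
        field_simp
    _ ≤ ((outside k E).card : ℝ) := by
        rw [div_le_iff₀ (by positivity)]
        calc _ ≤ _ := h2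
          _ = _ := by ring

/-- the span of the multiple zeta values of weight `k` over the real algebraic numbers -/
noncomputable def V (k : ℕ) : Submodule RA ℝ := Submodule.span RA {x | ∃ s, Adm s ∧ s.sum = k ∧ x = val s}

theorem val_mem_V (s : List ℕ) (hs : Adm s) : val s ∈ V s.sum := Submodule.subset_span ⟨s, hs, rfl, rfl⟩

theorem one_mem_V : (1 : ℝ) ∈ V 0 := by
  have := val_mem_V [] adm_nil
  rw [val_nil] at this
  simpa using this

/-- in the first case all multiple zeta values of weight `k` are outside the span of the other weights -/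
theorem notMem_of_algebraic (h : ∀ s, Adm s → val s / Real.pi ^ s.sum ∈ RA) (k : ℕ) (E : Submodule RA ℝ)
    (hE : E ≤ ⨆ j ∈ {j : ℕ | j ≠ k}, V j) (s : List ℕ) (hs : Adm s) (hk : s.sum = k) : val s ∉ E := by
  intro hmem
  have h1 : E ≤ Submodule.span RA ((fun n : ℕ => Real.pi ^ n) '' {j : ℕ | j ≠ k}) := by
    refine hE.trans ?_
    refine iSup₂_le fun j hj => ?_
    rw [V, Submodule.span_le]
    rintro _ ⟨t, ht, rfl, rfl⟩
    have h2 : val t = (⟨_, h t ht⟩ : RA) • Real.pi ^ t.sum := by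
      rw [IntermediateField.smul_def, smul_eq_mul]
      rw [div_mul_cancel₀ _ (pow_ne_zero _ Real.pi_ne_zero)]
    rw [h2]
    exact Submodule.smul_mem _ _ (Submodule.subset_span ⟨t.sum, hj, rfl⟩)
  have h3 : Real.pi ^ k ∈ Submodule.span RA ((fun n : ℕ => Real.pi ^ n) '' {j : ℕ | j ≠ k}) := by
    have h4 : Real.pi ^ k = (⟨_, h s hs⟩ : RA)⁻¹ • val s := by
      rw [IntermediateField.smul_def, smul_eq_mul]
      simp only [IntermediateField.coe_inv]
      rw [inv_div, hk]
      rw [div_mul_cancel₀ _ (val_pos s hs).ne']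
    rw [h4]
    exact Submodule.smul_mem _ _ (h1 hmem)
  have hpi : Real.pi ∉ RA := by
    have := pi_pow_notMem 1 one_ne_zero
    rwa [pow_one] at this
  exact (linInd_pow hpi).notMem_span_image (s := {j : ℕ | j ≠ k}) (x := k) (by simp) h3

/-- **Robust directness.** -/
theorem robust (e : ℕ) : ∃ c : ℝ, 0 < c ∧ ∃ C K : ℕ, 1 ≤ K ∧ ∀ k : ℕ, K ≤ k → ∀ E : Submodule RA ℝ,
    Module.rank RA E ≤ e → E ≤ ⨆ j ∈ {j : ℕ | j ≠ k}, V j → c * (2 ^ k / (k : ℝ) ^ C) ≤ ((outside k E).card : ℝ) := by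
  by_cases h : ∀ s, Adm s → val s / Real.pi ^ s.sum ∈ RA
  · refine ⟨1 / 4, by norm_num, 0, 2, by norm_num, ?_⟩
    intro k hk E _ hE2
    have h1 : outside k E = W k := by
      apply Finset.Subset.antisymm
      · intro s hs
        exact mem_W.2 (mem_outside.1 hs).1
      · intro s hs
        rw [mem_outside]
        have := mem_W.1 hs
        exact ⟨this, notMem_of_algebraic h k E hE2 s this.1 this.2⟩
    rw [h1]
    have h2 : ((2 ^ (k - 2) : ℕ) : ℝ) ≤ ((W k).card : ℝ) := by exact_mod_cast card_W k hk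
    have h3 : (2 : ℝ) ^ k = 4 * 2 ^ (k - 2) := by
      have : k = (k - 2) + 2 := by omega
      conv_lhs => rw [this]
      rw [pow_add]
      ring
    rw [h3]
    push_cast at h2
    simpa using h2
  · push Not at h
    obtain ⟨v, hv, hθ⟩ := h
    obtain ⟨c, hc, C, K, hK, h1⟩ := outside_card_real hv hθ e
    exact ⟨c, hc, C, K, hK, fun k hk E hE _ => h1 k hk E hE⟩

end Pool.Agent.H491.Hit
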