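import Mathlib
import Pool.Agent.H491.Alt2
import Pool.Agent.H491.Dich

set_option autoImplicit false

/-! # Alternating multiple zeta values outside a space of small dimension -/

namespace Pool.Agent.H491.Alt

open Filter Topology Pool.Agent.H491.Gen

/-- the words that one gets from a word by taking away `j` units, each with the sign `-1` -/
def cut : ℕ → List L → List (List L)
  | 0, [] => [[]]
  | (_ + 1), [] => []
  | j, (c :: w) => (List.range (min j c.1 + 1)).flatMap fun r =>
      (cut (j - r) w).map fun u => if r = c.1 then u else (c.1 - r, c.2 * (-1) ^ r) :: u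

theorem mem_cut_cons {j : ℕ} {c : L} {w u : List L} : u ∈ cut j (c :: w) ↔
    ∃ r, r ≤ j ∧ r ≤ c.1 ∧ ∃ x ∈ cut (j - r) w, u = if r = c.1 then x else (c.1 - r, c.2 * (-1) ^ r) :: x := by
  rw [cut]
  simp only [List.mem_flatMap, List.mem_range, List.mem_map]
  constructor
  · rintro ⟨r, hr, x, hx, rfl⟩
    exact ⟨r, by omega, by omega, x, hx, rfl⟩
  · rintro ⟨r, h1, h2, x, hx, rfl⟩
    exact ⟨r, by omega, x, hx, rfl⟩

theorem cut_zero_self (w : List L) (hw : ∀ c ∈ w, 1 ≤ c.1) : w ∈ cut 0 w := by
  induction w with
  | nil => simp [cut]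
  | cons c w ih =>
    rw [mem_cut_cons]
    refine ⟨0, le_rfl, by omega, w, ih fun d hd => hw d (by simp [hd]), ?_⟩
    have h1 : 1 ≤ c.1 := hw c (by simp)
    rw [if_neg (by omega)]
    simp

/-- the number of the words is at most a binomial coefficient -/
theorem length_cut (w : List L) : ∀ j, (cut j w).length ≤ (wt w).choose j := by
  induction w with
  | nil =>
    intro j
    rcases j with _ | j
    · simp [cut]
    · simp [cut]
  | cons c w ih =>
    intro j
    rw [cut, List.length_flatMap, wt_cons]
    calc ((List.range (min j c.1 + 1)).map fun r => ((cut (j - r) w).map fun u =>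
            if r = c.1 then u else (c.1 - r, c.2 * (-1) ^ r) :: u).length).sum
        = ∑ r ∈ Finset.range (min j c.1 + 1), (cut (j - r) w).length := by
          simp only [List.length_map]
          rw [Finset.sum_range]
          rw [← List.sum_ofFn]
          congr 1
          rw [List.ofFn_eq_map]
          rw [← List.map_coe_finRange_eq_range, List.map_map]
          rfl
      _ ≤ ∑ r ∈ Finset.range (min j c.1 + 1), c.1.choose r * (wt w).choose (j - r) := by
          refine Finset.sum_le_sum fun r hr => ?_
          have h1 : 1 ≤ c.1.choose r := Nat.choose_pos (by rw [Finset.mem_range] at hr; omega)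
          calc (cut (j - r) w).length ≤ (wt w).choose (j - r) := ih _
            _ = 1 * (wt w).choose (j - r) := (one_mul _).symm
            _ ≤ _ := Nat.mul_le_mul_right _ h1
      _ ≤ ∑ r ∈ Finset.range (j + 1), c.1.choose r * (wt w).choose (j - r) := by
          apply Finset.sum_le_sum_of_subset
          intro r hr
          rw [Finset.mem_range] at hr ⊢
          omega
      _ = (c.1 + wt w).choose j := by
          rw [Nat.add_choose_eq, Finset.Nat.sum_antidiagonal_eq_sum_range_succ_mk]

/-- a product with the letter `(a, (-1) ^ a)` takes away `a` units -/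
theorem cut_st (a : ℕ) (ha : 1 ≤ a) (v w : List L) (hw : w ∈ st mu [(a, (-1) ^ a)] v) (hv : ∀ c ∈ v, 1 ≤ c.1) :
    ∀ (j : ℕ) (u : List L), u ∈ cut j v → u ∈ cut (j + a) w := by
  induction v generalizing w with
  | nil =>
    intro j u hu
    simp only [st, List.mem_singleton] at hw
    subst hw
    rw [mem_cut_cons]
    refine ⟨a, by omega, le_rfl, u, ?_, ?_⟩
    · rw [Nat.add_sub_cancel]
      exact hu
    · rw [if_pos rfl]
  | cons b t ih =>
    intro j u hu
    have hb : 1 ≤ b.1 := hv b (by simp)
    have ht : ∀ c ∈ t, 1 ≤ c.1 := fun c hc => hv c (by simp [hc])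
    rw [st] at hw
    simp only [List.mem_append, List.mem_map] at hw
    rcases hw with (⟨x, hx, rfl⟩ | ⟨x, hx, rfl⟩) | ⟨x, hx, rfl⟩
    · simp only [st, List.mem_singleton] at hx
      subst hx
      rw [mem_cut_cons]
      refine ⟨a, by omega, le_rfl, u, ?_, ?_⟩
      · rw [Nat.add_sub_cancel]
        exact hu
      · rw [if_pos rfl]
    · rw [mem_cut_cons] at hu ⊢
      obtain ⟨r, h1, h2, y, hy, rfl⟩ := hu
      refine ⟨r, by omega, h2, y, ?_, rfl⟩
      have h3 := ih x hx ht (j - r) y hy
      have e : j + a - r = j - r + a := by omega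
      rw [e]
      exact h3
    · simp only [st, List.mem_singleton] at hx
      subst hx
      rw [mem_cut_cons] at hu ⊢
      obtain ⟨r, h1, h2, y, hy, rfl⟩ := hu
      refine ⟨r + a, by omega, by simp only [mu]; omega, y, ?_, ?_⟩
      · have e : j + a - (r + a) = j - r := by omega
        rw [e]
        exact hy
      · have e7 : mu ((a, (-1) ^ a) : L) b = (a + b.1, (-1) ^ a * b.2) := rfl
        rw [e7]
        by_cases h : r = b.1
        · rw [if_pos h, if_pos (by simp only; omega)]
        · rw [if_neg h, if_neg (by simp only; omega)]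
          congr 1
          ext
          · simp only
            omega
          · simp only
            have h5 : (-1 : ℤˣ) ^ a * b.2 * (-1) ^ (r + a) = b.2 * (-1) ^ r := by
              rw [pow_add]
              have h6 : (-1 : ℤˣ) ^ a * (-1) ^ a = 1 := by rw [← pow_add, ← two_mul, pow_mul]; simp
              calc (-1 : ℤˣ) ^ a * b.2 * ((-1) ^ r * (-1) ^ a) = (b.2 * (-1) ^ r) * ((-1) ^ a * (-1) ^ a) := by
                    ac_rfl
                _ = _ := by rw [h6, mul_one]
            rw [h5]

/-- the words of a product with a letter -/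
theorem st_single_adm (a : ℕ) (ha : 1 ≤ a) (v : List L) (hv : Adm v) :
    ∀ w ∈ st mu [(a, (-1) ^ a)] v, Adm w ∧ wt w = a + wt v := by
  intro w hw
  have h1 : Adm [((a, (-1) ^ a) : L)] := by
    refine adm_single _ ha ?_
    intro h
    rw [Prod.mk.injEq] at h
    rw [h.1] at h
    simp at h
  refine ⟨st_adm _ v h1 hv w hw, ?_⟩
  rw [st_wt _ v w hw]
  simp [wt]

/-- iterated products -/
theorem iter (P : List ℕ) (hP : ∀ a ∈ P, 1 ≤ a) (u : List L) (hu : Adm u) :
    ∃ l : List (List L), (∀ w ∈ l, Adm w ∧ wt w = P.sum + wt u ∧ u ∈ cut P.sum w) ∧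
      (l.map val).sum = (P.map fun a => val [(a, (-1) ^ a)]).prod * val u := by
  induction P with
  | nil =>
    refine ⟨[u], ?_, by simp⟩
    intro w hw
    rw [List.mem_singleton] at hw
    subst hw
    exact ⟨hu, by simp, cut_zero_self w hu.1⟩
  | cons a P ih =>
    obtain ⟨l, h1, h2⟩ := ih fun b hb => hP b (by simp [hb])
    have ha : 1 ≤ a := hP a (by simp)
    refine ⟨l.flatMap fun w => st mu [(a, (-1) ^ a)] w, ?_, ?_⟩
    · intro w hw
      rw [List.mem_flatMap] at hw
      obtain ⟨v, hv, hw⟩ := hw
      obtain ⟨hv1, hv2, hv3⟩ := h1 v hv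
      obtain ⟨hw1, hw2⟩ := st_single_adm a ha v hv1 w hw
      refine ⟨hw1, ?_, ?_⟩
      · rw [hw2, hv2, List.sum_cons]
        ring
      · have := cut_st a ha v w hw hv1.1 _ u hv3
        rw [List.sum_cons, add_comm a]
        exact this
    · have hadm : Adm [((a, (-1) ^ a) : L)] := by
        refine adm_single _ ha ?_
        intro h
        rw [Prod.mk.injEq] at h
        rw [h.1] at h
        simp at h
      rw [List.map_cons, List.prod_cons, mul_assoc, ← h2, ← List.sum_map_mul_left]
      have key : ∀ l : List (List L), (∀ w ∈ l, Adm w) →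
          ((l.flatMap fun w => st mu [(a, (-1) ^ a)] w).map val).sum = (l.map fun w => val [(a, (-1) ^ a)] * val w).sum := by
        intro l hl
        induction l with
        | nil => simp
        | cons w l ih =>
          simp only [List.flatMap_cons, List.map_append, List.sum_append, List.map_cons, List.sum_cons]
          rw [ih fun x hx => hl x (by simp [hx]), val_mul _ w hadm (hl w (by simp))]
      rw [key l fun w hw => (h1 w hw).1]

/-! ### Many admissible words -/

/-- a family of `3 ^ n` words of weight `n + 1` -/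
def fam : ℕ → Finset (List L)
  | 0 => {[(1, -1)]}
  | (n + 1) => (fam n).image (fun s => (1, -1) :: s) ∪
      ((fam n).image (fun s => s.modifyHead fun c => (c.1 + 1, c.2)) ∪
        (fam n).image (fun s => (1, -1) :: s.modifyHead fun c => (c.1, -c.2)))

theorem fam_spec (n : ℕ) : (fam n).card = 3 ^ n ∧ ∀ s ∈ fam n, ∃ a t, s = (a, -1) :: t ∧ 1 ≤ a ∧ (∀ c ∈ t, 1 ≤ c.1) ∧
    wt s = n + 1 := by
  induction n with
  | zero =>
    refine ⟨by simp [fam], fun s hs => ?_⟩
    simp only [fam, Finset.mem_singleton] at hs
    exact ⟨1, [], hs, le_rfl, by simp, by rw [hs]; simp [wt]⟩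
  | succ n ih =>
    obtain ⟨h1, h2⟩ := ih
    constructor
    · rw [fam, Finset.card_union_of_disjoint, Finset.card_union_of_disjoint, Finset.card_image_of_injOn,
        Finset.card_image_of_injOn, Finset.card_image_of_injOn, h1]
      · ring
      · intro s hs s' hs' h
        obtain ⟨a, t, rfl, -, -, -⟩ := h2 s hs
        obtain ⟨a', t', rfl, -, -, -⟩ := h2 s' hs'
        simpa using h
      · intro s hs s' hs' h
        obtain ⟨a, t, rfl, -, -, -⟩ := h2 s hs
        obtain ⟨a', t', rfl, -, -, -⟩ := h2 s' hs'
        simpa using h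
      · intro s _ s' _ h
        simpa using h
      · rw [Finset.disjoint_left]
        intro x hx hx'
        rw [Finset.mem_image] at hx hx'
        obtain ⟨s, hs, rfl⟩ := hx
        obtain ⟨s', hs', h⟩ := hx'
        obtain ⟨a, t, rfl, ha, -, -⟩ := h2 s hs
        simp at h
        omega
      · rw [Finset.disjoint_left]
        intro x hx hx'
        rw [Finset.mem_image] at hx
        rw [Finset.mem_union, Finset.mem_image, Finset.mem_image] at hx'
        obtain ⟨s, hs, rfl⟩ := hx
        obtain ⟨a, t, rfl, ha, -, -⟩ := h2 s hs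
        rcases hx' with ⟨s', hs', h⟩ | ⟨s', hs', h⟩
        · obtain ⟨a', t', rfl, ha', -, -⟩ := h2 s' hs'
          simp at h
          omega
        · obtain ⟨a', t', rfl, ha', -, -⟩ := h2 s' hs'
          simp at h
    · intro s hs
      rw [fam, Finset.mem_union, Finset.mem_union, Finset.mem_image, Finset.mem_image, Finset.mem_image] at hs
      rcases hs with ⟨s', hs', rfl⟩ | ⟨s', hs', rfl⟩ | ⟨s', hs', rfl⟩
      · obtain ⟨a, t, rfl, ha, ht, hw⟩ := h2 s' hs'
        refine ⟨1, _, rfl, le_rfl, ?_, ?_⟩
        · intro c hc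
          rw [List.mem_cons] at hc
          rcases hc with rfl | hc
          · exact ha
          · exact ht c hc
        · rw [wt_cons, hw]
          ring
      · obtain ⟨a, t, rfl, ha, ht, hw⟩ := h2 s' hs'
        refine ⟨a + 1, t, rfl, by omega, ht, ?_⟩
        rw [wt_cons] at hw
        simp only [List.modifyHead_cons, wt_cons]
        simp only at hw
        omega
      · obtain ⟨a, t, rfl, ha, ht, hw⟩ := h2 s' hs'
        refine ⟨1, _, rfl, le_rfl, ?_, ?_⟩
        · intro c hc
          simp only [List.modifyHead_cons, List.mem_cons] at hc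
          rcases hc with rfl | hc
          · exact ha
          · exact ht c hc
        · rw [wt_cons] at hw
          simp only [List.modifyHead_cons, wt_cons]
          simp only at hw
          omega

theorem fam_adm {n : ℕ} {s : List L} (hs : s ∈ fam n) : Adm s ∧ wt s = n + 1 := by
  obtain ⟨a, t, rfl, ha, ht, hw⟩ := (fam_spec n).2 s hs
  refine ⟨⟨?_, ?_⟩, hw⟩
  · intro c hc
    rw [List.mem_cons] at hc
    rcases hc with rfl | hc
    · exact ha
    · exact ht c hc
  · intro p t' h
    rw [List.cons.injEq] at h
    rw [← h.1]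
    intro h'
    simp at h'

end Pool.Agent.H491.Alt
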