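import Mathlib
import Pool.Agent.H491.Alt3

set_option autoImplicit false

/-! # Alternating multiple zeta values outside a space of small dimension: the bound -/

namespace Pool.Agent.H491.Alt

open Filter Topology Pool.Agent.H491.Gen Pool.Agent.H491.Hit

theorem theta_notMem : (Real.log 2 / Real.pi) ^ 2 ∉ RA := by
  intro h
  rw [mem_RA] at h
  exact log_div_pi (IsAlgebraic.of_pow (by norm_num) h)

/-- the list of the exponents of the letters of the `i`-th product -/
def PP (e i : ℕ) : List ℕ := List.replicate (2 * i) 1 ++ List.replicate (e - i) 2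

theorem PP_sum (e i : ℕ) (hi : i ≤ e) : (PP e i).sum = 2 * e := by
  simp only [PP, List.sum_append, List.sum_replicate, smul_eq_mul]
  omega

theorem PP_pos (e i : ℕ) : ∀ a ∈ PP e i, 1 ≤ a := by
  intro a ha
  simp only [PP, List.mem_append, List.mem_replicate] at ha
  omega

theorem PP_val (e i : ℕ) (hi : i ≤ e) : ((PP e i).map fun a => val [(a, (-1) ^ a)]).prod =
    (((1 / 6) ^ (e - i) : ℚ) : ℝ) * Real.pi ^ (2 * e) * ((Real.log 2 / Real.pi) ^ 2) ^ i := by
  simp only [PP, List.map_append, List.map_replicate, List.prod_append, List.prod_replicate]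
  have h1 : val [((1, (-1) ^ 1) : L)] = -Real.log 2 := by
    rw [pow_one]
    exact val_log
  have h2 : val [((2, (-1) ^ 2) : L)] = Real.pi ^ 2 / 6 := by
    have : ((-1 : ℤˣ)) ^ 2 = 1 := by norm_num
    rw [this]
    exact val_two
  rw [h1, h2]
  obtain ⟨d, rfl⟩ : ∃ d, e = i + d := ⟨e - i, by omega⟩
  rw [Nat.add_sub_cancel_left]
  push_cast
  have hpi := Real.pi_ne_zero
  rw [pow_mul (-Real.log 2) 2 i, neg_sq, div_pow, div_pow (Real.log 2) Real.pi 2, div_pow _ _ i, mul_add 2, pow_add]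
  rw [pow_mul Real.pi 2 i, pow_mul Real.pi 2 d, div_pow 1 6 d, one_pow]
  field_simp

/-- the products hit every large set -/
theorem hit (e : ℕ) (E : Submodule RA ℝ) (hE : Module.rank RA E ≤ e) (u : List L) (hu : Adm u) :
    ∃ w, Adm w ∧ wt w = 2 * e + wt u ∧ val w ∉ E ∧ u ∈ cut (2 * e) w := by
  by_contra hcon
  push Not at hcon
  have hval : ∀ i : Fin (e + 1), ((PP e i).map fun a => val [(a, (-1) ^ a)]).prod * val u ∈ E := by
    intro i
    obtain ⟨l, h1, h2⟩ := iter (PP e i) (PP_pos e i) u hu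
    rw [PP_sum e i (by omega)] at h1
    rw [← h2]
    refine list_sum_mem ?_
    intro x hx
    obtain ⟨w, hw, rfl⟩ := List.mem_map.1 hx
    obtain ⟨hw1, hw2, hw3⟩ := h1 w hw
    by_contra hw4
    exact hcon w hw1 hw2 hw4 hw3
  have hlin : LinearIndependent RA (fun i : Fin (e + 1) => (⟨_, hval i⟩ : E)) := by
    rw [← LinearMap.linearIndependent_iff E.subtype (by simp)]
    have h1 := linInd_scaled theta_notMem (Real.pi ^ (2 * e) * val u)
      (mul_ne_zero (pow_ne_zero _ Real.pi_ne_zero) (val_ne_zero u hu)) (e + 1) (fun i => (1 / 6) ^ (e - (i : ℕ)))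
      (fun i => by positivity)
    have e1 : (E.subtype ∘ fun i : Fin (e + 1) => (⟨_, hval i⟩ : E)) = fun i : Fin (e + 1) =>
        (((1 / 6) ^ (e - (i : ℕ)) : ℚ) : ℝ) * (Real.pi ^ (2 * e) * val u) * ((Real.log 2 / Real.pi) ^ 2) ^ (i : ℕ) := by
      funext i
      simp only [Function.comp, Submodule.subtype_apply]
      rw [PP_val e i (by omega)]
      ring
    rw [e1]
    exact h1
  have h2 := hlin.cardinal_le_rank
  have h3 : ((e + 1 : ℕ) : Cardinal) ≤ (e : ℕ) := by
    have := h2.trans hE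
    rwa [Cardinal.mk_fin] at this
  have h4 : e + 1 ≤ e := by exact_mod_cast h3
  omega

theorem card_out (w e : ℕ) (hw : 2 * e + 1 ≤ w) (E : Submodule RA ℝ) (hE : Module.rank RA E ≤ e) (T : Finset (List L))
    (hT : ∀ u, u ∈ T ↔ Adm u ∧ wt u = w ∧ val u ∉ E) : 3 ^ (w - 2 * e - 1) ≤ w.choose (2 * e) * T.card := by
  classical
  have key : fam (w - 2 * e - 1) ⊆ T.biUnion fun x => (cut (2 * e) x).toFinset := by
    intro u hu
    obtain ⟨h1, h2⟩ := fam_adm hu
    obtain ⟨x, hx1, hx2, hx3, hx4⟩ := hit e E hE u h1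
    rw [Finset.mem_biUnion]
    exact ⟨x, (hT x).2 ⟨hx1, by omega, hx3⟩, List.mem_toFinset.2 hx4⟩
  rw [← (fam_spec (w - 2 * e - 1)).1]
  refine (Finset.card_le_card key).trans ((Finset.card_biUnion_le_card_mul _ _ (w.choose (2 * e)) ?_).trans_eq ?_)
  · intro x hx
    refine (List.toFinset_card_le _).trans ?_
    have h1 := length_cut x (2 * e)
    rwa [((hT x).1 hx).2.1] at h1
  · ring

/-- there are finitely many words of a given weight -/
theorem finite_wt (n : ℕ) : {s : List L | (∀ p ∈ s, 1 ≤ p.1) ∧ wt s ≤ n}.Finite := by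
  induction n with
  | zero =>
    refine (Set.finite_singleton ([] : List L)).subset ?_
    rintro s ⟨h1, h2⟩
    rcases s with _ | ⟨p, s⟩
    · simp
    · have := h1 p (by simp)
      rw [wt_cons] at h2
      omega
  | succ n ih =>
    have hf : (Set.Iic (n + 1) ×ˢ (Set.univ : Set ℤˣ)).Finite := (Set.finite_Iic _).prod Set.finite_univ
    refine ((Set.finite_singleton ([] : List L)).union (hf.image2 (fun p s => p :: s) ih)).subset ?_
    rintro s ⟨h1, h2⟩
    rcases s with _ | ⟨p, s⟩
    · left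
      simp
    · right
      have := h1 p (by simp)
      rw [wt_cons] at h2
      exact ⟨p, ⟨by simp only [Set.mem_Iic]; omega, Set.mem_univ _⟩, s, ⟨fun q hq => h1 q (by simp [hq]), by omega⟩, rfl⟩

theorem finite_out (w : ℕ) (E : Submodule RA ℝ) : {u : List L | Adm u ∧ wt u = w ∧ val u ∉ E}.Finite :=
  (finite_wt w).subset fun u hu => ⟨hu.1.1, hu.2.1.le⟩

end Pool.Agent.H491.Alt
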