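import Mathlib

set_option autoImplicit false

/-! # Moving letters to the front; the functions that do not depend on the place of a letter -/

namespace Pool.Agent.H491.Der

open Equiv

variable {D : ℕ}

/-- the arrangement with the letter `j` moved to the front -/
def mf (j : Fin D) (σ : Perm (Fin D)) : Perm (Fin D) := (σ.symm.trans (Fin.cycleRange (σ.symm j))).symm

theorem mf_symm (j : Fin D) (σ : Perm (Fin D)) (a : Fin D) :
    ((mf j σ).symm a : ℕ) = if a = j then 0 else if σ.symm a < σ.symm j then (σ.symm a : ℕ) + 1 else σ.symm a := by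
  have e : (mf j σ).symm a = Fin.cycleRange (σ.symm j) (σ.symm a) := rfl
  rw [e]
  split_ifs with h1 h2
  · subst h1
    rw [Fin.coe_cycleRange_of_le le_rfl, if_pos rfl]
  · rw [Fin.coe_cycleRange_of_lt h2]
  · rw [Fin.cycleRange_of_gt]
    refine lt_of_le_of_ne (not_lt.1 h2) ?_
    intro h
    exact h1 (σ.symm.injective h).symm

theorem mf_lt (l : Fin D) (σ : Perm (Fin D)) (a b : Fin D) :
    (mf l σ).symm a < (mf l σ).symm b ↔ b ≠ l ∧ (a = l ∨ σ.symm a < σ.symm b) := by
  rw [Fin.lt_def, mf_symm, mf_symm]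
  have h0 : ∀ x y : Fin D, σ.symm x < σ.symm y ↔ (σ.symm x : ℕ) < σ.symm y := fun x y => Fin.lt_def
  by_cases hb : b = l
  · subst hb
    simp
  · by_cases ha : a = l
    · subst ha
      simp only [if_true, hb, if_false, ne_eq, not_false_eq_true, true_or, and_self, iff_true]
      split_ifs with h
      · omega
      · rw [h0] at h
        have : (σ.symm b : ℕ) ≠ σ.symm a := fun h' => hb (σ.symm.injective (Fin.ext h'))
        omega
    · simp only [ha, hb, if_false, ne_eq, not_false_eq_true, false_or, true_and]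
      have h1 : (σ.symm a : ℕ) ≠ σ.symm l := fun h' => ha (σ.symm.injective (Fin.ext h'))
      have h2 : (σ.symm b : ℕ) ≠ σ.symm l := fun h' => hb (σ.symm.injective (Fin.ext h'))
      simp only [h0]
      split_ifs <;> omega

theorem eq_of_lt_iff (σ τ : Perm (Fin D)) (h : ∀ a b, σ.symm a < σ.symm b ↔ τ.symm a < τ.symm b) : σ = τ := by
  have h1 : StrictMono (σ.trans τ.symm) := by
    intro x y hxy
    have := (h (σ x) (σ y)).1 (by simpa using hxy)
    simpa using this
  have h2 : (σ.trans τ.symm : Fin D → Fin D) = id := by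
    apply (StrictMono.range_inj h1 strictMono_id).1
    rw [Set.range_id, (σ.trans τ.symm).surjective.range_eq]
  apply Equiv.ext
  intro x
  have := congrFun h2 x
  simp only [Equiv.coe_trans, Function.comp_apply, id_eq] at this
  rw [Equiv.symm_apply_eq] at this
  exact this

/-- the same order of the letters other than `j` -/
def Rel (j : Fin D) (σ τ : Perm (Fin D)) : Prop :=
  ∀ a b, a ≠ j → b ≠ j → (σ.symm a < σ.symm b ↔ τ.symm a < τ.symm b)

theorem rel_mf (j : Fin D) (σ : Perm (Fin D)) : Rel j (mf j σ) σ := by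
  intro a b ha hb
  rw [mf_lt]
  simp [ha, hb]

theorem mf_eq_of_rel (j : Fin D) (σ τ : Perm (Fin D)) (h : Rel j σ τ) : mf j σ = mf j τ := by
  apply eq_of_lt_iff
  intro a b
  rw [mf_lt, mf_lt]
  by_cases hb : b = j
  · simp [hb]
  · by_cases ha : a = j
    · simp [ha]
    · rw [h a b ha hb]

theorem rel_mf_mf (j l : Fin D) (σ τ : Perm (Fin D)) (h : Rel j σ τ) : Rel j (mf l σ) (mf l τ) := by
  intro a b ha hb
  rw [mf_lt, mf_lt, h a b ha hb]

/-- functions of arrangements -/
abbrev V (D : ℕ) := Perm (Fin D) → ℚ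

/-- the functions that do not depend on the place of `j` -/
def U (j : Fin D) : Submodule ℚ (V D) where
  carrier := {c | ∀ σ τ, Rel j σ τ → c σ = c τ}
  add_mem' := by
    intro c c' h h' σ τ hr
    simp only [Pi.add_apply]
    rw [h σ τ hr, h' σ τ hr]
  zero_mem' := fun σ τ _ => rfl
  smul_mem' := by
    intro q c h σ τ hr
    simp only [Pi.smul_apply]
    rw [h σ τ hr]

theorem mem_U (j : Fin D) (c : V D) : c ∈ U j ↔ ∀ σ τ, Rel j σ τ → c σ = c τ := Iff.rfl

/-- move `j` to the front -/
def R (j : Fin D) : V D →ₗ[ℚ] V D := LinearMap.funLeft ℚ ℚ (mf j)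

theorem R_apply (j : Fin D) (c : V D) (σ : Perm (Fin D)) : R j c σ = c (mf j σ) := rfl

theorem R_mem (j : Fin D) (c : V D) : R j c ∈ U j := by
  intro σ τ h
  rw [R_apply, R_apply, mf_eq_of_rel j σ τ h]

theorem R_eq (j : Fin D) (c : V D) (hc : c ∈ U j) : R j c = c := by
  funext σ
  rw [R_apply]
  exact hc _ _ (rel_mf j σ)

theorem R_mem' (j l : Fin D) (c : V D) (hc : c ∈ U j) : R l c ∈ U j := by
  intro σ τ h
  rw [R_apply, R_apply]
  exact hc _ _ (rel_mf_mf j l σ τ h)

/-- the product of the `1 - R j` -/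
def Th : List (Fin D) → (V D →ₗ[ℚ] V D)
  | [] => LinearMap.id
  | a :: l => Th l - (R a) ∘ₗ (Th l)

theorem Th_cons (a : Fin D) (l : List (Fin D)) (c : V D) : Th (a :: l) c = Th l c - R a (Th l c) := rfl

theorem Th_mem (j : Fin D) (l : List (Fin D)) (c : V D) (hc : c ∈ U j) : Th l c ∈ U j := by
  induction l with
  | nil => exact hc
  | cons a l ih =>
    rw [Th_cons]
    exact Submodule.sub_mem _ ih (R_mem' j a _ ih)

theorem Th_eq_zero (j : Fin D) (l : List (Fin D)) (hj : j ∈ l) (c : V D) (hc : c ∈ U j) : Th l c = 0 := by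
  induction l with
  | nil => simp at hj
  | cons a l ih =>
    rw [Th_cons]
    rcases List.mem_cons.1 hj with rfl | h
    · rw [R_eq _ _ (Th_mem j l c hc), sub_self]
    · rw [ih h, map_zero, sub_zero]

/-- the sum of the `U j` -/
def UU (l : List (Fin D)) : Submodule ℚ (V D) := ⨆ j ∈ l, U j

theorem U_le (l : List (Fin D)) (j : Fin D) (hj : j ∈ l) : U j ≤ UU l := le_iSup₂_of_le j hj le_rfl

theorem sub_Th_mem (l : List (Fin D)) (c : V D) : c - Th l c ∈ UU l := by
  induction l with
  | nil => simp [Th]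
  | cons a l ih =>
    rw [Th_cons]
    have e : c - (Th l c - R a (Th l c)) = (c - Th l c) + R a (Th l c) := by abel
    rw [e]
    refine Submodule.add_mem _ ?_ (U_le _ a (by simp) (R_mem a _))
    have : UU l ≤ UU (a :: l) := iSup₂_le fun j hj => U_le _ j (by simp [hj])
    exact this ih

theorem Th_of_mem_UU (l : List (Fin D)) (c : V D) (hc : c ∈ UU l) : Th l c = 0 := by
  have : UU l ≤ LinearMap.ker (Th l) := iSup₂_le fun j hj => fun c hc => Th_eq_zero j l hj c hc
  exact this hc

theorem Th_Th (l : List (Fin D)) (c : V D) : Th l (Th l c) = Th l c := by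
  have := Th_of_mem_UU l _ (sub_Th_mem l c)
  rw [map_sub, sub_eq_zero] at this
  exact this.symm

/-- the main decomposition of a function in the sum of the `U j` -/
theorem decomp (l : List (Fin D)) (hl : l.Nodup) (c : V D) (hc : c ≠ 0) (h : Th l c = 0) :
    ∃ (a : Fin D) (l' : List (Fin D)) (c₀ : V D), a ∈ l ∧ a ∉ l' ∧ l'.Nodup ∧ c₀ ≠ 0 ∧ c₀ ∈ U a ∧ Th l' c₀ = c₀ ∧
      c - c₀ ∈ UU l' := by
  induction l with
  | nil => exact absurd h hc
  | cons a l ih =>
    by_cases h0 : Th l c = 0
    · obtain ⟨a', l', c₀, h1, h2⟩ := ih (List.nodup_cons.1 hl).2 h0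
      exact ⟨a', l', c₀, by simp [h1], h2⟩
    · refine ⟨a, l, Th l c, by simp, (List.nodup_cons.1 hl).1, (List.nodup_cons.1 hl).2, h0, ?_, Th_Th l c, sub_Th_mem l c⟩
      rw [Th_cons, sub_eq_zero] at h
      rw [h]
      exact R_mem a _

/-- the letters before `a` -/
def Bef (σ : Perm (Fin D)) (a : Fin D) : Finset (Fin D) := Finset.univ.filter fun b => σ.symm b < σ.symm a

theorem mem_Bef (σ : Perm (Fin D)) (a b : Fin D) : b ∈ Bef σ a ↔ σ.symm b < σ.symm a := by simp [Bef]

theorem Bef_mf_self (l : Fin D) (σ : Perm (Fin D)) : Bef (mf l σ) l = ∅ := by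
  ext b
  rw [mem_Bef, mf_lt]
  simp

theorem Bef_mf (l : Fin D) (σ : Perm (Fin D)) (a : Fin D) (ha : a ≠ l) : Bef (mf l σ) a = insert l (Bef σ a) := by
  ext b
  rw [mem_Bef, mf_lt, Finset.mem_insert, mem_Bef]
  simp [ha]

theorem card_Bef (σ : Perm (Fin D)) (a : Fin D) : (Bef σ a).card = (σ.symm a : ℕ) := by
  have h : (Bef σ a).map σ.symm.toEmbedding = Finset.Iio (σ.symm a) := by
    ext x
    rw [Finset.mem_map, Finset.mem_Iio]
    constructor
    · rintro ⟨b, hb, rfl⟩
      exact (mem_Bef _ _ _).1 hb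
    · intro hx
      exact ⟨σ x, (mem_Bef _ _ _).2 (by simpa using hx), by simp⟩
  rw [← Finset.card_map, h, Fin.card_Iio]

/-- move the letters of a list to the front, one after the other -/
def gg : List (Fin D) → Perm (Fin D) → Perm (Fin D)
  | [], σ => σ
  | a :: K, σ => gg K (mf a σ)

theorem Bef_gg_notMem (K : List (Fin D)) : ∀ (σ : Perm (Fin D)) (a : Fin D) (_ : a ∉ K),
    Bef (gg K σ) a = K.toFinset ∪ Bef σ a := by
  induction K with
  | nil => intro σ a _; simp [gg]
  | cons k K ih =>
    intro σ a ha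
    simp only [List.mem_cons, not_or] at ha
    rw [gg, ih _ a ha.2, Bef_mf _ _ _ ha.1]
    ext b
    simp only [Finset.mem_union, Finset.mem_insert, List.mem_toFinset, List.mem_cons]
    tauto

theorem Bef_gg_mem (K : List (Fin D)) : ∀ (_ : K.Nodup) (σ τ : Perm (Fin D)) (a : Fin D) (_ : a ∈ K),
    Bef (gg K σ) a = Bef (gg K τ) a ∧ Bef (gg K σ) a ⊆ K.toFinset := by
  induction K with
  | nil => intro _ σ τ a ha; simp at ha
  | cons k K ih =>
    intro hK σ τ a ha
    have hk := (List.nodup_cons.1 hK).1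
    rw [gg, gg]
    by_cases haK : a ∈ K
    · obtain ⟨h1, h2⟩ := ih (List.nodup_cons.1 hK).2 (mf k σ) (mf k τ) a haK
      refine ⟨h1, h2.trans ?_⟩
      intro b hb
      rw [List.mem_toFinset] at hb ⊢
      simp [hb]
    · have hak : a = k := by
        rcases List.mem_cons.1 ha with h | h
        · exact h
        · exact absurd h haK
      subst hak
      rw [Bef_gg_notMem K _ a haK, Bef_gg_notMem K _ a haK, Bef_mf_self, Bef_mf_self]
      refine ⟨rfl, ?_⟩
      intro b hb
      simp only [Finset.mem_union, Finset.notMem_empty, or_false, List.mem_toFinset] at hb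
      rw [List.mem_toFinset]
      simp [hb]

theorem rel_gg (K : List (Fin D)) : ∀ (σ : Perm (Fin D)) (a b : Fin D) (_ : a ∉ K) (_ : b ∉ K),
    ((gg K σ).symm a < (gg K σ).symm b ↔ σ.symm a < σ.symm b) := by
  induction K with
  | nil => intro σ a b _ _; rfl
  | cons k K ih =>
    intro σ a b ha hb
    simp only [List.mem_cons, not_or] at ha hb
    rw [gg, ih _ a b ha.2 hb.2]
    exact rel_mf k σ a b ha.1 hb.1

/-- the fixed points of `gg K` -/
theorem gg_fixed (K : List (Fin D)) (hK : K.Nodup) (τ σ : Perm (Fin D)) :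
    gg K σ = σ ↔ ∀ a ∈ K, Bef σ a = Bef (gg K τ) a := by
  constructor
  · intro h a ha
    conv_lhs => rw [← h]
    exact (Bef_gg_mem K hK σ τ a ha).1
  · intro h
    apply eq_of_lt_iff
    intro a b
    by_cases hb : b ∈ K
    · rw [← mem_Bef, ← mem_Bef, h b hb, (Bef_gg_mem K hK σ τ b hb).1]
    · by_cases ha : a ∈ K
      · have h1 : a ∈ Bef (gg K σ) b := by
          rw [Bef_gg_notMem K σ b hb]
          simp [ha]
        have h2 : b ∉ Bef σ a := by
          rw [h a ha]
          intro hb'
          have := (Bef_gg_mem K hK τ τ a ha).2 hb'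
          rw [List.mem_toFinset] at this
          exact hb this
        rw [mem_Bef] at h1 h2
        have hne : σ.symm a ≠ σ.symm b := fun h' => hb (by rw [← σ.symm.injective h']; exact ha)
        constructor
        · intro _
          exact lt_of_le_of_ne (not_lt.1 h2) hne
        · intro _
          exact h1
      · exact rel_gg K σ a b ha hb

open Classical in
/-- the number of fixed points -/
theorem card_gg_fixed (K : List (Fin D)) (hK : K.Nodup) :
    ((Finset.univ : Finset (Perm (Fin D))).filter fun σ => gg K σ = σ).card =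
      ((Finset.univ : Finset (Perm (Fin D))).filter fun π => ∀ a ∈ K, π a = a).card := by
  symm
  set σ₀ : Perm (Fin D) := gg K 1 with hσ₀
  have hsub : ∀ a ∈ K, Bef σ₀ a ⊆ K.toFinset := fun a ha => (Bef_gg_mem K hK 1 1 a ha).2
  apply Finset.card_bij (fun π _ => π * σ₀)
  · intro π hπ
    rw [Finset.mem_filter] at hπ ⊢
    refine ⟨Finset.mem_univ _, (gg_fixed K hK 1 _).2 ?_⟩
    intro a ha
    have h1 : π.symm a = a := by rw [Equiv.symm_apply_eq]; exact (hπ.2 a ha).symm
    ext b
    rw [mem_Bef, ← hσ₀, mem_Bef]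
    have e : ∀ x, (π * σ₀).symm x = σ₀.symm (π.symm x) := fun x => rfl
    rw [e, e, h1]
    rw [← mem_Bef, ← mem_Bef]
    constructor
    · intro hb
      have h2 := hsub a ha hb
      rw [List.mem_toFinset] at h2
      have h3 := hπ.2 _ h2
      rw [Equiv.apply_symm_apply] at h3
      rwa [← h3] at hb
    · intro hb
      have h2 := hsub a ha hb
      rw [List.mem_toFinset] at h2
      have h3 : π.symm b = b := by rw [Equiv.symm_apply_eq]; exact (hπ.2 b h2).symm
      rwa [h3]
  · intro π _ π' _ h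
    exact mul_right_cancel h
  · intro σ hσ
    rw [Finset.mem_filter] at hσ
    have h1 := (gg_fixed K hK 1 σ).1 hσ.2
    refine ⟨σ * σ₀⁻¹, ?_, by simp⟩
    rw [Finset.mem_filter]
    refine ⟨Finset.mem_univ _, fun a ha => ?_⟩
    have h2 : σ.symm a = σ₀.symm a := by
      apply Fin.ext
      rw [← card_Bef, ← card_Bef, h1 a ha]
    have e : (σ * σ₀⁻¹) a = σ (σ₀.symm a) := rfl
    rw [e, ← h2]
    simp

/-- the composition of the operators -/
def RR : List (Fin D) → (V D →ₗ[ℚ] V D)
  | [] => LinearMap.id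
  | a :: K => (R a) ∘ₗ (RR K)

theorem RR_apply (K : List (Fin D)) : ∀ (c : V D) (σ : Perm (Fin D)), RR K c σ = c (gg K σ) := by
  induction K with
  | nil => intro c σ; rfl
  | cons a K ih =>
    intro c σ
    rw [gg, ← ih c]
    rfl

theorem RR_append (K K' : List (Fin D)) : RR (K ++ K') = (RR K) ∘ₗ (RR K') := by
  induction K with
  | nil => rfl
  | cons a K ih =>
    rw [List.cons_append, RR, ih, RR, LinearMap.comp_assoc]

open Classical in
theorem trace_RR (K : List (Fin D)) :
    LinearMap.trace ℚ (V D) (RR K) = (((Finset.univ : Finset (Perm (Fin D))).filter fun σ => gg K σ = σ).card : ℚ) := by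
  rw [LinearMap.trace_eq_matrix_trace ℚ (Pi.basisFun ℚ (Perm (Fin D)))]
  rw [Matrix.trace, Finset.card_filter]
  push_cast
  refine Finset.sum_congr rfl fun σ _ => ?_
  rw [Matrix.diag_apply, LinearMap.toMatrix_apply, Pi.basisFun_repr, Pi.basisFun_apply, RR_apply]
  rw [Pi.single_apply]

open Classical in
theorem trace_RR_Th (l : List (Fin D)) : ∀ (K : List (Fin D)) (_ : (K ++ l).Nodup),
    LinearMap.trace ℚ (V D) ((RR K) ∘ₗ (Th l)) =
      (((Finset.univ : Finset (Perm (Fin D))).filter fun π => (∀ a ∈ K, π a = a) ∧ ∀ a ∈ l, π a ≠ a).card : ℚ) := by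
  induction l with
  | nil =>
    intro K hK
    rw [List.append_nil] at hK
    have e : (RR K) ∘ₗ (Th []) = RR K := rfl
    rw [e, trace_RR, card_gg_fixed K hK]
    simp
  | cons a l ih =>
    intro K hK
    have e : (RR K) ∘ₗ (Th (a :: l)) = (RR K) ∘ₗ (Th l) - (RR (K ++ [a])) ∘ₗ (Th l) := by
      rw [RR_append]
      apply LinearMap.ext
      intro c
      rw [LinearMap.comp_apply, Th_cons, map_sub]
      rfl
    have h1 : (K ++ l).Nodup := by
      refine List.Nodup.sublist ?_ hK
      exact List.Sublist.append_left (List.sublist_cons_self a l) K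
    have h2 : (K ++ [a] ++ l).Nodup := by simpa using hK
    rw [e, map_sub, ih K h1, ih (K ++ [a]) h2, sub_eq_iff_eq_add]
    rw [← Nat.cast_add]
    congr 1
    rw [← Finset.card_union_of_disjoint]
    · congr 1
      ext π
      simp only [Finset.mem_union, Finset.mem_filter, Finset.mem_univ, true_and, List.mem_append, List.mem_cons,
        List.not_mem_nil, or_false]
      constructor
      · rintro ⟨h3, h4⟩
        by_cases h5 : π a = a
        · right
          refine ⟨?_, h4⟩
          rintro b (hb | rfl)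
          · exact h3 b hb
          · exact h5
        · left
          refine ⟨h3, ?_⟩
          rintro b (rfl | hb)
          · exact h5
          · exact h4 b hb
      · rintro (⟨h3, h4⟩ | ⟨h3, h4⟩)
        · exact ⟨h3, fun b hb => h4 b (Or.inr hb)⟩
        · exact ⟨fun b hb => h3 b (Or.inl hb), h4⟩
    · rw [Finset.disjoint_left]
      intro π h3 h4
      rw [Finset.mem_filter] at h3 h4
      exact h3.2.2 a (by simp) (h4.2.1 a (by simp))

open Classical in
/-- the dimension of the kernel of `Th l` is the number of the permutations with a fixed point in `l` -/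
theorem finrank_ker_Th (l : List (Fin D)) (hl : l.Nodup) :
    Module.finrank ℚ (LinearMap.ker (Th l)) =
      ((Finset.univ : Finset (Perm (Fin D))).filter fun π => ∃ a ∈ l, π a = a).card := by
  have h1 : LinearMap.IsProj (LinearMap.ker (Th l)) (LinearMap.id - Th l) := by
    constructor
    · intro c
      rw [LinearMap.mem_ker, LinearMap.sub_apply, LinearMap.id_apply, map_sub, Th_Th, sub_self]
    · intro c hc
      rw [LinearMap.mem_ker] at hc
      rw [LinearMap.sub_apply, LinearMap.id_apply, hc, sub_zero]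
  have h2 := h1.trace
  have h3 := trace_RR_Th l [] (by simpa using hl)
  have e : (RR []) ∘ₗ (Th l) = Th l := rfl
  rw [e] at h3
  rw [map_sub, h3] at h2
  have h4 : LinearMap.trace ℚ (V D) LinearMap.id = ((Finset.univ : Finset (Perm (Fin D))).card : ℚ) := by
    rw [LinearMap.trace_id]
    simp
  rw [h4] at h2
  have h5 := Finset.card_filter_add_card_filter_not (s := (Finset.univ : Finset (Perm (Fin D)))) (fun π => ∃ a ∈ l, π a = a)
  have h6 : ((Finset.univ : Finset (Perm (Fin D))).filter fun π => ¬ ∃ a ∈ l, π a = a) =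
      (Finset.univ : Finset (Perm (Fin D))).filter fun π => (∀ a ∈ ([] : List (Fin D)), π a = a) ∧ ∀ a ∈ l, π a ≠ a := by
    ext π
    simp
  rw [h6] at h5
  have h7 : (Module.finrank ℚ (LinearMap.ker (Th l)) : ℚ) =
      (((Finset.univ : Finset (Perm (Fin D))).filter fun π => ∃ a ∈ l, π a = a).card : ℚ) := by
    rw [← h2, ← h5]
    push_cast
    ring
  exact_mod_cast h7

/-- a function in the kernel of `Th l` that vanishes on a small set -/
theorem exists_function (l : List (Fin D)) (T : Finset (Perm (Fin D)))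
    (hT : T.card < Module.finrank ℚ (LinearMap.ker (Th l))) :
    ∃ c : V D, c ≠ 0 ∧ Th l c = 0 ∧ ∀ σ ∈ T, c σ = 0 := by
  classical
  let Φ : LinearMap.ker (Th l) →ₗ[ℚ] (T → ℚ) := (LinearMap.pi fun σ : T => LinearMap.proj (σ : Perm (Fin D))) ∘ₗ
    (LinearMap.ker (Th l)).subtype
  have h1 : LinearMap.ker Φ ≠ ⊥ := by
    apply LinearMap.ker_ne_bot_of_finrank_lt
    simpa using hT
  obtain ⟨x, hx, hx0⟩ := Submodule.exists_mem_ne_zero_of_ne_bot h1
  refine ⟨x, fun h => hx0 (Subtype.ext h), LinearMap.mem_ker.1 x.2, ?_⟩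
  intro σ hσ
  have := congrFun (LinearMap.mem_ker.1 hx) ⟨σ, hσ⟩
  exact this

end Pool.Agent.H491.Der
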