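import Mathlib
import Pool.Agent.H491.Der1
import Pool.Agent.H491.Sq3

set_option autoImplicit false

/-! # Functions of arrangements as functions on tuples of integers; sums over tuples -/

namespace Pool.Agent.H491.Der

open Equiv

variable {D : ℕ}

open Classical in
/-- the value of `c` at the order of `ν`, zero if `ν` is not injective -/
noncomputable def ct (c : V D) (ν : Fin D → ℕ) : ℝ := ∑ σ : Perm (Fin D), if StrictAnti (ν ∘ σ) then ((c σ : ℚ) : ℝ) else 0

theorem sa_lt (ν : Fin D → ℕ) (σ : Perm (Fin D)) (h : StrictAnti (ν ∘ σ)) (a b : Fin D) :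
    ν b < ν a ↔ σ.symm a < σ.symm b := by
  have := h.lt_iff_gt (a := σ.symm b) (b := σ.symm a)
  simpa using this

theorem sa_inj (ν : Fin D → ℕ) (σ : Perm (Fin D)) (h : StrictAnti (ν ∘ σ)) : Function.Injective ν := by
  intro a b hab
  have h1 := h.injective (a₁ := σ.symm a) (a₂ := σ.symm b) (by simpa using hab)
  exact σ.symm.injective h1

theorem sa_of_lt (ν : Fin D → ℕ) (σ : Perm (Fin D)) (h : ∀ a b, σ.symm a < σ.symm b → ν b < ν a) : StrictAnti (ν ∘ σ) := by
  intro x y hxy
  exact h (σ x) (σ y) (by simpa using hxy)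

theorem sa_unique (ν : Fin D → ℕ) (σ τ : Perm (Fin D)) (h : StrictAnti (ν ∘ σ)) (h' : StrictAnti (ν ∘ τ)) : σ = τ := by
  apply eq_of_lt_iff
  intro a b
  rw [← sa_lt ν σ h, ← sa_lt ν τ h']

theorem exists_sa (ν : Fin D → ℕ) (h : Function.Injective ν) : ∃ σ : Perm (Fin D), StrictAnti (ν ∘ σ) := by
  let f : Fin D → ℕᵒᵈ := fun i => OrderDual.toDual (ν i)
  refine ⟨Tuple.sort f, ?_⟩
  have h1 : Monotone (f ∘ Tuple.sort f) := Tuple.monotone_sort f
  have h2 : Function.Injective (f ∘ Tuple.sort f) := by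
    intro x y hxy
    apply (Tuple.sort f).injective
    exact h (by simpa [f] using hxy)
  have h3 : StrictMono (f ∘ Tuple.sort f) := h1.strictMono_of_injective h2
  intro x y hxy
  exact h3 hxy

theorem ct_eq (c : V D) (ν : Fin D → ℕ) (σ : Perm (Fin D)) (h : StrictAnti (ν ∘ σ)) : ct c ν = (c σ : ℝ) := by
  classical
  rw [ct, Finset.sum_eq_single σ]
  · rw [if_pos h]
  · intro τ _ hτ
    rw [if_neg]
    exact fun h' => hτ (sa_unique ν τ σ h' h)
  · intro h'
    exact absurd (Finset.mem_univ σ) h'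

theorem ct_add (c c' : V D) (ν : Fin D → ℕ) : ct (c + c') ν = ct c ν + ct c' ν := by
  classical
  rw [ct, ct, ct, ← Finset.sum_add_distrib]
  refine Finset.sum_congr rfl fun σ _ => ?_
  split_ifs
  · simp
  · simp

/-- a bound for the values -/
noncomputable def nc (c : V D) : ℝ := ∑ σ : Perm (Fin D), |((c σ : ℚ) : ℝ)|

theorem nc_nonneg (c : V D) : 0 ≤ nc c := Finset.sum_nonneg fun _ _ => abs_nonneg _

theorem ct_le (c : V D) (ν : Fin D → ℕ) : |ct c ν| ≤ nc c := by
  classical
  rw [ct, nc]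
  refine (Finset.abs_sum_le_sum_abs _ _).trans (Finset.sum_le_sum fun σ _ => ?_)
  split_ifs
  · exact le_rfl
  · simp

theorem ct_of_U (j : Fin D) (c : V D) (hc : c ∈ U j) (ν ν' : Fin D → ℕ) (h : Function.Injective ν)
    (h' : Function.Injective ν') (he : ∀ k, k ≠ j → ν k = ν' k) : ct c ν = ct c ν' := by
  obtain ⟨σ, hσ⟩ := exists_sa ν h
  obtain ⟨σ', hσ'⟩ := exists_sa ν' h'
  rw [ct_eq c ν σ hσ, ct_eq c ν' σ' hσ', hc σ σ']
  intro a b ha hb
  rw [← sa_lt ν σ hσ, ← sa_lt ν' σ' hσ', he a ha, he b hb]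

theorem ct_R (j : Fin D) (c : V D) (ν : Fin D → ℕ) (h : Function.Injective ν) (B : ℕ) (hB : ∀ k, ν k < B) :
    ct (R j c) ν = ct c (Function.update ν j B) := by
  obtain ⟨σ, hσ⟩ := exists_sa ν h
  rw [ct_eq (R j c) ν σ hσ, R_apply, ct_eq c _ (mf j σ)]
  apply sa_of_lt
  intro a b hab
  rw [mf_lt] at hab
  obtain ⟨hb, hab⟩ := hab
  rw [Function.update_of_ne hb]
  by_cases ha : a = j
  · subst ha
    rw [Function.update_self]
    exact hB b
  · rw [Function.update_of_ne ha]
    exact (sa_lt ν σ hσ a b).2 (hab.resolve_left ha)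

/-- `1 / (n + 1)` -/
noncomputable def X (n : ℕ) : ℝ := ((n : ℝ) + 1)⁻¹

theorem X_pos (n : ℕ) : 0 < X n := by unfold X; positivity

theorem X_le (n : ℕ) : X n ≤ 1 := by
  unfold X
  apply inv_le_one_of_one_le₀
  have : (0 : ℝ) ≤ n := Nat.cast_nonneg n
  linarith

theorem X_zero : X 0 = 1 := by simp [X]

theorem X_lt (m n : ℕ) (h : m < n) : X n < X m := by
  unfold X
  apply inv_strictAnti₀ (by positivity)
  have : (m : ℝ) < n := by exact_mod_cast h
  linarith

theorem X_inj : Function.Injective X := by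
  intro m n h
  rcases lt_trichotomy m n with h1 | h1 | h1
  · have := X_lt _ _ h1
    linarith
  · exact h1
  · have := X_lt _ _ h1
    linarith

theorem hasSum_X (a : ℕ) (ha : 2 ≤ a) : HasSum (fun n => X n ^ a) (Sq.z a) := by
  have := Sq.hasSum_z a ha
  have e : (fun n => X n ^ a) = fun n : ℕ => (1 : ℝ) / ((n : ℝ) + 1) ^ a := by
    funext n
    rw [X, inv_pow, one_div]
  rwa [e]

theorem summable_X (a : ℕ) (ha : 2 ≤ a) : Summable fun n => X n ^ a := (hasSum_X a ha).summable

/-- products of summable functions -/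
theorem prod_summable : ∀ (D : ℕ) (φ : Fin D → ℕ → ℝ) (_ : ∀ i, Summable fun n => ‖φ i n‖),
    (Summable fun ν : Fin D → ℕ => ‖∏ i, φ i (ν i)‖) ∧ ∑' ν : Fin D → ℕ, ∏ i, φ i (ν i) = ∏ i, ∑' n, φ i n := by
  intro D
  induction D with
  | zero =>
    intro φ _
    constructor
    · exact (hasSum_fintype _).summable
    · rw [tsum_fintype]
      simp
  | succ D ih =>
    intro φ h
    obtain ⟨h1, h2⟩ := ih (fun i => φ i.succ) (fun i => h i.succ)
    let e := Fin.consEquiv fun _ : Fin (D + 1) => ℕ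
    have he : ∀ x : ℕ × (Fin D → ℕ), (∏ i, φ i (e x i)) = φ 0 x.1 * ∏ i : Fin D, φ i.succ (x.2 i) := by
      intro x
      rw [Fin.prod_univ_succ]
      rfl
    constructor
    · rw [← e.summable_iff]
      have := Summable.mul_norm (h 0) h1
      refine this.congr fun x => ?_
      rw [Function.comp_apply, he]
    · rw [← e.tsum_eq, Fin.prod_univ_succ, ← h2, tsum_mul_tsum_of_summable_norm (h 0) h1]
      exact tsum_congr fun x => he x

/-- Fubini for one coordinate -/
theorem tsum_insertNth {d : ℕ} (i : Fin (d + 1)) (F : (Fin (d + 1) → ℕ) → ℝ) (hF : Summable F) :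
    ∑' ν, F ν = ∑' ν' : Fin d → ℕ, ∑' n : ℕ, F (i.insertNth n ν' : Fin (d + 1) → ℕ) := by
  let e : ((Fin d → ℕ) × ℕ) ≃ (Fin (d + 1) → ℕ) :=
    (Equiv.prodComm _ _).trans (Fin.insertNthEquiv (fun _ : Fin (d + 1) => ℕ) i)
  have h1 : Summable fun x => F (e x) := e.summable_iff.2 hF
  rw [← e.tsum_eq, h1.tsum_prod]
  rfl

theorem hasSum_zt (a : Fin D → ℕ) (ha : ∀ i, 2 ≤ a i) (σ : Perm (Fin D)) [DecidablePred fun ν : Fin D → ℕ => StrictAnti (ν ∘ σ)] :
    HasSum (fun ν : Fin D → ℕ => if StrictAnti (ν ∘ σ) then ∏ i, X (ν i) ^ a i else 0) (Sq.zt (a ∘ σ)) := by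
  have hs : Summable fun ν : Fin D → ℕ => ∏ i, X (ν i) ^ a i := by
    refine Summable.of_norm (prod_summable D (fun i n => X n ^ a i) fun i => ?_).1
    refine (summable_X (a i) (ha i)).congr fun n => ?_
    rw [Real.norm_of_nonneg (pow_nonneg (X_pos n).le _)]
  set S : Set (Fin D → ℕ) := {ν | StrictAnti (ν ∘ σ)} with hS
  have e1 : (fun ν : Fin D → ℕ => if StrictAnti (ν ∘ σ) then ∏ i, X (ν i) ^ a i else 0) =
      S.indicator fun ν => ∏ i, X (ν i) ^ a i := by
    funext ν
    by_cases h : StrictAnti (ν ∘ σ)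
    · rw [if_pos h, Set.indicator_of_mem (show ν ∈ S from h)]
    · rw [if_neg h, Set.indicator_of_notMem (show ν ∉ S from h)]
  rw [e1]
  have h2 : Sq.zt (a ∘ σ) = ∑' ν : S, ∏ i, X (ν.1 i) ^ a i := by
    rw [Sq.zt]
    let e : {n : Fin D → ℕ // StrictAnti n ∧ ∀ i, 1 ≤ n i} ≃ S :=
      { toFun := fun n => ⟨fun i => n.1 (σ.symm i) - 1, by
          intro x y hxy
          have h3 := n.2.1 hxy
          have h4 := n.2.2 y
          simp only [Function.comp_apply, Equiv.symm_apply_apply]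
          omega⟩
        invFun := fun ν => ⟨fun i => ν.1 (σ i) + 1, by
          constructor
          · intro x y hxy
            have h3 : ν.1 (σ y) < ν.1 (σ x) := ν.2 hxy
            simp only
            omega
          · intro i
            simp⟩
        left_inv := by
          intro n
          apply Subtype.ext
          funext i
          have h4 := n.2.2 i
          simp only [Equiv.symm_apply_apply]
          omega
        right_inv := by
          intro ν
          apply Subtype.ext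
          funext i
          simp }
    rw [← e.tsum_eq]
    refine tsum_congr fun n => ?_
    rw [← Equiv.prod_comp σ (fun i => X ((e n).1 i) ^ a i)]
    refine Finset.prod_congr rfl fun i _ => ?_
    have h4 := n.2.2 i
    have h5 : (e n).1 (σ i) = n.1 i - 1 := by simp [e]
    rw [h5, X, Function.comp_apply, ← inv_pow]
    congr 2
    rw [Nat.cast_sub h4]
    ring
  have h3 := tsum_subtype S (fun ν : Fin D → ℕ => ∏ i, X (ν i) ^ a i)
  rw [h2, h3]
  exact (hs.indicator S).hasSum

/-- the combination of the values of the orderings -/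
noncomputable def GG (c : V D) (a : Fin D → ℕ) : ℝ := ∑ σ : Perm (Fin D), ((c σ : ℚ) : ℝ) * Sq.zt (a ∘ σ)

theorem hasSum_GG (c : V D) (a : Fin D → ℕ) (ha : ∀ i, 2 ≤ a i) :
    HasSum (fun ν : Fin D → ℕ => ct c ν * ∏ i, X (ν i) ^ a i) (GG c a) := by
  classical
  have h := hasSum_sum (f := fun (σ : Perm (Fin D)) (ν : Fin D → ℕ) =>
    ((c σ : ℚ) : ℝ) * if StrictAnti (ν ∘ σ) then ∏ i, X (ν i) ^ a i else 0) (s := Finset.univ)
    (a := fun σ => ((c σ : ℚ) : ℝ) * Sq.zt (a ∘ σ)) fun σ _ => (hasSum_zt a ha σ).mul_left _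
  have e : (fun ν : Fin D → ℕ => ct c ν * ∏ i, X (ν i) ^ a i) = fun ν => ∑ σ : Perm (Fin D),
      ((c σ : ℚ) : ℝ) * if StrictAnti (ν ∘ σ) then ∏ i, X (ν i) ^ a i else 0 := by
    funext ν
    rw [ct, Finset.sum_mul]
    refine Finset.sum_congr rfl fun σ _ => ?_
    split_ifs
    · rfl
    · simp
  rw [e]
  exact h

end Pool.Agent.H491.Der
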