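import Mathlib
import Pool.Agent.H491.Der2
import Pool.Agent.H491.All3

set_option autoImplicit false

/-! # Concentrated coefficients for one letter -/

namespace Pool.Agent.H491.Der

open Filter Topology

/-- generalized Vandermonde determinants -/
theorem gvm {m : ℕ} (x : Fin m → ℝ) (hx : Function.Injective x) (hpos : ∀ i, 0 < x i) (e : Fin m → ℕ)
    (he : Function.Injective e) : (Matrix.of fun i j => x i ^ e j).det ≠ 0 := by
  classical
  intro hdet
  obtain ⟨v, hv0, hv⟩ := Matrix.exists_mulVec_eq_zero_iff.2 hdet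
  have hv' : ∀ k : Fin m, ∑ i, x k ^ e i * v i = 0 := fun k => congrFun hv k
  set Q : Polynomial ℝ := ∑ i, Polynomial.C (v i) * Polynomial.X ^ e i with hQ
  have hcoef : ∀ k, Q.coeff (e k) = v k := by
    intro k
    rw [hQ, Polynomial.finsetSum_coeff, Finset.sum_eq_single k]
    · simp
    · intro j _ hj
      rw [Polynomial.coeff_C_mul_X_pow, if_neg]
      intro h
      exact hj (he h.symm)
    · intro h
      exact absurd (Finset.mem_univ k) h
  have hQ0 : Q ≠ 0 := by
    intro h
    apply hv0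
    funext k
    rw [← hcoef k, h]
    simp
  have hQs : Q.support.card ≤ m := by
    have h1 : Q.support ⊆ Finset.univ.image e := by
      intro a ha
      rw [Finset.mem_image]
      by_contra hcon
      push Not at hcon
      rw [Polynomial.mem_support_iff] at ha
      apply ha
      rw [hQ, Polynomial.finsetSum_coeff]
      apply Finset.sum_eq_zero
      intro k _
      rw [Polynomial.coeff_C_mul_X_pow, if_neg]
      exact fun h => hcon k (Finset.mem_univ k) h.symm
    refine (Finset.card_le_card h1).trans ((Finset.card_image_le).trans ?_)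
    simp
  have h1 := Polynomial.roots_countP_pos_le_signVariations (P := Q)
  have h2 := All.signVariations_lt Q hQ0
  have h3 : m ≤ (Q.roots.filter (0 < ·)).card := by
    have h4 : (Finset.univ.image x).val ≤ Q.roots.filter (0 < ·) := by
      rw [Multiset.le_iff_subset (Finset.nodup _)]
      intro a ha
      rw [Finset.mem_val, Finset.mem_image] at ha
      obtain ⟨i, -, rfl⟩ := ha
      rw [Multiset.mem_filter, Polynomial.mem_roots hQ0]
      refine ⟨?_, hpos i⟩
      rw [Polynomial.IsRoot, hQ, Polynomial.eval_finsetSum, ← hv' i]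
      refine Finset.sum_congr rfl fun k _ => ?_
      rw [Polynomial.eval_mul, Polynomial.eval_C, Polynomial.eval_pow, Polynomial.eval_X, mul_comm]
    have h5 := Multiset.card_le_card h4
    have h6 : (Finset.univ.image x).val.card = m := by
      rw [Finset.card_val, Finset.card_image_of_injective _ hx]
      simp
    omega
  rw [Multiset.countP_eq_card_filter] at h1
  omega

/-- the coefficient function of a letter -/
noncomputable def psi {w : ℕ} (t : Fin w → ℕ) (P y : ℕ) (lam : Fin w → ℝ) (n : ℕ) : ℝ :=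
  X n ^ (2 * y + P) * ∑ k, lam k * X n ^ (2 * t k)

theorem summable_psi {w : ℕ} (t : Fin w → ℕ) (P y : ℕ) (hP : 2 ≤ P) (lam : Fin w → ℝ) :
    Summable fun n => ‖psi t P y lam n‖ := by
  have h1 : Summable fun n => (∑ k, |lam k|) * X n ^ 2 := (summable_X 2 le_rfl).mul_left _
  refine Summable.of_nonneg_of_le (fun n => norm_nonneg _) (fun n => ?_) h1
  rw [psi, norm_mul, mul_comm]
  have h2 : ‖X n ^ (2 * y + P)‖ ≤ X n ^ 2 := by
    rw [Real.norm_of_nonneg (pow_nonneg (X_pos n).le _)]
    exact pow_le_pow_of_le_one (X_pos n).le (X_le n) (by omega)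
  have h3 : ‖∑ k, lam k * X n ^ (2 * t k)‖ ≤ ∑ k, |lam k| := by
    refine (norm_sum_le _ _).trans (Finset.sum_le_sum fun k _ => ?_)
    rw [norm_mul, Real.norm_eq_abs, Real.norm_of_nonneg (pow_nonneg (X_pos n).le _)]
    have := pow_le_one₀ (n := 2 * t k) (X_pos n).le (X_le n)
    nlinarith [abs_nonneg (lam k)]
  exact mul_le_mul h3 h2 (norm_nonneg _) (Finset.sum_nonneg fun _ _ => abs_nonneg _)

/-- the limit -/
noncomputable def th {s : ℕ} (n₀ : ℕ) (g : Fin s → ℕ) (x₀ : Fin s → ℝ) (n : ℕ) : ℝ :=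
  (if n = n₀ then 1 else 0) + ∑ q, x₀ q * (if n = g q then 1 else 0)

/-- one basis function -/
theorem basis_fun {w : ℕ} (t : Fin w → ℕ) (ht : Function.Injective t) (P : ℕ) (hP : 2 ≤ P) (n' : ℕ) (hn' : n' < w) :
    ∃ (C : ℝ) (lam : ℕ → Fin w → ℝ), 0 ≤ C ∧ ∀ y,
      ∑' n, ‖psi t P y (lam y) n - (if n = n' then 1 else 0)‖ ≤ C * (((w : ℝ) / (w + 1)) ^ 2) ^ y := by
  set M : Matrix (Fin w) (Fin w) ℝ := Matrix.of fun i j => (X i) ^ (2 * t j) with hM
  have hdet : M.det ≠ 0 := gvm (fun i : Fin w => X i) (fun i j h => Fin.ext (X_inj h)) (fun i => X_pos i) (fun j => 2 * t j)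
    (fun i j h => ht (by simpa using h))
  have hMM : M * M⁻¹ = 1 := Matrix.mul_nonsing_inv M (isUnit_iff_ne_zero.2 hdet)
  let lam : ℕ → Fin w → ℝ := fun y k => (X n' ^ (2 * y + P))⁻¹ * M⁻¹ k ⟨n', hn'⟩
  set Lc : ℝ := ∑ k, |M⁻¹ k ⟨n', hn'⟩| with hLc
  have hLc0 : 0 ≤ Lc := Finset.sum_nonneg fun _ _ => abs_nonneg _
  have hw0 : 0 < w := by omega
  have hw' : (0 : ℝ) < w := by exact_mod_cast hw0
  refine ⟨Lc * (w : ℝ) ^ 2 * ∑' n, X n ^ 2, lam, ?_, ?_⟩
  · have : 0 ≤ ∑' n, X n ^ 2 := tsum_nonneg fun n => pow_nonneg (X_pos n).le _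
    positivity
  · intro y
    have hpsi : ∀ n, psi t P y (lam y) n = (X n / X n') ^ (2 * y + P) * ∑ k, M⁻¹ k ⟨n', hn'⟩ * X n ^ (2 * t k) := by
      intro n
      rw [psi, div_pow]
      simp only [lam, Finset.mul_sum]
      refine Finset.sum_congr rfl fun k _ => ?_
      have := (X_pos n').ne'
      field_simp
    have h1 : ∀ n, n < w → psi t P y (lam y) n = if n = n' then 1 else 0 := by
      intro n hn
      have h2 : ∑ k, M⁻¹ k ⟨n', hn'⟩ * X n ^ (2 * t k) = if n = n' then 1 else 0 := by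
        have h3 := congrFun (congrFun hMM ⟨n, hn⟩) ⟨n', hn'⟩
        rw [Matrix.mul_apply, Matrix.one_apply] at h3
        simp only [Fin.mk.injEq] at h3
        rw [← h3]
        refine Finset.sum_congr rfl fun k _ => ?_
        rw [hM, Matrix.of_apply, mul_comm]
      rw [hpsi, h2]
      split_ifs with h
      · rw [h, div_self (X_pos n').ne', one_pow, mul_one]
      · rw [mul_zero]
    have h2 : ∀ n, ‖psi t P y (lam y) n - (if n = n' then 1 else 0)‖ ≤
        (Lc * (w : ℝ) ^ 2 * (((w : ℝ) / (w + 1)) ^ 2) ^ y) * X n ^ 2 := by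
      intro n
      rcases lt_or_ge n w with hn | hn
      · rw [h1 n hn, sub_self, norm_zero]
        have := pow_nonneg (X_pos n).le 2
        positivity
      · rw [if_neg (by omega), sub_zero, hpsi, norm_mul]
        have h3 : ‖∑ k, M⁻¹ k ⟨n', hn'⟩ * X n ^ (2 * t k)‖ ≤ Lc := by
          refine (norm_sum_le _ _).trans (Finset.sum_le_sum fun k _ => ?_)
          rw [norm_mul, Real.norm_eq_abs, Real.norm_of_nonneg (pow_nonneg (X_pos n).le _)]
          have := pow_le_one₀ (n := 2 * t k) (X_pos n).le (X_le n)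
          nlinarith [abs_nonneg (M⁻¹ k ⟨n', hn'⟩)]
        have hXn : X n / X n' = ((n' : ℝ) + 1) / (n + 1) := by
          rw [X, X]
          field_simp
        have hn1 : (w : ℝ) ≤ n := by exact_mod_cast hn
        have hn2 : (n' : ℝ) + 1 ≤ w := by exact_mod_cast hn'
        have h4 : ‖(X n / X n') ^ (2 * y + P)‖ ≤ (w : ℝ) ^ 2 * (((w : ℝ) / (w + 1)) ^ 2) ^ y * X n ^ 2 := by
          rw [hXn, Real.norm_of_nonneg (by positivity)]
          have h5 : ((n' : ℝ) + 1) / (n + 1) ≤ (w : ℝ) / (n + 1) := by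
            apply div_le_div_of_nonneg_right hn2 (by positivity)
          have h6 : (w : ℝ) / (n + 1) ≤ (w : ℝ) / (w + 1) := by
            apply div_le_div_of_nonneg_left (by positivity) (by positivity)
            linarith
          have h7 : ((n' : ℝ) + 1) / (n + 1) ≤ 1 := by
            rw [div_le_one (by positivity)]
            linarith
          calc (((n' : ℝ) + 1) / (n + 1)) ^ (2 * y + P) ≤ (((n' : ℝ) + 1) / (n + 1)) ^ (2 * y + 2) :=
                pow_le_pow_of_le_one (by positivity) h7 (by omega)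
            _ = (((n' : ℝ) + 1) / (n + 1)) ^ (2 * y) * (((n' : ℝ) + 1) / (n + 1)) ^ 2 := by rw [pow_add]
            _ ≤ ((w : ℝ) / (w + 1)) ^ (2 * y) * ((w : ℝ) / (n + 1)) ^ 2 := by
                apply mul_le_mul
                · exact pow_le_pow_left₀ (by positivity) (h5.trans h6) _
                · exact pow_le_pow_left₀ (by positivity) h5 _
                · positivity
                · positivity
            _ = (w : ℝ) ^ 2 * (((w : ℝ) / (w + 1)) ^ 2) ^ y * X n ^ 2 := by
                rw [pow_mul, X]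
                field_simp
        calc ‖(X n / X n') ^ (2 * y + P)‖ * ‖∑ k, M⁻¹ k ⟨n', hn'⟩ * X n ^ (2 * t k)‖
            ≤ ((w : ℝ) ^ 2 * (((w : ℝ) / (w + 1)) ^ 2) ^ y * X n ^ 2) * Lc :=
              mul_le_mul h4 h3 (norm_nonneg _) (by positivity)
          _ = _ := by ring
    have h3 : Summable fun n => (Lc * (w : ℝ) ^ 2 * (((w : ℝ) / (w + 1)) ^ 2) ^ y) * X n ^ 2 := (summable_X 2 le_rfl).mul_left _
    have h4 : Summable fun n => ‖psi t P y (lam y) n - (if n = n' then 1 else 0)‖ :=
      Summable.of_nonneg_of_le (fun n => norm_nonneg _) h2 h3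
    calc _ ≤ ∑' n, (Lc * (w : ℝ) ^ 2 * (((w : ℝ) / (w + 1)) ^ 2) ^ y) * X n ^ 2 := h4.tsum_le_tsum h2 h3
      _ = _ := by
          rw [tsum_mul_left]
          ring

theorem summable_ind (n' : ℕ) : Summable fun n => ‖(if n = n' then (1 : ℝ) else 0)‖ := by
  apply summable_of_ne_finset_zero (s := {n'})
  intro n hn
  rw [Finset.mem_singleton] at hn
  rw [if_neg hn, norm_zero]

theorem moment_close {w : ℕ} (t : Fin w → ℕ) (P : ℕ) (hP : 2 ≤ P) (n' y m : ℕ) (lam : Fin w → ℝ) :
    |∑' n, psi t P y lam n * X n ^ (2 * m) - X n' ^ (2 * m)| ≤ ∑' n, ‖psi t P y lam n - (if n = n' then 1 else 0)‖ := by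
  have hs1 := summable_psi t P y hP lam
  have hs2 := summable_ind n'
  have hs3 : Summable fun n => ‖psi t P y lam n - (if n = n' then 1 else 0)‖ := (hs1.of_norm.sub hs2.of_norm).norm
  have hX : ∀ n, ‖X n ^ (2 * m)‖ ≤ 1 := fun n => by
    rw [Real.norm_of_nonneg (pow_nonneg (X_pos n).le _)]
    exact pow_le_one₀ (X_pos n).le (X_le n)
  have hs4 : Summable fun n => psi t P y lam n * X n ^ (2 * m) := by
    refine Summable.of_norm_bounded hs1 fun n => ?_
    rw [norm_mul]
    exact mul_le_of_le_one_right (norm_nonneg _) (hX n)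
  have hs5 : Summable fun n => (if n = n' then (1 : ℝ) else 0) * X n ^ (2 * m) := by
    refine Summable.of_norm_bounded hs2 fun n => ?_
    rw [norm_mul]
    exact mul_le_of_le_one_right (norm_nonneg _) (hX n)
  have h1 : ∑' n, (if n = n' then (1 : ℝ) else 0) * X n ^ (2 * m) = X n' ^ (2 * m) := by
    rw [tsum_eq_single n']
    · rw [if_pos rfl, one_mul]
    · intro n hn
      rw [if_neg hn, zero_mul]
  rw [← h1, ← hs4.tsum_sub hs5]
  have h2 : Summable fun n => ‖psi t P y lam n * X n ^ (2 * m) - (if n = n' then (1 : ℝ) else 0) * X n ^ (2 * m)‖ :=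
    (hs4.sub hs5).norm
  rw [← Real.norm_eq_abs]
  refine (norm_tsum_le_tsum_norm h2).trans ?_
  refine h2.tsum_le_tsum (fun n => ?_) hs3
  rw [← sub_mul, norm_mul]
  exact mul_le_of_le_one_right (norm_nonneg _) (hX n)

/-- **The coefficients of a letter.** -/
theorem letter {w : ℕ} (t : Fin w → ℕ) (ht : Function.Injective t) (P : ℕ) (hP : 2 ≤ P) (n₀ : ℕ) (hn₀ : n₀ < w) {s : ℕ}
    (g : Fin s → ℕ) (hg : Function.Injective g) (hgw : ∀ q, g q < w) (m : Fin s → ℕ) (hm : Function.Injective m) :
    ∃ x₀ : Fin s → ℝ, (∀ r, X n₀ ^ (2 * m r) + ∑ q, x₀ q * X (g q) ^ (2 * m r) = 0) ∧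
      ∀ ε : ℝ, 0 < ε → ∃ Y : ℕ, ∀ y : ℕ, Y ≤ y → ∃ lam : Fin w → ℝ,
        (∀ r, ∑' n, psi t P y lam n * X n ^ (2 * m r) = 0) ∧ ∑' n, ‖psi t P y lam n - th n₀ g x₀ n‖ ≤ ε := by
  classical
  obtain ⟨C₀, lam₀, hC₀, hlam₀⟩ := basis_fun t ht P hP n₀ hn₀
  choose C lam hC hlam using fun q : Fin s => basis_fun t ht P hP (g q) (hgw q)
  have hρ : Tendsto (fun y : ℕ => (((w : ℝ) / (w + 1)) ^ 2) ^ y) atTop (𝓝 0) := by
    apply tendsto_pow_atTop_nhds_zero_of_lt_one (by positivity)
    have h1 : (w : ℝ) / (w + 1) < 1 := by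
      rw [div_lt_one (by positivity)]
      linarith
    have h2 : (0 : ℝ) ≤ (w : ℝ) / (w + 1) := by positivity
    nlinarith
  set τ₀ : ℕ → ℝ := fun y => ∑' n, ‖psi t P y (lam₀ y) n - (if n = n₀ then 1 else 0)‖ with hτ₀
  set τ : Fin s → ℕ → ℝ := fun q y => ∑' n, ‖psi t P y (lam q y) n - (if n = g q then 1 else 0)‖ with hτ
  have hτ₀0 : Tendsto τ₀ atTop (𝓝 0) := by
    refine squeeze_zero (fun y => tsum_nonneg fun n => norm_nonneg _) (fun y => hlam₀ y) ?_
    have := hρ.const_mul C₀
    rwa [mul_zero] at this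
  have hτ0 : ∀ q, Tendsto (τ q) atTop (𝓝 0) := by
    intro q
    refine squeeze_zero (fun y => tsum_nonneg fun n => norm_nonneg _) (fun y => hlam q y) ?_
    have := hρ.const_mul (C q)
    rwa [mul_zero] at this
  -- the moments
  let c₀ : ℕ → Fin s → ℝ := fun y r => ∑' n, psi t P y (lam₀ y) n * X n ^ (2 * m r)
  let A : ℕ → Matrix (Fin s) (Fin s) ℝ := fun y => Matrix.of fun r q => ∑' n, psi t P y (lam q y) n * X n ^ (2 * m r)
  let c₀' : Fin s → ℝ := fun r => X n₀ ^ (2 * m r)
  let A' : Matrix (Fin s) (Fin s) ℝ := Matrix.of fun r q => X (g q) ^ (2 * m r)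
  have hc₀ : Tendsto c₀ atTop (𝓝 c₀') := by
    rw [tendsto_pi_nhds]
    intro r
    rw [tendsto_iff_norm_sub_tendsto_zero]
    exact squeeze_zero (fun y => norm_nonneg _) (fun y => moment_close t P hP n₀ y (m r) (lam₀ y)) hτ₀0
  have hA : Tendsto A atTop (𝓝 A') := by
    refine tendsto_pi_nhds.2 fun r => tendsto_pi_nhds.2 fun q => ?_
    rw [tendsto_iff_norm_sub_tendsto_zero]
    exact squeeze_zero (fun y => norm_nonneg _) (fun y => moment_close t P hP (g q) y (m r) (lam q y)) (hτ0 q)
  have hdet : A'.det ≠ 0 := by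
    have h1 := gvm (fun q : Fin s => X (g q)) (fun q q' h => hg (X_inj h)) (fun q => X_pos _) (fun r => 2 * m r)
      (fun r r' h => hm (by simpa using h))
    have e : A' = (Matrix.of fun q r : Fin s => X (g q) ^ (2 * m r)).transpose := by
      ext r q
      rfl
    rw [e, Matrix.det_transpose]
    exact h1
  have hdetA : Tendsto (fun y => (A y).det) atTop (𝓝 A'.det) := ((continuous_id.matrix_det).tendsto A').comp hA
  have hinv : Tendsto (fun y => (A y)⁻¹) atTop (𝓝 A'⁻¹) := by
    simp only [Matrix.inv_def, Ring.inverse_eq_inv']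
    exact (hdetA.inv₀ hdet).smul (((continuous_id.matrix_adjugate).tendsto A').comp hA)
  let x : ℕ → Fin s → ℝ := fun y => -((A y)⁻¹.mulVec (c₀ y))
  let x₀ : Fin s → ℝ := -(A'⁻¹.mulVec c₀')
  have hx : Tendsto x atTop (𝓝 x₀) := by
    apply Tendsto.neg
    rw [tendsto_pi_nhds]
    intro r
    simp only [Matrix.mulVec, dotProduct]
    apply tendsto_finsetSum
    intro q _
    exact ((tendsto_pi_nhds.1 ((tendsto_pi_nhds.1 hinv) r)) q).mul ((tendsto_pi_nhds.1 hc₀) q)
  refine ⟨x₀, ?_, ?_⟩
  · intro r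
    have h1 : A'.mulVec x₀ = -c₀' := by
      simp only [x₀]
      rw [Matrix.mulVec_neg, Matrix.mulVec_mulVec, Matrix.mul_nonsing_inv A' (isUnit_iff_ne_zero.2 hdet), Matrix.one_mulVec]
    have h2 := congrFun h1 r
    simp only [Matrix.mulVec, dotProduct, Pi.neg_apply, A', c₀', Matrix.of_apply] at h2
    have h3 : ∑ q, x₀ q * X (g q) ^ (2 * m r) = ∑ q, X (g q) ^ (2 * m r) * x₀ q :=
      Finset.sum_congr rfl fun q _ => mul_comm _ _
    rw [h3, h2]
    ring
  · intro ε hε
    have hev1 : ∀ᶠ y in atTop, (A y).det ≠ 0 := hdetA.eventually_ne hdet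
    have hlim : Tendsto (fun y => τ₀ y + ∑ q, (|x y q| * τ q y + |x y q - x₀ q|)) atTop (𝓝 0) := by
      have h1 : Tendsto (fun y => τ₀ y + ∑ q, (|x y q| * τ q y + |x y q - x₀ q|)) atTop
          (𝓝 (0 + ∑ q : Fin s, (|x₀ q| * 0 + |x₀ q - x₀ q|))) := by
        apply hτ₀0.add
        apply tendsto_finsetSum
        intro q _
        have h2 := (tendsto_pi_nhds.1 hx) q
        exact (h2.abs.mul (hτ0 q)).add ((h2.sub_const _).abs)
      simpa using h1
    have hev2 := hlim.eventually (gt_mem_nhds hε)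
    obtain ⟨Y, hY⟩ := (hev1.and hev2).exists_forall_of_atTop
    refine ⟨Y, fun y hy => ?_⟩
    obtain ⟨h1, h2⟩ := hY y hy
    let L : Fin w → ℝ := fun k => lam₀ y k + ∑ q, x y q * lam q y k
    have hL : ∀ n, psi t P y L n = psi t P y (lam₀ y) n + ∑ q, x y q * psi t P y (lam q y) n := by
      intro n
      simp only [psi, L, add_mul, Finset.sum_add_distrib, mul_add, Finset.sum_mul, Finset.mul_sum]
      congr 1
      rw [Finset.sum_comm]
      refine Finset.sum_congr rfl fun q _ => Finset.sum_congr rfl fun k _ => ?_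
      ring
    have hsp := fun (l : Fin w → ℝ) => summable_psi t P y hP l
    refine ⟨L, ?_, ?_⟩
    · intro r
      have hsm : ∀ l : Fin w → ℝ, Summable fun n => psi t P y l n * X n ^ (2 * m r) := by
        intro l
        refine Summable.of_norm_bounded (hsp l) fun n => ?_
        rw [norm_mul, Real.norm_of_nonneg (pow_nonneg (X_pos n).le _)]
        exact mul_le_of_le_one_right (norm_nonneg _) (pow_le_one₀ (X_pos n).le (X_le n))
      have h3 : ∑' n, psi t P y L n * X n ^ (2 * m r) = c₀ y r + ∑ q, x y q * A y r q := by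
        have e : (fun n => psi t P y L n * X n ^ (2 * m r)) = fun n => psi t P y (lam₀ y) n * X n ^ (2 * m r) +
            ∑ q, x y q * (psi t P y (lam q y) n * X n ^ (2 * m r)) := by
          funext n
          rw [hL, add_mul, Finset.sum_mul]
          congr 1
          refine Finset.sum_congr rfl fun q _ => ?_
          ring
        rw [e, (hsm _).tsum_add (summable_sum fun q _ => (hsm _).mul_left _), Summable.tsum_finsetSum fun q _ => (hsm _).mul_left _]
        simp only [tsum_mul_left]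
        rfl
      have h4 : (A y).mulVec (x y) = -(c₀ y) := by
        simp only [x]
        rw [Matrix.mulVec_neg, Matrix.mulVec_mulVec, Matrix.mul_nonsing_inv (A y) (isUnit_iff_ne_zero.2 h1), Matrix.one_mulVec]
      have h5 := congrFun h4 r
      simp only [Matrix.mulVec, dotProduct, Pi.neg_apply] at h5
      have h6 : ∑ q, x y q * A y r q = ∑ q, A y r q * x y q := Finset.sum_congr rfl fun q _ => mul_comm _ _
      rw [h3, h6, h5]
      ring
    · have hle : ∀ n, ‖psi t P y L n - th n₀ g x₀ n‖ ≤ ‖psi t P y (lam₀ y) n - (if n = n₀ then 1 else 0)‖ +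
          ∑ q, (|x y q| * ‖psi t P y (lam q y) n - (if n = g q then 1 else 0)‖ + |x y q - x₀ q| * ‖(if n = g q then (1 : ℝ) else 0)‖) := by
        intro n
        have e : psi t P y L n - th n₀ g x₀ n = (psi t P y (lam₀ y) n - (if n = n₀ then 1 else 0)) +
            ∑ q, (x y q * (psi t P y (lam q y) n - (if n = g q then 1 else 0)) + (x y q - x₀ q) * (if n = g q then (1 : ℝ) else 0)) := by
          rw [hL, th]
          have e2 : ∀ q : Fin s, x y q * (psi t P y (lam q y) n - (if n = g q then 1 else 0)) +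
              (x y q - x₀ q) * (if n = g q then (1 : ℝ) else 0) =
              x y q * psi t P y (lam q y) n - x₀ q * (if n = g q then 1 else 0) := fun q => by ring
          simp only [e2, Finset.sum_sub_distrib]
          ring
        rw [e]
        refine (norm_add_le _ _).trans (add_le_add le_rfl ((norm_sum_le _ _).trans (Finset.sum_le_sum fun q _ => ?_)))
        refine (norm_add_le _ _).trans ?_
        rw [norm_mul, norm_mul, Real.norm_eq_abs, Real.norm_eq_abs (x y q - x₀ q)]
      have hs0 : Summable fun n => ‖psi t P y (lam₀ y) n - (if n = n₀ then 1 else 0)‖ :=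
        ((hsp _).of_norm.sub (summable_ind n₀).of_norm).norm
      have hsq : ∀ q, Summable fun n => ‖psi t P y (lam q y) n - (if n = g q then 1 else 0)‖ := fun q =>
        ((hsp _).of_norm.sub (summable_ind (g q)).of_norm).norm
      have hs2 : Summable fun n => ∑ q, (|x y q| * ‖psi t P y (lam q y) n - (if n = g q then 1 else 0)‖ +
          |x y q - x₀ q| * ‖(if n = g q then (1 : ℝ) else 0)‖) :=
        summable_sum fun q _ => ((hsq q).mul_left _).add ((summable_ind (g q)).mul_left _)
      have hs3 := hs0.add hs2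
      have hs4 : Summable fun n => ‖psi t P y L n - th n₀ g x₀ n‖ :=
        Summable.of_nonneg_of_le (fun n => norm_nonneg _) hle hs3
      refine (hs4.tsum_le_tsum hle hs3).trans ?_
      rw [hs0.tsum_add hs2, Summable.tsum_finsetSum fun q _ => ((hsq q).mul_left _).add ((summable_ind (g q)).mul_left _)]
      have h7 : ∀ q : Fin s, ∑' n, (|x y q| * ‖psi t P y (lam q y) n - (if n = g q then 1 else 0)‖ +
          |x y q - x₀ q| * ‖(if n = g q then (1 : ℝ) else 0)‖) = |x y q| * τ q y + |x y q - x₀ q| := by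
        intro q
        rw [((hsq q).mul_left _).tsum_add ((summable_ind (g q)).mul_left _), tsum_mul_left, tsum_mul_left]
        congr 1
        have h8 : ∑' n, ‖(if n = g q then (1 : ℝ) else 0)‖ = 1 := by
          rw [tsum_eq_single (g q)]
          · simp
          · intro n hn
            rw [if_neg hn, norm_zero]
        rw [h8, mul_one]
      simp only [h7]
      exact h2.le

end Pool.Agent.H491.Der
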