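import Mathlib
import Pool.Agent.H491.Der3

set_option autoImplicit false

/-! # Sign sequences: sums over tuples, and concentrated coefficients -/

namespace Pool.Agent.H491.Der

open Filter Topology

variable {D : ℕ}

theorem hasSum_zt' (a : Fin D → ℕ) (ha : ∀ i, 2 ≤ a i) (S : Fin D → ℕ → ℝ) (hS : ∀ i n, |S i n| = 1)
    (σ : Equiv.Perm (Fin D)) [DecidablePred fun ν : Fin D → ℕ => StrictAnti (ν ∘ σ)] :
    HasSum (fun ν : Fin D → ℕ => if StrictAnti (ν ∘ σ) then ∏ i, (S i (ν i) * X (ν i) ^ a i) else 0)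
      (∑' n : {n : Fin D → ℕ // StrictAnti n ∧ ∀ i, 1 ≤ n i}, ∏ i, (S (σ i) (n.1 i - 1) *
        (((n.1 i : ℕ) : ℝ) ^ a (σ i))⁻¹)) := by
  have hs : Summable fun ν : Fin D → ℕ => ∏ i, (S i (ν i) * X (ν i) ^ a i) := by
    refine Summable.of_norm (prod_summable D (fun i n => S i n * X n ^ a i) fun i => ?_).1
    refine (summable_X (a i) (ha i)).congr fun n => ?_
    rw [norm_mul, Real.norm_eq_abs, hS, one_mul, Real.norm_of_nonneg (pow_nonneg (X_pos n).le _)]
  set T : Set (Fin D → ℕ) := {ν | StrictAnti (ν ∘ σ)} with hT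
  have e1 : (fun ν : Fin D → ℕ => if StrictAnti (ν ∘ σ) then ∏ i, (S i (ν i) * X (ν i) ^ a i) else 0) =
      T.indicator fun ν => ∏ i, (S i (ν i) * X (ν i) ^ a i) := by
    funext ν
    by_cases h : StrictAnti (ν ∘ σ)
    · rw [if_pos h, Set.indicator_of_mem (show ν ∈ T from h)]
    · rw [if_neg h, Set.indicator_of_notMem (show ν ∉ T from h)]
  rw [e1]
  have h2 : (∑' n : {n : Fin D → ℕ // StrictAnti n ∧ ∀ i, 1 ≤ n i}, ∏ i, (S (σ i) (n.1 i - 1) *
        (((n.1 i : ℕ) : ℝ) ^ a (σ i))⁻¹)) = ∑' ν : T, ∏ i, (S i (ν.1 i) * X (ν.1 i) ^ a i) := by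
    let e : {n : Fin D → ℕ // StrictAnti n ∧ ∀ i, 1 ≤ n i} ≃ T :=
      { toFun := fun n => ⟨fun i => n.1 (σ.symm i) - 1, by
          intro x y hxy
          have h3 := n.2.1 hxy
          have h4 := n.2.2 y
          simp only [Function.comp_apply, Equiv.symm_apply_apply]
          omega⟩
        invFun := fun ν => ⟨fun i => ν.1 (σ i) + 1, by
          constructor
          · intro x y hxy
            have h3 : ν.1 (σ y) < ν.1 (σ x) := ν.2 hxy
            simp only
            omega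
          · intro i
            simp⟩
        left_inv := by
          intro n
          apply Subtype.ext
          funext i
          have h4 := n.2.2 i
          simp only [Equiv.symm_apply_apply]
          omega
        right_inv := by
          intro ν
          apply Subtype.ext
          funext i
          simp }
    rw [← e.tsum_eq]
    refine tsum_congr fun n => ?_
    rw [← Equiv.prod_comp σ (fun i => S i ((e n).1 i) * X ((e n).1 i) ^ a i)]
    refine Finset.prod_congr rfl fun i _ => ?_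
    have h4 := n.2.2 i
    have h5 : (e n).1 (σ i) = n.1 i - 1 := by simp [e]
    rw [h5, X, ← inv_pow]
    congr 3
    rw [Nat.cast_sub h4]
    ring
  have h3 := tsum_subtype T (fun ν : Fin D → ℕ => ∏ i, (S i (ν i) * X (ν i) ^ a i))
  rw [h2, h3]
  exact (hs.indicator T).hasSum

/-- the combination of the values of the orderings -/
noncomputable def GS (S : Fin D → ℕ → ℝ) (c : V D) (a : Fin D → ℕ) : ℝ := ∑ σ : Equiv.Perm (Fin D), ((c σ : ℚ) : ℝ) *
  ∑' n : {n : Fin D → ℕ // StrictAnti n ∧ ∀ i, 1 ≤ n i}, ∏ i, (S (σ i) (n.1 i - 1) * (((n.1 i : ℕ) : ℝ) ^ a (σ i))⁻¹)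

theorem hasSum_GS (S : Fin D → ℕ → ℝ) (hS : ∀ i n, |S i n| = 1) (c : V D) (a : Fin D → ℕ) (ha : ∀ i, 2 ≤ a i) :
    HasSum (fun ν : Fin D → ℕ => ct c ν * ∏ i, (S i (ν i) * X (ν i) ^ a i)) (GS S c a) := by
  classical
  have h := hasSum_sum (f := fun (σ : Equiv.Perm (Fin D)) (ν : Fin D → ℕ) =>
    ((c σ : ℚ) : ℝ) * if StrictAnti (ν ∘ σ) then ∏ i, (S i (ν i) * X (ν i) ^ a i) else 0) (s := Finset.univ)
    (a := fun σ => ((c σ : ℚ) : ℝ) * ∑' n : {n : Fin D → ℕ // StrictAnti n ∧ ∀ i, 1 ≤ n i},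
      ∏ i, (S (σ i) (n.1 i - 1) * (((n.1 i : ℕ) : ℝ) ^ a (σ i))⁻¹)) fun σ _ => (hasSum_zt' a ha S hS σ).mul_left _
  have e : (fun ν : Fin D → ℕ => ct c ν * ∏ i, (S i (ν i) * X (ν i) ^ a i)) = fun ν => ∑ σ : Equiv.Perm (Fin D),
      ((c σ : ℚ) : ℝ) * if StrictAnti (ν ∘ σ) then ∏ i, (S i (ν i) * X (ν i) ^ a i) else 0 := by
    funext ν
    rw [ct, Finset.sum_mul]
    refine Finset.sum_congr rfl fun σ _ => ?_
    split_ifs
    · rfl
    · simp
  rw [e]
  exact h

/-- the coefficient function of a letter with signs -/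
noncomputable def psiS (S : ℕ → ℝ) {w : ℕ} (t : Fin w → ℕ) (P y : ℕ) (lam : Fin w → ℝ) (n : ℕ) : ℝ :=
  S n * psi t P y lam n

theorem norm_psiS (S : ℕ → ℝ) (hS : ∀ n, |S n| = 1) {w : ℕ} (t : Fin w → ℕ) (P y : ℕ) (lam : Fin w → ℝ) (n : ℕ) :
    ‖psiS S t P y lam n‖ = ‖psi t P y lam n‖ := by
  rw [psiS, norm_mul, Real.norm_eq_abs, hS, one_mul]

theorem summable_psiS (S : ℕ → ℝ) (hS : ∀ n, |S n| = 1) {w : ℕ} (t : Fin w → ℕ) (P y : ℕ) (hP : 2 ≤ P) (lam : Fin w → ℝ) :
    Summable fun n => ‖psiS S t P y lam n‖ := by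
  simp only [norm_psiS S hS]
  exact summable_psi t P y hP lam

theorem basis_funS (S : ℕ → ℝ) (hS : ∀ n, |S n| = 1) {w : ℕ} (t : Fin w → ℕ) (ht : Function.Injective t) (P : ℕ) (hP : 2 ≤ P)
    (n' : ℕ) (hn' : n' < w) :
    ∃ (C : ℝ) (lam : ℕ → Fin w → ℝ), 0 ≤ C ∧ ∀ y,
      ∑' n, ‖psiS S t P y (lam y) n - (if n = n' then 1 else 0)‖ ≤ C * (((w : ℝ) / (w + 1)) ^ 2) ^ y := by
  obtain ⟨C, lam, hC, h⟩ := basis_fun t ht P hP n' hn'
  refine ⟨C, fun y k => S n' * lam y k, hC, fun y => ?_⟩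
  refine le_of_eq_of_le (tsum_congr fun n => ?_) (h y)
  have e : psi t P y (fun k => S n' * lam y k) n = S n' * psi t P y (lam y) n := by
    simp only [psi, Finset.mul_sum]
    refine Finset.sum_congr rfl fun k _ => ?_
    ring
  have hsq : S n * (S n' * (if n = n' then (1 : ℝ) else 0)) = if n = n' then 1 else 0 := by
    split_ifs with h1
    · subst h1
      rw [mul_one, ← sq, ← sq_abs, hS, one_pow]
    · ring
  rw [psiS, e]
  have e2 : S n * (S n' * psi t P y (lam y) n) - (if n = n' then (1 : ℝ) else 0) =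
      S n * (S n' * (psi t P y (lam y) n - (if n = n' then (1 : ℝ) else 0))) := by
    rw [mul_sub (S n'), mul_sub (S n), hsq]
  rw [e2, norm_mul, norm_mul, Real.norm_eq_abs (S n), Real.norm_eq_abs (S n'), hS, hS, one_mul, one_mul]

theorem moment_closeS (S : ℕ → ℝ) (hS : ∀ n, |S n| = 1) {w : ℕ} (t : Fin w → ℕ) (P : ℕ) (hP : 2 ≤ P) (n' y m : ℕ) (lam : Fin w → ℝ) :
    |∑' n, psiS S t P y lam n * X n ^ (2 * m) - X n' ^ (2 * m)| ≤ ∑' n, ‖psiS S t P y lam n - (if n = n' then 1 else 0)‖ := by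
  have hs1 := summable_psiS S hS t P y hP lam
  have hs2 := summable_ind n'
  have hs3 : Summable fun n => ‖psiS S t P y lam n - (if n = n' then 1 else 0)‖ := (hs1.of_norm.sub hs2.of_norm).norm
  have hX : ∀ n, ‖X n ^ (2 * m)‖ ≤ 1 := fun n => by
    rw [Real.norm_of_nonneg (pow_nonneg (X_pos n).le _)]
    exact pow_le_one₀ (X_pos n).le (X_le n)
  have hs4 : Summable fun n => psiS S t P y lam n * X n ^ (2 * m) := by
    refine Summable.of_norm_bounded hs1 fun n => ?_
    rw [norm_mul]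
    exact mul_le_of_le_one_right (norm_nonneg _) (hX n)
  have hs5 : Summable fun n => (if n = n' then (1 : ℝ) else 0) * X n ^ (2 * m) := by
    refine Summable.of_norm_bounded hs2 fun n => ?_
    rw [norm_mul]
    exact mul_le_of_le_one_right (norm_nonneg _) (hX n)
  have h1 : ∑' n, (if n = n' then (1 : ℝ) else 0) * X n ^ (2 * m) = X n' ^ (2 * m) := by
    rw [tsum_eq_single n']
    · rw [if_pos rfl, one_mul]
    · intro n hn
      rw [if_neg hn, zero_mul]
  rw [← h1, ← hs4.tsum_sub hs5]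
  have h2 : Summable fun n => ‖psiS S t P y lam n * X n ^ (2 * m) - (if n = n' then (1 : ℝ) else 0) * X n ^ (2 * m)‖ :=
    (hs4.sub hs5).norm
  rw [← Real.norm_eq_abs]
  refine (norm_tsum_le_tsum_norm h2).trans ?_
  refine h2.tsum_le_tsum (fun n => ?_) hs3
  rw [← sub_mul, norm_mul]
  exact mul_le_of_le_one_right (norm_nonneg _) (hX n)

/-- **The coefficients of a letter.** -/
theorem letterS (S : ℕ → ℝ) (hS : ∀ n, |S n| = 1) {w : ℕ} (t : Fin w → ℕ) (ht : Function.Injective t) (P : ℕ) (hP : 2 ≤ P) (n₀ : ℕ) (hn₀ : n₀ < w) {s : ℕ}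
    (g : Fin s → ℕ) (hg : Function.Injective g) (hgw : ∀ q, g q < w) (m : Fin s → ℕ) (hm : Function.Injective m) :
    ∃ x₀ : Fin s → ℝ, (∀ r, X n₀ ^ (2 * m r) + ∑ q, x₀ q * X (g q) ^ (2 * m r) = 0) ∧
      ∀ ε : ℝ, 0 < ε → ∃ Y : ℕ, ∀ y : ℕ, Y ≤ y → ∃ lam : Fin w → ℝ,
        (∀ r, ∑' n, psiS S t P y lam n * X n ^ (2 * m r) = 0) ∧ ∑' n, ‖psiS S t P y lam n - th n₀ g x₀ n‖ ≤ ε := by
  classical
  obtain ⟨C₀, lam₀, hC₀, hlam₀⟩ := basis_funS S hS t ht P hP n₀ hn₀
  choose C lam hC hlam using fun q : Fin s => basis_funS S hS t ht P hP (g q) (hgw q)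
  have hρ : Tendsto (fun y : ℕ => (((w : ℝ) / (w + 1)) ^ 2) ^ y) atTop (𝓝 0) := by
    apply tendsto_pow_atTop_nhds_zero_of_lt_one (by positivity)
    have h1 : (w : ℝ) / (w + 1) < 1 := by
      rw [div_lt_one (by positivity)]
      linarith
    have h2 : (0 : ℝ) ≤ (w : ℝ) / (w + 1) := by positivity
    nlinarith
  set τ₀ : ℕ → ℝ := fun y => ∑' n, ‖psiS S t P y (lam₀ y) n - (if n = n₀ then 1 else 0)‖ with hτ₀
  set τ : Fin s → ℕ → ℝ := fun q y => ∑' n, ‖psiS S t P y (lam q y) n - (if n = g q then 1 else 0)‖ with hτ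
  have hτ₀0 : Tendsto τ₀ atTop (𝓝 0) := by
    refine squeeze_zero (fun y => tsum_nonneg fun n => norm_nonneg _) (fun y => hlam₀ y) ?_
    have := hρ.const_mul C₀
    rwa [mul_zero] at this
  have hτ0 : ∀ q, Tendsto (τ q) atTop (𝓝 0) := by
    intro q
    refine squeeze_zero (fun y => tsum_nonneg fun n => norm_nonneg _) (fun y => hlam q y) ?_
    have := hρ.const_mul (C q)
    rwa [mul_zero] at this
  -- the moments
  let c₀ : ℕ → Fin s → ℝ := fun y r => ∑' n, psiS S t P y (lam₀ y) n * X n ^ (2 * m r)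
  let A : ℕ → Matrix (Fin s) (Fin s) ℝ := fun y => Matrix.of fun r q => ∑' n, psiS S t P y (lam q y) n * X n ^ (2 * m r)
  let c₀' : Fin s → ℝ := fun r => X n₀ ^ (2 * m r)
  let A' : Matrix (Fin s) (Fin s) ℝ := Matrix.of fun r q => X (g q) ^ (2 * m r)
  have hc₀ : Tendsto c₀ atTop (𝓝 c₀') := by
    rw [tendsto_pi_nhds]
    intro r
    rw [tendsto_iff_norm_sub_tendsto_zero]
    exact squeeze_zero (fun y => norm_nonneg _) (fun y => moment_closeS S hS t P hP n₀ y (m r) (lam₀ y)) hτ₀0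
  have hA : Tendsto A atTop (𝓝 A') := by
    refine tendsto_pi_nhds.2 fun r => tendsto_pi_nhds.2 fun q => ?_
    rw [tendsto_iff_norm_sub_tendsto_zero]
    exact squeeze_zero (fun y => norm_nonneg _) (fun y => moment_closeS S hS t P hP (g q) y (m r) (lam q y)) (hτ0 q)
  have hdet : A'.det ≠ 0 := by
    have h1 := gvm (fun q : Fin s => X (g q)) (fun q q' h => hg (X_inj h)) (fun q => X_pos _) (fun r => 2 * m r)
      (fun r r' h => hm (by simpa using h))
    have e : A' = (Matrix.of fun q r : Fin s => X (g q) ^ (2 * m r)).transpose := by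
      ext r q
      rfl
    rw [e, Matrix.det_transpose]
    exact h1
  have hdetA : Tendsto (fun y => (A y).det) atTop (𝓝 A'.det) := ((continuous_id.matrix_det).tendsto A').comp hA
  have hinv : Tendsto (fun y => (A y)⁻¹) atTop (𝓝 A'⁻¹) := by
    simp only [Matrix.inv_def, Ring.inverse_eq_inv']
    exact (hdetA.inv₀ hdet).smul (((continuous_id.matrix_adjugate).tendsto A').comp hA)
  let x : ℕ → Fin s → ℝ := fun y => -((A y)⁻¹.mulVec (c₀ y))
  let x₀ : Fin s → ℝ := -(A'⁻¹.mulVec c₀')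
  have hx : Tendsto x atTop (𝓝 x₀) := by
    apply Tendsto.neg
    rw [tendsto_pi_nhds]
    intro r
    simp only [Matrix.mulVec, dotProduct]
    apply tendsto_finsetSum
    intro q _
    exact ((tendsto_pi_nhds.1 ((tendsto_pi_nhds.1 hinv) r)) q).mul ((tendsto_pi_nhds.1 hc₀) q)
  refine ⟨x₀, ?_, ?_⟩
  · intro r
    have h1 : A'.mulVec x₀ = -c₀' := by
      simp only [x₀]
      rw [Matrix.mulVec_neg, Matrix.mulVec_mulVec, Matrix.mul_nonsing_inv A' (isUnit_iff_ne_zero.2 hdet), Matrix.one_mulVec]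
    have h2 := congrFun h1 r
    simp only [Matrix.mulVec, dotProduct, Pi.neg_apply, A', c₀', Matrix.of_apply] at h2
    have h3 : ∑ q, x₀ q * X (g q) ^ (2 * m r) = ∑ q, X (g q) ^ (2 * m r) * x₀ q :=
      Finset.sum_congr rfl fun q _ => mul_comm _ _
    rw [h3, h2]
    ring
  · intro ε hε
    have hev1 : ∀ᶠ y in atTop, (A y).det ≠ 0 := hdetA.eventually_ne hdet
    have hlim : Tendsto (fun y => τ₀ y + ∑ q, (|x y q| * τ q y + |x y q - x₀ q|)) atTop (𝓝 0) := by
      have h1 : Tendsto (fun y => τ₀ y + ∑ q, (|x y q| * τ q y + |x y q - x₀ q|)) atTop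
          (𝓝 (0 + ∑ q : Fin s, (|x₀ q| * 0 + |x₀ q - x₀ q|))) := by
        apply hτ₀0.add
        apply tendsto_finsetSum
        intro q _
        have h2 := (tendsto_pi_nhds.1 hx) q
        exact (h2.abs.mul (hτ0 q)).add ((h2.sub_const _).abs)
      simpa using h1
    have hev2 := hlim.eventually (gt_mem_nhds hε)
    obtain ⟨Y, hY⟩ := (hev1.and hev2).exists_forall_of_atTop
    refine ⟨Y, fun y hy => ?_⟩
    obtain ⟨h1, h2⟩ := hY y hy
    let L : Fin w → ℝ := fun k => lam₀ y k + ∑ q, x y q * lam q y k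
    have hL : ∀ n, psiS S t P y L n = psiS S t P y (lam₀ y) n + ∑ q, x y q * psiS S t P y (lam q y) n := by
      intro n
      simp only [psiS, psi, L, add_mul, Finset.sum_add_distrib, mul_add, Finset.sum_mul, Finset.mul_sum]
      congr 1
      rw [Finset.sum_comm]
      refine Finset.sum_congr rfl fun q _ => Finset.sum_congr rfl fun k _ => ?_
      ring
    have hsp := fun (l : Fin w → ℝ) => summable_psiS S hS t P y hP l
    refine ⟨L, ?_, ?_⟩
    · intro r
      have hsm : ∀ l : Fin w → ℝ, Summable fun n => psiS S t P y l n * X n ^ (2 * m r) := by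
        intro l
        refine Summable.of_norm_bounded (hsp l) fun n => ?_
        rw [norm_mul, Real.norm_of_nonneg (pow_nonneg (X_pos n).le _)]
        exact mul_le_of_le_one_right (norm_nonneg _) (pow_le_one₀ (X_pos n).le (X_le n))
      have h3 : ∑' n, psiS S t P y L n * X n ^ (2 * m r) = c₀ y r + ∑ q, x y q * A y r q := by
        have e : (fun n => psiS S t P y L n * X n ^ (2 * m r)) = fun n => psiS S t P y (lam₀ y) n * X n ^ (2 * m r) +
            ∑ q, x y q * (psiS S t P y (lam q y) n * X n ^ (2 * m r)) := by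
          funext n
          rw [hL, add_mul, Finset.sum_mul]
          congr 1
          refine Finset.sum_congr rfl fun q _ => ?_
          ring
        rw [e, (hsm _).tsum_add (summable_sum fun q _ => (hsm _).mul_left _), Summable.tsum_finsetSum fun q _ => (hsm _).mul_left _]
        simp only [tsum_mul_left]
        rfl
      have h4 : (A y).mulVec (x y) = -(c₀ y) := by
        simp only [x]
        rw [Matrix.mulVec_neg, Matrix.mulVec_mulVec, Matrix.mul_nonsing_inv (A y) (isUnit_iff_ne_zero.2 h1), Matrix.one_mulVec]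
      have h5 := congrFun h4 r
      simp only [Matrix.mulVec, dotProduct, Pi.neg_apply] at h5
      have h6 : ∑ q, x y q * A y r q = ∑ q, A y r q * x y q := Finset.sum_congr rfl fun q _ => mul_comm _ _
      rw [h3, h6, h5]
      ring
    · have hle : ∀ n, ‖psiS S t P y L n - th n₀ g x₀ n‖ ≤ ‖psiS S t P y (lam₀ y) n - (if n = n₀ then 1 else 0)‖ +
          ∑ q, (|x y q| * ‖psiS S t P y (lam q y) n - (if n = g q then 1 else 0)‖ + |x y q - x₀ q| * ‖(if n = g q then (1 : ℝ) else 0)‖) := by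
        intro n
        have e : psiS S t P y L n - th n₀ g x₀ n = (psiS S t P y (lam₀ y) n - (if n = n₀ then 1 else 0)) +
            ∑ q, (x y q * (psiS S t P y (lam q y) n - (if n = g q then 1 else 0)) + (x y q - x₀ q) * (if n = g q then (1 : ℝ) else 0)) := by
          rw [hL, th]
          have e2 : ∀ q : Fin s, x y q * (psiS S t P y (lam q y) n - (if n = g q then 1 else 0)) +
              (x y q - x₀ q) * (if n = g q then (1 : ℝ) else 0) =
              x y q * psiS S t P y (lam q y) n - x₀ q * (if n = g q then 1 else 0) := fun q => by ring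
          simp only [e2, Finset.sum_sub_distrib]
          ring
        rw [e]
        refine (norm_add_le _ _).trans (add_le_add le_rfl ((norm_sum_le _ _).trans (Finset.sum_le_sum fun q _ => ?_)))
        refine (norm_add_le _ _).trans ?_
        rw [norm_mul, norm_mul, Real.norm_eq_abs, Real.norm_eq_abs (x y q - x₀ q)]
      have hs0 : Summable fun n => ‖psiS S t P y (lam₀ y) n - (if n = n₀ then 1 else 0)‖ :=
        ((hsp _).of_norm.sub (summable_ind n₀).of_norm).norm
      have hsq : ∀ q, Summable fun n => ‖psiS S t P y (lam q y) n - (if n = g q then 1 else 0)‖ := fun q =>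
        ((hsp _).of_norm.sub (summable_ind (g q)).of_norm).norm
      have hs2 : Summable fun n => ∑ q, (|x y q| * ‖psiS S t P y (lam q y) n - (if n = g q then 1 else 0)‖ +
          |x y q - x₀ q| * ‖(if n = g q then (1 : ℝ) else 0)‖) :=
        summable_sum fun q _ => ((hsq q).mul_left _).add ((summable_ind (g q)).mul_left _)
      have hs3 := hs0.add hs2
      have hs4 : Summable fun n => ‖psiS S t P y L n - th n₀ g x₀ n‖ :=
        Summable.of_nonneg_of_le (fun n => norm_nonneg _) hle hs3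
      refine (hs4.tsum_le_tsum hle hs3).trans ?_
      rw [hs0.tsum_add hs2, Summable.tsum_finsetSum fun q _ => ((hsq q).mul_left _).add ((summable_ind (g q)).mul_left _)]
      have h7 : ∀ q : Fin s, ∑' n, (|x y q| * ‖psiS S t P y (lam q y) n - (if n = g q then 1 else 0)‖ +
          |x y q - x₀ q| * ‖(if n = g q then (1 : ℝ) else 0)‖) = |x y q| * τ q y + |x y q - x₀ q| := by
        intro q
        rw [((hsq q).mul_left _).tsum_add ((summable_ind (g q)).mul_left _), tsum_mul_left, tsum_mul_left]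
        congr 1
        have h8 : ∑' n, ‖(if n = g q then (1 : ℝ) else 0)‖ = 1 := by
          rw [tsum_eq_single (g q)]
          · simp
          · intro n hn
            rw [if_neg hn, norm_zero]
        rw [h8, mul_one]
      simp only [h7]
      exact h2.le

end Pool.Agent.H491.Der
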