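import Mathlib
import Pool.Agent.H491.All3

set_option autoImplicit false

/-! # Strict total positivity: all minors of the matrix `rho (b + j)` are nonzero -/

namespace Pool.Agent.H491.All

open Polynomial

theorem stp_ne (m : ℕ) (β j : Fin m → ℕ) (hβ : Function.Injective β) (hj : Function.Injective j) (hj1 : ∀ i, 1 ≤ j i) :
    (Matrix.of fun k i : Fin m => Sq.rho (β k + j i)).det ≠ 0 := by
  classical
  intro hdet
  have hdet' : (Matrix.of fun k i : Fin m => (Sq.rho (β k + j i) : ℝ)).det = 0 := by
    have h1 := congrArg (Rat.castHom ℝ) hdet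
    rw [RingHom.map_det, map_zero] at h1
    exact h1
  obtain ⟨μ, hμ0, hμ⟩ := Matrix.exists_mulVec_eq_zero_iff.2 hdet'
  have hμ' : ∀ k : Fin m, ∑ i, (Sq.rho (β k + j i) : ℝ) * μ i = 0 := fun k => congrFun hμ k
  have hsparse : ∀ (n : ℕ) (x : Fin n → ℝ) (e : Fin n → ℕ), Function.Injective e → x ≠ 0 →
      (∑ i, C (x i) * X ^ e i : ℝ[X]) ≠ 0 ∧ (∑ i, C (x i) * X ^ e i : ℝ[X]).support.card ≤ n := by
    intro n x e he hx
    have hcoef : ∀ k, (∑ i, C (x i) * X ^ e i : ℝ[X]).coeff (e k) = x k := by
      intro k
      rw [Polynomial.finsetSum_coeff, Finset.sum_eq_single k]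
      · simp
      · intro j _ hj
        rw [Polynomial.coeff_C_mul_X_pow, if_neg]
        intro h
        exact hj (he h.symm)
      · intro h
        exact absurd (Finset.mem_univ k) h
    constructor
    · intro h
      apply hx
      funext k
      rw [← hcoef k, h]
      simp
    · have h1 : (∑ i, C (x i) * X ^ e i : ℝ[X]).support ⊆ Finset.univ.image e := by
        intro a ha
        rw [Finset.mem_image]
        by_contra hcon
        push Not at hcon
        rw [Polynomial.mem_support_iff] at ha
        apply ha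
        rw [Polynomial.finsetSum_coeff]
        apply Finset.sum_eq_zero
        intro k _
        rw [Polynomial.coeff_C_mul_X_pow, if_neg]
        exact fun h => hcon k (Finset.mem_univ k) h.symm
      refine (Finset.card_le_card h1).trans ((Finset.card_image_le).trans ?_)
      simp
  set Q : ℝ[X] := ∑ i, C (μ i) * X ^ j i with hQ
  obtain ⟨hQ0, hQs⟩ := hsparse m μ j hj hμ0
  rw [← hQ] at hQ0 hQs
  set Z := Q.roots.filter (0 < ·) with hZ
  have hZcard : Z.card < m := by
    have h1 := Polynomial.roots_countP_pos_le_signVariations (P := Q)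
    rw [Multiset.countP_eq_card_filter, ← hZ] at h1
    have h2 := signVariations_lt Q hQ0
    omega
  set q : ℝ[X] := (Z.map fun a => X - C a).prod with hq
  have hqm : q.Monic := Polynomial.monic_multiset_prod_of_monic _ _ fun a _ => Polynomial.monic_X_sub_C a
  have hqdeg : q.natDegree = Z.card := by
    rw [hq, Polynomial.natDegree_multiset_prod_X_sub_C_eq_card]
  have hqroots : q.roots = Z := by rw [hq]; exact Polynomial.roots_multiset_prod_X_sub_C Z
  obtain ⟨M, hM⟩ : q ∣ Q := by
    rw [hq]
    exact (Multiset.prod_X_sub_C_dvd_iff_le_roots hQ0 Z).2 (Multiset.filter_le _ _)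
  -- the polynomial with the exponents `β`
  let emb : Fin (Z.card + 1) → Fin m := fun i => ⟨i, by omega⟩
  have hemb : Function.Injective emb := by
    intro a b h
    simp only [emb, Fin.mk.injEq] at h
    exact Fin.ext h
  let Ψ : (Fin (Z.card + 1) → ℝ) →ₗ[ℝ] (Fin Z.card → ℝ) :=
    LinearMap.pi fun i => ∑ k : Fin (Z.card + 1), ((X ^ β (emb k) %ₘ q : ℝ[X]).coeff i) • LinearMap.proj k
  have hker : LinearMap.ker Ψ ≠ ⊥ := by
    apply LinearMap.ker_ne_bot_of_finrank_lt
    simp
  obtain ⟨ν, hν, hν0⟩ := Submodule.exists_mem_ne_zero_of_ne_bot hker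
  set N : ℝ[X] := ∑ k, C (ν k) * X ^ β (emb k) with hN
  obtain ⟨hN0, hNs⟩ := hsparse (Z.card + 1) ν (fun k => β (emb k)) (hβ.comp hemb) hν0
  rw [← hN] at hN0 hNs
  have hmod : N %ₘ q = 0 := by
    have h1 : N %ₘ q = ∑ k, C (ν k) * (X ^ β (emb k) %ₘ q) := by
      have h2 : N %ₘ q = Polynomial.modByMonicHom q N := rfl
      rw [h2, hN, map_sum]
      refine Finset.sum_congr rfl fun k _ => ?_
      rw [← smul_eq_C_mul, map_smul, smul_eq_C_mul]
      rfl
    have h3 : (N %ₘ q).degree < q.degree := Polynomial.degree_modByMonic_lt _ hqm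
    ext i
    rw [coeff_zero]
    by_cases hi : i < Z.card
    · have h4 : Ψ ν ⟨i, hi⟩ = 0 := by
        rw [LinearMap.mem_ker.1 hν]
        rfl
      rw [h1, Polynomial.finsetSum_coeff, ← h4]
      simp only [Ψ, LinearMap.pi_apply, LinearMap.sum_apply, LinearMap.smul_apply, LinearMap.proj_apply, smul_eq_mul]
      refine Finset.sum_congr rfl fun k _ => ?_
      rw [coeff_C_mul]
      ring
    · apply Polynomial.coeff_eq_zero_of_degree_lt
      refine lt_of_lt_of_le h3 ?_
      rw [Polynomial.degree_eq_natDegree hqm.ne_zero, hqdeg]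
      exact_mod_cast Nat.le_of_not_lt hi
  obtain ⟨M', hM'⟩ : q ∣ N := (Polynomial.modByMonic_eq_zero_iff_dvd hqm).1 hmod
  have hMpos : ∀ (Q' M' : ℝ[X]), Q' ≠ 0 → Q' = q * M' → (Q'.roots.filter (0 < ·)).card ≤ Z.card →
      ∀ x : ℝ, 0 < x → M'.eval x ≠ 0 := by
    intro Q' M' hQ' hM' hcard x hx hMx
    have hM'0 : M' ≠ 0 := by
      rintro rfl
      rw [mul_zero] at hM'
      exact hQ' hM'
    have h1 : Q'.roots = q.roots + M'.roots := by
      rw [hM']
      exact Polynomial.roots_mul (by rw [← hM']; exact hQ')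
    rw [h1, hqroots, Multiset.filter_add, Multiset.card_add] at hcard
    have h2 : Z.filter (0 < ·) = Z := by
      rw [hZ, Multiset.filter_filter]
      simp
    rw [h2] at hcard
    have h3 : x ∈ M'.roots.filter (0 < ·) := Multiset.mem_filter.2 ⟨(Polynomial.mem_roots hM'0).2 hMx, hx⟩
    have h4 := Multiset.card_pos_iff_exists_mem.2 ⟨x, h3⟩
    omega
  have hM1 := hMpos Q M hQ0 hM le_rfl
  have hM2 := hMpos N M' hN0 hM' (by
    have h1 := Polynomial.roots_countP_pos_le_signVariations (P := N)
    rw [Multiset.countP_eq_card_filter] at h1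
    have h2 := signVariations_lt N hN0
    omega)
  have hsum : HasSum (fun n => N.eval (theta n) * Q.eval (theta n)) 0 := by
    have h1 : ∀ k : Fin (Z.card + 1), HasSum (fun n => ν k * (theta n ^ β (emb k) * Q.eval (theta n))) 0 := by
      intro k
      have h2 : HasSum (fun n => ∑ i, theta n ^ (β (emb k) + j i) * μ i) (∑ i, (Sq.rho (β (emb k) + j i) : ℝ) * μ i) :=
        hasSum_sum fun i _ => (hasSum_theta _ (by have := hj1 i; omega)).mul_right (μ i)
      rw [hμ' (emb k)] at h2
      have h3 := h2.mul_left (ν k)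
      rw [mul_zero] at h3
      have e : (fun n => ν k * (theta n ^ β (emb k) * Q.eval (theta n))) =
          fun n => ν k * ∑ i, theta n ^ (β (emb k) + j i) * μ i := by
        funext n
        congr 1
        rw [hQ, Polynomial.eval_finsetSum, Finset.mul_sum]
        refine Finset.sum_congr rfl fun k _ => ?_
        simp only [Polynomial.eval_mul, Polynomial.eval_C, Polynomial.eval_pow, Polynomial.eval_X]
        rw [pow_add]
        ring
      rw [e]
      exact h3
    have h4 := hasSum_sum fun (k : Fin (Z.card + 1)) (_ : k ∈ Finset.univ) => h1 k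
    rw [Finset.sum_const_zero] at h4
    have e : (fun n => N.eval (theta n) * Q.eval (theta n)) =
        fun n => ∑ k : Fin (Z.card + 1), ν k * (theta n ^ β (emb k) * Q.eval (theta n)) := by
      funext n
      rw [hN, Polynomial.eval_finsetSum, Finset.sum_mul]
      refine Finset.sum_congr rfl fun k _ => ?_
      simp only [Polynomial.eval_mul, Polynomial.eval_C, Polynomial.eval_pow, Polynomial.eval_X]
      ring
    rw [e]
    exact h4
  have hsum' : HasSum (fun n => q.eval (theta n) ^ 2 * (M * M').eval (theta n)) 0 := by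
    have e : (fun n => q.eval (theta n) ^ 2 * (M * M').eval (theta n)) =
        fun n => N.eval (theta n) * Q.eval (theta n) := by
      funext n
      rw [hM, hM', Polynomial.eval_mul, Polynomial.eval_mul, Polynomial.eval_mul]
      ring
    rw [e]
    exact hsum
  have hsign : (∀ x : ℝ, 0 < x → 0 < (M * M').eval x) ∨ ∀ x : ℝ, 0 < x → (M * M').eval x < 0 := by
    by_contra hcon
    push Not at hcon
    obtain ⟨⟨x, hx, hx'⟩, y, hy, hy'⟩ := hcon
    have hc : ContinuousOn (fun t => (M * M').eval t) (Set.Ioi (0 : ℝ)) := (M * M').continuous.continuousOn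
    have := isPreconnected_Ioi.intermediate_value (Set.mem_Ioi.2 hx) (Set.mem_Ioi.2 hy) hc
    obtain ⟨t, ht, ht0⟩ := this ⟨hx', hy'⟩
    simp only [Polynomial.eval_mul, mul_eq_zero] at ht0
    rcases ht0 with h | h
    · exact hM1 t ht h
    · exact hM2 t ht h
  have hzero : ∀ n, q.eval (theta n) = 0 := by
    rcases hsign with h | h
    · have h1 := (hasSum_zero_iff_of_nonneg (fun n => by
        have := h (theta n) (theta_pos n)
        positivity)).1 hsum'
      intro n
      have h2 := congrFun h1 n
      simp only [Pi.zero_apply] at h2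
      rcases mul_eq_zero.1 h2 with h2 | h2
      · exact pow_eq_zero_iff (two_ne_zero) |>.1 h2
      · exact absurd h2 (h _ (theta_pos n)).ne'
    · have h0 := hsum'.neg
      rw [neg_zero] at h0
      have h1 := (hasSum_zero_iff_of_nonneg (fun n => by
        have h3 := h (theta n) (theta_pos n)
        have h6 : 0 ≤ q.eval (theta n) ^ 2 := by positivity
        have : 0 ≤ q.eval (theta n) ^ 2 * (-(M * M').eval (theta n)) := mul_nonneg h6 (by linarith)
        linarith)).1 h0
      intro n
      have h2 := congrFun h1 n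
      simp only [Pi.zero_apply, neg_eq_zero] at h2
      rcases mul_eq_zero.1 h2 with h2 | h2
      · exact pow_eq_zero_iff (two_ne_zero) |>.1 h2
      · exact absurd h2 (h _ (theta_pos n)).ne
  have hq0 : q = 0 := by
    apply Polynomial.eq_zero_of_infinite_isRoot
    refine Set.Infinite.mono ?_ (Set.infinite_range_of_injective theta_inj)
    rintro _ ⟨n, rfl⟩
    exact hzero n
  exact hqm.ne_zero hq0

end Pool.Agent.H491.All
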