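import Mathlib
import Pool.Agent.H491.All4
import Pool.Agent.H491.Box1

set_option autoImplicit false

/-! # The pattern lemmas with arbitrary sets of exponents -/

namespace Pool.Agent.H491.All

open Polynomial Pool.Agent.H447R2.MZ

variable {L : Subfield ℝ}

/-- `∑ c_k X ^ (s k)` -/
noncomputable def pg {w : ℕ} (s : Fin w → ℕ) (c : Fin w → ℝ) : ℝ[X] := ∑ k, C (c k) * X ^ s k

theorem Sp_pg {w : ℕ} (s : Fin w → ℕ) (c : Fin w → ℝ) (u v : List ℝ[X]) :
    Sp (u ++ pg s c :: v) = ∑ k, c k * Sp (u ++ X ^ s k :: v) := by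
  have h := SL_Sp (u.length + v.length + 1) u v rfl
  have h1 : Sp (u ++ pg s c :: v) = IsLinearMap.mk' _ h (pg s c) := rfl
  rw [h1, pg, map_sum]
  refine Finset.sum_congr rfl fun k _ => ?_
  rw [← smul_eq_C_mul, map_smul]
  rfl

theorem pg_coeff {w : ℕ} (s : Fin w → ℕ) (hs : Function.Injective s) (c : Fin w → ℝ) (k : Fin w) :
    (pg s c).coeff (s k) = c k := by
  rw [pg, Polynomial.finsetSum_coeff, Finset.sum_eq_single k]
  · simp
  · intro j _ hj
    rw [Polynomial.coeff_C_mul_X_pow, if_neg]
    intro h
    exact hj (hs h.symm)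
  · intro h
    exact absurd (Finset.mem_univ k) h

theorem exists_null' {w : ℕ} (s : Fin w → ℕ) (hs : Function.Injective s) (T : List ℝ[X]) (hT : T.length < w) :
    ∃ c : Fin w → ℝ, pg s c ≠ 0 ∧ ∀ q ∈ T, pz (pg s c * q) = 0 := by
  classical
  let Φ : (Fin w → ℝ) →ₗ[ℝ] (Fin T.length → ℝ) :=
    LinearMap.pi fun j => ∑ k : Fin w, (pz (X ^ s k * T.get j)) • LinearMap.proj k
  have h1 : LinearMap.ker Φ ≠ ⊥ := by
    apply LinearMap.ker_ne_bot_of_finrank_lt
    simpa using hT
  obtain ⟨x, hx, hx0⟩ := Submodule.exists_mem_ne_zero_of_ne_bot h1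
  refine ⟨x, ?_, ?_⟩
  · intro h
    apply hx0
    funext k
    rw [← pg_coeff s hs x k, h]
    simp
  · intro q hq
    obtain ⟨j, rfl⟩ := List.mem_iff_get.1 hq
    have h2 : Φ x j = 0 := by
      rw [LinearMap.mem_ker.1 hx]
      rfl
    rw [pg, Finset.sum_mul, map_sum, ← h2]
    simp only [Φ, LinearMap.pi_apply, LinearMap.sum_apply, LinearMap.smul_apply, LinearMap.proj_apply, smul_eq_mul]
    refine Finset.sum_congr rfl fun k _ => ?_
    rw [mul_assoc, pz_C_mul]
    ring

theorem exists_family' {w : ℕ} (t1 t2 : List ℝ[X]) (A1 A2 : ℝ[X]) (h1 : Nul t1 A1) (h2 : Nul t2 A2)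
    (hl1 : t1.length ≤ 1) (hl2 : t2.length ≤ 1) : ∀ ss : List (Fin w → ℕ), (∀ s ∈ ss, Function.Injective s) →
    4 * 2 ^ (ss.length + 1) ≤ w →
    ∃ cs : List (Fin w → ℝ), cs.length = ss.length ∧ Nul (List.zipWith pg ss cs ++ t1) A1 ∧
      Nul (List.zipWith pg ss cs ++ t2) A2 ∧ ∀ f ∈ List.zipWith pg ss cs, f ≠ 0 := by
  intro ss
  induction ss with
  | nil =>
    intro _ _
    exact ⟨[], rfl, by simpa using h1, by simpa using h2, by simp⟩
  | cons s ss ih =>
    intro hinj hw
    simp only [List.length_cons] at hw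
    have hpow : 2 ^ (ss.length + 1 + 1) = 2 * 2 ^ (ss.length + 1) := by rw [pow_succ]; ring
    obtain ⟨cs, h3, h4, h5, h6⟩ := ih (fun s hs => hinj s (by simp [hs])) (by omega)
    set l1 := List.zipWith pg ss cs ++ t1 with hl1'
    set l2 := List.zipWith pg ss cs ++ t2 with hl2'
    have hlen1 : l1.length ≤ ss.length + 1 := by
      rw [hl1', List.length_append, List.length_zipWith, h3]
      simp only [min_self]
      omega
    have hlen2 : l2.length ≤ ss.length + 1 := by
      rw [hl2', List.length_append, List.length_zipWith, h3]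
      simp only [min_self]
      omega
    let T : List ℝ[X] := (l1.sublists.map fun s => s.prod) ++ (l1.sublists.map fun s => A1 * s.prod) ++
      ((l2.sublists.map fun s => s.prod) ++ (l2.sublists.map fun s => A2 * s.prod))
    have hT : T.length < w := by
      simp only [T, List.length_append, List.length_map, List.length_sublists]
      have e1 : 2 ^ l1.length ≤ 2 ^ (ss.length + 1) := Nat.pow_le_pow_right (by norm_num) hlen1
      have e2 : 2 ^ l2.length ≤ 2 ^ (ss.length + 1) := Nat.pow_le_pow_right (by norm_num) hlen2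
      have e3 : 0 < 2 ^ (ss.length + 1) := by positivity
      omega
    obtain ⟨c, hc0, hc⟩ := exists_null' s (hinj s (by simp)) T hT
    refine ⟨c :: cs, by simp [h3], ?_, ?_, ?_⟩
    · rw [List.zipWith_cons_cons, List.cons_append]
      apply nul_cons _ _ _ h4
      intro s hs
      constructor
      · apply hc
        simp only [T, List.mem_append, List.mem_map, List.mem_sublists]
        exact Or.inl (Or.inl ⟨s, hs, rfl⟩)
      · apply hc
        simp only [T, List.mem_append, List.mem_map, List.mem_sublists]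
        exact Or.inl (Or.inr ⟨s, hs, rfl⟩)
    · rw [List.zipWith_cons_cons, List.cons_append]
      apply nul_cons _ _ _ h5
      intro s hs
      constructor
      · apply hc
        simp only [T, List.mem_append, List.mem_map, List.mem_sublists]
        exact Or.inr (Or.inl ⟨s, hs, rfl⟩)
      · apply hc
        simp only [T, List.mem_append, List.mem_map, List.mem_sublists]
        exact Or.inr (Or.inr ⟨s, hs, rfl⟩)
    · intro f hf
      rw [List.zipWith_cons_cons, List.mem_cons] at hf
      rcases hf with rfl | hf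
      · exact hc0
      · exact h6 f hf

/-- the chosen exponents -/
def exps {w : ℕ} (ss : List (Fin w → ℕ)) (ks : List (Fin w)) : List ℕ := List.zipWith (fun s k => s k) ss ks

theorem mem_support_mul {f g : ℝ[X]} {j : ℕ} (h : j ∈ (f * g).support) : ∃ a ∈ f.support, ∃ b ∈ g.support, a + b = j := by
  rw [Polynomial.mem_support_iff, Polynomial.coeff_mul] at h
  obtain ⟨x, hx, hx0⟩ := Finset.exists_ne_zero_of_sum_ne_zero h
  refine ⟨x.1, ?_, x.2, ?_, Finset.HasAntidiagonal.mem_antidiagonal.1 hx⟩
  · rw [Polynomial.mem_support_iff]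
    exact left_ne_zero_of_mul hx0
  · rw [Polynomial.mem_support_iff]
    exact right_ne_zero_of_mul hx0

theorem mem_support_pg {w : ℕ} (s : Fin w → ℕ) (c : Fin w → ℝ) (j : ℕ) (h : j ∈ (pg s c).support) : ∃ k, s k = j := by
  by_contra hcon
  push Not at hcon
  rw [Polynomial.mem_support_iff] at h
  apply h
  rw [pg, Polynomial.finsetSum_coeff]
  apply Finset.sum_eq_zero
  intro k _
  rw [Polynomial.coeff_C_mul_X_pow, if_neg]
  exact fun h => hcon k h.symm

theorem card_support_pg {w : ℕ} (s : Fin w → ℕ) (c : Fin w → ℝ) : (pg s c).support.card ≤ w := by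
  classical
  have h1 : (pg s c).support ⊆ Finset.univ.image s := by
    intro j hj
    obtain ⟨k, hk⟩ := mem_support_pg s c j hj
    exact Finset.mem_image.2 ⟨k, Finset.mem_univ k, hk⟩
  refine (Finset.card_le_card h1).trans ((Finset.card_image_le).trans ?_)
  simp

theorem card_support_mul (f g : ℝ[X]) : (f * g).support.card ≤ f.support.card * g.support.card := by
  classical
  have h1 : (f * g).support ⊆ (f.support ×ˢ g.support).image fun p => p.1 + p.2 := by
    intro j hj
    obtain ⟨a, ha, b, hb, rfl⟩ := mem_support_mul hj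
    exact Finset.mem_image.2 ⟨(a, b), Finset.mem_product.2 ⟨ha, hb⟩, rfl⟩
  refine (Finset.card_le_card h1).trans ((Finset.card_image_le).trans ?_)
  rw [Finset.card_product]

theorem prod_family' {w : ℕ} : ∀ (ss : List (Fin w → ℕ)) (cs : List (Fin w → ℝ)), cs.length = ss.length →
    (List.zipWith pg ss cs).prod.support.card ≤ w ^ ss.length ∧
    ∀ j ∈ (List.zipWith pg ss cs).prod.support, ∃ ks : List (Fin w), ks.length = ss.length ∧ (exps ss ks).sum = j := by
  intro ss
  induction ss with
  | nil =>
    intro cs h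
    constructor
    · simp only [List.zipWith_nil_left, List.prod_nil, List.length_nil, pow_zero]
      have := Polynomial.card_support_C_mul_X_pow_le_one (c := (1 : ℝ)) (n := 0)
      simpa using this
    · intro j hj
      refine ⟨[], rfl, ?_⟩
      simp only [List.zipWith_nil_left, List.prod_nil] at hj
      rw [Polynomial.mem_support_iff, Polynomial.coeff_one] at hj
      simp only [ne_eq, ite_eq_right_iff, one_ne_zero, imp_false, not_not] at hj
      rw [hj]
      simp [exps]
  | cons s ss ih =>
    intro cs h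
    rcases cs with _ | ⟨c, cs⟩
    · simp at h
    · simp only [List.length_cons, Nat.add_right_cancel_iff] at h
      obtain ⟨h1, h2⟩ := ih cs h
      rw [List.zipWith_cons_cons, List.prod_cons]
      constructor
      · refine (card_support_mul _ _).trans ?_
        rw [List.length_cons, pow_succ, mul_comm (w ^ ss.length)]
        exact Nat.mul_le_mul (card_support_pg s c) h1
      · intro j hj
        obtain ⟨a, ha, b, hb, rfl⟩ := mem_support_mul hj
        obtain ⟨k, hk⟩ := mem_support_pg s c a ha
        obtain ⟨ks, hks, hsum⟩ := h2 b hb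
        refine ⟨k :: ks, by simp [hks], ?_⟩
        simp only [exps, List.zipWith_cons_cons, List.sum_cons] at hsum ⊢
        rw [hk, hsum]

/-- the space which contains the combinations with coefficients `cs` -/
noncomputable def EG {w : ℕ} (E : Submodule L ℝ) : List (Fin w → ℝ) → Submodule L ℝ
  | [] => E
  | c :: cs => SS (EG E cs) (fun k => if h : k < w then c ⟨k, h⟩ else 0) w

theorem rank_EG {w : ℕ} (E : Submodule L ℝ) (r : ℕ) (hE : Module.rank L E ≤ r) (cs : List (Fin w → ℝ)) :
    Module.rank L (EG E cs) ≤ ((w ^ cs.length * r : ℕ) : Cardinal) := by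
  induction cs with
  | nil =>
    have e : ((w ^ ([] : List (Fin w → ℝ)).length * r : ℕ) : Cardinal) = r := by simp
    rw [e]
    exact hE
  | cons c cs ih =>
    rw [EG]
    have := rank_SS (EG E cs) (fun k => if h : k < w then c ⟨k, h⟩ else 0) _ ih w
    rw [List.length_cons, pow_succ]
    convert this using 2
    ring

theorem mem_EG {w : ℕ} (E : Submodule L ℝ) (tail : List ℕ) : ∀ (ss : List (Fin w → ℕ)) (cs : List (Fin w → ℝ))
    (pre : List ℕ), cs.length = ss.length →
    (∀ ks : List (Fin w), ks.length = ss.length →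
      Sp ((pre ++ exps ss ks ++ tail).map fun a => (X : ℝ[X]) ^ a) ∈ E) →
    Sp (pre.map (fun a => (X : ℝ[X]) ^ a) ++ List.zipWith pg ss cs ++ tail.map fun a => (X : ℝ[X]) ^ a) ∈ EG E cs := by
  intro ss
  induction ss with
  | nil =>
    intro cs pre h hE
    rcases cs with _ | ⟨c, cs⟩
    · have := hE [] rfl
      simpa [EG, exps] using this
    · simp at h
  | cons s ss ih =>
    intro cs pre h hE
    rcases cs with _ | ⟨c, cs⟩
    · simp at h
    · simp only [List.length_cons, Nat.add_right_cancel_iff] at h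
      rw [List.zipWith_cons_cons, List.append_assoc, List.cons_append, Sp_pg, EG]
      apply Submodule.sum_mem
      intro k _
      have hk : c k = (fun k => if h : k < w then c ⟨k, h⟩ else 0) (k : ℕ) := by simp
      rw [hk]
      apply mem_SS _ _ _ _ k.2
      have := ih cs (pre ++ [s k]) h ?_
      · simpa using this
      · intro ks h1
        have := hE (k :: ks) (by simp [h1])
        simpa [exps] using this

theorem final_step' (hL : Transcendental L Real.pi) (E' : Submodule L ℝ) (R : ℕ) (hE' : Module.rank L E' ≤ (R : Cardinal))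
    (m p : ℕ) (W : ℝ[X]) (hW : W ≠ 0) (hm : W.support.card ≤ m)
    (hpar : ∀ j ∈ W.support, Even (j + p) ∧ 2 ≤ j + p) (B : Finset ℕ)
    (hB : ∀ β ∈ B, pz (X ^ (2 * β + p) * W) ∈ E') : B.card < R + m := by
  classical
  set m₀ := W.support.card with hm₀
  let e : Fin m₀ → ℕ := W.support.orderEmbOfFin rfl
  have he : ∀ i, e i ∈ W.support := fun i => Finset.orderEmbOfFin_mem _ _ i
  have heinj : Function.Injective e := (W.support.orderEmbOfFin rfl).injective
  have hesum : ∀ φ : ℕ → ℝ, ∑ j ∈ W.support, φ j = ∑ i, φ (e i) := by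
    intro φ
    conv_lhs => rw [← Finset.map_orderEmbOfFin_univ W.support rfl]
    rw [Finset.sum_map]
    rfl
  have hhalf : ∀ i, 2 * ((e i + p) / 2) = e i + p := by
    intro i
    obtain ⟨y, hy⟩ := (hpar _ (he i)).1
    omega
  have hval : ∀ β : ℕ, pz (X ^ (2 * β + p) * W) =
      (Real.pi ^ 2) ^ β * ∑ i : Fin m₀, (Sq.rho (β + (e i + p) / 2) : ℝ) * (W.coeff (e i) * (Real.pi ^ 2) ^ ((e i + p) / 2)) := by
    intro β
    have h2 : pz (X ^ (2 * β + p) * W) = ∑ j ∈ W.support, W.coeff j * Sq.z (2 * β + p + j) := by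
      conv_lhs => rw [W.as_sum_support_C_mul_X_pow]
      rw [Finset.mul_sum, map_sum]
      refine Finset.sum_congr rfl fun j _ => ?_
      have : X ^ (2 * β + p) * (C (W.coeff j) * X ^ j) = C (W.coeff j) * X ^ (2 * β + p + j) := by
        rw [pow_add]
        ring
      rw [this, pz_C_mul_X_pow]
    rw [h2, hesum, Finset.mul_sum]
    refine Finset.sum_congr rfl fun i _ => ?_
    have h3 : 2 * β + p + e i = 2 * (β + (e i + p) / 2) := by
      have := hhalf i
      omega
    have h4 := (hpar _ (he i)).2
    rw [h3, Sq.z_even _ (by omega), pow_add]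
    ring
  have hlt := Sq.linear_lemma (Real.pi ^ 2) (Sq.transcendental_sq hL) E' R hE' m₀
    (fun i => W.coeff (e i) * (Real.pi ^ 2) ^ ((e i + p) / 2)) ?_ (fun b i => Sq.rho (b + (e i + p) / 2)) B ?_ ?_
  · omega
  · intro h
    have hpos : 0 < m₀ := by
      rw [hm₀, Finset.card_pos]
      exact Polynomial.nonempty_support_iff.2 hW
    have := congrFun h ⟨0, hpos⟩
    simp only [Pi.zero_apply, mul_eq_zero] at this
    rcases this with h2 | h2
    · exact (Polynomial.mem_support_iff.1 (he _)) h2
    · exact absurd h2 (by positivity)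
  · intro β hβ _
    refine stp_ne m₀ β (fun i => (e i + p) / 2) hβ ?_ ?_
    · intro i i' h
      apply heinj
      have h1 := hhalf i
      have h2 := hhalf i'
      simp only at h
      omega
    · intro i
      have := (hpar _ (he i)).2
      omega
  · intro b hb
    have := hB b hb
    rw [hval] at this
    exact this

end Pool.Agent.H491.All
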