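import Mathlib
import Pool.Agent.H491.Der3
import Pool.Agent.H491.Box2

set_option autoImplicit false

/-! # The final step for alternating zeta values -/

namespace Pool.Agent.H491.Der

open Filter Topology Polynomial

/-- `∑ ς n / (n + 1) ^ k` -/
noncomputable def zs (ς : ℕ → ℝ) (k : ℕ) : ℝ := ∑' n, ς n * X n ^ k

/-- the linear extension -/
noncomputable def pzs (ς : ℕ → ℝ) : ℝ[X] →ₗ[ℝ] ℝ :=
  Polynomial.lsum fun k => (LinearMap.id : ℝ →ₗ[ℝ] ℝ).smulRight (zs ς k)

theorem pzs_C_mul_X_pow (ς : ℕ → ℝ) (c : ℝ) (k : ℕ) : pzs ς (C c * Polynomial.X ^ k) = c * zs ς k := by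
  rw [pzs, C_mul_X_pow_eq_monomial]
  simp [Polynomial.lsum_apply, Polynomial.sum_monomial_index]

theorem pzs_mul (ς : ℕ → ℝ) (k : ℕ) (W : ℝ[X]) :
    pzs ς (Polynomial.X ^ k * W) = ∑ j ∈ W.support, W.coeff j * zs ς (k + j) := by
  conv_lhs => rw [W.as_sum_support_C_mul_X_pow]
  rw [Finset.mul_sum, map_sum]
  refine Finset.sum_congr rfl fun j _ => ?_
  have : (Polynomial.X : ℝ[X]) ^ k * (C (W.coeff j) * Polynomial.X ^ j) = C (W.coeff j) * Polynomial.X ^ (k + j) := by
    rw [pow_add]
    ring
  rw [this, pzs_C_mul_X_pow]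

/-- the final step -/
def FS (ς : ℕ → ℝ) : Prop := ∀ K J : ℕ, ∃ Y : ℕ, ∀ P : ℕ, Y ≤ P → Even P → ∀ (L : Subfield ℝ), Transcendental L Real.pi →
  ∀ (E' : Submodule L ℝ) (R : ℕ), Module.rank L E' ≤ (R : Cardinal) → ∀ W : ℝ[X], W ≠ 0 →
  (∀ j ∈ W.support, Even j ∧ j ≤ J) → ∀ B : Finset ℕ, (∀ β ∈ B, β < K) →
  (∀ β ∈ B, pzs ς (Polynomial.X ^ (2 * β + P) * W) ∈ E') → B.card < R + W.support.card

theorem zs_one (k : ℕ) (hk : 2 ≤ k) : zs (fun _ => 1) k = Sq.z k := by
  rw [zs, ← (hasSum_X k hk).tsum_eq]
  refine tsum_congr fun n => ?_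
  rw [one_mul]

theorem FS_one : FS fun _ => 1 := by
  intro K J
  refine ⟨2, fun P hP hPe L hL E' R hR W hW hWs B _ hB => ?_⟩
  apply All.final_step' hL E' R hR W.support.card P W hW le_rfl
  · intro j hj
    exact ⟨(hWs j hj).1.add hPe, by omega⟩
  · intro β hβ
    have h1 := hB β hβ
    rw [pzs_mul] at h1
    have h2 : All.pz (Polynomial.X ^ (2 * β + P) * W) = ∑ j ∈ W.support, W.coeff j * Sq.z (2 * β + P + j) := by
      conv_lhs => rw [W.as_sum_support_C_mul_X_pow]
      rw [Finset.mul_sum, map_sum]
      refine Finset.sum_congr rfl fun j _ => ?_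
      have : (Polynomial.X : ℝ[X]) ^ (2 * β + P) * (C (W.coeff j) * Polynomial.X ^ j) =
          C (W.coeff j) * Polynomial.X ^ (2 * β + P + j) := by
        rw [pow_add]
        ring
      rw [this, All.pz_C_mul_X_pow]
    rw [h2]
    have h3 : ∑ j ∈ W.support, W.coeff j * zs (fun _ => 1) (2 * β + P + j) =
        ∑ j ∈ W.support, W.coeff j * Sq.z (2 * β + P + j) := by
      refine Finset.sum_congr rfl fun j _ => ?_
      rw [zs_one _ (by omega)]
    rw [← h3]
    exact h1

/-- the alternating signs -/
noncomputable def al (n : ℕ) : ℝ := (-1 : ℝ) ^ (n + 1)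

theorem abs_al (n : ℕ) : |al n| = 1 := by
  rw [al, abs_pow, abs_neg, abs_one, one_pow]

theorem zs_al (k : ℕ) (hk : 2 ≤ k) : zs al k = (2 * ((2 : ℝ) ^ k)⁻¹ - 1) * Sq.z k := by
  have h0 := hasSum_X k hk
  have hodd : HasSum (fun n => X (2 * n + 1) ^ k) (((2 : ℝ) ^ k)⁻¹ * Sq.z k) := by
    have h1 := h0.mul_left (((2 : ℝ) ^ k)⁻¹)
    have e : (fun n => X (2 * n + 1) ^ k) = fun n => ((2 : ℝ) ^ k)⁻¹ * X n ^ k := by
      funext n
      rw [X, X, ← inv_pow, ← mul_pow, ← mul_inv]
      congr 2
      push_cast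
      ring
    rw [e]
    exact h1
  have hs : Summable fun n => X (2 * n) ^ k :=
    (summable_X k hk).comp_injective (i := fun n : ℕ => 2 * n) fun a b h => by
      simp only at h
      omega
  have h2 : HasSum (fun n => X n ^ k) ((∑' n, X (2 * n) ^ k) + ((2 : ℝ) ^ k)⁻¹ * Sq.z k) :=
    HasSum.even_add_odd (f := fun n => X n ^ k) hs.hasSum hodd
  have h3 := h2.unique h0
  have hal : HasSum (fun n => al n * X n ^ k) (-(∑' n, X (2 * n) ^ k) + ((2 : ℝ) ^ k)⁻¹ * Sq.z k) := by
    apply HasSum.even_add_odd (f := fun n => al n * X n ^ k)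
    · have h4 := hs.hasSum.neg
      have e : (fun n => al (2 * n) * X (2 * n) ^ k) = fun n => -X (2 * n) ^ k := by
        funext n
        have : al (2 * n) = -1 := by
          rw [al, pow_succ, pow_mul]
          norm_num
        rw [this]
        ring
      rw [e]
      exact h4
    · have e : (fun n => al (2 * n + 1) * X (2 * n + 1) ^ k) = fun n => X (2 * n + 1) ^ k := by
        funext n
        have : al (2 * n + 1) = 1 := by
          rw [al, show 2 * n + 1 + 1 = 2 * (n + 1) by ring, pow_mul]
          norm_num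
        rw [this, one_mul]
      rw [e]
      exact hodd
  rw [zs, hal.tsum_eq]
  linarith

theorem theta_le_one (n : ℕ) : All.theta n ≤ 1 := by
  unfold All.theta
  rw [div_le_one (by positivity)]
  have h1 : (1 : ℝ) ≤ Real.pi ^ 2 := by
    have := Real.pi_gt_three
    nlinarith
  have h2 : (1 : ℝ) ≤ ((n : ℝ) + 1) ^ 2 := by
    have : (0 : ℝ) ≤ n := Nat.cast_nonneg n
    nlinarith
  nlinarith

theorem theta_lt {n n' : ℕ} (h : n' < n) : All.theta n < All.theta n' := by
  unfold All.theta
  apply one_div_lt_one_div_of_lt (by positivity)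
  have h1 : (n' : ℝ) < n := by exact_mod_cast h
  have h0 : (0 : ℝ) ≤ n' := Nat.cast_nonneg n'
  have h2 : ((n' : ℝ) + 1) ^ 2 < ((n : ℝ) + 1) ^ 2 := by nlinarith
  have h3 : 0 < Real.pi ^ 2 := by positivity
  nlinarith

theorem summable_theta (e : ℕ) (he : 1 ≤ e) : Summable fun n => All.theta n ^ e := (All.hasSum_theta e he).summable

/-- the determinants are nonzero far from the origin -/
theorem det_far (ς : ℕ → ℝ) (hς : ∀ n, |ς n| = 1) {m : ℕ} (β f : Fin m → ℕ) (hβ : Function.Injective β)
    (hf : Function.Injective f) :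
    ∀ᶠ s : ℕ in atTop, (Matrix.of fun k i : Fin m => ∑' n, ς n * All.theta n ^ (β k + f i + s)).det ≠ 0 := by
  classical
  let B : Matrix (Fin m) (Fin m) ℝ := Matrix.of fun n i => All.theta n ^ f i
  let A : Matrix (Fin m) (Fin m) ℝ := Matrix.of fun k n => All.theta n ^ β k
  have hinj : Function.Injective fun n : Fin m => All.theta n := fun a b h => Fin.ext (All.theta_inj h)
  have hB : B.det ≠ 0 := gvm (fun n : Fin m => All.theta n) hinj (fun n => All.theta_pos n) f hf
  have hA : A.det ≠ 0 := by
    have h1 := gvm (fun n : Fin m => All.theta n) hinj (fun n => All.theta_pos n) β hβ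
    have e : A = (Matrix.of fun n k : Fin m => All.theta n ^ β k).transpose := by
      ext k n
      rfl
    rw [e, Matrix.det_transpose]
    exact h1
  let M : ℕ → Matrix (Fin m) (Fin m) ℝ := fun s => Matrix.of fun k i => ∑' n, ς n * All.theta n ^ (β k + f i + s)
  let C : ℕ → Matrix (Fin m) (Fin m) ℝ := fun s => M s * (B⁻¹ * Matrix.diagonal fun n' : Fin m => (All.theta n' ^ s)⁻¹)
  let g : Fin m → ℕ → ℝ := fun n' n => ∑ i, All.theta n ^ f i * B⁻¹ i n'
  have hg : ∀ (n' n : Fin m), g n' n = if n = n' then 1 else 0 := by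
    intro n' n
    have h1 : (B * B⁻¹) n n' = (1 : Matrix (Fin m) (Fin m) ℝ) n n' := by
      rw [Matrix.mul_nonsing_inv B (isUnit_iff_ne_zero.2 hB)]
    rw [Matrix.one_apply, Matrix.mul_apply] at h1
    exact h1
  have hCkn : ∀ s, 1 ≤ s → ∀ k n', C s k n' = ∑' n, ς n * All.theta n ^ β k * g n' n * (All.theta n * (All.theta n')⁻¹) ^ s := by
    intro s hs k n'
    have h1 : C s k n' = (∑ i, M s k i * B⁻¹ i n') * (All.theta n' ^ s)⁻¹ := by
      simp only [C]
      rw [← Matrix.mul_assoc, Matrix.mul_diagonal, Matrix.mul_apply]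
    rw [h1]
    have hsm : ∀ i : Fin m, Summable fun n => ς n * All.theta n ^ (β k + f i + s) := by
      intro i
      refine Summable.of_norm ((summable_theta (β k + f i + s) (by omega)).congr fun n => ?_)
      rw [norm_mul, Real.norm_eq_abs, hς, one_mul, Real.norm_of_nonneg (pow_nonneg (All.theta_pos n).le _)]
    have h2 : ∑ i, M s k i * B⁻¹ i n' = ∑' n, ∑ i, ς n * All.theta n ^ (β k + f i + s) * B⁻¹ i n' := by
      rw [Summable.tsum_finsetSum fun i _ => (hsm i).mul_right _]
      refine Finset.sum_congr rfl fun i _ => ?_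
      rw [tsum_mul_right]
      rfl
    rw [h2, ← tsum_mul_right]
    refine tsum_congr fun n => ?_
    simp only [g]
    rw [Finset.sum_mul, Finset.mul_sum, Finset.sum_mul]
    refine Finset.sum_congr rfl fun i _ => ?_
    rw [mul_pow, inv_pow, pow_add, pow_add]
    ring
  have hlim : ∀ k n', Tendsto (fun s => C s k n') atTop (𝓝 ((A * Matrix.diagonal fun n : Fin m => ς n) k n')) := by
    intro k n'
    have hval : (A * Matrix.diagonal fun n : Fin m => ς n) k n' = ∑' n : ℕ, if n = n' then ς n' * All.theta n' ^ β k else 0 := by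
      rw [tsum_ite_eq, Matrix.mul_diagonal]
      simp only [A, Matrix.of_apply]
      ring
    rw [hval]
    have h1 : Tendsto (fun s : ℕ => ∑' n, ς n * All.theta n ^ β k * g n' n * (All.theta n * (All.theta n')⁻¹) ^ s) atTop
        (𝓝 (∑' n : ℕ, if n = n' then ς n' * All.theta n' ^ β k else 0)) := by
      set G : ℝ := 1 + ∑ i, |B⁻¹ i n'| with hG
      have hG0 : 0 ≤ ∑ i, |B⁻¹ i n'| := Finset.sum_nonneg fun i _ => abs_nonneg _
      have hgle : ∀ n, |g n' n| ≤ G := by
        intro n
        refine (Finset.abs_sum_le_sum_abs _ _).trans ?_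
        have : ∑ i, |All.theta n ^ f i * B⁻¹ i n'| ≤ ∑ i, |B⁻¹ i n'| := by
          refine Finset.sum_le_sum fun i _ => ?_
          rw [abs_mul, abs_of_nonneg (pow_nonneg (All.theta_pos n).le _)]
          exact mul_le_of_le_one_left (abs_nonneg _) (pow_le_one₀ (All.theta_pos n).le (theta_le_one n))
        linarith
      have hθ' : 0 < (All.theta n')⁻¹ := inv_pos.2 (All.theta_pos n')
      refine tendsto_tsum_of_dominated_convergence (bound := fun n => G * (All.theta n * (All.theta n')⁻¹)) ?_ ?_ ?_
      · have := (summable_theta 1 le_rfl).mul_right ((All.theta n')⁻¹)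
        simp only [pow_one] at this
        exact this.mul_left G
      · intro n
        by_cases hn : n < m
        · have h2 := hg n' ⟨n, hn⟩
          simp only at h2
          rw [h2]
          by_cases h3 : n = n'
          · have h4 : (⟨n, hn⟩ : Fin m) = n' := Fin.ext h3
            rw [if_pos h4, if_pos h3]
            have h5 : All.theta n * (All.theta n')⁻¹ = 1 := by
              rw [h3]
              exact mul_inv_cancel₀ (All.theta_pos n').ne'
            have e : (fun s : ℕ => ς n * All.theta n ^ β k * 1 * (All.theta n * (All.theta n')⁻¹) ^ s) =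
                fun _ => ς n' * All.theta n' ^ β k := by
              funext s
              rw [h5, one_pow, h3]
              ring
            rw [e]
            exact tendsto_const_nhds
          · have h4 : (⟨n, hn⟩ : Fin m) ≠ n' := fun h => h3 (congrArg Fin.val h)
            rw [if_neg h4, if_neg h3]
            simp only [mul_zero, zero_mul]
            exact tendsto_const_nhds
        · have h3 : n ≠ n' := by
            have := n'.2
            omega
          rw [if_neg h3]
          have h4 : All.theta n * (All.theta n')⁻¹ < 1 := by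
            rw [← div_eq_mul_inv, div_lt_one (All.theta_pos n')]
            apply theta_lt
            have := n'.2
            omega
          have h5 := (tendsto_pow_atTop_nhds_zero_of_lt_one (mul_nonneg (All.theta_pos n).le hθ'.le) h4).const_mul
            (ς n * All.theta n ^ β k * g n' n)
          rwa [mul_zero] at h5
      · filter_upwards [eventually_ge_atTop 1] with s hs n
        rw [norm_mul, norm_mul, norm_mul, Real.norm_eq_abs (ς n), hς, one_mul, Real.norm_of_nonneg (pow_nonneg (All.theta_pos n).le _),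
          Real.norm_of_nonneg (pow_nonneg (mul_nonneg (All.theta_pos n).le hθ'.le) _), Real.norm_eq_abs]
        have hr0 : 0 ≤ All.theta n * (All.theta n')⁻¹ := mul_nonneg (All.theta_pos n).le hθ'.le
        have h2 : All.theta n ^ β k ≤ 1 := pow_le_one₀ (All.theta_pos n).le (theta_le_one n)
        have h2' : 0 ≤ All.theta n ^ β k := pow_nonneg (All.theta_pos n).le _
        by_cases hn : n < m
        · have h3 := hg n' ⟨n, hn⟩
          simp only at h3
          rw [h3]
          by_cases h4 : n = n'
          · have h5 : All.theta n * (All.theta n')⁻¹ = 1 := by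
              rw [h4]
              exact mul_inv_cancel₀ (All.theta_pos n').ne'
            rw [h5, one_pow, mul_one, mul_one]
            split_ifs
            · rw [abs_one, mul_one]
              linarith
            · rw [abs_zero, mul_zero]
              linarith
          · have h5 : (⟨n, hn⟩ : Fin m) ≠ n' := fun h => h4 (congrArg Fin.val h)
            rw [if_neg h5, abs_zero, mul_zero, zero_mul]
            exact mul_nonneg (by linarith) hr0
        · have h4 : All.theta n * (All.theta n')⁻¹ ≤ 1 := by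
            rw [← div_eq_mul_inv, div_le_one (All.theta_pos n')]
            apply (theta_lt _).le
            have := n'.2
            omega
          have h5 : (All.theta n * (All.theta n')⁻¹) ^ s ≤ All.theta n * (All.theta n')⁻¹ := by
            obtain ⟨s', rfl⟩ : ∃ s', s = s' + 1 := ⟨s - 1, by omega⟩
            rw [pow_succ]
            exact mul_le_of_le_one_left hr0 (pow_le_one₀ hr0 h4)
          have h6 : All.theta n ^ β k * |g n' n| ≤ G := (mul_le_of_le_one_left (abs_nonneg _) h2).trans (hgle n)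
          exact mul_le_mul h6 h5 (pow_nonneg hr0 _) (by linarith)
    refine h1.congr' ?_
    filter_upwards [eventually_ge_atTop 1] with s hs
    rw [hCkn s hs]
  have hClim : Tendsto C atTop (𝓝 (A * Matrix.diagonal fun n : Fin m => ς n)) :=
    tendsto_pi_nhds.2 fun k => tendsto_pi_nhds.2 fun n' => hlim k n'
  have hdet : Tendsto (fun s => (C s).det) atTop (𝓝 (A * Matrix.diagonal fun n : Fin m => ς n).det) :=
    ((continuous_id.matrix_det).tendsto _).comp hClim
  have hne : (A * Matrix.diagonal fun n : Fin m => ς n).det ≠ 0 := by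
    rw [Matrix.det_mul, Matrix.det_diagonal]
    refine mul_ne_zero hA (Finset.prod_ne_zero_iff.2 fun n _ h => ?_)
    have := hς n
    rw [h, abs_zero] at this
    exact zero_ne_one this
  filter_upwards [hdet.eventually_ne hne] with s hs h
  apply hs
  simp only [C]
  rw [Matrix.det_mul]
  have : (M s).det = 0 := h
  rw [this, zero_mul]

/-- the rational numbers `(2 / 4 ^ m - 1) ζ(2 m) / π ^ (2 m)` -/
noncomputable def qal (m : ℕ) : ℚ := (2 * ((2 : ℚ) ^ (2 * m))⁻¹ - 1) * Sq.rho m

theorem zs_al_even (m : ℕ) (hm : 1 ≤ m) : zs al (2 * m) = (qal m : ℝ) * (Real.pi ^ 2) ^ m := by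
  rw [zs_al _ (by omega), Sq.z_even m hm, qal]
  push_cast
  ring

theorem tsum_al_theta (m : ℕ) (hm : 1 ≤ m) : ∑' n, al n * All.theta n ^ m = (qal m : ℝ) := by
  have h1 := zs_al_even m hm
  have h2 : ∑' n, al n * All.theta n ^ m = zs al (2 * m) / (Real.pi ^ 2) ^ m := by
    rw [zs, ← tsum_div_const]
    refine tsum_congr fun n => ?_
    rw [mul_div_assoc]
    congr 1
    rw [All.theta, X, one_div, inv_pow, mul_pow, inv_pow, ← pow_mul, ← pow_mul, mul_inv, div_eq_mul_inv, mul_comm]
  rw [h2, h1, mul_div_assoc, div_self (by positivity), mul_one]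

theorem FS_al : FS al := by
  classical
  intro K J
  have hall : ∀ᶠ s : ℕ in atTop, ∀ τ : Σ m : Fin (J + 2), (Fin m → Fin K) × (Fin m → Fin (J + 1)),
      Function.Injective τ.2.1 → Function.Injective τ.2.2 →
      (Matrix.of fun k i : Fin τ.1 => ∑' n, al n * All.theta n ^ ((τ.2.1 k : ℕ) + (τ.2.2 i : ℕ) + s)).det ≠ 0 := by
    rw [eventually_all]
    intro τ
    by_cases h : Function.Injective τ.2.1 ∧ Function.Injective τ.2.2
    · have h1 := det_far al abs_al (fun k => (τ.2.1 k : ℕ)) (fun i => (τ.2.2 i : ℕ)) (Fin.val_injective.comp h.1)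
        (Fin.val_injective.comp h.2)
      filter_upwards [h1] with s hs _ _
      exact hs
    · exact Eventually.of_forall fun s h1 h2 => absurd ⟨h1, h2⟩ h
  obtain ⟨Y, hY⟩ := eventually_atTop.1 hall
  refine ⟨2 * Y + 2, fun P hP hPe L hL E' R hR W hW hWs B hBK hB => ?_⟩
  set m₀ := W.support.card with hm₀
  let e : Fin m₀ → ℕ := W.support.orderEmbOfFin rfl
  have he : ∀ i, e i ∈ W.support := fun i => Finset.orderEmbOfFin_mem _ _ i
  have heinj : Function.Injective e := (W.support.orderEmbOfFin rfl).injective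
  have hesum : ∀ φ : ℕ → ℝ, ∑ j ∈ W.support, φ j = ∑ i, φ (e i) := by
    intro φ
    conv_lhs => rw [← Finset.map_orderEmbOfFin_univ W.support rfl]
    rw [Finset.sum_map]
    rfl
  obtain ⟨s, hs⟩ := hPe
  have hef : ∀ i, 2 * (e i / 2) = e i := by
    intro i
    obtain ⟨y, hy⟩ := (hWs _ (he i)).1
    omega
  have hsY : Y ≤ s := by omega
  have hm₀J : m₀ < J + 2 := by
    have h1 : W.support ⊆ Finset.range (J + 1) := by
      intro j hj
      rw [Finset.mem_range]
      have := (hWs j hj).2
      omega
    have h2 := Finset.card_le_card h1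
    rw [Finset.card_range] at h2
    omega
  have hval : ∀ β : ℕ, pzs al (Polynomial.X ^ (2 * β + P) * W) =
      (Real.pi ^ 2) ^ β * ∑ i : Fin m₀, (qal (β + (e i / 2 + s)) : ℝ) * (W.coeff (e i) * (Real.pi ^ 2) ^ (e i / 2 + s)) := by
    intro β
    rw [pzs_mul, hesum, Finset.mul_sum]
    refine Finset.sum_congr rfl fun i _ => ?_
    have h3 : 2 * β + P + e i = 2 * (β + (e i / 2 + s)) := by
      have := hef i
      omega
    rw [h3, zs_al_even _ (by omega), pow_add]
    ring
  have hlt := Sq.linear_lemma (Real.pi ^ 2) (Sq.transcendental_sq hL) E' R hR m₀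
    (fun i => W.coeff (e i) * (Real.pi ^ 2) ^ (e i / 2 + s)) ?_ (fun b i => qal (b + (e i / 2 + s))) B ?_ ?_
  · omega
  · intro h
    have hpos : 0 < m₀ := by
      rw [hm₀, Finset.card_pos]
      exact Polynomial.nonempty_support_iff.2 hW
    have := congrFun h ⟨0, hpos⟩
    simp only [Pi.zero_apply, mul_eq_zero] at this
    rcases this with h2 | h2
    · exact (Polynomial.mem_support_iff.1 (he _)) h2
    · exact absurd h2 (by positivity)
  · intro β hβ hβB hdet
    have hb : ∀ k, β k < K := fun k => hBK _ (hβB k)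
    have hf : ∀ i, e i / 2 < J + 1 := by
      intro i
      have := (hWs _ (he i)).2
      omega
    have h1 := hY s hsY ⟨⟨m₀, hm₀J⟩, (fun k => ⟨β k, hb k⟩, fun i => ⟨e i / 2, hf i⟩)⟩
      (fun a b h => hβ (by simpa using h)) (fun a b h => heinj (by
        have h2 : e a / 2 = e b / 2 := by simpa using h
        have h3 := hef a
        have h4 := hef b
        omega))
    apply h1
    have h2 := congrArg (Rat.castHom ℝ) hdet
    rw [RingHom.map_det, map_zero] at h2
    rw [← h2]
    congr 1
    ext k i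
    simp only [Matrix.of_apply, RingHom.mapMatrix_apply, Matrix.map_apply, Rat.coe_castHom]
    rw [tsum_al_theta _ (by omega)]
    congr 2
    ring
  · intro b hb
    have := hB b hb
    rw [hval] at this
    exact this

/-- the signs of a letter -/
noncomputable def sgs (u : ℤˣ) (n : ℕ) : ℝ := ((u : ℤ) : ℝ) ^ (n + 1)

theorem abs_sgs (u : ℤˣ) (n : ℕ) : |sgs u n| = 1 := by
  rcases Int.units_eq_one_or u with h | h <;> simp [sgs, h]

theorem sgs_mul (u v : ℤˣ) (n : ℕ) : sgs u n * sgs v n = sgs (u * v) n := by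
  simp [sgs, mul_pow]

theorem FS_sgs (u : ℤˣ) : FS (sgs u) := by
  rcases Int.units_eq_one_or u with h | h
  · have e : sgs u = fun _ => 1 := by
      funext n
      simp [sgs, h]
    rw [e]
    exact FS_one
  · have e : sgs u = al := by
      funext n
      simp [sgs, h, al]
    rw [e]
    exact FS_al

end Pool.Agent.H491.Der
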