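import Mathlib
import Pool.Agent.H491.Az2

set_option autoImplicit false

/-! # The linear lemma with determinants in blocks only, and the uniform final step -/

namespace Pool.Agent.H491.Sq

open Polynomial

variable {L : Subfield ℝ}

theorem no_rels (t : ℝ) (ht : Transcendental L t) (m : ℕ)
    (w : Fin m → ℝ) (hw : w ≠ 0) (R : ℕ → Fin m → ℚ) (B : Finset ℕ) (β : Fin m → ℕ) (hβB : ∀ k, β k ∈ B)
    (hR : (Matrix.of fun k i => R (β k) i).det ≠ 0) (c : Fin m → ℕ → L) (hc1 : ∀ k, c k (β k) ≠ 0)
    (hc2 : ∀ k b, β k < b → c k b = 0)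
    (hc4 : ∀ k, ∑ b ∈ B, (c k b : ℝ) * (t ^ b * ∑ i, (R b i : ℝ) * w i) = 0) : False := by
  classical
  set N : ℕ := ∑ k, β k with hN
  have hle : ∀ k, β k ≤ N := fun k => Finset.single_le_sum (f := β) (fun _ _ => Nat.zero_le _) (Finset.mem_univ k)
  clear_value N
  let M : Matrix (Fin m) (Fin m) L[X] := Matrix.of fun k i =>
    ∑ b ∈ B, C (c k b * (algebraMap ℚ L (R b i))) * X ^ (b + (N - β k))
  have hM : ∀ k i, M k i = ∑ b ∈ B, C (c k b * (algebraMap ℚ L (R b i))) * X ^ (b + (N - β k)) := fun k i => rfl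
  have hdeg : ∀ k i, (M k i).natDegree ≤ N := by
    intro k i
    rw [hM]
    apply Polynomial.natDegree_sum_le_of_forall_le
    intro b hb
    rcases le_or_gt b (β k) with h | h
    · refine (Polynomial.natDegree_C_mul_X_pow_le _ _).trans ?_
      have := hle k
      omega
    · rw [hc2 k b h]
      simp
  have hcoef : ∀ k i, (M k i).coeff N = c k (β k) * algebraMap ℚ L (R (β k) i) := by
    intro k i
    rw [hM, Polynomial.finsetSum_coeff]
    rw [Finset.sum_eq_single (β k)]
    · rw [Polynomial.coeff_C_mul_X_pow, if_pos]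
      have := hle k
      omega
    · intro b hb hne
      rw [Polynomial.coeff_C_mul_X_pow, if_neg]
      have := hle k
      omega
    · intro h
      exact absurd (hβB k) h
  have hdet : M.det = 0 := by
    have h1 : (M.map (Polynomial.aeval t : L[X] →ₐ[L] ℝ)).mulVec w = 0 := by
      funext k
      rw [Matrix.mulVec, dotProduct]
      simp only [Matrix.map_apply, Pi.zero_apply]
      have h2 : ∀ i, (Polynomial.aeval t (M k i) : ℝ) = t ^ (N - β k) * ∑ b ∈ B, (c k b : ℝ) * (t ^ b * (R b i : ℝ)) := by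
        intro i
        rw [hM, map_sum, Finset.mul_sum]
        refine Finset.sum_congr rfl fun b _ => ?_
        simp only [map_mul, Polynomial.aeval_C, map_pow, Polynomial.aeval_X]
        have e1 : (algebraMap L ℝ) (c k b) = (c k b : ℝ) := rfl
        have e2 : (algebraMap L ℝ) ((algebraMap ℚ L) (R b i)) = (R b i : ℝ) := by simp
        rw [e1, e2, pow_add]
        ring
      have h3 : ∑ i, (Polynomial.aeval t (M k i) : ℝ) * w i =
          t ^ (N - β k) * ∑ b ∈ B, (c k b : ℝ) * (t ^ b * ∑ i, (R b i : ℝ) * w i) := by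
        simp only [h2]
        simp only [Finset.mul_sum, Finset.sum_mul]
        rw [Finset.sum_comm]
        refine Finset.sum_congr rfl fun b _ => Finset.sum_congr rfl fun i _ => ?_
        ring
      rw [h3, hc4 k, mul_zero]
    have h4 : (M.map (Polynomial.aeval t : L[X] →ₐ[L] ℝ)).det = 0 := Matrix.exists_mulVec_eq_zero_iff.1 ⟨w, hw, h1⟩
    have h5 : (Polynomial.aeval t : L[X] →ₐ[L] ℝ) M.det = 0 := by
      rw [AlgHom.map_det]
      exact h4
    exact (transcendental_iff.1 ht) _ h5
  have h6 : M.det.coeff (m * N) = ((∏ k, c k (β k)) * algebraMap ℚ L (Matrix.of fun k i => R (β k) i).det) := by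
    rw [Matrix.det_apply', Matrix.det_apply', Polynomial.finsetSum_coeff, map_sum (algebraMap ℚ L), Finset.mul_sum]
    apply Finset.sum_congr rfl
    intro σ _
    have e1 : ((Equiv.Perm.sign σ : ℤ) : L[X]) = C ((Equiv.Perm.sign σ : ℤ) : L) := by simp
    rw [e1, Polynomial.coeff_C_mul]
    have e2 : (∏ i, M (σ i) i).coeff (m * N) = ∏ i, (M (σ i) i).coeff N := by
      have := Polynomial.coeff_prod_of_natDegree_le (s := (Finset.univ : Finset (Fin m))) (fun i => M (σ i) i) N
        (fun i _ => hdeg _ _)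
      simpa using this
    rw [e2]
    simp only [hcoef]
    rw [Finset.prod_mul_distrib, Equiv.prod_comp σ (fun k => c k (β k))]
    rw [map_mul, map_prod]
    simp only [Matrix.of_apply, map_intCast]
    ring
  rw [hdet, Polynomial.coeff_zero] at h6
  have h7 := h6.symm
  rw [mul_eq_zero] at h7
  rcases h7 with h7 | h7
  · rw [Finset.prod_eq_zero_iff] at h7
    obtain ⟨k, -, hk⟩ := h7
    exact hc1 k hk
  · rw [map_eq_zero] at h7
    exact hR h7


/-- The linear lemma with a condition on the minors with rows in one block `[j κ, (j + 1) κ)` only. -/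
theorem linear_lemma_block (t : ℝ) (ht : Transcendental L t) (E : Submodule L ℝ) (r : ℕ) (hE : Module.rank L E ≤ r) (m : ℕ)
    (w : Fin m → ℝ) (hw : w ≠ 0) (R : ℕ → Fin m → ℚ) (κ K : ℕ) (B : Finset ℕ) (hBK : ∀ b ∈ B, b < K)
    (hR : ∀ β : Fin m → ℕ, Function.Injective β → (∀ k, β k ∈ B) → (∀ k l, β k / κ = β l / κ) →
      (Matrix.of fun k i => R (β k) i).det ≠ 0)
    (hB : ∀ b ∈ B, t ^ b * ∑ i, (R b i : ℝ) * w i ∈ E) : B.card < r + m * (K / κ + 1) := by
  classical
  by_contra hcon
  push Not at hcon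
  obtain ⟨β, hβ, hβB, hβc⟩ := exists_rels E r hE (fun b => t ^ b * ∑ i, (R b i : ℝ) * w i) (m * (K / κ + 1)) B hB hcon
  have hmaps : ∀ k ∈ (Finset.univ : Finset (Fin (m * (K / κ + 1)))), β k / κ ∈ Finset.range (K / κ + 1) := by
    intro k _
    rw [Finset.mem_range, Nat.lt_succ_iff]
    exact Nat.div_le_div_right (hBK _ (hβB k)).le
  obtain ⟨j, -, hj⟩ := Finset.exists_le_card_fiber_of_mul_le_card_of_maps_to hmaps ⟨0, by simp⟩
    (n := m) (by rw [Finset.card_range, Finset.card_univ, Fintype.card_fin, mul_comm])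
  obtain ⟨F, hF, hFc⟩ := Finset.exists_subset_card_eq hj
  let g : Fin m → Fin (m * (K / κ + 1)) := fun k => F.orderEmbOfFin hFc k
  have hg : Function.Injective g := (F.orderEmbOfFin hFc).injective
  have hgF : ∀ k, β (g k) / κ = j := fun k => (Finset.mem_filter.1 (hF (Finset.orderEmbOfFin_mem F hFc k))).2
  choose c hc1 hc2 hc3 hc4 using hβc
  exact no_rels t ht m w hw R B (fun k => β (g k)) (fun k => hβB _)
    (hR (fun k => β (g k)) (hβ.comp hg) (fun k => hβB _) fun k l => by rw [hgF, hgF])
    (fun k => c (g k)) (fun k => hc1 _) (fun k => hc2 _) (fun k => hc4 _)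

end Pool.Agent.H491.Sq

namespace Pool.Agent.H491.Der

open Filter Topology Polynomial

/-- the final step, uniformly in the range of the exponents -/
def FSU (ς : ℕ → ℝ) : Prop := ∀ κ J : ℕ, 0 < κ → ∃ Y : ℕ, ∀ P : ℕ, Y ≤ P → Even P → ∀ (L : Subfield ℝ), Transcendental L Real.pi →
  ∀ (E' : Submodule L ℝ) (R : ℕ), Module.rank L E' ≤ (R : Cardinal) → ∀ W : ℝ[X], W ≠ 0 →
  (∀ j ∈ W.support, Even j ∧ j ≤ J) → ∀ (K : ℕ) (B : Finset ℕ), (∀ β ∈ B, β < K) →
  (∀ β ∈ B, pzs ς (Polynomial.X ^ (2 * β + P) * W) ∈ E') → B.card < R + W.support.card * (K / κ + 1)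

theorem FSU_one : FSU fun _ => 1 := by
  intro κ J _
  obtain ⟨Y, hY⟩ := FS_one 0 J
  refine ⟨2, fun P hP hPe L hL E' R hR W hW hWs K B _ hB => ?_⟩
  have h1 : B.card < R + W.support.card := by
    apply All.final_step' hL E' R hR W.support.card P W hW le_rfl
    · intro j hj
      exact ⟨(hWs j hj).1.add hPe, by omega⟩
    · intro β hβ
      have h1 := hB β hβ
      rw [pzs_mul] at h1
      have h2 : All.pz (Polynomial.X ^ (2 * β + P) * W) = ∑ j ∈ W.support, W.coeff j * Sq.z (2 * β + P + j) := by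
        conv_lhs => rw [W.as_sum_support_C_mul_X_pow]
        rw [Finset.mul_sum, map_sum]
        refine Finset.sum_congr rfl fun j _ => ?_
        have : (Polynomial.X : ℝ[X]) ^ (2 * β + P) * (C (W.coeff j) * Polynomial.X ^ j) =
            C (W.coeff j) * Polynomial.X ^ (2 * β + P + j) := by
          rw [pow_add]
          ring
        rw [this, All.pz_C_mul_X_pow]
      rw [h2]
      have h3 : ∑ j ∈ W.support, W.coeff j * zs (fun _ => 1) (2 * β + P + j) =
          ∑ j ∈ W.support, W.coeff j * Sq.z (2 * β + P + j) := by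
        refine Finset.sum_congr rfl fun j _ => ?_
        rw [zs_one _ (by omega)]
      rw [← h3]
      exact h1
  have h2 : W.support.card ≤ W.support.card * (K / κ + 1) := Nat.le_mul_of_pos_right _ (Nat.succ_pos _)
  omega

theorem FSU_al : FSU al := by
  classical
  intro κ J hκ
  have hall : ∀ᶠ s : ℕ in atTop, ∀ τ : Σ m : Fin (J + 2), (Fin m → Fin κ) × (Fin m → Fin (J + 1)),
      Function.Injective τ.2.1 → Function.Injective τ.2.2 →
      (Matrix.of fun k i : Fin τ.1 => ∑' n, al n * All.theta n ^ ((τ.2.1 k : ℕ) + (τ.2.2 i : ℕ) + s)).det ≠ 0 := by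
    rw [eventually_all]
    intro τ
    by_cases h : Function.Injective τ.2.1 ∧ Function.Injective τ.2.2
    · have h1 := det_far al abs_al (fun k => (τ.2.1 k : ℕ)) (fun i => (τ.2.2 i : ℕ)) (Fin.val_injective.comp h.1)
        (Fin.val_injective.comp h.2)
      filter_upwards [h1] with s hs _ _
      exact hs
    · exact Eventually.of_forall fun s h1 h2 => absurd ⟨h1, h2⟩ h
  obtain ⟨Y, hY⟩ := eventually_atTop.1 hall
  refine ⟨2 * Y + 2, fun P hP hPe L hL E' R hR W hW hWs K B hBK hB => ?_⟩
  set m₀ := W.support.card with hm₀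
  let e : Fin m₀ → ℕ := W.support.orderEmbOfFin rfl
  have he : ∀ i, e i ∈ W.support := fun i => Finset.orderEmbOfFin_mem _ _ i
  have heinj : Function.Injective e := (W.support.orderEmbOfFin rfl).injective
  have hesum : ∀ φ : ℕ → ℝ, ∑ j ∈ W.support, φ j = ∑ i, φ (e i) := by
    intro φ
    conv_lhs => rw [← Finset.map_orderEmbOfFin_univ W.support rfl]
    rw [Finset.sum_map]
    rfl
  obtain ⟨s, hs⟩ := hPe
  have hef : ∀ i, 2 * (e i / 2) = e i := by
    intro i
    obtain ⟨y, hy⟩ := (hWs _ (he i)).1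
    omega
  have hsY : Y ≤ s := by omega
  have hm₀J : m₀ < J + 2 := by
    have h1 : W.support ⊆ Finset.range (J + 1) := by
      intro j hj
      rw [Finset.mem_range]
      have := (hWs j hj).2
      omega
    have h2 := Finset.card_le_card h1
    rw [Finset.card_range] at h2
    omega
  have hval : ∀ β : ℕ, pzs al (Polynomial.X ^ (2 * β + P) * W) =
      (Real.pi ^ 2) ^ β * ∑ i : Fin m₀, (qal (β + (e i / 2 + s)) : ℝ) * (W.coeff (e i) * (Real.pi ^ 2) ^ (e i / 2 + s)) := by
    intro β
    rw [pzs_mul, hesum, Finset.mul_sum]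
    refine Finset.sum_congr rfl fun i _ => ?_
    have h3 : 2 * β + P + e i = 2 * (β + (e i / 2 + s)) := by
      have := hef i
      omega
    rw [h3, zs_al_even _ (by omega), pow_add]
    ring
  have hlt := Sq.linear_lemma_block (Real.pi ^ 2) (Sq.transcendental_sq hL) E' R hR m₀
    (fun i => W.coeff (e i) * (Real.pi ^ 2) ^ (e i / 2 + s)) ?_ (fun b i => qal (b + (e i / 2 + s))) κ K B hBK ?_ ?_
  · omega
  · intro h
    have hpos : 0 < m₀ := by
      rw [hm₀, Finset.card_pos]
      exact Polynomial.nonempty_support_iff.2 hW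
    have := congrFun h ⟨0, hpos⟩
    simp only [Pi.zero_apply, mul_eq_zero] at this
    rcases this with h2 | h2
    · exact (Polynomial.mem_support_iff.1 (he _)) h2
    · exact absurd h2 (by positivity)
  · intro β hβ hβB hβκ hdet
    rcases Nat.eq_zero_or_pos m₀ with hm | hm
    · have h1 : (Matrix.of fun k i : Fin m₀ => qal (β k + (e i / 2 + s))).det = 1 := by
        haveI : IsEmpty (Fin m₀) := by rw [hm]; infer_instance
        exact Matrix.det_isEmpty
      rw [h1] at hdet
      exact one_ne_zero hdet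
    set b₀ := κ * (β ⟨0, hm⟩ / κ) with hb₀
    have hβ' : ∀ k, β k = b₀ + β k % κ := by
      intro k
      rw [hb₀, ← hβκ k ⟨0, hm⟩]
      exact (Nat.div_add_mod (β k) κ).symm
    have hb : ∀ k, β k % κ < κ := fun k => Nat.mod_lt _ hκ
    have hf : ∀ i, e i / 2 < J + 1 := by
      intro i
      have := (hWs _ (he i)).2
      omega
    have h1 := hY (s + b₀) (by omega) ⟨⟨m₀, hm₀J⟩, (fun k => ⟨β k % κ, hb k⟩, fun i => ⟨e i / 2, hf i⟩)⟩
      (fun a b h => hβ (by
        have h2 : β a % κ = β b % κ := by simpa using h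
        rw [hβ' a, hβ' b, h2])) (fun a b h => heinj (by
        have h2 : e a / 2 = e b / 2 := by simpa using h
        have h3 := hef a
        have h4 := hef b
        omega))
    apply h1
    have h2 := congrArg (Rat.castHom ℝ) hdet
    rw [RingHom.map_det, map_zero] at h2
    rw [← h2]
    congr 1
    ext k i
    simp only [Matrix.of_apply, RingHom.mapMatrix_apply, Matrix.map_apply, Rat.coe_castHom]
    rw [tsum_al_theta _ (by omega)]
    congr 2
    have := hβ' k
    omega
  · intro b hb
    have := hB b hb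
    rw [hval] at this
    exact this

theorem FSU_sgs (u : ℤˣ) : FSU (sgs u) := by
  rcases Int.units_eq_one_or u with h | h
  · have e : sgs u = fun _ => 1 := by
      funext n
      simp [sgs, h]
    rw [e]
    exact FSU_one
  · have e : sgs u = al := by
      funext n
      simp [sgs, h, al]
    rw [e]
    exact FSU_al

theorem FSU_sgs2 (u v : ℤˣ) : FSU fun n => sgs u n * sgs v n := by
  have e : (fun n => sgs u n * sgs v n) = sgs (u * v) := funext fun n => sgs_mul u v n
  rw [e]
  exact FSU_sgs _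

end Pool.Agent.H491.Der
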