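import Mathlib
import Pool.Agent.H491.Der3

set_option autoImplicit false

/-! # Sums over tuples with a bounded kernel -/

namespace Pool.Agent.H491.Der

open Filter Topology

variable {D : ℕ}

/-- the sum with the kernel `K` -/
noncomputable def OmK (K : (Fin D → ℕ) → ℝ) (φ : Fin D → ℕ → ℝ) : ℝ := ∑' ν : Fin D → ℕ, K ν * ∏ i, φ i (ν i)

/-- absolutely summable -/
def Sm (φ : Fin D → ℕ → ℝ) : Prop := ∀ i, Summable fun n => ‖φ i n‖

/-- the norm -/
noncomputable def nn (f : ℕ → ℝ) : ℝ := ∑' n, ‖f n‖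

theorem nn_nonneg (f : ℕ → ℝ) : 0 ≤ nn f := tsum_nonneg fun _ => norm_nonneg _

theorem Sm_update (φ : Fin D → ℕ → ℝ) (h : Sm φ) (a : Fin D) (f : ℕ → ℝ) (hf : Summable fun n => ‖f n‖) :
    Sm (Function.update φ a f) := by
  intro i
  by_cases hi : i = a
  · subst hi
    rw [Function.update_self]
    exact hf
  · rw [Function.update_of_ne hi]
    exact h i

theorem OmK_summable (K : (Fin D → ℕ) → ℝ) (C : ℝ) (hK : ∀ ν, |K ν| ≤ C) (φ : Fin D → ℕ → ℝ) (h : Sm φ) :
    Summable fun ν : Fin D → ℕ => K ν * ∏ i, φ i (ν i) := by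
  refine Summable.of_norm_bounded ((prod_summable D φ h).1.mul_left C) fun ν => ?_
  rw [norm_mul]
  exact mul_le_mul_of_nonneg_right (hK ν) (norm_nonneg _)

theorem OmK_le (K : (Fin D → ℕ) → ℝ) (C : ℝ) (hK : ∀ ν, |K ν| ≤ C) (φ : Fin D → ℕ → ℝ) (h : Sm φ) :
    |OmK K φ| ≤ C * ∏ i, nn (φ i) := by
  have h1 : ∀ i, Summable fun n => ‖(fun i n => ‖φ i n‖) i n‖ := fun i => by simpa using h i
  obtain ⟨h2, h3⟩ := prod_summable D (fun i n => ‖φ i n‖) h1
  have e : ∀ ν : Fin D → ℕ, ∏ i, ‖φ i (ν i)‖ = ‖∏ i, φ i (ν i)‖ := fun ν => (norm_prod _ _).symm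
  simp only [e] at h3
  have h4 := (prod_summable D φ h).1
  unfold nn
  rw [← h3, OmK, ← Real.norm_eq_abs, ← tsum_mul_left]
  have hs := (OmK_summable K C hK φ h).norm
  refine (norm_tsum_le_tsum_norm hs).trans (hs.tsum_le_tsum (fun ν => ?_) (h4.mul_left C))
  rw [norm_mul]
  exact mul_le_mul_of_nonneg_right (hK ν) (norm_nonneg _)

theorem prod_upd (φ : Fin D → ℕ → ℝ) (a : Fin D) (f : ℕ → ℝ) (ν : Fin D → ℕ) :
    ∏ i, (Function.update φ a f) i (ν i) = f (ν a) * ∏ i ∈ Finset.univ.erase a, φ i (ν i) := by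
  rw [← Finset.mul_prod_erase _ _ (Finset.mem_univ a), Function.update_self]
  congr 1
  refine Finset.prod_congr rfl fun i hi => ?_
  rw [Function.update_of_ne (Finset.ne_of_mem_erase hi)]

theorem OmK_add (K : (Fin D → ℕ) → ℝ) (C : ℝ) (hK : ∀ ν, |K ν| ≤ C) (φ : Fin D → ℕ → ℝ) (h : Sm φ) (a : Fin D)
    (f g : ℕ → ℝ) (hf : Summable fun n => ‖f n‖) (hg : Summable fun n => ‖g n‖) :
    OmK K (Function.update φ a fun n => f n + g n) = OmK K (Function.update φ a f) + OmK K (Function.update φ a g) := by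
  rw [OmK, OmK, OmK, ← (OmK_summable K C hK _ (Sm_update φ h a f hf)).tsum_add (OmK_summable K C hK _ (Sm_update φ h a g hg))]
  refine tsum_congr fun ν => ?_
  rw [prod_upd, prod_upd, prod_upd]
  ring

theorem OmK_smul (K : (Fin D → ℕ) → ℝ) (φ : Fin D → ℕ → ℝ) (a : Fin D) (x : ℝ) (f : ℕ → ℝ) :
    OmK K (Function.update φ a fun n => x * f n) = x * OmK K (Function.update φ a f) := by
  rw [OmK, OmK, ← tsum_mul_left]
  refine tsum_congr fun ν => ?_
  rw [prod_upd, prod_upd]
  ring

theorem OmK_sum {ι : Type*} (K : (Fin D → ℕ) → ℝ) (C : ℝ) (hK : ∀ ν, |K ν| ≤ C) (φ : Fin D → ℕ → ℝ) (h : Sm φ) (a : Fin D)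
    (s : Finset ι) (f : ι → ℕ → ℝ) (hf : ∀ q, Summable fun n => ‖f q n‖) :
    OmK K (Function.update φ a fun n => ∑ q ∈ s, f q n) = ∑ q ∈ s, OmK K (Function.update φ a (f q)) := by
  classical
  induction s using Finset.induction_on with
  | empty =>
    simp only [Finset.sum_empty]
    have := OmK_smul K φ a 0 fun _ => 0
    simpa using this
  | insert q s hq ih =>
    simp only [Finset.sum_insert hq]
    rw [← ih]
    apply OmK_add K C hK φ h a (f q) (fun n => ∑ q ∈ s, f q n) (hf q)
    exact (summable_sum fun q _ => (hf q).of_norm).norm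

theorem OmK_close (K : (Fin D → ℕ) → ℝ) (C : ℝ) (hC : 0 ≤ C) (hK : ∀ ν, |K ν| ≤ C) (φ θ : Fin D → ℕ → ℝ) (h : Sm φ)
    (h' : Sm θ) (B : ℝ) (hB : 1 ≤ B) (hφ : ∀ i, nn (φ i) ≤ B) (hθ : ∀ i, nn (θ i) ≤ B) :
    |OmK K φ - OmK K θ| ≤ C * B ^ D * ∑ i, nn (fun n => φ i n - θ i n) := by
  classical
  have key : ∀ s : Finset (Fin D), |OmK K (fun i => if i ∈ s then φ i else θ i) - OmK K θ| ≤
      C * B ^ D * ∑ i ∈ s, nn (fun n => φ i n - θ i n) := by
    intro s
    induction s using Finset.induction_on with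
    | empty => simp
    | insert a s ha ih =>
      have hSm : Sm (fun i => if i ∈ s then φ i else θ i) := by
        intro i
        by_cases hi : i ∈ s
        · simp only [hi, if_true]
          exact h i
        · simp only [hi, if_false]
          exact h' i
      have e1 : (fun i => if i ∈ insert a s then φ i else θ i) =
          Function.update (fun i => if i ∈ s then φ i else θ i) a (fun n => (φ a n - θ a n) + θ a n) := by
        funext i
        by_cases hi : i = a
        · subst hi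
          rw [Function.update_self, if_pos (Finset.mem_insert_self _ _)]
          funext n
          ring
        · rw [Function.update_of_ne hi]
          simp only [Finset.mem_insert, hi, false_or]
      have e2 : Function.update (fun i => if i ∈ s then φ i else θ i) a (θ a) = fun i => if i ∈ s then φ i else θ i := by
        funext i
        by_cases hi : i = a
        · subst hi
          rw [Function.update_self, if_neg ha]
        · rw [Function.update_of_ne hi]
      have hd : Summable fun n => ‖φ a n - θ a n‖ := ((h a).of_norm.sub (h' a).of_norm).norm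
      rw [e1, OmK_add K C hK _ hSm a _ _ hd (h' a), e2, Finset.sum_insert ha]
      have h1 : |OmK K (Function.update (fun i => if i ∈ s then φ i else θ i) a fun n => φ a n - θ a n)| ≤
          C * B ^ D * nn (fun n => φ a n - θ a n) := by
        refine (OmK_le K C hK _ (Sm_update _ hSm a _ hd)).trans ?_
        rw [← Finset.mul_prod_erase _ _ (Finset.mem_univ a), Function.update_self]
        have h2 : ∏ i ∈ Finset.univ.erase a, nn (Function.update (fun i => if i ∈ s then φ i else θ i) a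
            (fun n => φ a n - θ a n) i) ≤ B ^ D := by
          calc _ ≤ ∏ _i ∈ Finset.univ.erase a, B := by
                apply Finset.prod_le_prod (fun i _ => nn_nonneg _)
                intro i hi
                rw [Function.update_of_ne (Finset.ne_of_mem_erase hi)]
                by_cases his : i ∈ s
                · simp only [his, if_true]
                  exact hφ i
                · simp only [his, if_false]
                  exact hθ i
            _ ≤ B ^ D := by
                rw [Finset.prod_const]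
                apply pow_le_pow_right₀ hB
                refine (Finset.card_le_univ _).trans ?_
                simp
        have h3 := nn_nonneg fun n => φ a n - θ a n
        calc C * (nn (fun n => φ a n - θ a n) * ∏ i ∈ Finset.univ.erase a, nn (Function.update (fun i => if i ∈ s then φ i else θ i) a
            (fun n => φ a n - θ a n) i)) ≤ C * (nn (fun n => φ a n - θ a n) * B ^ D) := by
              apply mul_le_mul_of_nonneg_left _ hC
              exact mul_le_mul_of_nonneg_left h2 h3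
          _ = _ := by ring
      have e3 : ∀ x y z : ℝ, x + y - z = x + (y - z) := fun x y z => by ring
      rw [e3, mul_add]
      exact (abs_add_le _ _).trans (add_le_add h1 ih)
  have := key Finset.univ
  simpa using this

/-- the indicator of a point -/
def dl (m : ℕ) (n : ℕ) : ℝ := if n = m then 1 else 0

theorem summable_dl (m : ℕ) : Summable fun n => ‖dl m n‖ := summable_ind m

theorem nn_dl (m : ℕ) : nn (dl m) = 1 := by
  rw [nn, tsum_eq_single m]
  · simp [dl]
  · intro n hn
    rw [dl, if_neg hn, norm_zero]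

theorem OmK_dl (K : (Fin D → ℕ) → ℝ) (ν₀ : Fin D → ℕ) : OmK K (fun i => dl (ν₀ i)) = K ν₀ := by
  rw [OmK, tsum_eq_single ν₀]
  · simp [dl]
  · intro ν hν
    obtain ⟨i, hi⟩ : ∃ i, ν i ≠ ν₀ i := by
      by_contra hcon
      push Not at hcon
      exact hν (funext hcon)
    rw [Finset.prod_eq_zero (Finset.mem_univ i), mul_zero]
    rw [dl, if_neg hi]

/-- the pairs of different letters -/
abbrev PP (D : ℕ) := {p : Fin D × Fin D // p.1 ≠ p.2}

/-- the exponents of the corner `ε` of the cube -/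
def mm (M : ℕ) (tt : PP D → Fin 2 → ℕ) (ε : PP D → Fin 2) (i : Fin D) : ℕ :=
  ∑ p : PP D, ((if p.1.1 = i then tt p (ε p) else 0) + if p.1.2 = i then M - tt p (ε p) else 0)

/-- the sign of a corner -/
def sgn (ε : PP D → Fin 2) : ℝ := ∏ p, (-1 : ℝ) ^ (ε p : ℕ)

/-- the factor that kills the merged terms -/
noncomputable def QQ (M : ℕ) (tt : PP D → Fin 2 → ℕ) (ν : Fin D → ℕ) : ℝ :=
  ∏ p : PP D, ∑ k : Fin 2, (-1 : ℝ) ^ (k : ℕ) * (X (ν p.1.1) ^ (2 * tt p k) * X (ν p.1.2) ^ (2 * (M - tt p k)))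

theorem mm_prod (M : ℕ) (tt : PP D → Fin 2 → ℕ) (ε : PP D → Fin 2) (x : Fin D → ℝ) :
    ∏ p : PP D, (x p.1.1 ^ (2 * tt p (ε p)) * x p.1.2 ^ (2 * (M - tt p (ε p)))) = ∏ i, x i ^ (2 * mm M tt ε i) := by
  have h1 : ∀ i, x i ^ (2 * mm M tt ε i) = ∏ p : PP D, (x i ^ (2 * if p.1.1 = i then tt p (ε p) else 0) *
      x i ^ (2 * if p.1.2 = i then M - tt p (ε p) else 0)) := by
    intro i
    rw [mm, Finset.mul_sum, ← Finset.prod_pow_eq_pow_sum]
    refine Finset.prod_congr rfl fun p _ => ?_
    rw [mul_add, pow_add]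
  simp only [h1]
  rw [Finset.prod_comm]
  refine Finset.prod_congr rfl fun p _ => ?_
  rw [Finset.prod_mul_distrib]
  congr 1
  · rw [Finset.prod_eq_single p.1.1]
    · rw [if_pos rfl]
    · intro i _ hi
      rw [if_neg (Ne.symm hi), mul_zero, pow_zero]
    · intro h
      exact absurd (Finset.mem_univ _) h
  · rw [Finset.prod_eq_single p.1.2]
    · rw [if_pos rfl]
    · intro i _ hi
      rw [if_neg (Ne.symm hi), mul_zero, pow_zero]
    · intro h
      exact absurd (Finset.mem_univ _) h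

theorem QQ_expand (M : ℕ) (tt : PP D → Fin 2 → ℕ) (ν : Fin D → ℕ) :
    QQ M tt ν = ∑ ε : PP D → Fin 2, sgn ε * ∏ i, X (ν i) ^ (2 * mm M tt ε i) := by
  rw [QQ, Finset.prod_univ_sum, Fintype.piFinset_univ]
  refine Finset.sum_congr rfl fun ε _ => ?_
  rw [Finset.prod_mul_distrib, mm_prod M tt ε fun i => X (ν i)]
  rfl

theorem QQ_le (M : ℕ) (tt : PP D → Fin 2 → ℕ) (ν : Fin D → ℕ) : |QQ M tt ν| ≤ 1 := by
  rw [QQ, Finset.abs_prod]
  apply Finset.prod_le_one (fun _ _ => abs_nonneg _)
  intro p _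
  rw [Fin.sum_univ_two]
  simp only [Fin.val_zero, pow_zero, one_mul, Fin.val_one, pow_one, neg_mul]
  have h : ∀ k, 0 ≤ X (ν p.1.1) ^ (2 * tt p k) * X (ν p.1.2) ^ (2 * (M - tt p k)) ∧
      X (ν p.1.1) ^ (2 * tt p k) * X (ν p.1.2) ^ (2 * (M - tt p k)) ≤ 1 := by
    intro k
    have h1 := pow_nonneg (X_pos (ν p.1.1)).le (2 * tt p k)
    have h2 := pow_nonneg (X_pos (ν p.1.2)).le (2 * (M - tt p k))
    have h3 := pow_le_one₀ (n := 2 * tt p k) (X_pos (ν p.1.1)).le (X_le _)
    have h4 := pow_le_one₀ (n := 2 * (M - tt p k)) (X_pos (ν p.1.2)).le (X_le _)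
    exact ⟨mul_nonneg h1 h2, mul_le_one₀ h3 h2 h4⟩
  obtain ⟨h1, h2⟩ := h 0
  obtain ⟨h3, h4⟩ := h 1
  rw [abs_le]
  constructor <;> linarith

theorem QQ_zero (M : ℕ) (tt : PP D → Fin 2 → ℕ) (htM : ∀ p k, tt p k ≤ M) (ν : Fin D → ℕ) (h : ¬ Function.Injective ν) :
    QQ M tt ν = 0 := by
  rw [Function.not_injective_iff] at h
  obtain ⟨a, b, hab, hne⟩ := h
  rw [QQ]
  apply Finset.prod_eq_zero (Finset.mem_univ (⟨(a, b), hne⟩ : PP D))
  rw [Fin.sum_univ_two]
  simp only [hab, ← pow_add]
  have h0 := htM ⟨(a, b), hne⟩ 0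
  have h1 := htM ⟨(a, b), hne⟩ 1
  have e : ∀ k, 2 * tt ⟨(a, b), hne⟩ k + 2 * (M - tt ⟨(a, b), hne⟩ k) = 2 * M := by
    intro k
    have := htM ⟨(a, b), hne⟩ k
    omega
  rw [e, e]
  simp

theorem QQ_ne (M : ℕ) (tt : PP D → Fin 2 → ℕ) (htM : ∀ p k, tt p k ≤ M) (htt : ∀ p, tt p 0 ≠ tt p 1) (ν : Fin D → ℕ)
    (h : Function.Injective ν) : QQ M tt ν ≠ 0 := by
  rw [QQ, Finset.prod_ne_zero_iff]
  intro p _
  rw [Fin.sum_univ_two]
  simp only [Fin.val_zero, pow_zero, one_mul, Fin.val_one, pow_one, neg_mul]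
  intro h0
  have hne : X (ν p.1.1) ≠ X (ν p.1.2) := fun h' => p.2 (h (X_inj h'))
  have h1 : X (ν p.1.1) ^ (2 * tt p 0) * X (ν p.1.2) ^ (2 * (M - tt p 0)) =
      X (ν p.1.1) ^ (2 * tt p 1) * X (ν p.1.2) ^ (2 * (M - tt p 1)) := by linarith
  have key : ∀ (x y : ℝ) (s s' : ℕ), 0 < x → 0 < y → x ≠ y → s ≤ M → s' ≤ M → s < s' →
      x ^ (2 * s) * y ^ (2 * (M - s)) ≠ x ^ (2 * s') * y ^ (2 * (M - s')) := by
    intro x y s s' hx hy hxy hs hs' hss h2
    have e1 : 2 * (M - s) = 2 * (M - s') + 2 * (s' - s) := by omega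
    have e2 : 2 * s' = 2 * s + 2 * (s' - s) := by omega
    rw [e1, e2, pow_add, pow_add] at h2
    have h3 : y ^ (2 * (s' - s)) = x ^ (2 * (s' - s)) := by
      have hx' := (pow_pos hx (2 * s)).ne'
      have hy' := (pow_pos hy (2 * (M - s'))).ne'
      have h4 : (x ^ (2 * s) * y ^ (2 * (M - s'))) * y ^ (2 * (s' - s)) = (x ^ (2 * s) * y ^ (2 * (M - s'))) * x ^ (2 * (s' - s)) := by
        linarith
      exact mul_left_cancel₀ (mul_ne_zero hx' hy') h4
    have h5 := (pow_left_inj₀ hy.le hx.le (by omega)).1 h3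
    exact hxy h5.symm
  rcases lt_or_gt_of_ne (htt p) with h2 | h2
  · exact key _ _ _ _ (X_pos _) (X_pos _) hne (htM _ _) (htM _ _) h2 h1
  · exact key _ _ _ _ (X_pos _) (X_pos _) hne (htM _ _) (htM _ _) h2 h1.symm

/-- the kernel -/
noncomputable def KQ (M : ℕ) (tt : PP D → Fin 2 → ℕ) (c : V D) (ν : Fin D → ℕ) : ℝ := ct c ν * QQ M tt ν

theorem KQ_le (M : ℕ) (tt : PP D → Fin 2 → ℕ) (c : V D) (ν : Fin D → ℕ) : |KQ M tt c ν| ≤ nc c := by
  rw [KQ, abs_mul]
  exact (mul_le_of_le_one_right (abs_nonneg _) (QQ_le _ _ _)).trans (ct_le c ν)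

/-- **Factorization.** -/
theorem factor {d : ℕ} (M : ℕ) (tt : PP (d + 1) → Fin 2 → ℕ) (htM : ∀ p k, tt p k ≤ M) (c : V (d + 1)) (a : Fin (d + 1))
    (hc : c ∈ U a) (φ : Fin (d + 1) → ℕ → ℝ) (hφ : Sm φ) :
    ∃ om : (PP (d + 1) → Fin 2) → ℝ, ∀ f : ℕ → ℝ, (Summable fun n => ‖f n‖) →
      OmK (KQ M tt c) (Function.update φ a f) =
        ∑ ε, sgn ε * (∑' n, f n * X n ^ (2 * mm M tt ε a)) * om ε := by
  let K : (Fin d → ℕ) → ℝ := fun ν' => ct c (a.insertNth (1 + ∑ i, ν' i) ν' : Fin (d + 1) → ℕ)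
  let H : (PP (d + 1) → Fin 2) → (Fin d → ℕ) → ℝ := fun ε ν' =>
    K ν' * ∏ i, (X (ν' i) ^ (2 * mm M tt ε (a.succAbove i)) * φ (a.succAbove i) (ν' i))
  refine ⟨fun ε => ∑' ν', H ε ν', fun f hf => ?_⟩
  have hKle : ∀ ν', |K ν'| ≤ nc c := fun ν' => ct_le c _
  have hbig : ∀ (ν' : Fin d → ℕ) (k : Fin d), ν' k < 1 + ∑ i, ν' i := by
    intro ν' k
    have := Finset.single_le_sum (f := ν') (fun _ _ => Nat.zero_le _) (Finset.mem_univ k)
    omega
  have hinj : ∀ (ν' : Fin d → ℕ) (n : ℕ), Function.Injective (a.insertNth n ν' : Fin (d + 1) → ℕ) ↔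
      Function.Injective ν' ∧ ∀ k, ν' k ≠ n := by
    intro ν' n
    constructor
    · intro h
      constructor
      · intro x y hxy
        have := h (a₁ := a.succAbove x) (a₂ := a.succAbove y) (by simpa using hxy)
        exact Fin.succAbove_right_injective this
      · intro k hk
        have := h (a₁ := a.succAbove k) (a₂ := a) (by simpa using hk)
        exact Fin.succAbove_ne a k this
    · rintro ⟨h1, h2⟩ x y hxy
      induction x using Fin.succAboveCases a with
      | x =>
        induction y using Fin.succAboveCases a with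
        | x => rfl
        | p j =>
          simp only [Fin.insertNth_apply_same, Fin.insertNth_apply_succAbove] at hxy
          exact absurd hxy.symm (h2 j)
      | p i =>
        induction y using Fin.succAboveCases a with
        | x =>
          simp only [Fin.insertNth_apply_same, Fin.insertNth_apply_succAbove] at hxy
          exact absurd hxy (h2 i)
        | p j =>
          simp only [Fin.insertNth_apply_succAbove] at hxy
          rw [h1 hxy]
  have hK : ∀ (ν' : Fin d → ℕ) (n : ℕ), KQ M tt c (a.insertNth n ν') = K ν' * QQ M tt (a.insertNth n ν') := by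
    intro ν' n
    rw [KQ]
    by_cases h : Function.Injective (a.insertNth n ν' : Fin (d + 1) → ℕ)
    · congr 1
      apply ct_of_U a c hc _ _ h
      · rw [hinj]
        exact ⟨((hinj _ _).1 h).1, fun k => (hbig ν' k).ne⟩
      · intro k hk
        obtain ⟨j, rfl⟩ := Fin.exists_succAbove_eq hk
        simp
    · rw [QQ_zero M tt htM _ h, mul_zero, mul_zero]
  have hSmf := Sm_update φ hφ a f hf
  have hsum := OmK_summable (KQ M tt c) (nc c) (KQ_le M tt c) _ hSmf
  rw [OmK, tsum_insertNth a _ hsum]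
  have hfX : ∀ m : ℕ, Summable fun n => f n * X n ^ (2 * m) := by
    intro m
    refine Summable.of_norm_bounded hf fun n => ?_
    rw [norm_mul, Real.norm_of_nonneg (pow_nonneg (X_pos n).le _)]
    exact mul_le_of_le_one_right (norm_nonneg _) (pow_le_one₀ (X_pos n).le (X_le n))
  have hinner : ∀ ν' : Fin d → ℕ, ∑' n, KQ M tt c (a.insertNth n ν') * ∏ i, (Function.update φ a f) i
      ((a.insertNth n ν' : Fin (d + 1) → ℕ) i) = ∑ ε, sgn ε * (∑' n, f n * X n ^ (2 * mm M tt ε a)) * H ε ν' := by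
    intro ν'
    have e : ∀ n, KQ M tt c (a.insertNth n ν') * ∏ i, (Function.update φ a f) i ((a.insertNth n ν' : Fin (d + 1) → ℕ) i) =
        ∑ ε, (sgn ε * H ε ν') * (f n * X n ^ (2 * mm M tt ε a)) := by
      intro n
      rw [hK, QQ_expand, Fin.prod_univ_succAbove _ a, Finset.mul_sum, Finset.sum_mul]
      refine Finset.sum_congr rfl fun ε _ => ?_
      rw [Fin.prod_univ_succAbove _ a]
      simp only [Fin.insertNth_apply_same, Fin.insertNth_apply_succAbove, Function.update_self,
        Function.update_of_ne (Fin.succAbove_ne a _), H]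
      rw [Finset.prod_mul_distrib]
      ring
    simp only [e]
    rw [Summable.tsum_finsetSum fun ε _ => (hfX _).mul_left _]
    refine Finset.sum_congr rfl fun ε _ => ?_
    rw [tsum_mul_left]
    ring
  simp only [hinner]
  have hH : ∀ ε, Summable (H ε) := by
    intro ε
    apply OmK_summable K (nc c) hKle (fun i n => X n ^ (2 * mm M tt ε (a.succAbove i)) * φ (a.succAbove i) n)
    intro i
    refine Summable.of_nonneg_of_le (fun n => norm_nonneg _) (fun n => ?_) (hφ (a.succAbove i))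
    rw [norm_mul, Real.norm_of_nonneg (pow_nonneg (X_pos n).le _)]
    exact mul_le_of_le_one_left (norm_nonneg _) (pow_le_one₀ (X_pos n).le (X_le n))
  rw [Summable.tsum_finsetSum fun ε _ => (hH ε).mul_left _]
  refine Finset.sum_congr rfl fun ε _ => ?_
  rw [tsum_mul_left]

/-- the terms of a letter with vanishing moments are killed -/
theorem kill {d : ℕ} (M : ℕ) (tt : PP (d + 1) → Fin 2 → ℕ) (htM : ∀ p k, tt p k ≤ M) (φ : Fin (d + 1) → ℕ → ℝ) (hφ : Sm φ)
    (l : List (Fin (d + 1))) (hl : ∀ j ∈ l, ∀ ε, ∑' n, φ j n * X n ^ (2 * mm M tt ε j) = 0) (c : V (d + 1)) (hc : c ∈ UU l) :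
    OmK (KQ M tt c) φ = 0 := by
  let S : Submodule ℚ (V (d + 1)) :=
    { carrier := {c | OmK (KQ M tt c) φ = 0}
      add_mem' := by
        intro c c' h h'
        simp only [Set.mem_setOf_eq] at h h' ⊢
        have e : OmK (KQ M tt (c + c')) φ = OmK (KQ M tt c) φ + OmK (KQ M tt c') φ := by
          rw [OmK, OmK, OmK, ← (OmK_summable _ _ (KQ_le M tt c) φ hφ).tsum_add (OmK_summable _ _ (KQ_le M tt c') φ hφ)]
          refine tsum_congr fun ν => ?_
          rw [KQ, KQ, KQ, ct_add]
          ring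
        rw [e, h, h', add_zero]
      zero_mem' := by
        simp only [Set.mem_setOf_eq]
        rw [OmK]
        have : ∀ ν : Fin (d + 1) → ℕ, KQ M tt 0 ν * ∏ i, φ i (ν i) = 0 := by
          intro ν
          rw [KQ, ct]
          simp
        simp only [this, tsum_zero]
      smul_mem' := by
        intro q c h
        simp only [Set.mem_setOf_eq] at h ⊢
        have e : OmK (KQ M tt (q • c)) φ = (q : ℝ) * OmK (KQ M tt c) φ := by
          rw [OmK, OmK, ← tsum_mul_left]
          refine tsum_congr fun ν => ?_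
          have : ct (q • c) ν = (q : ℝ) * ct c ν := by
            classical
            rw [ct, ct, Finset.mul_sum]
            refine Finset.sum_congr rfl fun σ _ => ?_
            split_ifs
            · simp
            · simp
          rw [KQ, KQ, this]
          ring
        rw [e, h, mul_zero] }
  have h1 : UU l ≤ S := by
    refine iSup₂_le fun j hj => fun c hc => ?_
    obtain ⟨om, hom⟩ := factor M tt htM c j hc φ hφ
    have h2 := hom (φ j) (hφ j)
    rw [Function.update_eq_self] at h2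
    change OmK (KQ M tt c) φ = 0
    rw [h2]
    apply Finset.sum_eq_zero
    intro ε _
    rw [hl j hj ε, mul_zero, zero_mul]
  exact h1 hc

end Pool.Agent.H491.Der
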