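import Mathlib
import Pool.Agent.H491.Der4

set_option autoImplicit false

/-! # The value of the limit -/

namespace Pool.Agent.H491.Der

open Filter Topology

variable {D : ℕ}

/-- clusters of places above each other -/
def Chain (s : Fin D → ℕ) (g : (j : Fin D) → Fin (s j) → ℕ) : ℕ → List (Fin D) → Prop
  | _, [] => True
  | v, j :: l => ∃ v', v ≤ v' ∧ (∀ q, v ≤ g j q ∧ g j q < v') ∧ Chain s g v' l

/-- the kernel with a monomial -/
noncomputable def Ke (M : ℕ) (tt : PP D → Fin 2 → ℕ) (ε : PP D → Fin 2) (c : V D) (ν : Fin D → ℕ) : ℝ :=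
  ct c ν * ∏ i, X (ν i) ^ (2 * mm M tt ε i)

theorem prod_X_le (m : Fin D → ℕ) (ν : Fin D → ℕ) : |∏ i, X (ν i) ^ (m i)| ≤ 1 := by
  rw [Finset.abs_prod]
  apply Finset.prod_le_one (fun _ _ => abs_nonneg _)
  intro i _
  rw [abs_of_nonneg (pow_nonneg (X_pos _).le _)]
  exact pow_le_one₀ (X_pos _).le (X_le _)

theorem Ke_le (M : ℕ) (tt : PP D → Fin 2 → ℕ) (ε : PP D → Fin 2) (c : V D) (ν : Fin D → ℕ) :
    |Ke M tt ε c ν| ≤ nc c := by
  rw [Ke, abs_mul]
  exact (mul_le_of_le_one_right (abs_nonneg _) (prod_X_le _ _)).trans (ct_le c ν)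

theorem th_eq {s : ℕ} (n₀ : ℕ) (g : Fin s → ℕ) (x₀ : Fin s → ℝ) : th n₀ g x₀ = fun n => dl n₀ n + ∑ q, x₀ q * dl (g q) n := rfl

theorem summable_th {s : ℕ} (n₀ : ℕ) (g : Fin s → ℕ) (x₀ : Fin s → ℝ) : Summable fun n => ‖th n₀ g x₀ n‖ := by
  rw [th_eq]
  exact ((summable_dl n₀).of_norm.add (summable_sum fun q _ => (summable_dl (g q)).of_norm.mul_left _)).norm

theorem ct_sub (c c' : V D) (ν : Fin D → ℕ) : ct (c - c') ν = ct c ν - ct c' ν := by
  have := ct_add (c - c') c' ν
  rw [sub_add_cancel] at this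
  linarith

theorem eval_eps (M : ℕ) (tt : PP D → Fin 2 → ℕ) (ε : PP D → Fin 2) (s : Fin D → ℕ) (g : (j : Fin D) → Fin (s j) → ℕ)
    (x₀ : (j : Fin D) → Fin (s j) → ℝ) (c : V D) : ∀ (l : List (Fin D)) (v : ℕ) (ν₀ : Fin D → ℕ),
    Function.Injective ν₀ → (∀ k, ν₀ k < v) → l.Nodup → Chain s g v l →
    (∀ j ∈ l, X (ν₀ j) ^ (2 * mm M tt ε j) + ∑ q, x₀ j q * X (g j q) ^ (2 * mm M tt ε j) = 0) →
    OmK (Ke M tt ε c) (fun i => if i ∈ l then th (ν₀ i) (g i) (x₀ i) else dl (ν₀ i)) =
      ct (Th l c) ν₀ * ∏ i, X (ν₀ i) ^ (2 * mm M tt ε i) := by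
  intro l
  induction l with
  | nil =>
    intro v ν₀ _ _ _ _ _
    simp only [List.not_mem_nil, if_false]
    rw [OmK_dl, Ke]
    rfl
  | cons j l ih =>
    intro v ν₀ hinj hv hnd hch hmom
    obtain ⟨v', hvv', hg, hch'⟩ := hch
    have hjl := (List.nodup_cons.1 hnd).1
    have hnd' := (List.nodup_cons.1 hnd).2
    set φ : Fin D → ℕ → ℝ := fun i => if i ∈ l then th (ν₀ i) (g i) (x₀ i) else dl (ν₀ i) with hφ
    have hSm : Sm φ := by
      intro i
      by_cases hi : i ∈ l
      · simp only [hφ, hi, if_true]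
        exact summable_th _ _ _
      · simp only [hφ, hi, if_false]
        exact summable_dl _
    have e1 : (fun i => if i ∈ j :: l then th (ν₀ i) (g i) (x₀ i) else dl (ν₀ i)) =
        Function.update φ j (fun n => dl (ν₀ j) n + ∑ q, x₀ j q * dl (g j q) n) := by
      funext i
      by_cases hi : i = j
      · subst hi
        rw [Function.update_self, if_pos (by simp), th_eq]
      · rw [Function.update_of_ne hi]
        simp only [List.mem_cons, hi, false_or, hφ]
    have e2 : Function.update φ j (dl (ν₀ j)) = φ := by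
      funext i
      by_cases hi : i = j
      · subst hi
        rw [Function.update_self]
        simp only [hφ, hjl, if_false]
      · rw [Function.update_of_ne hi]
    have e3 : ∀ q, Function.update φ j (dl (g j q)) = fun i => if i ∈ l then
        th (Function.update ν₀ j (g j q) i) (g i) (x₀ i) else dl (Function.update ν₀ j (g j q) i) := by
      intro q
      funext i
      by_cases hi : i = j
      · subst hi
        rw [Function.update_self, Function.update_self, if_neg hjl]
      · rw [Function.update_of_ne hi, Function.update_of_ne hi]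
    have hsq : ∀ q, Summable fun n => ‖x₀ j q * dl (g j q) n‖ := fun q => ((summable_dl (g j q)).of_norm.mul_left _).norm
    have hss : Summable fun n => ‖∑ q, x₀ j q * dl (g j q) n‖ := (summable_sum fun q _ => (hsq q).of_norm).norm
    rw [e1, OmK_add _ (nc c) (Ke_le M tt ε c) φ hSm j (dl (ν₀ j)) _ (summable_dl _) hss, e2,
      OmK_sum _ (nc c) (Ke_le M tt ε c) φ hSm j Finset.univ (fun q n => x₀ j q * dl (g j q) n) hsq]
    have h1 := ih v' ν₀ hinj (fun k => lt_of_lt_of_le (hv k) hvv') hnd' hch' (fun j' hj' => hmom j' (by simp [hj']))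
    have h2 : ∀ q, OmK (Ke M tt ε c) (Function.update φ j fun n => x₀ j q * dl (g j q) n) =
        (ct (R j (Th l c)) ν₀ * ∏ i ∈ Finset.univ.erase j, X (ν₀ i) ^ (2 * mm M tt ε i)) *
          (x₀ j q * X (g j q) ^ (2 * mm M tt ε j)) := by
      intro q
      rw [OmK_smul, e3]
      have hinj' : Function.Injective (Function.update ν₀ j (g j q)) := by
        intro a b hab
        by_cases ha : a = j
        · by_cases hb : b = j
          · rw [ha, hb]
          · rw [ha, Function.update_self, Function.update_of_ne hb] at hab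
            have h3 := hv b
            have h4 := (hg q).1
            omega
        · by_cases hb : b = j
          · rw [hb, Function.update_self, Function.update_of_ne ha] at hab
            have h3 := hv a
            have h4 := (hg q).1
            omega
          · rw [Function.update_of_ne ha, Function.update_of_ne hb] at hab
            exact hinj hab
      have hlt : ∀ k, Function.update ν₀ j (g j q) k < v' := by
        intro k
        by_cases hk : k = j
        · subst hk
          rw [Function.update_self]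
          exact (hg q).2
        · rw [Function.update_of_ne hk]
          exact lt_of_lt_of_le (hv k) hvv'
      have h3 := ih v' (Function.update ν₀ j (g j q)) hinj' hlt hnd' hch' (by
        intro j' hj'
        have hne : j' ≠ j := fun h => hjl (h ▸ hj')
        rw [Function.update_of_ne hne]
        exact hmom j' (by simp [hj']))
      rw [h3, ← ct_R j (Th l c) ν₀ hinj (g j q) (fun k => lt_of_lt_of_le (hv k) (hg q).1),
        ← Finset.mul_prod_erase _ _ (Finset.mem_univ j), Function.update_self]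
      have h4 : ∏ i ∈ Finset.univ.erase j, X (Function.update ν₀ j (g j q) i) ^ (2 * mm M tt ε i) =
          ∏ i ∈ Finset.univ.erase j, X (ν₀ i) ^ (2 * mm M tt ε i) := by
        refine Finset.prod_congr rfl fun i hi => ?_
        rw [Function.update_of_ne (Finset.ne_of_mem_erase hi)]
      rw [h4]
      ring
    simp only [h2]
    rw [← Finset.mul_sum, h1, Th_cons, ct_sub]
    have h5 := hmom j (by simp)
    have h6 : ∏ i, X (ν₀ i) ^ (2 * mm M tt ε i) = X (ν₀ j) ^ (2 * mm M tt ε j) *
        ∏ i ∈ Finset.univ.erase j, X (ν₀ i) ^ (2 * mm M tt ε i) := (Finset.mul_prod_erase _ _ (Finset.mem_univ j)).symm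
    rw [h6]
    linear_combination (ct (R j (Th l c)) ν₀ * ∏ i ∈ Finset.univ.erase j, X (ν₀ i) ^ (2 * mm M tt ε i)) * h5

theorem sgn_sum_OmK (M : ℕ) (tt : PP D → Fin 2 → ℕ) (c : V D) (φ : Fin D → ℕ → ℝ) (hφ : Sm φ) :
    OmK (KQ M tt c) φ = ∑ ε, sgn ε * OmK (Ke M tt ε c) φ := by
  unfold OmK
  have e : ∀ ν : Fin D → ℕ, KQ M tt c ν * ∏ i, φ i (ν i) = ∑ ε, sgn ε * (Ke M tt ε c ν * ∏ i, φ i (ν i)) := by
    intro ν
    rw [KQ, QQ_expand, Finset.mul_sum, Finset.sum_mul]
    refine Finset.sum_congr rfl fun ε _ => ?_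
    rw [Ke]
    ring
  simp only [e]
  rw [Summable.tsum_finsetSum fun ε _ => (OmK_summable _ _ (Ke_le M tt ε c) φ hφ).mul_left _]
  refine Finset.sum_congr rfl fun ε _ => ?_
  rw [tsum_mul_left]

theorem eval_QQ (M : ℕ) (tt : PP D → Fin 2 → ℕ) (s : Fin D → ℕ) (g : (j : Fin D) → Fin (s j) → ℕ)
    (x₀ : (j : Fin D) → Fin (s j) → ℝ) (c : V D) (l : List (Fin D)) (v : ℕ) (ν₀ : Fin D → ℕ)
    (h1 : Function.Injective ν₀) (h2 : ∀ k, ν₀ k < v) (h3 : l.Nodup) (h4 : Chain s g v l)
    (h5 : ∀ ε, ∀ j ∈ l, X (ν₀ j) ^ (2 * mm M tt ε j) + ∑ q, x₀ j q * X (g j q) ^ (2 * mm M tt ε j) = 0) :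
    OmK (KQ M tt c) (fun i => if i ∈ l then th (ν₀ i) (g i) (x₀ i) else dl (ν₀ i)) = ct (Th l c) ν₀ * QQ M tt ν₀ := by
  rw [sgn_sum_OmK]
  · rw [QQ_expand, Finset.mul_sum]
    refine Finset.sum_congr rfl fun ε _ => ?_
    rw [eval_eps M tt ε s g x₀ c l v ν₀ h1 h2 h3 h4 (h5 ε)]
    ring
  · intro i
    by_cases hi : i ∈ l
    · simp only [hi, if_true]
      exact summable_th _ _ _
    · simp only [hi, if_false]
      exact summable_dl _

/-- clusters given by the place in the list -/
theorem chain_idxOf (l : List (Fin D)) (hl : l.Nodup) (s : Fin D → ℕ) (μ : ℕ) (hs : ∀ j, s j ≤ μ) (v : ℕ) :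
    ∀ (l₂ l₁ : List (Fin D)), l = l₁ ++ l₂ →
      Chain s (fun j q => v + l.idxOf j * μ + (q : ℕ)) (v + l₁.length * μ) l₂ := by
  intro l₂
  induction l₂ with
  | nil =>
    intro l₁ _
    trivial
  | cons j l₃ ih =>
    intro l₁ h
    have hidx : l.idxOf j = l₁.length := by
      rw [h, List.idxOf_append_of_notMem]
      · simp
      · intro hj
        rw [h] at hl
        exact (List.disjoint_of_nodup_append hl) hj (by simp)
    have h2 := ih (l₁ ++ [j]) (by simpa using h)
    refine ⟨v + (l₁ ++ [j]).length * μ, ?_, ?_, h2⟩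
    · rw [List.length_append, add_mul]
      omega
    · intro q
      have h3 := q.2
      have h4 := hs j
      simp only [hidx, List.length_append, List.length_cons, List.length_nil, zero_add, add_mul, one_mul]
      omega

end Pool.Agent.H491.Der
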