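import Mathlib
import Pool.Agent.H491.Der6
import Pool.Agent.H491.Az1
import Pool.Agent.H491.Az7

set_option autoImplicit false

/-! # The main analytic lemma for alternating zeta values -/

namespace Pool.Agent.H491.Der

open Filter Topology

open Polynomial in
theorem analyticV {d : ℕ} (S : Fin (d + 1) → ℕ → ℝ) (hS : ∀ i n, |S i n| = 1) (p : Fin (d + 1) → ℕ) (hp : ∀ i, 2 ≤ p i) (a : Fin (d + 1)) (hFS : FSU (S a)) (bl : ℕ) (hbl : 0 < bl) (hpa : Even (p a))
    (l' : List (Fin (d + 1))) (hal : a ∉ l') (hl' : l'.Nodup) (c c₀ : V (d + 1)) (hc₀ : c₀ ≠ 0) (hc₀a : c₀ ∈ U a)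
    (hTh : Th l' c₀ = c₀) (hcc : c - c₀ ∈ UU l') (w : ℕ)
    (hw : (d + 1) + (d + 1) * 2 ^ (Fintype.card (PP (d + 1))) + 2 ≤ w) (M : ℕ)
    (t : (Fin (d + 1) ⊕ PP (d + 1)) → Fin w → ℕ) (ht : ∀ κ, Function.Injective (t κ)) (htM : ∀ κ k, t κ k ≤ M) :
    ∃ Y : ℕ, ∀ y : Fin (d + 1) → ℕ, (∀ i, Y ≤ y i) → ∀ (L : Subfield ℝ), Transcendental L Real.pi →
      ∀ (E : Submodule L ℝ) (r : ℕ), Module.rank L E ≤ (r : Cardinal) → ∀ (K : ℕ) (B : Finset ℕ), (∀ b ∈ B, b < K) →
      (∀ b ∈ B, ∀ e, GS S c (aa p y M t a e b) ∈ E) →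
      B.card < w ^ (Fintype.card (Fin (d + 1) ⊕ PP (d + 1))) * r + 2 ^ (Fintype.card (PP (d + 1))) * (K / bl + 1) := by
  classical
  set μ := 2 ^ (Fintype.card (PP (d + 1))) with hμ
  let k0 : Fin w := ⟨0, by omega⟩
  let k1 : Fin w := ⟨1, by omega⟩
  have hk : k0 ≠ k1 := by simp [k0, k1, Fin.ext_iff]
  set tt : PP (d + 1) → Fin 2 → ℕ := fun q k => t (Sum.inr q) (![k0, k1] k) with htt
  have httM : ∀ q k, tt q k ≤ M := fun q k => htM _ _
  have htt01 : ∀ q, tt q 0 ≠ tt q 1 := by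
    intro q h
    apply hk
    exact ht (Sum.inr q) (by simpa [htt] using h)
  obtain ⟨ν₀, hν₀, hν₀D, hct⟩ := exists_point c₀ hc₀
  -- the moments
  let Ms : Fin (d + 1) → Finset ℕ := fun j => Finset.univ.image fun ε => mm M tt ε j
  have hMs : ∀ j, (Ms j).card ≤ μ := by
    intro j
    refine (Finset.card_image_le).trans ?_
    rw [Finset.card_univ, Fintype.card_fun, Fintype.card_fin]
  let s : Fin (d + 1) → ℕ := fun j => (Ms j).card
  let mo : (j : Fin (d + 1)) → Fin (s j) → ℕ := fun j => (Ms j).orderEmbOfFin rfl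
  have hmo : ∀ j, Function.Injective (mo j) := fun j => ((Ms j).orderEmbOfFin rfl).injective
  have hmo' : ∀ j ε, ∃ q, mo j q = mm M tt ε j := by
    intro j ε
    have h1 : mm M tt ε j ∈ Ms j := Finset.mem_image_of_mem _ (Finset.mem_univ ε)
    have h2 := Finset.range_orderEmbOfFin (Ms j) rfl
    have h3 : mm M tt ε j ∈ Set.range ((Ms j).orderEmbOfFin rfl) := by
      rw [h2]
      exact h1
    obtain ⟨q, hq⟩ := h3
    exact ⟨q, hq⟩
  let g : (j : Fin (d + 1)) → Fin (s j) → ℕ := fun j q => (d + 1) + l'.idxOf j * μ + (q : ℕ)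
  have hg : ∀ j, Function.Injective (g j) := by
    intro j q q' h
    simp only [g] at h
    exact Fin.ext (by omega)
  have hgw : ∀ j ∈ l', ∀ q, g j q < w := by
    intro j hj q
    have h1 : l'.idxOf j < l'.length := List.idxOf_lt_length_of_mem hj
    have h2 : l'.length ≤ d + 1 := by
      have := hl'.length_le_card
      simpa using this
    have h3 : (l'.idxOf j + 1) * μ ≤ (d + 1) * μ := Nat.mul_le_mul_right _ (by omega)
    have h4 := q.2
    have h5 := hMs j
    rw [add_mul, one_mul] at h3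
    simp only [g]
    simp only [s] at h4
    omega
  -- the letters
  have hlet : ∀ j ∈ l', ∃ x₀ : Fin (s j) → ℝ, (∀ r, X (ν₀ j) ^ (2 * mo j r) + ∑ q, x₀ q * X (g j q) ^ (2 * mo j r) = 0) ∧
      ∀ ε : ℝ, 0 < ε → ∃ Y : ℕ, ∀ y : ℕ, Y ≤ y → ∃ lam : Fin w → ℝ,
        (∀ r, ∑' n, psiS (S j) (t (Sum.inl j)) (p j) y lam n * X n ^ (2 * mo j r) = 0) ∧
        ∑' n, ‖psiS (S j) (t (Sum.inl j)) (p j) y lam n - th (ν₀ j) (g j) x₀ n‖ ≤ ε := by
    intro j hj
    exact letterS (S j) (hS j) (t (Sum.inl j)) (ht _) (p j) (hp j) (ν₀ j) (by have := hν₀D j; omega) (g j) (hg j) (hgw j hj) (mo j) (hmo j)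
  have hlet' : ∀ j, ∃ x₀ : Fin (s j) → ℝ, j ∈ l' → ((∀ r, X (ν₀ j) ^ (2 * mo j r) + ∑ q, x₀ q * X (g j q) ^ (2 * mo j r) = 0) ∧
      ∀ ε : ℝ, 0 < ε → ∃ Y : ℕ, ∀ y : ℕ, Y ≤ y → ∃ lam : Fin w → ℝ,
        (∀ r, ∑' n, psiS (S j) (t (Sum.inl j)) (p j) y lam n * X n ^ (2 * mo j r) = 0) ∧
        ∑' n, ‖psiS (S j) (t (Sum.inl j)) (p j) y lam n - th (ν₀ j) (g j) x₀ n‖ ≤ ε) := by
    intro j
    by_cases hj : j ∈ l'
    · obtain ⟨x, hx⟩ := hlet j hj
      exact ⟨x, fun _ => hx⟩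
    · exact ⟨fun _ => 0, fun h => absurd h hj⟩
  choose x₀ hx₀ using hlet'
  set θ : Fin (d + 1) → ℕ → ℝ := fun i => if i ∈ l' then th (ν₀ i) (g i) (x₀ i) else dl (ν₀ i) with hθ
  have hθs : Sm θ := by
    intro i
    by_cases hi : i ∈ l'
    · simp only [hθ, hi, if_true]
      exact summable_th _ _ _
    · simp only [hθ, hi, if_false]
      exact summable_dl _
  have hval : OmK (KQ M tt c₀) θ = ct c₀ ν₀ * QQ M tt ν₀ := by
    have h1 := eval_QQ M tt s g x₀ c₀ l' (d + 1) ν₀ hν₀ hν₀D hl' (by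
      have := chain_idxOf l' hl' s μ hMs (d + 1) l' [] (by simp)
      simpa using this) (by
      intro ε j hj
      obtain ⟨q, hq⟩ := hmo' j ε
      have := (hx₀ j hj).1 q
      rw [hq] at this
      exact this)
    rw [hTh] at h1
    exact h1
  set Z : ℝ := |ct c₀ ν₀ * QQ M tt ν₀| with hZ
  have hZ0 : 0 < Z := abs_pos.2 (mul_ne_zero hct (QQ_ne M tt httM htt01 ν₀ hν₀))
  set Bd : ℝ := 1 + ∑ i, nn (θ i) with hBd
  have hBd1 : 1 ≤ Bd := by
    have : 0 ≤ ∑ i, nn (θ i) := Finset.sum_nonneg fun i _ => nn_nonneg _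
    linarith
  have hθB : ∀ i, nn (θ i) + 1 ≤ Bd := by
    intro i
    have := Finset.single_le_sum (f := fun i => nn (θ i)) (fun i _ => nn_nonneg _) (Finset.mem_univ i)
    linarith
  set T : ℝ := nc c₀ * Bd ^ (d + 1) * (d + 1) + 1 with hT
  have hT0 : 0 < T := by
    have := nc_nonneg c₀
    positivity
  set ε₀ : ℝ := min 1 (Z / (2 * T)) with hε₀
  have hε₀0 : 0 < ε₀ := lt_min one_pos (by positivity)
  -- the coefficients for all letters
  have hall : ∀ j, j ≠ a → ∃ Y : ℕ, ∀ y : ℕ, Y ≤ y → ∃ lam : Fin w → ℝ,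
      (j ∈ l' → ∀ ε, ∑' n, psiS (S j) (t (Sum.inl j)) (p j) y lam n * X n ^ (2 * mm M tt ε j) = 0) ∧
      ∑' n, ‖psiS (S j) (t (Sum.inl j)) (p j) y lam n - θ j n‖ ≤ ε₀ := by
    intro j hja
    by_cases hj : j ∈ l'
    · obtain ⟨Y, hY⟩ := (hx₀ j hj).2 ε₀ hε₀0
      refine ⟨Y, fun y hy => ?_⟩
      obtain ⟨lam, h1, h2⟩ := hY y hy
      refine ⟨lam, fun _ ε => ?_, ?_⟩
      · obtain ⟨q, hq⟩ := hmo' j ε
        have := h1 q
        rw [hq] at this
        exact this
      · simp only [hθ, hj, if_true]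
        exact h2
    · obtain ⟨x, -, hx⟩ := letterS (S j) (hS j) (t (Sum.inl j)) (ht _) (p j) (hp j) (ν₀ j) (by have := hν₀D j; omega) (s := 0)
        (fun q => q.elim0) (fun q => q.elim0) (fun q => q.elim0) (fun q => q.elim0) (fun q => q.elim0)
      obtain ⟨Y, hY⟩ := hx ε₀ hε₀0
      refine ⟨Y, fun y hy => ?_⟩
      obtain ⟨lam, -, h2⟩ := hY y hy
      refine ⟨lam, fun h => absurd h hj, ?_⟩
      simp only [hθ, hj, if_false]
      have e : th (ν₀ j) (fun q : Fin 0 => q.elim0) x = dl (ν₀ j) := by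
        funext n
        rw [th_eq]
        simp
      rw [← e]
      exact h2
  have hall' : ∀ j, ∃ Y : ℕ, j ≠ a → ∀ y : ℕ, Y ≤ y → ∃ lam : Fin w → ℝ,
      (j ∈ l' → ∀ ε, ∑' n, psiS (S j) (t (Sum.inl j)) (p j) y lam n * X n ^ (2 * mm M tt ε j) = 0) ∧
      ∑' n, ‖psiS (S j) (t (Sum.inl j)) (p j) y lam n - θ j n‖ ≤ ε₀ := by
    intro j
    by_cases hj : j = a
    · exact ⟨0, fun h => absurd hj h⟩
    · obtain ⟨Y, hY⟩ := hall j hj
      exact ⟨Y, fun _ => hY⟩
  choose Yf hYf using hall'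
  set J : ℕ := ∑ ε : PP (d + 1) → Fin 2, 2 * mm M tt ε a with hJ
  obtain ⟨YF, hYF⟩ := hFS bl J hbl
  refine ⟨YF + ∑ j, Yf j, ?_⟩
  intro y hy L hL E r hE K B hBK hB
  have hlam : ∀ j, ∃ lam : Fin w → ℝ, j ≠ a → ((j ∈ l' → ∀ ε, ∑' n, psiS (S j) (t (Sum.inl j)) (p j) (y j) lam n *
      X n ^ (2 * mm M tt ε j) = 0) ∧ ∑' n, ‖psiS (S j) (t (Sum.inl j)) (p j) (y j) lam n - θ j n‖ ≤ ε₀) := by
    intro j
    by_cases hj : j = a
    · exact ⟨fun _ => 0, fun h => absurd hj h⟩
    · have hYj := Finset.single_le_sum (f := Yf) (fun _ _ => Nat.zero_le _) (Finset.mem_univ j)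
      have hyj := hy j
      obtain ⟨lam, h⟩ := hYf j hj (y j) (by omega)
      exact ⟨lam, fun _ => h⟩
  choose lam' hlam' using hlam
  set lam : Fin (d + 1) → Fin w → ℝ := fun i => if i = a then fun k => if k = k0 then 1 else 0 else lam' i with hlamdef
  have hlam_ne : ∀ i, i ≠ a → lam i = lam' i := fun i hi => by simp only [hlamdef, hi, if_false]
  have hpsia : ∀ n, psiS (S a) (t (Sum.inl a)) (p a) (y a) (lam a) n = S a n * X n ^ (2 * y a + p a + 2 * t (Sum.inl a) k0) := by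
    intro n
    rw [psiS]
    congr 1
    simp only [psi, hlamdef, if_true]
    rw [Finset.sum_eq_single k0]
    · rw [if_pos rfl, one_mul, ← pow_add]
    · intro k _ hk'
      rw [if_neg hk', zero_mul]
    · intro h
      exact absurd (Finset.mem_univ _) h
  -- the functions
  set φ₁ : Fin (d + 1) → ℕ → ℝ := fun i => if i = a then dl (ν₀ a) else psiS (S i) (t (Sum.inl i)) (p i) (y i) (lam i) with hφ₁
  have hφ₁s : Sm φ₁ := by
    intro i
    by_cases hi : i = a
    · simp only [hφ₁, hi, if_true]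
      exact summable_dl _
    · simp only [hφ₁, hi, if_false]
      exact summable_psiS _ (hS i) _ _ _ (hp i) _
  let fb : ℕ → ℕ → ℝ := fun b n => X n ^ (2 * b) * psiS (S a) (t (Sum.inl a)) (p a) (y a) (lam a) n
  have hfb : ∀ b, Summable fun n => ‖fb b n‖ := by
    intro b
    refine Summable.of_nonneg_of_le (fun n => norm_nonneg _) (fun n => ?_) (summable_psiS (S a) (hS a) (t (Sum.inl a)) (p a) (y a) (hp a) (lam a))
    rw [norm_mul, Real.norm_of_nonneg (pow_nonneg (X_pos n).le _)]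
    exact mul_le_of_le_one_left (norm_nonneg _) (pow_le_one₀ (X_pos n).le (X_le n))
  obtain ⟨om, hom⟩ := factor M tt httM c₀ a hc₀a φ₁ hφ₁s
  set W : ℝ[X] := ∑ ε : PP (d + 1) → Fin 2, C (sgn ε * om ε) * Polynomial.X ^ (2 * mm M tt ε a) with hW
  set Pp : ℕ := 2 * y a + p a + 2 * t (Sum.inl a) k0 with hPp
  have hPpe : Even Pp := by
    rw [hPp]
    obtain ⟨x, hx⟩ := hpa
    exact ⟨y a + x + t (Sum.inl a) k0, by omega⟩
  have hPp2 : 2 ≤ Pp := by
    have := hp a
    omega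
  -- the relation
  let χ : ((Fin (d + 1) ⊕ PP (d + 1)) → Fin w) → ℝ := fun e =>
    (∏ i, lam i (e (Sum.inl i))) * ∏ q : PP (d + 1), sw k0 k1 (e (Sum.inr q))
  have hrel : ∀ b, ∑ e, χ e * GS S c (aa p y M t a e b) = pzs (S a) (Polynomial.X ^ (2 * b + Pp) * W) := by
    intro b
    have haa : ∀ e i, 2 ≤ aa p y M t a e b i := by
      intro e i
      have := hp i
      unfold aa
      omega
    have h1 : HasSum (fun ν : Fin (d + 1) → ℕ => ∑ e, χ e * (ct c ν * ∏ i, (S i (ν i) * X (ν i) ^ aa p y M t a e b i)))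
        (∑ e, χ e * GS S c (aa p y M t a e b)) := hasSum_sum fun e _ => (hasSum_GS S hS c _ (haa e)).mul_left _
    have h2 : ∀ ν : Fin (d + 1) → ℕ, ∑ e, χ e * (ct c ν * ∏ i, (S i (ν i) * X (ν i) ^ aa p y M t a e b i)) =
        KQ M tt c ν * ∏ i, (Function.update φ₁ a (fb b)) i (ν i) := by
      intro ν
      have h3 := sum_e k0 k1 hk p y M t a b lam ν
      have h4 : ∑ e, χ e * (ct c ν * ∏ i, (S i (ν i) * X (ν i) ^ aa p y M t a e b i)) =
          ct c ν * (∏ i, S i (ν i)) * ∑ e, χ e * ∏ i, X (ν i) ^ aa p y M t a e b i := by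
        rw [Finset.mul_sum]
        refine Finset.sum_congr rfl fun e _ => ?_
        rw [Finset.prod_mul_distrib]
        ring
      have h5 : ∏ i, (Function.update φ₁ a (fb b)) i (ν i) = (∏ i, S i (ν i)) *
          ∏ i, ((if i = a then X (ν i) ^ (2 * b) else 1) * psi (t (Sum.inl i)) (p i) (y i) (lam i) (ν i)) := by
        rw [← Finset.prod_mul_distrib]
        refine Finset.prod_congr rfl fun i _ => ?_
        by_cases hi : i = a
        · subst hi
          rw [if_pos rfl, Function.update_self]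
          simp only [fb, psiS]
          ring
        · rw [if_neg hi, Function.update_of_ne hi, one_mul]
          simp only [hφ₁, hi, if_false, psiS]
      rw [h4, h3, KQ, h5]
      ring
    simp only [h2] at h1
    have hSmb := Sm_update φ₁ hφ₁s a (fb b) (hfb b)
    have h5 : ∑ e, χ e * GS S c (aa p y M t a e b) = OmK (KQ M tt c) (Function.update φ₁ a (fb b)) := h1.tsum_eq.symm
    have h6 : OmK (KQ M tt c) (Function.update φ₁ a (fb b)) = OmK (KQ M tt c₀) (Function.update φ₁ a (fb b)) +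
        OmK (KQ M tt (c - c₀)) (Function.update φ₁ a (fb b)) := by
      rw [OmK, OmK, OmK, ← (OmK_summable _ _ (KQ_le M tt c₀) _ hSmb).tsum_add (OmK_summable _ _ (KQ_le M tt (c - c₀)) _ hSmb)]
      refine tsum_congr fun ν => ?_
      rw [KQ, KQ, KQ, ct_sub]
      ring
    have h7 : OmK (KQ M tt (c - c₀)) (Function.update φ₁ a (fb b)) = 0 := by
      apply kill M tt httM _ hSmb l' _ _ hcc
      intro j hj ε
      have hja : j ≠ a := fun h => hal (h ▸ hj)
      rw [Function.update_of_ne hja]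
      simp only [hφ₁, hja, if_false]
      rw [hlam_ne j hja]
      exact (hlam' j hja).1 hj ε
    rw [h5, h6, h7, add_zero, hom (fb b) (hfb b), hW, Finset.mul_sum, map_sum]
    refine Finset.sum_congr rfl fun ε _ => ?_
    have h8 : ∑' n, fb b n * X n ^ (2 * mm M tt ε a) = zs (S a) (2 * b + Pp + 2 * mm M tt ε a) := by
      rw [zs]
      refine tsum_congr fun n => ?_
      simp only [fb]
      rw [hpsia, pow_add (X n) (2 * b + Pp), pow_add (X n) (2 * b)]
      ring
    have h9 : (Polynomial.X : ℝ[X]) ^ (2 * b + Pp) * (C (sgn ε * om ε) * Polynomial.X ^ (2 * mm M tt ε a)) =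
        C (sgn ε * om ε) * Polynomial.X ^ (2 * b + Pp + 2 * mm M tt ε a) := by
      rw [pow_add _ (2 * b + Pp)]
      ring
    rw [h8, h9, pzs_C_mul_X_pow]
    ring
  -- the space
  set Nn := Fintype.card ((Fin (d + 1) ⊕ PP (d + 1)) → Fin w) with hNn
  have hNn' : Nn = w ^ (Fintype.card (Fin (d + 1) ⊕ PP (d + 1))) := by
    rw [hNn, Fintype.card_fun, Fintype.card_fin]
  let en := Fintype.equivFin ((Fin (d + 1) ⊕ PP (d + 1)) → Fin w)
  let cf : ℕ → ℝ := fun n => if h : n < Nn then χ (en.symm ⟨n, h⟩) else 0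
  have hcf : ∀ e, cf (en e : ℕ) = χ e := by
    intro e
    simp only [cf]
    rw [dif_pos (en e).2]
    simp
  have hrank := All.rank_SS E cf r hE Nn
  have hmem : ∀ b ∈ B, pzs (S a) (Polynomial.X ^ (2 * b + Pp) * W) ∈ All.SS E cf Nn := by
    intro b hb
    rw [← hrel b]
    apply Submodule.sum_mem
    intro e _
    rw [← hcf e]
    exact All.mem_SS E cf Nn _ (en e).2 _ (hB b hb e)
  by_cases hW0 : W = 0
  · exfalso
    have h1 : OmK (KQ M tt c₀) φ₁ = 0 := by
      have h2 := hom (dl (ν₀ a)) (summable_dl _)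
      have h3 : Function.update φ₁ a (dl (ν₀ a)) = φ₁ := by
        funext i
        by_cases hi : i = a
        · subst hi
          rw [Function.update_self]
          simp only [hφ₁, if_true]
        · rw [Function.update_of_ne hi]
      rw [h3] at h2
      rw [h2]
      have h4 : W.eval (X (ν₀ a)) = 0 := by rw [hW0]; simp
      rw [hW, Polynomial.eval_finsetSum] at h4
      rw [← h4]
      refine Finset.sum_congr rfl fun ε _ => ?_
      have h5 : ∑' n, dl (ν₀ a) n * X n ^ (2 * mm M tt ε a) = X (ν₀ a) ^ (2 * mm M tt ε a) := by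
        rw [tsum_eq_single (ν₀ a)]
        · simp [dl]
        · intro n hn
          rw [dl, if_neg hn, zero_mul]
      rw [h5, Polynomial.eval_mul, Polynomial.eval_C, Polynomial.eval_pow, Polynomial.eval_X]
      ring
    have hclose : ∀ i, nn (fun n => φ₁ i n - θ i n) ≤ ε₀ := by
      intro i
      by_cases hi : i = a
      · have e : (fun n => φ₁ i n - θ i n) = fun _ => 0 := by
          funext n
          simp only [hφ₁, hθ, hi, if_true, hal, if_false, sub_self]
        rw [e, nn]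
        simp only [norm_zero, tsum_zero]
        exact hε₀0.le
      · have h2 := (hlam' i hi).2
        have e : (fun n => φ₁ i n - θ i n) = fun n => psiS (S i) (t (Sum.inl i)) (p i) (y i) (lam' i) n - θ i n := by
          funext n
          simp only [hφ₁, hi, if_false]
          rw [hlam_ne i hi]
        rw [e]
        exact h2
    have hφB : ∀ i, nn (φ₁ i) ≤ Bd := by
      intro i
      have h2 := nn_le_add (φ₁ i) (θ i) (hφ₁s i) (hθs i)
      have h3 := hclose i
      have h4 := hθB i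
      have h5 : ε₀ ≤ 1 := min_le_left _ _
      linarith
    have h2 := OmK_close (KQ M tt c₀) (nc c₀) (nc_nonneg c₀) (KQ_le M tt c₀) φ₁ θ hφ₁s hθs Bd hBd1 hφB
      (fun i => by have := hθB i; linarith)
    rw [h1, hval, zero_sub, abs_neg, ← hZ] at h2
    have h3 : ∑ i, nn (fun n => φ₁ i n - θ i n) ≤ (d + 1) * ε₀ := by
      calc _ ≤ ∑ _i : Fin (d + 1), ε₀ := Finset.sum_le_sum fun i _ => hclose i
        _ = (d + 1) * ε₀ := by simp
    have h4 : Z ≤ T * ε₀ := by
      have h5 : 0 ≤ nc c₀ * Bd ^ (d + 1) := mul_nonneg (nc_nonneg c₀) (by positivity)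
      calc Z ≤ _ := h2
        _ ≤ nc c₀ * Bd ^ (d + 1) * ((d + 1) * ε₀) := mul_le_mul_of_nonneg_left h3 h5
        _ ≤ T * ε₀ := by
            rw [hT]
            nlinarith
    have h5 : ε₀ ≤ Z / (2 * T) := min_le_right _ _
    have h6 : T * ε₀ ≤ Z / 2 := by
      calc T * ε₀ ≤ T * (Z / (2 * T)) := mul_le_mul_of_nonneg_left h5 hT0.le
        _ = Z / 2 := by field_simp
    linarith
  · have hsupp : W.support ⊆ Finset.univ.image fun ε : PP (d + 1) → Fin 2 => 2 * mm M tt ε a := by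
      intro k hk'
      rw [Finset.mem_image]
      by_contra hcon
      push Not at hcon
      rw [Polynomial.mem_support_iff] at hk'
      apply hk'
      rw [hW, Polynomial.finsetSum_coeff]
      apply Finset.sum_eq_zero
      intro ε _
      rw [Polynomial.coeff_C_mul_X_pow, if_neg]
      exact fun h => hcon ε (Finset.mem_univ ε) h.symm
    have hcard : W.support.card ≤ μ := by
      refine (Finset.card_le_card hsupp).trans (Finset.card_image_le.trans ?_)
      rw [Finset.card_univ, Fintype.card_fun, Fintype.card_fin]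
    have h1 := hYF Pp (by have := hy a; omega) hPpe L hL (All.SS E cf Nn) (Nn * r) hrank W hW0 (fun k hk' => by
      obtain ⟨ε, -, rfl⟩ := Finset.mem_image.1 (hsupp hk')
      exact ⟨even_two_mul _, Finset.single_le_sum (f := fun ε : PP (d + 1) → Fin 2 => 2 * mm M tt ε a)
        (fun _ _ => Nat.zero_le _) (Finset.mem_univ ε)⟩) K B hBK hmem
    rw [← hNn']
    exact lt_of_lt_of_le h1 (Nat.add_le_add_left (Nat.mul_le_mul_right _ hcard) _)

end Pool.Agent.H491.Der
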