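import Mathlib
import Pool.Agent.H491.Der6

set_option autoImplicit false

/-! # The kernel without the factors of one pair of letters -/

namespace Pool.Agent.H491.Der

open Filter Topology

variable {D : ℕ}

theorem ct_zero (c : V D) (ν : Fin D → ℕ) (h : ¬ Function.Injective ν) : ct c ν = 0 := by
  classical
  rw [ct]
  apply Finset.sum_eq_zero
  intro σ _
  rw [if_neg]
  exact fun h' => h (sa_inj ν σ h')

/-- the pair `p` consists of `a` and `b` -/
def isP (a b : Fin D) (p : PP D) : Prop := (p.1.1 = a ∧ p.1.2 = b) ∨ (p.1.1 = b ∧ p.1.2 = a)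

instance (a b : Fin D) (p : PP D) : Decidable (isP a b p) := by unfold isP; infer_instance

/-- the weights of the factors -/
def SP (a b : Fin D) (p : PP D) (k : Fin 2) : ℝ := if isP a b p then (if k = 0 then 1 else 0) else (-1 : ℝ) ^ (k : ℕ)

/-- the factor that kills the merged terms except those of `a` and `b` -/
noncomputable def QG (a b : Fin D) (M : ℕ) (tt : PP D → Fin 2 → ℕ) (ν : Fin D → ℕ) : ℝ :=
  ∏ p : PP D, ∑ k : Fin 2, SP a b p k * (X (ν p.1.1) ^ (2 * tt p k) * X (ν p.1.2) ^ (2 * (M - tt p k)))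

/-- the coefficient of a corner -/
def sgG (a b : Fin D) (ε : PP D → Fin 2) : ℝ := ∏ p, SP a b p (ε p)

theorem QG_expand (a b : Fin D) (M : ℕ) (tt : PP D → Fin 2 → ℕ) (ν : Fin D → ℕ) :
    QG a b M tt ν = ∑ ε : PP D → Fin 2, sgG a b ε * ∏ i, X (ν i) ^ (2 * mm M tt ε i) := by
  rw [QG, Finset.prod_univ_sum, Fintype.piFinset_univ]
  refine Finset.sum_congr rfl fun ε _ => ?_
  rw [Finset.prod_mul_distrib, mm_prod M tt ε fun i => X (ν i)]
  rfl

theorem QG_le (a b : Fin D) (M : ℕ) (tt : PP D → Fin 2 → ℕ) (ν : Fin D → ℕ) : |QG a b M tt ν| ≤ 1 := by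
  rw [QG, Finset.abs_prod]
  apply Finset.prod_le_one (fun _ _ => abs_nonneg _)
  intro p _
  rw [Fin.sum_univ_two]
  have h : ∀ k, 0 ≤ X (ν p.1.1) ^ (2 * tt p k) * X (ν p.1.2) ^ (2 * (M - tt p k)) ∧
      X (ν p.1.1) ^ (2 * tt p k) * X (ν p.1.2) ^ (2 * (M - tt p k)) ≤ 1 := by
    intro k
    have h1 := pow_nonneg (X_pos (ν p.1.1)).le (2 * tt p k)
    have h2 := pow_nonneg (X_pos (ν p.1.2)).le (2 * (M - tt p k))
    have h3 := pow_le_one₀ (n := 2 * tt p k) (X_pos (ν p.1.1)).le (X_le _)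
    have h4 := pow_le_one₀ (n := 2 * (M - tt p k)) (X_pos (ν p.1.2)).le (X_le _)
    exact ⟨mul_nonneg h1 h2, mul_le_one₀ h3 h2 h4⟩
  obtain ⟨h1, h2⟩ := h 0
  obtain ⟨h3, h4⟩ := h 1
  by_cases h5 : isP a b p
  · have e0 : SP a b p 0 = 1 := by simp [SP, h5]
    have e1 : SP a b p 1 = 0 := by simp [SP, h5]
    rw [e0, e1, zero_mul, add_zero, one_mul, abs_of_nonneg h1]
    exact h2
  · have e0 : SP a b p 0 = 1 := by simp [SP, h5]
    have e1 : SP a b p 1 = -1 := by simp [SP, h5]
    rw [e0, e1, abs_le]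
    constructor <;> linarith

theorem QG_zero (a b : Fin D) (M : ℕ) (tt : PP D → Fin 2 → ℕ) (htM : ∀ p k, tt p k ≤ M) (ν : Fin D → ℕ) (i j : Fin D)
    (hij : i ≠ j) (hne : ¬ isP a b ⟨(i, j), hij⟩) (h : ν i = ν j) : QG a b M tt ν = 0 := by
  rw [QG]
  apply Finset.prod_eq_zero (Finset.mem_univ (⟨(i, j), hij⟩ : PP D))
  rw [Fin.sum_univ_two]
  unfold SP
  rw [if_neg hne, if_neg hne]
  simp only [h, ← pow_add]
  have e : ∀ k, 2 * tt ⟨(i, j), hij⟩ k + 2 * (M - tt ⟨(i, j), hij⟩ k) = 2 * M := by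
    intro k
    have := htM ⟨(i, j), hij⟩ k
    omega
  rw [e, e]
  simp

theorem QG_ne (a b : Fin D) (M : ℕ) (tt : PP D → Fin 2 → ℕ) (htM : ∀ p k, tt p k ≤ M) (htt : ∀ p, tt p 0 ≠ tt p 1)
    (ν : Fin D → ℕ) (h : ∀ i j (hij : i ≠ j), ¬ isP a b ⟨(i, j), hij⟩ → ν i ≠ ν j) : QG a b M tt ν ≠ 0 := by
  rw [QG, Finset.prod_ne_zero_iff]
  intro p _
  rw [Fin.sum_univ_two]
  by_cases hp : isP a b p
  · have e0 : SP a b p 0 = 1 := by simp [SP, hp]
    have e1 : SP a b p 1 = 0 := by simp [SP, hp]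
    rw [e0, e1, zero_mul, add_zero, one_mul]
    exact (mul_pos (pow_pos (X_pos _) _) (pow_pos (X_pos _) _)).ne'
  · unfold SP
    rw [if_neg hp, if_neg hp]
    simp only [Fin.val_zero, pow_zero, one_mul, Fin.val_one, pow_one, neg_mul]
    intro h0
    have hne : X (ν p.1.1) ≠ X (ν p.1.2) := fun h' => h p.1.1 p.1.2 p.2 hp (X_inj h')
    have h1 : X (ν p.1.1) ^ (2 * tt p 0) * X (ν p.1.2) ^ (2 * (M - tt p 0)) =
        X (ν p.1.1) ^ (2 * tt p 1) * X (ν p.1.2) ^ (2 * (M - tt p 1)) := by linarith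
    have key : ∀ (x y : ℝ) (s s' : ℕ), 0 < x → 0 < y → x ≠ y → s ≤ M → s' ≤ M → s < s' →
        x ^ (2 * s) * y ^ (2 * (M - s)) ≠ x ^ (2 * s') * y ^ (2 * (M - s')) := by
      intro x y s s' hx hy hxy hs hs' hss h2
      have e1 : 2 * (M - s) = 2 * (M - s') + 2 * (s' - s) := by omega
      have e2 : 2 * s' = 2 * s + 2 * (s' - s) := by omega
      rw [e1, e2, pow_add, pow_add] at h2
      have h3 : y ^ (2 * (s' - s)) = x ^ (2 * (s' - s)) := by
        have hx' := (pow_pos hx (2 * s)).ne'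
        have hy' := (pow_pos hy (2 * (M - s'))).ne'
        have h4 : (x ^ (2 * s) * y ^ (2 * (M - s'))) * y ^ (2 * (s' - s)) = (x ^ (2 * s) * y ^ (2 * (M - s'))) * x ^ (2 * (s' - s)) := by
          linarith
        exact mul_left_cancel₀ (mul_ne_zero hx' hy') h4
      have h5 := (pow_left_inj₀ hy.le hx.le (by omega)).1 h3
      exact hxy h5.symm
    rcases lt_or_gt_of_ne (htt p) with h2 | h2
    · exact key _ _ _ _ (X_pos _) (X_pos _) hne (htM _ _) (htM _ _) h2 h1
    · exact key _ _ _ _ (X_pos _) (X_pos _) hne (htM _ _) (htM _ _) h2 h1.symm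

/-- the kernel -/
noncomputable def KG (a b : Fin D) (M : ℕ) (tt : PP D → Fin 2 → ℕ) (c : V D) (ν : Fin D → ℕ) : ℝ := ct c ν * QG a b M tt ν

theorem KG_le (a b : Fin D) (M : ℕ) (tt : PP D → Fin 2 → ℕ) (c : V D) (ν : Fin D → ℕ) : |KG a b M tt c ν| ≤ nc c := by
  rw [KG, abs_mul]
  exact (mul_le_of_le_one_right (abs_nonneg _) (QG_le _ _ _ _ _)).trans (ct_le c ν)

theorem factorG {d : ℕ} (a b : Fin (d + 1)) (M : ℕ) (tt : PP (d + 1) → Fin 2 → ℕ) (htM : ∀ p k, tt p k ≤ M) (c : V (d + 1))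
    (j : Fin (d + 1)) (hja : j ≠ a) (hjb : j ≠ b)
    (hc : c ∈ U j) (φ : Fin (d + 1) → ℕ → ℝ) (hφ : Sm φ) :
    ∃ om : (PP (d + 1) → Fin 2) → ℝ, ∀ f : ℕ → ℝ, (Summable fun n => ‖f n‖) →
      OmK (KG a b M tt c) (Function.update φ j f) =
        ∑ ε, sgG a b ε * (∑' n, f n * X n ^ (2 * mm M tt ε j)) * om ε := by
  let K : (Fin d → ℕ) → ℝ := fun ν' => ct c (j.insertNth (1 + ∑ i, ν' i) ν' : Fin (d + 1) → ℕ)
  let H : (PP (d + 1) → Fin 2) → (Fin d → ℕ) → ℝ := fun ε ν' =>
    K ν' * ∏ i, (X (ν' i) ^ (2 * mm M tt ε (j.succAbove i)) * φ (j.succAbove i) (ν' i))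
  refine ⟨fun ε => ∑' ν', H ε ν', fun f hf => ?_⟩
  have hKle : ∀ ν', |K ν'| ≤ nc c := fun ν' => ct_le c _
  have hbig : ∀ (ν' : Fin d → ℕ) (k : Fin d), ν' k < 1 + ∑ i, ν' i := by
    intro ν' k
    have := Finset.single_le_sum (f := ν') (fun _ _ => Nat.zero_le _) (Finset.mem_univ k)
    omega
  have hinj : ∀ (ν' : Fin d → ℕ) (n : ℕ), Function.Injective (j.insertNth n ν' : Fin (d + 1) → ℕ) ↔
      Function.Injective ν' ∧ ∀ k, ν' k ≠ n := by
    intro ν' n
    constructor
    · intro h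
      constructor
      · intro x y hxy
        have := h (a₁ := j.succAbove x) (a₂ := j.succAbove y) (by simpa using hxy)
        exact Fin.succAbove_right_injective this
      · intro k hk
        have := h (a₁ := j.succAbove k) (a₂ := j) (by simpa using hk)
        exact Fin.succAbove_ne j k this
    · rintro ⟨h1, h2⟩ x y hxy
      induction x using Fin.succAboveCases j with
      | x =>
        induction y using Fin.succAboveCases j with
        | x => rfl
        | p i =>
          simp only [Fin.insertNth_apply_same, Fin.insertNth_apply_succAbove] at hxy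
          exact absurd hxy.symm (h2 i)
      | p i =>
        induction y using Fin.succAboveCases j with
        | x =>
          simp only [Fin.insertNth_apply_same, Fin.insertNth_apply_succAbove] at hxy
          exact absurd hxy (h2 i)
        | p i' =>
          simp only [Fin.insertNth_apply_succAbove] at hxy
          rw [h1 hxy]
  have hK : ∀ (ν' : Fin d → ℕ) (n : ℕ), KG a b M tt c (j.insertNth n ν') = K ν' * QG a b M tt (j.insertNth n ν') := by
    intro ν' n
    rw [KG]
    by_cases h : Function.Injective (j.insertNth n ν' : Fin (d + 1) → ℕ)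
    · congr 1
      apply ct_of_U j c hc _ _ h
      · rw [hinj]
        exact ⟨((hinj _ _).1 h).1, fun k => (hbig ν' k).ne⟩
      · intro k hk
        obtain ⟨i, rfl⟩ := Fin.exists_succAbove_eq hk
        simp
    · rw [ct_zero c _ h, zero_mul]
      by_cases h' : Function.Injective ν'
      · rw [hinj] at h
        push Not at h
        obtain ⟨k, hk⟩ := h h'
        have h1 : j.succAbove k ≠ j := Fin.succAbove_ne j k
        rw [QG_zero a b M tt htM _ (j.succAbove k) j h1, mul_zero]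
        · unfold isP
          rintro (⟨-, h2⟩ | ⟨-, h2⟩)
          · exact hjb h2
          · exact hja h2
        · simpa using hk
      · have h2 : K ν' = 0 := by
          apply ct_zero
          intro h3
          exact h' ((hinj _ _).1 h3).1
        rw [h2, zero_mul]
  have hSmf := Sm_update φ hφ j f hf
  have hsum := OmK_summable (KG a b M tt c) (nc c) (KG_le a b M tt c) _ hSmf
  rw [OmK, tsum_insertNth j _ hsum]
  have hfX : ∀ m : ℕ, Summable fun n => f n * X n ^ (2 * m) := by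
    intro m
    refine Summable.of_norm_bounded hf fun n => ?_
    rw [norm_mul, Real.norm_of_nonneg (pow_nonneg (X_pos n).le _)]
    exact mul_le_of_le_one_right (norm_nonneg _) (pow_le_one₀ (X_pos n).le (X_le n))
  have hinner : ∀ ν' : Fin d → ℕ, ∑' n, KG a b M tt c (j.insertNth n ν') * ∏ i, (Function.update φ j f) i
      ((j.insertNth n ν' : Fin (d + 1) → ℕ) i) = ∑ ε, sgG a b ε * (∑' n, f n * X n ^ (2 * mm M tt ε j)) * H ε ν' := by
    intro ν'
    have e : ∀ n, KG a b M tt c (j.insertNth n ν') * ∏ i, (Function.update φ j f) i ((j.insertNth n ν' : Fin (d + 1) → ℕ) i) =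
        ∑ ε, (sgG a b ε * H ε ν') * (f n * X n ^ (2 * mm M tt ε j)) := by
      intro n
      rw [hK, QG_expand, Fin.prod_univ_succAbove _ j, Finset.mul_sum, Finset.sum_mul]
      refine Finset.sum_congr rfl fun ε _ => ?_
      rw [Fin.prod_univ_succAbove _ j]
      simp only [Fin.insertNth_apply_same, Fin.insertNth_apply_succAbove, Function.update_self,
        Function.update_of_ne (Fin.succAbove_ne j _), H]
      rw [Finset.prod_mul_distrib]
      ring
    simp only [e]
    rw [Summable.tsum_finsetSum fun ε _ => (hfX _).mul_left _]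
    refine Finset.sum_congr rfl fun ε _ => ?_
    rw [tsum_mul_left]
    ring
  simp only [hinner]
  have hH : ∀ ε, Summable (H ε) := by
    intro ε
    apply OmK_summable K (nc c) hKle (fun i n => X n ^ (2 * mm M tt ε (j.succAbove i)) * φ (j.succAbove i) n)
    intro i
    refine Summable.of_nonneg_of_le (fun n => norm_nonneg _) (fun n => ?_) (hφ (j.succAbove i))
    rw [norm_mul, Real.norm_of_nonneg (pow_nonneg (X_pos n).le _)]
    exact mul_le_of_le_one_left (norm_nonneg _) (pow_le_one₀ (X_pos n).le (X_le n))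
  rw [Summable.tsum_finsetSum fun ε _ => (hH ε).mul_left _]
  refine Finset.sum_congr rfl fun ε _ => ?_
  rw [tsum_mul_left]

theorem killG {d : ℕ} (a b : Fin (d + 1)) (M : ℕ) (tt : PP (d + 1) → Fin 2 → ℕ) (htM : ∀ p k, tt p k ≤ M)
    (φ : Fin (d + 1) → ℕ → ℝ) (hφ : Sm φ) (l : List (Fin (d + 1))) (hla : a ∉ l) (hlb : b ∉ l)
    (hl : ∀ j ∈ l, ∀ ε, ∑' n, φ j n * X n ^ (2 * mm M tt ε j) = 0) (c : V (d + 1)) (hc : c ∈ UU l) :
    OmK (KG a b M tt c) φ = 0 := by
  let S : Submodule ℚ (V (d + 1)) :=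
    { carrier := {c | OmK (KG a b M tt c) φ = 0}
      add_mem' := by
        intro c c' h h'
        simp only [Set.mem_ofPred_eq] at h h' ⊢
        have e : OmK (KG a b M tt (c + c')) φ = OmK (KG a b M tt c) φ + OmK (KG a b M tt c') φ := by
          rw [OmK, OmK, OmK, ← (OmK_summable _ _ (KG_le a b M tt c) φ hφ).tsum_add (OmK_summable _ _ (KG_le a b M tt c') φ hφ)]
          refine tsum_congr fun ν => ?_
          rw [KG, KG, KG, ct_add]
          ring
        rw [e, h, h', add_zero]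
      zero_mem' := by
        simp only [Set.mem_ofPred_eq]
        rw [OmK]
        have : ∀ ν : Fin (d + 1) → ℕ, KG a b M tt 0 ν * ∏ i, φ i (ν i) = 0 := by
          intro ν
          rw [KG, ct]
          simp
        simp only [this, tsum_zero]
      smul_mem' := by
        intro q c h
        simp only [Set.mem_ofPred_eq] at h ⊢
        have e : OmK (KG a b M tt (q • c)) φ = (q : ℝ) * OmK (KG a b M tt c) φ := by
          rw [OmK, OmK, ← tsum_mul_left]
          refine tsum_congr fun ν => ?_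
          have : ct (q • c) ν = (q : ℝ) * ct c ν := by
            classical
            rw [ct, ct, Finset.mul_sum]
            refine Finset.sum_congr rfl fun σ _ => ?_
            split_ifs
            · simp
            · simp
          rw [KG, KG, this]
          ring
        rw [e, h, mul_zero] }
  have h1 : UU l ≤ S := by
    refine iSup₂_le fun j hj => fun c hc => ?_
    obtain ⟨om, hom⟩ := factorG a b M tt htM c j (fun h => hla (h ▸ hj)) (fun h => hlb (h ▸ hj)) hc φ hφ
    have h2 := hom (φ j) (hφ j)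
    rw [Function.update_eq_self] at h2
    change OmK (KG a b M tt c) φ = 0
    rw [h2]
    apply Finset.sum_eq_zero
    intro ε _
    rw [hl j hj ε, mul_zero, zero_mul]
  exact h1 hc

theorem ins_eq {d : ℕ} (a : Fin (d + 1)) (n : ℕ) (ν' : Fin d → ℕ) :
    (a.insertNth n ν' : Fin (d + 1) → ℕ) = Function.update (a.insertNth 0 ν' : Fin (d + 1) → ℕ) a n := by
  funext i
  refine Fin.succAboveCases a ?_ (fun i => ?_) i
  · simp
  · rw [Function.update_of_ne (Fin.succAbove_ne a i)]
    simp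

/-- a coordinate on which the kernel does not depend -/
theorem sep {d : ℕ} (K : (Fin (d + 1) → ℕ) → ℝ) (C : ℝ) (hK : ∀ ν, |K ν| ≤ C) (a : Fin (d + 1))
    (hKa : ∀ ν n, K (Function.update ν a n) = K ν) (φ : Fin (d + 1) → ℕ → ℝ) (hφ : Sm φ) (f : ℕ → ℝ)
    (hf : Summable fun n => ‖f n‖) :
    OmK K (Function.update φ a f) = (∑' n, f n) * OmK K (Function.update φ a (dl 0)) := by
  have key : ∀ g : ℕ → ℝ, (Summable fun n => ‖g n‖) → OmK K (Function.update φ a g) =
      (∑' n, g n) * ∑' ν' : Fin d → ℕ, (K (a.insertNth 0 ν') * ∏ i, φ (a.succAbove i) (ν' i)) := by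
    intro g hg
    rw [OmK, tsum_insertNth a _ (OmK_summable K C hK _ (Sm_update φ hφ a g hg)), ← tsum_mul_left]
    refine tsum_congr fun ν' => ?_
    rw [← tsum_mul_right]
    refine tsum_congr fun n => ?_
    rw [ins_eq a n ν', hKa, Fin.prod_univ_succAbove _ a]
    simp only [Function.update_self, Function.update_of_ne (Fin.succAbove_ne a _), Fin.insertNth_apply_succAbove]
    ring
  rw [key f hf, key (dl 0) (summable_dl 0)]
  have h1 : ∑' n, dl 0 n = 1 := by
    rw [tsum_eq_single 0]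
    · simp [dl]
    · intro n hn
      rw [dl, if_neg hn]
  rw [h1, one_mul]

/-- the diagonal terms -/
theorem diag {d : ℕ} (K : (Fin (d + 1) → ℕ) → ℝ) (C : ℝ) (hK : ∀ ν, |K ν| ≤ C) (a b : Fin (d + 1)) (hab : a ≠ b)
    (hKa : ∀ ν n, K (Function.update ν a n) = K ν) (φ : Fin (d + 1) → ℕ → ℝ) (hφ : Sm φ) (f h : ℕ → ℝ)
    (hf : Summable fun n => ‖f n‖) (hh : Summable fun n => ‖h n‖) :
    OmK (fun ν => if ν a = ν b then K ν else 0) (Function.update (Function.update φ a f) b h) =
      OmK K (Function.update (Function.update φ a (dl 0)) b fun n => f n * h n) := by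
  have hC : 0 ≤ C := (abs_nonneg _).trans (hK 0)
  have hK' : ∀ ν : Fin (d + 1) → ℕ, |if ν a = ν b then K ν else 0| ≤ C := by
    intro ν
    split_ifs
    · exact hK ν
    · simpa using hC
  have hfh : Summable fun n => ‖f n * h n‖ := by
    have h1 : ∀ n, ‖f n‖ ≤ ∑' n, ‖f n‖ := fun n => hf.le_tsum n fun _ _ => norm_nonneg _
    refine Summable.of_nonneg_of_le (fun n => norm_nonneg _) (fun n => ?_) (hh.mul_left (∑' n, ‖f n‖))
    rw [norm_mul]
    exact mul_le_mul_of_nonneg_right (h1 n) (norm_nonneg _)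
  have hs1 := OmK_summable _ C hK' _ (Sm_update _ (Sm_update φ hφ a f hf) b h hh)
  have hs2 := OmK_summable _ C hK _ (Sm_update _ (Sm_update φ hφ a (dl 0) (summable_dl 0)) b _ hfh)
  rw [OmK, OmK, tsum_insertNth a _ hs1, tsum_insertNth a _ hs2]
  refine tsum_congr fun ν' => ?_
  obtain ⟨b', rfl⟩ := Fin.exists_succAbove_eq hab.symm
  have hprod : ∀ (g h : ℕ → ℝ) (n : ℕ), ∏ i, (Function.update (Function.update φ a g) (a.succAbove b') h) i
      ((a.insertNth n ν' : Fin (d + 1) → ℕ) i) =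
      g n * (h (ν' b') * ∏ i ∈ Finset.univ.erase b', φ (a.succAbove i) (ν' i)) := by
    intro g h n
    rw [Fin.prod_univ_succAbove _ a, Function.update_of_ne (Fin.succAbove_ne a b').symm, Function.update_self,
      Fin.insertNth_apply_same]
    congr 1
    rw [← Finset.mul_prod_erase _ _ (Finset.mem_univ b')]
    simp only [Function.update_self, Fin.insertNth_apply_succAbove]
    congr 1
    refine Finset.prod_congr rfl fun i hi => ?_
    have h1 : a.succAbove i ≠ a.succAbove b' := fun h' => (Finset.ne_of_mem_erase hi) (Fin.succAbove_right_injective h')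
    rw [Function.update_of_ne h1, Function.update_of_ne (Fin.succAbove_ne a i)]
  rw [tsum_eq_single (ν' b'), tsum_eq_single 0]
  · rw [hprod, hprod]
    simp only [Fin.insertNth_apply_same, Fin.insertNth_apply_succAbove, if_true]
    rw [ins_eq a (ν' b') ν', hKa, show dl 0 0 = 1 from by simp [dl]]
    ring
  · intro n hn
    rw [hprod, dl, if_neg hn, zero_mul, mul_zero]
  · intro n hn
    simp only [Fin.insertNth_apply_same, Fin.insertNth_apply_succAbove]
    rw [if_neg hn, zero_mul]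

end Pool.Agent.H491.Der
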