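import Mathlib
import Pool.Agent.H491.Pr2

set_option autoImplicit false

/-! # Two odd letters -/

namespace Pool.Agent.H491.Der

open Filter Topology

variable {D : ℕ}

theorem prod_split2 (a b : Fin D) (hab : a ≠ b) (F : Fin D → ℝ) :
    ∏ i, F i = F a * F b * ∏ i ∈ (Finset.univ.erase a).erase b, F i := by
  rw [← Finset.mul_prod_erase _ _ (Finset.mem_univ a),
    ← Finset.mul_prod_erase (Finset.univ.erase a) _ (Finset.mem_erase.2 ⟨hab.symm, Finset.mem_univ b⟩), mul_assoc]

/-- a large value -/
def Bg (a b : Fin D) (ν : Fin D → ℕ) : ℕ := 1 + ∑ i, if i = a ∨ i = b then 0 else ν i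

theorem Bg_lt (a b : Fin D) (ν : Fin D → ℕ) (i : Fin D) (hi : ¬ (i = a ∨ i = b)) : ν i < Bg a b ν := by
  have h := Finset.single_le_sum (f := fun i => if i = a ∨ i = b then 0 else ν i) (fun _ _ => Nat.zero_le _) (Finset.mem_univ i)
  simp only [hi, if_false] at h
  unfold Bg
  omega

theorem Bg_upd (a b : Fin D) (ν : Fin D → ℕ) (x : Fin D) (hx : x = a ∨ x = b) (n : ℕ) :
    Bg a b (Function.update ν x n) = Bg a b ν := by
  unfold Bg
  congr 1
  refine Finset.sum_congr rfl fun i _ => ?_
  by_cases hi : i = a ∨ i = b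
  · rw [if_pos hi, if_pos hi]
  · rw [if_neg hi, if_neg hi, Function.update_of_ne]
    rintro rfl
    exact hi hx

/-- the value without the letters `a` and `b` -/
noncomputable def K2 (a b : Fin D) (c : V D) (ν : Fin D → ℕ) : ℝ :=
  ct c (Function.update (Function.update ν a (Bg a b ν)) b (Bg a b ν + 1))

theorem K2_le (a b : Fin D) (c : V D) (ν : Fin D → ℕ) : |K2 a b c ν| ≤ nc c := ct_le c _

theorem K2_upd_a (a b : Fin D) (c : V D) (ν : Fin D → ℕ) (n : ℕ) : K2 a b c (Function.update ν a n) = K2 a b c ν := by
  rw [K2, K2, Bg_upd a b ν a (Or.inl rfl), Function.update_idem]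

theorem K2_upd_b (a b : Fin D) (hab : a ≠ b) (c : V D) (ν : Fin D → ℕ) (n : ℕ) :
    K2 a b c (Function.update ν b n) = K2 a b c ν := by
  rw [K2, K2, Bg_upd a b ν b (Or.inr rfl), Function.update_comm hab.symm, Function.update_idem]

theorem K2_eq (a b : Fin D) (hab : a ≠ b) (c : V D) (hca : c ∈ U a) (hcb : c ∈ U b) (ν : Fin D → ℕ) (h : Function.Injective ν) :
    K2 a b c ν = ct c ν := by
  have h1 : Function.Injective (Function.update ν a (Bg a b ν + Bg a b ν + ν b)) := by
    intro x y hxy
    have hbig : ∀ z, z ≠ a → ν z < Bg a b ν + Bg a b ν + ν b := by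
      intro z hz
      by_cases hzb : z = b
      · subst hzb
        have : 0 < Bg a z ν := by unfold Bg; omega
        omega
      · have := Bg_lt a b ν z (by rintro (h | h); exacts [hz h, hzb h])
        omega
    by_cases hx : x = a <;> by_cases hy : y = a
    · rw [hx, hy]
    · rw [hx, Function.update_self, Function.update_of_ne hy] at hxy
      have := hbig y hy
      omega
    · rw [hy, Function.update_self, Function.update_of_ne hx] at hxy
      have := hbig x hx
      omega
    · rw [Function.update_of_ne hx, Function.update_of_ne hy] at hxy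
      exact h hxy
  have hbig2 : ∀ z, z ≠ a → z ≠ b → ν z < Bg a b ν := fun z hz hzb => Bg_lt a b ν z (by rintro (h | h); exacts [hz h, hzb h])
  have h2 : Function.Injective (Function.update (Function.update ν a (Bg a b ν + Bg a b ν + ν b)) b
      (Bg a b ν + Bg a b ν + ν b + 1)) := by
    intro x y hxy
    have hb' : ∀ z, z ≠ b → Function.update ν a (Bg a b ν + Bg a b ν + ν b) z < Bg a b ν + Bg a b ν + ν b + 1 := by
      intro z hz
      by_cases hza : z = a
      · rw [hza, Function.update_self]
        omega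
      · rw [Function.update_of_ne hza]
        have := hbig2 z hza hz
        omega
    by_cases hx : x = b <;> by_cases hy : y = b
    · rw [hx, hy]
    · rw [hx, Function.update_self, Function.update_of_ne hy] at hxy
      have := hb' y hy
      omega
    · rw [hy, Function.update_self, Function.update_of_ne hx] at hxy
      have := hb' x hx
      omega
    · rw [Function.update_of_ne hx, Function.update_of_ne hy] at hxy
      exact h1 hxy
  have h3 : Function.Injective (Function.update (Function.update ν a (Bg a b ν)) b (Bg a b ν + 1)) := by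
    intro x y hxy
    have hba : b ≠ a := hab.symm
    have hval : ∀ z, z ≠ a → z ≠ b → Function.update (Function.update ν a (Bg a b ν)) b (Bg a b ν + 1) z = ν z := by
      intro z hz hzb
      rw [Function.update_of_ne hzb, Function.update_of_ne hz]
    have hva : Function.update (Function.update ν a (Bg a b ν)) b (Bg a b ν + 1) a = Bg a b ν := by
      rw [Function.update_of_ne hab, Function.update_self]
    have hvb : Function.update (Function.update ν a (Bg a b ν)) b (Bg a b ν + 1) b = Bg a b ν + 1 := by
      rw [Function.update_self]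
    by_cases hxa : x = a
    · by_cases hya : y = a
      · rw [hxa, hya]
      · by_cases hyb : y = b
        · rw [hxa, hyb, hva, hvb] at hxy
          omega
        · rw [hxa, hva, hval y hya hyb] at hxy
          have := hbig2 y hya hyb
          omega
    · by_cases hxb : x = b
      · by_cases hya : y = a
        · rw [hxb, hya, hva, hvb] at hxy
          omega
        · by_cases hyb : y = b
          · rw [hxb, hyb]
          · rw [hxb, hvb, hval y hya hyb] at hxy
            have := hbig2 y hya hyb
            omega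
      · by_cases hya : y = a
        · rw [hya, hva, hval x hxa hxb] at hxy
          have := hbig2 x hxa hxb
          omega
        · by_cases hyb : y = b
          · rw [hyb, hvb, hval x hxa hxb] at hxy
            have := hbig2 x hxa hxb
            omega
          · rw [hval x hxa hxb, hval y hya hyb] at hxy
            exact h hxy
  have h4 : Function.Injective (Function.update (Function.update ν a (Bg a b ν)) b (Bg a b ν + Bg a b ν + ν b + 1)) := by
    intro x y hxy
    have hval : ∀ z, z ≠ a → z ≠ b → Function.update (Function.update ν a (Bg a b ν)) b (Bg a b ν + Bg a b ν + ν b + 1) z = ν z := by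
      intro z hz hzb
      rw [Function.update_of_ne hzb, Function.update_of_ne hz]
    have hva : Function.update (Function.update ν a (Bg a b ν)) b (Bg a b ν + Bg a b ν + ν b + 1) a = Bg a b ν := by
      rw [Function.update_of_ne hab, Function.update_self]
    have hvb : Function.update (Function.update ν a (Bg a b ν)) b (Bg a b ν + Bg a b ν + ν b + 1) b = Bg a b ν + Bg a b ν + ν b + 1 := by
      rw [Function.update_self]
    by_cases hxa : x = a
    · by_cases hya : y = a
      · rw [hxa, hya]
      · by_cases hyb : y = b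
        · rw [hxa, hyb, hva, hvb] at hxy
          omega
        · rw [hxa, hva, hval y hya hyb] at hxy
          have := hbig2 y hya hyb
          omega
    · by_cases hxb : x = b
      · by_cases hya : y = a
        · rw [hxb, hya, hva, hvb] at hxy
          omega
        · by_cases hyb : y = b
          · rw [hxb, hyb]
          · rw [hxb, hvb, hval y hya hyb] at hxy
            have := hbig2 y hya hyb
            omega
      · by_cases hya : y = a
        · rw [hya, hva, hval x hxa hxb] at hxy
          have := hbig2 x hxa hxb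
          omega
        · by_cases hyb : y = b
          · rw [hyb, hvb, hval x hxa hxb] at hxy
            have := hbig2 x hxa hxb
            omega
          · rw [hval x hxa hxb, hval y hya hyb] at hxy
            exact h hxy
  rw [K2]
  calc ct c (Function.update (Function.update ν a (Bg a b ν)) b (Bg a b ν + 1))
      = ct c (Function.update (Function.update ν a (Bg a b ν)) b (Bg a b ν + Bg a b ν + ν b + 1)) :=
        ct_of_U b c hcb _ _ h3 h4 fun k hk => by rw [Function.update_of_ne hk, Function.update_of_ne hk]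
    _ = ct c (Function.update (Function.update ν a (Bg a b ν + Bg a b ν + ν b)) b (Bg a b ν + Bg a b ν + ν b + 1)) := by
        apply ct_of_U a c hca _ _ h4 h2
        intro k hk
        by_cases hkb : k = b
        · subst hkb
          rw [Function.update_self, Function.update_self]
        · rw [Function.update_of_ne hkb, Function.update_of_ne hkb, Function.update_of_ne hk, Function.update_of_ne hk]
    _ = ct c (Function.update ν a (Bg a b ν + Bg a b ν + ν b)) :=
        ct_of_U b c hcb _ _ h2 h1 fun k hk => by rw [Function.update_of_ne hk]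
    _ = ct c ν := ct_of_U a c hca _ _ h1 h fun k hk => by rw [Function.update_of_ne hk]

theorem K2_zero (a b : Fin D) (c : V D) (ν : Fin D → ℕ) (i j : Fin D) (hij : i ≠ j) (hi : ¬ (i = a ∨ i = b))
    (hj : ¬ (j = a ∨ j = b)) (h : ν i = ν j) : K2 a b c ν = 0 := by
  rw [K2, ct_zero]
  intro h1
  apply hij
  apply h1
  push Not at hi hj
  rw [Function.update_of_ne hi.2, Function.update_of_ne hi.1, Function.update_of_ne hj.2, Function.update_of_ne hj.1, h]

/-- the monomial of the other letters -/
noncomputable def Mo (a b : Fin D) (M : ℕ) (tt : PP D → Fin 2 → ℕ) (ε : PP D → Fin 2) (ν : Fin D → ℕ) : ℝ :=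
  ∏ i, if i = a ∨ i = b then 1 else X (ν i) ^ (2 * mm M tt ε i)

theorem Mo_le (a b : Fin D) (M : ℕ) (tt : PP D → Fin 2 → ℕ) (ε : PP D → Fin 2) (ν : Fin D → ℕ) :
    |Mo a b M tt ε ν| ≤ 1 := by
  rw [Mo, Finset.abs_prod]
  apply Finset.prod_le_one (fun _ _ => abs_nonneg _)
  intro i _
  split_ifs
  · simp
  · rw [abs_of_nonneg (pow_nonneg (X_pos _).le _)]
    exact pow_le_one₀ (X_pos _).le (X_le _)

theorem Mo_upd (a b : Fin D) (M : ℕ) (tt : PP D → Fin 2 → ℕ) (ε : PP D → Fin 2) (ν : Fin D → ℕ) (x : Fin D)
    (hx : x = a ∨ x = b) (n : ℕ) : Mo a b M tt ε (Function.update ν x n) = Mo a b M tt ε ν := by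
  unfold Mo
  refine Finset.prod_congr rfl fun i _ => ?_
  by_cases hi : i = a ∨ i = b
  · rw [if_pos hi, if_pos hi]
  · rw [if_neg hi, if_neg hi, Function.update_of_ne]
    rintro rfl
    exact hi hx

theorem summable_mulX (f : ℕ → ℝ) (hf : Summable fun n => ‖f n‖) (m : ℕ) : Summable fun n => ‖f n * X n ^ m‖ := by
  refine Summable.of_nonneg_of_le (fun n => norm_nonneg _) (fun n => ?_) hf
  rw [norm_mul, Real.norm_of_nonneg (pow_nonneg (X_pos n).le _)]
  exact mul_le_of_le_one_right (norm_nonneg _) (pow_le_one₀ (X_pos n).le (X_le n))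

theorem expandG (a b : Fin D) (hab : a ≠ b) (M : ℕ) (tt : PP D → Fin 2 → ℕ) (G : (Fin D → ℕ) → ℝ) (C : ℝ)
    (hG : ∀ ν, |G ν| ≤ C) (φ : Fin D → ℕ → ℝ) (hφ : Sm φ) (f h : ℕ → ℝ) (hf : Summable fun n => ‖f n‖)
    (hh : Summable fun n => ‖h n‖) :
    OmK (fun ν => G ν * QG a b M tt ν) (Function.update (Function.update φ a f) b h) =
      ∑ ε, sgG a b ε * OmK (fun ν => G ν * Mo a b M tt ε ν) (Function.update (Function.update φ a
        fun n => f n * X n ^ (2 * mm M tt ε a)) b fun n => h n * X n ^ (2 * mm M tt ε b)) := by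
  have hpt : ∀ ν : Fin D → ℕ, G ν * QG a b M tt ν * ∏ i, (Function.update (Function.update φ a f) b h) i (ν i) =
      ∑ ε, sgG a b ε * (G ν * Mo a b M tt ε ν * ∏ i, (Function.update (Function.update φ a
        fun n => f n * X n ^ (2 * mm M tt ε a)) b fun n => h n * X n ^ (2 * mm M tt ε b)) i (ν i)) := by
    intro ν
    rw [QG_expand, Finset.mul_sum, Finset.sum_mul]
    refine Finset.sum_congr rfl fun ε _ => ?_
    have e : (∏ i, X (ν i) ^ (2 * mm M tt ε i)) * ∏ i, (Function.update (Function.update φ a f) b h) i (ν i) =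
        Mo a b M tt ε ν * ∏ i, (Function.update (Function.update φ a
        fun n => f n * X n ^ (2 * mm M tt ε a)) b fun n => h n * X n ^ (2 * mm M tt ε b)) i (ν i) := by
      rw [Mo, ← Finset.prod_mul_distrib, ← Finset.prod_mul_distrib]
      refine Finset.prod_congr rfl fun i _ => ?_
      by_cases hib : i = b
      · subst hib
        rw [Function.update_self, Function.update_self, if_pos (Or.inr rfl)]
        ring
      · by_cases hia : i = a
        · subst hia
          rw [Function.update_of_ne hib, Function.update_of_ne hib, Function.update_self, Function.update_self,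
            if_pos (Or.inl rfl)]
          ring
        · rw [Function.update_of_ne hib, Function.update_of_ne hib, Function.update_of_ne hia, Function.update_of_ne hia,
            if_neg (by rintro (h | h); exacts [hia h, hib h])]
    calc G ν * (sgG a b ε * ∏ i, X (ν i) ^ (2 * mm M tt ε i)) * ∏ i, (Function.update (Function.update φ a f) b h) i (ν i)
        = sgG a b ε * (G ν * ((∏ i, X (ν i) ^ (2 * mm M tt ε i)) * ∏ i, (Function.update (Function.update φ a f) b h) i (ν i))) := by
          ring
      _ = _ := by rw [e]; ring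
  have hC : 0 ≤ C := (abs_nonneg _).trans (hG fun _ => 0)
  have hGM : ∀ ε ν, |G ν * Mo a b M tt ε ν| ≤ C := by
    intro ε ν
    rw [abs_mul]
    exact (mul_le_of_le_one_right (abs_nonneg _) (Mo_le _ _ _ _ _ _)).trans (hG ν)
  unfold OmK
  simp only [hpt]
  rw [Summable.tsum_finsetSum]
  · refine Finset.sum_congr rfl fun ε _ => ?_
    rw [tsum_mul_left]
  · intro ε _
    apply Summable.mul_left
    apply OmK_summable _ C (hGM ε)
    exact Sm_update _ (Sm_update φ hφ a _ (summable_mulX f hf _)) b _ (summable_mulX h hh _)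

/-- **The pair lemma.** -/
theorem pair_lemma {d : ℕ} (a b : Fin (d + 1)) (hab : a ≠ b) (M : ℕ) (tt : PP (d + 1) → Fin 2 → ℕ) (htM : ∀ p k, tt p k ≤ M)
    (c : V (d + 1)) (hca : c ∈ U a) (hcb : c ∈ U b) (φ : Fin (d + 1) → ℕ → ℝ) (hφ : Sm φ) (f h : ℕ → ℝ)
    (hf : Summable fun n => ‖f n‖) (hh : Summable fun n => ‖h n‖) (hmom : ∀ ε, ∑' n, f n * X n ^ (2 * mm M tt ε a) = 0) :
    OmK (KG a b M tt c) (Function.update (Function.update φ a f) b h) =
      - ∑ ε, sgG a b ε * ((∑' n, f n * h n * X n ^ (2 * mm M tt ε a + 2 * mm M tt ε b)) *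
        OmK (fun ν => K2 a b c ν * Mo a b M tt ε ν) (Function.update (Function.update φ a (dl 0)) b (dl 0))) := by
  classical
  set φ' := Function.update (Function.update φ a f) b h with hφ'
  have hφ's : Sm φ' := Sm_update _ (Sm_update φ hφ a f hf) b h hh
  let G₂ : (Fin (d + 1) → ℕ) → ℝ := fun ν => if ν a = ν b then K2 a b c ν else 0
  have hG₂ : ∀ ν, |G₂ ν| ≤ nc c := by
    intro ν
    simp only [G₂]
    split_ifs
    · exact K2_le a b c ν
    · simpa using nc_nonneg c
  have hnotP : ∀ (i j : Fin (d + 1)) (hij : i ≠ j), ¬ (i = a ∨ i = b) ∨ ¬ (j = a ∨ j = b) → ¬ isP a b ⟨(i, j), hij⟩ := by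
    intro i j hij h1 h2
    unfold isP at h2
    simp only at h2
    rcases h2 with ⟨h2, h3⟩ | ⟨h2, h3⟩
    · rcases h1 with h1 | h1
      · exact h1 (Or.inl h2)
      · exact h1 (Or.inr h3)
    · rcases h1 with h1 | h1
      · exact h1 (Or.inr h2)
      · exact h1 (Or.inl h3)
  have hpt : ∀ ν : Fin (d + 1) → ℕ, KG a b M tt c ν = K2 a b c ν * QG a b M tt ν - G₂ ν * QG a b M tt ν := by
    intro ν
    simp only [G₂]
    by_cases hab' : ν a = ν b
    · rw [if_pos hab', sub_self, KG, ct_zero, zero_mul]
      exact fun h' => hab (h' hab')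
    · rw [if_neg hab', zero_mul, sub_zero, KG]
      by_cases hinj : Function.Injective ν
      · rw [K2_eq a b hab c hca hcb ν hinj]
      · rw [ct_zero c ν hinj, zero_mul]
        rw [Function.not_injective_iff] at hinj
        obtain ⟨i, j, hij, hne⟩ := hinj
        rw [QG_zero a b M tt htM ν i j hne _ hij, mul_zero]
        intro h2
        unfold isP at h2
        simp only at h2
        rcases h2 with ⟨h2, h3⟩ | ⟨h2, h3⟩
        · exact hab' (by rw [← h2, ← h3]; exact hij)
        · exact hab' (by rw [← h2, ← h3]; exact hij.symm)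
  have hQK : ∀ ν, |K2 a b c ν * QG a b M tt ν| ≤ nc c := fun ν => by
    rw [abs_mul]
    exact (mul_le_of_le_one_right (abs_nonneg _) (QG_le _ _ _ _ _)).trans (K2_le a b c ν)
  have hQG : ∀ ν, |G₂ ν * QG a b M tt ν| ≤ nc c := fun ν => by
    rw [abs_mul]
    exact (mul_le_of_le_one_right (abs_nonneg _) (QG_le _ _ _ _ _)).trans (hG₂ ν)
  have h1 : OmK (KG a b M tt c) φ' = OmK (fun ν => K2 a b c ν * QG a b M tt ν) φ' - OmK (fun ν => G₂ ν * QG a b M tt ν) φ' := by
    rw [OmK, OmK, OmK, ← (OmK_summable _ _ hQK φ' hφ's).tsum_sub (OmK_summable _ _ hQG φ' hφ's)]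
    refine tsum_congr fun ν => ?_
    rw [hpt]
    ring
  have hKM : ∀ ε ν, |K2 a b c ν * Mo a b M tt ε ν| ≤ nc c := by
    intro ε ν
    rw [abs_mul]
    exact (mul_le_of_le_one_right (abs_nonneg _) (Mo_le _ _ _ _ _ _)).trans (K2_le a b c ν)
  have hKa : ∀ ε ν n, K2 a b c (Function.update ν a n) * Mo a b M tt ε (Function.update ν a n) =
      K2 a b c ν * Mo a b M tt ε ν := by
    intro ε ν n
    rw [K2_upd_a, Mo_upd a b M tt ε ν a (Or.inl rfl)]
  have hKb : ∀ ε ν n, K2 a b c (Function.update ν b n) * Mo a b M tt ε (Function.update ν b n) =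
      K2 a b c ν * Mo a b M tt ε ν := by
    intro ε ν n
    rw [K2_upd_b a b hab, Mo_upd a b M tt ε ν b (Or.inr rfl)]
  have h2 : OmK (fun ν => K2 a b c ν * QG a b M tt ν) φ' = 0 := by
    rw [hφ', expandG a b hab M tt (K2 a b c) (nc c) (K2_le a b c) φ hφ f h hf hh]
    apply Finset.sum_eq_zero
    intro ε _
    rw [Function.update_comm hab, sep _ (nc c) (hKM ε) a (hKa ε) _
      (Sm_update φ hφ b _ (summable_mulX h hh _)) _ (summable_mulX f hf _), hmom ε, zero_mul, mul_zero]
  have hprod : ∀ ε, Summable fun n => ‖f n * h n * X n ^ (2 * mm M tt ε a + 2 * mm M tt ε b)‖ := by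
    intro ε
    apply summable_mulX
    have h3 : ∀ n, ‖f n‖ ≤ ∑' n, ‖f n‖ := fun n => hf.le_tsum n fun _ _ => norm_nonneg _
    refine Summable.of_nonneg_of_le (fun n => norm_nonneg _) (fun n => ?_) (hh.mul_left (∑' n, ‖f n‖))
    rw [norm_mul]
    exact mul_le_mul_of_nonneg_right (h3 n) (norm_nonneg _)
  have h3 : OmK (fun ν => G₂ ν * QG a b M tt ν) φ' = ∑ ε, sgG a b ε *
      ((∑' n, f n * h n * X n ^ (2 * mm M tt ε a + 2 * mm M tt ε b)) *
        OmK (fun ν => K2 a b c ν * Mo a b M tt ε ν) (Function.update (Function.update φ a (dl 0)) b (dl 0))) := by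
    rw [hφ', expandG a b hab M tt G₂ (nc c) hG₂ φ hφ f h hf hh]
    refine Finset.sum_congr rfl fun ε _ => ?_
    congr 1
    have e1 : (fun ν => G₂ ν * Mo a b M tt ε ν) = fun ν => if ν a = ν b then K2 a b c ν * Mo a b M tt ε ν else 0 := by
      funext ν
      simp only [G₂]
      split_ifs
      · rfl
      · rw [zero_mul]
    have e2 : (fun n => f n * X n ^ (2 * mm M tt ε a) * (h n * X n ^ (2 * mm M tt ε b))) =
        fun n => f n * h n * X n ^ (2 * mm M tt ε a + 2 * mm M tt ε b) := by
      funext n
      rw [pow_add]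
      ring
    rw [e1, diag _ (nc c) (hKM ε) a b hab (hKa ε) φ hφ _ _ (summable_mulX f hf _) (summable_mulX h hh _), e2,
      sep _ (nc c) (hKM ε) b (hKb ε) _ (Sm_update φ hφ a _ (summable_dl 0)) _ (hprod ε)]
  rw [h1, h2, h3, zero_sub]

end Pool.Agent.H491.Der
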