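import Mathlib
import Pool.Agent.H491.Pr3

set_option autoImplicit false

/-! # The pattern sum and the limit for two odd letters -/

namespace Pool.Agent.H491.Der

open Filter Topology

variable {D : ℕ}

/-- the weights of the cube -/
def swG {w : ℕ} (a b : Fin D) (k0 k1 : Fin w) (q : PP D) (k : Fin w) : ℝ :=
  if isP a b q then (if k = k0 then 1 else 0) else sw k0 k1 k

theorem sum_swG {w : ℕ} (a b : Fin D) (k0 k1 : Fin w) (h : k0 ≠ k1) (q : PP D) (F : Fin w → ℝ) :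
    ∑ k, swG a b k0 k1 q k * F k = ∑ k : Fin 2, SP a b q k * F (![k0, k1] k) := by
  classical
  by_cases hq : isP a b q
  · rw [Fin.sum_univ_two]
    simp only [swG, SP, hq, if_true, Matrix.cons_val_zero, Matrix.cons_val_one]
    rw [Finset.sum_eq_single k0]
    · simp
    · intro k _ hk
      rw [if_neg hk, zero_mul]
    · intro h'
      exact absurd (Finset.mem_univ _) h'
  · simp only [swG, SP, hq, if_false]
    exact sum_sw k0 k1 h F

theorem sum_eG {w : ℕ} (a₁ b₁ : Fin D) (k0 k1 : Fin w) (hk : k0 ≠ k1) (p y : Fin D → ℕ) (M : ℕ)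
    (t : (Fin D ⊕ PP D) → Fin w → ℕ) (a : Fin D) (b : ℕ) (lam : Fin D → Fin w → ℝ) (ν : Fin D → ℕ) :
    ∑ e : (Fin D ⊕ PP D) → Fin w, ((∏ i, lam i (e (Sum.inl i))) * ∏ q : PP D, swG a₁ b₁ k0 k1 q (e (Sum.inr q))) *
        ∏ i, X (ν i) ^ aa p y M t a e b i =
      QG a₁ b₁ M (fun q k => t (Sum.inr q) (![k0, k1] k)) ν *
        ∏ i, ((if i = a then X (ν i) ^ (2 * b) else 1) * psi (t (Sum.inl i)) (p i) (y i) (lam i) (ν i)) := by
  classical
  let f : (Fin D ⊕ PP D) → Fin w → ℝ := fun κ k => match κ with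
    | Sum.inl i => lam i k * X (ν i) ^ (2 * t (Sum.inl i) k)
    | Sum.inr q => swG a₁ b₁ k0 k1 q k * (X (ν q.1.1) ^ (2 * t (Sum.inr q) k) * X (ν q.1.2) ^ (2 * (M - t (Sum.inr q) k)))
  have h1 : QG a₁ b₁ M (fun q k => t (Sum.inr q) (![k0, k1] k)) ν = ∏ q : PP D, ∑ k, f (Sum.inr q) k := by
    rw [QG]
    refine Finset.prod_congr rfl fun q _ => ?_
    simp only [f]
    rw [sum_swG a₁ b₁ k0 k1 hk]
  have h2 : ∏ i, ((if i = a then X (ν i) ^ (2 * b) else 1) * psi (t (Sum.inl i)) (p i) (y i) (lam i) (ν i)) =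
      (∏ i, ((if i = a then X (ν i) ^ (2 * b) else 1) * X (ν i) ^ (2 * y i + p i))) * ∏ i : Fin D, ∑ k, f (Sum.inl i) k := by
    rw [← Finset.prod_mul_distrib]
    refine Finset.prod_congr rfl fun i _ => ?_
    simp only [f, psi]
    ring
  have h3 : (∏ i : Fin D, ∑ k, f (Sum.inl i) k) * (∏ q : PP D, ∑ k, f (Sum.inr q) k) =
      ∑ e : (Fin D ⊕ PP D) → Fin w, ∏ κ, f κ (e κ) := by
    rw [← Fintype.prod_sum_type (fun κ : Fin D ⊕ PP D => ∑ k, f κ k), Finset.prod_univ_sum, Fintype.piFinset_univ]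
  rw [h1, h2]
  have h4 : (∏ q : PP D, ∑ k, f (Sum.inr q) k) *
      ((∏ i, ((if i = a then X (ν i) ^ (2 * b) else 1) * X (ν i) ^ (2 * y i + p i))) * ∏ i : Fin D, ∑ k, f (Sum.inl i) k) =
      (∏ i, ((if i = a then X (ν i) ^ (2 * b) else 1) * X (ν i) ^ (2 * y i + p i))) *
        ((∏ i : Fin D, ∑ k, f (Sum.inl i) k) * (∏ q : PP D, ∑ k, f (Sum.inr q) k)) := by ring
  rw [h4, h3, Finset.mul_sum]
  refine Finset.sum_congr rfl fun e _ => ?_
  rw [Fintype.prod_sum_type]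
  simp only [f]
  rw [Finset.prod_mul_distrib (f := fun i => lam i (e (Sum.inl i)))
    (g := fun i => X (ν i) ^ (2 * t (Sum.inl i) (e (Sum.inl i)))),
    Finset.prod_mul_distrib (f := fun q : PP D => swG a₁ b₁ k0 k1 q (e (Sum.inr q))),
    mmv_prod M (fun q : PP D => t (Sum.inr q) (e (Sum.inr q))) (fun i => X (ν i))]
  have h5 : ∏ i, X (ν i) ^ aa p y M t a e b i = (∏ i, ((if i = a then X (ν i) ^ (2 * b) else 1) * X (ν i) ^ (2 * y i + p i))) *
      ((∏ i, X (ν i) ^ (2 * t (Sum.inl i) (e (Sum.inl i)))) *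
        ∏ i, X (ν i) ^ (2 * mmv M (fun q : PP D => t (Sum.inr q) (e (Sum.inr q))) i)) := by
    rw [← Finset.prod_mul_distrib, ← Finset.prod_mul_distrib]
    refine Finset.prod_congr rfl fun i _ => ?_
    rw [aa]
    split_ifs with h
    · rw [← pow_add, ← pow_add, ← pow_add]
      congr 1
      ring
    · rw [one_mul, ← pow_add, ← pow_add]
      congr 1
      ring
  rw [h5]
  ring

/-- both letters at the place `n` -/
def at2 (a b : Fin D) (n : ℕ) (ν : Fin D → ℕ) : Fin D → ℕ := fun i => if i = a ∨ i = b then n else ν i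

theorem QG_at2 (a b : Fin D) (hab : a ≠ b) (M : ℕ) (tt : PP D → Fin 2 → ℕ) (n : ℕ) (ν : Fin D → ℕ) :
    QG a b M tt (at2 a b n ν) = ∑ ε : PP D → Fin 2, sgG a b ε * (X n ^ (2 * mm M tt ε a + 2 * mm M tt ε b) * Mo a b M tt ε ν) := by
  rw [QG_expand]
  refine Finset.sum_congr rfl fun ε _ => ?_
  congr 1
  rw [Mo, prod_split2 a b hab, prod_split2 a b hab (fun i => if i = a ∨ i = b then (1 : ℝ) else X (ν i) ^ (2 * mm M tt ε i))]
  simp only [at2, true_or, or_true, if_true, one_mul, mul_one]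
  rw [pow_add]
  congr 1
  refine Finset.prod_congr rfl fun i hi => ?_
  rw [Finset.mem_erase, Finset.mem_erase] at hi
  have h1 : ¬ (i = a ∨ i = b) := by
    rintro (h | h)
    · exact hi.2.1 h
    · exact hi.1 h
  rw [if_neg h1, if_neg h1]

/-- the kernel of the limit -/
noncomputable def KK (a b : Fin D) (M : ℕ) (tt : PP D → Fin 2 → ℕ) (c : V D) (n : ℕ) (ν : Fin D → ℕ) : ℝ :=
  K2 a b c ν * QG a b M tt (at2 a b n ν)

theorem KK_le (a b : Fin D) (M : ℕ) (tt : PP D → Fin 2 → ℕ) (c : V D) (n : ℕ) (ν : Fin D → ℕ) :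
    |KK a b M tt c n ν| ≤ nc c := by
  rw [KK, abs_mul]
  exact (mul_le_of_le_one_right (abs_nonneg _) (QG_le _ _ _ _ _)).trans (K2_le a b c ν)

theorem at2_upd_a (a b : Fin D) (n : ℕ) (ν : Fin D → ℕ) (m : ℕ) : at2 a b n (Function.update ν a m) = at2 a b n ν := by
  funext i
  unfold at2
  by_cases hi : i = a ∨ i = b
  · rw [if_pos hi, if_pos hi]
  · rw [if_neg hi, if_neg hi, Function.update_of_ne]
    exact fun h => hi (Or.inl h)

theorem at2_upd_b (a b : Fin D) (n : ℕ) (ν : Fin D → ℕ) (m : ℕ) : at2 a b n (Function.update ν b m) = at2 a b n ν := by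
  funext i
  unfold at2
  by_cases hi : i = a ∨ i = b
  · rw [if_pos hi, if_pos hi]
  · rw [if_neg hi, if_neg hi, Function.update_of_ne]
    exact fun h => hi (Or.inr h)

theorem KK_upd_a (a b : Fin D) (M : ℕ) (tt : PP D → Fin 2 → ℕ) (c : V D) (n : ℕ) (ν : Fin D → ℕ) (m : ℕ) :
    KK a b M tt c n (Function.update ν a m) = KK a b M tt c n ν := by
  rw [KK, KK, K2_upd_a, at2_upd_a]

theorem KK_upd_b (a b : Fin D) (hab : a ≠ b) (M : ℕ) (tt : PP D → Fin 2 → ℕ) (c : V D) (n : ℕ) (ν : Fin D → ℕ) (m : ℕ) :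
    KK a b M tt c n (Function.update ν b m) = KK a b M tt c n ν := by
  rw [KK, KK, K2_upd_b a b hab, at2_upd_b]

/-- the sum of the coefficients -/
theorem OmK_KK (a b : Fin D) (hab : a ≠ b) (M : ℕ) (tt : PP D → Fin 2 → ℕ) (c : V D) (n : ℕ) (φ : Fin D → ℕ → ℝ) (hφ : Sm φ) :
    OmK (KK a b M tt c n) φ = ∑ ε, sgG a b ε * (X n ^ (2 * mm M tt ε a + 2 * mm M tt ε b) *
      OmK (fun ν => K2 a b c ν * Mo a b M tt ε ν) φ) := by
  have hKM : ∀ ε ν, |K2 a b c ν * Mo a b M tt ε ν| ≤ nc c := by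
    intro ε ν
    rw [abs_mul]
    exact (mul_le_of_le_one_right (abs_nonneg _) (Mo_le _ _ _ _ _ _)).trans (K2_le a b c ν)
  unfold OmK
  have e : ∀ ν : Fin D → ℕ, KK a b M tt c n ν * ∏ i, φ i (ν i) = ∑ ε, (sgG a b ε * X n ^ (2 * mm M tt ε a + 2 * mm M tt ε b)) *
      (K2 a b c ν * Mo a b M tt ε ν * ∏ i, φ i (ν i)) := by
    intro ν
    rw [KK, QG_at2 a b hab, Finset.mul_sum, Finset.sum_mul]
    refine Finset.sum_congr rfl fun ε _ => ?_
    ring
  simp only [e]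
  rw [Summable.tsum_finsetSum fun ε _ => (OmK_summable _ _ (hKM ε) φ hφ).mul_left _]
  refine Finset.sum_congr rfl fun ε _ => ?_
  rw [tsum_mul_left]
  ring

theorem tsum_dl (m : ℕ) : ∑' n, dl m n = 1 := by
  rw [tsum_eq_single m]
  · simp [dl]
  · intro n hn
    rw [dl, if_neg hn]

/-- the value of the limit -/
theorem eval_KK {d : ℕ} (a b : Fin (d + 1)) (hab : a ≠ b) (M : ℕ) (tt : PP (d + 1) → Fin 2 → ℕ)
    (c : V (d + 1)) (hca : c ∈ U a) (hcb : c ∈ U b) (n : ℕ)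
    (l : List (Fin (d + 1))) (hl : l.Nodup) (hla : a ∉ l) (hlb : b ∉ l) (μ : ℕ) (s : Fin (d + 1) → ℕ) (hs : ∀ j, s j ≤ μ)
    (x₀ : (j : Fin (d + 1)) → Fin (s j) → ℝ) (ν₀ : Fin (d + 1) → ℕ) (h1 : Function.Injective ν₀) (h2 : ∀ k, ν₀ k < d + 1)
    (h5 : ∀ ε, ∀ j ∈ l, X (ν₀ j) ^ (2 * mm M tt ε j) +
      ∑ q, x₀ j q * X ((d + 1) + l.idxOf j * μ + (q : ℕ)) ^ (2 * mm M tt ε j) = 0)
    (hTh : Th l c = c) :
    OmK (KK a b M tt c n) (fun i => if i ∈ l then th (ν₀ i) (fun q => (d + 1) + l.idxOf i * μ + (q : ℕ)) (x₀ i)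
      else dl (ν₀ i)) = ct c ν₀ * QG a b M tt (at2 a b n ν₀) := by
  classical
  let g : (j : Fin (d + 1)) → Fin (s j) → ℕ := fun j q => (d + 1) + l.idxOf j * μ + (q : ℕ)
  set θ : Fin (d + 1) → ℕ → ℝ := fun i => if i ∈ l then th (ν₀ i) (fun q => (d + 1) + l.idxOf i * μ + (q : ℕ)) (x₀ i)
      else dl (ν₀ i) with hθ
  have hθs : Sm θ := by
    intro i
    by_cases hi : i ∈ l
    · simp only [hθ, hi, if_true]
      exact summable_th _ _ _
    · simp only [hθ, hi, if_false]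
      exact summable_dl _
  have hsupp : ∀ i m, θ i m ≠ 0 → m = ν₀ i ∨ (i ∈ l ∧ ∃ q : Fin (s i), m = (d + 1) + l.idxOf i * μ + (q : ℕ)) := by
    intro i m hm
    by_contra hcon
    push Not at hcon
    apply hm
    by_cases hi : i ∈ l
    · simp only [hθ, hi, if_true, th]
      rw [if_neg hcon.1, zero_add]
      apply Finset.sum_eq_zero
      intro q _
      rw [if_neg (hcon.2 hi q), mul_zero]
    · simp only [hθ, hi, if_false, dl]
      rw [if_neg hcon.1]
  have hinj : ∀ ν : Fin (d + 1) → ℕ, (∏ i, θ i (ν i)) ≠ 0 → Function.Injective ν := by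
    intro ν hν i j hij
    rw [Finset.prod_ne_zero_iff] at hν
    rcases hsupp i (ν i) (hν i (Finset.mem_univ _)) with hi | ⟨hil, qi, hi⟩ <;>
      rcases hsupp j (ν j) (hν j (Finset.mem_univ _)) with hj | ⟨hjl, qj, hj⟩
    · rw [hi, hj] at hij
      exact h1 hij
    · rw [hi, hj] at hij
      have := h2 i
      omega
    · rw [hi, hj] at hij
      have := h2 j
      omega
    · rw [hi, hj] at hij
      have h3 := qi.2
      have h4 := qj.2
      have h6 := hs i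
      have h7 := hs j
      have h8 : l.idxOf i = l.idxOf j := by
        rcases lt_trichotomy (l.idxOf i) (l.idxOf j) with h | h | h
        · have h9 : (l.idxOf i + 1) * μ ≤ l.idxOf j * μ := Nat.mul_le_mul_right _ (by omega)
          rw [add_mul, one_mul] at h9
          omega
        · exact h
        · have h9 : (l.idxOf j + 1) * μ ≤ l.idxOf i * μ := Nat.mul_le_mul_right _ (by omega)
          rw [add_mul, one_mul] at h9
          omega
      exact (List.idxOf_inj hil).1 h8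
  have hpt : ∀ ν : Fin (d + 1) → ℕ, KK a b M tt c n ν * ∏ i, θ i (ν i) =
      ∑ ε, (sgG a b ε * X n ^ (2 * mm M tt ε a + 2 * mm M tt ε b) *
        (X (ν₀ a) ^ (2 * mm M tt ε a) * X (ν₀ b) ^ (2 * mm M tt ε b))⁻¹) * (Ke M tt ε c ν * ∏ i, θ i (ν i)) := by
    intro ν
    by_cases h0 : ∏ i, θ i (ν i) = 0
    · simp [h0]
    · have hν := hinj ν h0
      have h0' := Finset.prod_ne_zero_iff.1 h0
      have hva : ν a = ν₀ a := by
        rcases hsupp a (ν a) (h0' a (Finset.mem_univ _)) with h | ⟨h, -⟩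
        · exact h
        · exact absurd h hla
      have hvb : ν b = ν₀ b := by
        rcases hsupp b (ν b) (h0' b (Finset.mem_univ _)) with h | ⟨h, -⟩
        · exact h
        · exact absurd h hlb
      rw [KK, K2_eq a b hab c hca hcb ν hν, QG_at2 a b hab, Finset.mul_sum, Finset.sum_mul]
      refine Finset.sum_congr rfl fun ε _ => ?_
      have hXa := (pow_pos (X_pos (ν₀ a)) (2 * mm M tt ε a)).ne'
      have hXb := (pow_pos (X_pos (ν₀ b)) (2 * mm M tt ε b)).ne'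
      have e : ∏ i, X (ν i) ^ (2 * mm M tt ε i) = X (ν₀ a) ^ (2 * mm M tt ε a) * X (ν₀ b) ^ (2 * mm M tt ε b) *
          Mo a b M tt ε ν := by
        rw [Mo, prod_split2 a b hab, prod_split2 a b hab (fun i => if i = a ∨ i = b then (1 : ℝ) else X (ν i) ^ (2 * mm M tt ε i)),
          hva, hvb]
        simp only [true_or, or_true, if_true, one_mul]
        congr 1
        refine Finset.prod_congr rfl fun i hi => ?_
        rw [Finset.mem_erase, Finset.mem_erase] at hi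
        rw [if_neg]
        rintro (h | h)
        · exact hi.2.1 h
        · exact hi.1 h
      rw [Ke, e]
      field_simp
  have h6 : OmK (KK a b M tt c n) θ = ∑ ε, (sgG a b ε * X n ^ (2 * mm M tt ε a + 2 * mm M tt ε b) *
        (X (ν₀ a) ^ (2 * mm M tt ε a) * X (ν₀ b) ^ (2 * mm M tt ε b))⁻¹) * OmK (Ke M tt ε c) θ := by
    unfold OmK
    simp only [hpt]
    rw [Summable.tsum_finsetSum fun ε _ => (OmK_summable _ _ (Ke_le M tt ε c) θ hθs).mul_left _]
    refine Finset.sum_congr rfl fun ε _ => ?_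
    rw [tsum_mul_left]
  rw [h6, QG_at2 a b hab, Finset.mul_sum]
  refine Finset.sum_congr rfl fun ε _ => ?_
  have h7 := eval_eps M tt ε s g x₀ c l (d + 1) ν₀ h1 h2 hl (by
      have := chain_idxOf l hl s μ hs (d + 1) l [] (by simp)
      simpa using this) (h5 ε)
  have h8 : OmK (Ke M tt ε c) θ = ct (Th l c) ν₀ * ∏ i, X (ν₀ i) ^ (2 * mm M tt ε i) := h7
  rw [h8, hTh]
  have hXa := (pow_pos (X_pos (ν₀ a)) (2 * mm M tt ε a)).ne'
  have hXb := (pow_pos (X_pos (ν₀ b)) (2 * mm M tt ε b)).ne'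
  have e : ∏ i, X (ν₀ i) ^ (2 * mm M tt ε i) = X (ν₀ a) ^ (2 * mm M tt ε a) * X (ν₀ b) ^ (2 * mm M tt ε b) *
      Mo a b M tt ε ν₀ := by
    rw [Mo, prod_split2 a b hab, prod_split2 a b hab (fun i => if i = a ∨ i = b then (1 : ℝ) else X (ν₀ i) ^ (2 * mm M tt ε i))]
    simp only [true_or, or_true, if_true, one_mul]
    congr 1
    refine Finset.prod_congr rfl fun i hi => ?_
    rw [Finset.mem_erase, Finset.mem_erase] at hi
    rw [if_neg]
    rintro (h | h)
    · exact hi.2.1 h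
    · exact hi.1 h
  rw [e]
  field_simp

end Pool.Agent.H491.Der
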