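import Mathlib
import Pool.Agent.H491.Pr4

set_option autoImplicit false

/-! # The main analytic lemma for two odd letters -/

namespace Pool.Agent.H491.Der

open Filter Topology

variable {D : ℕ}

open Polynomial in
theorem analytic2 {d : ℕ} (p : Fin (d + 1) → ℕ) (hp : ∀ i, 2 ≤ p i) (a b : Fin (d + 1)) (hab : a ≠ b)
    (hpab : Even (p a + p b))
    (l' : List (Fin (d + 1))) (hal : a ∉ l') (hbl : b ∉ l') (hl' : l'.Nodup) (c c₀ : V (d + 1)) (hc₀ : c₀ ≠ 0)
    (hc₀a : c₀ ∈ U a) (hc₀b : c₀ ∈ U b)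
    (hTh : Th l' c₀ = c₀) (hcc : c - c₀ ∈ UU l') (w : ℕ)
    (hw : (d + 1) + (d + 1) * 2 ^ (Fintype.card (PP (d + 1))) + 2 ≤ w) (M : ℕ)
    (t : (Fin (d + 1) ⊕ PP (d + 1)) → Fin w → ℕ) (ht : ∀ κ, Function.Injective (t κ)) (htM : ∀ κ k, t κ k ≤ M) :
    ∃ Y : ℕ, ∀ y : Fin (d + 1) → ℕ, (∀ i, Y ≤ y i) → ∀ (L : Subfield ℝ), Transcendental L Real.pi →
      ∀ (E : Submodule L ℝ) (r : ℕ), Module.rank L E ≤ (r : Cardinal) → ∀ B : Finset ℕ,
      (∀ β ∈ B, ∀ e, GG c (aa p y M t b e β) ∈ E) →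
      B.card < w ^ (Fintype.card (Fin (d + 1) ⊕ PP (d + 1))) * r + w * 2 ^ (Fintype.card (PP (d + 1))) := by
  classical
  set μ := 2 ^ (Fintype.card (PP (d + 1))) with hμ
  let k0 : Fin w := ⟨0, by omega⟩
  let k1 : Fin w := ⟨1, by omega⟩
  have hk : k0 ≠ k1 := by simp [k0, k1, Fin.ext_iff]
  set tt : PP (d + 1) → Fin 2 → ℕ := fun q k => t (Sum.inr q) (![k0, k1] k) with htt
  have httM : ∀ q k, tt q k ≤ M := fun q k => htM _ _
  have htt01 : ∀ q, tt q 0 ≠ tt q 1 := by
    intro q h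
    apply hk
    exact ht (Sum.inr q) (by simpa [htt] using h)
  obtain ⟨ν₀, hν₀, hν₀D, hct⟩ := exists_point c₀ hc₀
  have hal' : (a :: l').Nodup := List.nodup_cons.2 ⟨hal, hl'⟩
  have hlen : l'.length + 1 ≤ d + 1 := by
    have := hal'.length_le_card
    simpa using this
  -- the moments
  let Ms : Fin (d + 1) → Finset ℕ := fun j => Finset.univ.image fun ε => mm M tt ε j
  have hMs : ∀ j, (Ms j).card ≤ μ := by
    intro j
    refine (Finset.card_image_le).trans ?_
    rw [Finset.card_univ, Fintype.card_fun, Fintype.card_fin]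
  let s : Fin (d + 1) → ℕ := fun j => (Ms j).card
  let mo : (j : Fin (d + 1)) → Fin (s j) → ℕ := fun j => (Ms j).orderEmbOfFin rfl
  have hmo : ∀ j, Function.Injective (mo j) := fun j => ((Ms j).orderEmbOfFin rfl).injective
  have hmo' : ∀ j ε, ∃ q, mo j q = mm M tt ε j := by
    intro j ε
    have h1 : mm M tt ε j ∈ Ms j := Finset.mem_image_of_mem _ (Finset.mem_univ ε)
    have h2 := Finset.range_orderEmbOfFin (Ms j) rfl
    have h3 : mm M tt ε j ∈ Set.range ((Ms j).orderEmbOfFin rfl) := by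
      rw [h2]
      exact h1
    obtain ⟨q, hq⟩ := h3
    exact ⟨q, hq⟩
  let g : (j : Fin (d + 1)) → Fin (s j) → ℕ := fun j q => (d + 1) + l'.idxOf j * μ + (q : ℕ)
  have hg : ∀ j, Function.Injective (g j) := by
    intro j q q' h
    simp only [g] at h
    exact Fin.ext (by omega)
  have hgw : ∀ j q, g j q < w := by
    intro j q
    have h1 : l'.idxOf j ≤ l'.length := List.idxOf_le_length
    have h3 : (l'.idxOf j + 1) * μ ≤ (d + 1) * μ := Nat.mul_le_mul_right _ (by omega)
    have h4 := q.2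
    have h5 := hMs j
    rw [add_mul, one_mul] at h3
    simp only [g]
    simp only [s] at h4
    omega
  -- the letters
  have hlet : ∀ j, ∃ x₀ : Fin (s j) → ℝ, (∀ r, X (ν₀ j) ^ (2 * mo j r) + ∑ q, x₀ q * X (g j q) ^ (2 * mo j r) = 0) ∧
      ∀ ε : ℝ, 0 < ε → ∃ Y : ℕ, ∀ y : ℕ, Y ≤ y → ∃ lam : Fin w → ℝ,
        (∀ r, ∑' n, psi (t (Sum.inl j)) (p j) y lam n * X n ^ (2 * mo j r) = 0) ∧
        ∑' n, ‖psi (t (Sum.inl j)) (p j) y lam n - th (ν₀ j) (g j) x₀ n‖ ≤ ε := by
    intro j
    exact letter (t (Sum.inl j)) (ht _) (p j) (hp j) (ν₀ j) (by have := hν₀D j; omega) (g j) (hg j) (hgw j) (mo j) (hmo j)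
  choose x₀ hx₀ using hlet
  set θ : Fin (d + 1) → ℕ → ℝ := fun i => if i ∈ l' then th (ν₀ i) (fun q => (d + 1) + l'.idxOf i * μ + (q : ℕ)) (x₀ i)
    else dl (ν₀ i) with hθ
  have hθs : Sm θ := by
    intro i
    by_cases hi : i ∈ l'
    · simp only [hθ, hi, if_true]
      exact summable_th _ _ _
    · simp only [hθ, hi, if_false]
      exact summable_dl _
  set n₁ : ℕ := ν₀ a with hn₁
  have hval : OmK (KK a b M tt c₀ n₁) θ = ct c₀ ν₀ * QG a b M tt (at2 a b n₁ ν₀) := by
    apply eval_KK a b hab M tt c₀ hc₀a hc₀b n₁ l' hl' hal hbl μ s hMs x₀ ν₀ hν₀ hν₀D _ hTh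
    intro ε j _
    obtain ⟨q, hq⟩ := hmo' j ε
    have := (hx₀ j).1 q
    rw [hq] at this
    exact this
  have hQne : QG a b M tt (at2 a b n₁ ν₀) ≠ 0 := by
    apply QG_ne a b M tt httM htt01
    intro i j hij hne h
    unfold at2 at h
    by_cases hi : i = a ∨ i = b
    · by_cases hj : j = a ∨ j = b
      · apply hne
        unfold isP
        simp only
        rcases hi with hi | hi <;> rcases hj with hj | hj
        · exact absurd (hi.trans hj.symm) hij
        · exact Or.inl ⟨hi, hj⟩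
        · exact Or.inr ⟨hi, hj⟩
        · exact absurd (hi.trans hj.symm) hij
      · rw [if_pos hi, if_neg hj, hn₁] at h
        exact hj (Or.inl (hν₀ h).symm)
    · by_cases hj : j = a ∨ j = b
      · rw [if_neg hi, if_pos hj, hn₁] at h
        exact hi (Or.inl (hν₀ h))
      · rw [if_neg hi, if_neg hj] at h
        exact hij (hν₀ h)
  -- the limit with both letters at zero
  set θ₂ : Fin (d + 1) → ℕ → ℝ := Function.update (Function.update θ a (dl 0)) b (dl 0) with hθ₂
  have hθ₂s : Sm θ₂ := Sm_update _ (Sm_update θ hθs a _ (summable_dl 0)) b _ (summable_dl 0)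
  have hθa : θ a = dl (ν₀ a) := by simp only [hθ, hal, if_false]
  have hθb : θ b = dl (ν₀ b) := by simp only [hθ, hbl, if_false]
  have hval2 : OmK (KK a b M tt c₀ n₁) θ₂ = ct c₀ ν₀ * QG a b M tt (at2 a b n₁ ν₀) := by
    have e1 : OmK (KK a b M tt c₀ n₁) (Function.update (Function.update θ a (dl 0)) b (dl (ν₀ b))) =
        (∑' n, dl (ν₀ b) n) * OmK (KK a b M tt c₀ n₁) θ₂ :=
      sep (KK a b M tt c₀ n₁) (nc c₀) (KK_le a b M tt c₀ n₁) b (KK_upd_b a b hab M tt c₀ n₁)
        (Function.update θ a (dl 0)) (Sm_update θ hθs a _ (summable_dl 0)) (dl (ν₀ b)) (summable_dl _)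
    have e2 : OmK (KK a b M tt c₀ n₁) (Function.update θ a (dl (ν₀ a))) =
        (∑' n, dl (ν₀ a) n) * OmK (KK a b M tt c₀ n₁) (Function.update θ a (dl 0)) :=
      sep (KK a b M tt c₀ n₁) (nc c₀) (KK_le a b M tt c₀ n₁) a (KK_upd_a a b M tt c₀ n₁)
        θ hθs (dl (ν₀ a)) (summable_dl _)
    have e3 : Function.update θ a (dl (ν₀ a)) = θ := by rw [← hθa, Function.update_eq_self]
    have e4 : Function.update (Function.update θ a (dl 0)) b (dl (ν₀ b)) = Function.update θ a (dl 0) := by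
      have : Function.update θ a (dl 0) b = dl (ν₀ b) := by rw [Function.update_of_ne hab.symm, hθb]
      rw [← this, Function.update_eq_self]
    rw [e4, tsum_dl, one_mul] at e1
    rw [e3, tsum_dl, one_mul, e1] at e2
    rw [← e2]
    exact hval
  set Z : ℝ := |ct c₀ ν₀ * QG a b M tt (at2 a b n₁ ν₀)| with hZ
  have hZ0 : 0 < Z := abs_pos.2 (mul_ne_zero hct hQne)
  set Bd : ℝ := 1 + ∑ i, nn (θ₂ i) with hBd
  have hBd1 : 1 ≤ Bd := by
    have : 0 ≤ ∑ i, nn (θ₂ i) := Finset.sum_nonneg fun i _ => nn_nonneg _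
    linarith
  have hθB : ∀ i, nn (θ₂ i) + 1 ≤ Bd := by
    intro i
    have := Finset.single_le_sum (f := fun i => nn (θ₂ i)) (fun i _ => nn_nonneg _) (Finset.mem_univ i)
    linarith
  set T : ℝ := nc c₀ * Bd ^ (d + 1) * (d + 1) + 1 with hT
  have hT0 : 0 < T := by
    have := nc_nonneg c₀
    positivity
  set ε₀ : ℝ := min (1 / 2) (Z / (2 * T)) with hε₀
  have hε₀0 : 0 < ε₀ := lt_min (by norm_num) (by positivity)
  -- the coefficients for all letters
  have hall : ∀ j, j ≠ a → ∃ Y : ℕ, ∀ y : ℕ, Y ≤ y → ∃ lam : Fin w → ℝ,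
      (j ∈ l' → ∀ ε, ∑' n, psi (t (Sum.inl j)) (p j) y lam n * X n ^ (2 * mm M tt ε j) = 0) ∧
      ∑' n, ‖psi (t (Sum.inl j)) (p j) y lam n - θ j n‖ ≤ ε₀ := by
    intro j hja
    by_cases hj : j ∈ l'
    · obtain ⟨Y, hY⟩ := (hx₀ j).2 ε₀ hε₀0
      refine ⟨Y, fun y hy => ?_⟩
      obtain ⟨lam, h1, h2⟩ := hY y hy
      refine ⟨lam, fun _ ε => ?_, ?_⟩
      · obtain ⟨q, hq⟩ := hmo' j ε
        have := h1 q
        rw [hq] at this
        exact this
      · simp only [hθ, hj, if_true]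
        exact h2
    · obtain ⟨x, -, hx⟩ := letter (t (Sum.inl j)) (ht _) (p j) (hp j) (ν₀ j) (by have := hν₀D j; omega) (s := 0)
        (fun q => q.elim0) (fun q => q.elim0) (fun q => q.elim0) (fun q => q.elim0) (fun q => q.elim0)
      obtain ⟨Y, hY⟩ := hx ε₀ hε₀0
      refine ⟨Y, fun y hy => ?_⟩
      obtain ⟨lam, -, h2⟩ := hY y hy
      refine ⟨lam, fun h => absurd h hj, ?_⟩
      simp only [hθ, hj, if_false]
      have e : th (ν₀ j) (fun q : Fin 0 => q.elim0) x = dl (ν₀ j) := by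
        funext n
        rw [th_eq]
        simp
      rw [← e]
      exact h2
  have hall' : ∀ j, ∃ Y : ℕ, j ≠ a → ∀ y : ℕ, Y ≤ y → ∃ lam : Fin w → ℝ,
      (j ∈ l' → ∀ ε, ∑' n, psi (t (Sum.inl j)) (p j) y lam n * X n ^ (2 * mm M tt ε j) = 0) ∧
      ∑' n, ‖psi (t (Sum.inl j)) (p j) y lam n - θ j n‖ ≤ ε₀ := by
    intro j
    by_cases hj : j = a
    · exact ⟨0, fun h => absurd hj h⟩
    · obtain ⟨Y, hY⟩ := hall j hj
      exact ⟨Y, fun _ => hY⟩
  choose Yf hYf using hall'
  obtain ⟨Ya, hYa⟩ := (hx₀ a).2 ε₀ hε₀0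
  refine ⟨Ya + ∑ j, Yf j, ?_⟩
  intro y hy L hL E r hE B hB
  have hlam : ∀ j, ∃ lam : Fin w → ℝ, j ≠ a → ((j ∈ l' → ∀ ε, ∑' n, psi (t (Sum.inl j)) (p j) (y j) lam n *
      X n ^ (2 * mm M tt ε j) = 0) ∧ ∑' n, ‖psi (t (Sum.inl j)) (p j) (y j) lam n - θ j n‖ ≤ ε₀) := by
    intro j
    by_cases hj : j = a
    · exact ⟨fun _ => 0, fun h => absurd hj h⟩
    · have h1 := (Finset.single_le_sum (f := Yf) (fun _ _ => Nat.zero_le _) (Finset.mem_univ j))
      have h2 := hy j
      obtain ⟨lam, h⟩ := hYf j hj (y j) (by omega)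
      exact ⟨lam, fun _ => h⟩
  choose lam' hlam' using hlam
  obtain ⟨lama, hlama1, hlama2⟩ := hYa (y a) (by have := hy a; omega)
  set lam : Fin (d + 1) → Fin w → ℝ := fun i => if i = a then lama else if i = b then fun k => if k = k0 then 1 else 0
    else lam' i with hlamdef
  have hlam_a : lam a = lama := by simp only [hlamdef, if_true]
  have hlam_ne : ∀ i, i ≠ a → i ≠ b → lam i = lam' i := fun i hi hi' => by simp only [hlamdef, hi, hi', if_false]
  have hlam_b : lam b = fun k => if k = k0 then 1 else 0 := by simp only [hlamdef, hab.symm, if_false, if_true]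
  have hpsib : ∀ n, psi (t (Sum.inl b)) (p b) (y b) (lam b) n = X n ^ (2 * y b + p b + 2 * t (Sum.inl b) k0) := by
    intro n
    rw [hlam_b]
    simp only [psi]
    rw [Finset.sum_eq_single k0]
    · rw [if_pos rfl, one_mul, ← pow_add]
    · intro k _ hk'
      rw [if_neg hk', zero_mul]
    · intro h
      exact absurd (Finset.mem_univ _) h
  -- the functions
  set φ₀ : Fin (d + 1) → ℕ → ℝ := fun i => psi (t (Sum.inl i)) (p i) (y i) (lam i) with hφ₀
  have hφ₀s : Sm φ₀ := fun i => summable_psi _ _ _ (hp i) _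
  set φ₁ : Fin (d + 1) → ℕ → ℝ := Function.update (Function.update φ₀ a (dl 0)) b (dl 0) with hφ₁
  have hφ₁s : Sm φ₁ := Sm_update _ (Sm_update φ₀ hφ₀s a _ (summable_dl 0)) b _ (summable_dl 0)
  let fb : ℕ → ℕ → ℝ := fun β n => X n ^ (2 * β) * psi (t (Sum.inl b)) (p b) (y b) (lam b) n
  have hfb : ∀ β, Summable fun n => ‖fb β n‖ := by
    intro β
    refine Summable.of_nonneg_of_le (fun n => norm_nonneg _) (fun n => ?_) (summable_psi (t (Sum.inl b)) (p b) (y b) (hp b) (lam b))
    rw [norm_mul, Real.norm_of_nonneg (pow_nonneg (X_pos n).le _)]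
    exact mul_le_of_le_one_left (norm_nonneg _) (pow_le_one₀ (X_pos n).le (X_le n))
  have hfa : Summable fun n => ‖φ₀ a n‖ := hφ₀s a
  have hmoma : ∀ ε, ∑' n, φ₀ a n * X n ^ (2 * mm M tt ε a) = 0 := by
    intro ε
    obtain ⟨q, hq⟩ := hmo' a ε
    have := hlama1 q
    rw [hq] at this
    simp only [hφ₀]
    rw [hlam_a]
    exact this
  set om : (PP (d + 1) → Fin 2) → ℝ := fun ε => OmK (fun ν => K2 a b c₀ ν * Mo a b M tt ε ν) φ₁ with hom
  set Wa : ℝ[X] := ∑ k : Fin w, C (lam a k) * Polynomial.X ^ (2 * t (Sum.inl a) k) with hWa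
  set W2 : ℝ[X] := ∑ ε : PP (d + 1) → Fin 2, C (sgG a b ε * om ε) * Polynomial.X ^ (2 * mm M tt ε a + 2 * mm M tt ε b) with hW2
  set W : ℝ[X] := ∑ z : (PP (d + 1) → Fin 2) × Fin w, C (-(sgG a b z.1 * om z.1 * lam a z.2)) *
    Polynomial.X ^ (2 * t (Sum.inl a) z.2 + (2 * mm M tt z.1 a + 2 * mm M tt z.1 b)) with hW
  have hWeq : W = -(W2 * Wa) := by
    rw [hW, hW2, hWa, Finset.sum_mul_sum, ← Finset.sum_product', ← Finset.sum_neg_distrib]
    refine Finset.sum_congr rfl fun z _ => ?_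
    simp only [map_mul, map_neg]
    ring
  set Pp : ℕ := 2 * y a + p a + (2 * y b + p b + 2 * t (Sum.inl b) k0) with hPp
  have hPpe : Even Pp := by
    rw [hPp]
    obtain ⟨x, hx⟩ := hpab
    exact ⟨y a + y b + x + t (Sum.inl b) k0, by omega⟩
  have hPp2 : 2 ≤ Pp := by
    have := hp a
    omega
  -- the relation
  let χ : ((Fin (d + 1) ⊕ PP (d + 1)) → Fin w) → ℝ := fun e =>
    (∏ i, lam i (e (Sum.inl i))) * ∏ q : PP (d + 1), swG a b k0 k1 q (e (Sum.inr q))
  have hrel : ∀ β, ∑ e, χ e * GG c (aa p y M t b e β) = All.pz (Polynomial.X ^ (2 * β + Pp) * W) := by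
    intro β
    have haa : ∀ e i, 2 ≤ aa p y M t b e β i := by
      intro e i
      have := hp i
      unfold aa
      omega
    have h1 : HasSum (fun ν : Fin (d + 1) → ℕ => ∑ e, χ e * (ct c ν * ∏ i, X (ν i) ^ aa p y M t b e β i))
        (∑ e, χ e * GG c (aa p y M t b e β)) := hasSum_sum fun e _ => (hasSum_GG c _ (haa e)).mul_left _
    have h2 : ∀ ν : Fin (d + 1) → ℕ, ∑ e, χ e * (ct c ν * ∏ i, X (ν i) ^ aa p y M t b e β i) =
        KG a b M tt c ν * ∏ i, (Function.update (Function.update φ₀ a (φ₀ a)) b (fb β)) i (ν i) := by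
      intro ν
      have h3 := sum_eG a b k0 k1 hk p y M t b β lam ν
      have h4 : ∑ e, χ e * (ct c ν * ∏ i, X (ν i) ^ aa p y M t b e β i) =
          ct c ν * ∑ e, χ e * ∏ i, X (ν i) ^ aa p y M t b e β i := by
        rw [Finset.mul_sum]
        refine Finset.sum_congr rfl fun e _ => ?_
        ring
      rw [h4, h3, KG, mul_assoc, Function.update_eq_self]
      congr 2
      refine Finset.prod_congr rfl fun i _ => ?_
      by_cases hi : i = b
      · subst hi
        rw [if_pos rfl, Function.update_self]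
      · rw [if_neg hi, Function.update_of_ne hi, one_mul]
    simp only [h2] at h1
    have hSmb := Sm_update _ (Sm_update φ₀ hφ₀s a (φ₀ a) hfa) b (fb β) (hfb β)
    have h5 : ∑ e, χ e * GG c (aa p y M t b e β) = OmK (KG a b M tt c) (Function.update (Function.update φ₀ a (φ₀ a)) b (fb β)) :=
      h1.tsum_eq.symm
    have h6 : OmK (KG a b M tt c) (Function.update (Function.update φ₀ a (φ₀ a)) b (fb β)) =
        OmK (KG a b M tt c₀) (Function.update (Function.update φ₀ a (φ₀ a)) b (fb β)) +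
        OmK (KG a b M tt (c - c₀)) (Function.update (Function.update φ₀ a (φ₀ a)) b (fb β)) := by
      rw [OmK, OmK, OmK, ← (OmK_summable _ _ (KG_le a b M tt c₀) _ hSmb).tsum_add
        (OmK_summable _ _ (KG_le a b M tt (c - c₀)) _ hSmb)]
      refine tsum_congr fun ν => ?_
      rw [KG, KG, KG, ct_sub]
      ring
    have h7 : OmK (KG a b M tt (c - c₀)) (Function.update (Function.update φ₀ a (φ₀ a)) b (fb β)) = 0 := by
      apply killG a b M tt httM _ hSmb l' hal hbl _ _ hcc
      intro j hj ε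
      have hja : j ≠ a := fun h => hal (h ▸ hj)
      have hjb : j ≠ b := fun h => hbl (h ▸ hj)
      rw [Function.update_of_ne hjb, Function.update_of_ne hja]
      simp only [hφ₀]
      rw [hlam_ne j hja hjb]
      exact (hlam' j hja).1 hj ε
    rw [h5, h6, h7, add_zero, pair_lemma a b hab M tt httM c₀ hc₀a hc₀b φ₀ hφ₀s (φ₀ a) (fb β) hfa (hfb β) hmoma]
    have h8 : ∀ ε, ∑' n, φ₀ a n * fb β n * X n ^ (2 * mm M tt ε a + 2 * mm M tt ε b) =
        ∑ k : Fin w, lam a k * Sq.z (2 * β + Pp + (2 * t (Sum.inl a) k + (2 * mm M tt ε a + 2 * mm M tt ε b))) := by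
      intro ε
      have h9 : HasSum (fun n => ∑ k : Fin w, lam a k *
          X n ^ (2 * β + Pp + (2 * t (Sum.inl a) k + (2 * mm M tt ε a + 2 * mm M tt ε b))))
          (∑ k : Fin w, lam a k * Sq.z (2 * β + Pp + (2 * t (Sum.inl a) k + (2 * mm M tt ε a + 2 * mm M tt ε b)))) :=
        hasSum_sum fun k _ => (hasSum_X _ (by omega)).mul_left _
      rw [← h9.tsum_eq]
      refine tsum_congr fun n => ?_
      simp only [fb, hφ₀]
      rw [hpsib, psi, Finset.mul_sum, Finset.sum_mul, Finset.sum_mul]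
      refine Finset.sum_congr rfl fun k _ => ?_
      rw [hPp]
      simp only [pow_add]
      ring
    rw [hW, Finset.mul_sum, map_sum, ← Finset.sum_neg_distrib, ← Finset.univ_product_univ, Finset.sum_product]
    refine Finset.sum_congr rfl fun ε _ => ?_
    rw [h8 ε, Finset.sum_mul, Finset.mul_sum, ← Finset.sum_neg_distrib]
    refine Finset.sum_congr rfl fun k _ => ?_
    have h9 : (Polynomial.X : ℝ[X]) ^ (2 * β + Pp) * (C (-(sgG a b ε * om ε * lam a k)) *
        Polynomial.X ^ (2 * t (Sum.inl a) k + (2 * mm M tt ε a + 2 * mm M tt ε b))) =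
        C (-(sgG a b ε * om ε * lam a k)) * Polynomial.X ^ (2 * β + Pp + (2 * t (Sum.inl a) k +
          (2 * mm M tt ε a + 2 * mm M tt ε b))) := by
      rw [pow_add _ (2 * β + Pp)]
      ring
    rw [h9, All.pz_C_mul_X_pow]
    simp only [hom]
    ring
  -- the space
  set Nn := Fintype.card ((Fin (d + 1) ⊕ PP (d + 1)) → Fin w) with hNn
  have hNn' : Nn = w ^ (Fintype.card (Fin (d + 1) ⊕ PP (d + 1))) := by
    rw [hNn, Fintype.card_fun, Fintype.card_fin]
  let en := Fintype.equivFin ((Fin (d + 1) ⊕ PP (d + 1)) → Fin w)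
  let cf : ℕ → ℝ := fun n => if h : n < Nn then χ (en.symm ⟨n, h⟩) else 0
  have hcf : ∀ e, cf (en e : ℕ) = χ e := by
    intro e
    simp only [cf]
    rw [dif_pos (en e).2]
    simp
  have hrank := All.rank_SS E cf r hE Nn
  have hmem : ∀ β ∈ B, All.pz (Polynomial.X ^ (2 * β + Pp) * W) ∈ All.SS E cf Nn := by
    intro β hβ
    rw [← hrel β]
    apply Submodule.sum_mem
    intro e _
    rw [← hcf e]
    exact All.mem_SS E cf Nn _ (en e).2 _ (hB β hβ e)
  by_cases hW0 : W = 0
  · exfalso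
    -- the letter `a` does not vanish at its place
    have hWa0 : Wa ≠ 0 := by
      intro h0
      have h1 : psi (t (Sum.inl a)) (p a) (y a) (lam a) (ν₀ a) = 0 := by
        have h2 : Wa.eval (X (ν₀ a)) = 0 := by rw [h0]; simp
        rw [hWa, Polynomial.eval_finsetSum] at h2
        simp only [Polynomial.eval_mul, Polynomial.eval_C, Polynomial.eval_pow, Polynomial.eval_X] at h2
        rw [psi, h2, mul_zero]
      have h2 : th (ν₀ a) (g a) (x₀ a) (ν₀ a) = 1 := by
        rw [th, if_pos rfl, Finset.sum_eq_zero, add_zero]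
        intro q _
        rw [if_neg, mul_zero]
        have := hν₀D a
        simp only [g]
        omega
      have h3 : Summable fun n => ‖psi (t (Sum.inl a)) (p a) (y a) lama n - th (ν₀ a) (g a) (x₀ a) n‖ :=
        ((summable_psi (t (Sum.inl a)) (p a) (y a) (hp a) lama).of_norm.sub (summable_th (ν₀ a) (g a) (x₀ a)).of_norm).norm
      have h4 := h3.le_tsum (ν₀ a) fun _ _ => norm_nonneg _
      rw [hlam_a] at h1
      rw [h1, h2, zero_sub, norm_neg, norm_one] at h4
      have h5 : ε₀ ≤ 1 / 2 := min_le_left _ _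
      linarith
    have hW20 : W2 = 0 := by
      rw [hWeq, neg_eq_zero, mul_eq_zero] at hW0
      exact hW0.resolve_right hWa0
    have h1 : OmK (KK a b M tt c₀ n₁) φ₁ = 0 := by
      rw [OmK_KK a b hab M tt c₀ n₁ φ₁ hφ₁s]
      have h4 : W2.eval (X n₁) = 0 := by rw [hW20]; simp
      rw [hW2, Polynomial.eval_finsetSum] at h4
      rw [← h4]
      refine Finset.sum_congr rfl fun ε _ => ?_
      rw [Polynomial.eval_mul, Polynomial.eval_C, Polynomial.eval_pow, Polynomial.eval_X]
      simp only [hom]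
      ring
    have hclose : ∀ i, nn (fun n => φ₁ i n - θ₂ i n) ≤ ε₀ := by
      intro i
      by_cases hib : i = b
      · have e : (fun n => φ₁ i n - θ₂ i n) = fun _ => 0 := by
          funext n
          simp only [hφ₁, hθ₂]
          rw [hib, Function.update_self, Function.update_self, sub_self]
        rw [e, nn]
        simp only [norm_zero, tsum_zero]
        exact hε₀0.le
      · by_cases hia : i = a
        · have e : (fun n => φ₁ i n - θ₂ i n) = fun _ => 0 := by
            funext n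
            simp only [hφ₁, hθ₂]
            rw [Function.update_of_ne hib, Function.update_of_ne hib, hia, Function.update_self, Function.update_self, sub_self]
          rw [e, nn]
          simp only [norm_zero, tsum_zero]
          exact hε₀0.le
        · have h2 := (hlam' i hia).2
          have e : (fun n => φ₁ i n - θ₂ i n) = fun n => psi (t (Sum.inl i)) (p i) (y i) (lam' i) n - θ i n := by
            funext n
            simp only [hφ₁, hθ₂]
            rw [Function.update_of_ne hib, Function.update_of_ne hib, Function.update_of_ne hia, Function.update_of_ne hia]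
            simp only [hφ₀]
            rw [hlam_ne i hia hib]
          rw [e]
          exact h2
    have hφB : ∀ i, nn (φ₁ i) ≤ Bd := by
      intro i
      have h2 := nn_le_add (φ₁ i) (θ₂ i) (hφ₁s i) (hθ₂s i)
      have h3 := hclose i
      have h4 := hθB i
      have h5 : ε₀ ≤ 1 / 2 := min_le_left _ _
      linarith
    have h2 := OmK_close (KK a b M tt c₀ n₁) (nc c₀) (nc_nonneg c₀) (KK_le a b M tt c₀ n₁) φ₁ θ₂ hφ₁s hθ₂s Bd hBd1 hφB
      (fun i => by have := hθB i; linarith)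
    rw [h1, hval2, zero_sub, abs_neg, ← hZ] at h2
    have h3 : ∑ i, nn (fun n => φ₁ i n - θ₂ i n) ≤ (d + 1) * ε₀ := by
      calc _ ≤ ∑ _i : Fin (d + 1), ε₀ := Finset.sum_le_sum fun i _ => hclose i
        _ = (d + 1) * ε₀ := by simp
    have h4 : Z ≤ T * ε₀ := by
      have h5 : 0 ≤ nc c₀ * Bd ^ (d + 1) := mul_nonneg (nc_nonneg c₀) (by positivity)
      calc Z ≤ _ := h2
        _ ≤ nc c₀ * Bd ^ (d + 1) * ((d + 1) * ε₀) := mul_le_mul_of_nonneg_left h3 h5
        _ ≤ T * ε₀ := by
            rw [hT]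
            nlinarith
    have h5 : ε₀ ≤ Z / (2 * T) := min_le_right _ _
    have h6 : T * ε₀ ≤ Z / 2 := by
      calc T * ε₀ ≤ T * (Z / (2 * T)) := mul_le_mul_of_nonneg_left h5 hT0.le
        _ = Z / 2 := by field_simp
    linarith
  · have h1 := All.final_step' hL (All.SS E cf Nn) (Nn * r) hrank (w * μ) Pp W hW0 ?_ ?_ B hmem
    · rw [← hNn']
      exact h1
    · have h2 : W.support ⊆ Finset.univ.image fun z : (PP (d + 1) → Fin 2) × Fin w =>
          2 * t (Sum.inl a) z.2 + (2 * mm M tt z.1 a + 2 * mm M tt z.1 b) := by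
        intro k hk'
        rw [Finset.mem_image]
        by_contra hcon
        push Not at hcon
        rw [Polynomial.mem_support_iff] at hk'
        apply hk'
        rw [hW, Polynomial.finsetSum_coeff]
        apply Finset.sum_eq_zero
        intro z _
        rw [Polynomial.coeff_C_mul_X_pow, if_neg]
        exact fun h => hcon z (Finset.mem_univ z) h.symm
      refine (Finset.card_le_card h2).trans (Finset.card_image_le.trans ?_)
      rw [Finset.card_univ, Fintype.card_prod, Fintype.card_fun, Fintype.card_fin, Fintype.card_fin, mul_comm w μ]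
    · intro k hk'
      rw [Polynomial.mem_support_iff] at hk'
      have h2 : ∃ z : (PP (d + 1) → Fin 2) × Fin w,
          k = 2 * t (Sum.inl a) z.2 + (2 * mm M tt z.1 a + 2 * mm M tt z.1 b) := by
        by_contra hcon
        push Not at hcon
        apply hk'
        rw [hW, Polynomial.finsetSum_coeff]
        apply Finset.sum_eq_zero
        intro z _
        rw [Polynomial.coeff_C_mul_X_pow, if_neg]
        exact hcon z
      obtain ⟨z, rfl⟩ := h2
      refine ⟨?_, by omega⟩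
      apply Even.add _ hPpe
      exact (even_two_mul _).add ((even_two_mul _).add (even_two_mul _))

end Pool.Agent.H491.Der
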