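import Mathlib

set_option autoImplicit false

/-! # Dense sets contain boxes: a set of positive density contains many complete patterns -/

namespace Pool.Agent.H491.All

open Finset

theorem jensen {ι : Type*} [Fintype ι] (c : ℝ) (hc : (Fintype.card ι : ℝ) = c) (hc0 : 0 < c) (f : ι → ℝ) (hf : ∀ i, 0 ≤ f i)
    (n : ℕ) : ((∑ i, f i) / c) ^ n ≤ (∑ i, f i ^ n) / c := by
  have h := Real.pow_arith_mean_le_arith_mean_pow (s := (Finset.univ : Finset ι)) (fun _ => 1 / c) f (fun _ _ => by positivity)
    (by rw [Finset.sum_const, Finset.card_univ, nsmul_eq_mul, hc]; field_simp) (fun i _ => hf i) n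
  rw [← Finset.mul_sum, ← Finset.mul_sum] at h
  rw [div_eq_mul_one_div, mul_comm (∑ i, f i) (1 / c), div_eq_mul_one_div (∑ i, f i ^ n), mul_comm _ (1 / c)]
  exact h

theorem sum_cons_equiv {m : ℕ} {α : Type*} [Fintype α] (φ : (Fin (m + 1) → α) → ℝ) :
    ∑ x, φ x = ∑ y : α, ∑ x' : Fin m → α, φ (Fin.cons y x') := by
  rw [← Fintype.sum_prod_type' (f := fun (y : α) (x' : Fin m → α) => φ (Fin.cons y x'))]
  exact (Fintype.sum_equiv (Fin.consEquiv fun _ : Fin (m + 1) => α) _ _ fun _ => rfl).symm

theorem prod_cons_equiv {m : ℕ} {α : Type*} [Fintype α] (φ : (Fin (m + 1) → α) → ℝ) :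
    ∏ x, φ x = ∏ y : α, ∏ x' : Fin m → α, φ (Fin.cons y x') := by
  rw [← Fintype.prod_prod_type' (f := fun (y : α) (x' : Fin m → α) => φ (Fin.cons y x'))]
  exact (Fintype.prod_equiv (Fin.consEquiv fun _ : Fin (m + 1) => α) _ _ fun _ => rfl).symm

theorem box (N w : ℕ) (hN : 0 < N) (m : ℕ) : ∀ (F : (Fin m → Fin N) → ℝ), (∀ x, 0 ≤ F x) →
    ((∑ x, F x) / (N : ℝ) ^ m) ^ (w ^ m) ≤
      (∑ t : Fin m → Fin w → Fin N, ∏ e : Fin m → Fin w, F (fun i => t i (e i))) / (N : ℝ) ^ (w * m) := by
  have hN' : (0 : ℝ) < N := by exact_mod_cast hN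
  induction m with
  | zero =>
    intro F hF
    simp only [pow_zero, pow_one, mul_zero, div_one, Finset.univ_unique, Finset.sum_singleton, Finset.prod_singleton]
    apply le_of_eq
    congr 1
    funext i
    exact i.elim0
  | succ m ih =>
    intro F hF
    rw [sum_cons_equiv F, sum_cons_equiv (fun t : Fin (m + 1) → Fin w → Fin N => ∏ e : Fin (m + 1) → Fin w, F (fun i => t i (e i)))]
    let G : (Fin w → Fin N) → (Fin m → Fin N) → ℝ := fun u x' => ∏ j, F (Fin.cons (u j) x')
    have hG : ∀ u x', 0 ≤ G u x' := fun u x' => Finset.prod_nonneg fun j _ => hF _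
    have h1 : ∀ (u : Fin w → Fin N) (t' : Fin m → Fin w → Fin N),
        (∏ e : Fin (m + 1) → Fin w, F (fun i => (Fin.cons u t' : Fin (m + 1) → Fin w → Fin N) i (e i))) =
        ∏ e' : Fin m → Fin w, G u (fun i => t' i (e' i)) := by
      intro u t'
      rw [prod_cons_equiv (fun e : Fin (m + 1) → Fin w => F (fun i => (Fin.cons u t' : Fin (m + 1) → Fin w → Fin N) i (e i))),
        Finset.prod_comm]
      refine Finset.prod_congr rfl fun e' _ => Finset.prod_congr rfl fun j _ => ?_
      congr 1
      funext i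
      refine Fin.cases ?_ (fun i => ?_) i
      · simp
      · simp
    simp only [h1]
    have h2 : ∀ u, ((∑ x', G u x') / (N : ℝ) ^ m) ^ (w ^ m) ≤
        (∑ t' : Fin m → Fin w → Fin N, ∏ e' : Fin m → Fin w, G u (fun i => t' i (e' i))) / (N : ℝ) ^ (w * m) :=
      fun u => ih (G u) (hG u)
    have hcw : (Fintype.card (Fin w → Fin N) : ℝ) = (N : ℝ) ^ w := by simp
    have hcm : (Fintype.card (Fin m → Fin N) : ℝ) = (N : ℝ) ^ m := by simp
    calc ((∑ y, ∑ x', F (Fin.cons y x')) / (N : ℝ) ^ (m + 1)) ^ (w ^ (m + 1))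
        = (((∑ x' : Fin m → Fin N, (∑ y, F (Fin.cons y x')) / N) / (N : ℝ) ^ m) ^ w) ^ (w ^ m) := by
          rw [Finset.sum_comm, ← Finset.sum_div, div_div, ← pow_mul, pow_succ w m, mul_comm w, pow_succ (N : ℝ) m,
            mul_comm (N : ℝ)]
      _ ≤ ((∑ x' : Fin m → Fin N, ((∑ y, F (Fin.cons y x')) / N) ^ w) / (N : ℝ) ^ m) ^ (w ^ m) := by
          apply pow_le_pow_left₀
          · exact pow_nonneg (div_nonneg (Finset.sum_nonneg fun x' _ => div_nonneg (Finset.sum_nonneg fun y _ => hF _) hN'.le)
              (by positivity)) _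
          · exact jensen _ hcm (by positivity) _ (fun x' => div_nonneg (Finset.sum_nonneg fun y _ => hF _) hN'.le) w
      _ = ((∑ u, (∑ x', G u x') / (N : ℝ) ^ m) / (N : ℝ) ^ w) ^ (w ^ m) := by
          congr 1
          have e : ∀ x' : Fin m → Fin N, ((∑ y, F (Fin.cons y x')) / N) ^ w = (∑ u, G u x') / (N : ℝ) ^ w := by
            intro x'
            rw [div_pow, Fintype.sum_pow]
          simp only [e]
          rw [← Finset.sum_div, ← Finset.sum_div, Finset.sum_comm, div_div, div_div, mul_comm]
      _ ≤ (∑ u, ((∑ x', G u x') / (N : ℝ) ^ m) ^ (w ^ m)) / (N : ℝ) ^ w :=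
          jensen _ hcw (by positivity) _ (fun u => div_nonneg (Finset.sum_nonneg fun x' _ => hG u x') (by positivity)) _
      _ ≤ (∑ u, (∑ t' : Fin m → Fin w → Fin N, ∏ e' : Fin m → Fin w, G u (fun i => t' i (e' i))) / (N : ℝ) ^ (w * m)) /
          (N : ℝ) ^ w := by
          apply div_le_div_of_nonneg_right _ (by positivity)
          exact Finset.sum_le_sum fun u _ => h2 u
      _ = _ := by
          rw [← Finset.sum_div, div_div, ← pow_add]
          congr 2

theorem card_collision (m w N : ℕ) (i : Fin m) (j j' : Fin w) (hj : j ≠ j') :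
    N * ((univ : Finset (Fin m → Fin w → Fin N)).filter fun t => t i j = t i j').card ≤ N ^ (w * m) := by
  classical
  have h1 : Fintype.card (Fin m → Fin w → Fin N) = N ^ (w * m) := by
    simp [pow_mul]
  rw [← h1, ← Finset.card_univ, mul_comm]
  have h2 : (((univ : Finset (Fin m → Fin w → Fin N)).filter fun t => t i j = t i j') ×ˢ (univ : Finset (Fin N))).card =
      ((univ : Finset (Fin m → Fin w → Fin N)).filter fun t => t i j = t i j').card * N := by
    rw [Finset.card_product, Finset.card_univ, Fintype.card_fin]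
  rw [← h2]
  apply Finset.card_le_card_of_injOn (fun q => Function.update q.1 i (Function.update (q.1 i) j q.2))
  · intro q _
    simp
  · intro q hq q' hq' h
    simp only [Finset.coe_product, Set.mem_prod, Finset.mem_coe, Finset.mem_filter, Finset.mem_univ, true_and] at hq hq'
    simp only at h
    have e1 : ∀ i', i' ≠ i → q.1 i' = q'.1 i' := by
      intro i' hi'
      have := congrFun h i'
      rwa [Function.update_of_ne hi', Function.update_of_ne hi'] at this
    have e2 : Function.update (q.1 i) j q.2 = Function.update (q'.1 i) j q'.2 := by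
      have := congrFun h i
      rwa [Function.update_self, Function.update_self] at this
    have e3 : ∀ l, l ≠ j → q.1 i l = q'.1 i l := by
      intro l hl
      have := congrFun e2 l
      rwa [Function.update_of_ne hl, Function.update_of_ne hl] at this
    have e4 : q.2 = q'.2 := by
      have := congrFun e2 j
      rwa [Function.update_self, Function.update_self] at this
    have e5 : q.1 i j = q'.1 i j := by
      rw [hq.1, hq'.1]
      exact e3 j' (Ne.symm hj)
    apply Prod.ext
    · funext i'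
      by_cases hi' : i' = i
      · subst hi'
        funext l
        by_cases hl : l = j
        · subst hl
          exact e5
        · exact e3 l hl
      · exact e1 i' hi'
    · exact e4

open Classical in
theorem card_noninj (m w N : ℕ) :
    N * ((univ : Finset (Fin m → Fin w → Fin N)).filter fun t => ¬ ∀ i, Function.Injective (t i)).card ≤
      m * w ^ 2 * N ^ (w * m) := by
  have h1 : ((univ : Finset (Fin m → Fin w → Fin N)).filter fun t => ¬ ∀ i, Function.Injective (t i)) ⊆
      ((univ : Finset (Fin m)) ×ˢ ((univ : Finset (Fin w × Fin w)).filter fun q => q.1 ≠ q.2)).biUnion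
        fun q => (univ : Finset (Fin m → Fin w → Fin N)).filter fun t => t q.1 q.2.1 = t q.1 q.2.2 := by
    intro t ht
    rw [Finset.mem_filter] at ht
    have h2 := ht.2
    push Not at h2
    obtain ⟨i, hi⟩ := h2
    rw [Function.not_injective_iff] at hi
    obtain ⟨j, j', h3, h4⟩ := hi
    rw [Finset.mem_biUnion]
    exact ⟨(i, (j, j')), Finset.mem_product.2 ⟨Finset.mem_univ _, Finset.mem_filter.2 ⟨Finset.mem_univ _, h4⟩⟩,
      Finset.mem_filter.2 ⟨Finset.mem_univ _, h3⟩⟩
  calc N * _ ≤ N * ∑ q ∈ (univ : Finset (Fin m)) ×ˢ ((univ : Finset (Fin w × Fin w)).filter fun q => q.1 ≠ q.2),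
        ((univ : Finset (Fin m → Fin w → Fin N)).filter fun t => t q.1 q.2.1 = t q.1 q.2.2).card :=
        Nat.mul_le_mul_left _ ((Finset.card_le_card h1).trans Finset.card_biUnion_le)
    _ ≤ ∑ _q ∈ (univ : Finset (Fin m)) ×ˢ ((univ : Finset (Fin w × Fin w)).filter fun q => q.1 ≠ q.2), N ^ (w * m) := by
        rw [Finset.mul_sum]
        refine Finset.sum_le_sum fun q hq => ?_
        rw [Finset.mem_product, Finset.mem_filter] at hq
        exact card_collision m w N q.1 q.2.1 q.2.2 hq.2.2
    _ ≤ m * w ^ 2 * N ^ (w * m) := by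
        rw [Finset.sum_const, smul_eq_mul]
        apply Nat.mul_le_mul_right
        rw [Finset.card_product, Finset.card_univ, Fintype.card_fin]
        apply Nat.mul_le_mul_left
        refine (Finset.card_filter_le _ _).trans ?_
        rw [Finset.card_univ, Fintype.card_prod, Fintype.card_fin, sq]

open Classical in
theorem density (m w N R : ℕ) (hN : 0 < N) (S : Finset ((Fin m → Fin N) × Fin N))
    (h : ∀ t : Fin m → Fin w → Fin N, (∀ i, Function.Injective (t i)) →
      ((univ : Finset (Fin N)).filter fun b => ∀ e : Fin m → Fin w, ((fun i => t i (e i)), b) ∈ S).card ≤ R) :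
    ((S.card : ℝ) / (N : ℝ) ^ (m + 1)) ^ (w ^ m) ≤ (R + m * w ^ 2) / N := by
  have hN' : (0 : ℝ) < N := by exact_mod_cast hN
  let F : Fin N → (Fin m → Fin N) → ℝ := fun b x => if (x, b) ∈ S then 1 else 0
  have hF : ∀ b x, 0 ≤ F b x := fun b x => by simp only [F]; split_ifs <;> norm_num
  have hS : (S.card : ℝ) = ∑ b, ∑ x, F b x := by
    have h1 : (S.card : ℝ) = ∑ p : (Fin m → Fin N) × Fin N, if p ∈ S then (1 : ℝ) else 0 := by
      rw [Finset.sum_ite_mem, Finset.univ_inter]
      simp
    rw [h1, Fintype.sum_prod_type, Finset.sum_comm]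
  have hprod : ∀ (b : Fin N) (t : Fin m → Fin w → Fin N), (∏ e : Fin m → Fin w, F b (fun i => t i (e i))) =
      if ∀ e : Fin m → Fin w, ((fun i => t i (e i)), b) ∈ S then (1 : ℝ) else 0 := by
    intro b t
    split_ifs with h1
    · apply Finset.prod_eq_one
      intro e _
      simp only [F]
      rw [if_pos (h1 e)]
    · push Not at h1
      obtain ⟨e, he⟩ := h1
      apply Finset.prod_eq_zero (Finset.mem_univ e)
      simp only [F]
      rw [if_neg he]
  have hcount : ∑ b, ∑ t : Fin m → Fin w → Fin N, (∏ e : Fin m → Fin w, F b (fun i => t i (e i))) ≤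
      (N : ℝ) ^ (w * m) * (R + m * w ^ 2) := by
    rw [Finset.sum_comm]
    simp only [hprod]
    have h1 : ∀ t : Fin m → Fin w → Fin N, (∑ b, if ∀ e : Fin m → Fin w, ((fun i => t i (e i)), b) ∈ S then (1 : ℝ) else 0) =
        (((univ : Finset (Fin N)).filter fun b => ∀ e : Fin m → Fin w, ((fun i => t i (e i)), b) ∈ S).card : ℝ) := by
      intro t
      rw [Finset.card_filter]
      push_cast
      rfl
    simp only [h1]
    have h2 : ∀ t : Fin m → Fin w → Fin N,
        (((univ : Finset (Fin N)).filter fun b => ∀ e : Fin m → Fin w, ((fun i => t i (e i)), b) ∈ S).card : ℝ) ≤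
        R + N * (if ¬ ∀ i, Function.Injective (t i) then 1 else 0) := by
      intro t
      by_cases h3 : ∀ i, Function.Injective (t i)
      · rw [if_neg (not_not.2 h3)]
        have h4 := h t h3
        have h5 : (((univ : Finset (Fin N)).filter fun b => ∀ e : Fin m → Fin w, ((fun i => t i (e i)), b) ∈ S).card : ℝ) ≤ R := by
          exact_mod_cast h4
        linarith
      · rw [if_pos h3]
        have h4 : ((univ : Finset (Fin N)).filter fun b => ∀ e : Fin m → Fin w, ((fun i => t i (e i)), b) ∈ S).card ≤ N := by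
          refine (Finset.card_filter_le _ _).trans ?_
          simp
        have h5 : (((univ : Finset (Fin N)).filter fun b => ∀ e : Fin m → Fin w, ((fun i => t i (e i)), b) ∈ S).card : ℝ) ≤ N := by
          exact_mod_cast h4
        have h6 : (0 : ℝ) ≤ R := Nat.cast_nonneg R
        linarith
    refine (Finset.sum_le_sum fun t _ => h2 t).trans ?_
    rw [Finset.sum_add_distrib, ← Finset.mul_sum, Finset.sum_const, Finset.card_univ, nsmul_eq_mul]
    have h3 : (∑ t : Fin m → Fin w → Fin N, if ¬ ∀ i, Function.Injective (t i) then (1 : ℝ) else 0) =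
        (((univ : Finset (Fin m → Fin w → Fin N)).filter fun t => ¬ ∀ i, Function.Injective (t i)).card : ℝ) := by
      rw [Finset.card_filter]
      push_cast
      rfl
    rw [h3]
    have h4 : (N : ℝ) * (((univ : Finset (Fin m → Fin w → Fin N)).filter fun t => ¬ ∀ i, Function.Injective (t i)).card : ℝ) ≤
        m * w ^ 2 * (N : ℝ) ^ (w * m) := by exact_mod_cast card_noninj m w N
    have h5 : ((Fintype.card (Fin m → Fin w → Fin N) : ℕ) : ℝ) = (N : ℝ) ^ (w * m) := by
      simp [pow_mul]
    rw [h5]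
    linarith
  calc ((S.card : ℝ) / (N : ℝ) ^ (m + 1)) ^ (w ^ m) = ((∑ b, (∑ x, F b x) / (N : ℝ) ^ m) / N) ^ (w ^ m) := by
        rw [hS, ← Finset.sum_div, div_div, pow_succ]
    _ ≤ (∑ b, ((∑ x, F b x) / (N : ℝ) ^ m) ^ (w ^ m)) / N :=
        jensen _ (by simp) hN' _ (fun b => div_nonneg (Finset.sum_nonneg fun x _ => hF b x) (by positivity)) _
    _ ≤ (∑ b, (∑ t : Fin m → Fin w → Fin N, ∏ e : Fin m → Fin w, F b (fun i => t i (e i))) / (N : ℝ) ^ (w * m)) / N := by
        apply div_le_div_of_nonneg_right _ hN'.le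
        exact Finset.sum_le_sum fun b _ => box N w hN m (F b) (hF b)
    _ = (∑ b, ∑ t : Fin m → Fin w → Fin N, ∏ e : Fin m → Fin w, F b (fun i => t i (e i))) / (N : ℝ) ^ (w * m) / N := by
        rw [← Finset.sum_div]
    _ ≤ (N : ℝ) ^ (w * m) * (R + m * w ^ 2) / (N : ℝ) ^ (w * m) / N := by
        apply div_le_div_of_nonneg_right _ hN'.le
        apply div_le_div_of_nonneg_right hcount (by positivity)
    _ = (R + m * w ^ 2) / N := by
        rw [mul_div_assoc, mul_comm ((N : ℝ) ^ (w * m)), div_mul_cancel₀ _ (by positivity)]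

end Pool.Agent.H491.All
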