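import Mathlib
import Pool.Agent.H491.Der6
import Pool.Agent.H491.Box4

set_option autoImplicit false

/-! # Dense sets contain the patterns of the main lemma, far from the origin -/

namespace Pool.Agent.H491.Der

variable {D : ℕ}

/-- the shift -/
def sh (M : ℕ) (a : Fin D) (τ : (Fin D ⊕ PP D) → ℕ) (b : ℕ) (i : Fin D) : ℕ :=
  τ (Sum.inl i) + mmv M (fun q => τ (Sum.inr q)) i + if i = a then b else 0

theorem aa_eq {w : ℕ} (p y : Fin D → ℕ) (M : ℕ) (t : (Fin D ⊕ PP D) → Fin w → ℕ) (a : Fin D)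
    (e : (Fin D ⊕ PP D) → Fin w) (b : ℕ) : aa p y M t a e b = fun i => 2 * (y i + sh M a (fun κ => t κ (e κ)) b i) + p i := by
  funext i
  rw [aa, sh]
  ring

theorem sh_le (M : ℕ) (a : Fin D) (τ : (Fin D ⊕ PP D) → ℕ) (hτ : ∀ κ, τ κ ≤ M) (b : ℕ) (hb : b ≤ M) (i : Fin D) :
    sh M a τ b i ≤ (2 + 2 * Fintype.card (PP D)) * M := by
  have h1 : mmv M (fun q => τ (Sum.inr q)) i ≤ ∑ _q : PP D, 2 * M := by
    unfold mmv
    refine Finset.sum_le_sum fun q _ => ?_
    have := hτ (Sum.inr q)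
    beta_reduce
    split_ifs <;> omega
  rw [Finset.sum_const, Finset.card_univ, smul_eq_mul] at h1
  have h2 := hτ (Sum.inl i)
  have h3 : (2 + 2 * Fintype.card (PP D)) * M = M + M + Fintype.card (PP D) * (2 * M) := by ring
  unfold sh
  rw [h3]
  split_ifs <;> omega

theorem card_small {d : ℕ} (n H : ℕ) :
    ((Fintype.piFinset fun _ : Fin (d + 1) => Finset.range n).filter fun x => ∃ i, x i < H).card ≤ (d + 1) * H * n ^ d := by
  classical
  have h1 : ((Fintype.piFinset fun _ : Fin (d + 1) => Finset.range n).filter fun x => ∃ i, x i < H) ⊆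
      (Finset.univ : Finset (Fin (d + 1))).biUnion fun i => Fintype.piFinset fun j => if j = i then Finset.range H else Finset.range n := by
    intro x hx
    rw [Finset.mem_filter, Fintype.mem_piFinset] at hx
    obtain ⟨h2, i, hi⟩ := hx
    rw [Finset.mem_biUnion]
    refine ⟨i, Finset.mem_univ _, ?_⟩
    rw [Fintype.mem_piFinset]
    intro j
    by_cases hj : j = i
    · subst hj
      rw [if_pos rfl]
      exact Finset.mem_range.2 hi
    · rw [if_neg hj]
      exact h2 j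
  refine (Finset.card_le_card h1).trans (Finset.card_biUnion_le.trans ?_)
  have h2 : ∀ i : Fin (d + 1), (Fintype.piFinset fun j => if j = i then Finset.range H else Finset.range n).card = H * n ^ d := by
    intro i
    rw [Fintype.card_piFinset, ← Finset.mul_prod_erase _ _ (Finset.mem_univ i), if_pos rfl, Finset.card_range]
    congr 1
    rw [Finset.prod_congr rfl (g := fun _ => n)]
    · rw [Finset.prod_const, Finset.card_erase_of_mem (Finset.mem_univ i), Finset.card_univ, Fintype.card_fin]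
      simp
    · intro j hj
      rw [if_neg (Finset.ne_of_mem_erase hj), Finset.card_range]
  simp only [h2]
  rw [Finset.sum_const, Finset.card_univ, Fintype.card_fin, smul_eq_mul]
  apply le_of_eq
  ring

open Classical in
/-- averaging -/
theorem exists_base {d : ℕ} (m N Y n : ℕ) (eq : (Fin (d + 1) ⊕ PP (d + 1)) ≃ Fin m) (a : Fin (d + 1)) (hn : 0 < n)
    (hN : 0 < N) (X : Finset (Fin (d + 1) → ℕ)) (hX : ∀ x ∈ X, ∀ i, x i < n) (δ : ℝ) (hδ : δ * (n : ℝ) ^ (d + 1) < X.card)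
    (hn' : ((d : ℝ) + 1) * (((2 + 2 * Fintype.card (PP (d + 1))) * N + Y : ℕ) : ℝ) ≤ δ / 2 * n) :
    ∃ y : Fin (d + 1) → ℕ, (∀ i, Y ≤ y i) ∧ δ / 2 * (N : ℝ) ^ (m + 1) ≤
      (((Finset.univ : Finset ((Fin m → Fin N) × Fin N)).filter fun q =>
        (fun i => y i + sh N a (fun κ => (q.1 (eq κ) : ℕ)) q.2 i) ∈ X).card : ℝ) := by
  set H := (2 + 2 * Fintype.card (PP (d + 1))) * N with hH
  set YS : Finset (Fin (d + 1) → ℕ) := Fintype.piFinset fun _ => Finset.Ico Y n with hYS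
  have hYScard : (YS.card : ℝ) ≤ (n : ℝ) ^ (d + 1) := by
    rw [hYS, Fintype.card_piFinset_const, Nat.card_Ico]
    have : (n - Y) ^ (d + 1) ≤ n ^ (d + 1) := Nat.pow_le_pow_left (by omega) _
    exact_mod_cast this
  by_contra hcon
  push Not at hcon
  have h1 : ∀ y ∈ YS, (((Finset.univ : Finset ((Fin m → Fin N) × Fin N)).filter fun q =>
        (fun i => y i + sh N a (fun κ => (q.1 (eq κ) : ℕ)) q.2 i) ∈ X).card : ℝ) ≤ δ / 2 * (N : ℝ) ^ (m + 1) := by
    intro y hy
    rw [hYS, Fintype.mem_piFinset] at hy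
    exact (hcon y fun i => (Finset.mem_Ico.1 (hy i)).1).le
  have h2 : (∑ y ∈ YS, ((Finset.univ : Finset ((Fin m → Fin N) × Fin N)).filter fun q =>
        (fun i => y i + sh N a (fun κ => (q.1 (eq κ) : ℕ)) q.2 i) ∈ X).card) =
      ∑ q : (Fin m → Fin N) × Fin N, (YS.filter fun y => (fun i => y i + sh N a (fun κ => (q.1 (eq κ) : ℕ)) q.2 i) ∈ X).card := by
    simp only [Finset.card_filter]
    rw [Finset.sum_comm]
  have h3 : ∀ q : (Fin m → Fin N) × Fin N, X.card ≤
      (YS.filter fun y => (fun i => y i + sh N a (fun κ => (q.1 (eq κ) : ℕ)) q.2 i) ∈ X).card + (d + 1) * (H + Y) * n ^ d := by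
    intro q
    set s := sh N a (fun κ => (q.1 (eq κ) : ℕ)) q.2 with hs
    have hsH : ∀ i, s i ≤ H := sh_le N a _ (fun κ => (q.1 (eq κ)).2.le) _ q.2.2.le
    have h4 := Finset.card_filter_add_card_filter_not (s := X) (fun x => ∃ i, x i < H + Y)
    have h5 : (X.filter fun x => ∃ i, x i < H + Y).card ≤ (d + 1) * (H + Y) * n ^ d := by
      refine (Finset.card_le_card ?_).trans (card_small n (H + Y))
      intro x hx
      rw [Finset.mem_filter] at hx
      rw [Finset.mem_filter, Fintype.mem_piFinset]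
      exact ⟨fun i => Finset.mem_range.2 (hX x hx.1 i), hx.2⟩
    have h6 : (X.filter fun x => ¬ ∃ i, x i < H + Y).card ≤ (YS.filter fun y => (fun i => y i + s i) ∈ X).card := by
      apply Finset.card_le_card_of_injOn (fun x => fun i => x i - s i)
      · intro x hx
        rw [Finset.mem_coe, Finset.mem_filter] at hx
        obtain ⟨hx1, hx2⟩ := hx
        push Not at hx2
        rw [Finset.mem_coe, Finset.mem_filter, hYS, Fintype.mem_piFinset]
        constructor
        · intro i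
          have := hx2 i
          have := hsH i
          have := hX x hx1 i
          rw [Finset.mem_Ico]
          beta_reduce
          omega
        · have e : (fun i => x i - s i + s i) = x := by
            funext i
            have := hx2 i
            have := hsH i
            omega
          rw [e]
          exact hx1
      · intro x hx x' hx' h
        rw [Finset.mem_coe, Finset.mem_filter] at hx hx'
        have hx2 := hx.2
        have hx2' := hx'.2
        push Not at hx2 hx2'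
        funext i
        have h7 := congrFun h i
        have := hx2 i
        have := hx2' i
        have := hsH i
        simp only at h7
        omega
    omega
  have h4 : (N : ℝ) ^ (m + 1) * (X.card : ℝ) ≤ (∑ y ∈ YS, (((Finset.univ : Finset ((Fin m → Fin N) × Fin N)).filter fun q =>
        (fun i => y i + sh N a (fun κ => (q.1 (eq κ) : ℕ)) q.2 i) ∈ X).card : ℝ)) +
        (N : ℝ) ^ (m + 1) * (((d + 1) * (H + Y) * n ^ d : ℕ) : ℝ) := by
    have h5 := Finset.sum_le_sum fun (q : (Fin m → Fin N) × Fin N) (_ : q ∈ Finset.univ) => h3 q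
    rw [Finset.sum_add_distrib, ← h2, Finset.sum_const, Finset.sum_const, Finset.card_univ, Fintype.card_prod,
      Fintype.card_fun, Fintype.card_fin, Fintype.card_fin, smul_eq_mul, smul_eq_mul, ← pow_succ] at h5
    exact_mod_cast h5
  have h5 : (∑ y ∈ YS, (((Finset.univ : Finset ((Fin m → Fin N) × Fin N)).filter fun q =>
        (fun i => y i + sh N a (fun κ => (q.1 (eq κ) : ℕ)) q.2 i) ∈ X).card : ℝ)) ≤ (n : ℝ) ^ (d + 1) * (δ / 2 * (N : ℝ) ^ (m + 1)) := by
    refine (Finset.sum_le_sum h1).trans ?_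
    rw [Finset.sum_const, nsmul_eq_mul]
    apply mul_le_mul_of_nonneg_right hYScard
    have hδ0 : 0 ≤ δ / 2 := by
      by_contra hneg
      push Not at hneg
      have h6 : (0 : ℝ) < n := by exact_mod_cast hn
      have h7 : δ / 2 * (n : ℝ) < 0 := mul_neg_of_neg_of_pos hneg h6
      have h8 : (0 : ℝ) ≤ ((d : ℝ) + 1) * ((H + Y : ℕ) : ℝ) := by positivity
      linarith
    positivity
  have hNm : 0 ≤ (N : ℝ) ^ (m + 1) := by positivity
  have hn0 : (0 : ℝ) < n := by exact_mod_cast hn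
  have h6 : (((d + 1) * (H + Y) * n ^ d : ℕ) : ℝ) ≤ δ / 2 * (n : ℝ) ^ (d + 1) := by
    push_cast
    push_cast at hn'
    calc ((d : ℝ) + 1) * (H + Y) * (n : ℝ) ^ d ≤ (δ / 2 * n) * (n : ℝ) ^ d := mul_le_mul_of_nonneg_right hn' (by positivity)
      _ = _ := by ring
  have hN0 : (0 : ℝ) < N := by exact_mod_cast hN
  have hNm' : (0 : ℝ) < (N : ℝ) ^ (m + 1) := by positivity
  have h7 : (N : ℝ) ^ (m + 1) * (X.card : ℝ) ≤ (N : ℝ) ^ (m + 1) * (δ * (n : ℝ) ^ (d + 1)) := by
    calc _ ≤ _ := h4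
      _ ≤ (n : ℝ) ^ (d + 1) * (δ / 2 * (N : ℝ) ^ (m + 1)) + (N : ℝ) ^ (m + 1) * (δ / 2 * (n : ℝ) ^ (d + 1)) :=
          add_le_add h5 (mul_le_mul_of_nonneg_left h6 hNm)
      _ = _ := by ring
  have h8 := le_of_mul_le_mul_left h7 hNm'
  linarith

/-- **Rigidity.** -/
theorem rigid {d : ℕ} (p : Fin (d + 1) → ℕ) (hp : ∀ i, 2 ≤ p i) (a : Fin (d + 1)) (hpa : Even (p a))
    (l' : List (Fin (d + 1))) (hal : a ∉ l') (hl' : l'.Nodup) (c c₀ : V (d + 1)) (hc₀ : c₀ ≠ 0) (hc₀a : c₀ ∈ U a)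
    (hTh : Th l' c₀ = c₀) (hcc : c - c₀ ∈ UU l') (δ : ℝ) (hδ : 0 < δ) (r : ℕ) :
    ∃ n₀ : ℕ, ∀ n : ℕ, n₀ ≤ n → ∀ (L : Subfield ℝ), Transcendental L Real.pi →
      ∀ (E : Submodule L ℝ), Module.rank L E ≤ (r : Cardinal) → ∀ X : Finset (Fin (d + 1) → ℕ),
      (∀ x ∈ X, (∀ i, x i < n) ∧ GG c (fun i => 2 * x i + p i) ∈ E) → (X.card : ℝ) ≤ δ * (n : ℝ) ^ (d + 1) := by
  classical
  set w := (d + 1) + (d + 1) * 2 ^ (Fintype.card (PP (d + 1))) + 2 with hw
  set m := Fintype.card (Fin (d + 1) ⊕ PP (d + 1)) with hm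
  let eq : (Fin (d + 1) ⊕ PP (d + 1)) ≃ Fin m := Fintype.equivFin _
  set R := w ^ m * r + 2 ^ (Fintype.card (PP (d + 1))) with hR
  obtain ⟨N, hN⟩ := exists_nat_gt (((R : ℝ) + m * w ^ 2) / (δ / 2) ^ (w ^ m))
  have hden : 0 < (δ / 2) ^ (w ^ m) := by positivity
  have hN0 : 0 < N := by
    have h1 : (0 : ℝ) ≤ ((R : ℝ) + m * w ^ 2) / (δ / 2) ^ (w ^ m) := by positivity
    have h2 : (0 : ℝ) < N := lt_of_le_of_lt h1 hN
    exact_mod_cast h2
  have hN0' : (0 : ℝ) < N := by exact_mod_cast hN0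
  -- the thresholds
  have hYt : ∀ t : (Fin (d + 1) ⊕ PP (d + 1)) → Fin w → Fin N, ∃ Y : ℕ, (∀ κ, Function.Injective (t κ)) →
      ∀ y : Fin (d + 1) → ℕ, (∀ i, Y ≤ y i) → ∀ (L : Subfield ℝ), Transcendental L Real.pi →
      ∀ (E : Submodule L ℝ) (r : ℕ), Module.rank L E ≤ (r : Cardinal) → ∀ B : Finset ℕ,
      (∀ b ∈ B, ∀ e, GG c (aa p y N (fun κ k => (t κ k : ℕ)) a e b) ∈ E) →
      B.card < w ^ (Fintype.card (Fin (d + 1) ⊕ PP (d + 1))) * r + 2 ^ (Fintype.card (PP (d + 1))) := by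
    intro t
    by_cases h : ∀ κ, Function.Injective (t κ)
    · obtain ⟨Y, hY⟩ := analytic p hp a hpa l' hal hl' c c₀ hc₀ hc₀a hTh hcc w le_rfl N (fun κ k => (t κ k : ℕ))
        (fun κ => Fin.val_injective.comp (h κ)) (fun κ k => (t κ k).2.le)
      exact ⟨Y, fun _ => hY⟩
    · exact ⟨0, fun h' => absurd h' h⟩
  choose Yt hYt using hYt
  set Y := ∑ t, Yt t with hY
  have hYle : ∀ t, Yt t ≤ Y := fun t => Finset.single_le_sum (f := Yt) (fun _ _ => Nat.zero_le _) (Finset.mem_univ t)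
  obtain ⟨n₀, hn₀⟩ := exists_nat_gt ((((d : ℝ) + 1) * (((2 + 2 * Fintype.card (PP (d + 1))) * N + Y : ℕ) : ℝ)) / (δ / 2))
  refine ⟨n₀ + 1, ?_⟩
  intro n hn L hL E hE X hX
  by_contra hcon
  push Not at hcon
  have hnn : (n₀ : ℝ) ≤ n := by exact_mod_cast (by omega : n₀ ≤ n)
  have hn' : ((d : ℝ) + 1) * (((2 + 2 * Fintype.card (PP (d + 1))) * N + Y : ℕ) : ℝ) ≤ δ / 2 * n := by
    rw [div_lt_iff₀ (by positivity)] at hn₀
    nlinarith
  obtain ⟨y, hy, hS⟩ := exists_base m N Y n eq a (by omega) hN0 X (fun x hx => (hX x hx).1) δ hcon hn'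
  set S := (Finset.univ : Finset ((Fin m → Fin N) × Fin N)).filter fun q =>
        (fun i => y i + sh N a (fun κ => (q.1 (eq κ) : ℕ)) q.2 i) ∈ X with hSdef
  have hd := All.density m w N R hN0 S ?_
  · have h1 : δ / 2 ≤ (S.card : ℝ) / (N : ℝ) ^ (m + 1) := by
      rw [le_div_iff₀ (by positivity)]
      exact hS
    have h2 : (δ / 2) ^ (w ^ m) ≤ ((S.card : ℝ) / (N : ℝ) ^ (m + 1)) ^ (w ^ m) := pow_le_pow_left₀ (by positivity) h1 _
    have h3 := h2.trans hd
    rw [div_lt_iff₀ hden] at hN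
    rw [le_div_iff₀ hN0'] at h3
    linarith
  · intro t ht
    set Bt := (Finset.univ : Finset (Fin N)).filter fun b => ∀ e : Fin m → Fin w, ((fun i => t i (e i)), b) ∈ S with hBt
    have h1 := hYt (fun κ => t (eq κ)) (fun κ => ht (eq κ)) y (fun i => (hYle _).trans (hy i)) L hL E r hE
      (Bt.image fun b : Fin N => (b : ℕ)) (by
        intro b' hb' e
        rw [Finset.mem_image] at hb'
        obtain ⟨b, hb, rfl⟩ := hb'
        rw [hBt, Finset.mem_filter] at hb
        have h2 := hb.2 (fun i => e (eq.symm i))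
        rw [hSdef, Finset.mem_filter] at h2
        have h3 := (hX _ h2.2).2
        rw [aa_eq]
        simp only [Equiv.symm_apply_apply] at h3
        exact h3)
    rw [Finset.card_image_of_injective _ Fin.val_injective] at h1
    exact h1.le

end Pool.Agent.H491.Der
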