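import Mathlib
import Pool.Agent.H491.Der7
import Pool.Agent.H491.Pr5

set_option autoImplicit false

/-! # Patterns with two scales; rigidity uniformly in the dimension -/

namespace Pool.Agent.H491.All

open Finset

open Classical in
theorem density2 (m w N K R : ℕ) (hN : 0 < N) (hK : 0 < K) (S : Finset ((Fin m → Fin N) × Fin K))
    (h : ∀ t : Fin m → Fin w → Fin N, (∀ i, Function.Injective (t i)) →
      ((univ : Finset (Fin K)).filter fun b => ∀ e : Fin m → Fin w, ((fun i => t i (e i)), b) ∈ S).card ≤ R) :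
    ((S.card : ℝ) / ((N : ℝ) ^ m * K)) ^ (w ^ m) ≤ R / K + m * w ^ 2 / N := by
  have hN' : (0 : ℝ) < N := by exact_mod_cast hN
  have hK' : (0 : ℝ) < K := by exact_mod_cast hK
  let F : Fin K → (Fin m → Fin N) → ℝ := fun b x => if (x, b) ∈ S then 1 else 0
  have hF : ∀ b x, 0 ≤ F b x := fun b x => by simp only [F]; split_ifs <;> norm_num
  have hS : (S.card : ℝ) = ∑ b, ∑ x, F b x := by
    have h1 : (S.card : ℝ) = ∑ p : (Fin m → Fin N) × Fin K, if p ∈ S then (1 : ℝ) else 0 := by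
      rw [Finset.sum_ite_mem, Finset.univ_inter]
      simp
    rw [h1, Fintype.sum_prod_type, Finset.sum_comm]
  have hprod : ∀ (b : Fin K) (t : Fin m → Fin w → Fin N), (∏ e : Fin m → Fin w, F b (fun i => t i (e i))) =
      if ∀ e : Fin m → Fin w, ((fun i => t i (e i)), b) ∈ S then (1 : ℝ) else 0 := by
    intro b t
    split_ifs with h1
    · apply Finset.prod_eq_one
      intro e _
      simp only [F]
      rw [if_pos (h1 e)]
    · push Not at h1
      obtain ⟨e, he⟩ := h1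
      apply Finset.prod_eq_zero (Finset.mem_univ e)
      simp only [F]
      rw [if_neg he]
  have hcount : ∑ b, ∑ t : Fin m → Fin w → Fin N, (∏ e : Fin m → Fin w, F b (fun i => t i (e i))) ≤
      (N : ℝ) ^ (w * m) * (R + K * (m * w ^ 2) / N) := by
    rw [Finset.sum_comm]
    simp only [hprod]
    have h1 : ∀ t : Fin m → Fin w → Fin N, (∑ b, if ∀ e : Fin m → Fin w, ((fun i => t i (e i)), b) ∈ S then (1 : ℝ) else 0) =
        (((univ : Finset (Fin K)).filter fun b => ∀ e : Fin m → Fin w, ((fun i => t i (e i)), b) ∈ S).card : ℝ) := by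
      intro t
      rw [Finset.card_filter]
      push_cast
      rfl
    simp only [h1]
    have h2 : ∀ t : Fin m → Fin w → Fin N,
        (((univ : Finset (Fin K)).filter fun b => ∀ e : Fin m → Fin w, ((fun i => t i (e i)), b) ∈ S).card : ℝ) ≤
        R + K * (if ¬ ∀ i, Function.Injective (t i) then 1 else 0) := by
      intro t
      by_cases h3 : ∀ i, Function.Injective (t i)
      · rw [if_neg (not_not.2 h3)]
        have h4 := h t h3
        have h5 : (((univ : Finset (Fin K)).filter fun b => ∀ e : Fin m → Fin w, ((fun i => t i (e i)), b) ∈ S).card : ℝ) ≤ R := by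
          exact_mod_cast h4
        linarith
      · rw [if_pos h3]
        have h4 : ((univ : Finset (Fin K)).filter fun b => ∀ e : Fin m → Fin w, ((fun i => t i (e i)), b) ∈ S).card ≤ K := by
          refine (Finset.card_filter_le _ _).trans ?_
          simp
        have h5 : (((univ : Finset (Fin K)).filter fun b => ∀ e : Fin m → Fin w, ((fun i => t i (e i)), b) ∈ S).card : ℝ) ≤ K := by
          exact_mod_cast h4
        have h6 : (0 : ℝ) ≤ R := Nat.cast_nonneg R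
        linarith
    refine (Finset.sum_le_sum fun t _ => h2 t).trans ?_
    rw [Finset.sum_add_distrib, ← Finset.mul_sum, Finset.sum_const, Finset.card_univ, nsmul_eq_mul]
    have h3 : (∑ t : Fin m → Fin w → Fin N, if ¬ ∀ i, Function.Injective (t i) then (1 : ℝ) else 0) =
        (((univ : Finset (Fin m → Fin w → Fin N)).filter fun t => ¬ ∀ i, Function.Injective (t i)).card : ℝ) := by
      rw [Finset.card_filter]
      push_cast
      rfl
    rw [h3]
    have h4 : (N : ℝ) * (((univ : Finset (Fin m → Fin w → Fin N)).filter fun t => ¬ ∀ i, Function.Injective (t i)).card : ℝ) ≤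
        m * w ^ 2 * (N : ℝ) ^ (w * m) := by exact_mod_cast card_noninj m w N
    have h5 : ((Fintype.card (Fin m → Fin w → Fin N) : ℕ) : ℝ) = (N : ℝ) ^ (w * m) := by
      simp [pow_mul]
    rw [h5]
    have h6 : (K : ℝ) * (((univ : Finset (Fin m → Fin w → Fin N)).filter fun t => ¬ ∀ i, Function.Injective (t i)).card : ℝ) ≤
        (N : ℝ) ^ (w * m) * (K * (m * w ^ 2) / N) := by
      rw [mul_comm, ← le_div_iff₀ hK'] 
      calc _ ≤ m * w ^ 2 * (N : ℝ) ^ (w * m) / N := by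
            rw [le_div_iff₀ hN', mul_comm]
            exact h4
        _ = _ := by field_simp
    linarith
  calc ((S.card : ℝ) / ((N : ℝ) ^ m * K)) ^ (w ^ m) = ((∑ b, (∑ x, F b x) / (N : ℝ) ^ m) / K) ^ (w ^ m) := by
        rw [hS, ← Finset.sum_div, div_div]
    _ ≤ (∑ b, ((∑ x, F b x) / (N : ℝ) ^ m) ^ (w ^ m)) / K :=
        jensen _ (by simp) hK' _ (fun b => div_nonneg (Finset.sum_nonneg fun x _ => hF b x) (by positivity)) _
    _ ≤ (∑ b, (∑ t : Fin m → Fin w → Fin N, ∏ e : Fin m → Fin w, F b (fun i => t i (e i))) / (N : ℝ) ^ (w * m)) / K := by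
        apply div_le_div_of_nonneg_right _ hK'.le
        exact Finset.sum_le_sum fun b _ => box N w hN m (F b) (hF b)
    _ = (∑ b, ∑ t : Fin m → Fin w → Fin N, ∏ e : Fin m → Fin w, F b (fun i => t i (e i))) / (N : ℝ) ^ (w * m) / K := by
        rw [← Finset.sum_div]
    _ ≤ (N : ℝ) ^ (w * m) * (R + K * (m * w ^ 2) / N) / (N : ℝ) ^ (w * m) / K := by
        apply div_le_div_of_nonneg_right _ hK'.le
        apply div_le_div_of_nonneg_right hcount (by positivity)
    _ = R / K + m * w ^ 2 / N := by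
        field_simp

end Pool.Agent.H491.All

namespace Pool.Agent.H491.Der

variable {D : ℕ}

theorem sh_le2 (M : ℕ) (a : Fin D) (τ : (Fin D ⊕ PP D) → ℕ) (hτ : ∀ κ, τ κ ≤ M) (b : ℕ) (i : Fin D) :
    sh M a τ b i ≤ (1 + 2 * Fintype.card (PP D)) * M + b := by
  have h1 : mmv M (fun q => τ (Sum.inr q)) i ≤ ∑ _q : PP D, 2 * M := by
    unfold mmv
    refine Finset.sum_le_sum fun q _ => ?_
    have := hτ (Sum.inr q)
    beta_reduce
    split_ifs <;> omega
  rw [Finset.sum_const, Finset.card_univ, smul_eq_mul] at h1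
  have h2 := hτ (Sum.inl i)
  have h3 : (1 + 2 * Fintype.card (PP D)) * M = M + Fintype.card (PP D) * (2 * M) := by ring
  unfold sh
  rw [h3]
  split_ifs <;> omega

open Classical in
/-- averaging with two scales -/
theorem exists_base2 {d : ℕ} (m N K Y n : ℕ) (eq : (Fin (d + 1) ⊕ PP (d + 1)) ≃ Fin m) (a : Fin (d + 1)) (hn : 0 < n)
    (hN : 0 < N) (hK : 0 < K) (X : Finset (Fin (d + 1) → ℕ)) (hX : ∀ x ∈ X, ∀ i, x i < n) (δ : ℝ) (hδ : δ * (n : ℝ) ^ (d + 1) < X.card)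
    (hn' : ((d : ℝ) + 1) * (((1 + 2 * Fintype.card (PP (d + 1))) * N + K + Y : ℕ) : ℝ) ≤ δ / 2 * n) :
    ∃ y : Fin (d + 1) → ℕ, (∀ i, Y ≤ y i) ∧ δ / 2 * ((N : ℝ) ^ m * K) ≤
      (((Finset.univ : Finset ((Fin m → Fin N) × Fin K)).filter fun q =>
        (fun i => y i + sh N a (fun κ => (q.1 (eq κ) : ℕ)) q.2 i) ∈ X).card : ℝ) := by
  set H := (1 + 2 * Fintype.card (PP (d + 1))) * N + K with hH
  set YS : Finset (Fin (d + 1) → ℕ) := Fintype.piFinset fun _ => Finset.Ico Y n with hYS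
  have hYScard : (YS.card : ℝ) ≤ (n : ℝ) ^ (d + 1) := by
    rw [hYS, Fintype.card_piFinset_const, Nat.card_Ico]
    have : (n - Y) ^ (d + 1) ≤ n ^ (d + 1) := Nat.pow_le_pow_left (by omega) _
    exact_mod_cast this
  by_contra hcon
  push Not at hcon
  have h1 : ∀ y ∈ YS, (((Finset.univ : Finset ((Fin m → Fin N) × Fin K)).filter fun q =>
        (fun i => y i + sh N a (fun κ => (q.1 (eq κ) : ℕ)) q.2 i) ∈ X).card : ℝ) ≤ δ / 2 * ((N : ℝ) ^ m * K) := by
    intro y hy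
    rw [hYS, Fintype.mem_piFinset] at hy
    exact (hcon y fun i => (Finset.mem_Ico.1 (hy i)).1).le
  have h2 : (∑ y ∈ YS, ((Finset.univ : Finset ((Fin m → Fin N) × Fin K)).filter fun q =>
        (fun i => y i + sh N a (fun κ => (q.1 (eq κ) : ℕ)) q.2 i) ∈ X).card) =
      ∑ q : (Fin m → Fin N) × Fin K, (YS.filter fun y => (fun i => y i + sh N a (fun κ => (q.1 (eq κ) : ℕ)) q.2 i) ∈ X).card := by
    simp only [Finset.card_filter]
    rw [Finset.sum_comm]
  have h3 : ∀ q : (Fin m → Fin N) × Fin K, X.card ≤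
      (YS.filter fun y => (fun i => y i + sh N a (fun κ => (q.1 (eq κ) : ℕ)) q.2 i) ∈ X).card + (d + 1) * (H + Y) * n ^ d := by
    intro q
    set s := sh N a (fun κ => (q.1 (eq κ) : ℕ)) q.2 with hs
    have hsH : ∀ i, s i ≤ H := fun i => by
      have h1 := sh_le2 N a (fun κ => (q.1 (eq κ) : ℕ)) (fun κ => (q.1 (eq κ)).2.le) q.2 i
      have h2 := q.2.2
      rw [hs, hH]
      omega
    have h4 := Finset.card_filter_add_card_filter_not (s := X) (fun x => ∃ i, x i < H + Y)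
    have h5 : (X.filter fun x => ∃ i, x i < H + Y).card ≤ (d + 1) * (H + Y) * n ^ d := by
      refine (Finset.card_le_card ?_).trans (card_small n (H + Y))
      intro x hx
      rw [Finset.mem_filter] at hx
      rw [Finset.mem_filter, Fintype.mem_piFinset]
      exact ⟨fun i => Finset.mem_range.2 (hX x hx.1 i), hx.2⟩
    have h6 : (X.filter fun x => ¬ ∃ i, x i < H + Y).card ≤ (YS.filter fun y => (fun i => y i + s i) ∈ X).card := by
      apply Finset.card_le_card_of_injOn (fun x => fun i => x i - s i)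
      · intro x hx
        rw [Finset.mem_coe, Finset.mem_filter] at hx
        obtain ⟨hx1, hx2⟩ := hx
        push Not at hx2
        rw [Finset.mem_coe, Finset.mem_filter, hYS, Fintype.mem_piFinset]
        constructor
        · intro i
          have := hx2 i
          have := hsH i
          have := hX x hx1 i
          rw [Finset.mem_Ico]
          beta_reduce
          omega
        · have e : (fun i => x i - s i + s i) = x := by
            funext i
            have := hx2 i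
            have := hsH i
            omega
          rw [e]
          exact hx1
      · intro x hx x' hx' h
        rw [Finset.mem_coe, Finset.mem_filter] at hx hx'
        have hx2 := hx.2
        have hx2' := hx'.2
        push Not at hx2 hx2'
        funext i
        have h7 := congrFun h i
        have := hx2 i
        have := hx2' i
        have := hsH i
        simp only at h7
        omega
    omega
  have h4 : ((N : ℝ) ^ m * K) * (X.card : ℝ) ≤ (∑ y ∈ YS, (((Finset.univ : Finset ((Fin m → Fin N) × Fin K)).filter fun q =>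
        (fun i => y i + sh N a (fun κ => (q.1 (eq κ) : ℕ)) q.2 i) ∈ X).card : ℝ)) +
        ((N : ℝ) ^ m * K) * (((d + 1) * (H + Y) * n ^ d : ℕ) : ℝ) := by
    have h5 := Finset.sum_le_sum fun (q : (Fin m → Fin N) × Fin K) (_ : q ∈ Finset.univ) => h3 q
    rw [Finset.sum_add_distrib, ← h2, Finset.sum_const, Finset.sum_const, Finset.card_univ, Fintype.card_prod,
      Fintype.card_fun, Fintype.card_fin, Fintype.card_fin, Fintype.card_fin, smul_eq_mul, smul_eq_mul] at h5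
    exact_mod_cast h5
  have h5 : (∑ y ∈ YS, (((Finset.univ : Finset ((Fin m → Fin N) × Fin K)).filter fun q =>
        (fun i => y i + sh N a (fun κ => (q.1 (eq κ) : ℕ)) q.2 i) ∈ X).card : ℝ)) ≤ (n : ℝ) ^ (d + 1) * (δ / 2 * ((N : ℝ) ^ m * K)) := by
    refine (Finset.sum_le_sum h1).trans ?_
    rw [Finset.sum_const, nsmul_eq_mul]
    apply mul_le_mul_of_nonneg_right hYScard
    have hδ0 : 0 ≤ δ / 2 := by
      by_contra hneg
      push Not at hneg
      have h6 : (0 : ℝ) < n := by exact_mod_cast hn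
      have h7 : δ / 2 * (n : ℝ) < 0 := mul_neg_of_neg_of_pos hneg h6
      have h8 : (0 : ℝ) ≤ ((d : ℝ) + 1) * ((H + Y : ℕ) : ℝ) := by positivity
      linarith
    positivity
  have hNm : 0 ≤ ((N : ℝ) ^ m * K) := by positivity
  have hn0 : (0 : ℝ) < n := by exact_mod_cast hn
  have h6 : (((d + 1) * (H + Y) * n ^ d : ℕ) : ℝ) ≤ δ / 2 * (n : ℝ) ^ (d + 1) := by
    push_cast
    push_cast at hn'
    calc ((d : ℝ) + 1) * (H + Y) * (n : ℝ) ^ d ≤ (δ / 2 * n) * (n : ℝ) ^ d := mul_le_mul_of_nonneg_right hn' (by positivity)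
      _ = _ := by ring
  have hN0 : (0 : ℝ) < N := by exact_mod_cast hN
  have hK0 : (0 : ℝ) < K := by exact_mod_cast hK
  have hNm' : (0 : ℝ) < ((N : ℝ) ^ m * K) := by positivity
  have h7 : ((N : ℝ) ^ m * K) * (X.card : ℝ) ≤ ((N : ℝ) ^ m * K) * (δ * (n : ℝ) ^ (d + 1)) := by
    calc _ ≤ _ := h4
      _ ≤ (n : ℝ) ^ (d + 1) * (δ / 2 * ((N : ℝ) ^ m * K)) + ((N : ℝ) ^ m * K) * (δ / 2 * (n : ℝ) ^ (d + 1)) :=
          add_le_add h5 (mul_le_mul_of_nonneg_left h6 hNm)
      _ = _ := by ring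
  have h8 := le_of_mul_le_mul_left h7 hNm'
  linarith

/-- **Rigidity**, uniformly in the dimension. -/
theorem rigidG {d : ℕ} (p : Fin (d + 1) → ℕ) (a : Fin (d + 1)) (c : V (d + 1)) (w μ : ℕ)
    (hyp : ∀ (M : ℕ) (t : (Fin (d + 1) ⊕ PP (d + 1)) → Fin w → ℕ), (∀ κ, Function.Injective (t κ)) → (∀ κ k, t κ k ≤ M) →
      ∃ Y : ℕ, ∀ y : Fin (d + 1) → ℕ, (∀ i, Y ≤ y i) → ∀ (L : Subfield ℝ), Transcendental L Real.pi →
      ∀ (E : Submodule L ℝ) (r : ℕ), Module.rank L E ≤ (r : Cardinal) → ∀ B : Finset ℕ,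
      (∀ b ∈ B, ∀ e, GG c (aa p y M t a e b) ∈ E) →
      B.card < w ^ (Fintype.card (Fin (d + 1) ⊕ PP (d + 1))) * r + μ) (δ : ℝ) (hδ : 0 < δ) :
    ∃ C : ℕ, ∀ n r : ℕ, C * (r + 1) ≤ n → ∀ (L : Subfield ℝ), Transcendental L Real.pi →
      ∀ (E : Submodule L ℝ), Module.rank L E ≤ (r : Cardinal) → ∀ X : Finset (Fin (d + 1) → ℕ),
      (∀ x ∈ X, (∀ i, x i < n) ∧ GG c (fun i => 2 * x i + p i) ∈ E) → (X.card : ℝ) ≤ δ * (n : ℝ) ^ (d + 1) := by
  classical
  set m := Fintype.card (Fin (d + 1) ⊕ PP (d + 1)) with hm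
  let eq : (Fin (d + 1) ⊕ PP (d + 1)) ≃ Fin m := Fintype.equivFin _
  have hden : 0 < (δ / 2) ^ (w ^ m) := by positivity
  obtain ⟨N, hN⟩ := exists_nat_gt ((m * w ^ 2 : ℝ) * 2 / (δ / 2) ^ (w ^ m))
  have hN0 : 0 < N := by
    have h1 : (0 : ℝ) ≤ (m * w ^ 2 : ℝ) * 2 / (δ / 2) ^ (w ^ m) := by positivity
    have h2 : (0 : ℝ) < N := lt_of_le_of_lt h1 hN
    exact_mod_cast h2
  have hN0' : (0 : ℝ) < N := by exact_mod_cast hN0
  obtain ⟨c₁, hc₁⟩ := exists_nat_gt (((w : ℝ) ^ m + μ) * 2 / (δ / 2) ^ (w ^ m))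
  have hc₁0 : 0 < c₁ := by
    have h1 : (0 : ℝ) ≤ ((w : ℝ) ^ m + μ) * 2 / (δ / 2) ^ (w ^ m) := by positivity
    have h2 : (0 : ℝ) < c₁ := lt_of_le_of_lt h1 hc₁
    exact_mod_cast h2
  -- the thresholds
  have hYt : ∀ t : (Fin (d + 1) ⊕ PP (d + 1)) → Fin w → Fin N, ∃ Y : ℕ, (∀ κ, Function.Injective (t κ)) →
      ∀ y : Fin (d + 1) → ℕ, (∀ i, Y ≤ y i) → ∀ (L : Subfield ℝ), Transcendental L Real.pi →
      ∀ (E : Submodule L ℝ) (r : ℕ), Module.rank L E ≤ (r : Cardinal) → ∀ B : Finset ℕ,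
      (∀ b ∈ B, ∀ e, GG c (aa p y N (fun κ k => (t κ k : ℕ)) a e b) ∈ E) →
      B.card < w ^ (Fintype.card (Fin (d + 1) ⊕ PP (d + 1))) * r + μ := by
    intro t
    by_cases h : ∀ κ, Function.Injective (t κ)
    · obtain ⟨Y, hY⟩ := hyp N (fun κ k => (t κ k : ℕ)) (fun κ => Fin.val_injective.comp (h κ)) (fun κ k => (t κ k).2.le)
      exact ⟨Y, fun _ => hY⟩
    · exact ⟨0, fun h' => absurd h' h⟩
  choose Yt hYt using hYt
  set Y := ∑ t, Yt t with hY
  have hYle : ∀ t, Yt t ≤ Y := fun t => Finset.single_le_sum (f := Yt) (fun _ _ => Nat.zero_le _) (Finset.mem_univ t)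
  obtain ⟨n₀, hn₀⟩ := exists_nat_gt ((((d : ℝ) + 1) * (((1 + 2 * Fintype.card (PP (d + 1))) * N + c₁ + Y : ℕ) : ℝ)) / (δ / 2))
  refine ⟨n₀ + 1, ?_⟩
  intro n r hn L hL E hE X hX
  by_contra hcon
  push Not at hcon
  set K := c₁ * (r + 1) with hK
  have hK0 : 0 < K := Nat.mul_pos hc₁0 (Nat.succ_pos r)
  have hK0' : (0 : ℝ) < K := by exact_mod_cast hK0
  set R := w ^ m * r + μ with hR
  have hn1 : 0 < n := lt_of_lt_of_le (Nat.mul_pos (Nat.succ_pos n₀) (Nat.succ_pos r)) hn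
  have hnn : (n₀ : ℝ) * (r + 1) ≤ n := by
    have h1 : n₀ * (r + 1) ≤ n := (Nat.mul_le_mul_right _ (Nat.le_succ n₀)).trans hn
    exact_mod_cast h1
  have hn' : ((d : ℝ) + 1) * (((1 + 2 * Fintype.card (PP (d + 1))) * N + K + Y : ℕ) : ℝ) ≤ δ / 2 * n := by
    rw [div_lt_iff₀ (by positivity)] at hn₀
    have h1 : (((1 + 2 * Fintype.card (PP (d + 1))) * N + K + Y : ℕ) : ℝ) ≤
        (((1 + 2 * Fintype.card (PP (d + 1))) * N + c₁ + Y : ℕ) : ℝ) * (r + 1) := by
      have h2 : (1 + 2 * Fintype.card (PP (d + 1))) * N + K + Y ≤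
          ((1 + 2 * Fintype.card (PP (d + 1))) * N + c₁ + Y) * (r + 1) := by
        rw [hK]
        have h3 : (1 + 2 * Fintype.card (PP (d + 1))) * N ≤ (1 + 2 * Fintype.card (PP (d + 1))) * N * (r + 1) :=
          Nat.le_mul_of_pos_right _ (Nat.succ_pos r)
        have h4 : Y ≤ Y * (r + 1) := Nat.le_mul_of_pos_right _ (Nat.succ_pos r)
        calc _ ≤ (1 + 2 * Fintype.card (PP (d + 1))) * N * (r + 1) + c₁ * (r + 1) + Y * (r + 1) := by omega
          _ = _ := by ring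
      exact_mod_cast h2
    have h5 : (0 : ℝ) ≤ (r : ℝ) + 1 := by positivity
    calc _ ≤ ((d : ℝ) + 1) * ((((1 + 2 * Fintype.card (PP (d + 1))) * N + c₁ + Y : ℕ) : ℝ) * (r + 1)) :=
          mul_le_mul_of_nonneg_left h1 (by positivity)
      _ = (((d : ℝ) + 1) * (((1 + 2 * Fintype.card (PP (d + 1))) * N + c₁ + Y : ℕ) : ℝ)) * (r + 1) := by ring
      _ ≤ (n₀ * (δ / 2)) * (r + 1) := mul_le_mul_of_nonneg_right hn₀.le h5
      _ = (δ / 2) * (n₀ * (r + 1)) := by ring
      _ ≤ δ / 2 * n := mul_le_mul_of_nonneg_left hnn (by positivity)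
  obtain ⟨y, hy, hS⟩ := exists_base2 m N K Y n eq a hn1 hN0 hK0 X (fun x hx => (hX x hx).1) δ hcon hn'
  set S := (Finset.univ : Finset ((Fin m → Fin N) × Fin K)).filter fun q =>
        (fun i => y i + sh N a (fun κ => (q.1 (eq κ) : ℕ)) q.2 i) ∈ X with hSdef
  have hd := All.density2 m w N K R hN0 hK0 S ?_
  · have h1 : δ / 2 ≤ (S.card : ℝ) / ((N : ℝ) ^ m * K) := by
      rw [le_div_iff₀ (by positivity)]
      exact hS
    have h2 : (δ / 2) ^ (w ^ m) ≤ ((S.card : ℝ) / ((N : ℝ) ^ m * K)) ^ (w ^ m) := pow_le_pow_left₀ (by positivity) h1 _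
    have h3 := h2.trans hd
    have h4 : (m * w ^ 2 : ℝ) / N < (δ / 2) ^ (w ^ m) / 2 := by
      rw [div_lt_iff₀ hden] at hN
      rw [div_lt_iff₀ hN0']
      linarith
    have h5 : (R : ℝ) / K < (δ / 2) ^ (w ^ m) / 2 := by
      rw [div_lt_iff₀ hden] at hc₁
      rw [div_lt_iff₀ hK0', hR, hK]
      push_cast
      have h6 : ((w : ℝ) ^ m * r + μ) ≤ ((w : ℝ) ^ m + μ) * (r + 1) := by
        have h7 : (0 : ℝ) ≤ (w : ℝ) ^ m := by positivity
        have h8 : (0 : ℝ) ≤ (μ : ℝ) := Nat.cast_nonneg _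
        have h9 : (0 : ℝ) ≤ (r : ℝ) := Nat.cast_nonneg _
        nlinarith
      have h7 : (0 : ℝ) < (r : ℝ) + 1 := by positivity
      calc ((w : ℝ) ^ m * r + μ) ≤ ((w : ℝ) ^ m + μ) * (r + 1) := h6
        _ < (c₁ * (δ / 2) ^ (w ^ m) / 2) * (r + 1) := by
            apply mul_lt_mul_of_pos_right _ h7
            linarith
        _ = _ := by ring
    linarith
  · intro t ht
    have h1 := hYt (fun κ => t (eq κ)) (fun κ => ht (eq κ)) y (fun i => (hYle _).trans (hy i)) L hL E r hE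
      (((Finset.univ : Finset (Fin K)).filter fun b => ∀ e : Fin m → Fin w, ((fun i => t i (e i)), b) ∈ S).image
        fun b : Fin K => (b : ℕ)) (by
        intro b' hb' e
        rw [Finset.mem_image] at hb'
        obtain ⟨b, hb, rfl⟩ := hb'
        rw [Finset.mem_filter] at hb
        have h2 := hb.2 (fun i => e (eq.symm i))
        rw [hSdef, Finset.mem_filter] at h2
        have h3 := (hX _ h2.2).2
        rw [aa_eq]
        simp only [Equiv.symm_apply_apply] at h3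
        exact h3)
    rw [Finset.card_image_of_injective _ Fin.val_injective] at h1
    exact h1.le

/-- an even letter -/
theorem rigidU {d : ℕ} (p : Fin (d + 1) → ℕ) (hp : ∀ i, 2 ≤ p i) (a : Fin (d + 1)) (hpa : Even (p a))
    (l' : List (Fin (d + 1))) (hal : a ∉ l') (hl' : l'.Nodup) (c c₀ : V (d + 1)) (hc₀ : c₀ ≠ 0) (hc₀a : c₀ ∈ U a)
    (hTh : Th l' c₀ = c₀) (hcc : c - c₀ ∈ UU l') (δ : ℝ) (hδ : 0 < δ) :
    ∃ C : ℕ, ∀ n r : ℕ, C * (r + 1) ≤ n → ∀ (L : Subfield ℝ), Transcendental L Real.pi →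
      ∀ (E : Submodule L ℝ), Module.rank L E ≤ (r : Cardinal) → ∀ X : Finset (Fin (d + 1) → ℕ),
      (∀ x ∈ X, (∀ i, x i < n) ∧ GG c (fun i => 2 * x i + p i) ∈ E) → (X.card : ℝ) ≤ δ * (n : ℝ) ^ (d + 1) :=
  rigidG p a c _ _ (fun M t ht htM => analytic p hp a hpa l' hal hl' c c₀ hc₀ hc₀a hTh hcc _ le_rfl M t ht htM) δ hδ

/-- two odd letters -/
theorem rigidU2 {d : ℕ} (p : Fin (d + 1) → ℕ) (hp : ∀ i, 2 ≤ p i) (a b : Fin (d + 1)) (hab : a ≠ b)
    (hpab : Even (p a + p b)) (l' : List (Fin (d + 1))) (hal : a ∉ l') (hbl : b ∉ l') (hl' : l'.Nodup)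
    (c c₀ : V (d + 1)) (hc₀ : c₀ ≠ 0) (hc₀a : c₀ ∈ U a) (hc₀b : c₀ ∈ U b)
    (hTh : Th l' c₀ = c₀) (hcc : c - c₀ ∈ UU l') (δ : ℝ) (hδ : 0 < δ) :
    ∃ C : ℕ, ∀ n r : ℕ, C * (r + 1) ≤ n → ∀ (L : Subfield ℝ), Transcendental L Real.pi →
      ∀ (E : Submodule L ℝ), Module.rank L E ≤ (r : Cardinal) → ∀ X : Finset (Fin (d + 1) → ℕ),
      (∀ x ∈ X, (∀ i, x i < n) ∧ GG c (fun i => 2 * x i + p i) ∈ E) → (X.card : ℝ) ≤ δ * (n : ℝ) ^ (d + 1) :=
  rigidG p b c _ _ (fun M t ht htM => analytic2 p hp a b hab hpab l' hal hbl hl' c c₀ hc₀ hc₀a hc₀b hTh hcc _ le_rfl M t ht htM)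
    δ hδ

end Pool.Agent.H491.Der
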