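import Mathlib
import Pool.Agent.H491.Un1
import Pool.Agent.H491.Az8
import Pool.Agent.H491.Az9

set_option autoImplicit false

/-! # Rigidity for alternating zeta values, uniformly in the dimension and in windows -/

namespace Pool.Agent.H491.Der

/-- **Rigidity**, uniformly in the dimension, in a window. -/
theorem rigidGVL {d : ℕ} (S : Fin (d + 1) → ℕ → ℝ) (p : Fin (d + 1) → ℕ) (a : Fin (d + 1)) (c : V (d + 1)) (w μ : ℕ)
    (hyp : ∀ (bl : ℕ), 0 < bl → ∀ (M : ℕ) (t : (Fin (d + 1) ⊕ PP (d + 1)) → Fin w → ℕ), (∀ κ, Function.Injective (t κ)) → (∀ κ k, t κ k ≤ M) →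
      ∃ Y : ℕ, ∀ y : Fin (d + 1) → ℕ, (∀ i, Y ≤ y i) → ∀ (L : Subfield ℝ), Transcendental L Real.pi →
      ∀ (E : Submodule L ℝ) (r : ℕ), Module.rank L E ≤ (r : Cardinal) → ∀ (K : ℕ) (B : Finset ℕ), (∀ b ∈ B, b < K) →
      (∀ b ∈ B, ∀ e, GS S c (aa p y M t a e b) ∈ E) →
      B.card < w ^ (Fintype.card (Fin (d + 1) ⊕ PP (d + 1))) * r + μ * (K / bl + 1)) (δ : ℝ) (hδ : 0 < δ) :
    ∃ C : ℕ, ∀ n r : ℕ, C * (r + 1) ≤ n → ∀ (L : Subfield ℝ), Transcendental L Real.pi →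
      ∀ (E : Submodule L ℝ), Module.rank L E ≤ (r : Cardinal) → ∀ (y₀ : Fin (d + 1) → ℕ) (X : Finset (Fin (d + 1) → ℕ)),
      (∀ x ∈ X, (∀ i, x i < n) ∧ GS S c (fun i => 2 * (y₀ i + x i) + p i) ∈ E) → (X.card : ℝ) ≤ δ * (n : ℝ) ^ (d + 1) := by
  classical
  set m := Fintype.card (Fin (d + 1) ⊕ PP (d + 1)) with hm
  let eq : (Fin (d + 1) ⊕ PP (d + 1)) ≃ Fin m := Fintype.equivFin _
  have hden : 0 < (δ / 2) ^ (w ^ m) := by positivity
  obtain ⟨N, hN⟩ := exists_nat_gt ((m * w ^ 2 : ℝ) * 2 / (δ / 2) ^ (w ^ m))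
  have hN0 : 0 < N := by
    have h1 : (0 : ℝ) ≤ (m * w ^ 2 : ℝ) * 2 / (δ / 2) ^ (w ^ m) := by positivity
    have h2 : (0 : ℝ) < N := lt_of_le_of_lt h1 hN
    exact_mod_cast h2
  have hN0' : (0 : ℝ) < N := by exact_mod_cast hN0
  obtain ⟨bl, hbl⟩ := exists_nat_gt ((μ : ℝ) * 4 / (δ / 2) ^ (w ^ m))
  have hbl0 : 0 < bl := by
    have h1 : (0 : ℝ) ≤ (μ : ℝ) * 4 / (δ / 2) ^ (w ^ m) := by positivity
    have h2 : (0 : ℝ) < bl := lt_of_le_of_lt h1 hbl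
    exact_mod_cast h2
  have hbl0' : (0 : ℝ) < bl := by exact_mod_cast hbl0
  obtain ⟨c₁, hc₁⟩ := exists_nat_gt (((w : ℝ) ^ m + μ) * 4 / (δ / 2) ^ (w ^ m))
  have hc₁0 : 0 < c₁ := by
    have h1 : (0 : ℝ) ≤ ((w : ℝ) ^ m + μ) * 4 / (δ / 2) ^ (w ^ m) := by positivity
    have h2 : (0 : ℝ) < c₁ := lt_of_le_of_lt h1 hc₁
    exact_mod_cast h2
  -- the thresholds
  have hYt : ∀ t : (Fin (d + 1) ⊕ PP (d + 1)) → Fin w → Fin N, ∃ Y : ℕ, (∀ κ, Function.Injective (t κ)) →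
      ∀ y : Fin (d + 1) → ℕ, (∀ i, Y ≤ y i) → ∀ (L : Subfield ℝ), Transcendental L Real.pi →
      ∀ (E : Submodule L ℝ) (r : ℕ), Module.rank L E ≤ (r : Cardinal) → ∀ (K : ℕ) (B : Finset ℕ), (∀ b ∈ B, b < K) →
      (∀ b ∈ B, ∀ e, GS S c (aa p y N (fun κ k => (t κ k : ℕ)) a e b) ∈ E) →
      B.card < w ^ (Fintype.card (Fin (d + 1) ⊕ PP (d + 1))) * r + μ * (K / bl + 1) := by
    intro t
    by_cases h : ∀ κ, Function.Injective (t κ)
    · obtain ⟨Y, hY⟩ := hyp bl hbl0 N (fun κ k => (t κ k : ℕ)) (fun κ => Fin.val_injective.comp (h κ)) (fun κ k => (t κ k).2.le)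
      exact ⟨Y, fun _ => hY⟩
    · exact ⟨0, fun h' => absurd h' h⟩
  choose Yt hYt using hYt
  set Y := ∑ t, Yt t with hY
  have hYle : ∀ t, Yt t ≤ Y := fun t => Finset.single_le_sum (f := Yt) (fun _ _ => Nat.zero_le _) (Finset.mem_univ t)
  obtain ⟨n₀, hn₀⟩ := exists_nat_gt ((((d : ℝ) + 1) * (((1 + 2 * Fintype.card (PP (d + 1))) * N + c₁ + Y : ℕ) : ℝ)) / (δ / 2))
  refine ⟨n₀ + 1, ?_⟩
  intro n r hn L hL E hE y₀ X hX
  by_contra hcon
  push Not at hcon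
  set K := c₁ * (r + 1) with hK
  have hK0 : 0 < K := Nat.mul_pos hc₁0 (Nat.succ_pos r)
  have hK0' : (0 : ℝ) < K := by exact_mod_cast hK0
  set R := w ^ m * r + μ * (K / bl + 1) with hR
  have hn1 : 0 < n := lt_of_lt_of_le (Nat.mul_pos (Nat.succ_pos n₀) (Nat.succ_pos r)) hn
  have hnn : (n₀ : ℝ) * (r + 1) ≤ n := by
    have h1 : n₀ * (r + 1) ≤ n := (Nat.mul_le_mul_right _ (Nat.le_succ n₀)).trans hn
    exact_mod_cast h1
  have hn' : ((d : ℝ) + 1) * (((1 + 2 * Fintype.card (PP (d + 1))) * N + K + Y : ℕ) : ℝ) ≤ δ / 2 * n := by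
    rw [div_lt_iff₀ (by positivity)] at hn₀
    have h1 : (((1 + 2 * Fintype.card (PP (d + 1))) * N + K + Y : ℕ) : ℝ) ≤
        (((1 + 2 * Fintype.card (PP (d + 1))) * N + c₁ + Y : ℕ) : ℝ) * (r + 1) := by
      have h2 : (1 + 2 * Fintype.card (PP (d + 1))) * N + K + Y ≤
          ((1 + 2 * Fintype.card (PP (d + 1))) * N + c₁ + Y) * (r + 1) := by
        rw [hK]
        have h3 : (1 + 2 * Fintype.card (PP (d + 1))) * N ≤ (1 + 2 * Fintype.card (PP (d + 1))) * N * (r + 1) :=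
          Nat.le_mul_of_pos_right _ (Nat.succ_pos r)
        have h4 : Y ≤ Y * (r + 1) := Nat.le_mul_of_pos_right _ (Nat.succ_pos r)
        calc _ ≤ (1 + 2 * Fintype.card (PP (d + 1))) * N * (r + 1) + c₁ * (r + 1) + Y * (r + 1) := by omega
          _ = _ := by ring
      exact_mod_cast h2
    have h5 : (0 : ℝ) ≤ (r : ℝ) + 1 := by positivity
    calc _ ≤ ((d : ℝ) + 1) * ((((1 + 2 * Fintype.card (PP (d + 1))) * N + c₁ + Y : ℕ) : ℝ) * (r + 1)) :=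
          mul_le_mul_of_nonneg_left h1 (by positivity)
      _ = (((d : ℝ) + 1) * (((1 + 2 * Fintype.card (PP (d + 1))) * N + c₁ + Y : ℕ) : ℝ)) * (r + 1) := by ring
      _ ≤ (n₀ * (δ / 2)) * (r + 1) := mul_le_mul_of_nonneg_right hn₀.le h5
      _ = (δ / 2) * (n₀ * (r + 1)) := by ring
      _ ≤ δ / 2 * n := mul_le_mul_of_nonneg_left hnn (by positivity)
  obtain ⟨y, hy, hS⟩ := exists_base2 m N K Y n eq a hn1 hN0 hK0 X (fun x hx => (hX x hx).1) δ hcon hn'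
  set SS := (Finset.univ : Finset ((Fin m → Fin N) × Fin K)).filter fun q =>
        (fun i => y i + sh N a (fun κ => (q.1 (eq κ) : ℕ)) q.2 i) ∈ X with hSSdef
  have hd := All.density2 m w N K R hN0 hK0 SS ?_
  · have h1 : δ / 2 ≤ (SS.card : ℝ) / ((N : ℝ) ^ m * K) := by
      rw [le_div_iff₀ (by positivity)]
      exact hS
    have h2 : (δ / 2) ^ (w ^ m) ≤ ((SS.card : ℝ) / ((N : ℝ) ^ m * K)) ^ (w ^ m) := pow_le_pow_left₀ (by positivity) h1 _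
    have h3 := h2.trans hd
    have h4 : (m * w ^ 2 : ℝ) / N < (δ / 2) ^ (w ^ m) / 2 := by
      rw [div_lt_iff₀ hden] at hN
      rw [div_lt_iff₀ hN0']
      linarith
    have h5 : (R : ℝ) / K < (δ / 2) ^ (w ^ m) / 2 := by
      rw [div_lt_iff₀ hden] at hc₁ hbl
      have h7 : (0 : ℝ) ≤ (w : ℝ) ^ m := by positivity
      have h8 : (0 : ℝ) ≤ (μ : ℝ) := Nat.cast_nonneg _
      have h9 : (0 : ℝ) ≤ (r : ℝ) := Nat.cast_nonneg _
      have h10 : ((K / bl : ℕ) : ℝ) ≤ K / bl := Nat.cast_div_le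
      have h11 : (R : ℝ) ≤ ((w : ℝ) ^ m + μ) * (r + 1) + μ * (K / bl) := by
        rw [hR]
        push_cast
        have h12 := mul_le_mul_of_nonneg_left h10 h8
        nlinarith
      have h13 : ((w : ℝ) ^ m + μ) * (r + 1) < (δ / 2) ^ (w ^ m) / 4 * K := by
        have h14 : (0 : ℝ) < (r : ℝ) + 1 := by positivity
        have h15 : (w : ℝ) ^ m + μ < c₁ * (δ / 2) ^ (w ^ m) / 4 := by linarith
        calc ((w : ℝ) ^ m + μ) * (r + 1) < (c₁ * (δ / 2) ^ (w ^ m) / 4) * (r + 1) := mul_lt_mul_of_pos_right h15 h14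
          _ = (δ / 2) ^ (w ^ m) / 4 * K := by
              rw [hK]
              push_cast
              ring
      have h14 : (μ : ℝ) * (K / bl) ≤ (δ / 2) ^ (w ^ m) / 4 * K := by
        have h15 : (μ : ℝ) ≤ bl * (δ / 2) ^ (w ^ m) / 4 := by linarith
        calc (μ : ℝ) * (K / bl) ≤ (bl * (δ / 2) ^ (w ^ m) / 4) * (K / bl) :=
              mul_le_mul_of_nonneg_right h15 (by positivity)
          _ = (δ / 2) ^ (w ^ m) / 4 * K := by field_simp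
      rw [div_lt_iff₀ hK0']
      calc (R : ℝ) ≤ ((w : ℝ) ^ m + μ) * (r + 1) + μ * (K / bl) := h11
        _ < (δ / 2) ^ (w ^ m) / 4 * K + (δ / 2) ^ (w ^ m) / 4 * K := add_lt_add_of_lt_of_le h13 h14
        _ = (δ / 2) ^ (w ^ m) / 2 * K := by ring
    linarith
  · intro t ht
    have h1 := hYt (fun κ => t (eq κ)) (fun κ => ht (eq κ)) (fun i => y₀ i + y i)
      (fun i => (hYle _).trans ((hy i).trans (Nat.le_add_left _ _))) L hL E r hE K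
      (((Finset.univ : Finset (Fin K)).filter fun b => ∀ e : Fin m → Fin w, ((fun i => t i (e i)), b) ∈ SS).image
        fun b : Fin K => (b : ℕ)) (by
        intro b' hb'
        rw [Finset.mem_image] at hb'
        obtain ⟨b, -, rfl⟩ := hb'
        exact b.2) (by
        intro b' hb' e
        rw [Finset.mem_image] at hb'
        obtain ⟨b, hb, rfl⟩ := hb'
        rw [Finset.mem_filter] at hb
        have h2 := hb.2 (fun i => e (eq.symm i))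
        rw [hSSdef, Finset.mem_filter] at h2
        have h3 := (hX _ h2.2).2
        rw [aa_eq]
        simp only [Equiv.symm_apply_apply, ← add_assoc] at h3
        exact h3)
    rw [Finset.card_image_of_injective _ Fin.val_injective] at h1
    exact h1.le

/-- an even letter -/
theorem rigidVL {d : ℕ} (S : Fin (d + 1) → ℕ → ℝ) (hS : ∀ i n, |S i n| = 1) (p : Fin (d + 1) → ℕ) (hp : ∀ i, 2 ≤ p i) (a : Fin (d + 1)) (hFS : FSU (S a)) (hpa : Even (p a))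
    (l' : List (Fin (d + 1))) (hal : a ∉ l') (hl' : l'.Nodup) (c c₀ : V (d + 1)) (hc₀ : c₀ ≠ 0) (hc₀a : c₀ ∈ U a)
    (hTh : Th l' c₀ = c₀) (hcc : c - c₀ ∈ UU l') (δ : ℝ) (hδ : 0 < δ) :
    ∃ C : ℕ, ∀ n r : ℕ, C * (r + 1) ≤ n → ∀ (L : Subfield ℝ), Transcendental L Real.pi →
      ∀ (E : Submodule L ℝ), Module.rank L E ≤ (r : Cardinal) → ∀ (y₀ : Fin (d + 1) → ℕ) (X : Finset (Fin (d + 1) → ℕ)),
      (∀ x ∈ X, (∀ i, x i < n) ∧ GS S c (fun i => 2 * (y₀ i + x i) + p i) ∈ E) → (X.card : ℝ) ≤ δ * (n : ℝ) ^ (d + 1) :=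
  rigidGVL S p a c _ _ (fun bl hbl M t ht htM => analyticV S hS p hp a hFS bl hbl hpa l' hal hl' c c₀ hc₀ hc₀a hTh hcc _ le_rfl M t ht htM) δ hδ

/-- two odd letters -/
theorem rigidV2L {d : ℕ} (S : Fin (d + 1) → ℕ → ℝ) (hS : ∀ i n, |S i n| = 1) (p : Fin (d + 1) → ℕ) (hp : ∀ i, 2 ≤ p i) (a b : Fin (d + 1)) (hab : a ≠ b)
    (hFS : FSU fun n => S a n * S b n)
    (hpab : Even (p a + p b)) (l' : List (Fin (d + 1))) (hal : a ∉ l') (hbl : b ∉ l') (hl' : l'.Nodup)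
    (c c₀ : V (d + 1)) (hc₀ : c₀ ≠ 0) (hc₀a : c₀ ∈ U a) (hc₀b : c₀ ∈ U b)
    (hTh : Th l' c₀ = c₀) (hcc : c - c₀ ∈ UU l') (δ : ℝ) (hδ : 0 < δ) :
    ∃ C : ℕ, ∀ n r : ℕ, C * (r + 1) ≤ n → ∀ (L : Subfield ℝ), Transcendental L Real.pi →
      ∀ (E : Submodule L ℝ), Module.rank L E ≤ (r : Cardinal) → ∀ (y₀ : Fin (d + 1) → ℕ) (X : Finset (Fin (d + 1) → ℕ)),
      (∀ x ∈ X, (∀ i, x i < n) ∧ GS S c (fun i => 2 * (y₀ i + x i) + p i) ∈ E) → (X.card : ℝ) ≤ δ * (n : ℝ) ^ (d + 1) :=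
  rigidGVL S p b c _ _ (fun bl hbp M t ht htM => analytic2V S hS p hp a b hab hFS bl hbp hpab l' hal hbl hl' c c₀ hc₀ hc₀a hc₀b hTh hcc _ le_rfl M t ht htM)
    δ hδ

end Pool.Agent.H491.Der
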