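import Mathlib
import Pool.Agent.H491.Box2
import Pool.Agent.H491.All5

set_option autoImplicit false

/-! # The pattern lemmas with arbitrary sets of exponents, total weight even or odd -/

namespace Pool.Agent.H491.All

open Polynomial Pool.Agent.H447R2.MZ

variable {L : Subfield ℝ}

theorem Sp_word' {w : ℕ} (ss : List (Fin w → ℕ)) (ks : List (Fin w)) (a b : ℕ) (hss : ∀ s ∈ ss, ∀ k, 2 ≤ s k) (ha : 2 ≤ a)
    (hb : 2 ≤ b) :
    Sp ((([] : List ℕ) ++ exps ss ks ++ [a, b]).map fun a => (X : ℝ[X]) ^ a) = P val (exps ss ks ++ [a, b]) := by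
  rw [List.nil_append]
  apply Sp_X_pow
  intro x hx
  rw [List.mem_append] at hx
  rcases hx with hx | hx
  · have : ∀ (ss : List (Fin w → ℕ)) (ks : List (Fin w)), (∀ s ∈ ss, ∀ k, 2 ≤ s k) → ∀ x ∈ exps ss ks, 2 ≤ x := by
      intro ss
      induction ss with
      | nil => simp [exps]
      | cons s ss ih =>
        intro ks h x hx
        rcases ks with _ | ⟨k, ks⟩
        · simp [exps] at hx
        · simp only [exps, List.zipWith_cons_cons, List.mem_cons] at hx
          rcases hx with rfl | hx
          · exact h s (by simp) k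
          · exact ih ks (fun s hs => h s (by simp [hs])) x hx
    exact this ss ks hss x hx
  · simp only [List.mem_cons, List.not_mem_nil, or_false] at hx
    omega

theorem binom_ne (x y : ℝ) (a a' : ℕ) (haa : a ≠ a') (hx : x ≠ 0) : (C x * X ^ a' - C y * X ^ a : ℝ[X]) ≠ 0 := by
  intro h
  have := congrArg (fun p => Polynomial.coeff p a') h
  simp only [coeff_sub, coeff_C_mul_X_pow, if_pos, coeff_zero] at this
  rw [if_neg (Ne.symm haa), sub_zero] at this
  exact hx this

theorem binom_support (x y : ℝ) (a a' : ℕ) (j : ℕ) (hj : j ∈ (C x * X ^ a' - C y * X ^ a : ℝ[X]).support) : j = a ∨ j = a' := by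
  by_contra hcon
  push Not at hcon
  rw [Polynomial.mem_support_iff] at hj
  apply hj
  rw [coeff_sub, coeff_C_mul_X_pow, coeff_C_mul_X_pow, if_neg hcon.1, if_neg hcon.2, sub_zero]

theorem binom_card (x y : ℝ) (a a' : ℕ) : (C x * X ^ a' - C y * X ^ a : ℝ[X]).support.card ≤ 2 := by
  classical
  have h1 : (C x * X ^ a' - C y * X ^ a : ℝ[X]).support ⊆ {a, a'} := by
    intro j hj
    rw [Finset.mem_insert, Finset.mem_singleton]
    exact binom_support x y a a' j hj
  exact (Finset.card_le_card h1).trans Finset.card_le_two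

/-- even total weight -/
theorem patternI (hL : Transcendental L Real.pi) (E : Submodule L ℝ) (r : ℕ) (hE : Module.rank L E ≤ (r : Cardinal))
    {w : ℕ} (ss : List (Fin w → ℕ)) (hinj : ∀ s ∈ ss, Function.Injective s) (hss : ∀ s ∈ ss, ∀ k, 2 ≤ s k)
    (hw : 4 * 2 ^ (ss.length + 1) ≤ w) (a a' p : ℕ) (ha : 2 ≤ a) (ha' : 2 ≤ a') (haa : a ≠ a') (hp : 2 ≤ p)
    (hpar : ∀ ks : List (Fin w), ks.length = ss.length → Even ((exps ss ks).sum + a + p) ∧ Even ((exps ss ks).sum + a' + p))
    (B : Finset ℕ)
    (hB : ∀ β ∈ B, ∀ ks : List (Fin w), ks.length = ss.length →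
      P val (exps ss ks ++ [a, 2 * β + p]) ∈ E ∧ P val (exps ss ks ++ [a', 2 * β + p]) ∈ E) :
    B.card < 2 * w ^ ss.length * r + 2 * w ^ ss.length := by
  obtain ⟨cs, hcs, hN1, hN2, hne⟩ := exists_family' [] [] (X ^ a) (X ^ a') (nul_nil _) (nul_nil _) (by simp)
    (by simp) ss hinj hw
  rw [List.append_nil] at hN1 hN2
  obtain ⟨hc, hsupp⟩ := prod_family' ss cs hcs
  set l := List.zipWith pg ss cs with hl
  have hlen : l.length = ss.length := by rw [hl, List.length_zipWith, hcs, min_self]
  have hl0 : l.prod ≠ 0 := by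
    rw [ne_eq, List.prod_eq_zero_iff]
    exact fun h => hne 0 h rfl
  let F : Submodule L ℝ := (EG E cs).map (LinearMap.mulLeft L (Sq.z a')) ⊔
    (EG E cs).map (LinearMap.mulLeft L (Sq.z a))
  have hF : Module.rank L F ≤ ((2 * w ^ ss.length * r : ℕ) : Cardinal) := by
    refine (Submodule.rank_add_le_rank_add_rank _ _).trans ?_
    have h1 := (rank_map_le (LinearMap.mulLeft L (Sq.z a')) (EG E cs)).trans (rank_EG E r hE cs)
    have h2 := (rank_map_le (LinearMap.mulLeft L (Sq.z a)) (EG E cs)).trans (rank_EG E r hE cs)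
    have h3 : ((2 * w ^ ss.length * r : ℕ) : Cardinal) = ((w ^ cs.length * r : ℕ) : Cardinal) + ((w ^ cs.length * r : ℕ) : Cardinal) := by
      rw [hcs, mul_assoc, two_mul]
      push_cast
      rfl
    rw [h3]
    exact add_le_add h1 h2
  set κ : ℝ := (-1) ^ ss.length * (ss.length + 1).factorial with hκ
  have hκ0 : κ ≠ 0 := by
    rw [hκ]
    apply mul_ne_zero
    · exact pow_ne_zero _ (by norm_num)
    · exact_mod_cast Nat.factorial_ne_zero _
  refine final_step' hL F _ hF (2 * w ^ ss.length) p (l.prod * (C (κ * Sq.z a) * X ^ a' - C (κ * Sq.z a') * X ^ a)) ?_ ?_ ?_ B ?_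
  · exact mul_ne_zero hl0 (binom_ne _ _ _ _ haa (mul_ne_zero hκ0 (Sq.z_ne a ha)))
  · refine (card_support_mul _ _).trans ?_
    rw [mul_comm 2]
    exact Nat.mul_le_mul hc (binom_card _ _ _ _)
  · intro j hj
    obtain ⟨j1, hj1, j2, hj2, rfl⟩ := mem_support_mul hj
    obtain ⟨ks, hks, rfl⟩ := hsupp j1 hj1
    have := hpar ks hks
    rcases binom_support _ _ _ _ _ hj2 with rfl | rfl
    · exact ⟨this.1, by omega⟩
    · exact ⟨this.2, by omega⟩
  · intro β hβ
    have h1 : Sp (l ++ [X ^ a, X ^ (2 * β + p)]) ∈ EG E cs := by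
      have := mem_EG E [a, 2 * β + p] ss cs [] hcs ?_
      · simpa using this
      · intro ks h3
        rw [Sp_word' ss ks a (2 * β + p) hss ha (by omega)]
        exact (hB β hβ ks h3).1
    have h2 : Sp (l ++ [X ^ a', X ^ (2 * β + p)]) ∈ EG E cs := by
      have := mem_EG E [a', 2 * β + p] ss cs [] hcs ?_
      · simpa using this
      · intro ks h3
        rw [Sp_word' ss ks a' (2 * β + p) hss ha' (by omega)]
        exact (hB β hβ ks h3).2
    have h3 : pz (X ^ (2 * β + p) * (l.prod * (C (κ * Sq.z a) * X ^ a' - C (κ * Sq.z a') * X ^ a))) =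
        Sq.z a' * Sp (l ++ [X ^ a, X ^ (2 * β + p)]) + Sq.z a * (-Sp (l ++ [X ^ a', X ^ (2 * β + p)])) := by
      rw [Sp_nul ss.length l _ _ hlen hN1, Sp_nul ss.length l _ _ hlen hN2, pz_X_pow, pz_X_pow]
      have e : X ^ (2 * β + p) * (l.prod * (C (κ * Sq.z a) * X ^ a' - C (κ * Sq.z a') * X ^ a)) =
          C (κ * Sq.z a) * (X ^ a' * X ^ (2 * β + p) * l.prod) - C (κ * Sq.z a') * (X ^ a * X ^ (2 * β + p) * l.prod) := by
        ring
      rw [e, map_sub, pz_C_mul, pz_C_mul, hκ]
      ring
    rw [h3]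
    apply Submodule.add_mem_sup
    · exact Submodule.mem_map.2 ⟨_, h1, rfl⟩
    · exact Submodule.mem_map.2 ⟨_, (EG E cs).neg_mem h2, rfl⟩

/-- odd total weight; the letter `a` or `a'` (`a < a'`) and a letter `u - a` or `u - a'` -/
theorem patternII (hL : Transcendental L Real.pi) (E : Submodule L ℝ) (r : ℕ) (hE : Module.rank L E ≤ (r : Cardinal))
    {w : ℕ} (ss : List (Fin w → ℕ)) (hinj : ∀ s ∈ ss, Function.Injective s) (hss : ∀ s ∈ ss, ∀ k, 2 ≤ s k)
    (u : Fin w → ℕ) (hu : Function.Injective u)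
    (hw : 4 * 2 ^ (ss.length + 1) ≤ w) (a a' p : ℕ) (ha : 2 ≤ a) (haa : a < a') (hua : ∀ k, a' + 2 ≤ u k) (hp : 2 ≤ p)
    (hpar : ∀ ks : List (Fin w), ks.length = ss.length → ∀ k,
      Even ((exps ss ks).sum + (u k - a) + p) ∧ Even ((exps ss ks).sum + (u k - a') + p))
    (B : Finset ℕ)
    (hB : ∀ β ∈ B, ∀ ks : List (Fin w), ks.length = ss.length → ∀ k,
      P val (exps ss ks ++ [u k - a] ++ [a, 2 * β + p]) ∈ E ∧ P val (exps ss ks ++ [u k - a'] ++ [a', 2 * β + p]) ∈ E) :
    B.card < 2 * w ^ (ss.length + 1) * r + 2 * w ^ (ss.length + 1) := by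
  have hw8 : 8 ≤ w := by
    have : 1 ≤ 2 ^ (ss.length) := Nat.one_le_two_pow
    have e : 2 ^ (ss.length + 1) = 2 * 2 ^ ss.length := by ring
    omega
  let s₁ : Fin w → ℕ := fun k => u k - a
  let s₂ : Fin w → ℕ := fun k => u k - a'
  have hs₁ : Function.Injective s₁ := by
    intro x y h
    apply hu
    have h1 := hua x
    have h2 := hua y
    simp only [s₁] at h
    omega
  have hs₂ : Function.Injective s₂ := by
    intro x y h
    apply hu
    have h1 := hua x
    have h2 := hua y
    simp only [s₂] at h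
    omega
  obtain ⟨c₀, hc0, hc⟩ := exists_null' s₂ hs₂ [1, X ^ (a' - a), X ^ a'] (by simp only [List.length_cons, List.length_nil]; omega)
  have hc1 : pz (pg s₂ c₀) = 0 := by simpa using hc 1 (by simp)
  have hc2 : pz (pg s₂ c₀ * X ^ (a' - a)) = 0 := hc _ (by simp)
  have hc3 : pz (pg s₂ c₀ * X ^ a') = 0 := hc _ (by simp)
  have hmul : pg s₁ c₀ = X ^ (a' - a) * pg s₂ c₀ := by
    rw [pg, pg, Finset.mul_sum]
    refine Finset.sum_congr rfl fun k _ => ?_
    have e : s₁ k = (a' - a) + s₂ k := by
      have := hua k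
      simp only [s₁, s₂]
      omega
    rw [e, pow_add]
    ring
  have hM1 : Nul [pg s₁ c₀] (X ^ a) := by
    apply nul_single
    · rw [hmul, mul_comm]
      exact hc2
    · have e : X ^ a * pg s₁ c₀ = pg s₂ c₀ * X ^ a' := by
        rw [hmul]
        have : (X : ℝ[X]) ^ a' = X ^ a * X ^ (a' - a) := by rw [← pow_add]; congr 1; omega
        rw [this]
        ring
      rw [e]
      exact hc3
  have hM2 : Nul [pg s₂ c₀] (X ^ a') := by
    apply nul_single _ _ hc1
    rw [mul_comm]
    exact hc3
  obtain ⟨cs, hcs, hN1, hN2, hne⟩ := exists_family' [pg s₁ c₀] [pg s₂ c₀] (X ^ a) (X ^ a') hM1 hM2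
    (by simp) (by simp) ss hinj hw
  have hz1 : List.zipWith pg (ss ++ [s₁]) (cs ++ [c₀]) = List.zipWith pg ss cs ++ [pg s₁ c₀] := by
    rw [List.zipWith_append hcs.symm]
    rfl
  have hz2 : List.zipWith pg (ss ++ [s₂]) (cs ++ [c₀]) = List.zipWith pg ss cs ++ [pg s₂ c₀] := by
    rw [List.zipWith_append hcs.symm]
    rfl
  obtain ⟨hcard, hsupp⟩ := prod_family' (ss ++ [s₂]) (cs ++ [c₀]) (by simp [hcs])
  rw [hz2] at hcard hsupp
  have hl20 : (List.zipWith pg ss cs ++ [pg s₂ c₀]).prod ≠ 0 := by
    rw [ne_eq, List.prod_eq_zero_iff, List.mem_append, List.mem_singleton]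
    rintro (h | h)
    · exact hne 0 h rfl
    · exact hc0 h.symm
  set l1 := List.zipWith pg ss cs ++ [pg s₁ c₀] with hl1
  set l2 := List.zipWith pg ss cs ++ [pg s₂ c₀] with hl2
  have hlen1 : l1.length = ss.length + 1 := by
    rw [hl1, List.length_append, List.length_zipWith, hcs, min_self, List.length_singleton]
  have hlen2 : l2.length = ss.length + 1 := by
    rw [hl2, List.length_append, List.length_zipWith, hcs, min_self, List.length_singleton]
  have hpr : l1.prod = X ^ (a' - a) * l2.prod := by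
    rw [hl1, hl2, List.prod_append, List.prod_append, List.prod_singleton, List.prod_singleton, hmul]
    ring
  have hF : Module.rank L (EG E (cs ++ [c₀])) ≤ ((2 * w ^ (ss.length + 1) * r : ℕ) : Cardinal) := by
    refine (rank_EG E r hE (cs ++ [c₀])).trans ?_
    rw [List.length_append, List.length_singleton, hcs]
    have : w ^ (ss.length + 1) * r ≤ 2 * w ^ (ss.length + 1) * r := by
      rw [mul_assoc]
      omega
    exact_mod_cast this
  set κ : ℝ := (-1) ^ (ss.length + 1) * (ss.length + 1).factorial with hκ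
  have hκ0 : κ ≠ 0 := by
    rw [hκ]
    apply mul_ne_zero
    · exact pow_ne_zero _ (by norm_num)
    · exact_mod_cast Nat.factorial_ne_zero _
  refine final_step' hL (EG E (cs ++ [c₀])) _ hF (2 * w ^ (ss.length + 1)) p
    (l2.prod * (C (κ * Sq.z a) * X ^ (a' - a) - C (κ * Sq.z a') * X ^ 0)) ?_ ?_ ?_ B ?_
  · exact mul_ne_zero hl20 (binom_ne _ _ _ _ (by omega) (mul_ne_zero hκ0 (Sq.z_ne a ha)))
  · refine (card_support_mul _ _).trans ?_
    rw [mul_comm 2]
    refine Nat.mul_le_mul ?_ (binom_card _ _ _ _)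
    simpa using hcard
  · intro j hj
    obtain ⟨j1, hj1, j2, hj2, rfl⟩ := mem_support_mul hj
    obtain ⟨ks, hks, rfl⟩ := hsupp j1 hj1
    rcases List.eq_nil_or_concat ks with rfl | ⟨ks', k, hks'⟩
    · simp at hks
    · rw [List.concat_eq_append] at hks'
      subst hks'
      simp only [List.length_append, List.length_singleton, Nat.add_right_cancel_iff] at hks
      have h1 := hpar ks' hks k
      have h2 := hua k
      have h3 : (exps (ss ++ [s₂]) (ks' ++ [k])).sum = (exps ss ks').sum + (u k - a') := by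
        simp only [exps]
        rw [List.zipWith_append hks.symm, List.sum_append]
        simp [s₂]
      rw [h3]
      rcases binom_support _ _ _ _ _ hj2 with rfl | rfl
      · refine ⟨?_, by omega⟩
        rw [add_zero]
        exact h1.2
      · refine ⟨?_, by omega⟩
        have h4 : (exps ss ks').sum + (u k - a') + (a' - a) + p = (exps ss ks').sum + (u k - a) + p := by omega
        rw [h4]
        exact h1.1
  · intro β hβ
    have h1 : Sp (l1 ++ [X ^ a, X ^ (2 * β + p)]) ∈ EG E (cs ++ [c₀]) := by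
      have := mem_EG E [a, 2 * β + p] (ss ++ [s₁]) (cs ++ [c₀]) [] (by simp [hcs]) ?_
      · rw [hz1] at this
        simpa using this
      · intro ks h3
        rw [Sp_word' (ss ++ [s₁]) ks a (2 * β + p) ?_ ha (by omega)]
        · rcases List.eq_nil_or_concat ks with rfl | ⟨ks', k, hks⟩
          · simp at h3
          · rw [List.concat_eq_append] at hks
            subst hks
            simp only [List.length_append, List.length_singleton, Nat.add_right_cancel_iff] at h3
            have h5 := (hB β hβ ks' h3 k).1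
            have h6 : exps (ss ++ [s₁]) (ks' ++ [k]) = exps ss ks' ++ [u k - a] := by
              simp only [exps]
              rw [List.zipWith_append h3.symm]
              simp [s₁]
            rw [h6]
            exact h5
        · intro s hs k
          rw [List.mem_append, List.mem_singleton] at hs
          rcases hs with hs | rfl
          · exact hss s hs k
          · have := hua k
            simp only [s₁]
            omega
    have h2 : Sp (l2 ++ [X ^ a', X ^ (2 * β + p)]) ∈ EG E (cs ++ [c₀]) := by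
      have := mem_EG E [a', 2 * β + p] (ss ++ [s₂]) (cs ++ [c₀]) [] (by simp [hcs]) ?_
      · rw [hz2] at this
        simpa using this
      · intro ks h3
        rw [Sp_word' (ss ++ [s₂]) ks a' (2 * β + p) ?_ (by omega) (by omega)]
        · rcases List.eq_nil_or_concat ks with rfl | ⟨ks', k, hks⟩
          · simp at h3
          · rw [List.concat_eq_append] at hks
            subst hks
            simp only [List.length_append, List.length_singleton, Nat.add_right_cancel_iff] at h3
            have h5 := (hB β hβ ks' h3 k).2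
            have h6 : exps (ss ++ [s₂]) (ks' ++ [k]) = exps ss ks' ++ [u k - a'] := by
              simp only [exps]
              rw [List.zipWith_append h3.symm]
              simp [s₂]
            rw [h6]
            exact h5
        · intro s hs k
          rw [List.mem_append, List.mem_singleton] at hs
          rcases hs with hs | rfl
          · exact hss s hs k
          · have := hua k
            simp only [s₂]
            omega
    have h3 : pz (X ^ (2 * β + p) * (l2.prod * (C (κ * Sq.z a) * X ^ (a' - a) - C (κ * Sq.z a') * X ^ 0))) =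
        Sp (l1 ++ [X ^ a, X ^ (2 * β + p)]) - Sp (l2 ++ [X ^ a', X ^ (2 * β + p)]) := by
      rw [Sp_nul (ss.length + 1) l1 _ _ hlen1 hN1, Sp_nul (ss.length + 1) l2 _ _ hlen2 hN2, pz_X_pow, pz_X_pow, hpr]
      have e : X ^ (2 * β + p) * (l2.prod * (C (κ * Sq.z a) * X ^ (a' - a) - C (κ * Sq.z a') * X ^ 0)) =
          C (κ * Sq.z a) * (X ^ (2 * β + p) * (X ^ (a' - a) * l2.prod)) -
          C (κ * Sq.z a') * (X ^ (2 * β + p) * l2.prod) := by
        ring
      have e2 : X ^ a * X ^ (2 * β + p) * (X ^ (a' - a) * l2.prod) = X ^ a' * X ^ (2 * β + p) * l2.prod := by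
        have : (X : ℝ[X]) ^ a' = X ^ a * X ^ (a' - a) := by rw [← pow_add]; congr 1; omega
        rw [this]
        ring
      rw [e, e2, map_sub, pz_C_mul, pz_C_mul, hκ]
      ring
    rw [h3]
    exact (EG E (cs ++ [c₀])).sub_mem h1 h2

end Pool.Agent.H491.All
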