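import Mathlib
import Pool.Agent.H491.Sq3

set_option autoImplicit false

/-! # Double zeta values of odd weight -/

namespace Pool.Agent.H491.Sq

open Pool.Agent.H447R2.MZ Pool.Agent.H491.Hit

/-- the sum over both orders of the double zeta value with the arguments `2 (j - i)` and `2 i + 3` -/
noncomputable def be (i j : ℕ) : ℝ := z (2 * (j - i)) * z (2 * i + 3) - z (2 * j + 3)

/-- for `i < i'` there are at most `r + 1` numbers `j > i'` with `be i j ∈ E` and `be i' j ∈ E` -/
theorem mixed_common {L : Subfield ℝ} (hL : Transcendental L Real.pi) (E : Submodule L ℝ) (r : ℕ)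
    (hE : Module.rank L E ≤ r) (i i' : ℕ) (hi : i < i') (B : Finset ℕ)
    (hB : ∀ j ∈ B, i' < j ∧ be i j ∈ E ∧ be i' j ∈ E) : B.card ≤ r + 1 := by
  have hinj : Set.InjOn (fun j => j - i') B := by
    intro x hx y hy h
    have h1 := (hB x hx).1
    have h2 := (hB y hy).1
    simp only at h
    omega
  rw [← Finset.card_image_of_injOn hinj]
  refine linear_two (transcendental_sq hL) E r hE ((Real.pi ^ 2) ^ (i' - i) * z (2 * i + 3))
    (z (2 * i' + 3)) ?_ (i' - i) 0 (by omega) _ ?_ ?_
  · exact mul_ne_zero (by positivity) (z_ne _ (by omega))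
  · intro b hb
    rw [Finset.mem_image] at hb
    obtain ⟨j, hj, rfl⟩ := hb
    have := (hB j hj).1
    omega
  · intro b hb
    rw [Finset.mem_image] at hb
    obtain ⟨j, hj, rfl⟩ := hb
    obtain ⟨h1, h2, h3⟩ := hB j hj
    have e1 : j - i' + (i' - i) = j - i := by omega
    have e2 : j - i' + 0 = j - i' := by omega
    rw [e1, e2]
    have e3 : (Real.pi ^ 2) ^ (j - i) = (Real.pi ^ 2) ^ (j - i') * (Real.pi ^ 2) ^ (i' - i) := by
      rw [← pow_add]
      congr 1
      omega
    have e : (Real.pi ^ 2) ^ (j - i') * ((rho (j - i) : ℝ) * ((Real.pi ^ 2) ^ (i' - i) * z (2 * i + 3)) -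
        (rho (j - i') : ℝ) * z (2 * i' + 3)) = be i j - be i' j := by
      rw [be, be, z_even (j - i) (by omega), z_even (j - i') (by omega), e3]
      ring
    rw [e]
    exact E.sub_mem h2 h3

theorem mixed_count {L : Subfield ℝ} (hL : Transcendental L Real.pi) (E : Submodule L ℝ) (r : ℕ)
    (hE : Module.rank L E ≤ r) (n : ℕ) (S : Finset (ℕ × ℕ)) (hS : S ⊆ Finset.range n ×ˢ Finset.range n)
    (h : ∀ p ∈ S, p.1 < p.2 ∧ be p.1 p.2 ∈ E) : (S.card : ℝ) ≤ √((r + 1) * n ^ 3) + n := by
  have := count n (r + 1) S hS ?_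
  · push_cast at this
    exact this
  · intro i _ i' _ hii
    rcases lt_or_gt_of_ne hii with hii | hii
    · refine mixed_common hL E r hE i i' hii _ ?_
      intro j hj
      rw [Finset.mem_filter] at hj
      exact ⟨(h (i', j) hj.2.2).1, (h (i, j) hj.2.1).2, (h (i', j) hj.2.2).2⟩
    · refine mixed_common hL E r hE i' i hii _ ?_
      intro j hj
      rw [Finset.mem_filter] at hj
      exact ⟨(h (i, j) hj.2.1).1, (h (i', j) hj.2.2).2, (h (i, j) hj.2.1).2⟩

theorem card_lt (n : ℕ) : 2 * ((Finset.range n ×ˢ Finset.range n).filter fun p => p.1 < p.2).card + n = n ^ 2 := by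
  classical
  have h1 : ((Finset.range n ×ˢ Finset.range n).filter fun p => p.1 < p.2).card = ∑ j ∈ Finset.range n, j := by
    rw [Finset.card_eq_sum_card_fiberwise (f := Prod.snd) (t := Finset.range n)
      (fun p hp => (Finset.mem_product.1 (Finset.mem_filter.1 hp).1).2)]
    refine Finset.sum_congr rfl fun j hj => ?_
    refine Eq.trans ?_ (Finset.card_range j)
    refine Finset.card_bij' (fun p _ => p.1) (fun i _ => (i, j)) ?_ ?_ ?_ ?_
    · intro p hp
      rw [Finset.mem_filter, Finset.mem_filter] at hp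
      rw [Finset.mem_range]
      omega
    · intro i hi
      rw [Finset.mem_range] at hi hj
      rw [Finset.mem_filter, Finset.mem_filter, Finset.mem_product, Finset.mem_range, Finset.mem_range]
      exact ⟨⟨⟨lt_trans hi hj, hj⟩, hi⟩, rfl⟩
    · intro p hp
      rw [Finset.mem_filter] at hp
      rw [← hp.2]
    · intro i _
      simp
  rw [h1]
  have h2 := Finset.sum_range_id_mul_two n
  rcases n with _ | n
  · simp
  · simp only [Nat.add_sub_cancel] at h2
    rw [mul_comm, h2]
    ring

end Pool.Agent.H491.Sq
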