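import Mathlib
import Pool.Agent.H491.Box3
import Pool.Agent.H491.Box4
import Pool.Agent.H491.All6
import Pool.Agent.H491.Sq4

set_option autoImplicit false

/-! # The index sets all of whose orderings have values in `E` are rare -/

namespace Pool.Agent.H491.All

open Pool.Agent.H447R2.MZ

variable {L : Subfield ℝ}

/-- all orderings of the index `2 x_i + p_i` have values in `E` -/
def Bd (E : Submodule L ℝ) {D : ℕ} (p x : Fin D → ℕ) : Prop :=
  ∀ σ : Equiv.Perm (Fin D), Sq.zt ((fun i => 2 * x i + p i) ∘ σ) ∈ E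

theorem P_of_Bd (E : Submodule L ℝ) {D : ℕ} (p x : Fin D → ℕ) (hp : ∀ i, 2 ≤ p i) (h : Bd E p x) :
    P val (List.ofFn fun i => 2 * x i + p i) ∈ E := by
  rw [P]
  apply list_sum_mem
  intro v hv
  rw [List.mem_map] at hv
  obtain ⟨u, hu, rfl⟩ := hv
  rw [List.mem_permutations'] at hu
  have hlen : u.length = D := by rw [hu.length_eq, List.length_ofFn]
  obtain ⟨u', rfl⟩ := exists_ofFn u hlen
  obtain ⟨σ, rfl⟩ := exists_perm _ _ hu.symm
  have := h σ
  rw [zt_eq] at this
  · exact this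
  · intro i
    have := hp (σ i)
    simp only [Function.comp_apply]
    omega

theorem Bd_comp (E : Submodule L ℝ) {D : ℕ} (p x : Fin D → ℕ) (τ : Equiv.Perm (Fin D)) (h : Bd E p x) :
    Bd E (p ∘ τ) (x ∘ τ) := by
  intro σ
  exact h (σ.trans τ)

theorem exists_fin_list {w k : ℕ} (ks : List (Fin w)) (h : ks.length = k) : ∃ g : Fin k → Fin w, List.ofFn g = ks := by
  subst h
  exact ⟨ks.get, List.ofFn_get ks⟩

theorem exps_ofFn {w k : ℕ} (s : Fin k → Fin w → ℕ) (g : Fin k → Fin w) :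
    exps (List.ofFn s) (List.ofFn g) = List.ofFn fun i => s i (g i) := by
  apply List.ext_getElem
  · simp [exps]
  · intro i h1 h2
    simp [exps]

open Classical in
theorem boundI (hL : Transcendental L Real.pi) (E : Submodule L ℝ) (r : ℕ) (hE : Module.rank L E ≤ (r : Cardinal))
    (k w : ℕ) (hw : 4 * 2 ^ (k + 1) ≤ w) (p : Fin (k + 2) → ℕ) (hp : ∀ i, 2 ≤ p i) (hpe : Even (∑ i, p i)) (N : ℕ) (hN : 0 < N) :
    ((((Finset.univ : Finset ((Fin (k + 1) → Fin N) × Fin N)).filter fun q =>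
      Bd E p (Fin.snoc (fun i => (q.1 i : ℕ)) (q.2 : ℕ) : Fin (k + 2) → ℕ)).card : ℝ) / (N : ℝ) ^ (k + 1 + 1)) ^ (w ^ (k + 1)) ≤
      ((2 * w ^ k * r + 2 * w ^ k : ℕ) + (k + 1 : ℕ) * w ^ 2) / N := by
  have hw2 : 2 ≤ w := by
    have : 1 ≤ 2 ^ (k + 1) := Nat.one_le_two_pow
    omega
  apply density (k + 1) w N (2 * w ^ k * r + 2 * w ^ k) hN
  intro t ht
  set Bt := (Finset.univ : Finset (Fin N)).filter fun b => ∀ e : Fin (k + 1) → Fin w, ((fun i => t i (e i)), b) ∈
    (Finset.univ : Finset ((Fin (k + 1) → Fin N) × Fin N)).filter fun q =>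
      Bd E p (Fin.snoc (fun i => (q.1 i : ℕ)) (q.2 : ℕ) : Fin (k + 2) → ℕ) with hBt
  let ss : List (Fin w → ℕ) := List.ofFn fun i : Fin k => fun j => 2 * (t i.castSucc j : ℕ) + p i.castSucc.castSucc
  let z0 : Fin w := ⟨0, by omega⟩
  let z1 : Fin w := ⟨1, by omega⟩
  have hz : z0 ≠ z1 := by simp [z0, z1, Fin.ext_iff]
  have hlen : ss.length = k := by simp [ss]
  have hsum : ∀ (g : Fin k → Fin w) (j : Fin w),
      Even ((exps ss (List.ofFn g)).sum + (2 * (t (Fin.last k) j : ℕ) + p (Fin.last k).castSucc) + p (Fin.last (k + 1))) := by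
    intro g j
    simp only [ss]
    rw [exps_ofFn, List.sum_ofFn, Finset.sum_add_distrib, ← Finset.mul_sum]
    rw [Fin.sum_univ_castSucc, Fin.sum_univ_castSucc] at hpe
    have e : 2 * ∑ i : Fin k, (t i.castSucc (g i) : ℕ) + ∑ i : Fin k, p i.castSucc.castSucc +
        (2 * (t (Fin.last k) j : ℕ) + p (Fin.last k).castSucc) + p (Fin.last (k + 1)) =
        2 * (∑ i : Fin k, (t i.castSucc (g i) : ℕ) + (t (Fin.last k) j : ℕ)) +
        (∑ i : Fin k, p i.castSucc.castSucc + p (Fin.last k).castSucc + p (Fin.last (k + 1))) := by ring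
    rw [e]
    exact (even_two_mul _).add hpe
  have hword : ∀ (b : Fin N) (g : Fin k → Fin w) (j : Fin w),
      exps ss (List.ofFn g) ++ [2 * (t (Fin.last k) j : ℕ) + p (Fin.last k).castSucc, 2 * (b : ℕ) + p (Fin.last (k + 1))] =
      List.ofFn fun i : Fin (k + 2) => 2 * (Fin.snoc (fun i : Fin (k + 1) => ((t i ((Fin.snoc g j : Fin (k + 1) → Fin w) i) : Fin N) : ℕ))
        (b : ℕ) : Fin (k + 2) → ℕ) i + p i := by
    intro b g j
    simp only [ss]
    rw [exps_ofFn, List.ofFn_succ', List.ofFn_succ', List.concat_eq_append, List.concat_eq_append, List.append_assoc]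
    simp only [Fin.snoc_castSucc, Fin.snoc_last, List.singleton_append]
  have h := patternI hL E r hE ss ?_ ?_ (by rw [hlen]; exact hw) (2 * (t (Fin.last k) z0 : ℕ) + p (Fin.last k).castSucc)
    (2 * (t (Fin.last k) z1 : ℕ) + p (Fin.last k).castSucc) (p (Fin.last (k + 1))) ?_ ?_ ?_ (hp _) ?_
    (Bt.image fun b : Fin N => (b : ℕ)) ?_
  · rw [hlen, Finset.card_image_of_injective _ Fin.val_injective] at h
    exact h.le
  · intro s hs
    obtain ⟨i, rfl⟩ := (List.mem_ofFn' _ s).1 hs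
    intro j j' hjj
    apply ht i.castSucc
    apply Fin.ext
    simp only at hjj
    omega
  · intro s hs j
    obtain ⟨i, rfl⟩ := (List.mem_ofFn' _ s).1 hs
    have := hp i.castSucc.castSucc
    simp only
    omega
  · have := hp (Fin.last k).castSucc
    omega
  · have := hp (Fin.last k).castSucc
    omega
  · intro hcon
    apply hz
    apply ht (Fin.last k)
    apply Fin.ext
    omega
  · intro ks hks
    rw [hlen] at hks
    obtain ⟨g, rfl⟩ := exists_fin_list ks hks
    exact ⟨hsum g z0, hsum g z1⟩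
  · intro β hβ ks hks
    rw [hlen] at hks
    obtain ⟨g, rfl⟩ := exists_fin_list ks hks
    rw [Finset.mem_image] at hβ
    obtain ⟨b, hb, rfl⟩ := hβ
    rw [hBt, Finset.mem_filter] at hb
    constructor
    · rw [hword b g z0]
      exact P_of_Bd E _ _ hp (Finset.mem_filter.1 (hb.2 (Fin.snoc g z0))).2
    · rw [hword b g z1]
      exact P_of_Bd E _ _ hp (Finset.mem_filter.1 (hb.2 (Fin.snoc g z1))).2

/-- the point with the coordinates `y_0, …, y_(k-1), υ - α, α, β` -/
def pt {k N : ℕ} (q : (Fin (k + 2) → Fin N) × Fin N) : Fin (k + 3) → ℕ :=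
  Fin.snoc (Fin.snoc (Fin.snoc (fun i : Fin k => (q.1 i.castSucc.castSucc : ℕ))
    ((q.1 (Fin.last k).castSucc : ℕ) - (q.1 (Fin.last (k + 1)) : ℕ)) : Fin (k + 1) → ℕ)
    (q.1 (Fin.last (k + 1)) : ℕ) : Fin (k + 2) → ℕ) (q.2 : ℕ)

open Classical in
theorem boundII (hL : Transcendental L Real.pi) (E : Submodule L ℝ) (r : ℕ) (hE : Module.rank L E ≤ (r : Cardinal))
    (k w : ℕ) (hw : 4 * 2 ^ (k + 1) ≤ w) (p : Fin (k + 3) → ℕ) (hp : ∀ i, 2 ≤ p i)
    (hpo : Even (∑ i : Fin k, p i.castSucc.castSucc.castSucc + p (Fin.last k).castSucc.castSucc + p (Fin.last (k + 2))))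
    (N : ℕ) (hN : 0 < N) :
    ((((Finset.univ : Finset ((Fin (k + 2) → Fin N) × Fin N)).filter fun q =>
      (q.1 (Fin.last (k + 1)) : ℕ) ≤ (q.1 (Fin.last k).castSucc : ℕ) ∧ Bd E p (pt q)).card : ℝ) /
        (N : ℝ) ^ (k + 2 + 1)) ^ (w ^ (k + 2)) ≤
      ((2 * w ^ (k + 1) * r + 2 * w ^ (k + 1) : ℕ) + (k + 2 : ℕ) * w ^ 2) / N := by
  have hw2 : 2 ≤ w := by
    have : 1 ≤ 2 ^ (k + 1) := Nat.one_le_two_pow
    omega
  apply density (k + 2) w N (2 * w ^ (k + 1) * r + 2 * w ^ (k + 1)) hN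
  intro t ht
  set Bt := (Finset.univ : Finset (Fin N)).filter fun b => ∀ e : Fin (k + 2) → Fin w, ((fun i => t i (e i)), b) ∈
    (Finset.univ : Finset ((Fin (k + 2) → Fin N) × Fin N)).filter fun q =>
      (q.1 (Fin.last (k + 1)) : ℕ) ≤ (q.1 (Fin.last k).castSucc : ℕ) ∧ Bd E p (pt q) with hBt
  rcases Finset.eq_empty_or_nonempty Bt with hempty | ⟨b₀, hb₀⟩
  · rw [hempty]
    simp
  rw [hBt, Finset.mem_filter] at hb₀
  let ss : List (Fin w → ℕ) := List.ofFn fun i : Fin k => fun j => 2 * (t i.castSucc.castSucc j : ℕ) + p i.castSucc.castSucc.castSucc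
  have hlen : ss.length = k := by simp [ss]
  obtain ⟨z0, z1, hz⟩ : ∃ z0 z1 : Fin w, (t (Fin.last (k + 1)) z0 : ℕ) < (t (Fin.last (k + 1)) z1 : ℕ) := by
    have hne : (t (Fin.last (k + 1)) ⟨0, by omega⟩ : ℕ) ≠ (t (Fin.last (k + 1)) ⟨1, by omega⟩ : ℕ) := by
      intro hcon
      have := ht (Fin.last (k + 1)) (Fin.ext hcon)
      simp [Fin.ext_iff] at this
    rcases lt_or_gt_of_ne hne with h | h
    · exact ⟨_, _, h⟩
    · exact ⟨_, _, h⟩
  -- the points of the box
  let e₀ : (Fin k → Fin w) → Fin w → Fin w → Fin (k + 2) → Fin w := fun g j l => Fin.snoc (Fin.snoc g j : Fin (k + 1) → Fin w) l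
  have hle : ∀ j l : Fin w, (t (Fin.last (k + 1)) l : ℕ) ≤ (t (Fin.last k).castSucc j : ℕ) := by
    intro j l
    have := (Finset.mem_filter.1 (hb₀.2 (e₀ (fun _ => z0) j l))).2.1
    simpa [e₀] using this
  have hword : ∀ (b : Fin N) (g : Fin k → Fin w) (j l : Fin w),
      exps ss (List.ofFn g) ++ [(2 * (t (Fin.last k).castSucc j : ℕ) + p (Fin.last k).castSucc.castSucc + p (Fin.last (k + 1)).castSucc) -
        (2 * (t (Fin.last (k + 1)) l : ℕ) + p (Fin.last (k + 1)).castSucc)] ++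
        [2 * (t (Fin.last (k + 1)) l : ℕ) + p (Fin.last (k + 1)).castSucc, 2 * (b : ℕ) + p (Fin.last (k + 2))] =
      List.ofFn fun i : Fin (k + 3) => 2 * pt ((fun i => t i (e₀ g j l i)), b) i + p i := by
    intro b g j l
    simp only [ss]
    rw [exps_ofFn, List.ofFn_succ', List.ofFn_succ', List.ofFn_succ', List.concat_eq_append, List.concat_eq_append,
      List.concat_eq_append, List.append_assoc, List.append_assoc, List.append_assoc]
    simp only [pt, e₀, Fin.snoc_castSucc, Fin.snoc_last, List.singleton_append]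
    have h1 := hle j l
    have e : 2 * (t (Fin.last k).castSucc j : ℕ) + p (Fin.last k).castSucc.castSucc + p (Fin.last (k + 1)).castSucc -
        (2 * (t (Fin.last (k + 1)) l : ℕ) + p (Fin.last (k + 1)).castSucc) =
        2 * ((t (Fin.last k).castSucc j : ℕ) - (t (Fin.last (k + 1)) l : ℕ)) + p (Fin.last k).castSucc.castSucc := by omega
    rw [e]
  have hsum : ∀ (g : Fin k → Fin w) (j l : Fin w),
      Even ((exps ss (List.ofFn g)).sum + ((2 * (t (Fin.last k).castSucc j : ℕ) + p (Fin.last k).castSucc.castSucc + p (Fin.last (k + 1)).castSucc) -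
        (2 * (t (Fin.last (k + 1)) l : ℕ) + p (Fin.last (k + 1)).castSucc)) + p (Fin.last (k + 2))) := by
    intro g j l
    simp only [ss]
    rw [exps_ofFn, List.sum_ofFn, Finset.sum_add_distrib, ← Finset.mul_sum]
    have h1 := hle j l
    have e : 2 * ∑ i : Fin k, (t i.castSucc.castSucc (g i) : ℕ) + ∑ i : Fin k, p i.castSucc.castSucc.castSucc +
        ((2 * (t (Fin.last k).castSucc j : ℕ) + p (Fin.last k).castSucc.castSucc + p (Fin.last (k + 1)).castSucc) -
        (2 * (t (Fin.last (k + 1)) l : ℕ) + p (Fin.last (k + 1)).castSucc)) + p (Fin.last (k + 2)) =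
        2 * (∑ i : Fin k, (t i.castSucc.castSucc (g i) : ℕ) + ((t (Fin.last k).castSucc j : ℕ) - (t (Fin.last (k + 1)) l : ℕ))) +
        (∑ i : Fin k, p i.castSucc.castSucc.castSucc + p (Fin.last k).castSucc.castSucc + p (Fin.last (k + 2))) := by omega
    rw [e]
    exact (even_two_mul _).add hpo
  have h := patternII hL E r hE ss ?_ ?_
    (fun j => 2 * (t (Fin.last k).castSucc j : ℕ) + p (Fin.last k).castSucc.castSucc + p (Fin.last (k + 1)).castSucc) ?_
    (by rw [hlen]; exact hw) (2 * (t (Fin.last (k + 1)) z0 : ℕ) + p (Fin.last (k + 1)).castSucc)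
    (2 * (t (Fin.last (k + 1)) z1 : ℕ) + p (Fin.last (k + 1)).castSucc) (p (Fin.last (k + 2))) ?_ ?_ ?_ (hp _) ?_
    (Bt.image fun b : Fin N => (b : ℕ)) ?_
  · rw [hlen, Finset.card_image_of_injective _ Fin.val_injective] at h
    exact h.le
  · intro s hs
    obtain ⟨i, rfl⟩ := (List.mem_ofFn' _ s).1 hs
    intro j j' hjj
    apply ht i.castSucc.castSucc
    apply Fin.ext
    simp only at hjj
    omega
  · intro s hs j
    obtain ⟨i, rfl⟩ := (List.mem_ofFn' _ s).1 hs
    have := hp i.castSucc.castSucc.castSucc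
    simp only
    omega
  · intro j j' hjj
    apply ht (Fin.last k).castSucc
    apply Fin.ext
    simp only at hjj
    omega
  · have := hp (Fin.last (k + 1)).castSucc
    omega
  · omega
  · intro j
    have h1 := hle j z1
    have h2 := hp (Fin.last k).castSucc.castSucc
    omega
  · intro ks hks j
    rw [hlen] at hks
    obtain ⟨g, rfl⟩ := exists_fin_list ks hks
    exact ⟨hsum g j z0, hsum g j z1⟩
  · intro β hβ ks hks j
    rw [hlen] at hks
    obtain ⟨g, rfl⟩ := exists_fin_list ks hks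
    rw [Finset.mem_image] at hβ
    obtain ⟨b, hb, rfl⟩ := hβ
    rw [hBt, Finset.mem_filter] at hb
    constructor
    · rw [hword b g j z0]
      exact P_of_Bd E _ _ hp (Finset.mem_filter.1 (hb.2 (e₀ g j z0))).2.2
    · rw [hword b g j z1]
      exact P_of_Bd E _ _ hp (Finset.mem_filter.1 (hb.2 (e₀ g j z1))).2.2

end Pool.Agent.H491.All
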