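import Mathlib
import Pool.Agent.H491.Box5

set_option autoImplicit false

/-! # Upper bounds for the number of bad index sets in all parity classes -/

namespace Pool.Agent.H491.All

open Pool.Agent.H447R2.MZ

/-- the bound for the density of the bad points with the parities `p` -/
def Bound {D : ℕ} (p : Fin D → ℕ) : Prop :=
  ∃ W C : ℕ, 1 ≤ W ∧ ∀ (L : Subfield ℝ), Transcendental L Real.pi → ∀ (E : Submodule L ℝ) (r : ℕ),
    Module.rank L E ≤ (r : Cardinal) → ∀ n : ℕ, 0 < n → ∀ X : Finset (Fin D → ℕ), (∀ x ∈ X, (∀ i, x i < n) ∧ Bd E p x) →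
    ((X.card : ℝ) / (n : ℝ) ^ D) ^ W ≤ C * (r + 1) / n

open Classical in
theorem bound_even (k : ℕ) (p : Fin (k + 2) → ℕ) (hp : ∀ i, 2 ≤ p i) (hpe : Even (∑ i, p i)) : Bound p := by
  set w := 4 * 2 ^ (k + 1) with hw
  refine ⟨w ^ (k + 1), 2 * w ^ k + 2 * w ^ k + (k + 1) * w ^ 2, Nat.one_le_pow _ _ (by positivity), ?_⟩
  intro L hL E r hE n hn X hX
  have h := boundI hL E r hE k w le_rfl p hp hpe n hn
  set S := (Finset.univ : Finset ((Fin (k + 1) → Fin n) × Fin n)).filter fun q =>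
      Bd E p (Fin.snoc (fun i => (q.1 i : ℕ)) (q.2 : ℕ) : Fin (k + 2) → ℕ) with hS
  have hX' : X ⊆ S.image fun q => (Fin.snoc (fun i => (q.1 i : ℕ)) (q.2 : ℕ) : Fin (k + 2) → ℕ) := by
    intro x hx
    obtain ⟨h1, h2⟩ := hX x hx
    rw [Finset.mem_image]
    have e : (Fin.snoc (fun i : Fin (k + 1) => ((⟨x i.castSucc, h1 _⟩ : Fin n) : ℕ)) ((⟨x (Fin.last (k + 1)), h1 _⟩ : Fin n) : ℕ) :
        Fin (k + 2) → ℕ) = x := by
      funext i
      refine Fin.lastCases ?_ (fun i => ?_) i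
      · simp
      · simp
    refine ⟨(fun i => ⟨x i.castSucc, h1 _⟩, ⟨x (Fin.last (k + 1)), h1 _⟩), ?_, e⟩
    rw [hS, Finset.mem_filter]
    refine ⟨Finset.mem_univ _, ?_⟩
    rw [e]
    exact h2
  have hcard : (X.card : ℝ) ≤ S.card := by exact_mod_cast (Finset.card_le_card hX').trans Finset.card_image_le
  have hn' : (0 : ℝ) < n := by exact_mod_cast hn
  calc ((X.card : ℝ) / (n : ℝ) ^ (k + 2)) ^ (w ^ (k + 1)) ≤ ((S.card : ℝ) / (n : ℝ) ^ (k + 1 + 1)) ^ (w ^ (k + 1)) := by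
        apply pow_le_pow_left₀ (by positivity)
        exact div_le_div_of_nonneg_right hcard (by positivity)
    _ ≤ ((2 * w ^ k * r + 2 * w ^ k : ℕ) + (k + 1 : ℕ) * w ^ 2) / n := h
    _ ≤ _ := by
        apply div_le_div_of_nonneg_right _ hn'.le
        have hr : (0 : ℝ) ≤ r := Nat.cast_nonneg r
        have e1 : (0 : ℝ) ≤ (w : ℝ) ^ k * r := by positivity
        have e2 : (0 : ℝ) ≤ ((k : ℝ) + 1) * (w : ℝ) ^ 2 * r := by positivity
        have e3 : (0 : ℝ) ≤ (w : ℝ) ^ k := by positivity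
        have e4 : (2 * (w : ℝ) ^ k + 2 * (w : ℝ) ^ k + ((k : ℝ) + 1) * (w : ℝ) ^ 2) * ((r : ℝ) + 1) =
            (2 * (w : ℝ) ^ k * r + 2 * (w : ℝ) ^ k + ((k : ℝ) + 1) * (w : ℝ) ^ 2) +
            (2 * ((w : ℝ) ^ k * r) + 2 * (w : ℝ) ^ k + ((k : ℝ) + 1) * (w : ℝ) ^ 2 * r) := by ring
        push_cast
        rw [e4]
        linarith

open Classical in
theorem bound_odd_aux (k : ℕ) (p : Fin (k + 3) → ℕ) (hp : ∀ i, 2 ≤ p i)
    (hpo : Even (∑ i : Fin k, p i.castSucc.castSucc.castSucc + p (Fin.last k).castSucc.castSucc + p (Fin.last (k + 2)))) :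
    Bound p := by
  set w := 4 * 2 ^ (k + 1) with hw
  refine ⟨w ^ (k + 2), 2 ^ ((k + 3) * w ^ (k + 2)) * (2 * w ^ (k + 1) + 2 * w ^ (k + 1) + (k + 2) * w ^ 2),
    Nat.one_le_pow _ _ (by positivity), ?_⟩
  intro L hL E r hE n hn X hX
  have h := boundII hL E r hE k w le_rfl p hp hpo (2 * n) (by omega)
  set S := (Finset.univ : Finset ((Fin (k + 2) → Fin (2 * n)) × Fin (2 * n))).filter fun q =>
      (q.1 (Fin.last (k + 1)) : ℕ) ≤ (q.1 (Fin.last k).castSucc : ℕ) ∧ Bd E p (pt q) with hS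
  have hX' : X ⊆ S.image fun q => pt q := by
    intro x hx
    obtain ⟨h1, h2⟩ := hX x hx
    have h1' : ∀ i, x i < 2 * n := fun i => lt_of_lt_of_le (h1 i) (by omega)
    have h1'' : x (Fin.last k).castSucc.castSucc + x (Fin.last (k + 1)).castSucc < 2 * n := by
      have := h1 (Fin.last k).castSucc.castSucc
      have := h1 (Fin.last (k + 1)).castSucc
      omega
    let q : (Fin (k + 2) → Fin (2 * n)) × Fin (2 * n) :=
      ((Fin.snoc (Fin.snoc (fun i : Fin k => (⟨x i.castSucc.castSucc.castSucc, h1' _⟩ : Fin (2 * n)))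
        (⟨x (Fin.last k).castSucc.castSucc + x (Fin.last (k + 1)).castSucc, h1''⟩ : Fin (2 * n)) : Fin (k + 1) → Fin (2 * n))
        (⟨x (Fin.last (k + 1)).castSucc, h1' _⟩ : Fin (2 * n)) : Fin (k + 2) → Fin (2 * n)), ⟨x (Fin.last (k + 2)), h1' _⟩)
    have e : pt q = x := by
      funext i
      refine Fin.lastCases ?_ (fun i => ?_) i
      · simp [pt, q]
      · refine Fin.lastCases ?_ (fun i => ?_) i
        · simp [pt, q]
        · refine Fin.lastCases ?_ (fun i => ?_) i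
          · simp [pt, q]
          · simp [pt, q]
    rw [Finset.mem_image]
    refine ⟨q, ?_, e⟩
    rw [hS, Finset.mem_filter]
    refine ⟨Finset.mem_univ _, ?_, ?_⟩
    · simp [q]
    · rw [e]
      exact h2
  have hcard : (X.card : ℝ) ≤ S.card := by exact_mod_cast (Finset.card_le_card hX').trans Finset.card_image_le
  have hn' : (0 : ℝ) < n := by exact_mod_cast hn
  have e0 : ((X.card : ℝ) / (n : ℝ) ^ (k + 3)) = 2 ^ (k + 3) * ((X.card : ℝ) / ((2 * n : ℕ) : ℝ) ^ (k + 2 + 1)) := by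
    push_cast
    rw [mul_pow]
    field_simp
  rw [e0, mul_pow, ← pow_mul]
  have h3 : ((X.card : ℝ) / ((2 * n : ℕ) : ℝ) ^ (k + 2 + 1)) ^ (w ^ (k + 2)) ≤
      ((2 * w ^ (k + 1) * r + 2 * w ^ (k + 1) : ℕ) + (k + 2 : ℕ) * w ^ 2) / ((2 * n : ℕ) : ℝ) := by
    refine le_trans ?_ h
    apply pow_le_pow_left₀ (by positivity)
    exact div_le_div_of_nonneg_right hcard (by positivity)
  have h4 : ((2 * w ^ (k + 1) * r + 2 * w ^ (k + 1) : ℕ) + (k + 2 : ℕ) * (w : ℝ) ^ 2) / ((2 * n : ℕ) : ℝ) ≤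
      ((2 * w ^ (k + 1) + 2 * w ^ (k + 1) + (k + 2) * w ^ 2 : ℕ) : ℝ) * (r + 1) / n := by
    have hr : (0 : ℝ) ≤ r := Nat.cast_nonneg r
    have e1 : (0 : ℝ) ≤ (w : ℝ) ^ (k + 1) * r := by positivity
    have e2 : (0 : ℝ) ≤ ((k : ℝ) + 2) * (w : ℝ) ^ 2 * r := by positivity
    have e3 : ((2 * w ^ (k + 1) * r + 2 * w ^ (k + 1) : ℕ) + (k + 2 : ℕ) * (w : ℝ) ^ 2) ≤
      ((2 * w ^ (k + 1) + 2 * w ^ (k + 1) + (k + 2) * w ^ 2 : ℕ) : ℝ) * (r + 1) := by
      have e3 : (0 : ℝ) ≤ (w : ℝ) ^ (k + 1) := by positivity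
      have e4 : (2 * (w : ℝ) ^ (k + 1) + 2 * (w : ℝ) ^ (k + 1) + ((k : ℝ) + 2) * (w : ℝ) ^ 2) * ((r : ℝ) + 1) =
          (2 * (w : ℝ) ^ (k + 1) * r + 2 * (w : ℝ) ^ (k + 1) + ((k : ℝ) + 2) * (w : ℝ) ^ 2) +
          (2 * ((w : ℝ) ^ (k + 1) * r) + 2 * (w : ℝ) ^ (k + 1) + ((k : ℝ) + 2) * (w : ℝ) ^ 2 * r) := by ring
      push_cast
      rw [e4]
      linarith
    have e4 : (0 : ℝ) ≤ ((2 * w ^ (k + 1) * r + 2 * w ^ (k + 1) : ℕ) + (k + 2 : ℕ) * (w : ℝ) ^ 2) := by positivity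
    apply div_le_div₀ (e4.trans e3) e3 hn'
    push_cast
    linarith
  calc (2 : ℝ) ^ ((k + 3) * w ^ (k + 2)) * ((X.card : ℝ) / ((2 * n : ℕ) : ℝ) ^ (k + 2 + 1)) ^ (w ^ (k + 2))
      ≤ (2 : ℝ) ^ ((k + 3) * w ^ (k + 2)) * (((2 * w ^ (k + 1) + 2 * w ^ (k + 1) + (k + 2) * w ^ 2 : ℕ) : ℝ) * (r + 1) / n) :=
        mul_le_mul_of_nonneg_left (h3.trans h4) (by positivity)
    _ = _ := by
        push_cast
        ring

theorem bound_comp {D : ℕ} (p : Fin D → ℕ) (τ : Equiv.Perm (Fin D)) (h : Bound (p ∘ τ)) : Bound p := by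
  classical
  obtain ⟨W, C, hW, h⟩ := h
  refine ⟨W, C, hW, ?_⟩
  intro L hL E r hE n hn X hX
  have h1 := h L hL E r hE n hn (X.image fun x => x ∘ τ) ?_
  · have hinj : Function.Injective fun x : Fin D → ℕ => x ∘ τ := by
      intro x y hxy
      funext i
      have := congrFun hxy (τ.symm i)
      simpa using this
    rw [Finset.card_image_of_injective _ hinj] at h1
    exact h1
  · intro y hy
    rw [Finset.mem_image] at hy
    obtain ⟨x, hx, rfl⟩ := hy
    exact ⟨fun i => (hX x hx).1 _, Bd_comp E p x τ (hX x hx).2⟩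

/-- the pairs with one even and one odd entry -/
theorem bound_two_aux (p : Fin 2 → ℕ) (hp0 : p 0 = 2) (hp1 : p 1 = 3) : Bound p := by
  classical
  refine ⟨2, 24, by norm_num, ?_⟩
  intro L hL E r hE n hn X hX
  have hn' : (0 : ℝ) < n := by exact_mod_cast hn
  have h1 := Sq.mixed_count hL E r hE (2 * n) (X.image fun x => (x 1, x 0 + x 1 + 1)) ?_ ?_
  · have hinj : Set.InjOn (fun x : Fin 2 → ℕ => (x 1, x 0 + x 1 + 1)) X := by
      intro x _ y _ h
      simp only [Prod.mk.injEq] at h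
      funext i
      fin_cases i
      · simp only [Fin.zero_eta]
        omega
      · simp only [Fin.mk_one]
        omega
    rw [Finset.card_image_of_injOn hinj] at h1
    push_cast at h1
    have hr : (0 : ℝ) ≤ r := Nat.cast_nonneg r
    have h2 := Real.sq_sqrt (show (0 : ℝ) ≤ (r + 1) * (2 * (n : ℝ)) ^ 3 by positivity)
    have h3 := Real.sqrt_nonneg ((r + 1) * (2 * (n : ℝ)) ^ 3)
    have hn1 : (1 : ℝ) ≤ n := by exact_mod_cast hn
    have h4 : (X.card : ℝ) ^ 2 ≤ 24 * (r + 1) * (n : ℝ) ^ 3 := by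
      have h5 : (X.card : ℝ) ^ 2 ≤ (√((r + 1) * (2 * (n : ℝ)) ^ 3) + 2 * n) ^ 2 := by
        apply pow_le_pow_left₀ (by positivity)
        exact h1
      have h6 : (√((r + 1) * (2 * (n : ℝ)) ^ 3) + 2 * n) ^ 2 ≤ 2 * ((r + 1) * (2 * (n : ℝ)) ^ 3) + 2 * (2 * n) ^ 2 := by
        nlinarith [sq_nonneg (√((r + 1) * (2 * (n : ℝ)) ^ 3) - 2 * n)]
      have h7 : (n : ℝ) ^ 2 ≤ (n : ℝ) ^ 3 := pow_le_pow_right₀ hn1 (by norm_num)
      have h8 : (0 : ℝ) ≤ r * (n : ℝ) ^ 3 := by positivity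
      nlinarith
    rw [div_pow, div_le_div_iff₀ (by positivity) hn']
    calc (X.card : ℝ) ^ 2 * n ≤ 24 * (r + 1) * (n : ℝ) ^ 3 * n := mul_le_mul_of_nonneg_right h4 hn'.le
      _ = ((24 : ℕ) : ℝ) * (r + 1) * ((n : ℝ) ^ 2) ^ 2 := by push_cast; ring
  · intro q hq
    rw [Finset.mem_image] at hq
    obtain ⟨x, hx, rfl⟩ := hq
    have := (hX x hx).1 0
    have := (hX x hx).1 1
    rw [Finset.mem_product, Finset.mem_range, Finset.mem_range]
    simp only
    omega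
  · intro q hq
    rw [Finset.mem_image] at hq
    obtain ⟨x, hx, rfl⟩ := hq
    refine ⟨by simp only; omega, ?_⟩
    by_contra hcon
    have hB := (hX x hx).2
    have e1 : x 0 + x 1 + 1 - x 1 = x 0 + 1 := by omega
    have e2 : 2 * (x 0 + x 1 + 1) + 3 = 2 * (x 0 + 1) + (2 * x 1 + 3) := by ring
    simp only [Sq.be, e1] at hcon
    rw [e2] at hcon
    have h3 : ((fun i => 2 * x i + p i) ∘ (1 : Equiv.Perm (Fin 2))) = ![2 * (x 0 + 1), 2 * x 1 + 3] := by
      funext i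
      fin_cases i
      · simp [hp0]; ring
      · simp [hp1]
    have h4 : ((fun i => 2 * x i + p i) ∘ (Equiv.swap (0 : Fin 2) 1)) = ![2 * x 1 + 3, 2 * (x 0 + 1)] := by
      funext i
      fin_cases i
      · simp [hp1]
      · simp [hp0]; ring
    rcases Sq.mem_of_pair E (2 * (x 0 + 1)) (2 * x 1 + 3) (by omega) (by omega) hcon with h | h
    · apply h
      rw [← h3]
      exact hB 1
    · apply h
      rw [← h4]
      exact hB _

theorem bound_all {D : ℕ} (hD : 2 ≤ D) (p : Fin D → ℕ) (hp : ∀ i, p i = 2 ∨ p i = 3) : Bound p := by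
  obtain ⟨k, rfl⟩ := Nat.exists_eq_add_of_le' hD
  have hp2 : ∀ i, 2 ≤ p i := fun i => by rcases hp i with h | h <;> omega
  rcases Nat.even_or_odd (∑ i, p i) with hpar | hpar
  · exact bound_even k p hp2 hpar
  · obtain ⟨i₀, hi₀⟩ : ∃ i₀, p i₀ = 3 := by
      by_contra hcon
      push Not at hcon
      have : ∀ i, p i = 2 := fun i => (hp i).resolve_right (hcon i)
      simp only [this, Finset.sum_const, smul_eq_mul] at hpar
      rw [mul_comm, Nat.odd_mul] at hpar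
      exact absurd hpar.1 (by decide)
    rcases k with _ | k
    · -- two letters
      have hs : p 0 + p 1 = ∑ i, p i := by rw [Fin.sum_univ_two]
      rcases hp 0 with h0 | h0 <;> rcases hp 1 with h1 | h1
      · rw [← hs, h0, h1] at hpar
        exact absurd hpar (by decide)
      · exact bound_two_aux p h0 h1
      · apply bound_comp p (Equiv.swap 0 1)
        apply bound_two_aux
        · simp [h1]
        · simp [h0]
      · rw [← hs, h0, h1] at hpar
        exact absurd hpar (by decide)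
    · apply bound_comp p (Equiv.swap (Fin.last (k + 1)).castSucc i₀)
      set p' := p ∘ (Equiv.swap (Fin.last (k + 1)).castSucc i₀) with hp'
      have h1 : ∑ i, p' i = ∑ i, p i := Equiv.sum_comp (Equiv.swap (Fin.last (k + 1)).castSucc i₀) p
      have h2 : p' (Fin.last (k + 1)).castSucc = 3 := by
        rw [hp', Function.comp_apply, Equiv.swap_apply_left]
        exact hi₀
      apply bound_odd_aux k p' (fun i => hp2 _)
      rw [← h1, Fin.sum_univ_castSucc, Fin.sum_univ_castSucc, Fin.sum_univ_castSucc, h2] at hpar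
      obtain ⟨y, hy⟩ := hpar
      exact ⟨y - 1, by omega⟩

end Pool.Agent.H491.All
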