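import Mathlib
import Pool.Agent.H491.Box6

set_option autoImplicit false

/-! # The proportion `1 / D!` -/

namespace Pool.Agent.H491.All

theorem bound_rpow {D : ℕ} (p : Fin D → ℕ) (h : Bound p) :
    ∃ (W : ℕ) (C : ℝ), 1 ≤ W ∧ 0 ≤ C ∧ ∀ η : ℝ, 0 < η → η ≤ 1 / W → ∀ (L : Subfield ℝ), Transcendental L Real.pi →
      ∀ (E : Submodule L ℝ) (r : ℕ), Module.rank L E ≤ (r : Cardinal) → ∀ n : ℕ, 0 < n → ∀ X : Finset (Fin D → ℕ),
      (∀ x ∈ X, (∀ i, x i < n) ∧ Bd E p x) → (X.card : ℝ) ≤ C * (((r : ℝ) + 1) / n) ^ η * (n : ℝ) ^ D := by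
  obtain ⟨W, C₀, hW, h⟩ := h
  refine ⟨W, C₀ + 1, hW, by positivity, ?_⟩
  intro η hη hηW L hL E r hE n hn X hX
  have h1 := h L hL E r hE n hn X hX
  have hn' : (0 : ℝ) < n := by exact_mod_cast hn
  have hW' : (1 : ℝ) ≤ W := by exact_mod_cast hW
  set ρ : ℝ := ((r : ℝ) + 1) / n with hρ
  have hρ0 : 0 < ρ := by positivity
  set y : ℝ := (X.card : ℝ) / (n : ℝ) ^ D with hy
  have hy0 : 0 ≤ y := by positivity
  have hC0 : (0 : ℝ) ≤ C₀ := Nat.cast_nonneg _
  have hy1 : y ≤ 1 := by
    rw [hy, div_le_one (by positivity)]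
    have h2 : X ⊆ Fintype.piFinset fun _ => Finset.range n := by
      intro x hx
      rw [Fintype.mem_piFinset]
      exact fun i => Finset.mem_range.2 ((hX x hx).1 i)
    have h3 := Finset.card_le_card h2
    rw [Fintype.card_piFinset_const, Finset.card_range] at h3
    exact_mod_cast h3
  have hmain : y ≤ (C₀ + 1) * ρ ^ η := by
    rcases le_or_gt ρ 1 with hle | hgt
    · have h2 : y ^ W ≤ (C₀ + 1) * ρ := by
        refine h1.trans ?_
        rw [mul_div_assoc]
        exact mul_le_mul_of_nonneg_right (by linarith) hρ0.le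
      have h3 : y ≤ ((C₀ + 1) * ρ) ^ (1 / (W : ℝ)) := by
        have h4 : (y ^ W) ^ (1 / (W : ℝ)) ≤ ((C₀ + 1) * ρ) ^ (1 / (W : ℝ)) :=
          Real.rpow_le_rpow (by positivity) h2 (by positivity)
        rwa [← Real.rpow_natCast, ← Real.rpow_mul hy0, mul_one_div_cancel (by positivity), Real.rpow_one] at h4
      rw [Real.mul_rpow (by positivity) hρ0.le] at h3
      refine h3.trans ?_
      apply mul_le_mul
      · have h5 : ((C₀ : ℝ) + 1) ^ (1 / (W : ℝ)) ≤ ((C₀ : ℝ) + 1) ^ (1 : ℝ) := by
          apply Real.rpow_le_rpow_of_exponent_le (by linarith)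
          rw [div_le_one (by positivity)]
          exact hW'
        rwa [Real.rpow_one] at h5
      · exact Real.rpow_le_rpow_of_exponent_ge hρ0 hle hηW
      · positivity
      · positivity
    · have h2 : 1 ≤ ρ ^ η := Real.one_le_rpow hgt.le hη.le
      calc y ≤ 1 := hy1
        _ ≤ ρ ^ η := h2
        _ ≤ (C₀ + 1) * ρ ^ η := by nlinarith
  rw [hy, div_le_iff₀ (by positivity)] at hmain
  exact hmain

/-- the indices of depth `D` with entries between `2` and `2 n + 1`, exactly `q` of them odd -/
def indices (D q n : ℕ) : Finset (Fin D → ℕ) :=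
  (Fintype.piFinset fun _ => Finset.Icc 2 (2 * n + 1)).filter fun k => (Finset.univ.filter fun i => Odd (k i)).card = q

/-- the parities -/
def par {D : ℕ} (A : Finset (Fin D)) : Fin D → ℕ := fun i => if i ∈ A then 3 else 2

theorem card_indices_le (D q n : ℕ) :
    (indices D q n).card ≤ ((Finset.univ : Finset (Fin D)).powersetCard q).card * n ^ D := by
  classical
  have h1 : (((Finset.univ : Finset (Fin D)).powersetCard q) ×ˢ (Fintype.piFinset fun _ : Fin D => Finset.range n)).card =
      ((Finset.univ : Finset (Fin D)).powersetCard q).card * n ^ D := by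
    rw [Finset.card_product, Fintype.card_piFinset_const, Finset.card_range]
  rw [← h1]
  apply Finset.card_le_card_of_injOn (fun k => (Finset.univ.filter fun i => Odd (k i), fun i => (k i - 2) / 2))
  · intro k hk
    rw [Finset.mem_coe, indices, Finset.mem_filter, Fintype.mem_piFinset] at hk
    rw [Finset.mem_coe, Finset.mem_product, Finset.mem_powersetCard, Fintype.mem_piFinset]
    refine ⟨⟨Finset.subset_univ _, hk.2⟩, fun i => ?_⟩
    have := Finset.mem_Icc.1 (hk.1 i)
    rw [Finset.mem_range]
    simp only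
    omega
  · intro k hk k' hk' h
    rw [Finset.mem_coe, indices, Finset.mem_filter, Fintype.mem_piFinset] at hk hk'
    simp only [Prod.mk.injEq] at h
    funext i
    have h2 := Finset.mem_Icc.1 (hk.1 i)
    have h3 := Finset.mem_Icc.1 (hk'.1 i)
    have h4 := congrFun h.2 i
    have h5 : Odd (k i) ↔ Odd (k' i) := by
      have := Finset.ext_iff.1 h.1 i
      simpa using this
    rcases Nat.even_or_odd (k i) with h6 | h6
    · have h7 : Even (k' i) := by
        rw [← Nat.not_odd_iff_even, ← h5, Nat.not_odd_iff_even]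
        exact h6
      obtain ⟨y, hy⟩ := h6
      obtain ⟨y', hy'⟩ := h7
      omega
    · have h7 := h5.1 h6
      obtain ⟨y, hy⟩ := h6
      obtain ⟨y', hy'⟩ := h7
      omega

open Classical in
theorem main (D : ℕ) (hD : 2 ≤ D) (q : ℕ) :
    ∃ C η : ℝ, 0 < η ∧ ∀ (L : Subfield ℝ), Transcendental L Real.pi → ∀ (E : Submodule L ℝ) (r : ℕ),
      Module.rank L E ≤ (r : Cardinal) → ∀ n : ℕ,
      ((indices D q n).card : ℝ) / D.factorial * (1 - C * (((r : ℝ) + 1) / n) ^ η) ≤
        (((indices D q n).filter fun k => Sq.zt k ∉ E).card : ℝ) := by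
  have hb : ∀ A : Finset (Fin D), Bound (par A) := fun A => bound_all hD (par A) fun i => by
    unfold par
    split_ifs
    · exact Or.inr rfl
    · exact Or.inl rfl
  choose W C hW hC hbound using fun A => bound_rpow (par A) (hb A)
  have hWtot : ∀ A, W A ≤ ∑ A, W A := fun A => Finset.single_le_sum (f := W) (fun _ _ => Nat.zero_le _) (Finset.mem_univ A)
  have hCtot : ∀ A, C A ≤ ∑ A, C A := fun A => Finset.single_le_sum (f := C) (fun A _ => hC A) (Finset.mem_univ A)
  have hWpos : (0 : ℝ) < ((∑ A, W A : ℕ) : ℝ) := by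
    have h1 := hWtot ∅
    have h2 := hW ∅
    have h3 : 0 < ∑ A, W A := by omega
    exact_mod_cast h3
  refine ⟨∑ A, C A, 1 / ((∑ A, W A : ℕ) : ℝ), by positivity, ?_⟩
  intro L hL E r hE n
  rcases Nat.eq_zero_or_pos n with rfl | hn
  · have h1 : (indices D q 0).card = 0 := by
      have := card_indices_le D q 0
      rw [zero_pow (by omega), mul_zero] at this
      omega
    rw [h1]
    simp
  have hn' : (0 : ℝ) < n := by exact_mod_cast hn
  set η : ℝ := 1 / ((∑ A, W A : ℕ) : ℝ) with hη
  have hη0 : 0 < η := by positivity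
  have hηW : ∀ A, η ≤ 1 / (W A : ℝ) := by
    intro A
    rw [hη]
    apply one_div_le_one_div_of_le
    · have := hW A
      exact_mod_cast (by omega : 0 < W A)
    · exact_mod_cast hWtot A
  set ε : ℝ := (((r : ℝ) + 1) / n) ^ η with hε
  have hε0 : 0 ≤ ε := by positivity
  set Cs : ℝ := ∑ A, C A with hCs
  set T := (indices D q n).filter fun k => Sq.zt k ∉ E with hT
  set cube : Finset (Fin D → ℕ) := Fintype.piFinset fun _ => Finset.range n with hcube
  have hcubecard : cube.card = n ^ D := by rw [hcube, Fintype.card_piFinset_const, Finset.card_range]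
  set PA := (Finset.univ : Finset (Fin D)).powersetCard q with hPA
  -- the good points
  set NB : Finset (Finset (Fin D) × (Fin D → ℕ)) := (PA ×ˢ cube).filter fun z => ¬ Bd E (par z.1) z.2 with hNB
  have h1 : (PA.card : ℝ) * (n : ℝ) ^ D * (1 - Cs * ε) ≤ NB.card := by
    have h2 : (NB.card : ℝ) = ∑ A ∈ PA, ((cube.filter fun x => ¬ Bd E (par A) x).card : ℝ) := by
      rw [hNB, Finset.card_filter, Finset.sum_product]
      push_cast
      refine Finset.sum_congr rfl fun A _ => ?_
      rw [Finset.card_filter]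
      push_cast
      rfl
    rw [h2]
    have h3 : ∀ A ∈ PA, (n : ℝ) ^ D * (1 - Cs * ε) ≤ ((cube.filter fun x => ¬ Bd E (par A) x).card : ℝ) := by
      intro A _
      have h4 := Finset.card_filter_add_card_filter_not (s := cube) (fun x => Bd E (par A) x)
      rw [hcubecard] at h4
      have h5 := hbound A η hη0 (hηW A) L hL E r hE n hn (cube.filter fun x => Bd E (par A) x) (by
        intro x hx
        rw [Finset.mem_filter, hcube, Fintype.mem_piFinset] at hx
        exact ⟨fun i => Finset.mem_range.1 (hx.1 i), hx.2⟩)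
      have h6 : ((cube.filter fun x => Bd E (par A) x).card : ℝ) + ((cube.filter fun x => ¬ Bd E (par A) x).card : ℝ) = (n : ℝ) ^ D := by
        exact_mod_cast h4
      have h7 : C A * ε * (n : ℝ) ^ D ≤ Cs * ε * (n : ℝ) ^ D := by
        apply mul_le_mul_of_nonneg_right _ (by positivity)
        exact mul_le_mul_of_nonneg_right (hCtot A) hε0
      nlinarith
    calc (PA.card : ℝ) * (n : ℝ) ^ D * (1 - Cs * ε) = ∑ _A ∈ PA, (n : ℝ) ^ D * (1 - Cs * ε) := by
          rw [Finset.sum_const, nsmul_eq_mul]
          ring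
      _ ≤ _ := Finset.sum_le_sum h3
  have h2 : NB.card ≤ T.card * D.factorial := by
    let Φ : (Fin D → ℕ) × Equiv.Perm (Fin D) → Finset (Fin D) × (Fin D → ℕ) := fun z =>
      (Finset.univ.filter fun i => Odd (z.1 (z.2 i)), fun i => (z.1 (z.2 i) - 2) / 2)
    have h3 : NB ⊆ (T ×ˢ (Finset.univ : Finset (Equiv.Perm (Fin D)))).image Φ := by
      intro z hz
      rw [hNB, Finset.mem_filter, Finset.mem_product, hPA, Finset.mem_powersetCard, hcube, Fintype.mem_piFinset] at hz
      obtain ⟨⟨⟨-, hz1⟩, hz2⟩, hz3⟩ := hz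
      unfold Bd at hz3
      push Not at hz3
      obtain ⟨σ, hσ⟩ := hz3
      have hodd : ∀ i, Odd (2 * z.2 i + par z.1 i) ↔ i ∈ z.1 := by
        intro i
        unfold par
        split_ifs with h
        · simp only [h, iff_true]
          exact ⟨z.2 i + 1, by ring⟩
        · simp only [h, iff_false, Nat.not_odd_iff_even]
          exact ⟨z.2 i + 1, by ring⟩
      have hpar2 : ∀ i, par z.1 i = 2 ∨ par z.1 i = 3 := by
        intro i
        unfold par
        split_ifs
        · exact Or.inr rfl
        · exact Or.inl rfl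
      rw [Finset.mem_image]
      refine ⟨((fun i => 2 * z.2 i + par z.1 i) ∘ σ, σ.symm), ?_, ?_⟩
      · rw [Finset.mem_product]
        refine ⟨?_, Finset.mem_univ _⟩
        rw [hT, Finset.mem_filter, indices, Finset.mem_filter, Fintype.mem_piFinset]
        refine ⟨⟨fun i => ?_, ?_⟩, hσ⟩
        · have h4 := Finset.mem_range.1 (hz2 (σ i))
          rw [Finset.mem_Icc]
          simp only [Function.comp_apply]
          rcases hpar2 (σ i) with h5 | h5 <;> rw [h5] <;> omega
        · rw [← hz1]
          apply Finset.card_bij (fun i _ => σ i)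
          · intro i hi
            rw [Finset.mem_filter] at hi
            exact (hodd (σ i)).1 hi.2
          · intro i _ j _ h
            exact σ.injective h
          · intro j hj
            exact ⟨σ.symm j, Finset.mem_filter.2 ⟨Finset.mem_univ _, by
              simp only [Function.comp_apply, Equiv.apply_symm_apply]
              exact (hodd j).2 hj⟩, by simp⟩
      · apply Prod.ext
        · simp only [Φ, Function.comp_apply, Equiv.apply_symm_apply]
          ext i
          rw [Finset.mem_filter]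
          simp only [Finset.mem_univ, true_and]
          exact hodd i
        · simp only [Φ, Function.comp_apply, Equiv.apply_symm_apply]
          funext i
          rcases hpar2 i with h5 | h5 <;> rw [h5] <;> omega
    calc NB.card ≤ _ := Finset.card_le_card h3
      _ ≤ _ := Finset.card_image_le
      _ = T.card * D.factorial := by
          rw [Finset.card_product, Finset.card_univ, Fintype.card_perm, Fintype.card_fin]
  have h3 : (NB.card : ℝ) ≤ T.card * D.factorial := by exact_mod_cast h2
  have hfac : (0 : ℝ) < D.factorial := by exact_mod_cast Nat.factorial_pos D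
  rw [div_mul_eq_mul_div, div_le_iff₀ hfac]
  rcases le_or_gt (1 - Cs * ε) 0 with hneg | hpos
  · calc ((indices D q n).card : ℝ) * (1 - Cs * ε) ≤ 0 := mul_nonpos_of_nonneg_of_nonpos (by positivity) hneg
      _ ≤ _ := by positivity
  · have h4 : ((indices D q n).card : ℝ) ≤ (PA.card : ℝ) * (n : ℝ) ^ D := by exact_mod_cast card_indices_le D q n
    calc ((indices D q n).card : ℝ) * (1 - Cs * ε) ≤ (PA.card : ℝ) * (n : ℝ) ^ D * (1 - Cs * ε) :=
          mul_le_mul_of_nonneg_right h4 hpos.le
      _ ≤ _ := h1.trans h3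

end Pool.Agent.H491.All
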