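import Mathlib
import Pool.Agent.H491.Der7
import Pool.Agent.H491.Box7

set_option autoImplicit false

/-! # The proportion in terms of fixed points of permutations -/

namespace Pool.Agent.H491.Der

open Equiv

variable {D : ℕ}

open Classical in
/-- the number of the permutations of `D` elements that fix one of the first `e` elements -/
noncomputable def fixCount (D e : ℕ) : ℕ :=
  ((Finset.univ : Finset (Perm (Fin D))).filter fun π => ∃ i : Fin D, (i : ℕ) < e ∧ π i = i).card

theorem fixCount_le (D e : ℕ) : fixCount D e ≤ D.factorial := by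
  classical
  refine (Finset.card_filter_le _ _).trans ?_
  rw [Finset.card_univ, Fintype.card_perm, Fintype.card_fin]

open Classical in
theorem card_fix (l : List (Fin D)) (hl : l.Nodup) :
    ((Finset.univ : Finset (Perm (Fin D))).filter fun π => ∃ a ∈ l, π a = a).card = fixCount D l.length := by
  have hlen : l.length ≤ D := by
    have := hl.length_le_card
    simpa using this
  have hc1 : Fintype.card {x : Fin D // (x : ℕ) < l.length} = l.length := by
    rw [Fintype.card_subtype]
    have e : (Finset.univ.filter fun x : Fin D => (x : ℕ) < l.length) =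
        (Finset.univ : Finset (Fin l.length)).map (Fin.castLEEmb hlen) := by
      ext x
      rw [Finset.mem_filter, Finset.mem_map]
      simp only [Finset.mem_univ, true_and]
      constructor
      · intro h
        exact ⟨⟨x, h⟩, by ext; simp⟩
      · rintro ⟨y, rfl⟩
        simp
    rw [e, Finset.card_map, Finset.card_univ, Fintype.card_fin]
  have hc2 : Fintype.card {x : Fin D // x ∈ l} = l.length := by
    rw [Fintype.card_subtype]
    have e : (Finset.univ.filter fun x : Fin D => x ∈ l) = l.toFinset := by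
      ext x
      simp
    rw [e, List.toFinset_card_of_nodup hl]
  let e : {x : Fin D // (x : ℕ) < l.length} ≃ {x : Fin D // x ∈ l} := Fintype.equivOfCardEq (by rw [hc1, hc2])
  let τ : Perm (Fin D) := e.extendSubtype
  have hτ : ∀ x : Fin D, τ x ∈ l ↔ (x : ℕ) < l.length := by
    intro x
    constructor
    · intro h
      by_contra hx
      exact e.extendSubtype_not_mem x hx h
    · intro h
      exact e.extendSubtype_mem x h
  rw [fixCount]
  apply Finset.card_bij (fun π _ => τ⁻¹ * π * τ)
  · intro π hπ
    rw [Finset.mem_filter] at hπ ⊢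
    obtain ⟨a, ha, hfix⟩ := hπ.2
    refine ⟨Finset.mem_univ _, τ⁻¹ a, ?_, ?_⟩
    · rw [← hτ]
      simpa using ha
    · simp [Perm.mul_apply, hfix]
  · intro π _ π' _ h
    simpa using h
  · intro π hπ
    rw [Finset.mem_filter] at hπ
    obtain ⟨i, hi, hfix⟩ := hπ.2
    refine ⟨τ * π * τ⁻¹, ?_, by simp [mul_assoc]⟩
    rw [Finset.mem_filter]
    refine ⟨Finset.mem_univ _, τ i, (hτ i).2 hi, ?_⟩
    simp [Perm.mul_apply, hfix]

theorem smul_mem_E {L : Subfield ℝ} (E : Submodule L ℝ) (q : ℚ) (v : ℝ) (hv : v ∈ E) : (q : ℝ) * v ∈ E := by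
  have h1 := E.smul_mem (algebraMap ℚ L q) hv
  have e : (algebraMap ℚ L q) • v = (q : ℝ) * v := by
    change ((algebraMap ℚ L q : L) : ℝ) * v = _
    congr 1
  rwa [e] at h1

open Classical in
/-- the orderings with values outside of `E` -/
noncomputable def good {L : Subfield ℝ} (E : Submodule L ℝ) (a : Fin D → ℕ) : Finset (Perm (Fin D)) :=
  Finset.univ.filter fun σ => Sq.zt (a ∘ σ) ∉ E

open Classical in
theorem bad_small {d : ℕ} (A : Finset (Fin (d + 1))) (δ : ℝ) (hδ : 0 < δ) (r : ℕ) :
    ∃ n₀ : ℕ, ∀ n : ℕ, n₀ ≤ n → ∀ (L : Subfield ℝ), Transcendental L Real.pi →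
      ∀ (E : Submodule L ℝ), Module.rank L E ≤ (r : Cardinal) →
      (((Fintype.piFinset fun _ : Fin (d + 1) => Finset.range n).filter fun x =>
        (good E fun i => 2 * x i + All.par A i).card < fixCount (d + 1) ((d + 1) - A.card)).card : ℝ) ≤
        2 ^ (d + 1).factorial * δ * (n : ℝ) ^ (d + 1) := by
  set l : List (Fin (d + 1)) := (Finset.univ.filter fun i => i ∉ A).toList with hl
  have hlnd : l.Nodup := Finset.nodup_toList _
  have hlmem : ∀ i, i ∈ l ↔ i ∉ A := by
    intro i
    rw [hl, Finset.mem_toList, Finset.mem_filter]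
    simp
  have hllen : l.length = (d + 1) - A.card := by
    rw [hl, Finset.length_toList]
    have h1 := Finset.card_filter_add_card_filter_not (s := (Finset.univ : Finset (Fin (d + 1)))) (fun i => i ∈ A)
    have h2 : (Finset.univ.filter fun i : Fin (d + 1) => i ∈ A) = A := by ext; simp
    rw [h2, Finset.card_univ, Fintype.card_fin] at h1
    omega
  have hfin : Module.finrank ℚ (LinearMap.ker (Th l)) = fixCount (d + 1) ((d + 1) - A.card) := by
    rw [finrank_ker_Th l hlnd, card_fix l hlnd, hllen]
  have hp : ∀ i, 2 ≤ All.par A i := by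
    intro i
    unfold All.par
    split_ifs <;> omega
  have hT : ∀ T : Finset (Perm (Fin (d + 1))), ∃ (n₀ : ℕ) (c : V (d + 1)), T.card < fixCount (d + 1) ((d + 1) - A.card) →
      (∀ σ ∈ T, c σ = 0) ∧ ∀ n : ℕ, n₀ ≤ n → ∀ (L : Subfield ℝ), Transcendental L Real.pi →
      ∀ (E : Submodule L ℝ), Module.rank L E ≤ (r : Cardinal) → ∀ X : Finset (Fin (d + 1) → ℕ),
      (∀ x ∈ X, (∀ i, x i < n) ∧ GG c (fun i => 2 * x i + All.par A i) ∈ E) → (X.card : ℝ) ≤ δ * (n : ℝ) ^ (d + 1) := by
    intro T
    by_cases h : T.card < fixCount (d + 1) ((d + 1) - A.card)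
    · rw [← hfin] at h
      obtain ⟨c, hc, hTh, hcT⟩ := exists_function l T h
      obtain ⟨a, l', c₀, h1, h2, h3, h4, h5, h6, h7⟩ := decomp l hlnd c hc hTh
      have hpa : Even (All.par A a) := by
        unfold All.par
        rw [if_neg ((hlmem a).1 h1)]
        exact even_two
      obtain ⟨n₀, hn₀⟩ := rigid (All.par A) hp a hpa l' h2 h3 c c₀ h4 h5 h6 h7 δ hδ r
      exact ⟨n₀, c, fun _ => ⟨hcT, hn₀⟩⟩
    · exact ⟨0, 0, fun h' => absurd h' h⟩
  choose nT cT hnT using hT
  refine ⟨∑ T, nT T, ?_⟩
  intro n hn L hL E hE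
  set cube := Fintype.piFinset fun _ : Fin (d + 1) => Finset.range n with hcube
  set Bs := cube.filter fun x => (good E fun i => 2 * x i + All.par A i).card < fixCount (d + 1) ((d + 1) - A.card) with hBs
  have h1 : Bs.card = ∑ T : Finset (Perm (Fin (d + 1))), (Bs.filter fun x => (good E fun i => 2 * x i + All.par A i) = T).card :=
    Finset.card_eq_sum_card_fiberwise (fun x _ => Finset.mem_univ _)
  have h2 : ∀ T : Finset (Perm (Fin (d + 1))), ((Bs.filter fun x => (good E fun i => 2 * x i + All.par A i) = T).card : ℝ) ≤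
      δ * (n : ℝ) ^ (d + 1) := by
    intro T
    by_cases h : T.card < fixCount (d + 1) ((d + 1) - A.card)
    · obtain ⟨h3, h4⟩ := hnT T h
      have h5 : nT T ≤ n := (Finset.single_le_sum (f := nT) (fun _ _ => Nat.zero_le _) (Finset.mem_univ T)).trans hn
      apply h4 n h5 L hL E hE
      intro x hx
      rw [Finset.mem_filter, hBs, Finset.mem_filter, hcube, Fintype.mem_piFinset] at hx
      refine ⟨fun i => Finset.mem_range.1 (hx.1.1 i), ?_⟩
      rw [GG]
      apply Submodule.sum_mem
      intro σ _
      by_cases hσ : σ ∈ T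
      · rw [h3 σ hσ]
        simp
      · have h6 : σ ∉ good E fun i => 2 * x i + All.par A i := by rw [hx.2]; exact hσ
        rw [good, Finset.mem_filter] at h6
        have h7 : Sq.zt ((fun i => 2 * x i + All.par A i) ∘ σ) ∈ E := by
          by_contra h8
          exact h6 ⟨Finset.mem_univ _, h8⟩
        exact smul_mem_E E _ _ h7
    · have h3 : (Bs.filter fun x => (good E fun i => 2 * x i + All.par A i) = T) = ∅ := by
        rw [Finset.filter_eq_empty_iff]
        intro x hx hxT
        rw [hBs, Finset.mem_filter, hxT] at hx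
        exact h hx.2
      rw [h3]
      simp only [Finset.card_empty, Nat.cast_zero]
      positivity
  rw [h1]
  push_cast
  refine (Finset.sum_le_sum fun T _ => h2 T).trans ?_
  rw [Finset.sum_const, Finset.card_univ, Fintype.card_finset, Fintype.card_perm, Fintype.card_fin, nsmul_eq_mul]
  push_cast
  rw [mul_assoc]

open Classical in
/-- **The theorem.** -/
theorem main (D q : ℕ) (hq : q < D) (r : ℕ) (ε : ℝ) (hε : 0 < ε) :
    ∃ n₀ : ℕ, ∀ n : ℕ, n₀ ≤ n → ∀ (L : Subfield ℝ), Transcendental L Real.pi → ∀ (E : Submodule L ℝ),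
      Module.rank L E ≤ (r : Cardinal) →
      ((fixCount D (D - q) : ℝ) / D.factorial - ε) * ((All.indices D q n).card : ℝ) ≤
        (((All.indices D q n).filter fun k => Sq.zt k ∉ E).card : ℝ) := by
  obtain ⟨d, rfl⟩ : ∃ d, D = d + 1 := ⟨D - 1, by omega⟩
  have hpar2 : ∀ (A : Finset (Fin (d + 1))) i, All.par A i = 2 ∨ All.par A i = 3 := by
    intro A i
    unfold All.par
    split_ifs
    · exact Or.inr rfl
    · exact Or.inl rfl
  set F := 2 ^ (d + 1).factorial with hF
  have hFpos : (0 : ℝ) < (2 : ℝ) ^ (d + 1).factorial := by positivity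
  choose nA hnA using fun A : Finset (Fin (d + 1)) => bad_small A (ε / (2 : ℝ) ^ (d + 1).factorial) (by positivity) r
  refine ⟨∑ A, nA A, ?_⟩
  intro n hn L hL E hE
  have hnA' : ∀ A, nA A ≤ n := fun A => (Finset.single_le_sum (f := nA) (fun _ _ => Nat.zero_le _) (Finset.mem_univ A)).trans hn
  set T := (All.indices (d + 1) q n).filter fun k => Sq.zt k ∉ E with hT
  set cube : Finset (Fin (d + 1) → ℕ) := Fintype.piFinset fun _ => Finset.range n with hcube
  have hcubecard : cube.card = n ^ (d + 1) := by rw [hcube, Fintype.card_piFinset_const, Finset.card_range]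
  set PA := (Finset.univ : Finset (Fin (d + 1))).powersetCard q with hPA
  set f : ℕ := fixCount (d + 1) ((d + 1) - q) with hf
  -- the lower bound
  have h1 : ∀ A ∈ PA, (1 - ε) * (n : ℝ) ^ (d + 1) * f ≤ ∑ x ∈ cube, ((good E fun i => 2 * x i + All.par A i).card : ℝ) := by
    intro A hA
    rw [hPA, Finset.mem_powersetCard] at hA
    have h2 := hnA A n (hnA' A) L hL E hE
    rw [hA.2, ← hf, mul_div_cancel₀ _ hFpos.ne'] at h2
    have h3 := Finset.card_filter_add_card_filter_not (s := cube) (fun x => (good E fun i => 2 * x i + All.par A i).card < f)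
    rw [hcubecard] at h3
    have h4 : ((cube.filter fun x => (good E fun i => 2 * x i + All.par A i).card < f).card : ℝ) +
        ((cube.filter fun x => ¬ (good E fun i => 2 * x i + All.par A i).card < f).card : ℝ) = (n : ℝ) ^ (d + 1) := by
      exact_mod_cast h3
    have h5 : (1 - ε) * (n : ℝ) ^ (d + 1) ≤ ((cube.filter fun x => ¬ (good E fun i => 2 * x i + All.par A i).card < f).card : ℝ) := by
      linarith
    calc (1 - ε) * (n : ℝ) ^ (d + 1) * f ≤
          ((cube.filter fun x => ¬ (good E fun i => 2 * x i + All.par A i).card < f).card : ℝ) * f :=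
          mul_le_mul_of_nonneg_right h5 (Nat.cast_nonneg _)
      _ = ∑ _x ∈ cube.filter fun x => ¬ (good E fun i => 2 * x i + All.par A i).card < f, (f : ℝ) := by
          rw [Finset.sum_const, nsmul_eq_mul]
      _ ≤ ∑ x ∈ cube.filter fun x => ¬ (good E fun i => 2 * x i + All.par A i).card < f,
            ((good E fun i => 2 * x i + All.par A i).card : ℝ) := by
          refine Finset.sum_le_sum fun x hx => ?_
          rw [Finset.mem_filter] at hx
          exact_mod_cast not_lt.1 hx.2
      _ ≤ _ := Finset.sum_le_sum_of_subset_of_nonneg (Finset.filter_subset _ _) fun _ _ _ => Nat.cast_nonneg _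
  set NB : Finset (Finset (Fin (d + 1)) × ((Fin (d + 1) → ℕ) × Perm (Fin (d + 1)))) :=
    (PA ×ˢ (cube ×ˢ Finset.univ)).filter fun z => Sq.zt ((fun i => 2 * z.2.1 i + All.par z.1 i) ∘ z.2.2) ∉ E with hNB
  have h2 : (NB.card : ℝ) = ∑ A ∈ PA, ∑ x ∈ cube, ((good E fun i => 2 * x i + All.par A i).card : ℝ) := by
    rw [hNB, Finset.card_filter, Finset.sum_product]
    push_cast
    refine Finset.sum_congr rfl fun A _ => ?_
    rw [Finset.sum_product]
    refine Finset.sum_congr rfl fun x _ => ?_
    rw [good, Finset.card_filter]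
    push_cast
    rfl
  have h3 : (PA.card : ℝ) * ((1 - ε) * (n : ℝ) ^ (d + 1) * f) ≤ NB.card := by
    rw [h2, ← nsmul_eq_mul, ← Finset.sum_const]
    exact Finset.sum_le_sum h1
  have h4 : NB.card ≤ T.card * (d + 1).factorial := by
    have e : T.card * (d + 1).factorial = (T ×ˢ (Finset.univ : Finset (Perm (Fin (d + 1))))).card := by
      rw [Finset.card_product, Finset.card_univ, Fintype.card_perm, Fintype.card_fin]
    rw [e]
    apply Finset.card_le_card_of_injOn (fun z => ((fun i => 2 * z.2.1 i + All.par z.1 i) ∘ z.2.2, z.2.2))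
    · intro z hz
      rw [Finset.mem_coe, hNB, Finset.mem_filter, Finset.mem_product, Finset.mem_product, hPA, Finset.mem_powersetCard, hcube,
        Fintype.mem_piFinset] at hz
      obtain ⟨⟨⟨-, hz1⟩, hz2, -⟩, hz3⟩ := hz
      have hodd : ∀ i, Odd (2 * z.2.1 i + All.par z.1 i) ↔ i ∈ z.1 := by
        intro i
        unfold All.par
        split_ifs with h
        · simp only [h, iff_true]
          exact ⟨z.2.1 i + 1, by ring⟩
        · simp only [h, iff_false, Nat.not_odd_iff_even]
          exact ⟨z.2.1 i + 1, by ring⟩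
      rw [Finset.mem_coe, Finset.mem_product]
      refine ⟨?_, Finset.mem_univ _⟩
      rw [hT, Finset.mem_filter, All.indices, Finset.mem_filter, Fintype.mem_piFinset]
      refine ⟨⟨fun i => ?_, ?_⟩, hz3⟩
      · have h4 := Finset.mem_range.1 (hz2 (z.2.2 i))
        rw [Finset.mem_Icc]
        simp only [Function.comp_apply]
        rcases hpar2 z.1 (z.2.2 i) with h5 | h5 <;> rw [h5] <;> omega
      · rw [← hz1]
        apply Finset.card_bij (fun i _ => z.2.2 i)
        · intro i hi
          rw [Finset.mem_filter] at hi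
          exact (hodd (z.2.2 i)).1 hi.2
        · intro i _ j _ h
          exact z.2.2.injective h
        · intro j hj
          exact ⟨z.2.2.symm j, Finset.mem_filter.2 ⟨Finset.mem_univ _, by
            simp only [Function.comp_apply, Equiv.apply_symm_apply]
            exact (hodd j).2 hj⟩, by simp⟩
    · intro z hz z' hz' h
      simp only [Prod.mk.injEq] at h
      obtain ⟨h5, h6⟩ := h
      have hodd : ∀ (z : Finset (Fin (d + 1)) × ((Fin (d + 1) → ℕ) × Perm (Fin (d + 1)))) i,
          Odd (2 * z.2.1 i + All.par z.1 i) ↔ i ∈ z.1 := by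
        intro z i
        unfold All.par
        split_ifs with h
        · simp only [h, iff_true]
          exact ⟨z.2.1 i + 1, by ring⟩
        · simp only [h, iff_false, Nat.not_odd_iff_even]
          exact ⟨z.2.1 i + 1, by ring⟩
      rw [h6] at h5
      have h7 : ∀ i, 2 * z.2.1 i + All.par z.1 i = 2 * z'.2.1 i + All.par z'.1 i := by
        intro i
        have := congrFun h5 (z'.2.2.symm i)
        simpa using this
      have h8 : z.1 = z'.1 := by
        ext i
        rw [← hodd z i, ← hodd z' i, h7 i]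
      have h9 : z.2.1 = z'.2.1 := by
        funext i
        have := h7 i
        rw [h8] at this
        omega
      exact Prod.ext h8 (Prod.ext h9 h6)
  have h5 : (NB.card : ℝ) ≤ T.card * (d + 1).factorial := by exact_mod_cast h4
  have h6 : ((All.indices (d + 1) q n).card : ℝ) ≤ (PA.card : ℝ) * (n : ℝ) ^ (d + 1) := by
    exact_mod_cast All.card_indices_le (d + 1) q n
  have hfac : (0 : ℝ) < (d + 1).factorial := by exact_mod_cast Nat.factorial_pos _
  have hfle : (f : ℝ) ≤ (d + 1).factorial := by exact_mod_cast fixCount_le (d + 1) _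
  have hf0 : (0 : ℝ) ≤ f := Nat.cast_nonneg _
  have hI0 : (0 : ℝ) ≤ ((All.indices (d + 1) q n).card : ℝ) := Nat.cast_nonneg _
  rcases le_or_gt 1 ε with hε1 | hε1
  · have h7 : (f : ℝ) / (d + 1).factorial ≤ 1 := by
      rw [div_le_one hfac]
      exact hfle
    calc ((f : ℝ) / (d + 1).factorial - ε) * ((All.indices (d + 1) q n).card : ℝ) ≤ 0 :=
          mul_nonpos_of_nonpos_of_nonneg (by linarith) hI0
      _ ≤ _ := Nat.cast_nonneg _
  · have h7 : ((f : ℝ) / (d + 1).factorial - ε) ≤ (1 - ε) * f / (d + 1).factorial := by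
      have h8 : (f : ℝ) / (d + 1).factorial ≤ 1 := by
        rw [div_le_one hfac]
        exact hfle
      have h9 : (1 - ε) * f / (d + 1).factorial = (f : ℝ) / (d + 1).factorial - ε * ((f : ℝ) / (d + 1).factorial) := by ring
      rw [h9]
      nlinarith
    calc ((f : ℝ) / (d + 1).factorial - ε) * ((All.indices (d + 1) q n).card : ℝ)
        ≤ ((1 - ε) * f / (d + 1).factorial) * ((All.indices (d + 1) q n).card : ℝ) := mul_le_mul_of_nonneg_right h7 hI0
      _ ≤ ((1 - ε) * f / (d + 1).factorial) * ((PA.card : ℝ) * (n : ℝ) ^ (d + 1)) := by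
          apply mul_le_mul_of_nonneg_left h6
          apply div_nonneg _ hfac.le
          exact mul_nonneg (by linarith) hf0
      _ = ((PA.card : ℝ) * ((1 - ε) * (n : ℝ) ^ (d + 1) * f)) / (d + 1).factorial := by ring
      _ ≤ (T.card * (d + 1).factorial) / (d + 1).factorial := div_le_div_of_nonneg_right (h3.trans h5) hfac.le
      _ = T.card := by field_simp

end Pool.Agent.H491.Der
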