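import Mathlib
import Pool.Agent.H491.Der1

set_option autoImplicit false

/-! # Functions that are sums of products with an even letter or with two odd letters -/

namespace Pool.Agent.H491.Der

open Equiv

variable {D : ℕ}

theorem Th_append (l₁ l₂ : List (Fin D)) (c : V D) : Th (l₁ ++ l₂) c = Th l₁ (Th l₂ c) := by
  induction l₁ with
  | nil => rfl
  | cons a l ih => rw [List.cons_append, Th_cons, Th_cons, ih]

theorem decomp' (l : List (Fin D)) (c : V D) (hc : c ≠ 0) (h : Th l c = 0) :
    ∃ (pre : List (Fin D)) (a : Fin D) (l' : List (Fin D)), l = pre ++ a :: l' ∧ Th l' c ≠ 0 ∧ Th (a :: l') c = 0 := by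
  induction l with
  | nil => exact absurd h hc
  | cons a l ih =>
    by_cases h0 : Th l c = 0
    · obtain ⟨pre, a', l', h1, h2, h3⟩ := ih h0
      exact ⟨a :: pre, a', l', by rw [h1]; rfl, h2, h3⟩
    · exact ⟨[], a, l, rfl, h0, h⟩

/-- the letters after `a` -/
def suf (a : Fin D) : List (Fin D) := (List.finRange D).drop (a + 1)

/-- the letters before `a` -/
def pre (a : Fin D) : List (Fin D) := (List.finRange D).take a

theorem split_fin (a : Fin D) : List.finRange D = pre a ++ a :: suf a := by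
  have h1 : (List.finRange D).drop a = a :: (List.finRange D).drop (a + 1) := by
    have h2 : (a : ℕ) < (List.finRange D).length := by simp
    rw [List.drop_eq_getElem_cons h2]
    simp
  unfold pre suf
  rw [← h1, List.take_append_drop]

theorem split_unique (a : Fin D) (l₁ l₂ : List (Fin D)) (h : List.finRange D = l₁ ++ a :: l₂) : l₁ = pre a ∧ l₂ = suf a := by
  have h1 := split_fin a
  rw [h] at h1
  have hnd : (l₁ ++ a :: l₂).Nodup := by rw [← h]; exact List.nodup_finRange D
  have hnd' : (pre a ++ a :: suf a).Nodup := by rw [← split_fin]; exact List.nodup_finRange D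
  have hidx : ∀ (l₁ l₂ : List (Fin D)), (l₁ ++ a :: l₂).Nodup → (l₁ ++ a :: l₂).idxOf a = l₁.length := by
    intro l₁ l₂ hnd
    rw [List.idxOf_append_of_notMem]
    · simp
    · intro ha
      exact (List.disjoint_of_nodup_append hnd) ha (by simp)
  have hlen : l₁.length = (pre a).length := by
    rw [← hidx l₁ l₂ hnd, ← hidx _ _ hnd', h1]
  have h2 := List.append_inj h1 hlen
  refine ⟨h2.1, ?_⟩
  have := h2.2
  simpa using this

/-- the condition for the odd letters `a` -/
noncomputable def Ps (a : Fin D) : V D →ₗ[ℚ] V D := (Th (pre a ++ suf a)) ∘ₗ (R a)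

theorem decomp2 (A : Finset (Fin D)) (c : V D) (hc : c ≠ 0) (hΘ : Th (List.finRange D) c = 0)
    (hΨ : ∀ a ∈ A, Ps a (Th (suf a) c) = 0) :
    (∃ (a : Fin D) (l' : List (Fin D)) (c₀ : V D), a ∉ A ∧ a ∉ l' ∧ l'.Nodup ∧ c₀ ≠ 0 ∧ c₀ ∈ U a ∧ Th l' c₀ = c₀ ∧
      c - c₀ ∈ UU l') ∨
    (∃ (a b : Fin D) (l' : List (Fin D)) (c₀ : V D), a ∈ A ∧ b ∈ A ∧ a ≠ b ∧ a ∉ l' ∧ b ∉ l' ∧ l'.Nodup ∧ c₀ ≠ 0 ∧
      c₀ ∈ U a ∧ c₀ ∈ U b ∧ Th l' c₀ = c₀ ∧ c - c₀ ∈ UU l') := by
  obtain ⟨pr, a, l', h1, h2, h3⟩ := decomp' _ c hc hΘ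
  obtain ⟨rfl, rfl⟩ := split_unique a pr l' h1
  have hnd : (pre a ++ a :: suf a).Nodup := by rw [← split_fin]; exact List.nodup_finRange D
  have hnd1 : (a :: suf a).Nodup := (List.nodup_append.1 hnd).2.1
  have ha1 : a ∉ suf a := (List.nodup_cons.1 hnd1).1
  have hnd2 : (suf a).Nodup := (List.nodup_cons.1 hnd1).2
  have hnd0 : (pre a).Nodup := (List.nodup_append.1 hnd).1
  have hdis := List.disjoint_of_nodup_append hnd
  have ha0 : a ∉ pre a := fun h => hdis h (by simp)
  set c₀ := Th (suf a) c with hc₀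
  have hc₀a : R a c₀ = c₀ := by
    rw [Th_cons, sub_eq_zero] at h3
    exact h3.symm
  have hc₀U : c₀ ∈ U a := by rw [← hc₀a]; exact R_mem a _
  by_cases hA : a ∈ A
  · have h4 := hΨ a hA
    rw [Ps, LinearMap.comp_apply, hc₀a, Th_append, Th_Th] at h4
    obtain ⟨pr', b, l'', h5, h6, h7⟩ := decomp' _ c₀ h2 h4
    set c₁ := Th l'' c₀ with hc₁
    have hc₁b : R b c₁ = c₁ := by
      rw [Th_cons, sub_eq_zero] at h7
      exact h7.symm
    have hc₁Ub : c₁ ∈ U b := by rw [← hc₁b]; exact R_mem b _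
    have hc₁Ua : c₁ ∈ U a := Th_mem a l'' c₀ hc₀U
    have hb0 : b ∈ pre a := by rw [h5]; simp
    have hnd3 : (pr' ++ b :: l'').Nodup := by rw [← h5]; exact hnd0
    have hnd4 : (b :: l'').Nodup := (List.nodup_append.1 hnd3).2.1
    have hsub : ∀ x ∈ l'', x ∈ pre a := fun x hx => by rw [h5]; simp [hx]
    have hab : a ≠ b := fun h => ha0 (h ▸ hb0)
    have haL : a ∉ l'' ++ suf a := by
      rw [List.mem_append, not_or]
      exact ⟨fun h => ha0 (hsub a h), ha1⟩
    have hbL : b ∉ l'' ++ suf a := by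
      rw [List.mem_append, not_or]
      exact ⟨(List.nodup_cons.1 hnd4).1, fun h => hdis hb0 (by simp [h])⟩
    have hndL : (l'' ++ suf a).Nodup := by
      rw [List.nodup_append]
      refine ⟨(List.nodup_cons.1 hnd4).2, hnd2, ?_⟩
      intro x hx y hy hxy
      subst hxy
      exact hdis (hsub x hx) (by simp [hy])
    have hTh : Th (l'' ++ suf a) c₁ = c₁ := by
      have e : c₁ = Th (l'' ++ suf a) c := by rw [Th_append]
      rw [e, Th_Th]
    have hcc : c - c₁ ∈ UU (l'' ++ suf a) := by
      have e : c₁ = Th (l'' ++ suf a) c := by rw [Th_append]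
      rw [e]
      exact sub_Th_mem _ c
    by_cases hB : b ∈ A
    · exact Or.inr ⟨a, b, l'' ++ suf a, c₁, hA, hB, hab, haL, hbL, hndL, h6, hc₁Ua, hc₁Ub, hTh, hcc⟩
    · exact Or.inl ⟨b, l'' ++ suf a, c₁, hB, hbL, hndL, h6, hc₁Ub, hTh, hcc⟩
  · exact Or.inl ⟨a, suf a, c₀, hA, ha1, hnd2, h2, hc₀U, Th_Th _ c, sub_Th_mem _ c⟩

theorem Ps_idem (a : Fin D) (c : V D) : Ps a (Ps a c) = Ps a c := by
  rw [Ps, LinearMap.comp_apply, LinearMap.comp_apply]
  have h1 : Th (pre a ++ suf a) (R a c) ∈ U a := Th_mem a _ _ (R_mem a c)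
  rw [R_eq a _ h1, Th_Th]

theorem finrank_range (f : V D →ₗ[ℚ] V D) (h : ∀ c, f (f c) = f c) :
    (Module.finrank ℚ (LinearMap.range f) : ℚ) = LinearMap.trace ℚ (V D) f := by
  have h1 : LinearMap.IsProj (LinearMap.range f) f := by
    constructor
    · intro c
      exact LinearMap.mem_range_self f c
    · rintro _ ⟨c, rfl⟩
      exact h c
  exact h1.trace.symm

open Classical in
theorem finrank_Ps (a : Fin D) : Module.finrank ℚ (LinearMap.range (Ps a)) =
    ((Finset.univ : Finset (Perm (Fin D))).filter fun π => π a = a ∧ ∀ b, b ≠ a → π b ≠ b).card := by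
  have h1 := finrank_range (Ps a) (Ps_idem a)
  have hnd : (pre a ++ a :: suf a).Nodup := by rw [← split_fin]; exact List.nodup_finRange D
  have hnd' : ([a] ++ (pre a ++ suf a)).Nodup := by
    have : (a :: (pre a ++ suf a)).Nodup := by
      rw [← List.nodup_middle]
      exact hnd
    exact this
  have h2 := trace_RR_Th (pre a ++ suf a) [a] hnd'
  have h3 : LinearMap.trace ℚ (V D) (Ps a) = LinearMap.trace ℚ (V D) ((RR [a]) ∘ₗ (Th (pre a ++ suf a))) := by
    have e : RR [a] = R a := by
      apply LinearMap.ext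
      intro c
      rfl
    rw [e, Ps]
    exact LinearMap.trace_comp_comm' _ _
  rw [h3, h2] at h1
  have h4 : ((Finset.univ : Finset (Perm (Fin D))).filter fun π => (∀ b ∈ [a], π b = b) ∧ ∀ b ∈ pre a ++ suf a, π b ≠ b) =
      (Finset.univ : Finset (Perm (Fin D))).filter fun π => π a = a ∧ ∀ b, b ≠ a → π b ≠ b := by
    ext π
    simp only [Finset.mem_filter, Finset.mem_univ, true_and, List.mem_singleton, forall_eq]
    have h5 : ∀ b, b ∈ pre a ++ suf a ↔ b ≠ a := by
      intro b
      constructor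
      · intro hb hba
        subst hba
        exact (List.nodup_cons.1 hnd').1 hb
      · intro hb
        have h6 : b ∈ List.finRange D := List.mem_finRange b
        rw [split_fin a] at h6
        simp only [List.mem_append, List.mem_cons] at h6 ⊢
        tauto
    simp only [h5]
  rw [h4] at h1
  exact_mod_cast h1

open Classical in
theorem finrank_Th_range : Module.finrank ℚ (LinearMap.range (Th (List.finRange D))) =
    ((Finset.univ : Finset (Perm (Fin D))).filter fun π => ∀ b, π b ≠ b).card := by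
  have h1 := finrank_range (Th (List.finRange D)) (Th_Th _)
  have h2 := trace_RR_Th (List.finRange D) [] (by simpa using List.nodup_finRange D)
  have e : (RR []) ∘ₗ (Th (List.finRange D)) = Th (List.finRange D) := rfl
  rw [e] at h2
  rw [h2] at h1
  have h4 : ((Finset.univ : Finset (Perm (Fin D))).filter fun π => (∀ b ∈ ([] : List (Fin D)), π b = b) ∧
      ∀ b ∈ List.finRange D, π b ≠ b) = (Finset.univ : Finset (Perm (Fin D))).filter fun π => ∀ b, π b ≠ b := by
    ext π
    simp
  rw [h4] at h1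
  exact_mod_cast h1

open Classical in
/-- the number of the permutations with a fixed point outside of `A` or two fixed points -/
noncomputable def fixA (A : Finset (Fin D)) : ℕ :=
  ((Finset.univ : Finset (Perm (Fin D))).filter fun π => (∃ i, i ∉ A ∧ π i = i) ∨ ∃ i j, i ≠ j ∧ π i = i ∧ π j = j).card

open Classical in
theorem fixA_add (A : Finset (Fin D)) :
    fixA A + (((Finset.univ : Finset (Perm (Fin D))).filter fun π => ∀ b, π b ≠ b).card +
      ∑ a ∈ A, ((Finset.univ : Finset (Perm (Fin D))).filter fun π => π a = a ∧ ∀ b, b ≠ a → π b ≠ b).card) =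
      (Finset.univ : Finset (Perm (Fin D))).card := by
  rw [← Finset.card_biUnion]
  · rw [← Finset.card_union_of_disjoint, fixA, ← Finset.card_union_of_disjoint]
    · congr 1
      ext π
      simp only [Finset.mem_union, Finset.mem_filter, Finset.mem_univ, true_and, Finset.mem_biUnion, iff_true]
      by_cases h1 : ∀ b, π b ≠ b
      · exact Or.inr (Or.inl h1)
      · push Not at h1
        obtain ⟨a, ha⟩ := h1
        by_cases h2 : ∃ b, b ≠ a ∧ π b = b
        · obtain ⟨b, hb1, hb2⟩ := h2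
          exact Or.inl (Or.inr ⟨b, a, hb1, hb2, ha⟩)
        · push Not at h2
          by_cases h3 : a ∈ A
          · exact Or.inr (Or.inr ⟨a, h3, ha, h2⟩)
          · exact Or.inl (Or.inl ⟨a, h3, ha⟩)
    · rw [Finset.disjoint_left]
      intro π h1 h2
      rw [Finset.mem_filter] at h1
      rw [Finset.mem_union, Finset.mem_filter, Finset.mem_biUnion] at h2
      rcases h2 with h2 | ⟨a, ha, h2⟩
      · rcases h1.2 with ⟨i, -, hi⟩ | ⟨i, j, -, hi, -⟩
        · exact h2.2 i hi
        · exact h2.2 i hi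
      · rw [Finset.mem_filter] at h2
        rcases h1.2 with ⟨i, hi1, hi2⟩ | ⟨i, j, hij, hi, hj⟩
        · by_cases hia : i = a
          · exact hi1 (hia ▸ ha)
          · exact h2.2.2 i hia hi2
        · by_cases hia : i = a
          · exact h2.2.2 j (fun h => hij (hia.trans h.symm)) hj
          · exact h2.2.2 i hia hi
    · rw [Finset.disjoint_left]
      intro π h1 h2
      rw [Finset.mem_filter] at h1
      rw [Finset.mem_biUnion] at h2
      obtain ⟨a, -, h2⟩ := h2
      rw [Finset.mem_filter] at h2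
      exact h1.2 a h2.2.1
  · intro a _ b _ hab
    rw [Function.onFun, Finset.disjoint_left]
    intro π h1 h2
    rw [Finset.mem_filter] at h1 h2
    exact h1.2.2 b hab.symm h2.2.1

/-- a function that vanishes on a small set -/
theorem exists_function2 (A : Finset (Fin D)) (T : Finset (Perm (Fin D))) (hT : T.card < fixA A) :
    ∃ c : V D, c ≠ 0 ∧ Th (List.finRange D) c = 0 ∧ (∀ a ∈ A, Ps a (Th (suf a) c) = 0) ∧ ∀ σ ∈ T, c σ = 0 := by
  classical
  let Φ : V D →ₗ[ℚ] ((T → ℚ) × (LinearMap.range (Th (List.finRange D)) × ((a : A) → LinearMap.range (Ps (a : Fin D))))) :=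
    (LinearMap.pi fun σ : T => LinearMap.proj (σ : Perm (Fin D))).prod
      (((Th (List.finRange D)).rangeRestrict).prod
        (LinearMap.pi fun a : A => ((Ps (a : Fin D)).rangeRestrict) ∘ₗ (Th (suf (a : Fin D)))))
  have h1 : LinearMap.ker Φ ≠ ⊥ := by
    apply LinearMap.ker_ne_bot_of_finrank_lt
    have f1 : Module.finrank ℚ (T → ℚ) = T.card := by
      rw [Module.finrank_fintype_fun_eq_card, Fintype.card_coe]
    have f2 : Module.finrank ℚ ((a : A) → LinearMap.range (Ps (a : Fin D))) =
        ∑ a : A, ((Finset.univ : Finset (Perm (Fin D))).filter fun π => π (a : Fin D) = (a : Fin D) ∧ ∀ b, b ≠ (a : Fin D) → π b ≠ b).card := by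
      rw [Module.finrank_pi_fintype]
      exact Finset.sum_congr rfl fun a _ => finrank_Ps (a : Fin D)
    have f3 : Module.finrank ℚ (V D) = (Finset.univ : Finset (Perm (Fin D))).card := by
      rw [Module.finrank_fintype_fun_eq_card, Finset.card_univ]
    have h3 := fixA_add A
    rw [Module.finrank_prod, Module.finrank_prod, f1, f2, f3, finrank_Th_range, ← h3]
    rw [← Finset.sum_coe_sort A]
    omega
  obtain ⟨x, hx, hx0⟩ := Submodule.exists_mem_ne_zero_of_ne_bot h1
  have hx1 := LinearMap.mem_ker.1 hx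
  have e1 := congrArg Prod.fst hx1
  have e2 := congrArg (fun z => z.2.1) hx1
  have e3 := congrArg (fun z => z.2.2) hx1
  refine ⟨x, hx0, ?_, ?_, ?_⟩
  · exact congrArg Subtype.val e2
  · intro a ha
    exact congrArg Subtype.val (congrFun e3 ⟨a, ha⟩)
  · intro σ hσ
    exact congrFun e1 ⟨σ, hσ⟩

end Pool.Agent.H491.Der
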