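import Mathlib
import Pool.Agent.H491.Pr5
import Pool.Agent.H491.Der7

set_option autoImplicit false

/-! # Rigidity for two odd letters -/

namespace Pool.Agent.H491.Der

/-- **Rigidity** for two odd letters. -/
theorem rigid2 {d : ℕ} (p : Fin (d + 1) → ℕ) (hp : ∀ i, 2 ≤ p i) (a₁ a : Fin (d + 1)) (hab : a₁ ≠ a)
    (hpab : Even (p a₁ + p a)) (l' : List (Fin (d + 1))) (hal : a₁ ∉ l') (hbl : a ∉ l') (hl' : l'.Nodup)
    (c c₀ : V (d + 1)) (hc₀ : c₀ ≠ 0) (hc₀a : c₀ ∈ U a₁) (hc₀b : c₀ ∈ U a)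
    (hTh : Th l' c₀ = c₀) (hcc : c - c₀ ∈ UU l') (δ : ℝ) (hδ : 0 < δ) (r : ℕ) :
    ∃ n₀ : ℕ, ∀ n : ℕ, n₀ ≤ n → ∀ (L : Subfield ℝ), Transcendental L Real.pi →
      ∀ (E : Submodule L ℝ), Module.rank L E ≤ (r : Cardinal) → ∀ X : Finset (Fin (d + 1) → ℕ),
      (∀ x ∈ X, (∀ i, x i < n) ∧ GG c (fun i => 2 * x i + p i) ∈ E) → (X.card : ℝ) ≤ δ * (n : ℝ) ^ (d + 1) := by
  classical
  set w := (d + 1) + (d + 1) * 2 ^ (Fintype.card (PP (d + 1))) + 2 with hw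
  set m := Fintype.card (Fin (d + 1) ⊕ PP (d + 1)) with hm
  let eq : (Fin (d + 1) ⊕ PP (d + 1)) ≃ Fin m := Fintype.equivFin _
  set R := w ^ m * r + w * 2 ^ (Fintype.card (PP (d + 1))) with hR
  obtain ⟨N, hN⟩ := exists_nat_gt (((R : ℝ) + m * w ^ 2) / (δ / 2) ^ (w ^ m))
  have hden : 0 < (δ / 2) ^ (w ^ m) := by positivity
  have hN0 : 0 < N := by
    have h1 : (0 : ℝ) ≤ ((R : ℝ) + m * w ^ 2) / (δ / 2) ^ (w ^ m) := by positivity
    have h2 : (0 : ℝ) < N := lt_of_le_of_lt h1 hN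
    exact_mod_cast h2
  have hN0' : (0 : ℝ) < N := by exact_mod_cast hN0
  -- the thresholds
  have hYt : ∀ t : (Fin (d + 1) ⊕ PP (d + 1)) → Fin w → Fin N, ∃ Y : ℕ, (∀ κ, Function.Injective (t κ)) →
      ∀ y : Fin (d + 1) → ℕ, (∀ i, Y ≤ y i) → ∀ (L : Subfield ℝ), Transcendental L Real.pi →
      ∀ (E : Submodule L ℝ) (r : ℕ), Module.rank L E ≤ (r : Cardinal) → ∀ B : Finset ℕ,
      (∀ b ∈ B, ∀ e, GG c (aa p y N (fun κ k => (t κ k : ℕ)) a e b) ∈ E) →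
      B.card < w ^ (Fintype.card (Fin (d + 1) ⊕ PP (d + 1))) * r + w * 2 ^ (Fintype.card (PP (d + 1))) := by
    intro t
    by_cases h : ∀ κ, Function.Injective (t κ)
    · obtain ⟨Y, hY⟩ := analytic2 p hp a₁ a hab hpab l' hal hbl hl' c c₀ hc₀ hc₀a hc₀b hTh hcc w le_rfl N (fun κ k => (t κ k : ℕ))
        (fun κ => Fin.val_injective.comp (h κ)) (fun κ k => (t κ k).2.le)
      exact ⟨Y, fun _ => hY⟩
    · exact ⟨0, fun h' => absurd h' h⟩
  choose Yt hYt using hYt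
  set Y := ∑ t, Yt t with hY
  have hYle : ∀ t, Yt t ≤ Y := fun t => Finset.single_le_sum (f := Yt) (fun _ _ => Nat.zero_le _) (Finset.mem_univ t)
  obtain ⟨n₀, hn₀⟩ := exists_nat_gt ((((d : ℝ) + 1) * (((2 + 2 * Fintype.card (PP (d + 1))) * N + Y : ℕ) : ℝ)) / (δ / 2))
  refine ⟨n₀ + 1, ?_⟩
  intro n hn L hL E hE X hX
  by_contra hcon
  push Not at hcon
  have hnn : (n₀ : ℝ) ≤ n := by exact_mod_cast (by omega : n₀ ≤ n)
  have hn' : ((d : ℝ) + 1) * (((2 + 2 * Fintype.card (PP (d + 1))) * N + Y : ℕ) : ℝ) ≤ δ / 2 * n := by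
    rw [div_lt_iff₀ (by positivity)] at hn₀
    nlinarith
  obtain ⟨y, hy, hS⟩ := exists_base m N Y n eq a (by omega) hN0 X (fun x hx => (hX x hx).1) δ hcon hn'
  set S := (Finset.univ : Finset ((Fin m → Fin N) × Fin N)).filter fun q =>
        (fun i => y i + sh N a (fun κ => (q.1 (eq κ) : ℕ)) q.2 i) ∈ X with hSdef
  have hd := All.density m w N R hN0 S ?_
  · have h1 : δ / 2 ≤ (S.card : ℝ) / (N : ℝ) ^ (m + 1) := by
      rw [le_div_iff₀ (by positivity)]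
      exact hS
    have h2 : (δ / 2) ^ (w ^ m) ≤ ((S.card : ℝ) / (N : ℝ) ^ (m + 1)) ^ (w ^ m) := pow_le_pow_left₀ (by positivity) h1 _
    have h3 := h2.trans hd
    rw [div_lt_iff₀ hden] at hN
    rw [le_div_iff₀ hN0'] at h3
    linarith
  · intro t ht
    set Bt := (Finset.univ : Finset (Fin N)).filter fun b => ∀ e : Fin m → Fin w, ((fun i => t i (e i)), b) ∈ S with hBt
    have h1 := hYt (fun κ => t (eq κ)) (fun κ => ht (eq κ)) y (fun i => (hYle _).trans (hy i)) L hL E r hE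
      (Bt.image fun b : Fin N => (b : ℕ)) (by
        intro b' hb' e
        rw [Finset.mem_image] at hb'
        obtain ⟨b, hb, rfl⟩ := hb'
        rw [hBt, Finset.mem_filter] at hb
        have h2 := hb.2 (fun i => e (eq.symm i))
        rw [hSdef, Finset.mem_filter] at h2
        have h3 := (hX _ h2.2).2
        rw [aa_eq]
        simp only [Equiv.symm_apply_apply] at h3
        exact h3)
    rw [Finset.card_image_of_injective _ Fin.val_injective] at h1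
    exact h1.le

end Pool.Agent.H491.Der
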