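import Mathlib
import Pool.Agent.H491.Az12
import Pool.Agent.H491.Pr7

set_option autoImplicit false

/-! # The proportion for alternating zeta values in windows -/

namespace Pool.Agent.H491.Der

open Equiv

variable {D : ℕ}

/-- the alternating multiple zeta value -/
noncomputable def zta (z : Fin D → ℤˣ) (a : Fin D → ℕ) : ℝ :=
  ∑' n : {n : Fin D → ℕ // StrictAnti n ∧ ∀ i, 1 ≤ n i}, ∏ i, (((z i : ℤ) : ℝ) ^ n.1 i * (((n.1 i : ℕ) : ℝ) ^ a i)⁻¹)

theorem GS_eq (z : Fin D → ℤˣ) (c : V D) (a : Fin D → ℕ) :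
    GS (fun i => sgs (z i)) c a = ∑ σ : Perm (Fin D), ((c σ : ℚ) : ℝ) * zta (z ∘ σ) (a ∘ σ) := by
  rw [GS]
  refine Finset.sum_congr rfl fun σ _ => ?_
  congr 1
  rw [zta]
  refine tsum_congr fun n => Finset.prod_congr rfl fun i _ => ?_
  have h := n.2.2 i
  simp only [sgs, Function.comp_apply]
  rw [Nat.sub_add_cancel h]

open Classical in
/-- the arrangements with value outside `E` -/
noncomputable def goodA {L : Subfield ℝ} (E : Submodule L ℝ) (z : Fin D → ℤˣ) (a : Fin D → ℕ) : Finset (Perm (Fin D)) :=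
  Finset.univ.filter fun σ => zta (z ∘ σ) (a ∘ σ) ∉ E

open Classical in
theorem bad_small3L {d : ℕ} (A : Finset (Fin (d + 1))) (z : Fin (d + 1) → ℤˣ) (δ : ℝ) (hδ : 0 < δ) :
    ∃ C : ℕ, ∀ n r : ℕ, C * (r + 1) ≤ n → ∀ (L : Subfield ℝ), Transcendental L Real.pi →
      ∀ (E : Submodule L ℝ), Module.rank L E ≤ (r : Cardinal) → ∀ y₀ : Fin (d + 1) → ℕ,
      (((Fintype.piFinset fun _ : Fin (d + 1) => Finset.range n).filter fun x =>
        (goodA E z fun i => 2 * (y₀ i + x i) + All.par A i).card < fixCount2 (d + 1) ((d + 1) - A.card)).card : ℝ) ≤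
        2 ^ (d + 1).factorial * δ * (n : ℝ) ^ (d + 1) := by
  have hp : ∀ i, 2 ≤ All.par A i := by
    intro i
    unfold All.par
    split_ifs <;> omega
  have hT : ∀ T : Finset (Perm (Fin (d + 1))), ∃ (n₀ : ℕ) (c : V (d + 1)), T.card < fixCount2 (d + 1) ((d + 1) - A.card) →
      (∀ σ ∈ T, c σ = 0) ∧ ∀ n r : ℕ, n₀ * (r + 1) ≤ n → ∀ (L : Subfield ℝ), Transcendental L Real.pi →
      ∀ (E : Submodule L ℝ), Module.rank L E ≤ (r : Cardinal) → ∀ (y₀ : Fin (d + 1) → ℕ) (X : Finset (Fin (d + 1) → ℕ)),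
      (∀ x ∈ X, (∀ i, x i < n) ∧ GS (fun i => sgs (z i)) c (fun i => 2 * (y₀ i + x i) + All.par A i) ∈ E) → (X.card : ℝ) ≤ δ * (n : ℝ) ^ (d + 1) := by
    intro T
    by_cases h : T.card < fixCount2 (d + 1) ((d + 1) - A.card)
    · rw [← fixA_eq] at h
      obtain ⟨c, hc, hΘ, hΨ, hcT⟩ := exists_function2 A T h
      rcases decomp2 A c hc hΘ hΨ with ⟨a, l', c₀, h1, h2, h3, h4, h5, h6, h7⟩ |
          ⟨a, b, l', c₀, h1, h1', hab, h2, h2', h3, h4, h5, h5', h6, h7⟩
      · have hpa : Even (All.par A a) := by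
          unfold All.par
          rw [if_neg h1]
          exact even_two
        obtain ⟨n₀, hn₀⟩ := rigidVL (fun i => sgs (z i)) (fun i n => abs_sgs _ _) (All.par A) hp a (FSU_sgs _) hpa l' h2 h3 c c₀ h4 h5 h6 h7 δ hδ
        exact ⟨n₀, c, fun _ => ⟨hcT, hn₀⟩⟩
      · have hpab : Even (All.par A a + All.par A b) := by
          unfold All.par
          rw [if_pos h1, if_pos h1']
          exact ⟨3, rfl⟩
        obtain ⟨n₀, hn₀⟩ := rigidV2L (fun i => sgs (z i)) (fun i n => abs_sgs _ _) (All.par A) hp a b hab (FSU_sgs2 _ _) hpab l' h2 h2' h3 c c₀ h4 h5 h5' h6 h7 δ hδ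
        exact ⟨n₀, c, fun _ => ⟨hcT, hn₀⟩⟩
    · exact ⟨0, 0, fun h' => absurd h' h⟩
  choose nT cT hnT using hT
  refine ⟨∑ T, nT T, ?_⟩
  intro n r hn L hL E hE y₀
  set cube := Fintype.piFinset fun _ : Fin (d + 1) => Finset.range n with hcube
  set Bs := cube.filter fun x => (goodA E z fun i => 2 * (y₀ i + x i) + All.par A i).card < fixCount2 (d + 1) ((d + 1) - A.card) with hBs
  have h1 : Bs.card = ∑ T : Finset (Perm (Fin (d + 1))), (Bs.filter fun x => (goodA E z fun i => 2 * (y₀ i + x i) + All.par A i) = T).card :=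
    Finset.card_eq_sum_card_fiberwise (fun x _ => Finset.mem_univ _)
  have h2 : ∀ T : Finset (Perm (Fin (d + 1))), ((Bs.filter fun x => (goodA E z fun i => 2 * (y₀ i + x i) + All.par A i) = T).card : ℝ) ≤
      δ * (n : ℝ) ^ (d + 1) := by
    intro T
    by_cases h : T.card < fixCount2 (d + 1) ((d + 1) - A.card)
    · obtain ⟨h3, h4⟩ := hnT T h
      have h5 : nT T * (r + 1) ≤ n := (Nat.mul_le_mul_right _
        (Finset.single_le_sum (f := nT) (fun _ _ => Nat.zero_le _) (Finset.mem_univ T))).trans hn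
      apply h4 n r h5 L hL E hE y₀
      intro x hx
      rw [Finset.mem_filter, hBs, Finset.mem_filter, hcube, Fintype.mem_piFinset] at hx
      refine ⟨fun i => Finset.mem_range.1 (hx.1.1 i), ?_⟩
      rw [GS_eq]
      apply Submodule.sum_mem
      intro σ _
      by_cases hσ : σ ∈ T
      · rw [h3 σ hσ]
        simp
      · have h6 : σ ∉ goodA E z fun i => 2 * (y₀ i + x i) + All.par A i := by rw [hx.2]; exact hσ
        rw [goodA, Finset.mem_filter] at h6
        have h7 : zta (z ∘ σ) ((fun i => 2 * (y₀ i + x i) + All.par A i) ∘ σ) ∈ E := by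
          by_contra h8
          exact h6 ⟨Finset.mem_univ _, h8⟩
        exact smul_mem_E E _ _ h7
    · have h3 : (Bs.filter fun x => (goodA E z fun i => 2 * (y₀ i + x i) + All.par A i) = T) = ∅ := by
        rw [Finset.filter_eq_empty_iff]
        intro x hx hxT
        rw [hBs, Finset.mem_filter, hxT] at hx
        exact h hx.2
      rw [h3]
      simp only [Finset.card_empty, Nat.cast_zero]
      positivity
  rw [h1]
  push_cast
  refine (Finset.sum_le_sum fun T _ => h2 T).trans ?_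
  rw [Finset.sum_const, Finset.card_univ, Fintype.card_finset, Fintype.card_perm, Fintype.card_fin, nsmul_eq_mul]
  push_cast
  rw [mul_assoc]

/-- the indices of depth `D` with entries between `2 m + 2` and `2 m + 2 n + 1`, exactly `q` of them odd -/
def indW (D q m n : ℕ) : Finset (Fin D → ℕ) :=
  (Fintype.piFinset fun _ => Finset.Icc (2 * m + 2) (2 * m + 2 * n + 1)).filter fun k =>
    (Finset.univ.filter fun i => Odd (k i)).card = q

theorem card_indW_le (D q m n : ℕ) :
    (indW D q m n).card ≤ ((Finset.univ : Finset (Fin D)).powersetCard q).card * n ^ D := by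
  classical
  refine le_trans ?_ (All.card_indices_le D q n)
  apply Finset.card_le_card_of_injOn (fun k => fun i => k i - 2 * m)
  · intro k hk
    rw [Finset.mem_coe, indW, Finset.mem_filter, Fintype.mem_piFinset] at hk
    obtain ⟨h1, h2⟩ := hk
    rw [Finset.mem_coe, All.indices, Finset.mem_filter, Fintype.mem_piFinset]
    refine ⟨fun i => ?_, ?_⟩
    · have := Finset.mem_Icc.1 (h1 i)
      rw [Finset.mem_Icc]
      beta_reduce
      omega
    · rw [← h2]
      congr 1
      ext i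
      simp only [Finset.mem_filter, Finset.mem_univ, true_and]
      have := Finset.mem_Icc.1 (h1 i)
      rw [Nat.odd_iff, Nat.odd_iff]
      omega
  · intro k hk k' hk' h
    rw [Finset.mem_coe, indW, Finset.mem_filter, Fintype.mem_piFinset] at hk hk'
    funext i
    have h1 := Finset.mem_Icc.1 (hk.1 i)
    have h2 := Finset.mem_Icc.1 (hk'.1 i)
    have h3 := congrFun h i
    simp only at h3
    omega

open Classical in
/-- **The theorem** for alternating zeta values in windows: `Zs` is a set of sign vectors stable under permutations. -/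
theorem main3L (D q : ℕ) (Zs : Finset (Fin D → ℤˣ)) (hZs : ∀ z ∈ Zs, ∀ σ : Perm (Fin D), z ∘ σ ∈ Zs) (ε : ℝ)
    (hε : 0 < ε) :
    ∃ C : ℕ, ∀ n r : ℕ, C * (r + 1) ≤ n → ∀ (L : Subfield ℝ), Transcendental L Real.pi → ∀ (E : Submodule L ℝ),
      Module.rank L E ≤ (r : Cardinal) → ∀ m : ℕ,
      ((fixCount2 D (D - q) : ℝ) / D.factorial - ε) * ((indW D q m n ×ˢ Zs).card : ℝ) ≤
        (((indW D q m n ×ˢ Zs).filter fun k => zta k.2 k.1 ∉ E).card : ℝ) := by
  rcases Nat.eq_zero_or_pos D with rfl | hD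
  · refine ⟨0, fun n r _ L _ E _ m => ?_⟩
    have h0 : fixCount2 0 (0 - q) = 0 := by
      rw [fixCount2, Finset.card_eq_zero, Finset.filter_eq_empty_iff]
      rintro π - (⟨i, -⟩ | ⟨i, -⟩)
      · exact i.elim0
      · exact i.elim0
    rw [h0]
    simp only [Nat.cast_zero, zero_div, zero_sub]
    have h1 : (0 : ℝ) ≤ ((indW 0 q m n ×ˢ Zs).card : ℝ) := Nat.cast_nonneg _
    have h2 : (0 : ℝ) ≤ (((indW 0 q m n ×ˢ Zs).filter fun k => zta k.2 k.1 ∉ E).card : ℝ) := Nat.cast_nonneg _
    nlinarith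
  obtain ⟨d, rfl⟩ : ∃ d, D = d + 1 := ⟨D - 1, by omega⟩
  have hpar2 : ∀ (A : Finset (Fin (d + 1))) i, All.par A i = 2 ∨ All.par A i = 3 := by
    intro A i
    unfold All.par
    split_ifs
    · exact Or.inr rfl
    · exact Or.inl rfl
  set F := 2 ^ (d + 1).factorial with hF
  have hFpos : (0 : ℝ) < (2 : ℝ) ^ (d + 1).factorial := by positivity
  choose nA hnA using fun A : Finset (Fin (d + 1)) × (Fin (d + 1) → ℤˣ) => bad_small3L A.1 A.2 (ε / (2 : ℝ) ^ (d + 1).factorial) (by positivity)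
  refine ⟨∑ A, nA A, ?_⟩
  intro n r hn L hL E hE m
  have hnA' : ∀ A, nA A * (r + 1) ≤ n := fun A => (Nat.mul_le_mul_right _
    (Finset.single_le_sum (f := nA) (fun _ _ => Nat.zero_le _) (Finset.mem_univ A))).trans hn
  set T := (indW (d + 1) q m n ×ˢ Zs).filter fun k => zta k.2 k.1 ∉ E with hT
  set cube : Finset (Fin (d + 1) → ℕ) := Fintype.piFinset fun _ => Finset.range n with hcube
  have hcubecard : cube.card = n ^ (d + 1) := by rw [hcube, Fintype.card_piFinset_const, Finset.card_range]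
  set PA := (Finset.univ : Finset (Fin (d + 1))).powersetCard q with hPA
  set f : ℕ := fixCount2 (d + 1) ((d + 1) - q) with hf
  -- the lower bound
  have h1 : ∀ A ∈ PA, ∀ z : Fin (d + 1) → ℤˣ,
      (1 - ε) * (n : ℝ) ^ (d + 1) * f ≤ ∑ x ∈ cube, ((goodA E z fun i => 2 * (m + x i) + All.par A i).card : ℝ) := by
    intro A hA z
    rw [hPA, Finset.mem_powersetCard] at hA
    have h2 := hnA (A, z) n r (hnA' (A, z)) L hL E hE (fun _ => m)
    rw [hA.2, ← hf, mul_div_cancel₀ _ hFpos.ne'] at h2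
    have h3 := Finset.card_filter_add_card_filter_not (s := cube) (fun x => (goodA E z fun i => 2 * (m + x i) + All.par A i).card < f)
    rw [hcubecard] at h3
    have h4 : ((cube.filter fun x => (goodA E z fun i => 2 * (m + x i) + All.par A i).card < f).card : ℝ) +
        ((cube.filter fun x => ¬ (goodA E z fun i => 2 * (m + x i) + All.par A i).card < f).card : ℝ) = (n : ℝ) ^ (d + 1) := by
      exact_mod_cast h3
    have h5 : (1 - ε) * (n : ℝ) ^ (d + 1) ≤ ((cube.filter fun x => ¬ (goodA E z fun i => 2 * (m + x i) + All.par A i).card < f).card : ℝ) := by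
      linarith
    calc (1 - ε) * (n : ℝ) ^ (d + 1) * f ≤
          ((cube.filter fun x => ¬ (goodA E z fun i => 2 * (m + x i) + All.par A i).card < f).card : ℝ) * f :=
          mul_le_mul_of_nonneg_right h5 (Nat.cast_nonneg _)
      _ = ∑ _x ∈ cube.filter fun x => ¬ (goodA E z fun i => 2 * (m + x i) + All.par A i).card < f, (f : ℝ) := by
          rw [Finset.sum_const, nsmul_eq_mul]
      _ ≤ ∑ x ∈ cube.filter fun x => ¬ (goodA E z fun i => 2 * (m + x i) + All.par A i).card < f,
            ((goodA E z fun i => 2 * (m + x i) + All.par A i).card : ℝ) := by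
          refine Finset.sum_le_sum fun x hx => ?_
          rw [Finset.mem_filter] at hx
          exact_mod_cast not_lt.1 hx.2
      _ ≤ _ := Finset.sum_le_sum_of_subset_of_nonneg (Finset.filter_subset _ _) fun _ _ _ => Nat.cast_nonneg _
  set NB : Finset ((Finset (Fin (d + 1)) × (Fin (d + 1) → ℤˣ)) × ((Fin (d + 1) → ℕ) × Perm (Fin (d + 1)))) :=
    ((PA ×ˢ Zs) ×ˢ (cube ×ˢ Finset.univ)).filter fun z =>
      zta (z.1.2 ∘ z.2.2) ((fun i => 2 * (m + z.2.1 i) + All.par z.1.1 i) ∘ z.2.2) ∉ E with hNB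
  have h2 : (NB.card : ℝ) = ∑ A ∈ PA, ∑ z ∈ Zs, ∑ x ∈ cube, ((goodA E z fun i => 2 * (m + x i) + All.par A i).card : ℝ) := by
    rw [hNB, Finset.card_filter, Finset.sum_product, Finset.sum_product]
    push_cast
    refine Finset.sum_congr rfl fun A _ => Finset.sum_congr rfl fun z _ => ?_
    rw [Finset.sum_product]
    refine Finset.sum_congr rfl fun x _ => ?_
    rw [goodA, Finset.card_filter]
    push_cast
    rfl
  have h3 : (PA.card : ℝ) * ((Zs.card : ℝ) * ((1 - ε) * (n : ℝ) ^ (d + 1) * f)) ≤ NB.card := by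
    rw [h2, ← nsmul_eq_mul, ← nsmul_eq_mul, ← Finset.sum_const, ← Finset.sum_const]
    exact Finset.sum_le_sum fun A hA => Finset.sum_le_sum fun z _ => h1 A hA z
  have hodd : ∀ (A : Finset (Fin (d + 1))) (x : Fin (d + 1) → ℕ) i, Odd (2 * (m + x i) + All.par A i) ↔ i ∈ A := by
    intro A x i
    unfold All.par
    split_ifs with h
    · simp only [h, iff_true]
      exact ⟨m + x i + 1, by ring⟩
    · simp only [h, iff_false, Nat.not_odd_iff_even]
      exact ⟨m + x i + 1, by ring⟩
  have h4 : NB.card ≤ T.card * (d + 1).factorial := by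
    have e : T.card * (d + 1).factorial = (T ×ˢ (Finset.univ : Finset (Perm (Fin (d + 1))))).card := by
      rw [Finset.card_product, Finset.card_univ, Fintype.card_perm, Fintype.card_fin]
    rw [e]
    apply Finset.card_le_card_of_injOn
      (fun z => (((fun i => 2 * (m + z.2.1 i) + All.par z.1.1 i) ∘ z.2.2, z.1.2 ∘ z.2.2), z.2.2))
    · intro z hz
      rw [Finset.mem_coe, hNB, Finset.mem_filter, Finset.mem_product, Finset.mem_product, Finset.mem_product, hPA,
        Finset.mem_powersetCard, hcube, Fintype.mem_piFinset] at hz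
      obtain ⟨⟨⟨⟨-, hz1⟩, hzZ⟩, hz2, -⟩, hz3⟩ := hz
      rw [Finset.mem_coe, Finset.mem_product]
      refine ⟨?_, Finset.mem_univ _⟩
      rw [hT, Finset.mem_filter, Finset.mem_product, indW, Finset.mem_filter, Fintype.mem_piFinset]
      refine ⟨⟨⟨fun i => ?_, ?_⟩, hZs _ hzZ _⟩, hz3⟩
      · have h4 := Finset.mem_range.1 (hz2 (z.2.2 i))
        rw [Finset.mem_Icc]
        simp only [Function.comp_apply]
        rcases hpar2 z.1.1 (z.2.2 i) with h5 | h5 <;> rw [h5] <;> omega
      · rw [← hz1]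
        apply Finset.card_bij (fun i _ => z.2.2 i)
        · intro i hi
          rw [Finset.mem_filter] at hi
          exact (hodd z.1.1 z.2.1 (z.2.2 i)).1 hi.2
        · intro i _ j _ h
          exact z.2.2.injective h
        · intro j hj
          exact ⟨z.2.2.symm j, Finset.mem_filter.2 ⟨Finset.mem_univ _, by
            simp only [Function.comp_apply, Equiv.apply_symm_apply]
            exact (hodd z.1.1 z.2.1 j).2 hj⟩, by simp⟩
    · intro z hz z' hz' h
      simp only [Prod.mk.injEq] at h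
      obtain ⟨⟨h5, h5'⟩, h6⟩ := h
      rw [h6] at h5 h5'
      have h7 : ∀ i, 2 * (m + z.2.1 i) + All.par z.1.1 i = 2 * (m + z'.2.1 i) + All.par z'.1.1 i := by
        intro i
        have := congrFun h5 (z'.2.2.symm i)
        simpa using this
      have h7' : z.1.2 = z'.1.2 := by
        funext i
        have := congrFun h5' (z'.2.2.symm i)
        simpa using this
      have h8 : z.1.1 = z'.1.1 := by
        ext i
        rw [← hodd z.1.1 z.2.1 i, ← hodd z'.1.1 z'.2.1 i, h7 i]
      have h9 : z.2.1 = z'.2.1 := by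
        funext i
        have := h7 i
        rw [h8] at this
        omega
      exact Prod.ext (Prod.ext h8 h7') (Prod.ext h9 h6)
  have h5 : (NB.card : ℝ) ≤ T.card * (d + 1).factorial := by exact_mod_cast h4
  have h6 : ((indW (d + 1) q m n ×ˢ Zs).card : ℝ) ≤ (PA.card : ℝ) * ((Zs.card : ℝ) * (n : ℝ) ^ (d + 1)) := by
    rw [Finset.card_product]
    push_cast
    have h7 : ((indW (d + 1) q m n).card : ℝ) ≤ (PA.card : ℝ) * (n : ℝ) ^ (d + 1) := by
      exact_mod_cast card_indW_le (d + 1) q m n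
    have h8 : (0 : ℝ) ≤ Zs.card := Nat.cast_nonneg _
    calc ((indW (d + 1) q m n).card : ℝ) * (Zs.card : ℝ) ≤ ((PA.card : ℝ) * (n : ℝ) ^ (d + 1)) * (Zs.card : ℝ) :=
          mul_le_mul_of_nonneg_right h7 h8
      _ = _ := by ring
  have hfac : (0 : ℝ) < (d + 1).factorial := by exact_mod_cast Nat.factorial_pos _
  have hfle : (f : ℝ) ≤ (d + 1).factorial := by exact_mod_cast fixCount2_le (d + 1) _
  have hf0 : (0 : ℝ) ≤ f := Nat.cast_nonneg _
  have hI0 : (0 : ℝ) ≤ ((indW (d + 1) q m n ×ˢ Zs).card : ℝ) := Nat.cast_nonneg _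
  rcases le_or_gt 1 ε with hε1 | hε1
  · have h7 : (f : ℝ) / (d + 1).factorial ≤ 1 := by
      rw [div_le_one hfac]
      exact hfle
    calc ((f : ℝ) / (d + 1).factorial - ε) * ((indW (d + 1) q m n ×ˢ Zs).card : ℝ) ≤ 0 :=
          mul_nonpos_of_nonpos_of_nonneg (by linarith) hI0
      _ ≤ _ := Nat.cast_nonneg _
  · have h7 : ((f : ℝ) / (d + 1).factorial - ε) ≤ (1 - ε) * f / (d + 1).factorial := by
      have h8 : (f : ℝ) / (d + 1).factorial ≤ 1 := by
        rw [div_le_one hfac]
        exact hfle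
      have h9 : (1 - ε) * f / (d + 1).factorial = (f : ℝ) / (d + 1).factorial - ε * ((f : ℝ) / (d + 1).factorial) := by ring
      rw [h9]
      nlinarith
    calc ((f : ℝ) / (d + 1).factorial - ε) * ((indW (d + 1) q m n ×ˢ Zs).card : ℝ)
        ≤ ((1 - ε) * f / (d + 1).factorial) * ((indW (d + 1) q m n ×ˢ Zs).card : ℝ) := mul_le_mul_of_nonneg_right h7 hI0
      _ ≤ ((1 - ε) * f / (d + 1).factorial) * ((PA.card : ℝ) * ((Zs.card : ℝ) * (n : ℝ) ^ (d + 1))) := by
          apply mul_le_mul_of_nonneg_left h6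
          apply div_nonneg _ hfac.le
          exact mul_nonneg (by linarith) hf0
      _ = ((PA.card : ℝ) * ((Zs.card : ℝ) * ((1 - ε) * (n : ℝ) ^ (d + 1) * f))) / (d + 1).factorial := by ring
      _ ≤ (T.card * (d + 1).factorial) / (d + 1).factorial := div_le_div_of_nonneg_right (h3.trans h5) hfac.le
      _ = T.card := by field_simp

end Pool.Agent.H491.Der
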