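import Mathlib
import Pool.Agent.H491.Az13

set_option autoImplicit false

/-! # The proportion in windows: multiple zeta values, and a given number of minus signs -/

namespace Pool.Agent.H491.Der

open Equiv

theorem zta_one {D : ℕ} (a : Fin D → ℕ) : zta (fun _ => 1) a = Sq.zt a := by
  rw [zta, Sq.zt]
  refine tsum_congr fun n => Finset.prod_congr rfl fun i _ => ?_
  simp

open Classical in
/-- **The theorem** for multiple zeta values in windows. -/
theorem main3W (D q : ℕ) (ε : ℝ) (hε : 0 < ε) :
    ∃ C : ℕ, ∀ n r : ℕ, C * (r + 1) ≤ n → ∀ (L : Subfield ℝ), Transcendental L Real.pi → ∀ (E : Submodule L ℝ),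
      Module.rank L E ≤ (r : Cardinal) → ∀ m : ℕ,
      ((fixCount2 D (D - q) : ℝ) / D.factorial - ε) * ((indW D q m n).card : ℝ) ≤
        (((indW D q m n).filter fun k => Sq.zt k ∉ E).card : ℝ) := by
  obtain ⟨C, hC⟩ := main3L D q {fun _ => 1} (by
    intro z hz σ
    rw [Finset.mem_singleton] at hz ⊢
    rw [hz]
    rfl) ε hε
  refine ⟨C, fun n r hn L hL E hE m => ?_⟩
  have h := hC n r hn L hL E hE m
  have e1 : (indW D q m n ×ˢ ({fun _ => 1} : Finset (Fin D → ℤˣ))).card = (indW D q m n).card := by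
    rw [Finset.card_product, Finset.card_singleton, mul_one]
  have e2 : ((indW D q m n ×ˢ ({fun _ => 1} : Finset (Fin D → ℤˣ))).filter fun k => zta k.2 k.1 ∉ E).card =
      ((indW D q m n).filter fun k => Sq.zt k ∉ E).card := by
    apply Finset.card_bij (fun k _ => k.1)
    · rintro ⟨a, z⟩ hk
      rw [Finset.mem_filter, Finset.mem_product, Finset.mem_singleton] at hk
      obtain ⟨⟨h1, h2⟩, h3⟩ := hk
      simp only at h1 h2 h3
      rw [h2, zta_one] at h3
      exact Finset.mem_filter.2 ⟨h1, h3⟩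
    · rintro ⟨a, z⟩ hk ⟨a', z'⟩ hk' h
      rw [Finset.mem_filter, Finset.mem_product, Finset.mem_singleton] at hk hk'
      have h1 := hk.1.2
      have h2 := hk'.1.2
      simp only at h h1 h2
      rw [h, h1, h2]
    · intro a ha
      rw [Finset.mem_filter] at ha
      refine ⟨(a, fun _ => 1), ?_, rfl⟩
      rw [Finset.mem_filter, Finset.mem_product, Finset.mem_singleton]
      refine ⟨⟨ha.1, rfl⟩, ?_⟩
      simp only
      rw [zta_one]
      exact ha.2
  rw [e1, e2] at h
  exact h

/-- the sign vectors with exactly `s` entries `- 1` -/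
def signs (D s : ℕ) : Finset (Fin D → ℤˣ) := Finset.univ.filter fun z => (Finset.univ.filter fun i => z i = -1).card = s

theorem signs_perm (D s : ℕ) (z : Fin D → ℤˣ) (hz : z ∈ signs D s) (σ : Perm (Fin D)) : z ∘ σ ∈ signs D s := by
  rw [signs, Finset.mem_filter] at hz ⊢
  refine ⟨Finset.mem_univ _, ?_⟩
  rw [← hz.2]
  apply Finset.card_equiv σ
  intro i
  simp

end Pool.Agent.H491.Der
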