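import Mathlib
import Pool.Agent.H491.Az14

set_option autoImplicit false

/-! # Tuples of multiple zeta values that are linearly independent modulo a given space -/

namespace Pool.Agent.H491.Der

open Equiv

theorem rank_sup_span {L : Subfield ℝ} (E : Submodule L ℝ) (r : ℕ) (hE : Module.rank L E ≤ (r : Cardinal)) {M : ℕ}
    (v : Fin M → ℝ) : Module.rank L (E ⊔ Submodule.span L (Set.range v) : Submodule L ℝ) ≤ ((r + M : ℕ) : Cardinal) := by
  have h1 := Submodule.rank_add_le_rank_add_rank E (Submodule.span L (Set.range v))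
  have h2 : Module.rank L (Submodule.span L (Set.range v)) ≤ (M : Cardinal) := by
    refine (rank_span_le _).trans ?_
    have h3 := Cardinal.mk_range_le (f := v)
    simpa using h3
  refine h1.trans ?_
  push_cast
  exact add_le_add hE h2

theorem notMem_span_mkQ {L : Subfield ℝ} (E : Submodule L ℝ) {M : ℕ} (v : Fin M → ℝ) (x : ℝ)
    (hx : x ∉ E ⊔ Submodule.span L (Set.range v)) :
    E.mkQ x ∉ Submodule.span L (Set.range fun j => E.mkQ (v j)) := by
  intro h
  apply hx
  have e : (Set.range fun j => E.mkQ (v j)) = E.mkQ '' Set.range v := by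
    rw [← Set.range_comp]
    rfl
  rw [e, ← Submodule.map_span] at h
  have h2 : x ∈ Submodule.comap E.mkQ (Submodule.map E.mkQ (Submodule.span L (Set.range v))) := h
  rw [Submodule.comap_map_mkQ] at h2
  exact h2

open Classical in
/-- **Independent tuples.** -/
theorem tuples_indep (D q : ℕ) (p : ℝ) (hp0 : 0 ≤ p) (hp : p < (fixCount2 D (D - q) : ℝ) / D.factorial) :
    ∃ C : ℕ, ∀ n r M : ℕ, C * (r + M + 1) ≤ n → ∀ (L : Subfield ℝ), Transcendental L Real.pi → ∀ (E : Submodule L ℝ),
      Module.rank L E ≤ (r : Cardinal) → ∀ m : Fin M → ℕ,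
      p ^ M * ((Fintype.piFinset fun j => indW D q (m j) n).card : ℝ) ≤
        (((Fintype.piFinset fun j => indW D q (m j) n).filter fun k =>
          LinearIndependent L fun j => E.mkQ (Sq.zt (k j))).card : ℝ) := by
  obtain ⟨C, hC⟩ := main3W D q ((fixCount2 D (D - q) : ℝ) / D.factorial - p) (by linarith)
  refine ⟨C, ?_⟩
  intro n r M hn L hL E hE
  induction M with
  | zero =>
    intro m
    have h1 : ((Fintype.piFinset fun j : Fin 0 => indW D q (m j) n).filter fun k =>
          LinearIndependent L fun j => E.mkQ (Sq.zt (k j))) = Fintype.piFinset fun j : Fin 0 => indW D q (m j) n := by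
      apply Finset.filter_true_of_mem
      intro k _
      exact linearIndependent_empty_type
    rw [h1, pow_zero, one_mul]
  | succ M ih =>
    intro m
    have hn' : C * (r + M + 1) ≤ n := le_trans (Nat.mul_le_mul_left _ (by omega)) hn
    have h1 := ih hn' fun j => m j.succ
    set T := ((Fintype.piFinset fun j : Fin M => indW D q (m j.succ) n).filter fun k =>
          LinearIndependent L fun j => E.mkQ (Sq.zt (k j))) with hT
    let G : (Fin M → Fin D → ℕ) → Finset (Fin D → ℕ) := fun k' => (indW D q (m 0) n).filter fun k =>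
      Sq.zt k ∉ E ⊔ Submodule.span L (Set.range fun j => Sq.zt (k' j))
    have hG : ∀ k', p * ((indW D q (m 0) n).card : ℝ) ≤ ((G k').card : ℝ) := by
      intro k'
      have h2 := hC n (r + M) hn' L hL _ (rank_sup_span E r hE fun j => Sq.zt (k' j)) (m 0)
      have e : (fixCount2 D (D - q) : ℝ) / D.factorial - ((fixCount2 D (D - q) : ℝ) / D.factorial - p) = p := by ring
      rw [e] at h2
      exact h2
    have h2 : (T.sigma G).card ≤ (((Fintype.piFinset fun j : Fin (M + 1) => indW D q (m j) n).filter fun k =>
          LinearIndependent L fun j => E.mkQ (Sq.zt (k j))).card) := by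
      apply Finset.card_le_card_of_injOn (fun x => (Fin.cons x.2 x.1 : Fin (M + 1) → Fin D → ℕ))
      · rintro ⟨k', k⟩ hx
        rw [Finset.mem_coe, Finset.mem_sigma] at hx
        obtain ⟨h3, h4⟩ := hx
        simp only at h3 h4
        rw [hT, Finset.mem_filter, Fintype.mem_piFinset] at h3
        obtain ⟨h5, h6⟩ := Finset.mem_filter.1 h4
        rw [Finset.mem_coe, Finset.mem_filter, Fintype.mem_piFinset]
        constructor
        · intro j
          refine Fin.cases ?_ (fun j => ?_) j
          · simpa using h5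
          · simpa using h3.1 j
        · have e : (fun j => E.mkQ (Sq.zt ((Fin.cons k k' : Fin (M + 1) → Fin D → ℕ) j))) =
              (Fin.cons (E.mkQ (Sq.zt k)) (fun j => E.mkQ (Sq.zt (k' j))) : Fin (M + 1) → ℝ ⧸ E) := by
            funext j
            refine Fin.cases ?_ (fun j => ?_) j
            · simp
            · simp
          simp only
          rw [e, linearIndependent_finCons]
          exact ⟨h3.2, notMem_span_mkQ E _ _ h6⟩
      · rintro ⟨k', k⟩ _ ⟨l', l⟩ _ h
        simp only at h
        have h3 := Fin.cons_injective2 h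
        obtain ⟨h4, h5⟩ := h3
        subst h4
        subst h5
        rfl
    rw [Finset.card_sigma] at h2
    have h3 : (T.card : ℝ) * (p * ((indW D q (m 0) n).card : ℝ)) ≤ ((∑ k' ∈ T, (G k').card : ℕ) : ℝ) := by
      push_cast
      rw [← nsmul_eq_mul, ← Finset.sum_const]
      exact Finset.sum_le_sum fun k' _ => hG k'
    have h4 : ((Fintype.piFinset fun j : Fin (M + 1) => indW D q (m j) n).card : ℝ) =
        ((indW D q (m 0) n).card : ℝ) * ((Fintype.piFinset fun j : Fin M => indW D q (m j.succ) n).card : ℝ) := by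
      rw [Fintype.card_piFinset, Fintype.card_piFinset, Fin.prod_univ_succ]
      push_cast
      rfl
    have h5 : ((∑ k' ∈ T, (G k').card : ℕ) : ℝ) ≤ ((((Fintype.piFinset fun j : Fin (M + 1) => indW D q (m j) n).filter fun k =>
          LinearIndependent L fun j => E.mkQ (Sq.zt (k j))).card : ℕ) : ℝ) := by exact_mod_cast h2
    refine le_trans ?_ (h3.trans h5)
    rw [h4, pow_succ]
    have h6 : 0 ≤ p * ((indW D q (m 0) n).card : ℝ) := mul_nonneg hp0 (Nat.cast_nonneg _)
    calc p ^ M * p * (((indW D q (m 0) n).card : ℝ) * ((Fintype.piFinset fun j : Fin M => indW D q (m j.succ) n).card : ℝ))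
        = (p ^ M * ((Fintype.piFinset fun j : Fin M => indW D q (m j.succ) n).card : ℝ)) *
          (p * ((indW D q (m 0) n).card : ℝ)) := by ring
      _ ≤ (T.card : ℝ) * (p * ((indW D q (m 0) n).card : ℝ)) := mul_le_mul_of_nonneg_right h1 h6

end Pool.Agent.H491.Der
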