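import Mathlib
import Pool.Agent.H491.Az15

set_option autoImplicit false

/-! # The rank of tuples of multiple zeta values modulo a given space dominates the binomial distribution -/

namespace Pool.Agent.H491.Der

open Equiv

/-- the probability that a binomial random variable with parameters `M`, `p` is at least `j` -/
noncomputable def binTail (p : ℝ) (M j : ℕ) : ℝ :=
  ∑ i ∈ Finset.range (M + 1), if j ≤ i then (M.choose i : ℝ) * p ^ i * (1 - p) ^ (M - i) else 0

theorem binTail_zero (p : ℝ) (M : ℕ) : binTail p M 0 = 1 := by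
  have h := add_pow p (1 - p) M
  rw [add_sub_cancel, one_pow] at h
  rw [h, binTail]
  refine Finset.sum_congr rfl fun i _ => ?_
  rw [if_pos (Nat.zero_le _)]
  ring

theorem binTail_zero_succ (p : ℝ) (j : ℕ) : binTail p 0 (j + 1) = 0 := by
  rw [binTail]
  apply Finset.sum_eq_zero
  intro i hi
  rw [Finset.mem_range] at hi
  rw [if_neg (by omega)]

theorem binTail_succ (p : ℝ) (M j : ℕ) :
    binTail p (M + 1) (j + 1) = p * binTail p M j + (1 - p) * binTail p M (j + 1) := by
  have h1 : binTail p (M + 1) (j + 1) = ∑ i ∈ Finset.range (M + 1),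
      if j ≤ i then ((M + 1).choose (i + 1) : ℝ) * p ^ (i + 1) * (1 - p) ^ (M - i) else 0 := by
    rw [binTail, Finset.sum_range_succ']
    rw [if_neg (by omega), add_zero]
    refine Finset.sum_congr rfl fun i _ => ?_
    have e : M + 1 - (i + 1) = M - i := by omega
    rw [e]
    by_cases h : j ≤ i
    · rw [if_pos h, if_pos (by omega)]
    · rw [if_neg h, if_neg (by omega)]
  have h2 : (1 - p) * binTail p M (j + 1) = ∑ i ∈ Finset.range (M + 1),
      if j ≤ i then (M.choose (i + 1) : ℝ) * p ^ (i + 1) * (1 - p) ^ (M - i) else 0 := by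
    rw [binTail, Finset.sum_range_succ', if_neg (by omega), add_zero, Finset.sum_range_succ (n := M)]
    have h3 : (if j ≤ M then (M.choose (M + 1) : ℝ) * p ^ (M + 1) * (1 - p) ^ (M - M) else 0) = 0 := by
      rw [Nat.choose_succ_self]
      simp
    rw [h3, add_zero, Finset.mul_sum]
    refine Finset.sum_congr rfl fun i hi => ?_
    rw [Finset.mem_range] at hi
    by_cases h : j ≤ i
    · rw [if_pos h, if_pos (by omega)]
      have e : M - i = M - (i + 1) + 1 := by omega
      rw [e, pow_succ]
      ring
    · rw [if_neg h, if_neg (by omega), mul_zero]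
  rw [h1, h2, binTail, Finset.mul_sum, ← Finset.sum_add_distrib]
  refine Finset.sum_congr rfl fun i _ => ?_
  by_cases h : j ≤ i
  · rw [if_pos h, if_pos h, if_pos h, Nat.choose_succ_succ]
    push_cast
    ring
  · rw [if_neg h, if_neg h, if_neg h]
    ring

/-- the dimension of the span modulo `E` -/
noncomputable def rk {L : Subfield ℝ} (E : Submodule L ℝ) {M : ℕ} (v : Fin M → ℝ) : ℕ :=
  Module.finrank L (Submodule.span L (Set.range fun j => E.mkQ (v j)))

theorem rk_cons_ge {L : Subfield ℝ} (E : Submodule L ℝ) {M : ℕ} (x : ℝ) (v : Fin M → ℝ) :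
    rk E v ≤ rk E (Fin.cons x v : Fin (M + 1) → ℝ) := by
  unfold rk
  have : Module.Finite L (Submodule.span L (Set.range fun j => E.mkQ ((Fin.cons x v : Fin (M + 1) → ℝ) j))) :=
    FiniteDimensional.span_of_finite L (Set.finite_range _)
  apply Submodule.finrank_mono
  apply Submodule.span_mono
  rintro _ ⟨j, rfl⟩
  exact ⟨j.succ, by simp⟩

theorem rk_cons_gt {L : Subfield ℝ} (E : Submodule L ℝ) {M : ℕ} (x : ℝ) (v : Fin M → ℝ)
    (hx : x ∉ E ⊔ Submodule.span L (Set.range v)) : rk E v + 1 ≤ rk E (Fin.cons x v : Fin (M + 1) → ℝ) := by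
  unfold rk
  have : Module.Finite L (Submodule.span L (Set.range fun j => E.mkQ ((Fin.cons x v : Fin (M + 1) → ℝ) j))) :=
    FiniteDimensional.span_of_finite L (Set.finite_range _)
  apply Nat.succ_le_of_lt
  apply Submodule.finrank_lt_finrank_of_lt
  refine lt_of_le_of_ne (Submodule.span_mono ?_) ?_
  · rintro _ ⟨j, rfl⟩
    exact ⟨j.succ, by simp⟩
  · intro h
    apply notMem_span_mkQ E v x hx
    rw [h]
    exact Submodule.subset_span ⟨0, by simp⟩

open Classical in
/-- **The rank of tuples.** -/
theorem tuples_rank (D q : ℕ) (p : ℝ) (hp0 : 0 ≤ p) (hp : p < (fixCount2 D (D - q) : ℝ) / D.factorial) :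
    ∃ C : ℕ, ∀ n r M : ℕ, C * (r + M + 1) ≤ n → ∀ (L : Subfield ℝ), Transcendental L Real.pi → ∀ (E : Submodule L ℝ),
      Module.rank L E ≤ (r : Cardinal) → ∀ (m : Fin M → ℕ) (j : ℕ),
      binTail p M j * ((Fintype.piFinset fun i => indW D q (m i) n).card : ℝ) ≤
        (((Fintype.piFinset fun i => indW D q (m i) n).filter fun k => j ≤ rk E fun i => Sq.zt (k i)).card : ℝ) := by
  obtain ⟨C, hC⟩ := main3W D q ((fixCount2 D (D - q) : ℝ) / D.factorial - p) (by linarith)
  refine ⟨C, ?_⟩
  intro n r M hn L hL E hE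
  induction M with
  | zero =>
    intro m j
    rcases j with _ | j
    · rw [binTail_zero, one_mul, Finset.filter_true_of_mem fun k _ => Nat.zero_le _]
    · rw [binTail_zero_succ, zero_mul]
      exact Nat.cast_nonneg _
  | succ M ih =>
    intro m j
    have hn' : C * (r + M + 1) ≤ n := le_trans (Nat.mul_le_mul_left _ (by omega)) hn
    rcases j with _ | j
    · rw [binTail_zero, one_mul, Finset.filter_true_of_mem fun k _ => Nat.zero_le _]
    set T := Fintype.piFinset fun i : Fin M => indW D q (m i.succ) n with hT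
    set c0 := (indW D q (m 0) n).card with hc0
    have h1 := ih hn' (fun i => m i.succ) j
    have h2 := ih hn' (fun i => m i.succ) (j + 1)
    set A0 := T.filter fun k => j ≤ rk E fun i => Sq.zt (k i) with hA0
    set A1 := T.filter fun k => j + 1 ≤ rk E fun i => Sq.zt (k i) with hA1
    have hsub : A1 ⊆ A0 := by
      intro k hk
      rw [hA1, Finset.mem_filter] at hk
      rw [hA0, Finset.mem_filter]
      exact ⟨hk.1, by omega⟩
    let G : (Fin M → Fin D → ℕ) → Finset (Fin D → ℕ) := fun k' => if k' ∈ A1 then indW D q (m 0) n else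
      (indW D q (m 0) n).filter fun k => Sq.zt k ∉ E ⊔ Submodule.span L (Set.range fun i => Sq.zt (k' i))
    have hG : ∀ k' : Fin M → Fin D → ℕ, p * (c0 : ℝ) ≤ (((indW D q (m 0) n).filter fun k =>
        Sq.zt k ∉ E ⊔ Submodule.span L (Set.range fun i => Sq.zt (k' i))).card : ℝ) := by
      intro k'
      have h2 := hC n (r + M) hn' L hL _ (rank_sup_span E r hE fun i => Sq.zt ((k' : Fin M → Fin D → ℕ) i)) (m 0)
      have e : (fixCount2 D (D - q) : ℝ) / D.factorial - ((fixCount2 D (D - q) : ℝ) / D.factorial - p) = p := by ring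
      rw [e] at h2
      exact h2
    have h3 : (A0.sigma G).card ≤ (((Fintype.piFinset fun i : Fin (M + 1) => indW D q (m i) n).filter fun k =>
          j + 1 ≤ rk E fun i => Sq.zt (k i)).card) := by
      apply Finset.card_le_card_of_injOn (fun x => (Fin.cons x.2 x.1 : Fin (M + 1) → Fin D → ℕ))
      · rintro ⟨k', k⟩ hx
        rw [Finset.mem_coe, Finset.mem_sigma] at hx
        obtain ⟨h4, h5⟩ := hx
        simp only at h4 h5
        have h6 : k' ∈ T ∧ j ≤ rk E fun i => Sq.zt (k' i) := by
          rw [hA0, Finset.mem_filter] at h4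
          exact h4
        have h7 : k ∈ indW D q (m 0) n := by
          simp only [G] at h5
          split_ifs at h5 with h8
          · exact h5
          · exact (Finset.mem_filter.1 h5).1
        have e : (fun i => Sq.zt ((Fin.cons k k' : Fin (M + 1) → Fin D → ℕ) i)) =
            (Fin.cons (Sq.zt k) (fun i => Sq.zt (k' i)) : Fin (M + 1) → ℝ) := by
          funext i
          refine Fin.cases ?_ (fun i => ?_) i
          · simp
          · simp
        rw [Finset.mem_coe, Finset.mem_filter, Fintype.mem_piFinset]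
        constructor
        · intro i
          refine Fin.cases ?_ (fun i => ?_) i
          · simpa using h7
          · have := (Fintype.mem_piFinset.1 h6.1) i
            simpa using this
        · simp only
          rw [e]
          by_cases h8 : k' ∈ A1
          · rw [hA1, Finset.mem_filter] at h8
            exact h8.2.trans (rk_cons_ge E _ _)
          · simp only [G] at h5
            rw [if_neg h8] at h5
            have h9 := rk_cons_gt E (Sq.zt k) (fun i => Sq.zt (k' i)) (Finset.mem_filter.1 h5).2
            exact le_trans (Nat.succ_le_succ h6.2) h9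
      · rintro ⟨k', k⟩ _ ⟨l', l⟩ _ h
        simp only at h
        have h3 := Fin.cons_injective2 h
        obtain ⟨h4, h5⟩ := h3
        subst h4
        subst h5
        rfl
    rw [Finset.card_sigma] at h3
    have h4 : p * (c0 : ℝ) * (A0.card : ℝ) + (1 - p) * (c0 : ℝ) * (A1.card : ℝ) ≤ ((∑ k' ∈ A0, (G k').card : ℕ) : ℝ) := by
      have h5 : ∀ k' ∈ A0, p * (c0 : ℝ) + (if k' ∈ A1 then (1 - p) * (c0 : ℝ) else 0) ≤ ((G k').card : ℝ) := by
        intro k' _
        simp only [G]
        split_ifs with h6
        · rw [← hc0]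
          linarith
        · rw [add_zero]
          exact hG k'
      have h6 := Finset.sum_le_sum h5
      rw [Finset.sum_add_distrib, Finset.sum_const, nsmul_eq_mul, ← Finset.sum_filter] at h6
      have h7 : A0.filter (fun k' => k' ∈ A1) = A1 := by
        ext k'
        rw [Finset.mem_filter]
        exact ⟨fun h => h.2, fun h => ⟨hsub h, h⟩⟩
      rw [h7, Finset.sum_const, nsmul_eq_mul] at h6
      push_cast
      linarith
    have h5 : ((∑ k' ∈ A0, (G k').card : ℕ) : ℝ) ≤ ((((Fintype.piFinset fun i : Fin (M + 1) => indW D q (m i) n).filter fun k =>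
          j + 1 ≤ rk E fun i => Sq.zt (k i)).card : ℕ) : ℝ) := by exact_mod_cast h3
    refine le_trans ?_ (h4.trans h5)
    have h6 : ((Fintype.piFinset fun i : Fin (M + 1) => indW D q (m i) n).card : ℝ) = (c0 : ℝ) * (T.card : ℝ) := by
      rw [hT, Fintype.card_piFinset, Fintype.card_piFinset, Fin.prod_univ_succ]
      push_cast
      rfl
    have hp1 : p ≤ 1 := by
      have h7 : (fixCount2 D (D - q) : ℝ) ≤ D.factorial := by exact_mod_cast fixCount2_le D _
      have h8 : (0 : ℝ) < D.factorial := by exact_mod_cast Nat.factorial_pos _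
      have h9 : (fixCount2 D (D - q) : ℝ) / D.factorial ≤ 1 := by
        rw [div_le_one h8]
        exact h7
      linarith
    rw [h6, binTail_succ]
    have hc0' : (0 : ℝ) ≤ c0 := Nat.cast_nonneg _
    have h7 := mul_le_mul_of_nonneg_left h1 (mul_nonneg hp0 hc0')
    have h8 := mul_le_mul_of_nonneg_left h2 (mul_nonneg (sub_nonneg.2 hp1) hc0')
    calc (p * binTail p M j + (1 - p) * binTail p M (j + 1)) * ((c0 : ℝ) * (T.card : ℝ))
        = p * (c0 : ℝ) * (binTail p M j * (T.card : ℝ)) + (1 - p) * (c0 : ℝ) * (binTail p M (j + 1) * (T.card : ℝ)) := by ring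
      _ ≤ _ := add_le_add h7 h8

end Pool.Agent.H491.Der
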