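import Mathlib
import Pool.Agent.H491.Az16

set_option autoImplicit false

/-! # The rank of tuples, for general families -/

namespace Pool.Agent.H491.Der

open Equiv

open Classical in
/-- **The rank of tuples.** -/
theorem rank_dominates {ι : Type*} (V : ι → ℝ) (I : ℕ → Finset ι) (p : ℝ) (hp0 : 0 ≤ p) (hp1 : p ≤ 1) (n C : ℕ)
    (L : Subfield ℝ) (hC : ∀ (r : ℕ) (E : Submodule L ℝ), C * (r + 1) ≤ n → Module.rank L E ≤ (r : Cardinal) → ∀ m : ℕ,
      p * ((I m).card : ℝ) ≤ (((I m).filter fun k => V k ∉ E).card : ℝ)) (r M : ℕ) (hn : C * (r + M + 1) ≤ n)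
    (E : Submodule L ℝ) (hE : Module.rank L E ≤ (r : Cardinal)) : ∀ (m : Fin M → ℕ) (j : ℕ),
      binTail p M j * ((Fintype.piFinset fun i => I (m i)).card : ℝ) ≤
        (((Fintype.piFinset fun i => I (m i)).filter fun k => j ≤ rk E fun i => V (k i)).card : ℝ) := by
  induction M with
  | zero =>
    intro m j
    rcases j with _ | j
    · rw [binTail_zero, one_mul, Finset.filter_true_of_mem fun k _ => Nat.zero_le _]
    · rw [binTail_zero_succ, zero_mul]
      exact Nat.cast_nonneg _
  | succ M ih =>
    intro m j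
    have hn' : C * (r + M + 1) ≤ n := le_trans (Nat.mul_le_mul_left _ (by omega)) hn
    rcases j with _ | j
    · rw [binTail_zero, one_mul, Finset.filter_true_of_mem fun k _ => Nat.zero_le _]
    set T := Fintype.piFinset fun i : Fin M => I (m i.succ) with hT
    set c0 := (I (m 0)).card with hc0
    have h1 := ih hn' (fun i => m i.succ) j
    have h2 := ih hn' (fun i => m i.succ) (j + 1)
    set A0 := T.filter fun k => j ≤ rk E fun i => V (k i) with hA0
    set A1 := T.filter fun k => j + 1 ≤ rk E fun i => V (k i) with hA1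
    have hsub : A1 ⊆ A0 := by
      intro k hk
      rw [hA1, Finset.mem_filter] at hk
      rw [hA0, Finset.mem_filter]
      exact ⟨hk.1, by omega⟩
    let G : (Fin M → ι) → Finset ι := fun k' => if k' ∈ A1 then I (m 0) else
      (I (m 0)).filter fun k => V k ∉ E ⊔ Submodule.span L (Set.range fun i => V (k' i))
    have hG : ∀ k' : Fin M → ι, p * (c0 : ℝ) ≤ (((I (m 0)).filter fun k =>
        V k ∉ E ⊔ Submodule.span L (Set.range fun i => V (k' i))).card : ℝ) := by
      intro k'
      exact hC (r + M) _ hn' (rank_sup_span E r hE fun i => V (k' i)) (m 0)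
    have h3 : (A0.sigma G).card ≤ (((Fintype.piFinset fun i : Fin (M + 1) => I (m i)).filter fun k =>
          j + 1 ≤ rk E fun i => V (k i)).card) := by
      apply Finset.card_le_card_of_injOn (fun x => (Fin.cons x.2 x.1 : Fin (M + 1) → ι))
      · rintro ⟨k', k⟩ hx
        rw [Finset.mem_coe, Finset.mem_sigma] at hx
        obtain ⟨h4, h5⟩ := hx
        simp only at h4 h5
        have h6 : k' ∈ T ∧ j ≤ rk E fun i => V (k' i) := by
          rw [hA0, Finset.mem_filter] at h4
          exact h4
        have h7 : k ∈ I (m 0) := by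
          simp only [G] at h5
          split_ifs at h5 with h8
          · exact h5
          · exact (Finset.mem_filter.1 h5).1
        have e : (fun i => V ((Fin.cons k k' : Fin (M + 1) → ι) i)) =
            (Fin.cons (V k) (fun i => V (k' i)) : Fin (M + 1) → ℝ) := by
          funext i
          refine Fin.cases ?_ (fun i => ?_) i
          · simp
          · simp
        rw [Finset.mem_coe, Finset.mem_filter, Fintype.mem_piFinset]
        constructor
        · intro i
          refine Fin.cases ?_ (fun i => ?_) i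
          · simpa using h7
          · have := (Fintype.mem_piFinset.1 h6.1) i
            simpa using this
        · simp only
          rw [e]
          by_cases h8 : k' ∈ A1
          · rw [hA1, Finset.mem_filter] at h8
            exact h8.2.trans (rk_cons_ge E _ _)
          · simp only [G] at h5
            rw [if_neg h8] at h5
            have h9 := rk_cons_gt E (V k) (fun i => V (k' i)) (Finset.mem_filter.1 h5).2
            exact le_trans (Nat.succ_le_succ h6.2) h9
      · rintro ⟨k', k⟩ _ ⟨l', l⟩ _ h
        simp only at h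
        have h3 := Fin.cons_injective2 h
        obtain ⟨h4, h5⟩ := h3
        subst h4
        subst h5
        rfl
    rw [Finset.card_sigma] at h3
    have h4 : p * (c0 : ℝ) * (A0.card : ℝ) + (1 - p) * (c0 : ℝ) * (A1.card : ℝ) ≤ ((∑ k' ∈ A0, (G k').card : ℕ) : ℝ) := by
      have h5 : ∀ k' ∈ A0, p * (c0 : ℝ) + (if k' ∈ A1 then (1 - p) * (c0 : ℝ) else 0) ≤ ((G k').card : ℝ) := by
        intro k' _
        simp only [G]
        split_ifs with h6
        · rw [← hc0]
          linarith
        · rw [add_zero]
          exact hG k'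
      have h6 := Finset.sum_le_sum h5
      rw [Finset.sum_add_distrib, Finset.sum_const, nsmul_eq_mul, ← Finset.sum_filter] at h6
      have h7 : A0.filter (fun k' => k' ∈ A1) = A1 := by
        ext k'
        rw [Finset.mem_filter]
        exact ⟨fun h => h.2, fun h => ⟨hsub h, h⟩⟩
      rw [h7, Finset.sum_const, nsmul_eq_mul] at h6
      push_cast
      linarith
    have h5 : ((∑ k' ∈ A0, (G k').card : ℕ) : ℝ) ≤ ((((Fintype.piFinset fun i : Fin (M + 1) => I (m i)).filter fun k =>
          j + 1 ≤ rk E fun i => V (k i)).card : ℕ) : ℝ) := by exact_mod_cast h3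
    refine le_trans ?_ (h4.trans h5)
    have h6 : ((Fintype.piFinset fun i : Fin (M + 1) => I (m i)).card : ℝ) = (c0 : ℝ) * (T.card : ℝ) := by
      rw [hT, Fintype.card_piFinset, Fintype.card_piFinset, Fin.prod_univ_succ]
      push_cast
      rfl
    rw [h6, binTail_succ]
    have hc0' : (0 : ℝ) ≤ c0 := Nat.cast_nonneg _
    have h7 := mul_le_mul_of_nonneg_left h1 (mul_nonneg hp0 hc0')
    have h8 := mul_le_mul_of_nonneg_left h2 (mul_nonneg (sub_nonneg.2 hp1) hc0')
    calc (p * binTail p M j + (1 - p) * binTail p M (j + 1)) * ((c0 : ℝ) * (T.card : ℝ))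
        = p * (c0 : ℝ) * (binTail p M j * (T.card : ℝ)) + (1 - p) * (c0 : ℝ) * (binTail p M (j + 1) * (T.card : ℝ)) := by ring
      _ ≤ _ := add_le_add h7 h8

open Classical in
/-- **The rank of tuples** of alternating multiple zeta values. -/
theorem tuples_rankA (D q s : ℕ) (p : ℝ) (hp0 : 0 ≤ p) (hp : p < (fixCount2 D (D - q) : ℝ) / D.factorial) :
    ∃ C : ℕ, ∀ n r M : ℕ, C * (r + M + 1) ≤ n → ∀ (L : Subfield ℝ), Transcendental L Real.pi → ∀ (E : Submodule L ℝ),
      Module.rank L E ≤ (r : Cardinal) → ∀ (m : Fin M → ℕ) (j : ℕ),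
      binTail p M j * ((Fintype.piFinset fun i => indW D q (m i) n ×ˢ signs D s).card : ℝ) ≤
        (((Fintype.piFinset fun i => indW D q (m i) n ×ˢ signs D s).filter fun k =>
          j ≤ rk E fun i => zta (k i).2 (k i).1).card : ℝ) := by
  obtain ⟨C, hC⟩ := main3L D q (signs D s) (fun z hz σ => signs_perm D s z hz σ)
    ((fixCount2 D (D - q) : ℝ) / D.factorial - p) (by linarith)
  have hp1 : p ≤ 1 := by
    have h7 : (fixCount2 D (D - q) : ℝ) ≤ D.factorial := by exact_mod_cast fixCount2_le D _
    have h8 : (0 : ℝ) < D.factorial := by exact_mod_cast Nat.factorial_pos _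
    have h9 : (fixCount2 D (D - q) : ℝ) / D.factorial ≤ 1 := by
      rw [div_le_one h8]
      exact h7
    linarith
  refine ⟨C, fun n r M hn L hL E hE => ?_⟩
  refine rank_dominates (fun x : (Fin D → ℕ) × (Fin D → ℤˣ) => zta x.2 x.1) (fun m => indW D q m n ×ˢ signs D s) p hp0 hp1 n C L
    (fun r E hr hE m => ?_) r M hn E hE
  have h2 := hC n r hr L hL E hE m
  have e : (fixCount2 D (D - q) : ℝ) / D.factorial - ((fixCount2 D (D - q) : ℝ) / D.factorial - p) = p := by ring
  rw [e] at h2
  exact h2

end Pool.Agent.H491.Der
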