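import Mathlib
import Pool.Agent.H491.Base

set_option autoImplicit false

/-! # The values as infinite series over decreasing or increasing tuples -/

namespace Pool.Agent.H491.Hit

open Pool.Agent.H447R2.MZ Filter Topology

/-- the value as a series over decreasing tuples -/
theorem val_eq_tsum_anti (s : List ℕ) (hs : Adm s) :
    val s = ∑' n : {n : Fin s.length → ℕ // StrictAnti n ∧ ∀ i, 1 ≤ n i}, ∏ i, (((n.1 i : ℕ) : ℝ) ^ s.get i)⁻¹ := by
  have hk : Adm (List.ofFn s.get) := by rw [List.ofFn_get]; exact hs
  rw [(hasSum_val s.length s.get hk).tsum_eq, List.ofFn_get]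

/-- the value of an index that is read from the innermost to the outermost summation variable -/
theorem val_eq_tsum_mono (s : List ℕ) (hs : Adm s.reverse) :
    val s.reverse = ∑' n : {n : Fin s.length → ℕ // StrictMono n ∧ ∀ i, 1 ≤ n i}, ∏ i, (((n.1 i : ℕ) : ℝ) ^ s.get i)⁻¹ := by
  have hk : Adm (List.ofFn (fun i : Fin s.length => s.get (Fin.rev i))) := by
    have e : List.ofFn (fun i : Fin s.length => s.get (Fin.rev i)) = s.reverse := by
      apply List.ext_get
      · simp
      · intro n h1 h2
        simp [List.getElem_reverse]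
        congr 1
        omega
    rw [e]
    exact hs
  have e : List.ofFn (fun i : Fin s.length => s.get (Fin.rev i)) = s.reverse := by
    apply List.ext_get
    · simp
    · intro n h1 h2
      simp [List.getElem_reverse]
      congr 1
      omega
  have h1 := (hasSum_val s.length (fun i => s.get (Fin.rev i)) hk).tsum_eq
  rw [e] at h1
  rw [← h1]
  let f : {m : Fin s.length → ℕ // StrictAnti m ∧ ∀ i, 1 ≤ m i} ≃
      {k : Fin s.length → ℕ // StrictMono k ∧ ∀ i, 1 ≤ k i} :=
    { toFun := fun m => ⟨m.1 ∘ Fin.rev, fun i j hij => m.2.1 (Fin.rev_lt_rev.2 hij), fun i => m.2.2 _⟩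
      invFun := fun m => ⟨m.1 ∘ Fin.rev, fun i j hij => m.2.1 (Fin.rev_lt_rev.2 hij), fun i => m.2.2 _⟩
      left_inv := fun m => by
        apply Subtype.ext
        funext i
        simp
      right_inv := fun m => by
        apply Subtype.ext
        funext i
        simp }
  rw [← f.tsum_eq]
  refine tsum_congr fun m => ?_
  exact Fintype.prod_equiv Fin.revPerm _ _ fun i => by simp [f]

end Pool.Agent.H491.Hit
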