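import Mathlib
import Pool.Agent.H491.Base

set_option autoImplicit false

/-! # The multiple zeta values `ζ(m, …, m)` -/

namespace Pool.Agent.H491.Rep

open Pool.Agent.H447R2.MZ Pool.Agent.H491.Hit Filter Topology PowerSeries
open Finset.HasAntidiagonal (antidiagonal)

/-- the summand -/
noncomputable def a (m N : ℕ) : ℝ := (((N + 1 : ℕ) : ℝ) ^ m)⁻¹

theorem a_sq (m N : ℕ) : a (2 * m) N = a m N * a m N := by
  unfold a
  rw [two_mul, pow_add, mul_inv]

theorem a_pow (m i N : ℕ) : a (m * i) N = a m N ^ i := by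
  unfold a
  rw [pow_mul, inv_pow]

/-- truncated generating function -/
noncomputable def P (m N : ℕ) : PowerSeries ℝ := PowerSeries.mk fun n => H (List.replicate n m) N

theorem P_zero (m : ℕ) : P m 0 = 1 := by
  ext n
  rw [P, coeff_mk, coeff_one]
  rcases n with _ | n
  · simp [H_nil]
  · rw [List.replicate_succ, H_cons_zero, if_neg (by omega)]

theorem P_succ (m N : ℕ) : P m (N + 1) = (1 + C (a m N) * X) * P m N := by
  ext n
  rw [add_mul, one_mul, map_add, mul_assoc, coeff_C_mul]
  rcases n with _ | n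
  · simp [P, H_nil]
  · rw [coeff_succ_X_mul, P, P, coeff_mk, coeff_mk, coeff_mk, List.replicate_succ, H_cons_succ]
    rfl

/-- the same with `-X` -/
noncomputable def Q (m N : ℕ) : PowerSeries ℝ := PowerSeries.mk fun n => (-1) ^ n * H (List.replicate n m) N

theorem Q_zero (m : ℕ) : Q m 0 = 1 := by
  ext n
  rw [Q, coeff_mk, coeff_one]
  rcases n with _ | n
  · simp [H_nil]
  · rw [List.replicate_succ, H_cons_zero, if_neg (by omega), mul_zero]

theorem Q_succ (m N : ℕ) : Q m (N + 1) = (1 - C (a m N) * X) * Q m N := by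
  ext n
  rw [sub_mul, one_mul, map_sub, mul_assoc, coeff_C_mul]
  rcases n with _ | n
  · simp [Q, H_nil]
  · rw [coeff_succ_X_mul, Q, Q, coeff_mk, coeff_mk, coeff_mk, List.replicate_succ, H_cons_succ, pow_succ]
    unfold a
    ring

/-- the generating function for the double argument -/
noncomputable def R (m N : ℕ) : PowerSeries ℝ :=
  PowerSeries.mk fun n => if n % 2 = 0 then (-1) ^ (n / 2) * H (List.replicate (n / 2) (2 * m)) N else 0

theorem R_zero (m : ℕ) : R m 0 = 1 := by
  ext n
  rw [R, coeff_mk, coeff_one]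
  rcases n with _ | _ | n
  · simp [H_nil]
  · simp
  · rw [if_neg (by omega : ¬ (n + 1 + 1 = 0))]
    split_ifs with h
    · have e : (n + 1 + 1) / 2 = n / 2 + 1 := by omega
      rw [e, List.replicate_succ, H_cons_zero, mul_zero]
    · rfl

theorem R_succ (m N : ℕ) : R m (N + 1) = (1 - C (a m N * a m N) * X ^ 2) * R m N := by
  ext n
  rw [sub_mul, one_mul, map_sub, mul_assoc, coeff_C_mul, coeff_X_pow_mul']
  rcases n with _ | _ | n
  · simp [R, H_nil]
  · simp [R]
  · rw [if_pos (by omega), R, R, coeff_mk, coeff_mk, coeff_mk]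
    have e : (n + 1 + 1) / 2 = n / 2 + 1 := by omega
    have e2 : n + 1 + 1 - 2 = n := by omega
    have e3 : (n + 1 + 1) % 2 = n % 2 := by omega
    rw [e2, e3, e]
    split_ifs with h
    · rw [List.replicate_succ, H_cons_succ, pow_succ, ← a_sq]
      unfold a
      ring
    · ring

theorem P_mul_Q (m N : ℕ) : P m N * Q m N = R m N := by
  induction N with
  | zero => rw [P_zero, Q_zero, R_zero, one_mul]
  | succ N ih =>
    rw [P_succ, Q_succ, R_succ, ← ih, map_mul]
    ring

/-- the truncated identity -/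
theorem trunc_id (m n N : ℕ) : ∑ p ∈ antidiagonal (2 * n),
    H (List.replicate p.1 m) N * ((-1) ^ p.2 * H (List.replicate p.2 m) N) =
      (-1) ^ n * H (List.replicate n (2 * m)) N := by
  have h := congrArg (coeff (2 * n)) (P_mul_Q m N)
  rw [coeff_mul] at h
  simp only [P, Q, R, coeff_mk] at h
  rw [h, if_pos (by omega)]
  have : 2 * n / 2 = n := by omega
  rw [this]

theorem adm_rep (m n : ℕ) (hm : 2 ≤ m) : Adm (List.replicate n m) := by
  refine ⟨fun b hb => ?_, fun b t e => ?_⟩
  · rw [List.eq_of_mem_replicate hb]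
    omega
  · have : b ∈ List.replicate n m := by rw [e]; simp
    rw [List.eq_of_mem_replicate this]
    exact hm

/-- the identity for the values -/
theorem val_id (m n : ℕ) (hm : 2 ≤ m) : ∑ p ∈ antidiagonal (2 * n),
    val (List.replicate p.1 m) * ((-1) ^ p.2 * val (List.replicate p.2 m)) =
      (-1) ^ n * val (List.replicate n (2 * m)) := by
  have h1 : Tendsto (fun N => ∑ p ∈ antidiagonal (2 * n),
      H (List.replicate p.1 m) N * ((-1) ^ p.2 * H (List.replicate p.2 m) N)) atTop
      (𝓝 (∑ p ∈ antidiagonal (2 * n), val (List.replicate p.1 m) * ((-1) ^ p.2 * val (List.replicate p.2 m)))) := by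
    refine tendsto_finsetSum _ fun p _ => ?_
    exact (tendsto_H _ (adm_rep m p.1 hm)).mul ((tendsto_H _ (adm_rep m p.2 hm)).const_mul _)
  have h2 : Tendsto (fun N => (-1) ^ n * H (List.replicate n (2 * m)) N) atTop
      (𝓝 ((-1) ^ n * val (List.replicate n (2 * m)))) :=
    (tendsto_H _ (adm_rep (2 * m) n (by omega))).const_mul _
  refine tendsto_nhds_unique h1 (h2.congr fun N => ?_)
  exact (trunc_id m n N).symm

/-! ### Newton's identities -/

/-- power sums with signs -/
noncomputable def S (m N : ℕ) : PowerSeries ℝ :=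
  PowerSeries.mk fun i => if i = 0 then 0 else (-1) ^ (i + 1) * H [m * i] N

/-- the geometric series of one summand -/
noncomputable def G (x : ℝ) : PowerSeries ℝ := PowerSeries.mk fun i => if i = 0 then 0 else (-1) ^ (i + 1) * x ^ i

theorem G_mul (x : ℝ) : (1 + C x * X) * G x = C x * X := by
  ext n
  rw [add_mul, one_mul, map_add, mul_assoc, coeff_C_mul, coeff_C_mul]
  rcases n with _ | _ | n
  · simp [G]
  · rw [coeff_succ_X_mul]
    simp [G]
  · rw [coeff_succ_X_mul, coeff_X, G, coeff_mk, coeff_mk, if_neg (by omega), if_neg (by omega), if_neg (by omega)]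
    rw [pow_succ (-1 : ℝ) (n + 1 + 1), pow_succ x (n + 1)]
    ring

theorem S_succ (m N : ℕ) : S m (N + 1) = S m N + G (a m N) := by
  ext n
  rw [map_add, S, S, G, coeff_mk, coeff_mk, coeff_mk]
  rcases n with _ | n
  · simp
  · rw [if_neg (by omega), if_neg (by omega), if_neg (by omega), H_cons_succ, H_nil, mul_one, ← a_pow]
    unfold a
    ring

theorem S_zero (m : ℕ) : S m 0 = 0 := by
  ext n
  rw [S, coeff_mk]
  split_ifs
  · simp
  · rw [H_cons_zero, mul_zero, map_zero]

theorem newton (m N : ℕ) : X * d⁄dX ℝ (P m N) = P m N * S m N := by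
  induction N with
  | zero =>
    rw [P_zero, S_zero, mul_zero]
    have : d⁄dX ℝ (1 : PowerSeries ℝ) = 0 := by
      rw [← map_one (C (R := ℝ))]
      exact derivative_C
    rw [this, mul_zero]
  | succ N ih =>
    have e1 : d⁄dX ℝ (1 + C (a m N) * X : PowerSeries ℝ) = C (a m N) := by
      rw [map_add, ← smul_eq_C_mul, Derivation.map_smul]
      have h1 : d⁄dX ℝ (1 : PowerSeries ℝ) = 0 := by
        rw [← map_one (C (R := ℝ))]
        exact derivative_C
      rw [h1, derivative_X, zero_add, smul_eq_C_mul, mul_one]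
    rw [P_succ, Derivation.leibniz, e1, S_succ]
    have e2 := G_mul (a m N)
    simp only [smul_eq_mul]
    calc X * ((1 + C (a m N) * X) * d⁄dX ℝ (P m N) + P m N * C (a m N))
        = (1 + C (a m N) * X) * (X * d⁄dX ℝ (P m N)) + P m N * (C (a m N) * X) := by ring
      _ = (1 + C (a m N) * X) * (P m N * S m N) + P m N * ((1 + C (a m N) * X) * G (a m N)) := by rw [ih, e2]
      _ = _ := by ring

theorem trunc_newton (m n N : ℕ) : (n : ℝ) * H (List.replicate n m) N = ∑ p ∈ antidiagonal n,
    H (List.replicate p.1 m) N * (if p.2 = 0 then 0 else (-1) ^ (p.2 + 1) * H [m * p.2] N) := by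
  have h := congrArg (coeff n) (newton m N)
  rw [coeff_mul n (P m N) (S m N)] at h
  simp only [P, S, coeff_mk] at h
  rw [← h]
  rcases n with _ | n
  · simp
  · rw [coeff_succ_X_mul, coeff_derivative, coeff_mk]
    push_cast
    ring

theorem val_newton (m n : ℕ) (hm : 2 ≤ m) : (n : ℝ) * val (List.replicate n m) = ∑ p ∈ antidiagonal n,
    val (List.replicate p.1 m) * (if p.2 = 0 then 0 else (-1) ^ (p.2 + 1) * val [m * p.2]) := by
  have h1 : Tendsto (fun N => (n : ℝ) * H (List.replicate n m) N) atTop (𝓝 ((n : ℝ) * val (List.replicate n m))) :=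
    (tendsto_H _ (adm_rep m n hm)).const_mul _
  have h2 : Tendsto (fun N => ∑ p ∈ antidiagonal n,
      H (List.replicate p.1 m) N * (if p.2 = 0 then 0 else (-1) ^ (p.2 + 1) * H [m * p.2] N)) atTop
      (𝓝 (∑ p ∈ antidiagonal n, val (List.replicate p.1 m) *
        (if p.2 = 0 then 0 else (-1) ^ (p.2 + 1) * val [m * p.2]))) := by
    refine tendsto_finsetSum _ fun p _ => ?_
    refine (tendsto_H _ (adm_rep m p.1 hm)).mul ?_
    by_cases hp : p.2 = 0
    · simp [hp]
    · simp only [if_neg hp]
      refine (tendsto_H _ (adm_single _ ?_)).const_mul _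
      exact hm.trans (Nat.le_mul_of_pos_right m (Nat.pos_of_ne_zero hp))
  refine tendsto_nhds_unique h1 (h2.congr fun N => ?_)
  exact (trunc_newton m n N).symm

/-- `ζ(2 m, …, 2 m)` is a rational multiple of a power of `π` -/
theorem rep_even (m : ℕ) (hm : 1 ≤ m) (n : ℕ) :
    ∃ q : ℚ, q ≠ 0 ∧ val (List.replicate n (2 * m)) = q * Real.pi ^ (2 * m * n) := by
  have key : ∀ n, ∃ q : ℚ, val (List.replicate n (2 * m)) = q * Real.pi ^ (2 * m * n) := by
    intro n
    induction n using Nat.strong_induction_on with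
    | _ n ih =>
      rcases Nat.eq_zero_or_pos n with rfl | hn
      · exact ⟨1, by simp [val_nil]⟩
      · have h := val_newton (2 * m) n (by omega)
        have h1 : ∀ p ∈ antidiagonal n, ∃ q : ℚ, val (List.replicate p.1 (2 * m)) *
            (if p.2 = 0 then 0 else (-1) ^ (p.2 + 1) * val [2 * m * p.2]) = q * Real.pi ^ (2 * m * n) := by
          intro p hp
          rw [Finset.HasAntidiagonal.mem_antidiagonal] at hp
          by_cases hp2 : p.2 = 0
          · exact ⟨0, by simp [hp2]⟩
          · obtain ⟨q1, hq1⟩ := ih p.1 (by omega)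
            obtain ⟨q2, -, hq2⟩ := val_even (m * p.2) (Nat.mul_ne_zero (by omega) hp2)
            refine ⟨(-1) ^ (p.2 + 1) * q1 * q2, ?_⟩
            rw [if_neg hp2, hq1, mul_assoc 2 m p.2, hq2, ← hp]
            push_cast
            ring
        choose! q hq using h1
        refine ⟨(∑ p ∈ antidiagonal n, q p) / n, ?_⟩
        rw [Finset.sum_congr rfl hq, ← Finset.sum_mul] at h
        have hn' : (n : ℝ) ≠ 0 := by exact_mod_cast hn.ne'
        push_cast
        field_simp
        linear_combination h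
  obtain ⟨q, hq⟩ := key n
  refine ⟨q, ?_, hq⟩
  rintro rfl
  have := val_pos (List.replicate n (2 * m)) (adm_rep _ _ (by omega))
  rw [hq] at this
  simp at this

end Pool.Agent.H491.Rep
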