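import Mathlib
import Pool.Agent.H491.Rep
import Pool.Agent.H491.Conv

set_option autoImplicit false

/-! # The stuffle product with an even letter and Newton's identities -/

namespace Pool.Agent.H491.Dep

open Pool.Agent.H447R2.MZ Pool.Agent.H491.Hit
open Finset.HasAntidiagonal (antidiagonal)

theorem insertNth_succ' {c : ℕ} (p : Fin (c + 1)) (x : ℕ) (f : Fin (c + 1) → ℕ) :
    (p.succ.insertNth x f : Fin (c + 2) → ℕ) = Fin.cons (f 0) (p.insertNth x (fun i => f i.succ) : Fin (c + 1) → ℕ) := by
  rw [Fin.insertNth_eq_iff]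
  constructor
  · simp
  · funext i
    refine Fin.cases ?_ (fun i => ?_) i
    · simp [Fin.removeNth]
    · simp [Fin.removeNth]

theorem st_nil_left (t : List ℕ) : st [] t = [t] := by simp [st]

/-- stuffle product with a single letter -/
theorem sum_st (x : ℕ) : ∀ (c : ℕ) (f : Fin c → ℕ) (φ : List ℕ → ℝ),
    ((st [x] (List.ofFn f)).map φ).sum = ∑ p : Fin (c + 1), φ (List.ofFn (p.insertNth x f : Fin (c + 1) → ℕ)) +
      ∑ l : Fin c, φ (List.ofFn (Function.update f l (f l + x))) := by
  intro c
  induction c with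
  | zero =>
    intro f φ
    simp [st]
  | succ c ih =>
    intro f φ
    rw [List.ofFn_succ, st]
    simp only [List.map_append, List.map_map, List.sum_append, st_nil_left, List.map_cons, List.map_nil,
      List.sum_cons, List.sum_nil]
    rw [ih (fun i => f i.succ) (φ ∘ List.cons (f 0)),
      Fin.sum_univ_succ (f := fun p : Fin (c + 2) => φ (List.ofFn (p.insertNth x f : Fin (c + 2) → ℕ))),
      Fin.sum_univ_succ (f := fun l : Fin (c + 1) => φ (List.ofFn (Function.update f l (f l + x))))]
    have e1 : List.ofFn ((0 : Fin (c + 2)).insertNth x f : Fin (c + 2) → ℕ) = x :: f 0 :: List.ofFn (fun i => f i.succ) := by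
      rw [Fin.insertNth_zero', List.ofFn_succ, Fin.cons_zero]
      simp only [Fin.cons_succ]
      rw [List.ofFn_succ]
    have e2 : ∀ p : Fin (c + 1), List.ofFn (p.succ.insertNth x f : Fin (c + 2) → ℕ) =
        f 0 :: List.ofFn (p.insertNth x (fun i => f i.succ) : Fin (c + 1) → ℕ) := by
      intro p
      rw [insertNth_succ', List.ofFn_succ, Fin.cons_zero]
      simp only [Fin.cons_succ]
    have e3 : List.ofFn (Function.update f 0 (f 0 + x)) = (x + f 0) :: List.ofFn (fun i => f i.succ) := by
      rw [List.ofFn_succ]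
      simp [add_comm]
    have e4 : ∀ l : Fin c, List.ofFn (Function.update f l.succ (f l.succ + x)) =
        f 0 :: List.ofFn (Function.update (fun i => f i.succ) l (f l.succ + x)) := by
      intro l
      rw [List.ofFn_succ, Function.update_of_ne (Fin.succ_ne_zero l).symm]
      congr 1
      congr 1
      funext i
      by_cases h : i = l
      · subst h; simp
      · rw [Function.update_of_ne h, Function.update_of_ne (fun h' => h (Fin.succ_injective _ h'))]
    rw [e1, e3]
    simp only [e2, e4, Function.comp]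
    ring

/-- the index `w + s α` -/
def shift {c : ℕ} (s : ℕ) (w : Fin c → ℕ) (α : Fin c →₀ ℕ) : Fin c → ℕ := fun i => w i + s * α i

/-- evaluation of polynomials in the `n_i ^ (-s)` inside of the series of `ζ(w)` -/
noncomputable def G {c : ℕ} (s : ℕ) (w : Fin c → ℕ) : MvPolynomial (Fin c) ℝ →ₗ[ℝ] ℝ :=
  (MvPolynomial.basisMonomials (Fin c) ℝ).constr ℝ fun α => val (List.ofFn (shift s w α))

theorem G_monomial {c : ℕ} (s : ℕ) (w : Fin c → ℕ) (α : Fin c →₀ ℕ) :
    G s w (MvPolynomial.monomial α 1) = val (List.ofFn (shift s w α)) := by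
  have := (MvPolynomial.basisMonomials (Fin c) ℝ).constr_basis ℝ (fun α => val (List.ofFn (shift s w α))) α
  rwa [MvPolynomial.coe_basisMonomials] at this

/-- the exponent vector of a set -/
noncomputable def ind {c : ℕ} (t : Finset (Fin c)) : Fin c →₀ ℕ := ∑ i ∈ t, Finsupp.single i 1

theorem ind_apply {c : ℕ} (t : Finset (Fin c)) (i : Fin c) : ind t i = if i ∈ t then 1 else 0 := by
  classical
  rw [ind, Finsupp.finsetSum_apply]
  simp [Finsupp.single_apply]

/-- the sum over the insertions of the letter `x` -/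
noncomputable def ins {c : ℕ} (x : ℕ) (f : Fin c → ℕ) : ℝ :=
  ∑ p : Fin (c + 1), val (List.ofFn (p.insertNth x f : Fin (c + 1) → ℕ))

theorem adm_ofFn {c : ℕ} (f : Fin c → ℕ) (hf : ∀ i, 2 ≤ f i) : Adm (List.ofFn f) := by
  refine ⟨fun a ha => ?_, fun a t e => ?_⟩
  · obtain ⟨i, rfl⟩ := (List.mem_ofFn' f a).1 ha
    have := hf i
    omega
  · have ha : a ∈ List.ofFn f := by rw [e]; simp
    obtain ⟨i, rfl⟩ := (List.mem_ofFn' f a).1 ha
    exact hf i

theorem mul_val {c : ℕ} (s : ℕ) (w : Fin c → ℕ) (hw : Adm (List.ofFn w)) (α : Fin c →₀ ℕ) (a : ℕ)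
    (ha : 2 ≤ s * a) :
    val [s * a] * G s w (MvPolynomial.monomial α 1) =
      G s w (MvPolynomial.monomial α 1 * MvPolynomial.psum (Fin c) ℝ a) + ins (s * a) (shift s w α) := by
  have hadm : Adm (List.ofFn (shift s w α)) := by
    obtain ⟨h1, h2⟩ := hw
    refine ⟨fun b hb => ?_, fun b t e => ?_⟩
    · obtain ⟨i, rfl⟩ := (List.mem_ofFn' _ b).1 hb
      have := h1 (w i) ((List.mem_ofFn' _ _).2 ⟨i, rfl⟩)
      unfold shift
      omega
    · rcases c with _ | c
      · simp at e
      · rw [List.ofFn_succ] at e h2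
        have := h2 _ _ rfl
        rw [List.cons.injEq] at e
        rw [← e.1]
        unfold shift
        omega
  rw [G_monomial, val_mul _ _ (adm_single _ ha) hadm, sum_st, MvPolynomial.psum, Finset.mul_sum, map_sum, add_comm]
  congr 1
  refine Finset.sum_congr rfl fun l _ => ?_
  rw [MvPolynomial.X_pow_eq_monomial, MvPolynomial.monomial_mul, one_mul, G_monomial]
  congr 2
  funext i
  by_cases h : i = l
  · subst h
    simp [shift, mul_add, add_assoc]
  · rw [Function.update_of_ne h]
    simp [shift, Ne.symm h]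

end Pool.Agent.H491.Dep
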