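import Mathlib
import Pool.Agent.H491.Dep1
import Pool.Agent.H491.Box1
import Pool.Agent.H491.Sq2
import Pool.Agent.H491.Sq4

set_option autoImplicit false

/-! # Alternating sums over the corners of a box kill the merged terms of the stuffle product with an even letter -/

namespace Pool.Agent.H491.Cor

open Pool.Agent.H447R2.MZ Pool.Agent.H491.Hit
open Pool.Agent.H491.Dep (ins sum_st adm_ofFn)

variable {L : Subfield ℝ}

/-- the corner `ε` of the box with the sides `κ i 0, κ i 1` -/
def pick {d : ℕ} (κ : Fin d → Fin 2 → ℕ) (ε : Fin d → Fin 2) : Fin d → ℕ := fun i => κ i (ε i)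

/-- the sign of a corner -/
def sg {d : ℕ} (ε : Fin d → Fin 2) : ℝ := ∏ i, (-1 : ℝ) ^ (ε i : ℕ)

/-- the opposite corner in the direction `l` -/
def flip {d : ℕ} (l : Fin d) (ε : Fin d → Fin 2) : Fin d → Fin 2 := Function.update ε l (Equiv.swap 0 1 (ε l))

theorem flip_flip {d : ℕ} (l : Fin d) (ε : Fin d → Fin 2) : flip l (flip l ε) = ε := by
  funext i
  by_cases h : i = l
  · subst h
    simp [flip]
  · simp [flip, Function.update_of_ne h]

theorem flip_self {d : ℕ} (l : Fin d) (ε : Fin d → Fin 2) : flip l ε l = Equiv.swap 0 1 (ε l) := by simp [flip]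

theorem flip_of_ne {d : ℕ} (l : Fin d) (ε : Fin d → Fin 2) (i : Fin d) (h : i ≠ l) : flip l ε i = ε i := by
  simp [flip, Function.update_of_ne h]

theorem flip_ne {d : ℕ} (l : Fin d) (ε : Fin d → Fin 2) : flip l ε ≠ ε := by
  intro h
  have h1 := congrFun h l
  rw [flip_self] at h1
  have : ∀ x : Fin 2, Equiv.swap 0 1 x ≠ x := by decide
  exact this _ h1

theorem sg_flip {d : ℕ} (l : Fin d) (ε : Fin d → Fin 2) : sg (flip l ε) = - sg ε := by
  classical
  rw [sg, sg, ← Finset.mul_prod_erase _ _ (Finset.mem_univ l), ← Finset.mul_prod_erase _ _ (Finset.mem_univ l)]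
  have h1 : ∏ i ∈ Finset.univ.erase l, (-1 : ℝ) ^ (flip l ε i : ℕ) = ∏ i ∈ Finset.univ.erase l, (-1 : ℝ) ^ (ε i : ℕ) := by
    refine Finset.prod_congr rfl fun i hi => ?_
    rw [flip_of_ne l ε i (Finset.ne_of_mem_erase hi)]
  rw [h1, flip_self]
  have h2 : ∀ x : Fin 2, (-1 : ℝ) ^ ((Equiv.swap 0 1 x : Fin 2) : ℕ) = - (-1 : ℝ) ^ (x : ℕ) := by
    intro x
    fin_cases x
    · simp
    · simp
  rw [h2]
  ring

theorem sg_ne {d : ℕ} (ε : Fin d → Fin 2) : sg ε ≠ 0 := by
  rw [sg, Finset.prod_ne_zero_iff]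
  intro i _
  exact pow_ne_zero _ (by norm_num)

theorem sum_pick_split {d : ℕ} (κ : Fin d → Fin 2 → ℕ) (ε : Fin d → Fin 2) (l : Fin d) :
    ∑ i, pick κ ε i = pick κ ε l + ∑ i ∈ Finset.univ.erase l, pick κ ε i :=
  (Finset.add_sum_erase _ _ (Finset.mem_univ l)).symm

theorem merge_zero {d : ℕ} (κ : Fin d → Fin 2 → ℕ) (φ : List ℕ → ℝ) (z : ℕ) (l : Fin d) (hz : ∀ ε, ∑ i, pick κ ε i ≤ z) :
    ∑ ε : Fin d → Fin 2, sg ε *
      φ (List.ofFn (Function.update (pick κ ε) l (pick κ ε l + (z - ∑ i, pick κ ε i)))) = 0 := by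
  classical
  apply Finset.sum_involution (fun ε _ => flip l ε)
  · intro ε _
    have e : Function.update (pick κ (flip l ε)) l (pick κ (flip l ε) l + (z - ∑ i, pick κ (flip l ε) i)) =
        Function.update (pick κ ε) l (pick κ ε l + (z - ∑ i, pick κ ε i)) := by
      have h1 := sum_pick_split κ ε l
      have h2 := sum_pick_split κ (flip l ε) l
      have h3 : ∑ i ∈ Finset.univ.erase l, pick κ (flip l ε) i = ∑ i ∈ Finset.univ.erase l, pick κ ε i := by
        refine Finset.sum_congr rfl fun i hi => ?_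
        rw [pick, pick, flip_of_ne l ε i (Finset.ne_of_mem_erase hi)]
      have h4 := hz ε
      have h5 := hz (flip l ε)
      funext i
      by_cases hi : i = l
      · subst hi
        rw [Function.update_self, Function.update_self]
        omega
      · rw [Function.update_of_ne hi, Function.update_of_ne hi, pick, pick, flip_of_ne l ε i hi]
    rw [e, sg_flip]
    ring
  · intro ε _ _
    exact flip_ne l ε
  · intro ε _
    exact Finset.mem_univ _
  · intro ε _
    exact flip_flip l ε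

/-- the corner relation -/
theorem corner_rel {d : ℕ} (κ : Fin d → Fin 2 → ℕ) (hadm : ∀ ε, Adm (List.ofFn (pick κ ε))) (z : ℕ)
    (hz : ∀ ε, ∑ i, pick κ ε i + 2 ≤ z) :
    ∑ ε : Fin d → Fin 2, sg ε * (Sq.z (z - ∑ i, pick κ ε i) * val (List.ofFn (pick κ ε))) =
      ∑ ε : Fin d → Fin 2, sg ε * ins (z - ∑ i, pick κ ε i) (pick κ ε) := by
  have h1 : ∀ ε : Fin d → Fin 2, sg ε * (Sq.z (z - ∑ i, pick κ ε i) * val (List.ofFn (pick κ ε))) =
      sg ε * ins (z - ∑ i, pick κ ε i) (pick κ ε) +
      ∑ l : Fin d, sg ε * val (List.ofFn (Function.update (pick κ ε) l (pick κ ε l + (z - ∑ i, pick κ ε i)))) := by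
    intro ε
    have h2 := hz ε
    rw [Sq.z, val_mul _ _ (adm_single _ (by omega)) (hadm ε), sum_st, mul_add, ← Finset.mul_sum]
    rfl
  simp only [h1]
  rw [Finset.sum_add_distrib, Finset.sum_comm (s := (Finset.univ : Finset (Fin d → Fin 2)))]
  rw [Finset.sum_eq_zero (s := (Finset.univ : Finset (Fin d))), add_zero]
  intro l _
  exact merge_zero κ val z l fun ε => by have := hz ε; omega

/-- **Corner lemma.** -/
theorem corner (hL : Transcendental L Real.pi) (E : Submodule L ℝ) (r : ℕ) (hE : Module.rank L E ≤ (r : Cardinal))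
    {d : ℕ} (κ : Fin d → Fin 2 → ℕ) (hadm : ∀ ε, Adm (List.ofFn (pick κ ε)))
    (hinj : Function.Injective fun ε : Fin d → Fin 2 => ∑ i, pick κ ε i) (z₀ : ℕ)
    (hz : ∀ ε, ∑ i, pick κ ε i + 2 ≤ z₀) (hpar : ∀ ε, Even (z₀ - ∑ i, pick κ ε i)) (B : Finset ℕ)
    (hB : ∀ b ∈ B, ∀ ε, ins (z₀ + 2 * b - ∑ i, pick κ ε i) (pick κ ε) ∈ E) : B.card < r + 2 ^ d := by
  classical
  set θ := finFunctionFinEquiv (m := 2) (n := d) with hθ
  let j : Fin (2 ^ d) → ℕ := fun a => (z₀ - ∑ i, pick κ (θ.symm a) i) / 2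
  have hj : ∀ a, 2 * j a = z₀ - ∑ i, pick κ (θ.symm a) i := by
    intro a
    obtain ⟨y, hy⟩ := hpar (θ.symm a)
    simp only [j]
    omega
  have hsgE : ∀ (ε : Fin d → Fin 2) (v : ℝ), v ∈ E → sg ε * v ∈ E := by
    intro ε v hv
    have h1 : sg ε = 1 ∨ sg ε = -1 := by
      rw [sg, Finset.prod_pow_eq_pow_sum]
      exact neg_one_pow_eq_or ℝ _
    rcases h1 with h1 | h1
    · rw [h1, one_mul]
      exact hv
    · rw [h1, neg_one_mul]
      exact E.neg_mem hv
  refine Sq.linear_lemma (Real.pi ^ 2) (Sq.transcendental_sq hL) E r hE (2 ^ d)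
    (fun a => sg (θ.symm a) * ((Real.pi ^ 2) ^ j a * val (List.ofFn (pick κ (θ.symm a))))) ?_
    (fun b a => Sq.rho (b + j a)) B ?_ ?_
  · intro h
    have hpos : 0 < 2 ^ d := by positivity
    have h1 := congrFun h ⟨0, hpos⟩
    simp only [Pi.zero_apply, mul_eq_zero] at h1
    rcases h1 with h1 | h1 | h1
    · exact sg_ne _ h1
    · exact absurd h1 (by positivity)
    · exact (val_pos _ (hadm _)).ne' h1
  · intro β hβ _
    refine All.stp_ne (2 ^ d) β j hβ ?_ ?_
    · intro a a' h
      have h1 := hj a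
      have h2 := hj a'
      have h3 := hz (θ.symm a)
      have h4 := hz (θ.symm a')
      apply θ.symm.injective
      apply hinj
      simp only
      omega
    · intro a
      have h1 := hj a
      have h3 := hz (θ.symm a)
      omega
  · intro b hb
    have h1 : (Real.pi ^ 2) ^ b * ∑ a : Fin (2 ^ d), (Sq.rho (b + j a) : ℝ) *
        (sg (θ.symm a) * ((Real.pi ^ 2) ^ j a * val (List.ofFn (pick κ (θ.symm a))))) =
        ∑ ε : Fin d → Fin 2, sg ε * (Sq.z (z₀ + 2 * b - ∑ i, pick κ ε i) * val (List.ofFn (pick κ ε))) := by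
      rw [Finset.mul_sum, ← Equiv.sum_comp θ.symm]
      refine Finset.sum_congr rfl fun a _ => ?_
      have h2 : z₀ + 2 * b - ∑ i, pick κ (θ.symm a) i = 2 * (b + j a) := by
        have h1 := hj a
        have h3 := hz (θ.symm a)
        omega
      have h3 : 1 ≤ b + j a := by
        have h1 := hj a
        have h3 := hz (θ.symm a)
        omega
      rw [h2, Sq.z_even _ h3, pow_add]
      ring
    rw [h1, corner_rel κ hadm _ fun ε => by have := hz ε; omega]
    exact Submodule.sum_mem _ fun ε _ => hsgE ε _ (hB b hb ε)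

/-- distinct subset sums -/
theorem exists_distinct (w : ℕ) : ∀ (d : ℕ) (_ : 4 ^ d < w) (t : Fin d → Fin w → ℕ) (_ : ∀ i, Function.Injective (t i)),
    ∃ a : Fin d → Fin 2 → Fin w, Function.Injective fun ε : Fin d → Fin 2 => ∑ i, t i (a i (ε i)) := by
  classical
  intro d
  induction d with
  | zero =>
    intro _ t _
    exact ⟨fun i => i.elim0, fun ε ε' _ => Subsingleton.elim _ _⟩
  | succ d ih =>
    intro hw t ht
    obtain ⟨a, ha⟩ := ih (lt_of_le_of_lt (Nat.pow_le_pow_right (by norm_num) (Nat.le_succ d)) hw) (fun i => t i.succ)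
      (fun i => ht i.succ)
    have hw0 : 0 < w := lt_of_le_of_lt (Nat.zero_le _) hw
    let s : (Fin d → Fin 2) → ℕ := fun ε => ∑ i, t i.succ (a i (ε i))
    obtain ⟨e, he⟩ : ∃ e : Fin w, ∀ ε ε', (t 0 e : ℤ) - t 0 ⟨0, hw0⟩ ≠ (s ε : ℤ) - s ε' := by
      by_contra hcon
      push Not at hcon
      choose f g hfg using hcon
      have h1 : Function.Injective fun e => (f e, g e) := by
        intro e e' h
        simp only [Prod.mk.injEq] at h
        have h2 := hfg e
        have h3 := hfg e'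
        rw [h.1, h.2] at h2
        apply ht 0
        omega
      have h2 := Fintype.card_le_of_injective _ h1
      simp only [Fintype.card_fin, Fintype.card_prod, Fintype.card_pi, Finset.prod_const, Finset.card_univ] at h2
      rw [← mul_pow] at h2
      have h3 : 4 ^ d ≤ 4 ^ (d + 1) := Nat.pow_le_pow_right (by norm_num) (Nat.le_succ d)
      norm_num at h2
      omega
    refine ⟨Fin.cons ![⟨0, hw0⟩, e] a, ?_⟩
    intro ε ε' h
    simp only [Fin.sum_univ_succ, Fin.cons_zero, Fin.cons_succ] at h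
    have hx : ∀ x : Fin 2, x = 0 ∨ x = 1 := by decide
    have hs : ∀ ε : Fin (d + 1) → Fin 2, ∑ i : Fin d, t i.succ (a i (ε i.succ)) = s fun i => ε i.succ := fun ε => rfl
    rw [hs, hs] at h
    have h0 : ε 0 = ε' 0 := by
      rcases hx (ε 0) with h1 | h1 <;> rcases hx (ε' 0) with h2 | h2
      · rw [h1, h2]
      · exfalso
        rw [h1, h2] at h
        simp only [Matrix.cons_val_zero, Matrix.cons_val_one] at h
        exact he (fun i => ε i.succ) (fun i => ε' i.succ) (by omega)
      · exfalso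
        rw [h1, h2] at h
        simp only [Matrix.cons_val_zero, Matrix.cons_val_one] at h
        exact he (fun i => ε' i.succ) (fun i => ε i.succ) (by omega)
      · rw [h1, h2]
    rw [h0] at h
    have h3 : (fun i : Fin d => ε i.succ) = fun i => ε' i.succ := ha (by simpa [s] using h)
    funext i
    refine Fin.cases ?_ (fun i => ?_) i
    · exact h0
    · exact congrFun h3 i

end Pool.Agent.H491.Cor
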