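import Mathlib
import Pool.Agent.H491.Cor1
import Pool.Agent.H491.Box7

set_option autoImplicit false

/-! # The proportion `1 / D` if there is an even argument -/

namespace Pool.Agent.H491.Cor

open Pool.Agent.H447R2.MZ Pool.Agent.H491.Hit
open Pool.Agent.H491.Dep (ins sum_st adm_ofFn)

/-- all insertions of `2 a + 2` into the index `2 x_i + p_i` have values in `E` -/
def Bad {L : Subfield ℝ} (E : Submodule L ℝ) {d : ℕ} (p x : Fin d → ℕ) (a : ℕ) : Prop :=
  ∀ m : Fin (d + 1), Sq.zt (m.insertNth (2 * a + 2) (fun i => 2 * x i + p i) : Fin (d + 1) → ℕ) ∈ E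

open Classical in
theorem bound {d : ℕ} (p : Fin d → ℕ) (hp : ∀ i, 2 ≤ p i) :
    ∃ W C : ℕ, 1 ≤ W ∧ ∀ (L : Subfield ℝ), Transcendental L Real.pi → ∀ (E : Submodule L ℝ) (r : ℕ),
      Module.rank L E ≤ (r : Cardinal) → ∀ n : ℕ, 0 < n → ∀ X : Finset ((Fin d → ℕ) × ℕ),
      (∀ x ∈ X, (∀ i, x.1 i < n) ∧ x.2 < n ∧ Bad E p x.1 x.2) →
      ((X.card : ℝ) / (n : ℝ) ^ (d + 1)) ^ W ≤ C * (r + 1) / n := by
  set w := 4 ^ d + 1 with hw
  refine ⟨w ^ d, (d + 1) ^ ((d + 1) * w ^ d) * (1 + 2 ^ d + d * w ^ 2), Nat.one_le_pow _ _ (Nat.succ_pos _), ?_⟩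
  intro L hL E r hE n hn X hX
  set N := (d + 1) * n with hN
  have hNpos : 0 < N := by positivity
  set S := (Finset.univ : Finset ((Fin d → Fin N) × Fin N)).filter fun q =>
      (∑ i, (q.1 i : ℕ)) ≤ (q.2 : ℕ) ∧ Bad E p (fun i => (q.1 i : ℕ)) ((q.2 : ℕ) - ∑ i, (q.1 i : ℕ)) with hS
  have h := All.density d w N (r + 2 ^ d) hNpos S ?_
  · have hX' : X ⊆ S.image fun q => (fun i => (q.1 i : ℕ), (q.2 : ℕ) - ∑ i, (q.1 i : ℕ)) := by
      intro x hx
      obtain ⟨h1, h2, h3⟩ := hX x hx
      have h4 : ∀ i, x.1 i < N := fun i => lt_of_lt_of_le (h1 i) (Nat.le_mul_of_pos_left _ (by omega))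
      have h5 : x.2 + ∑ i, x.1 i < N := by
        have h6 : ∑ i, x.1 i ≤ ∑ _i : Fin d, (n - 1) := Finset.sum_le_sum fun i _ => by have := h1 i; omega
        rw [Finset.sum_const, Finset.card_univ, Fintype.card_fin, smul_eq_mul] at h6
        have h7 : d * (n - 1) ≤ d * n := Nat.mul_le_mul_left _ (by omega)
        rw [hN, add_mul, one_mul]
        omega
      rw [Finset.mem_image]
      refine ⟨(fun i => ⟨x.1 i, h4 i⟩, ⟨x.2 + ∑ i, x.1 i, h5⟩), ?_, ?_⟩
      · rw [hS, Finset.mem_filter]
        refine ⟨Finset.mem_univ _, ?_, ?_⟩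
        · simp only
          omega
        · simp only [Nat.add_sub_cancel]
          exact h3
      · simp only [Nat.add_sub_cancel]
    have hcard : (X.card : ℝ) ≤ S.card := by exact_mod_cast (Finset.card_le_card hX').trans Finset.card_image_le
    have hn' : (0 : ℝ) < n := by exact_mod_cast hn
    have e0 : ((X.card : ℝ) / (n : ℝ) ^ (d + 1)) = (d + 1) ^ (d + 1) * ((X.card : ℝ) / (N : ℝ) ^ (d + 1)) := by
      rw [hN]
      push_cast
      rw [mul_pow]
      field_simp
    rw [e0, mul_pow, ← pow_mul]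
    have h3 : ((X.card : ℝ) / (N : ℝ) ^ (d + 1)) ^ (w ^ d) ≤ ((r + 2 ^ d : ℕ) + d * w ^ 2) / (N : ℝ) := by
      refine le_trans ?_ h
      apply pow_le_pow_left₀ (by positivity)
      exact div_le_div_of_nonneg_right hcard (by positivity)
    have h4 : ((r + 2 ^ d : ℕ) + d * (w : ℝ) ^ 2) / (N : ℝ) ≤ ((1 + 2 ^ d + d * w ^ 2 : ℕ) : ℝ) * (r + 1) / n := by
      have hr : (0 : ℝ) ≤ r := Nat.cast_nonneg r
      have hd : (0 : ℝ) ≤ d := Nat.cast_nonneg d
      apply div_le_div₀
      · positivity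
      · push_cast
        have e1 : (0 : ℝ) ≤ 2 ^ d * r := by positivity
        have e2 : (0 : ℝ) ≤ (d : ℝ) * (w : ℝ) ^ 2 * r := by positivity
        nlinarith
      · exact hn'
      · rw [hN]
        push_cast
        nlinarith
    calc ((d : ℝ) + 1) ^ ((d + 1) * w ^ d) * ((X.card : ℝ) / (N : ℝ) ^ (d + 1)) ^ (w ^ d)
        ≤ ((d : ℝ) + 1) ^ ((d + 1) * w ^ d) * (((1 + 2 ^ d + d * w ^ 2 : ℕ) : ℝ) * (r + 1) / n) :=
          mul_le_mul_of_nonneg_left (h3.trans h4) (by positivity)
      _ = _ := by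
          push_cast
          ring
  · intro t ht
    set Bt := (Finset.univ : Finset (Fin N)).filter fun b => ∀ e : Fin d → Fin w, ((fun i => t i (e i)), b) ∈ S with hBt
    rcases Finset.eq_empty_or_nonempty Bt with hempty | hne
    · rw [hempty]
      simp
    obtain ⟨a, ha⟩ := exists_distinct w d (by omega) (fun i j => 2 * (t i j : ℕ) + p i) (by
      intro i j j' hjj
      apply ht i
      apply Fin.ext
      simp only at hjj
      omega)
    let κ : Fin d → Fin 2 → ℕ := fun i e => 2 * (t i (a i e) : ℕ) + p i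
    set b₀ := Bt.min' hne with hb₀
    have hb₀le : ∀ b ∈ Bt, b₀ ≤ b := fun b hb => Finset.min'_le _ _ hb
    have hsum : ∀ ε : Fin d → Fin 2, ∑ i, pick κ ε i = 2 * ∑ i, (t i (a i (ε i)) : ℕ) + ∑ i, p i := by
      intro ε
      simp only [pick, κ]
      rw [Finset.sum_add_distrib, ← Finset.mul_sum]
    have hmem : ∀ b ∈ Bt, ∀ ε : Fin d → Fin 2, (∑ i, (t i (a i (ε i)) : ℕ)) ≤ (b : ℕ) ∧
        Bad E p (fun i => (t i (a i (ε i)) : ℕ)) ((b : ℕ) - ∑ i, (t i (a i (ε i)) : ℕ)) := by
      intro b hb ε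
      rw [hBt, Finset.mem_filter] at hb
      have := hb.2 (fun i => a i (ε i))
      rw [hS, Finset.mem_filter] at this
      exact this.2
    have hle₀ := fun ε => (hmem b₀ (Finset.min'_mem _ _) ε).1
    have hadm : ∀ ε, Adm (List.ofFn (pick κ ε)) := by
      intro ε
      apply adm_ofFn
      intro i
      have := hp i
      simp only [pick, κ]
      omega
    have hcor := corner hL E r hE κ hadm ha (2 * (b₀ : ℕ) + ∑ i, p i + 2) ?_ ?_ (Bt.image fun b : Fin N => (b : ℕ) - (b₀ : ℕ)) ?_
    · rw [Finset.card_image_of_injOn] at hcor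
      · exact hcor.le
      · intro b hb b' hb' hbb
        have h1 := hb₀le b hb
        have h2 := hb₀le b' hb'
        apply Fin.ext
        rw [Fin.le_def] at h1 h2
        simp only at hbb
        omega
    · intro ε
      have := hle₀ ε
      rw [hsum]
      omega
    · intro ε
      have := hle₀ ε
      rw [hsum]
      exact ⟨(b₀ : ℕ) - ∑ i, (t i (a i (ε i)) : ℕ) + 1, by omega⟩
    · intro b' hb' ε
      rw [Finset.mem_image] at hb'
      obtain ⟨b, hb, rfl⟩ := hb'
      obtain ⟨h1, h2⟩ := hmem b hb ε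
      have h3 := hb₀le b hb
      rw [Fin.le_def] at h3
      have h4 := hle₀ ε
      have e : 2 * (b₀ : ℕ) + ∑ i, p i + 2 + 2 * ((b : ℕ) - (b₀ : ℕ)) - ∑ i, pick κ ε i =
          2 * ((b : ℕ) - ∑ i, (t i (a i (ε i)) : ℕ)) + 2 := by
        rw [hsum]
        omega
      rw [e, ins]
      apply Submodule.sum_mem
      intro m _
      have h5 := h2 m
      rw [All.zt_eq] at h5
      · exact h5
      · intro i
        refine Fin.succAboveCases m ?_ (fun i => ?_) i
        · rw [Fin.insertNth_apply_same]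
          omega
        · rw [Fin.insertNth_apply_succAbove]
          have := hp i
          omega

/-- from a bound of a power to a bound with an exponent -/
theorem to_rpow (y n : ℝ) (W C₀ r : ℕ) (hn : 0 < n) (hW : 1 ≤ W) (hy0 : 0 ≤ y) (hy1 : y ≤ 1) (h : y ^ W ≤ C₀ * (r + 1) / n)
    (η : ℝ) (hη : 0 < η) (hηW : η ≤ 1 / W) : y ≤ (C₀ + 1) * (((r : ℝ) + 1) / n) ^ η := by
  have hW' : (1 : ℝ) ≤ W := by exact_mod_cast hW
  set ρ : ℝ := ((r : ℝ) + 1) / n with hρ
  have hρ0 : 0 < ρ := by positivity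
  have hC0 : (0 : ℝ) ≤ C₀ := Nat.cast_nonneg _
  rcases le_or_gt ρ 1 with hle | hgt
  · have h2 : y ^ W ≤ (C₀ + 1) * ρ := by
      refine h.trans ?_
      rw [mul_div_assoc]
      exact mul_le_mul_of_nonneg_right (by linarith) hρ0.le
    have h3 : y ≤ ((C₀ + 1) * ρ) ^ (1 / (W : ℝ)) := by
      have h4 : (y ^ W) ^ (1 / (W : ℝ)) ≤ ((C₀ + 1) * ρ) ^ (1 / (W : ℝ)) :=
        Real.rpow_le_rpow (by positivity) h2 (by positivity)
      rwa [← Real.rpow_natCast, ← Real.rpow_mul hy0, mul_one_div_cancel (by positivity), Real.rpow_one] at h4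
    rw [Real.mul_rpow (by positivity) hρ0.le] at h3
    refine h3.trans ?_
    apply mul_le_mul
    · have h5 : ((C₀ : ℝ) + 1) ^ (1 / (W : ℝ)) ≤ ((C₀ : ℝ) + 1) ^ (1 : ℝ) := by
        apply Real.rpow_le_rpow_of_exponent_le (by linarith)
        rw [div_le_one (by positivity)]
        exact hW'
      rwa [Real.rpow_one] at h5
    · exact Real.rpow_le_rpow_of_exponent_ge hρ0 hle hηW
    · positivity
    · positivity
  · have h2 : 1 ≤ ρ ^ η := Real.one_le_rpow hgt.le hη.le
    calc y ≤ 1 := hy1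
      _ ≤ ρ ^ η := h2
      _ ≤ (C₀ + 1) * ρ ^ η := by nlinarith

open Classical in
theorem main (D q : ℕ) (hq : q < D) :
    ∃ C η : ℝ, 0 < η ∧ ∀ (L : Subfield ℝ), Transcendental L Real.pi → ∀ (E : Submodule L ℝ) (r : ℕ),
      Module.rank L E ≤ (r : Cardinal) → ∀ n : ℕ,
      ((All.indices D q n).card : ℝ) / D * (1 - C * (((r : ℝ) + 1) / n) ^ η) ≤
        (((All.indices D q n).filter fun k => Sq.zt k ∉ E).card : ℝ) := by
  obtain ⟨d, rfl⟩ : ∃ d, D = d + 1 := ⟨D - 1, by omega⟩
  have hpar2 : ∀ (A : Finset (Fin d)) i, All.par A i = 2 ∨ All.par A i = 3 := by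
    intro A i
    unfold All.par
    split_ifs
    · exact Or.inr rfl
    · exact Or.inl rfl
  choose W C₀ hW hbound using fun A : Finset (Fin d) => bound (All.par A) fun i => by rcases hpar2 A i with h | h <;> omega
  have hWtot : ∀ A, W A ≤ ∑ A, W A := fun A => Finset.single_le_sum (f := W) (fun _ _ => Nat.zero_le _) (Finset.mem_univ A)
  have hCtot : ∀ A, C₀ A ≤ ∑ A, C₀ A := fun A => Finset.single_le_sum (f := C₀) (fun _ _ => Nat.zero_le _) (Finset.mem_univ A)
  have hWpos : (0 : ℝ) < ((∑ A, W A : ℕ) : ℝ) := by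
    have h1 := hWtot ∅
    have h2 := hW ∅
    have h3 : 0 < ∑ A, W A := by omega
    exact_mod_cast h3
  refine ⟨((∑ A, C₀ A : ℕ) : ℝ) + 1, 1 / ((∑ A, W A : ℕ) : ℝ), by positivity, ?_⟩
  intro L hL E r hE n
  rcases Nat.eq_zero_or_pos n with rfl | hn
  · have h1 : (All.indices (d + 1) q 0).card = 0 := by
      have := All.card_indices_le (d + 1) q 0
      rw [zero_pow (by omega), mul_zero] at this
      omega
    rw [h1]
    simp
  have hn' : (0 : ℝ) < n := by exact_mod_cast hn
  set η : ℝ := 1 / ((∑ A, W A : ℕ) : ℝ) with hη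
  have hη0 : 0 < η := by positivity
  have hηW : ∀ A, η ≤ 1 / (W A : ℝ) := by
    intro A
    rw [hη]
    apply one_div_le_one_div_of_le
    · have := hW A
      exact_mod_cast (by omega : 0 < W A)
    · exact_mod_cast hWtot A
  set ε : ℝ := (((r : ℝ) + 1) / n) ^ η with hε
  have hε0 : 0 ≤ ε := by positivity
  set Cs : ℝ := ((∑ A, C₀ A : ℕ) : ℝ) + 1 with hCs
  set T := (All.indices (d + 1) q n).filter fun k => Sq.zt k ∉ E with hT
  set cube : Finset ((Fin d → ℕ) × ℕ) := (Fintype.piFinset fun _ => Finset.range n) ×ˢ Finset.range n with hcube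
  have hcubecard : cube.card = n ^ (d + 1) := by
    rw [hcube, Finset.card_product, Fintype.card_piFinset_const, Finset.card_range, pow_succ]
  set PA := (Finset.univ : Finset (Fin d)).powersetCard q with hPA
  -- the good points
  set NB : Finset (Finset (Fin d) × ((Fin d → ℕ) × ℕ)) := (PA ×ˢ cube).filter fun z => ¬ Bad E (All.par z.1) z.2.1 z.2.2 with hNB
  have h1 : (PA.card : ℝ) * (n : ℝ) ^ (d + 1) * (1 - Cs * ε) ≤ NB.card := by
    have h2 : (NB.card : ℝ) = ∑ A ∈ PA, ((cube.filter fun x => ¬ Bad E (All.par A) x.1 x.2).card : ℝ) := by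
      rw [hNB, Finset.card_filter, Finset.sum_product]
      push_cast
      refine Finset.sum_congr rfl fun A _ => ?_
      rw [Finset.card_filter]
      push_cast
      rfl
    rw [h2]
    have h3 : ∀ A ∈ PA, (n : ℝ) ^ (d + 1) * (1 - Cs * ε) ≤ ((cube.filter fun x => ¬ Bad E (All.par A) x.1 x.2).card : ℝ) := by
      intro A _
      have h4 := Finset.card_filter_add_card_filter_not (s := cube) (fun x => Bad E (All.par A) x.1 x.2)
      rw [hcubecard] at h4
      have h5 := hbound A L hL E r hE n hn (cube.filter fun x => Bad E (All.par A) x.1 x.2) (by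
        intro x hx
        rw [Finset.mem_filter, hcube, Finset.mem_product, Fintype.mem_piFinset] at hx
        exact ⟨fun i => Finset.mem_range.1 (hx.1.1 i), Finset.mem_range.1 hx.1.2, hx.2⟩)
      have h5' := to_rpow _ (n : ℝ) (W A) (C₀ A) r hn' (hW A) (by positivity) (by
        rw [div_le_one (by positivity)]
        have := (Finset.card_filter_le cube fun x => Bad E (All.par A) x.1 x.2)
        rw [hcubecard] at this
        exact_mod_cast this) h5 η hη0 (hηW A)
      rw [div_le_iff₀ (by positivity), ← hε] at h5'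
      have h6 : ((cube.filter fun x => Bad E (All.par A) x.1 x.2).card : ℝ) +
          ((cube.filter fun x => ¬ Bad E (All.par A) x.1 x.2).card : ℝ) = (n : ℝ) ^ (d + 1) := by
        exact_mod_cast h4
      have h7 : ((C₀ A : ℝ) + 1) * ε * (n : ℝ) ^ (d + 1) ≤ Cs * ε * (n : ℝ) ^ (d + 1) := by
        apply mul_le_mul_of_nonneg_right _ (by positivity)
        apply mul_le_mul_of_nonneg_right _ hε0
        have h8 : ((C₀ A : ℕ) : ℝ) ≤ ((∑ A, C₀ A : ℕ) : ℝ) := by exact_mod_cast hCtot A
        linarith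
      nlinarith
    calc (PA.card : ℝ) * (n : ℝ) ^ (d + 1) * (1 - Cs * ε) = ∑ _A ∈ PA, (n : ℝ) ^ (d + 1) * (1 - Cs * ε) := by
          rw [Finset.sum_const, nsmul_eq_mul]
          ring
      _ ≤ _ := Finset.sum_le_sum h3
  have h2 : NB.card ≤ T.card * (d + 1 - q) := by
    let Φ : (Σ _ : Fin (d + 1) → ℕ, Fin (d + 1)) → Finset (Fin d) × ((Fin d → ℕ) × ℕ) := fun z =>
      (Finset.univ.filter fun i => Odd (z.1 (z.2.succAbove i)), (fun i => (z.1 (z.2.succAbove i) - 2) / 2, (z.1 z.2 - 2) / 2))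
    have h3 : NB ⊆ (T.sigma fun k => Finset.univ.filter fun m => ¬ Odd (k m)).image Φ := by
      intro z hz
      rw [hNB, Finset.mem_filter, Finset.mem_product, hPA, Finset.mem_powersetCard, hcube, Finset.mem_product,
        Fintype.mem_piFinset] at hz
      obtain ⟨⟨⟨-, hz1⟩, hz2, hz2'⟩, hz3⟩ := hz
      unfold Bad at hz3
      push Not at hz3
      obtain ⟨m, hm⟩ := hz3
      have hodd : ∀ i, Odd (2 * z.2.1 i + All.par z.1 i) ↔ i ∈ z.1 := by
        intro i
        unfold All.par
        split_ifs with h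
        · simp only [h, iff_true]
          exact ⟨z.2.1 i + 1, by ring⟩
        · simp only [h, iff_false, Nat.not_odd_iff_even]
          exact ⟨z.2.1 i + 1, by ring⟩
      have hev : ¬ Odd (2 * z.2.2 + 2) := by
        rw [Nat.not_odd_iff_even]
        exact ⟨z.2.2 + 1, by ring⟩
      have hkT : (m.insertNth (2 * z.2.2 + 2) (fun i => 2 * z.2.1 i + All.par z.1 i) : Fin (d + 1) → ℕ) ∈ T := by
        rw [hT, Finset.mem_filter, All.indices, Finset.mem_filter, Fintype.mem_piFinset]
        refine ⟨⟨fun i => ?_, ?_⟩, hm⟩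
        · refine Fin.succAboveCases m ?_ (fun i => ?_) i
          · rw [Fin.insertNth_apply_same, Finset.mem_Icc]
            have := Finset.mem_range.1 hz2'
            omega
          · rw [Fin.insertNth_apply_succAbove, Finset.mem_Icc]
            have := Finset.mem_range.1 (hz2 i)
            rcases hpar2 z.1 i with h5 | h5 <;> rw [h5] <;> omega
        · rw [← hz1, ← Finset.card_map (Fin.succAboveEmb m)]
          congr 1
          ext i
          rw [Finset.mem_filter, Finset.mem_map]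
          simp only [Finset.mem_univ, true_and]
          refine Fin.succAboveCases m ?_ (fun i => ?_) i
          · rw [Fin.insertNth_apply_same]
            constructor
            · intro h
              exact absurd h hev
            · rintro ⟨j, -, hj⟩
              exact absurd hj (Fin.succAbove_ne m j)
          · rw [Fin.insertNth_apply_succAbove, hodd]
            constructor
            · intro h
              exact ⟨i, h, rfl⟩
            · rintro ⟨j, hj, hj'⟩
              have : j = i := Fin.succAbove_right_injective hj'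
              rwa [← this]
      rw [Finset.mem_image]
      refine ⟨⟨(m.insertNth (2 * z.2.2 + 2) (fun i => 2 * z.2.1 i + All.par z.1 i) : Fin (d + 1) → ℕ), m⟩, ?_, ?_⟩
      · rw [Finset.mem_sigma]
        refine ⟨hkT, Finset.mem_filter.2 ⟨Finset.mem_univ _, ?_⟩⟩
        simp only [Fin.insertNth_apply_same]
        exact hev
      · apply Prod.ext
        · simp only [Φ, Fin.insertNth_apply_succAbove]
          ext i
          rw [Finset.mem_filter]
          simp only [Finset.mem_univ, true_and]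
          exact hodd i
        · apply Prod.ext
          · simp only [Φ, Fin.insertNth_apply_succAbove]
            funext i
            rcases hpar2 z.1 i with h5 | h5 <;> rw [h5] <;> omega
          · simp only [Φ, Fin.insertNth_apply_same]
            omega
    refine (Finset.card_le_card h3).trans (Finset.card_image_le.trans ?_)
    rw [Finset.card_sigma, Finset.sum_const_nat (m := d + 1 - q)]
    intro k hk
    rw [hT, Finset.mem_filter, All.indices, Finset.mem_filter] at hk
    have h4 := Finset.card_filter_add_card_filter_not (s := (Finset.univ : Finset (Fin (d + 1)))) (fun i => Odd (k i))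
    rw [hk.1.2, Finset.card_univ, Fintype.card_fin] at h4
    omega
  have h3 : (NB.card : ℝ) ≤ T.card * ((d + 1 - q : ℕ) : ℝ) := by exact_mod_cast h2
  have hD : (0 : ℝ) < ((d + 1 : ℕ) : ℝ) := by positivity
  rw [div_mul_eq_mul_div, div_le_iff₀ hD]
  rcases le_or_gt (1 - Cs * ε) 0 with hneg | hpos
  · calc ((All.indices (d + 1) q n).card : ℝ) * (1 - Cs * ε) ≤ 0 := mul_nonpos_of_nonneg_of_nonpos (by positivity) hneg
      _ ≤ _ := by positivity
  · have h4 := All.card_indices_le (d + 1) q n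
    rw [Finset.card_powersetCard, Finset.card_univ, Fintype.card_fin] at h4
    have h5 : PA.card * (d + 1) = (d + 1).choose q * (d + 1 - q) := by
      rw [hPA, Finset.card_powersetCard, Finset.card_univ, Fintype.card_fin]
      exact Nat.choose_mul_succ_eq d q
    have h4' : ((All.indices (d + 1) q n).card : ℝ) ≤ ((d + 1).choose q : ℝ) * (n : ℝ) ^ (d + 1) := by exact_mod_cast h4
    have h5' : (PA.card : ℝ) * ((d + 1 : ℕ) : ℝ) = ((d + 1).choose q : ℝ) * ((d + 1 - q : ℕ) : ℝ) := by exact_mod_cast h5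
    have hDq : (0 : ℝ) < ((d + 1 - q : ℕ) : ℝ) := by
      have : 0 < d + 1 - q := by omega
      exact_mod_cast this
    refine le_of_mul_le_mul_right ?_ hDq
    calc ((All.indices (d + 1) q n).card : ℝ) * (1 - Cs * ε) * ((d + 1 - q : ℕ) : ℝ)
        ≤ (((d + 1).choose q : ℝ) * (n : ℝ) ^ (d + 1)) * (1 - Cs * ε) * ((d + 1 - q : ℕ) : ℝ) := by
          apply mul_le_mul_of_nonneg_right _ hDq.le
          exact mul_le_mul_of_nonneg_right h4' hpos.le
      _ = ((PA.card : ℝ) * (n : ℝ) ^ (d + 1) * (1 - Cs * ε)) * ((d + 1 : ℕ) : ℝ) := by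
          linear_combination (-(n : ℝ) ^ (d + 1) * (1 - Cs * ε)) * h5'
      _ ≤ NB.card * ((d + 1 : ℕ) : ℝ) := mul_le_mul_of_nonneg_right h1 hD.le
      _ ≤ (T.card * ((d + 1 - q : ℕ) : ℝ)) * ((d + 1 : ℕ) : ℝ) := mul_le_mul_of_nonneg_right h3 hD.le
      _ = _ := by ring

end Pool.Agent.H491.Cor
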