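import Mathlib
import Pool.Agent.H491.Dep1

set_option autoImplicit false

/-! # Elimination of the merged terms -/

namespace Pool.Agent.H491.Dep

open Pool.Agent.H447R2.MZ Pool.Agent.H491.Hit Pool.Agent.H491.Rep
open Finset.HasAntidiagonal (antidiagonal)

/-- the space `E + T E + ⋯ + T ^ (n - 1) E` -/
noncomputable def F (T : ℝ) (E : Submodule RA ℝ) (n : ℕ) : Submodule RA ℝ :=
  ⨆ i ∈ Finset.range n, E.map (LinearMap.mulLeft RA (T ^ i))

theorem mem_F {T : ℝ} {E : Submodule RA ℝ} {n i : ℕ} (hi : i < n) {y : ℝ} (hy : y ∈ E) : T ^ i * y ∈ F T E n := by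
  have h : E.map (LinearMap.mulLeft RA (T ^ i)) ≤ F T E n :=
    le_iSup₂_of_le (f := fun i (_ : i ∈ Finset.range n) => E.map (LinearMap.mulLeft RA (T ^ i))) i
      (Finset.mem_range.2 hi) le_rfl
  exact h (Submodule.mem_map.2 ⟨y, hy, rfl⟩)

theorem E_le_F {T : ℝ} {E : Submodule RA ℝ} {n : ℕ} (hn : 1 ≤ n) {y : ℝ} (hy : y ∈ E) : y ∈ F T E n := by
  have := mem_F (T := T) (E := E) (n := n) (i := 0) (by omega) hy
  simpa using this

theorem mul_F {T : ℝ} {E : Submodule RA ℝ} {k a : ℕ} {y : ℝ} (hy : y ∈ F T E k) : T ^ a * y ∈ F T E (k + a) := by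
  have h : F T E k ≤ (F T E (k + a)).comap (LinearMap.mulLeft RA (T ^ a)) := by
    refine iSup₂_le fun i hi => ?_
    rintro _ ⟨z, hz, rfl⟩
    rw [Submodule.mem_comap]
    simp only [LinearMap.mulLeft_apply]
    rw [← mul_assoc, ← pow_add, add_comm a i]
    exact mem_F (by have := Finset.mem_range.1 hi; omega) hz
  exact h hy

theorem rat_mul_mem {V : Submodule RA ℝ} (q : ℚ) {y : ℝ} (hy : y ∈ V) : (q : ℝ) * y ∈ V := by
  have := V.smul_mem ((q : ℚ) : RA) hy
  rw [Algebra.smul_def] at this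
  simpa using this

theorem neg_one_pow_mul {c : ℕ} (s : ℕ) (w : Fin c → ℕ) (n : ℕ) (p : MvPolynomial (Fin c) ℝ) :
    G s w ((-1) ^ n * p) = (-1) ^ n * G s w p := by
  have : ((-1 : MvPolynomial (Fin c) ℝ) ^ n * p) = ((-1 : ℝ) ^ n) • p := by
    rw [MvPolynomial.smul_eq_C_mul, map_pow, map_neg, map_one]
  rw [this, map_smul, smul_eq_mul]

theorem natCast_mul_G {c : ℕ} (s : ℕ) (w : Fin c → ℕ) (n : ℕ) (p : MvPolynomial (Fin c) ℝ) :
    G s w ((n : MvPolynomial (Fin c) ℝ) * p) = n * G s w p := by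
  rw [← nsmul_eq_mul, map_nsmul, nsmul_eq_mul]

/-- Newton's identities -/
theorem newton_G {c : ℕ} (s : ℕ) (w : Fin c → ℕ) (j : ℕ) :
    (j : ℝ) * G s w (MvPolynomial.esymm (Fin c) ℝ j) = ∑ p ∈ antidiagonal j, (if p.2 = 0 then 0 else
      (-1) ^ (p.2 + 1) * G s w (MvPolynomial.esymm (Fin c) ℝ p.1 * MvPolynomial.psum (Fin c) ℝ p.2)) := by
  have h := congrArg (G s w) (MvPolynomial.mul_esymm_eq_sum (Fin c) ℝ j)
  rw [natCast_mul_G, neg_one_pow_mul, map_sum, Finset.mul_sum, Finset.sum_filter] at h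
  rw [h]
  refine Finset.sum_congr rfl fun p hp => ?_
  rw [Finset.HasAntidiagonal.mem_antidiagonal] at hp
  by_cases hp2 : p.2 = 0
  · rw [if_neg (by omega), if_pos hp2]
  · rw [if_pos (by omega), if_neg hp2, mul_assoc ((-1) ^ p.1), neg_one_pow_mul, ← mul_assoc, ← pow_add]
    congr 1
    rw [← hp, show p.1 + p.2 + 1 + p.1 = p.2 + 1 + 2 * p.1 by ring, pow_add _ (p.2 + 1), pow_mul]
    norm_num

theorem G_esymm_psum {c : ℕ} (s : ℕ) (w : Fin c → ℕ) (hw : Adm (List.ofFn w)) (k a : ℕ) (ha : 2 ≤ s * a) :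
    G s w (MvPolynomial.esymm (Fin c) ℝ k * MvPolynomial.psum (Fin c) ℝ a) =
      val [s * a] * G s w (MvPolynomial.esymm (Fin c) ℝ k) -
        ∑ t ∈ Finset.powersetCard k Finset.univ, ins (s * a) (shift s w (ind t)) := by
  rw [MvPolynomial.esymm_eq_sum_monomial, Finset.sum_mul, map_sum, map_sum, Finset.mul_sum, ← Finset.sum_sub_distrib]
  refine Finset.sum_congr rfl fun t _ => ?_
  rw [mul_val s w hw _ a ha]
  simp [ind]

theorem key {c : ℕ} (τ : ℕ) (hτ : 1 ≤ τ) (w : Fin c → ℕ) (hw : Adm (List.ofFn w)) (E : Submodule RA ℝ)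
    (hE : ∀ (t : Finset (Fin c)) (a : ℕ) (p : Fin (c + 1)), 1 ≤ a → t.card + a ≤ c + 1 →
      val (List.ofFn (p.insertNth (2 * τ * a) (shift (2 * τ) w (ind t)) : Fin (c + 1) → ℕ)) ∈ E) :
    (Real.pi ^ (2 * τ)) ^ (c + 1) * val (List.ofFn w) ∈ F (Real.pi ^ (2 * τ)) E (c + 1) := by
  set T : ℝ := Real.pi ^ (2 * τ) with hT
  set g : ℕ → ℝ := fun j => G (2 * τ) w (MvPolynomial.esymm (Fin c) ℝ j) with hg
  set κ : ℕ → ℝ := fun j => val (List.replicate j (2 * τ)) with hκ
  have hz : ∀ a, 1 ≤ a → ∃ r : ℚ, val [2 * τ * a] = r * T ^ a := by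
    intro a ha
    obtain ⟨r, -, hr⟩ := val_even (τ * a) (Nat.mul_ne_zero (by omega) (by omega))
    refine ⟨r, ?_⟩
    rw [mul_assoc, hr, hT, ← pow_mul]
    ring_nf
  have hins : ∀ k a, 1 ≤ a → k + a ≤ c + 1 →
      ∑ t ∈ Finset.powersetCard k (Finset.univ : Finset (Fin c)), ins (2 * τ * a) (shift (2 * τ) w (ind t)) ∈ E := by
    intro k a ha hk
    refine E.sum_mem fun t ht => ?_
    refine E.sum_mem fun p _ => hE t a p ha ?_
    rw [(Finset.mem_powersetCard.1 ht).2]
    exact hk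
  have hg0 : g 0 = val (List.ofFn w) := by
    simp only [hg]
    rw [MvPolynomial.esymm_zero, ← MvPolynomial.C_1, ← MvPolynomial.monomial_zero', G_monomial]
    congr 2
  have hκ0 : κ 0 = 1 := by simp [hκ, val_nil]
  have main : ∀ j, j ≤ c + 1 → g j - κ j * g 0 ∈ F T E j := by
    intro j
    induction j using Nat.strong_induction_on with
    | _ j ih =>
      intro hj
      rcases Nat.eq_zero_or_pos j with rfl | hj0
      · rw [hκ0, one_mul, sub_self]
        exact Submodule.zero_mem _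
      · have h1 := newton_G (2 * τ) w j
        have h2 := val_newton (2 * τ) j (by omega)
        have h3 : (j : ℝ) * (g j - κ j * g 0) = ∑ p ∈ antidiagonal j, (if p.2 = 0 then 0 else
            (-1) ^ (p.2 + 1) * (val [2 * τ * p.2] * (g p.1 - κ p.1 * g 0) -
              ∑ t ∈ Finset.powersetCard p.1 (Finset.univ : Finset (Fin c)),
                ins (2 * τ * p.2) (shift (2 * τ) w (ind t)))) := by
          rw [mul_sub, ← mul_assoc]
          change (j : ℝ) * G (2 * τ) w (MvPolynomial.esymm (Fin c) ℝ j) -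
            (j : ℝ) * val (List.replicate j (2 * τ)) * g 0 = _
          rw [h1, h2, Finset.sum_mul, ← Finset.sum_sub_distrib]
          refine Finset.sum_congr rfl fun p hp => ?_
          by_cases hp2 : p.2 = 0
          · simp [hp2]
          · have : 2 ≤ 2 * τ * p.2 := by
              have : 1 ≤ τ * p.2 := Nat.mul_pos hτ (Nat.pos_of_ne_zero hp2)
              rw [mul_assoc]
              omega
            rw [if_neg hp2, if_neg hp2, if_neg hp2, G_esymm_psum _ w hw _ _ this]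
            simp only [hg, hκ]
            ring
        have h4 : (j : ℝ) * (g j - κ j * g 0) ∈ F T E j := by
          rw [h3]
          refine Submodule.sum_mem _ fun p hp => ?_
          rw [Finset.HasAntidiagonal.mem_antidiagonal] at hp
          by_cases hp2 : p.2 = 0
          · rw [if_pos hp2]
            exact Submodule.zero_mem _
          · rw [if_neg hp2]
            have h5 : val [2 * τ * p.2] * (g p.1 - κ p.1 * g 0) ∈ F T E j := by
              obtain ⟨r, hr⟩ := hz p.2 (Nat.pos_of_ne_zero hp2)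
              rw [hr, mul_assoc]
              apply rat_mul_mem
              rw [← hp]
              exact mul_F (ih p.1 (by omega) (by omega))
            have h6 := E_le_F (T := T) hj0 (hins p.1 p.2 (Nat.pos_of_ne_zero hp2) (by omega))
            have h7 := Submodule.sub_mem _ h5 h6
            have h8 := rat_mul_mem ((-1) ^ (p.2 + 1)) h7
            simpa using h8
        have h5 := rat_mul_mem ((j : ℚ)⁻¹) h4
        have hj' : (j : ℝ) ≠ 0 := by exact_mod_cast hj0.ne'
        have e : (((j : ℚ)⁻¹ : ℚ) : ℝ) * ((j : ℝ) * (g j - κ j * g 0)) = g j - κ j * g 0 := by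
          push_cast
          field_simp
        rwa [e] at h5
  have h1 := main (c + 1) le_rfl
  have h2 : g (c + 1) = 0 := by
    simp only [hg]
    rw [MvPolynomial.esymm_eq_sum_monomial, Finset.powersetCard_eq_empty.2 (by simp), Finset.sum_empty, map_zero]
  obtain ⟨q, hq, hq'⟩ := rep_even τ hτ (c + 1)
  have h3 : κ (c + 1) = q * T ^ (c + 1) := by
    simp only [hκ]
    rw [hq', hT, ← pow_mul]
  rw [h2, h3, zero_sub] at h1
  have h4 := rat_mul_mem (-q⁻¹) h1
  have e : ((-q⁻¹ : ℚ) : ℝ) * -((q : ℝ) * T ^ (c + 1) * g 0) = T ^ (c + 1) * g 0 := by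
    have : (q : ℝ) ≠ 0 := by exact_mod_cast hq
    push_cast
    field_simp
  rw [e, hg0] at h4
  exact h4

end Pool.Agent.H491.Dep
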