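import Mathlib

set_option autoImplicit false

/-! # Spaces of rational functions of finite dimension and relations in several scales -/

namespace Pool.Agent.H491.Dep

open WithZero

theorem dist_val {K Γ ι : Type*} [Field K] [LinearOrderedCommGroupWithZero Γ] (v : Valuation K Γ) (z : ι → K)
    (s : Finset ι) (h : ∀ i ∈ s, ∀ j ∈ s, i ≠ j → z i ≠ 0 → z j ≠ 0 → v (z i) ≠ v (z j)) :
    (∀ i ∈ s, z i = 0) ∨ ∃ i ∈ s, z i ≠ 0 ∧ v (∑ i ∈ s, z i) = v (z i) := by
  classical
  induction s using Finset.induction_on with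
  | empty => left; simp
  | insert a s ha ih =>
    have ih' := ih fun i hi j hj => h i (Finset.mem_insert_of_mem hi) j (Finset.mem_insert_of_mem hj)
    rw [Finset.sum_insert ha]
    by_cases hz : z a = 0
    · rw [hz, zero_add]
      rcases ih' with h1 | ⟨i, hi, h2, h3⟩
      · left
        intro i hi
        rcases Finset.mem_insert.1 hi with rfl | hi
        · exact hz
        · exact h1 i hi
      · exact Or.inr ⟨i, Finset.mem_insert_of_mem hi, h2, h3⟩
    · right
      rcases ih' with h1 | ⟨i, hi, h2, h3⟩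
      · refine ⟨a, Finset.mem_insert_self _ _, hz, ?_⟩
        rw [Finset.sum_eq_zero h1, add_zero]
      · have hne : v (z a) ≠ v (∑ i ∈ s, z i) := by
          rw [h3]
          exact h a (Finset.mem_insert_self _ _) i (Finset.mem_insert_of_mem hi) (fun e => ha (e ▸ hi)) hz h2
        have h4 := v.map_add_of_distinct_val hne
        rcases le_total (v (z a)) (v (∑ i ∈ s, z i)) with h5 | h5
        · refine ⟨i, Finset.mem_insert_of_mem hi, h2, ?_⟩
          rw [h4, max_eq_right h5, h3]
        · refine ⟨a, Finset.mem_insert_self _ _, hz, ?_⟩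
          rw [h4, max_eq_left h5]

variable {A : Type} [Field A]

/-- a space of rational functions of dimension `≤ e` contains functions of at most `e` different degrees -/
theorem card_degrees (E : Submodule A (RatFunc A)) (e : ℕ) (hE : Module.rank A E ≤ e) (D : Finset ℤ)
    (hD : ∀ d ∈ D, ∃ y ∈ E, y ≠ 0 ∧ y.intDegree = d) : D.card ≤ e := by
  classical
  choose! y hy hy0 hyd using hD
  have hlin : LinearIndependent A (fun d : D => (⟨y d, hy d d.2⟩ : E)) := by
    rw [linearIndependent_iff']
    intro s g hg i hi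
    have hg' : ∑ d ∈ s, RatFunc.C (g d) * y d = 0 := by
      have := congrArg Subtype.val hg
      simp only [Submodule.coe_sum, Submodule.coe_smul, ZeroMemClass.coe_zero] at this
      rw [← this]
      refine Finset.sum_congr rfl fun d _ => ?_
      rw [RatFunc.smul_eq_C_mul]
    have hv : ∀ d : D, RatFunc.C (g d) * y d ≠ 0 →
        RatFunc.inftyValuation A (RatFunc.C (g d) * y d) = exp (d : ℤ) := by
      intro d hd
      have h1 : g d ≠ 0 := by
        intro h
        apply hd
        rw [h]; simp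
      rw [map_mul, RatFunc.inftyValuation.C A h1, one_mul, RatFunc.inftyValuation_apply,
        RatFunc.inftyValuation_of_nonzero A (hy0 d d.2), hyd d d.2]
    rcases dist_val (RatFunc.inftyValuation A) (fun d : D => RatFunc.C (g d) * y d) s (by
      intro i _ j _ hij hi hj
      rw [hv i hi, hv j hj]
      intro h
      apply hij
      have := exp_injective h
      exact Subtype.ext this) with h1 | ⟨j, hj, h2, h3⟩
    · have h4 := h1 i hi
      rcases mul_eq_zero.1 h4 with h5 | h5
      · exact (map_eq_zero RatFunc.C).1 h5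
      · exact absurd h5 (hy0 i i.2)
    · rw [hg', map_zero] at h3
      rw [hv j h2] at h3
      exact absurd h3.symm exp_ne_zero
  have h1 := hlin.cardinal_le_rank
  rw [Cardinal.mk_coe_finset] at h1
  exact_mod_cast h1.trans hE

theorem exists_degrees (E : Submodule A (RatFunc A)) (e : ℕ) (hE : Module.rank A E ≤ e) :
    ∃ D : Finset ℤ, D.card ≤ e ∧ ∀ y ∈ E, y ≠ 0 → y.intDegree ∈ D := by
  classical
  have hfin : {d : ℤ | ∃ y ∈ E, y ≠ 0 ∧ y.intDegree = d}.Finite := by
    by_contra hinf
    obtain ⟨t, ht, hc⟩ := Set.Infinite.exists_subset_card_eq hinf (e + 1)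
    have := card_degrees E e hE t fun d hd => ht hd
    omega
  refine ⟨hfin.toFinset, ?_, ?_⟩
  · apply card_degrees E e hE
    intro d hd
    exact hfin.mem_toFinset.1 hd
  · intro y hy hy0
    rw [hfin.mem_toFinset]
    exact ⟨y, hy, hy0, rfl⟩

theorem card_pairs (S : Finset ℤ) : ((S ×ˢ S).filter fun p => p.2 < p.1).card ≤ S.card.choose 2 := by
  classical
  rw [← Finset.card_powersetCard]
  apply Finset.card_le_card_of_injOn (fun p : ℤ × ℤ => ({p.1, p.2} : Finset ℤ))
  · intro p hp
    rw [Finset.mem_coe, Finset.mem_filter, Finset.mem_product] at hp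
    rw [Finset.mem_coe, Finset.mem_powersetCard]
    refine ⟨?_, Finset.card_pair (by omega)⟩
    intro x hx
    rw [Finset.mem_insert, Finset.mem_singleton] at hx
    rcases hx with rfl | rfl
    · exact hp.1.1
    · exact hp.1.2
  · intro p hp q hq h
    rw [Finset.mem_coe, Finset.mem_filter] at hp hq
    obtain ⟨a, b⟩ := p
    obtain ⟨c, d⟩ := q
    simp only at hp hq h
    have h1 : a ∈ ({c, d} : Finset ℤ) := by rw [← h]; simp
    have h2 : b ∈ ({c, d} : Finset ℤ) := by rw [← h]; simp
    have h3 : c ∈ ({a, b} : Finset ℤ) := by rw [h]; simp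
    have h4 : d ∈ ({a, b} : Finset ℤ) := by rw [h]; simp
    simp only [Finset.mem_insert, Finset.mem_singleton] at h1 h2 h3 h4
    have := hp.2
    have := hq.2
    rw [Prod.mk.injEq]
    omega

/-- at most `n e (e + 1) / 2` scales `τ` have the property that `X ^ (τ n)` is in `E + X ^ τ E + ⋯ + X ^ (τ (n - 1)) E` -/
theorem scales (E : Submodule A (RatFunc A)) (e : ℕ) (hE : Module.rank A E ≤ e) (n : ℕ) (B : Finset ℕ)
    (hB : ∀ τ ∈ B, 1 ≤ τ ∧ ∃ y : ℕ → RatFunc A, (∀ i, y i ∈ E) ∧
      (RatFunc.X : RatFunc A) ^ (τ * n) = ∑ i ∈ Finset.range n, RatFunc.X ^ (τ * i) * y i) :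
    B.card ≤ n * (e + 1).choose 2 := by
  classical
  obtain ⟨D, hD, hD'⟩ := exists_degrees E e hE
  set S : Finset ℤ := insert 0 D with hS
  have hScard : S.card ≤ e + 1 := (Finset.card_insert_le _ _).trans (by omega)
  have hvX : ∀ (m : ℕ) (y : RatFunc A), y ≠ 0 →
      RatFunc.inftyValuation A (RatFunc.X ^ m * y) = exp ((m : ℤ) + y.intDegree) := by
    intro m y hy
    have h1 : RatFunc.inftyValuation A (RatFunc.X ^ m) = exp (m : ℤ) := by
      have := RatFunc.inftyValuation.X_zpow A (m : ℤ)
      rwa [zpow_natCast] at this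
    rw [map_mul, h1, RatFunc.inftyValuation_apply, RatFunc.inftyValuation_of_nonzero A hy, ← exp_add]
  have key : ∀ τ ∈ B, ∃ a ∈ S, ∃ b ∈ S, b < a ∧ ∃ m ∈ Finset.Icc 1 n, a - b = (τ : ℤ) * (m : ℕ) := by
    intro τ hτ
    obtain ⟨hτ1, y, hy, hsum⟩ := hB τ hτ
    by_cases hdist : ∀ i ∈ Finset.range n, ∀ j ∈ Finset.range n, i ≠ j → RatFunc.X ^ (τ * i) * y i ≠ 0 →
        RatFunc.X ^ (τ * j) * y j ≠ 0 → RatFunc.inftyValuation A (RatFunc.X ^ (τ * i) * y i) ≠
          RatFunc.inftyValuation A (RatFunc.X ^ (τ * j) * y j)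
    · rcases dist_val (RatFunc.inftyValuation A) (fun i => RatFunc.X ^ (τ * i) * y i) (Finset.range n) hdist with h1 | ⟨i, hi, h2, h3⟩
      · rw [Finset.sum_eq_zero h1] at hsum
        exact absurd hsum (pow_ne_zero _ RatFunc.X_ne_zero)
      · rw [← hsum] at h3
        have hyi : y i ≠ 0 := fun h => h2 (by simp [h])
        have h4 := hvX (τ * n) 1 one_ne_zero
        rw [mul_one] at h4
        rw [h4] at h3
        rw [hvX _ _ hyi] at h3
        have h5 := exp_injective h3
        rw [RatFunc.intDegree_one, add_zero] at h5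
        have hi' := Finset.mem_range.1 hi
        refine ⟨(y i).intDegree, Finset.mem_insert_of_mem (hD' _ (hy i) hyi), 0, Finset.mem_insert_self _ _, ?_,
          n - i, Finset.mem_Icc.2 ⟨by omega, by omega⟩, ?_⟩
        · have : (τ : ℤ) * i < τ * n := by
            apply mul_lt_mul_of_pos_left
            · exact_mod_cast hi'
            · exact_mod_cast hτ1
          push_cast at h5
          omega
        · push_cast at h5
          rw [Nat.cast_sub hi'.le]
          linear_combination -h5
    · push Not at hdist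
      obtain ⟨i, hi, j, hj, hij, h1, h2, h3⟩ := hdist
      have hyi : y i ≠ 0 := fun h => h1 (by simp [h])
      have hyj : y j ≠ 0 := fun h => h2 (by simp [h])
      rw [hvX _ _ hyi, hvX _ _ hyj] at h3
      have h5 := exp_injective h3
      have hi' := Finset.mem_range.1 hi
      have hj' := Finset.mem_range.1 hj
      have main : ∀ i j : ℕ, i < j → j < n → y i ≠ 0 → y j ≠ 0 →
          ((τ * i : ℕ) : ℤ) + (y i).intDegree = ((τ * j : ℕ) : ℤ) + (y j).intDegree →
          ∃ a ∈ S, ∃ b ∈ S, b < a ∧ ∃ m ∈ Finset.Icc 1 n, a - b = (τ : ℤ) * (m : ℕ) := by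
        intro i j hij hj hyi hyj h
        refine ⟨(y i).intDegree, Finset.mem_insert_of_mem (hD' _ (hy i) hyi), (y j).intDegree,
          Finset.mem_insert_of_mem (hD' _ (hy j) hyj), ?_, j - i, Finset.mem_Icc.2 ⟨by omega, by omega⟩, ?_⟩
        · have : (τ : ℤ) * i < τ * j := by
            apply mul_lt_mul_of_pos_left
            · exact_mod_cast hij
            · exact_mod_cast hτ1
          push_cast at h
          omega
        · push_cast at h
          rw [Nat.cast_sub hij.le]
          linear_combination h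
      rcases lt_or_gt_of_ne hij with hlt | hlt
      · exact main i j hlt hj' hyi hyj h5
      · exact main j i hlt hi' hyj hyi h5.symm
  have hsub : B ⊆ (((S ×ˢ S).filter fun p => p.2 < p.1) ×ˢ Finset.Icc 1 n).image
      fun q => ((q.1.1 - q.1.2) / (q.2 : ℤ)).toNat := by
    intro τ hτ
    obtain ⟨a, ha, b, hb, hab, m, hm, h⟩ := key τ hτ
    rw [Finset.mem_image]
    refine ⟨((a, b), m), ?_, ?_⟩
    · rw [Finset.mem_product, Finset.mem_filter, Finset.mem_product]
      exact ⟨⟨⟨ha, hb⟩, hab⟩, hm⟩
    · have hm1 := (Finset.mem_Icc.1 hm).1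
      have hm0 : (m : ℤ) ≠ 0 := by omega
      simp only
      rw [h, Int.mul_ediv_cancel _ hm0, Int.toNat_natCast]
  calc B.card ≤ _ := Finset.card_le_card hsub
    _ ≤ _ := Finset.card_image_le
    _ = ((S ×ˢ S).filter fun p => p.2 < p.1).card * n := by rw [Finset.card_product, Nat.card_Icc, Nat.add_sub_cancel]
    _ ≤ (e + 1).choose 2 * n := Nat.mul_le_mul_right n ((card_pairs S).trans (Nat.choose_le_choose 2 hScard))
    _ = _ := mul_comm _ _

end Pool.Agent.H491.Dep
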