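import Mathlib
import Pool.Agent.H491.Dep2
import Pool.Agent.H491.Dep3

set_option autoImplicit false

/-! # The number of bad scales -/

namespace Pool.Agent.H491.Dep

open Pool.Agent.H447R2.MZ Pool.Agent.H491.Hit Pool.Agent.H491.Rep

theorem transcendental_pi_sq : Transcendental RA (Real.pi ^ 2) := transcendental_RA (pi_pow_notMem 2 (by norm_num))

/-- evaluation of rational functions at `π ^ 2` -/
noncomputable def evPi : RatFunc RA →ₐ[RA] ℝ :=
  RatFunc.liftAlgHom (Polynomial.aeval (Real.pi ^ 2))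
    (nonZeroDivisors_le_comap_nonZeroDivisors_of_injective _
      ((transcendental_iff_injective).1 transcendental_pi_sq))

theorem evPi_X : evPi RatFunc.X = Real.pi ^ 2 := by
  have h : (RatFunc.X : RatFunc RA) = algebraMap (Polynomial RA) (RatFunc RA) Polynomial.X := RatFunc.algebraMap_X.symm
  rw [evPi, h, RatFunc.liftAlgHom_apply]
  simp

theorem scales_real (x : ℝ) (hx : x ≠ 0) (E : Submodule RA ℝ) (e : ℕ) (hE : Module.rank RA E ≤ e) (n : ℕ) (B : Finset ℕ)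
    (hB : ∀ τ ∈ B, 1 ≤ τ ∧ (Real.pi ^ (2 * τ)) ^ n * x ∈ F (Real.pi ^ (2 * τ)) E n) :
    B.card ≤ n * (e + 1).choose 2 := by
  let _ : Algebra (RatFunc RA) ℝ := evPi.toRingHom.toAlgebra
  have _ : IsScalarTower RA (RatFunc RA) ℝ := IsScalarTower.of_algebraMap_eq fun r => (evPi.commutes r).symm
  have hmap : ∀ r : RatFunc RA, algebraMap (RatFunc RA) ℝ r = evPi r := fun r => rfl
  obtain ⟨ψ, hψ⟩ : ∃ ψ : Module.Dual (RatFunc RA) ℝ, ψ x ≠ 0 := by
    by_contra h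
    push Not at h
    exact hx ((Module.forall_dual_apply_eq_zero_iff (RatFunc RA) x).1 h)
  set l : ℝ →ₗ[RatFunc RA] RatFunc RA := (ψ x)⁻¹ • ψ with hl
  have hlx : l x = 1 := by
    rw [hl, LinearMap.smul_apply, smul_eq_mul, inv_mul_cancel₀ hψ]
  have hlpow : ∀ (τ i : ℕ) (z : ℝ), l ((Real.pi ^ (2 * τ)) ^ i * z) = RatFunc.X ^ (τ * i) * l z := by
    intro τ i z
    have : (Real.pi ^ (2 * τ)) ^ i * z = ((RatFunc.X : RatFunc RA) ^ (τ * i)) • z := by
      rw [Algebra.smul_def, hmap, map_pow, evPi_X, ← pow_mul, ← pow_mul]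
      congr 2
      ring
    rw [this, map_smul, smul_eq_mul]
  apply scales (E.map (l.restrictScalars RA)) e ((rank_map_le _ _).trans hE) n B
  intro τ hτ
  obtain ⟨h1, h2⟩ := hB τ hτ
  refine ⟨h1, ?_⟩
  rw [F, Submodule.mem_iSup_finset_iff_exists_sum] at h2
  obtain ⟨μ, hμ⟩ := h2
  have h3 : ∀ i, ∃ z ∈ E, (Real.pi ^ (2 * τ)) ^ i * z = (μ i : ℝ) := by
    intro i
    obtain ⟨z, hz, hz'⟩ := Submodule.mem_map.1 (μ i).2
    exact ⟨z, hz, hz'⟩
  choose z hz hz' using h3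
  refine ⟨fun i => l (z i), fun i => Submodule.mem_map.2 ⟨z i, hz i, rfl⟩, ?_⟩
  have h4 := congrArg l hμ
  rw [hlpow, hlx, mul_one, map_sum] at h4
  rw [← h4]
  refine Finset.sum_congr rfl fun i _ => ?_
  rw [← hz' i, hlpow]

/-- the local theorem: all but few scales `τ` are good for the index `w` -/
theorem bad_scales {c : ℕ} (w : Fin c → ℕ) (hw : Adm (List.ofFn w)) (E : Submodule RA ℝ) (e : ℕ)
    (hE : Module.rank RA E ≤ e) (B : Finset ℕ)
    (hB : ∀ τ ∈ B, 1 ≤ τ ∧ ∀ (t : Finset (Fin c)) (a : ℕ) (p : Fin (c + 1)), 1 ≤ a → t.card + a ≤ c + 1 →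
      val (List.ofFn (p.insertNth (2 * τ * a) (shift (2 * τ) w (ind t)) : Fin (c + 1) → ℕ)) ∈ E) :
    B.card ≤ (c + 1) * (e + 1).choose 2 := by
  apply scales_real (val (List.ofFn w)) (val_pos _ hw).ne' E e hE (c + 1) B
  intro τ hτ
  exact ⟨(hB τ hτ).1, key τ (hB τ hτ).1 w hw E (hB τ hτ).2⟩

end Pool.Agent.H491.Dep
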