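import Mathlib
import Pool.Agent.H491.Dep4

set_option autoImplicit false

/-! # Counting the indices of given depth -/

namespace Pool.Agent.H491.Dep

open Pool.Agent.H447R2.MZ Pool.Agent.H491.Hit Pool.Agent.H491.Rep

/-- the value of an index of depth `D` -/
noncomputable def zt {D : ℕ} (k : Fin D → ℕ) : ℝ := val (List.ofFn k)

/-- the indices of depth `c + 1` belonging to the index `w` of depth `c`, the set `J`, the number `a`, the place `p` and
the scale `τ` -/
def conf {c : ℕ} (w : Fin c → ℕ) (J : Finset (Fin c)) (a : ℕ) (p : Fin (c + 1)) (τ : ℕ) : Fin (c + 1) → ℕ :=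
  p.insertNth (2 * τ * a) (fun i => w i + if i ∈ J then 2 * τ else 0)

theorem conf_eq {c : ℕ} (w : Fin c → ℕ) (J : Finset (Fin c)) (a : ℕ) (p : Fin (c + 1)) (τ : ℕ) :
    conf w J a p τ = p.insertNth (2 * τ * a) (shift (2 * τ) w (ind J)) := by
  unfold conf shift
  congr 1
  funext i
  rw [ind_apply]
  split_ifs <;> simp

theorem local_count {c : ℕ} (w : Fin c → ℕ) (hw : Adm (List.ofFn w)) (E : Submodule RA ℝ) (e : ℕ)
    (hE : Module.rank RA E ≤ e) :
    {τ : ℕ | 1 ≤ τ ∧ ∀ (J : Finset (Fin c)) (a : ℕ) (p : Fin (c + 1)), 1 ≤ a → J.card + a ≤ c + 1 →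
      zt (conf w J a p τ) ∈ E}.encard ≤ ((c + 1) * (e + 1).choose 2 : ℕ) := by
  classical
  by_contra hcon
  push Not at hcon
  have h1 : (((c + 1) * (e + 1).choose 2 + 1 : ℕ) : ℕ∞) ≤ {τ : ℕ | 1 ≤ τ ∧ ∀ (J : Finset (Fin c)) (a : ℕ) (p : Fin (c + 1)),
      1 ≤ a → J.card + a ≤ c + 1 → zt (conf w J a p τ) ∈ E}.encard := by
    have := Order.add_one_le_of_lt hcon
    push_cast at this ⊢
    exact this
  obtain ⟨t, ht, hc⟩ := Set.exists_subset_encard_eq h1
  have hfin : t.Finite := Set.finite_of_encard_eq_coe hc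
  have h2 := bad_scales w hw E e hE hfin.toFinset (by
    intro τ hτ
    have h3 := ht (hfin.mem_toFinset.1 hτ)
    refine ⟨h3.1, fun t a p ha hta => ?_⟩
    rw [← conf_eq]
    exact h3.2 t a p ha hta)
  rw [hfin.encard_eq_coe_toFinset_card] at hc
  have h3 : hfin.toFinset.card = (c + 1) * (e + 1).choose 2 + 1 := by exact_mod_cast hc
  omega

/-- the indices of depth `c` with `q` odd entries which are used -/
def wx {c M : ℕ} (q : ℕ) (x : Fin c → Fin M) : Fin c → ℕ := fun i => 2 * (x i : ℕ) + 2 + if (i : ℕ) < q then 1 else 0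

/-- the set which is counted -/
def V (c q N : ℕ) (E : Submodule RA ℝ) : Set (Fin (c + 1) → ℕ) :=
  {k | (∀ i, 2 ≤ k i) ∧ (Finset.univ.filter fun i => Odd (k i)).card = q ∧ ∑ i, k i ≤ N ∧ zt k ∉ E}

theorem V_finite (c q N : ℕ) (E : Submodule RA ℝ) : (V c q N E).Finite := by
  apply (Set.finite_Iic (fun _ : Fin (c + 1) => N)).subset
  intro k hk
  rw [Set.mem_Iic]
  intro i
  exact (Finset.single_le_sum (f := k) (fun _ _ => Nat.zero_le _) (Finset.mem_univ i)).trans hk.2.2.1

theorem card_lt (c q : ℕ) (hq : q ≤ c) : (Finset.univ.filter fun i : Fin c => (i : ℕ) < q).card = q := by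
  have : (Finset.univ.filter fun i : Fin c => (i : ℕ) < q).map Fin.valEmbedding = Finset.range q := by
    ext n
    simp only [Finset.mem_map, Finset.mem_filter, Finset.mem_univ, true_and, Fin.valEmbedding_apply, Finset.mem_range]
    constructor
    · rintro ⟨i, hi, rfl⟩
      exact hi
    · intro hn
      exact ⟨⟨n, by omega⟩, hn, rfl⟩
  rw [← Finset.card_map Fin.valEmbedding, this, Finset.card_range]

theorem conf_mem {c q M : ℕ} (hq : q ≤ c) (x : Fin c → Fin M) (J : Finset (Fin c)) (a : ℕ) (p : Fin (c + 1)) (τ : ℕ)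
    (ha : 1 ≤ a) (hJ : J.card + a ≤ c + 1) (hτ : 1 ≤ τ) (hτM : τ ≤ M) (E : Submodule RA ℝ)
    (hE : zt (conf (wx q x) J a p τ) ∉ E) : conf (wx q x) J a p τ ∈ V c q (5 * (c + 1) * M) E := by
  have hτa : 1 ≤ τ * a := Nat.mul_pos hτ ha
  refine ⟨?_, ?_, ?_, hE⟩
  · intro i
    unfold conf
    rcases Fin.eq_self_or_eq_succAbove p i with rfl | ⟨j, rfl⟩
    · rw [Fin.insertNth_apply_same, mul_assoc]
      omega
    · rw [Fin.insertNth_apply_succAbove]
      unfold wx
      omega
  · rw [Finset.card_filter, Fin.sum_univ_succAbove _ p]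
    unfold conf
    rw [Fin.insertNth_apply_same, if_neg, zero_add]
    · have hq' := card_lt c q hq
      rw [Finset.card_filter] at hq'
      refine Eq.trans (Finset.sum_congr rfl fun i _ => ?_) hq'
      rw [Fin.insertNth_apply_succAbove]
      have : Odd (wx q x i + if i ∈ J then 2 * τ else 0) ↔ (i : ℕ) < q := by
        unfold wx
        split_ifs with h1 h2 h2
        · simp only [h1, iff_true]
          exact ⟨x i + 1 + τ, by ring⟩
        · simp only [h1, iff_true]
          exact ⟨x i + 1, by ring⟩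
        · simp only [h1, iff_false, Nat.not_odd_iff_even]
          exact ⟨x i + 1 + τ, by ring⟩
        · simp only [h1, iff_false, Nat.not_odd_iff_even]
          exact ⟨x i + 1, by ring⟩
      simp only [this]
    · rw [Nat.not_odd_iff_even, mul_assoc]
      exact even_two_mul _
  · rw [Fin.sum_univ_succAbove _ p]
    unfold conf
    rw [Fin.insertNth_apply_same]
    simp only [Fin.insertNth_apply_succAbove]
    rw [Finset.sum_add_distrib]
    have h1 : ∑ i, wx q x i ≤ c * (2 * M + 1) := by
      calc ∑ i, wx q x i ≤ ∑ _i : Fin c, (2 * M + 1) := by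
            refine Finset.sum_le_sum fun i _ => ?_
            have := (x i).2
            unfold wx
            split_ifs <;> omega
        _ = c * (2 * M + 1) := by simp
    have h2 : ∑ i : Fin c, (if i ∈ J then 2 * τ else 0) = 2 * τ * J.card := by
      rw [Finset.sum_ite_mem, Finset.univ_inter, Finset.sum_const, smul_eq_mul, mul_comm]
    rw [h2]
    have hM : 1 ≤ M := hτ.trans hτM
    have h3 : 2 * τ * a + 2 * τ * J.card ≤ 2 * M * (c + 1) := by
      calc 2 * τ * a + 2 * τ * J.card = 2 * τ * (J.card + a) := by ring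
        _ ≤ 2 * M * (c + 1) := Nat.mul_le_mul (by omega) hJ
    have h4 : c ≤ c * M := Nat.le_mul_of_pos_right c hM
    nlinarith

theorem count {c q e : ℕ} (hq : q ≤ c) (E : Submodule RA ℝ) (hE : Module.rank RA E ≤ e) (M : ℕ) :
    M ^ c * (M - (c + 1) * (e + 1).choose 2) ≤ (c + 1) ^ 2 * 2 ^ c * (V c q (5 * (c + 1) * M) E).ncard := by
  classical
  let bad : (Fin c → Fin M) → ℕ → Prop := fun x τ => ∀ (J : Finset (Fin c)) (a : ℕ) (p : Fin (c + 1)), 1 ≤ a →
    J.card + a ≤ c + 1 → zt (conf (wx q x) J a p τ) ∈ E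
  let P : Finset ((Fin c → Fin M) × ℕ) := (Finset.univ ×ˢ Finset.Icc 1 M).filter fun z => ¬ bad z.1 z.2
  have hadm : ∀ x : Fin c → Fin M, Adm (List.ofFn (wx q x)) := by
    intro x
    apply adm_ofFn
    intro i
    unfold wx
    omega
  have hP : M ^ c * (M - (c + 1) * (e + 1).choose 2) ≤ P.card := by
    have h1 : P.card = ∑ x : Fin c → Fin M, ((Finset.Icc 1 M).filter fun τ => ¬ bad x τ).card := by
      rw [Finset.card_filter, Finset.sum_product]
      refine Finset.sum_congr rfl fun x _ => ?_
      rw [Finset.card_filter]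
    rw [h1]
    calc M ^ c * (M - (c + 1) * (e + 1).choose 2)
        = ∑ _x : Fin c → Fin M, (M - (c + 1) * (e + 1).choose 2) := by simp
      _ ≤ _ := by
        refine Finset.sum_le_sum fun x _ => ?_
        have h2 := Finset.card_filter_add_card_filter_not (s := Finset.Icc 1 M) (fun τ => bad x τ)
        have h3 : ((Finset.Icc 1 M).filter fun τ => bad x τ).card ≤ (c + 1) * (e + 1).choose 2 := by
          apply bad_scales (wx q x) (hadm x) E e hE
          intro τ hτ
          rw [Finset.mem_filter, Finset.mem_Icc] at hτ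
          refine ⟨hτ.1.1, fun t a p ha hta => ?_⟩
          rw [← conf_eq]
          exact hτ.2 t a p ha hta
        rw [Nat.card_Icc] at h2
        omega
  have hgood : ∀ z ∈ P, ∃ (J : Finset (Fin c)) (a : ℕ) (p : Fin (c + 1)), 1 ≤ a ∧ J.card + a ≤ c + 1 ∧
      zt (conf (wx q z.1) J a p z.2) ∉ E := by
    intro z hz
    have := (Finset.mem_filter.1 hz).2
    simp only [bad] at this
    push Not at this
    obtain ⟨J, a, p, h1, h2, h3⟩ := this
    exact ⟨J, a, p, h1, h2, h3⟩
  choose! J a p ha hJ hout using hgood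
  set W := (V_finite c q (5 * (c + 1) * M) E).toFinset with hW
  have hcard : P.card ≤ (W ×ˢ ((Finset.univ : Finset (Finset (Fin c))) ×ˢ (Finset.Icc 1 (c + 1) ×ˢ
      (Finset.univ : Finset (Fin (c + 1)))))).card := by
    apply Finset.card_le_card_of_injOn (fun z => (conf (wx q z.1) (J z) (a z) (p z) z.2, J z, a z, p z))
    · intro z hz
      have hz' := Finset.mem_coe.1 hz
      have h1 := (Finset.mem_filter.1 hz').1
      rw [Finset.mem_product, Finset.mem_Icc] at h1
      rw [Finset.mem_coe, Finset.mem_product, Finset.mem_product, Finset.mem_product, Finset.mem_Icc]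
      refine ⟨?_, Finset.mem_univ _, ⟨ha z hz', ?_⟩, Finset.mem_univ _⟩
      · rw [hW, Set.Finite.mem_toFinset]
        exact conf_mem hq z.1 (J z) (a z) (p z) z.2 (ha z hz') (hJ z hz') h1.2.1 h1.2.2 E (hout z hz')
      · have := hJ z hz'
        simp only
        omega
    · intro z hz z' hz' h
      simp only [Prod.mk.injEq] at h
      obtain ⟨h1, h2, h3, h4⟩ := h
      rw [← h2, ← h3, ← h4] at h1
      unfold conf at h1
      have ha' := ha z (Finset.mem_coe.1 hz)
      have h5 := congrFun h1 (p z)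
      rw [Fin.insertNth_apply_same, Fin.insertNth_apply_same] at h5
      have h6 : z.2 = z'.2 := by
        have := Nat.eq_of_mul_eq_mul_right ha' h5
        omega
      have h7 : z.1 = z'.1 := by
        funext i
        have h8 := congrFun h1 ((p z).succAbove i)
        rw [Fin.insertNth_apply_succAbove, Fin.insertNth_apply_succAbove, h6] at h8
        unfold wx at h8
        apply Fin.ext
        omega
      exact Prod.ext h7 h6
  rw [Finset.card_product, Finset.card_product, Finset.card_product, Finset.card_univ, Finset.card_univ, Nat.card_Icc,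
    Fintype.card_finset, Fintype.card_fin, Fintype.card_fin, Nat.add_sub_cancel] at hcard
  have hWcard : (V c q (5 * (c + 1) * M) E).ncard = W.card := Set.ncard_eq_toFinset_card _ _
  rw [hWcard]
  refine hP.trans (hcard.trans (le_of_eq ?_))
  ring

end Pool.Agent.H491.Dep
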