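import Mathlib
import Pool.Agent.H491.Dich

set_option autoImplicit false

/-! # Tuples of multiple zeta values of distinct weights -/

namespace Pool.Agent.H491.Hit

open Pool.Agent.H447R2.MZ Filter Topology

/-- the numbers `1, ζ(w_1), …, ζ(w_r)` -/
noncomputable def fam {r : ℕ} (w : Fin r → List ℕ) : Fin (r + 1) → ℝ := Fin.cons 1 fun i => val (w i)

open scoped Classical in
/-- the tuples of admissible indices of the weights `k_1, …, k_r` for which `1, ζ(w_1), …, ζ(w_r)` are linearly
independent over the real algebraic numbers -/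
noncomputable def G {r : ℕ} (k : Fin r → ℕ) : Finset (Fin r → List ℕ) :=
  (Fintype.piFinset fun i => W (k i)).filter fun w => LinearIndependent RA (fam w)

theorem mem_G {r : ℕ} {k : Fin r → ℕ} {w : Fin r → List ℕ} :
    w ∈ G k ↔ (∀ i, Adm (w i) ∧ (w i).sum = k i) ∧ LinearIndependent RA (fam w) := by
  simp only [G, Finset.mem_filter, Fintype.mem_piFinset, mem_W]

/-- the span of the numbers `1, ζ(w_1), …, ζ(w_r)` -/
noncomputable def E {r : ℕ} (w : Fin r → List ℕ) : Submodule RA ℝ := Submodule.span RA (Set.range (fam w))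

theorem rank_E {r : ℕ} (w : Fin r → List ℕ) : Module.rank RA (E w) ≤ (r + 1 : ℕ) := by
  refine (rank_span_le _).trans ?_
  refine Cardinal.mk_range_le.trans ?_
  rw [Cardinal.mk_fin]

theorem E_le {r : ℕ} (w : Fin r → List ℕ) (k : Fin r → ℕ) (hw : ∀ i, Adm (w i) ∧ (w i).sum = k i) (n : ℕ) (hn : n ≠ 0)
    (hk : ∀ i, k i ≠ n) : E w ≤ ⨆ j ∈ {j : ℕ | j ≠ n}, V j := by
  rw [E, Submodule.span_le]
  rintro _ ⟨i, rfl⟩
  induction i using Fin.cases with
  | zero => exact (le_iSup₂_of_le (f := fun j (_ : j ∈ {j : ℕ | j ≠ n}) => V j) 0 (Ne.symm hn) le_rfl) one_mem_V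
  | succ i =>
    have h1 := val_mem_V (w i) (hw i).1
    rw [(hw i).2] at h1
    exact (le_iSup₂_of_le (f := fun j (_ : j ∈ {j : ℕ | j ≠ n}) => V j) (k i) (hk i) le_rfl) h1

theorem fam_snoc {r : ℕ} (w : Fin r → List ℕ) (x : List ℕ) :
    fam (Fin.snoc w x : Fin (r + 1) → List ℕ) = Fin.snoc (fam w) (val x) := by
  unfold fam
  rw [← Fin.cons_snoc_eq_snoc_cons]
  congr 1
  funext i
  induction i using Fin.lastCases with
  | last => simp
  | cast i => simp

theorem card_G_succ {r : ℕ} (k : Fin (r + 1) → ℕ) (hinj : Function.Injective k) (hk : k (Fin.last r) ≠ 0) (a : ℝ)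
    (ha : ∀ w : Fin r → List ℕ, Module.rank RA (E w) ≤ (r + 1 : ℕ) → E w ≤ ⨆ j ∈ {j : ℕ | j ≠ k (Fin.last r)}, V j →
      a ≤ ((outside (k (Fin.last r)) (E w)).card : ℝ)) :
    ((G (fun i : Fin r => k i.castSucc)).card : ℝ) * a ≤ ((G k).card : ℝ) := by
  classical
  set S := (G (fun i : Fin r => k i.castSucc)).sigma (fun w => outside (k (Fin.last r)) (E w)) with hS
  have h1 : S.card ≤ (G k).card := by
    apply Finset.card_le_card_of_injOn (fun x : (Σ _ : (Fin r → List ℕ), List ℕ) => (Fin.snoc x.1 x.2 : Fin (r + 1) → List ℕ))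
    · rintro ⟨w, x⟩ hx
      rw [Finset.mem_coe, hS, Finset.mem_sigma] at hx
      obtain ⟨h2, h3⟩ := hx
      simp only at h2 h3
      rw [mem_G] at h2
      rw [mem_outside] at h3
      rw [Finset.mem_coe, mem_G]
      refine ⟨?_, ?_⟩
      · intro i
        induction i using Fin.lastCases with
        | last => simpa using h3.1
        | cast i => simpa using h2.1 i
      · rw [fam_snoc, linearIndependent_finSnoc]
        exact ⟨h2.2, h3.2⟩
    · rintro ⟨w, x⟩ _ ⟨w', x'⟩ _ h
      simp only at h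
      have h2 := Fin.snoc_injective2 h
      obtain ⟨rfl, rfl⟩ := h2
      rfl
  have h2 : (S.card : ℝ) = ∑ w ∈ G (fun i : Fin r => k i.castSucc), ((outside (k (Fin.last r)) (E w)).card : ℝ) := by
    rw [hS, Finset.card_sigma]
    push_cast
    rfl
  calc ((G (fun i : Fin r => k i.castSucc)).card : ℝ) * a = ∑ w ∈ G (fun i : Fin r => k i.castSucc), a := by
        rw [Finset.sum_const, nsmul_eq_mul]
    _ ≤ ∑ w ∈ G (fun i : Fin r => k i.castSucc), ((outside (k (Fin.last r)) (E w)).card : ℝ) := by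
        apply Finset.sum_le_sum
        intro w hw
        apply ha w (rank_E w)
        rw [mem_G] at hw
        refine E_le w _ hw.1 _ hk fun i hi => ?_
        have := hinj hi
        exact (Fin.castSucc_lt_last i).ne this
    _ = (S.card : ℝ) := h2.symm
    _ ≤ _ := by exact_mod_cast h1

theorem card_G (r : ℕ) : ∃ c : ℝ, 0 < c ∧ ∃ C K : ℕ, 1 ≤ K ∧ ∀ k : Fin r → ℕ, Function.Injective k → (∀ i, K ≤ k i) →
    c * ∏ i, (2 ^ k i / (k i : ℝ) ^ C) ≤ ((G k).card : ℝ) := by
  induction r with
  | zero =>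
    refine ⟨1, one_pos, 0, 1, le_rfl, ?_⟩
    intro k _ _
    have h1 : (fun i => i.elim0) ∈ G k := by
      rw [mem_G]
      refine ⟨fun i => i.elim0, ?_⟩
      rw [fam, linearIndependent_finCons]
      refine ⟨linearIndependent_empty_type, ?_⟩
      rw [Set.range_eq_empty, Submodule.span_empty, Submodule.mem_bot]
      exact one_ne_zero
    have h2 : 1 ≤ (G k).card := Finset.card_pos.2 ⟨_, h1⟩
    simpa using h2
  | succ r ih =>
    obtain ⟨c, hc, C, K, hK, h1⟩ := ih
    obtain ⟨c', hc', C', K', hK', h2⟩ := robust (r + 1)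
    refine ⟨c * c', mul_pos hc hc', max C C', max K K', le_max_of_le_left hK, ?_⟩
    intro k hinj hk
    have hmono : ∀ (n A B : ℕ), 1 ≤ n → A ≤ B → (2 : ℝ) ^ n / (n : ℝ) ^ B ≤ 2 ^ n / (n : ℝ) ^ A := by
      intro n A B hn hAB
      have hn1 : (1 : ℝ) ≤ n := by exact_mod_cast hn
      apply div_le_div_of_nonneg_left (by positivity) (by positivity)
      exact pow_le_pow_right₀ hn1 hAB
    have h3 := h1 (fun i : Fin r => k i.castSucc) (hinj.comp (Fin.castSucc_injective r))
      (fun i => (le_max_left _ _).trans (hk _))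
    have hlast : K' ≤ k (Fin.last r) := (le_max_right _ _).trans (hk _)
    have h4 := card_G_succ k hinj (by omega) (c' * (2 ^ k (Fin.last r) / (k (Fin.last r) : ℝ) ^ C'))
      (fun w hw1 hw2 => h2 _ hlast _ hw1 hw2)
    refine le_trans ?_ h4
    rw [Fin.prod_univ_castSucc]
    have hpos : ∀ n : ℕ, 1 ≤ n → ∀ A : ℕ, (0 : ℝ) ≤ 2 ^ n / (n : ℝ) ^ A := fun n _ A => by positivity
    calc c * c' * ((∏ i : Fin r, (2 : ℝ) ^ k i.castSucc / (k i.castSucc : ℝ) ^ max C C') *
          (2 ^ k (Fin.last r) / (k (Fin.last r) : ℝ) ^ max C C'))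
        = (c * ∏ i : Fin r, (2 : ℝ) ^ k i.castSucc / (k i.castSucc : ℝ) ^ max C C') *
          (c' * (2 ^ k (Fin.last r) / (k (Fin.last r) : ℝ) ^ max C C')) := by ring
      _ ≤ (c * ∏ i : Fin r, (2 : ℝ) ^ k i.castSucc / (k i.castSucc : ℝ) ^ C) *
          (c' * (2 ^ k (Fin.last r) / (k (Fin.last r) : ℝ) ^ C')) := by
        apply mul_le_mul
        · apply mul_le_mul_of_nonneg_left _ hc.le
          apply Finset.prod_le_prod
          · intro i _
            positivity
          · intro i _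
            have := hk i.castSucc
            exact hmono _ _ _ (hK.trans ((le_max_left _ _).trans this)) (le_max_left _ _)
        · apply mul_le_mul_of_nonneg_left _ hc'.le
          exact hmono _ _ _ (hK'.trans hlast) (le_max_right _ _)
        · positivity
        · positivity
      _ ≤ _ := by
        apply mul_le_mul_of_nonneg_right h3
        positivity

end Pool.Agent.H491.Hit
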