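import Mathlib
import Pool.Agent.H491.Core
import Pool.Agent.H491.Dich

set_option autoImplicit false

/-! # Splitting words: a sharper count of the words whose stuffle product hits a set -/

namespace Pool.Agent.H491.Hit

open Pool.Agent.H447R2.MZ

/-- all ways to write a word as a stuffle of a word of weight `j` and another word -/
def split : ℕ → List ℕ → List (List ℕ × List ℕ)
  | 0, [] => [([], [])]
  | (_ + 1), [] => []
  | j, (c :: w) => (List.range (min j c + 1)).flatMap fun r =>
      (split (j - r) w).map fun x => (if r = 0 then x.1 else r :: x.1, if r = c then x.2 else (c - r) :: x.2)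

theorem mem_split_cons {j c : ℕ} {w : List ℕ} {p : List ℕ × List ℕ} : p ∈ split j (c :: w) ↔
    ∃ r, r ≤ j ∧ r ≤ c ∧ ∃ x ∈ split (j - r) w,
      p = (if r = 0 then x.1 else r :: x.1, if r = c then x.2 else (c - r) :: x.2) := by
  rw [split]
  simp only [List.mem_flatMap, List.mem_range, List.mem_map]
  constructor
  · rintro ⟨r, hr, x, hx, rfl⟩
    exact ⟨r, by omega, by omega, x, hx, rfl⟩
  · rintro ⟨r, h1, h2, x, hx, rfl⟩
    exact ⟨r, by omega, x, hx, rfl⟩

/-- the number of the splittings is at most a binomial coefficient -/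
theorem length_split (w : List ℕ) : ∀ j, (split j w).length ≤ w.sum.choose j := by
  induction w with
  | nil =>
    intro j
    rcases j with _ | j
    · simp [split]
    · simp [split]
  | cons c w ih =>
    intro j
    rw [split, List.length_flatMap, List.sum_cons]
    calc ((List.range (min j c + 1)).map fun r => ((split (j - r) w).map fun x : List ℕ × List ℕ =>
            (if r = 0 then x.1 else r :: x.1, if r = c then x.2 else (c - r) :: x.2)).length).sum
        = ∑ r ∈ Finset.range (min j c + 1), (split (j - r) w).length := by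
          simp only [List.length_map]
          rw [Finset.sum_range]
          rw [← List.sum_ofFn]
          congr 1
          rw [List.ofFn_eq_map]
          rw [← List.map_coe_finRange_eq_range, List.map_map]
          rfl
      _ ≤ ∑ r ∈ Finset.range (min j c + 1), c.choose r * w.sum.choose (j - r) := by
          refine Finset.sum_le_sum fun r hr => ?_
          have h1 : 1 ≤ c.choose r := Nat.choose_pos (by rw [Finset.mem_range] at hr; omega)
          calc (split (j - r) w).length ≤ w.sum.choose (j - r) := ih _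
            _ = 1 * w.sum.choose (j - r) := (one_mul _).symm
            _ ≤ _ := Nat.mul_le_mul_right _ h1
      _ ≤ ∑ r ∈ Finset.range (j + 1), c.choose r * w.sum.choose (j - r) := by
          apply Finset.sum_le_sum_of_subset
          intro r hr
          rw [Finset.mem_range] at hr ⊢
          omega
      _ = (c + w.sum).choose j := by
          rw [Nat.add_choose_eq, Finset.Nat.sum_antidiagonal_eq_sum_range_succ_mk]

theorem split_zero_self (t : List ℕ) (ht : ∀ a ∈ t, 1 ≤ a) : (([] : List ℕ), t) ∈ split 0 t := by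
  induction t with
  | nil => simp [split]
  | cons c t ih =>
    rw [mem_split_cons]
    have h1 : 1 ≤ c := ht c (by simp)
    refine ⟨0, le_rfl, Nat.zero_le _, ([], t), ih fun d hd => ht d (by simp [hd]), ?_⟩
    rw [if_pos rfl, if_neg (by omega), Nat.sub_zero]

theorem split_all (s : List ℕ) (hs : ∀ a ∈ s, 1 ≤ a) : (s, ([] : List ℕ)) ∈ split s.sum s := by
  induction s with
  | nil => simp [split]
  | cons c t ih =>
    rw [mem_split_cons, List.sum_cons]
    have h1 : 1 ≤ c := hs c (by simp)
    refine ⟨c, by omega, le_rfl, (t, []), ?_, ?_⟩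
    · rw [Nat.add_sub_cancel_left]
      exact ih fun d hd => hs d (by simp [hd])
    · rw [if_neg (by omega), if_pos rfl]

/-- the factors of a stuffle product are a splitting of each of its terms -/
theorem mem_split_of_st (u v : List ℕ) (hu : ∀ a ∈ u, 1 ≤ a) (hv : ∀ a ∈ v, 1 ≤ a) :
    ∀ w ∈ st u v, (u, v) ∈ split u.sum w := by
  induction u, v using st.induct with
  | case1 t =>
    intro w hw
    simp only [st, List.mem_singleton] at hw
    subst hw
    exact split_zero_self _ hv
  | case2 a s =>
    intro w hw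
    simp only [st, List.mem_singleton] at hw
    subst hw
    exact split_all _ hu
  | case3 a s b t ih1 ih2 ih3 =>
    intro w hw
    have ha : 1 ≤ a := hu a (by simp)
    have hb : 1 ≤ b := hv b (by simp)
    have hs : ∀ c ∈ s, 1 ≤ c := fun c hc => hu c (by simp [hc])
    have ht : ∀ c ∈ t, 1 ≤ c := fun c hc => hv c (by simp [hc])
    rw [st] at hw
    simp only [List.mem_append, List.mem_map] at hw
    rcases hw with (⟨x, hx, rfl⟩ | ⟨x, hx, rfl⟩) | ⟨x, hx, rfl⟩
    · rw [mem_split_cons, List.sum_cons]
      refine ⟨a, by omega, le_rfl, (s, b :: t), ?_, ?_⟩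
      · rw [Nat.add_sub_cancel_left]
        exact ih1 hs hv x hx
      · rw [if_neg (by omega), if_pos rfl]
    · rw [mem_split_cons]
      refine ⟨0, Nat.zero_le _, Nat.zero_le _, (a :: s, t), ?_, ?_⟩
      · rw [Nat.sub_zero]
        exact ih2 hu ht x hx
      · rw [if_pos rfl, if_neg (by omega), Nat.sub_zero]
    · rw [mem_split_cons, List.sum_cons]
      refine ⟨a, by omega, by omega, (s, t), ?_, ?_⟩
      · rw [Nat.add_sub_cancel_left]
        exact ih3 hs ht x hx
      · rw [if_neg (by omega), if_neg (by omega), Nat.add_sub_cancel_left]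

/-- the words that one gets from a word by taking away `j` units -/
def red (j : ℕ) (w : List ℕ) : List (List ℕ) := (split j w).map Prod.snd

theorem length_red (w : List ℕ) (j : ℕ) : (red j w).length ≤ w.sum.choose j := by
  rw [red, List.length_map]
  exact length_split w j

theorem red_nil_zero : red 0 [] = [[]] := by simp [red, split]

theorem red_nil_succ (j : ℕ) : red (j + 1) [] = [] := by simp [red, split]

theorem mem_red_cons {j c : ℕ} {w u : List ℕ} : u ∈ red j (c :: w) ↔
    ∃ r, r ≤ j ∧ r ≤ c ∧ ∃ x ∈ red (j - r) w, u = if r = c then x else (c - r) :: x := by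
  simp only [red, List.mem_map]
  constructor
  · rintro ⟨p, hp, rfl⟩
    rw [mem_split_cons] at hp
    obtain ⟨r, h1, h2, x, hx, rfl⟩ := hp
    exact ⟨r, h1, h2, x.2, ⟨x, hx, rfl⟩, rfl⟩
  · rintro ⟨r, h1, h2, _, ⟨x, hx, rfl⟩, rfl⟩
    exact ⟨_, mem_split_cons.2 ⟨r, h1, h2, x, hx, rfl⟩, rfl⟩

theorem red_zero_self (t : List ℕ) (ht : ∀ a ∈ t, 1 ≤ a) : t ∈ red 0 t :=
  List.mem_map.2 ⟨_, split_zero_self t ht, rfl⟩

theorem red_of_st (u v : List ℕ) (hu : ∀ a ∈ u, 1 ≤ a) (hv : ∀ a ∈ v, 1 ≤ a) : ∀ w ∈ st u v, v ∈ red u.sum w :=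
  fun w hw => List.mem_map.2 ⟨_, mem_split_of_st u v hu hv w hw, rfl⟩

theorem red_trans (w : List ℕ) : ∀ (i j : ℕ) (x y : List ℕ), x ∈ red i w → y ∈ red j x → y ∈ red (i + j) w := by
  induction w with
  | nil =>
    intro i j x y hx hy
    rcases i with _ | i
    · rw [red_nil_zero, List.mem_singleton] at hx
      subst hx
      rwa [Nat.zero_add]
    · rw [red_nil_succ] at hx
      simp at hx
  | cons c w ih =>
    intro i j x y hx hy
    rw [mem_red_cons] at hx
    obtain ⟨r, h1, h2, x', hx', rfl⟩ := hx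
    by_cases h : r = c
    · rw [if_pos h] at hy
      rw [mem_red_cons]
      refine ⟨r, by omega, h2, y, ?_, ?_⟩
      · have e : i + j - r = i - r + j := by omega
        rw [e]
        exact ih _ _ _ _ hx' hy
      · rw [if_pos h]
    · rw [if_neg h, mem_red_cons] at hy
      obtain ⟨s, h3, h4, y', hy', rfl⟩ := hy
      rw [mem_red_cons]
      refine ⟨r + s, by omega, by omega, y', ?_, ?_⟩
      · have e : i + j - (r + s) = i - r + (j - s) := by omega
        rw [e]
        exact ih _ _ _ _ hx' hy'
      · by_cases h5 : s = c - r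
        · rw [if_pos h5, if_pos (by omega)]
        · rw [if_neg h5, if_neg (by omega), Nat.sub_sub]

/-- iterated products; `C` is a property of words with a parameter that grows by the products -/
theorem iter (C : ℕ → List ℕ → Prop) (P : List (List ℕ)) (hP : ∀ x ∈ P, Adm x)
    (hC : ∀ x ∈ P, ∀ j u w, C j u → w ∈ st x u → C (j + x.length) w) (u : List ℕ) (hu : Adm u) (j : ℕ) (hj : C j u) :
    ∃ l : List (List ℕ), (∀ w ∈ l, Adm w ∧ w.sum = (P.map List.sum).sum + u.sum ∧ u ∈ red (P.map List.sum).sum w ∧
      C (j + (P.map List.length).sum) w) ∧ (l.map val).sum = (P.map val).prod * val u := by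
  induction P with
  | nil =>
    refine ⟨[u], ?_, by simp⟩
    intro w hw
    rw [List.mem_singleton] at hw
    subst hw
    exact ⟨hu, by simp, red_zero_self w hu.1, hj⟩
  | cons a P ih =>
    obtain ⟨l, h1, h2⟩ := ih (fun b hb => hP b (by simp [hb])) (fun b hb => hC b (by simp [hb]))
    have ha : Adm a := hP a (by simp)
    refine ⟨l.flatMap fun w => st a w, ?_, ?_⟩
    · intro w hw
      rw [List.mem_flatMap] at hw
      obtain ⟨v, hv, hw⟩ := hw
      obtain ⟨hv1, hv2, hv3, hv4⟩ := h1 v hv
      refine ⟨st_adm a v ha hv1 w hw, ?_, ?_, ?_⟩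
      · rw [st_sum a v w hw, hv2, List.map_cons, List.sum_cons]
        ring
      · rw [List.map_cons, List.sum_cons]
        exact red_trans w _ _ v u (red_of_st a v ha.1 hv1.1 w hw) hv3
      · have h3 := hC a (by simp) _ v w hv4 hw
        rw [List.map_cons, List.sum_cons]
        have e : j + (a.length + (P.map List.length).sum) = j + (P.map List.length).sum + a.length := by ring
        rw [e]
        exact h3
    · rw [List.map_cons, List.prod_cons, mul_assoc, ← h2, ← List.sum_map_mul_left]
      have key : ∀ l : List (List ℕ), (∀ w ∈ l, Adm w) →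
          ((l.flatMap fun w => st a w).map val).sum = (l.map fun w => val a * val w).sum := by
        intro l hl
        induction l with
        | nil => simp
        | cons w l ih =>
          simp only [List.flatMap_cons, List.map_append, List.sum_append, List.map_cons, List.sum_cons]
          rw [ih fun x hx => hl x (by simp [hx]), val_mul a w ha (hl w (by simp))]
      exact key l fun w hw => (h1 w hw).1

/-- the products of a word with the powers of a fixed word and of `π` hit the complement of a small space -/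
theorem hit {v : List ℕ} (hv : Adm v) (hθ : val v / Real.pi ^ v.sum ∉ RA) (e : ℕ) (E : Submodule RA ℝ)
    (hE : Module.rank RA E ≤ e) (C : ℕ → List ℕ → Prop) (hmono : ∀ i j w, i ≤ j → C i w → C j w)
    (hC : ∀ i, i ≤ e → ∀ x ∈ PL v e i, ∀ j u w, C j u → w ∈ st x u → C (j + x.length) w)
    (u : List ℕ) (hu : Adm u) (hu0 : C 0 u) :
    ∃ w, Adm w ∧ w.sum = 2 * (v.sum * e) + u.sum ∧ C (2 * e * v.length + 1) w ∧ val w ∉ E ∧
      u ∈ red (2 * (v.sum * e)) w := by
  by_contra hcon
  push Not at hcon
  have hs := sum_pos_of_notMem hv hθ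
  have hθ2 : (val v / Real.pi ^ v.sum) ^ 2 ∉ RA := by
    intro h
    apply hθ
    rw [mem_RA] at h ⊢
    exact IsAlgebraic.of_pow (by norm_num) h
  have hval : ∀ i : Fin (e + 1), ((PL v e i).map val).prod * val u ∈ E := by
    intro i
    have hi : (i : ℕ) ≤ e := by omega
    obtain ⟨l, h1, h2⟩ := iter C (PL v e i) (PL_adm v hv hs e i) (hC i hi) u hu 0 hu0
    rw [← h2]
    refine list_sum_mem ?_
    intro x hx
    obtain ⟨w, hw, rfl⟩ := List.mem_map.1 hx
    obtain ⟨hw1, hw2, hw3, hw4⟩ := h1 w hw
    rw [PL_sum v e i hi] at hw2 hw3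
    by_contra hw5
    refine hcon w hw1 hw2 (hmono _ _ w ?_ hw4) hw5 hw3
    rw [Nat.zero_add]
    exact PL_length v e i hi
  choose q hq hqv using fun i : Fin (e + 1) => PL_val v hs e i (by omega)
  have hlin : LinearIndependent RA (fun i : Fin (e + 1) => (⟨_, hval i⟩ : E)) := by
    rw [← LinearMap.linearIndependent_iff E.subtype (by simp)]
    have h1 := linInd_scaled hθ2 (Real.pi ^ (2 * (v.sum * e)) * val u)
      (mul_ne_zero (pow_ne_zero _ Real.pi_ne_zero) (val_pos u hu).ne') (e + 1) q hq
    have e1 : (E.subtype ∘ fun i : Fin (e + 1) => (⟨_, hval i⟩ : E)) = fun i : Fin (e + 1) =>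
        (q i : ℝ) * (Real.pi ^ (2 * (v.sum * e)) * val u) * ((val v / Real.pi ^ v.sum) ^ 2) ^ (i : ℕ) := by
      funext i
      simp only [Function.comp, Submodule.subtype_apply]
      rw [hqv i]
      ring
    rw [e1]
    exact h1
  have h2 := hlin.cardinal_le_rank
  have h3 : ((e + 1 : ℕ) : Cardinal) ≤ (e : ℕ) := by
    have := h2.trans hE
    rwa [Cardinal.mk_fin] at this
  have h4 : e + 1 ≤ e := by exact_mod_cast h3
  omega

/-- the sharper counting estimate -/
theorem core2 {v : List ℕ} (hv : Adm v) (hθ : val v / Real.pi ^ v.sum ∉ RA) (e k : ℕ) (E : Submodule RA ℝ)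
    (hE : Module.rank RA E ≤ e) (C : ℕ → List ℕ → Prop) (hmono : ∀ i j w, i ≤ j → C i w → C j w)
    (hC : ∀ i, i ≤ e → ∀ x ∈ PL v e i, ∀ j u w, C j u → w ∈ st x u → C (j + x.length) w)
    (U : Finset (List ℕ)) (hU : ∀ u ∈ U, Adm u ∧ u.sum + 2 * (v.sum * e) = k ∧ C 0 u)
    (B : Finset (List ℕ)) (hBk : ∀ w ∈ B, w.sum = k)
    (hB : ∀ w, Adm w → w.sum = k → C (2 * e * v.length + 1) w → w ∉ B → val w ∈ E) :
    U.card ≤ k.choose (2 * (v.sum * e)) * B.card := by
  classical
  have key : U ⊆ B.biUnion fun x => (red (2 * (v.sum * e)) x).toFinset := by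
    intro u hu
    obtain ⟨h1, h2, h3⟩ := hU u hu
    obtain ⟨w, hw1, hw2, hw3, hw4, hw5⟩ := hit hv hθ e E hE C hmono hC u h1 h3
    rw [Finset.mem_biUnion]
    refine ⟨w, ?_, List.mem_toFinset.2 hw5⟩
    by_contra hw6
    exact hw4 (hB w hw1 (by omega) hw3 hw6)
  refine (Finset.card_le_card key).trans ((Finset.card_biUnion_le_card_mul _ _ (k.choose (2 * (v.sum * e))) ?_).trans_eq ?_)
  · intro x hx
    refine (List.toFinset_card_le _).trans ?_
    have h1 := length_red x (2 * (v.sum * e))
    rwa [hBk x hx] at h1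
  · ring

/-- the estimate for all words -/
theorem outside_card2 {v : List ℕ} (hv : Adm v) (hθ : val v / Real.pi ^ v.sum ∉ RA) (e k : ℕ)
    (hk : 2 * (v.sum * e) + 2 ≤ k) (E : Submodule RA ℝ) (hE : Module.rank RA E ≤ e) :
    2 ^ (k - 2 * (v.sum * e) - 2) ≤ k.choose (2 * (v.sum * e)) * (outside k E).card := by
  refine (card_W (k - 2 * (v.sum * e)) (by omega)).trans ?_
  refine core2 hv hθ e k E hE (fun _ _ => True) (fun _ _ _ _ _ => trivial) (fun _ _ _ _ _ _ _ _ _ => trivial)
    (W (k - 2 * (v.sum * e))) ?_ (outside k E) (fun w hw => (mem_outside.1 hw).1.2) ?_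
  · intro u hu
    obtain ⟨h1, h2⟩ := mem_W.1 hu
    exact ⟨h1, by omega, trivial⟩
  · intro w hw1 hw2 _ hw3
    by_contra hcon
    exact hw3 (mem_outside.2 ⟨⟨hw1, hw2⟩, hcon⟩)

end Pool.Agent.H491.Hit
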