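import Mathlib
import Pool.Agent.H491.Red

set_option autoImplicit false

/-! # Weights of the same parity -/

namespace Pool.Agent.H491.Hit

open Pool.Agent.H447R2.MZ

/-- the words that one gets from a word by subtracting `a` from one letter -/
def del1 (a : ℕ) : List ℕ → List (List ℕ)
  | [] => []
  | (c :: w) => (if a ≤ c then [if a = c then w else (c - a) :: w] else []) ++ (del1 a w).map (List.cons c)

theorem length_del1 (a : ℕ) (w : List ℕ) : (del1 a w).length * a ≤ w.sum := by
  induction w with
  | nil => simp [del1]
  | cons c w ih =>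
    rw [del1, List.length_append, List.length_map, List.sum_cons, add_mul]
    split_ifs with h h'
    · simp only [List.length_singleton, one_mul]
      omega
    · simp only [List.length_singleton, one_mul]
      omega
    · simp only [List.length_nil, zero_mul]
      omega

theorem mem_del1 (a : ℕ) (u : List ℕ) (hu : ∀ b ∈ u, 1 ≤ b) : ∀ w ∈ st [a] u, u ∈ del1 a w := by
  induction u with
  | nil =>
    intro w hw
    simp only [st, List.mem_singleton] at hw
    subst hw
    simp [del1]
  | cons b t ih =>
    intro w hw
    have hb : 1 ≤ b := hu b (by simp)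
    have ht : ∀ c ∈ t, 1 ≤ c := fun c hc => hu c (by simp [hc])
    rw [st] at hw
    simp only [List.mem_append, List.mem_map] at hw
    rcases hw with (⟨x, hx, rfl⟩ | ⟨x, hx, rfl⟩) | ⟨x, hx, rfl⟩
    · simp only [st, List.mem_singleton] at hx
      subst hx
      rw [del1, List.mem_append]
      left
      rw [if_pos le_rfl, if_pos rfl]
      simp
    · rw [del1, List.mem_append]
      right
      exact List.mem_map.2 ⟨t, ih ht x hx, rfl⟩
    · simp only [st, List.mem_singleton] at hx
      subst hx
      rw [del1, List.mem_append]
      left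
      rw [if_pos (by omega), if_neg (by omega), Nat.add_sub_cancel_left]
      simp

theorem card_del1 (a k : ℕ) (ha : 1 ≤ a) (w : List ℕ) (hw : w.sum = k) : (del1 a w).toFinset.card ≤ k / a := by
  rw [Nat.le_div_iff_mul_le ha, ← hw]
  exact (Nat.mul_le_mul_right a (List.toFinset_card_le _)).trans (length_del1 a w)

/-- the products of a word with powers of `π` -/
theorem window (e : ℕ) (E : Submodule RA ℝ) (hE : Module.rank RA E ≤ e) (k : ℕ) (a : Fin e → ℕ)
    (ha : Function.Injective a) (ha1 : ∀ i, 1 ≤ a i) :
    (W k).card ≤ (outside k E).card + ∑ i, (k + 2 * a i) / (2 * a i) * (outside (k + 2 * a i) E).card := by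
  classical
  have key : W k ⊆ outside k E ∪ Finset.univ.biUnion fun i : Fin e =>
      (outside (k + 2 * a i) E).biUnion fun w => (del1 (2 * a i) w).toFinset := by
    intro u hu
    rw [mem_W] at hu
    obtain ⟨hu1, hu2⟩ := hu
    by_contra hcon
    rw [Finset.mem_union, not_or, Finset.mem_biUnion] at hcon
    obtain ⟨h1, h2⟩ := hcon
    push Not at h2
    have hu0 : val u ∈ E := by
      by_contra h
      exact h1 (mem_outside.2 ⟨⟨hu1, hu2⟩, h⟩)
    have hi : ∀ i : Fin e, val [2 * a i] * val u ∈ E := by
      intro i
      have hadm : Adm [2 * a i] := adm_single _ (by have := ha1 i; omega)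
      rw [val_mul _ u hadm hu1]
      refine list_sum_mem ?_
      intro x hx
      obtain ⟨w, hw, rfl⟩ := List.mem_map.1 hx
      by_contra hwE
      apply h2 i (Finset.mem_univ i)
      rw [Finset.mem_biUnion]
      refine ⟨w, mem_outside.2 ⟨⟨st_adm _ u hadm hu1 w hw, ?_⟩, hwE⟩, ?_⟩
      · rw [st_sum _ u w hw, hu2]
        simp only [List.sum_cons, List.sum_nil]
        omega
      · rw [List.mem_toFinset]
        exact mem_del1 _ u hu1.1 w hw
    choose q hq hqv using fun i : Fin e => val_even (a i) (by have := ha1 i; omega)
    -- the family of `e + 1` elements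
    let b : Fin (e + 1) → ℕ := Fin.cons 0 a
    let p : Fin (e + 1) → ℚ := Fin.cons 1 q
    have hb : Function.Injective b := by
      rw [Fin.cons_injective_iff]
      refine ⟨?_, ha⟩
      rintro ⟨i, hi⟩
      have := ha1 i
      omega
    have hp : ∀ i, p i ≠ 0 := by
      intro i
      induction i using Fin.cases with
      | zero => exact one_ne_zero
      | succ i => exact hq i
    have hmem : ∀ i : Fin (e + 1), (p i : ℝ) * Real.pi ^ (2 * b i) * val u ∈ E := by
      intro i
      induction i using Fin.cases with
      | zero => simpa [p, b] using hu0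
      | succ i =>
        have := hi i
        rw [hqv i] at this
        exact this
    have hlin : LinearIndependent RA (fun i : Fin (e + 1) => (⟨_, hmem i⟩ : E)) := by
      rw [← LinearMap.linearIndependent_iff E.subtype (by simp)]
      have hpi : Real.pi ∉ RA := by
        have := pi_pow_notMem 1 one_ne_zero
        rwa [pow_one] at this
      have h3 : LinearIndependent RA (fun i : Fin (e + 1) => Real.pi ^ (2 * b i)) :=
        (linInd_pow hpi).comp (fun i => 2 * b i) fun i j h => hb (by simp only at h; omega)
      rw [Fintype.linearIndependent_iff] at h3 ⊢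
      intro g hg i
      have hqr : ∀ j, ((p j : ℚ) : ℝ) ∈ RA := fun j => mem_RA.2 (isAlgebraic_algebraMap (R := ℚ) (A := ℝ) (p j))
      have h4 := h3 (fun j => g j * ⟨(p j : ℝ), hqr j⟩) (by
        have e1 : ∑ j : Fin (e + 1), (g j * (⟨(p j : ℝ), hqr j⟩ : RA)) • Real.pi ^ (2 * b j) =
            (val u)⁻¹ * ∑ j : Fin (e + 1), g j • (E.subtype ∘ fun i : Fin (e + 1) => (⟨_, hmem i⟩ : E)) j := by
          rw [Finset.mul_sum]
          refine Finset.sum_congr rfl fun j _ => ?_
          simp only [Function.comp, Submodule.subtype_apply]
          rw [IntermediateField.smul_def, IntermediateField.smul_def]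
          simp only [smul_eq_mul, MulMemClass.coe_mul]
          have := (val_pos u hu1).ne'
          field_simp
        rw [e1, hg, mul_zero]) i
      rcases mul_eq_zero.1 h4 with h5 | h5
      · exact h5
      · exfalso
        have h6 := congrArg (fun x : RA => (x : ℝ)) h5
        simp only [ZeroMemClass.coe_zero, Rat.cast_eq_zero] at h6
        exact hp i h6
    have h3 := hlin.cardinal_le_rank
    have h4 : ((e + 1 : ℕ) : Cardinal) ≤ (e : ℕ) := by
      have := h3.trans hE
      rwa [Cardinal.mk_fin] at this
    have h5 : e + 1 ≤ e := by exact_mod_cast h4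
    omega
  refine (Finset.card_le_card key).trans ((Finset.card_union_le _ _).trans ?_)
  refine Nat.add_le_add_left (Finset.card_biUnion_le.trans (Finset.sum_le_sum fun i _ => ?_)) _
  refine (Finset.card_biUnion_le_card_mul _ _ ((k + 2 * a i) / (2 * a i)) ?_).trans_eq (mul_comm _ _)
  intro w hw
  exact card_del1 _ _ (by have := ha1 i; omega) w (mem_outside.1 hw).1.2

end Pool.Agent.H491.Hit
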