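import Mathlib
import Pool.Agent.H491.Win

set_option autoImplicit false

/-! # Many transcendental multiple zeta values in every weight -/

namespace Pool.Agent.H491.Hit

open Pool.Agent.H447R2.MZ

/-- a space of dimension at most one -/
theorem ratio_mem (L : Submodule RA ℝ) (hL : Module.rank RA L ≤ 1) {x y : ℝ} (hx : x ∈ L) (hy : y ∈ L) (hx0 : x ≠ 0) :
    ∃ a : RA, y = a • x := by
  rw [rank_le_one_iff] at hL
  obtain ⟨v, hv⟩ := hL
  obtain ⟨r, hr⟩ := hv ⟨x, hx⟩
  obtain ⟨s, hs⟩ := hv ⟨y, hy⟩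
  have hr' : r • (v : ℝ) = x := congrArg Subtype.val hr
  have hs' : s • (v : ℝ) = y := congrArg Subtype.val hs
  have hr0 : r ≠ 0 := by
    rintro rfl
    rw [zero_smul] at hr'
    exact hx0 hr'.symm
  refine ⟨s * r⁻¹, ?_⟩
  rw [← hr', ← hs', smul_smul, mul_assoc, inv_mul_cancel₀ hr0, mul_one]

/-- products with one even letter -/
theorem cardA (L : Submodule RA ℝ) (k b j : ℕ) (hb : 1 ≤ b) (hj : j + 2 * b = k)
    [DecidablePred fun u : List ℕ => val u * Real.pi ^ (2 * b) ∉ L] :
    ((W j).filter fun u => val u * Real.pi ^ (2 * b) ∉ L).card ≤ k / (2 * b) * (outside k L).card := by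
  classical
  have key : ((W j).filter fun u => val u * Real.pi ^ (2 * b) ∉ L) ⊆
      (outside k L).biUnion fun w => (del1 (2 * b) w).toFinset := by
    intro u hu
    rw [Finset.mem_filter, mem_W] at hu
    obtain ⟨⟨hu1, hu2⟩, hu3⟩ := hu
    by_contra hcon
    rw [Finset.mem_biUnion] at hcon
    push Not at hcon
    apply hu3
    obtain ⟨q, hq, hqv⟩ := val_even b (by omega)
    have hadm : Adm [2 * b] := adm_single _ (by omega)
    have h1 : val [2 * b] * val u ∈ L := by
      rw [val_mul _ u hadm hu1]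
      refine list_sum_mem ?_
      intro x hx
      obtain ⟨w, hw, rfl⟩ := List.mem_map.1 hx
      by_contra hwE
      refine hcon w (mem_outside.2 ⟨⟨st_adm _ u hadm hu1 w hw, ?_⟩, hwE⟩) ?_
      · rw [st_sum _ u w hw, hu2]
        simp only [List.sum_cons, List.sum_nil]
        omega
      · rw [List.mem_toFinset]
        exact mem_del1 _ u hu1.1 w hw
    have hqr : ((q⁻¹ : ℚ) : ℝ) ∈ RA := mem_RA.2 (isAlgebraic_algebraMap (R := ℚ) (A := ℝ) (q⁻¹))
    have h2 := L.smul_mem (⟨_, hqr⟩ : RA) h1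
    rw [IntermediateField.smul_def, smul_eq_mul, hqv] at h2
    have hq' : (q : ℝ) ≠ 0 := by exact_mod_cast hq
    have e : ((q⁻¹ : ℚ) : ℝ) * ((q : ℝ) * Real.pi ^ (2 * b) * val u) = val u * Real.pi ^ (2 * b) := by
      push_cast
      field_simp
    rwa [e] at h2
  refine (Finset.card_le_card key).trans ((Finset.card_biUnion_le_card_mul _ _ (k / (2 * b)) ?_).trans_eq (mul_comm _ _))
  intro w hw
  exact card_del1 _ _ (by omega) w (mem_outside.1 hw).1.2

/-- products with the letter `3` and one even letter -/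
theorem cardB (L : Submodule RA ℝ) (k b j : ℕ) (hb : 1 ≤ b) (hj : j + 3 + 2 * b = k)
    [DecidablePred fun u : List ℕ => val u * val [3] * Real.pi ^ (2 * b) ∉ L] :
    ((W j).filter fun u => val u * val [3] * Real.pi ^ (2 * b) ∉ L).card ≤ k * k * (outside k L).card := by
  classical
  have key : ((W j).filter fun u => val u * val [3] * Real.pi ^ (2 * b) ∉ L) ⊆
      ((W (j + 3)).filter fun u => val u * Real.pi ^ (2 * b) ∉ L).biUnion fun w => (del1 3 w).toFinset := by
    intro u hu
    rw [Finset.mem_filter, mem_W] at hu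
    obtain ⟨⟨hu1, hu2⟩, hu3⟩ := hu
    by_contra hcon
    rw [Finset.mem_biUnion] at hcon
    push Not at hcon
    apply hu3
    have hadm : Adm [3] := adm_single _ (by norm_num)
    have e : val u * val [3] * Real.pi ^ (2 * b) = ((st [3] u).map fun w => val w * Real.pi ^ (2 * b)).sum := by
      rw [List.sum_map_mul_right, ← val_mul _ u hadm hu1]
      ring
    rw [e]
    refine list_sum_mem ?_
    intro x hx
    obtain ⟨w, hw, rfl⟩ := List.mem_map.1 hx
    by_contra hwE
    refine hcon w (Finset.mem_filter.2 ⟨mem_W.2 ⟨st_adm _ u hadm hu1 w hw, ?_⟩, hwE⟩) ?_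
    · rw [st_sum _ u w hw, hu2]
      simp only [List.sum_cons, List.sum_nil]
      omega
    · rw [List.mem_toFinset]
      exact mem_del1 _ u hu1.1 w hw
  refine (Finset.card_le_card key).trans ((Finset.card_biUnion_le_card_mul _ _ k ?_).trans ?_)
  · intro w hw
    rw [Finset.mem_filter, mem_W] at hw
    refine (card_del1 3 (j + 3) (by norm_num) w hw.1.2).trans ?_
    exact (Nat.div_le_self _ _).trans (by omega)
  · have h1 := cardA L k b (j + 3) hb hj
    have h2 : k / (2 * b) ≤ k := Nat.div_le_self _ _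
    calc _ ≤ (k / (2 * b) * (outside k L).card) * k := Nat.mul_le_mul_right _ h1
      _ ≤ (k * (outside k L).card) * k := Nat.mul_le_mul_right _ (Nat.mul_le_mul_right _ h2)
      _ = _ := by ring

/-- pairs of words all of whose products hit a set -/
theorem card_pairs (j k : ℕ) (U V T : Finset (List ℕ)) (hU : ∀ u ∈ U, Adm u ∧ u.sum = j) (hV : ∀ v ∈ V, Adm v)
    (hT : ∀ w ∈ T, w.sum = k) (h : ∀ u ∈ U, ∀ v ∈ V, ∃ w ∈ st u v, w ∈ T) : U.card * V.card ≤ k.choose j * T.card := by
  classical
  have key : U ×ˢ V ⊆ T.biUnion fun w => (split j w).toFinset := by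
    rintro ⟨u, v⟩ huv
    rw [Finset.mem_product] at huv
    obtain ⟨hu, hv⟩ := huv
    obtain ⟨w, hw, hwT⟩ := h u hu v hv
    rw [Finset.mem_biUnion]
    refine ⟨w, hwT, ?_⟩
    rw [List.mem_toFinset]
    have h1 := mem_split_of_st u v (hU u hu).1.1 (hV v hv).1 w hw
    rwa [(hU u hu).2] at h1
  rw [← Finset.card_product]
  refine (Finset.card_le_card key).trans ((Finset.card_biUnion_le_card_mul _ _ (k.choose j) ?_).trans_eq (mul_comm _ _))
  intro w hw
  refine (List.toFinset_card_le _).trans ?_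
  have h1 := length_split w j
  rwa [hT w hw] at h1

/-- the rank one argument -/
theorem exists_hit (L : Submodule RA ℝ) (hL : Module.rank RA L ≤ 1) (k j : ℕ) (hjk : j ≤ k) (hk : Real.pi ^ k ∉ L)
    (u v : List ℕ) (hu : Adm u) (hv : Adm v) (hus : u.sum = j) (hvs : v.sum = k - j)
    (h1 : val u * Real.pi ^ (k - j) ∈ L) (h2 : val v * Real.pi ^ j ∈ L) : ∃ w ∈ st u v, w ∈ outside k L := by
  by_contra hcon
  push Not at hcon
  have h3 : val u * val v ∈ L := by
    rw [val_mul u v hu hv]
    refine list_sum_mem ?_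
    intro x hx
    obtain ⟨w, hw, rfl⟩ := List.mem_map.1 hx
    by_contra hwE
    refine hcon w hw (mem_outside.2 ⟨⟨st_adm u v hu hv w hw, ?_⟩, hwE⟩)
    rw [st_sum u v w hw]
    omega
  have hu0 := (val_pos u hu).ne'
  have hv0 := (val_pos v hv).ne'
  obtain ⟨a, ha⟩ := ratio_mem L hL h3 h1 (mul_ne_zero hu0 hv0)
  rw [IntermediateField.smul_def, smul_eq_mul] at ha
  have h4 : Real.pi ^ (k - j) = a * val v := by
    have : val u * Real.pi ^ (k - j) = val u * (a * val v) := by rw [ha]; ring
    exact mul_left_cancel₀ hu0 this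
  apply hk
  have h5 : Real.pi ^ k = a • (val v * Real.pi ^ j) := by
    rw [IntermediateField.smul_def, smul_eq_mul]
    calc Real.pi ^ k = Real.pi ^ (k - j) * Real.pi ^ j := by rw [← pow_add]; congr 1; omega
      _ = _ := by rw [h4]; ring
  rw [h5]
  exact L.smul_mem a h2

/-- the counting argument, if there are few exceptions on both sides -/
theorem count (L : Submodule RA ℝ) (hL : Module.rank RA L ≤ 1) (k j c : ℕ) (hj : 2 ≤ j) (hjk : 2 * j ≤ k)
    (hk : Real.pi ^ k ∉ L) [DecidablePred fun u : List ℕ => val u * Real.pi ^ (k - j) ∉ L]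
    [DecidablePred fun u : List ℕ => val u * Real.pi ^ j ∉ L]
    (hA : ((W j).filter fun u => val u * Real.pi ^ (k - j) ∉ L).card ≤ 2 * (outside k L).card)
    (hB : ((W (k - j)).filter fun u => val u * Real.pi ^ j ∉ L).card ≤ c * (outside k L).card)
    (hc : c * 2 ^ j ≤ 2 ^ (k - j)) : 2 ^ j ≤ 16 * (outside k L).card ∨ 2 ^ k ≤ 64 * (k.choose j * (outside k L).card) := by
  classical
  by_contra hcon
  push Not at hcon
  obtain ⟨h1, h2⟩ := hcon
  set T := (outside k L).card with hT
  have hWj := card_W j hj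
  have hWk := card_W (k - j) (by omega)
  have e1 : 2 ^ j = 4 * 2 ^ (j - 2) := by
    conv_lhs => rw [show j = (j - 2) + 2 by omega, pow_add]
    ring
  have e2 : 2 ^ (k - j) = 4 * 2 ^ (k - j - 2) := by
    conv_lhs => rw [show k - j = (k - j - 2) + 2 by omega, pow_add]
    ring
  have e3 : 2 ^ k = 2 ^ j * 2 ^ (k - j) := by
    rw [← pow_add]
    congr 1
    omega
  set U := (W j).filter fun u => val u * Real.pi ^ (k - j) ∈ L with hU
  set V := (W (k - j)).filter fun u => val u * Real.pi ^ j ∈ L with hV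
  have hUc : 2 ^ j ≤ 8 * U.card := by
    have h3 := Finset.card_filter_add_card_filter_not (s := W j) (fun u => val u * Real.pi ^ (k - j) ∈ L)
    have h4 : ((W j).filter fun u => ¬ val u * Real.pi ^ (k - j) ∈ L).card ≤ 2 * T := by
      convert hA
    have h5 : U.card + 2 * T ≥ (W j).card := by
      rw [← h3]
      exact Nat.add_le_add_left h4 _
    omega
  have hVc : 2 ^ (k - j) ≤ 8 * V.card := by
    have h3 := Finset.card_filter_add_card_filter_not (s := W (k - j)) (fun u => val u * Real.pi ^ j ∈ L)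
    have h4 : ((W (k - j)).filter fun u => ¬ val u * Real.pi ^ j ∈ L).card ≤ c * T := by
      convert hB
    have h5 : V.card + c * T ≥ (W (k - j)).card := by
      rw [← h3]
      exact Nat.add_le_add_left h4 _
    have h6 : 16 * (c * T) ≤ c * 2 ^ j := by
      calc 16 * (c * T) = c * (16 * T) := by ring
        _ ≤ c * 2 ^ j := Nat.mul_le_mul_left _ h1.le
    omega
  have h7 := card_pairs j k U V (outside k L) (fun u hu => mem_W.1 (Finset.mem_filter.1 hu).1)
    (fun v hv => (mem_W.1 (Finset.mem_filter.1 hv).1).1) (fun w hw => (mem_outside.1 hw).1.2) (fun u hu v hv => by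
      rw [hU, Finset.mem_filter, mem_W] at hu
      rw [hV, Finset.mem_filter, mem_W] at hv
      exact exists_hit L hL k j (by omega) hk u v hu.1.1 hv.1.1 hu.1.2 hv.1.2 hu.2 hv.2)
  have h8 : 2 ^ k ≤ 64 * (U.card * V.card) := by
    rw [e3]
    calc 2 ^ j * 2 ^ (k - j) ≤ (8 * U.card) * (8 * V.card) := Nat.mul_le_mul hUc hVc
      _ = _ := by ring
  have h9 : 64 * (U.card * V.card) ≤ 64 * (k.choose j * T) := Nat.mul_le_mul_left _ h7
  omega

end Pool.Agent.H491.Hit
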