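import Mathlib
import Pool.Agent.H491.Eff

set_option autoImplicit false

/-! # Many transcendental multiple zeta values in every weight: the final estimate -/

namespace Pool.Agent.H491.Hit

open Pool.Agent.H447R2.MZ

theorem choose_bd (k j : ℕ) (h : j ≤ k) : k.choose j * 4 ^ (k - j) ≤ 5 ^ k := by
  have h1 : (4 + 1) ^ k = ∑ i ∈ Finset.range (k + 1), 4 ^ i * 1 ^ (k - i) * k.choose i := add_pow 4 1 k
  have h2 : 4 ^ (k - j) * 1 ^ (k - (k - j)) * k.choose (k - j) ≤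
      ∑ i ∈ Finset.range (k + 1), 4 ^ i * 1 ^ (k - i) * k.choose i :=
    Finset.single_le_sum (f := fun i => 4 ^ i * 1 ^ (k - i) * k.choose i) (fun _ _ => Nat.zero_le _)
      (Finset.mem_range.2 (by omega))
  rw [← h1, one_pow, mul_one, Nat.choose_symm h] at h2
  rw [mul_comm]
  exact h2

theorem num1 (q : ℕ) (h : 3 ≤ q) : 2 * 25000 ^ q ≤ 32768 ^ q := by
  induction q, h using Nat.le_induction with
  | base => norm_num
  | succ q _ ih =>
    rw [pow_succ, pow_succ]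
    calc 2 * (25000 ^ q * 25000) = (2 * 25000 ^ q) * 25000 := by ring
      _ ≤ 32768 ^ q * 25000 := Nat.mul_le_mul_right _ ih
      _ ≤ _ := Nat.mul_le_mul_left _ (by norm_num)

theorem num2 (q : ℕ) (h : 7 ≤ q) : 2 ^ 15 * 6250 ^ q ≤ 32768 ^ q := by
  induction q, h using Nat.le_induction with
  | base => norm_num
  | succ q _ ih =>
    rw [pow_succ, pow_succ]
    calc 2 ^ 15 * (6250 ^ q * 6250) = (2 ^ 15 * 6250 ^ q) * 6250 := by ring
      _ ≤ 32768 ^ q * 6250 := Nat.mul_le_mul_right _ ih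
      _ ≤ _ := Nat.mul_le_mul_left _ (by norm_num)

theorem num3 (t : ℕ) (h : 8 ≤ t) : 4 * t ^ 2 ≤ 2 ^ t := by
  induction t, h using Nat.le_induction with
  | base => norm_num
  | succ t h ih =>
    rw [pow_succ 2 t]
    nlinarith

theorem split5 (k : ℕ) : k = 5 * (k / 5) + k % 5 := (Nat.div_add_mod k 5).symm

theorem num4 (k : ℕ) (h : 15 ≤ k) : 2 * 2 ^ (3 * (k / 5)) * 5 ^ k ≤ 8 ^ k := by
  have h1 := num1 (k / 5) (by omega)
  have h2 : 5 ^ (k % 5) ≤ 8 ^ (k % 5) := Nat.pow_le_pow_left (by norm_num) _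
  have e1 : 5 ^ k = 3125 ^ (k / 5) * 5 ^ (k % 5) := by
    conv_lhs => rw [split5 k, pow_add, pow_mul]
    norm_num
  have e2 : 8 ^ k = 32768 ^ (k / 5) * 8 ^ (k % 5) := by
    conv_lhs => rw [split5 k, pow_add, pow_mul]
    norm_num
  have e3 : 2 ^ (3 * (k / 5)) = 8 ^ (k / 5) := by rw [pow_mul]; norm_num
  rw [e1, e2, e3]
  calc 2 * 8 ^ (k / 5) * (3125 ^ (k / 5) * 5 ^ (k % 5)) = (2 * (8 * 3125) ^ (k / 5)) * 5 ^ (k % 5) := by
        rw [mul_pow]; ring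
    _ ≤ 32768 ^ (k / 5) * 8 ^ (k % 5) := Nat.mul_le_mul (by norm_num; exact h1) h2

theorem num5 (k : ℕ) (h : 35 ≤ k) : 2 ^ 15 * 2 ^ (k / 5) * 5 ^ k ≤ 8 ^ k := by
  have h1 := num2 (k / 5) (by omega)
  have h2 : 5 ^ (k % 5) ≤ 8 ^ (k % 5) := Nat.pow_le_pow_left (by norm_num) _
  have e1 : 5 ^ k = 3125 ^ (k / 5) * 5 ^ (k % 5) := by
    conv_lhs => rw [split5 k, pow_add, pow_mul]
    norm_num
  have e2 : 8 ^ k = 32768 ^ (k / 5) * 8 ^ (k % 5) := by
    conv_lhs => rw [split5 k, pow_add, pow_mul]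
    norm_num
  rw [e1, e2]
  calc 2 ^ 15 * 2 ^ (k / 5) * (3125 ^ (k / 5) * 5 ^ (k % 5)) = (2 ^ 15 * (2 * 3125) ^ (k / 5)) * 5 ^ (k % 5) := by
        rw [mul_pow]; ring
    _ ≤ 32768 ^ (k / 5) * 8 ^ (k % 5) := Nat.mul_le_mul (by norm_num at h1 ⊢; exact h1) h2

/-- from the binomial alternative to the bound -/
theorem fin1 (k j T : ℕ) (hk : 15 ≤ k) (hj : j ≤ k / 5) (h : 2 ^ k ≤ 64 * (k.choose j * T)) : 2 ^ (k / 5) ≤ 32 * T := by
  have h1 := choose_bd k j (by omega)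
  have h2 := num4 k hk
  have h3 : 4 ^ (k - k / 5) ≤ 4 ^ (k - j) := Nat.pow_le_pow_right (by norm_num) (by omega)
  have h4 : 2 ^ k * 4 ^ (k - k / 5) ≤ 64 * (5 ^ k * T) := by
    calc 2 ^ k * 4 ^ (k - k / 5) ≤ 64 * (k.choose j * T) * 4 ^ (k - j) := Nat.mul_le_mul h h3
      _ = 64 * ((k.choose j * 4 ^ (k - j)) * T) := by ring
      _ ≤ _ := Nat.mul_le_mul_left _ (Nat.mul_le_mul_right _ h1)
  have h5 : 2 ^ k * 4 ^ (k - k / 5) * 2 ^ (2 * (k / 5)) = 8 ^ k := by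
    have e1 : 4 ^ (k - k / 5) * 2 ^ (2 * (k / 5)) = 4 ^ k := by
      rw [pow_mul 2 2 (k / 5)]
      norm_num
      rw [← pow_add]
      congr 1
      omega
    rw [mul_assoc, e1, ← mul_pow]
    norm_num
  have h6 : 2 ^ (3 * (k / 5)) = 2 ^ (k / 5) * 2 ^ (2 * (k / 5)) := by
    rw [← pow_add]
    congr 1
    omega
  -- `2 * 2^(q) * 2^(2q) * 5^k ≤ 64 * 5^k * T * 2^(2q)`
  have h7 : (2 * 2 ^ (k / 5)) * (5 ^ k * 2 ^ (2 * (k / 5))) ≤ (64 * T) * (5 ^ k * 2 ^ (2 * (k / 5))) := by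
    calc (2 * 2 ^ (k / 5)) * (5 ^ k * 2 ^ (2 * (k / 5))) = 2 * 2 ^ (3 * (k / 5)) * 5 ^ k := by rw [h6]; ring
      _ ≤ 8 ^ k := h2
      _ = 2 ^ k * 4 ^ (k - k / 5) * 2 ^ (2 * (k / 5)) := h5.symm
      _ ≤ 64 * (5 ^ k * T) * 2 ^ (2 * (k / 5)) := Nat.mul_le_mul_right _ h4
      _ = _ := by ring
  have h8 := Nat.le_of_mul_le_mul_right h7 (by positivity)
  omega

theorem fin2 (k T : ℕ) (hk : 35 ≤ k) (h : 2 ^ (k - 8) ≤ k.choose 6 * T) : 2 ^ (k / 5) ≤ 32 * T := by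
  have h1 := choose_bd k 6 (by omega)
  have h2 := num5 k hk
  have h3 : 2 ^ (k - 8) * 4 ^ (k - 6) ≤ 5 ^ k * T := by
    calc 2 ^ (k - 8) * 4 ^ (k - 6) ≤ (k.choose 6 * T) * 4 ^ (k - 6) := Nat.mul_le_mul_right _ h
      _ = (k.choose 6 * 4 ^ (k - 6)) * T := by ring
      _ ≤ _ := Nat.mul_le_mul_right _ h1
  have h4 : 2 ^ (k - 8) * 4 ^ (k - 6) * 2 ^ 20 = 8 ^ k := by
    have e1 : 2 ^ k = 2 ^ (k - 8) * 2 ^ 8 := by rw [← pow_add]; congr 1; omega
    have e2 : 4 ^ k = 4 ^ (k - 6) * 4 ^ 6 := by rw [← pow_add]; congr 1; omega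
    have e3 : 8 ^ k = 2 ^ k * 4 ^ k := by rw [← mul_pow]; norm_num
    rw [e3, e1, e2]
    ring
  have h7 : (2 ^ 15 * 2 ^ (k / 5)) * 5 ^ k ≤ (2 ^ 20 * T) * 5 ^ k := by
    calc (2 ^ 15 * 2 ^ (k / 5)) * 5 ^ k ≤ 8 ^ k := h2
      _ = 2 ^ (k - 8) * 4 ^ (k - 6) * 2 ^ 20 := h4.symm
      _ ≤ 5 ^ k * T * 2 ^ 20 := Nat.mul_le_mul_right _ h3
      _ = _ := by ring
  have h8 := Nat.le_of_mul_le_mul_right h7 (by positivity)
  have h9 : 2 ^ 15 * 2 ^ (k / 5) ≤ 2 ^ 15 * (32 * T) := by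
    calc 2 ^ 15 * 2 ^ (k / 5) ≤ 2 ^ 20 * T := h8
      _ = _ := by ring
  exact Nat.le_of_mul_le_mul_left h9 (by positivity)

/-- **Exponentially many values outside a line, in every weight.** -/
theorem eff (k : ℕ) (hk : 35 ≤ k) (L : Submodule RA ℝ) (hL : Module.rank RA L ≤ 1) (hpi : Real.pi ^ k ∉ L) :
    2 ^ (k / 5) ≤ 32 * (outside k L).card := by
  classical
  -- the choice of `j`
  obtain ⟨j, hj1, hj2, hj3⟩ : ∃ j, k / 5 ≤ j + 1 ∧ j ≤ k / 5 ∧ (k - j) % 2 = 0 := by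
    rcases Nat.even_or_odd (k - k / 5) with h | h
    · exact ⟨k / 5, by omega, le_rfl, Nat.even_iff.1 h⟩
    · have := Nat.odd_iff.1 h
      exact ⟨k / 5 - 1, by omega, by omega, by omega⟩
  obtain ⟨b, hb⟩ : ∃ b, k - j = 2 * b := ⟨(k - j) / 2, by omega⟩
  have hA : ((W j).filter fun u => val u * Real.pi ^ (k - j) ∉ L).card ≤ 2 * (outside k L).card := by
    have h1 := cardA L k b j (by omega) (by omega)
    rw [← hb] at h1
    have h2 : k / (k - j) ≤ 2 := by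
      have : k / (k - j) < 3 := Nat.div_lt_of_lt_mul (by omega)
      omega
    exact h1.trans (Nat.mul_le_mul_right _ h2)
  have hc : (k * k) * 2 ^ j ≤ 2 ^ (k - j) := by
    have h1 := num3 (k - 2 * j) (by omega)
    have h2 : k * k ≤ 4 * (k - 2 * j) ^ 2 := by
      have h3 : k ≤ 2 * (k - 2 * j) := by omega
      calc k * k ≤ (2 * (k - 2 * j)) * (2 * (k - 2 * j)) := Nat.mul_le_mul h3 h3
        _ = _ := by ring
    calc (k * k) * 2 ^ j ≤ 2 ^ (k - 2 * j) * 2 ^ j := Nat.mul_le_mul_right _ (h2.trans h1)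
      _ = 2 ^ (k - j) := by rw [← pow_add]; congr 1; omega
  have hend : ((W (k - j)).filter fun u => val u * Real.pi ^ j ∉ L).card ≤ (k * k) * (outside k L).card →
      2 ^ (k / 5) ≤ 32 * (outside k L).card := by
    intro hB
    rcases count L hL k j (k * k) (by omega) (by omega) hpi hA hB hc with h | h
    · have h1 : 2 ^ (k / 5) ≤ 2 ^ (j + 1) := Nat.pow_le_pow_right (by norm_num) hj1
      rw [pow_succ] at h1
      omega
    · exact fin1 k j _ (by omega) hj2 h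
  rcases Nat.even_or_odd j with hje | hjo
  · -- even weights
    apply hend
    obtain ⟨c, hc'⟩ := hje
    have h1 := cardA L k c (k - j) (by omega) (by omega)
    have e : 2 * c = j := by omega
    rw [e] at h1
    refine h1.trans (Nat.mul_le_mul_right _ ?_)
    exact (Nat.div_le_self _ _).trans (Nat.le_mul_self k)
  · -- odd weights
    by_cases h3 : val [3] / Real.pi ^ [3].sum ∈ RA
    · apply hend
      obtain ⟨c, hc'⟩ := hjo
      have hc1 : 2 ≤ c := by omega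
      have h1 := cardB L k (c - 1) (k - j) (by omega) (by omega)
      refine le_trans (Finset.card_le_card ?_) h1
      intro v hv
      rw [Finset.mem_filter] at hv ⊢
      refine ⟨hv.1, fun h4 => hv.2 ?_⟩
      have h5 := L.smul_mem (⟨_, h3⟩ : RA)⁻¹ h4
      rw [IntermediateField.smul_def, smul_eq_mul] at h5
      simp only [IntermediateField.coe_inv] at h5
      have h30 : val [3] ≠ 0 := (val_pos [3] (adm_single 3 (by norm_num))).ne'
      have e : (val [3] / Real.pi ^ [3].sum)⁻¹ * (val v * val [3] * Real.pi ^ (2 * (c - 1))) = val v * Real.pi ^ j := by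
        have e2 : j = 3 + 2 * (c - 1) := by omega
        rw [e2, pow_add]
        simp only [List.sum_cons, List.sum_nil, add_zero]
        field_simp
      rwa [e] at h5
    · have h4 := outside_card2 (adm_single 3 (by norm_num)) h3 1 k (by simp; omega) L (by simpa using hL)
      simp only [List.sum_cons, List.sum_nil, add_zero, mul_one] at h4
      have e : k - 2 * 3 - 2 = k - 8 := by omega
      rw [e] at h4
      exact fin2 k _ hk h4

end Pool.Agent.H491.Hit
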