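import Mathlib
import Pool.Agent.H491.Red

set_option autoImplicit false

/-! # Words that differ from words in `2`, `3` in few letters -/

namespace Pool.Agent.H491.Hit

open Pool.Agent.H447R2.MZ

/-- all letters are at least two and at most `j` of them are at least four -/
def Near (j : ℕ) (w : List ℕ) : Prop := (∀ a ∈ w, 2 ≤ a) ∧ w.countP (fun a => 4 ≤ a) ≤ j

theorem near_mono {i j : ℕ} {w : List ℕ} (h : i ≤ j) (hw : Near i w) : Near j w := ⟨hw.1, hw.2.trans h⟩

theorem near_adm {j : ℕ} {w : List ℕ} (hw : Near j w) : Adm w :=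
  ⟨fun a ha => by have := hw.1 a ha; omega, fun a t e => hw.1 a (by rw [e]; simp)⟩

theorem near_st (x u : List ℕ) (hx : ∀ a ∈ x, 2 ≤ a) : ∀ (j : ℕ), Near j u → ∀ w ∈ st x u, Near (j + x.length) w := by
  induction x, u using st.induct with
  | case1 t =>
    intro j hu w hw
    simp only [st, List.mem_singleton] at hw
    subst hw
    simpa using hu
  | case2 a s =>
    intro j hu w hw
    simp only [st, List.mem_singleton] at hw
    subst hw
    refine ⟨hx, ?_⟩
    exact (List.countP_le_length).trans (by omega)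
  | case3 a s b t ih1 ih2 ih3 =>
    intro j hu w hw
    have ha : 2 ≤ a := hx a (by simp)
    have hb : 2 ≤ b := hu.1 b (by simp)
    have hs : ∀ c ∈ s, 2 ≤ c := fun c hc => hx c (by simp [hc])
    have ht : ∀ c ∈ t, 2 ≤ c := fun c hc => hu.1 c (by simp [hc])
    have hu2 := hu.2
    rw [List.countP_cons] at hu2
    rw [st] at hw
    simp only [List.mem_append, List.mem_map] at hw
    rcases hw with (⟨y, hy, rfl⟩ | ⟨y, hy, rfl⟩) | ⟨y, hy, rfl⟩
    · obtain ⟨h1, h2⟩ := ih1 hs j hu y hy
      refine ⟨?_, ?_⟩
      · intro c hc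
        rcases List.mem_cons.1 hc with rfl | hc
        · exact ha
        · exact h1 c hc
      · rw [List.countP_cons, List.length_cons]
        split_ifs <;> omega
    · by_cases hb4 : 4 ≤ b
      · have hu3 : t.countP (fun a => 4 ≤ a) + 1 ≤ j := by
          simpa [hb4] using hu2
        obtain ⟨h1, h2⟩ := ih2 hx (j - 1) ⟨ht, by omega⟩ y hy
        refine ⟨?_, ?_⟩
        · intro c hc
          rcases List.mem_cons.1 hc with rfl | hc
          · exact hb
          · exact h1 c hc
        · rw [List.countP_cons]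
          split_ifs <;> omega
      · have hu3 : t.countP (fun a => 4 ≤ a) ≤ j := by
          simpa [hb4] using hu2
        obtain ⟨h1, h2⟩ := ih2 hx j ⟨ht, hu3⟩ y hy
        refine ⟨?_, ?_⟩
        · intro c hc
          rcases List.mem_cons.1 hc with rfl | hc
          · exact hb
          · exact h1 c hc
        · rw [List.countP_cons]
          simp only [decide_eq_true_eq, if_neg hb4]
          omega
    · have hu3 : t.countP (fun a => 4 ≤ a) ≤ j := by
        split_ifs at hu2 <;> omega
      obtain ⟨h1, h2⟩ := ih3 hs j ⟨ht, hu3⟩ y hy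
      refine ⟨?_, ?_⟩
      · intro c hc
        rcases List.mem_cons.1 hc with rfl | hc
        · omega
        · exact h1 c hc
      · rw [List.countP_cons, List.length_cons]
        split_ifs <;> omega

/-- words in `2`, `3` -/
def IsHoff (w : List ℕ) : Prop := ∀ a ∈ w, a = 2 ∨ a = 3

theorem hoff_near {w : List ℕ} (h : IsHoff w) : Near 0 w := by
  refine ⟨fun a ha => ?_, ?_⟩
  · rcases h a ha with h | h <;> omega
  · rw [Nat.le_zero, List.countP_eq_zero]
    intro a ha
    rcases h a ha with h | h <;> simp [h]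

theorem near_zero {w : List ℕ} (h : Near 0 w) : IsHoff w := by
  intro a ha
  have h1 := h.1 a ha
  have h2 := List.countP_eq_zero.1 (Nat.le_zero.1 h.2) a ha
  simp only [decide_eq_true_eq] at h2
  omega

theorem hoff_length {w : List ℕ} (h : IsHoff w) : 2 * w.length ≤ w.sum := by
  induction w with
  | nil => simp
  | cons a w ih =>
    have h1 := ih fun b hb => h b (by simp [hb])
    have h2 := h a (by simp)
    rw [List.length_cons, List.sum_cons]
    omega

open scoped Classical in
/-- the words in `2`, `3` of weight `k` -/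
noncomputable def HW (k : ℕ) : Finset (List ℕ) := (W k).filter IsHoff

theorem mem_HW {k : ℕ} {w : List ℕ} : w ∈ HW k ↔ IsHoff w ∧ w.sum = k := by
  classical
  rw [HW, Finset.mem_filter, mem_W]
  constructor
  · rintro ⟨⟨-, h1⟩, h2⟩
    exact ⟨h2, h1⟩
  · rintro ⟨h1, h2⟩
    exact ⟨⟨near_adm (hoff_near h1), h2⟩, h1⟩

theorem HW_mono (k a : ℕ) : (HW k).card ≤ (HW (k + 2 * a)).card := by
  apply Finset.card_le_card_of_injOn (fun w => List.replicate a 2 ++ w)
  · intro w hw
    rw [Finset.mem_coe, mem_HW] at hw ⊢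
    refine ⟨?_, ?_⟩
    · intro b hb
      rw [List.mem_append] at hb
      rcases hb with hb | hb
      · left
        exact List.eq_of_mem_replicate hb
      · exact hw.1 b hb
    · rw [List.sum_append, hw.2, List.sum_replicate, smul_eq_mul]
      omega
  · intro w _ w' _ h
    exact List.append_cancel_left h

open scoped Classical in
/-- the words near to words in `2`, `3` whose value is not in `E` -/
noncomputable def NO (k t : ℕ) (E : Submodule RA ℝ) : Finset (List ℕ) := (W k).filter fun w => Near t w ∧ val w ∉ E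

theorem mem_NO {k t : ℕ} {E : Submodule RA ℝ} {w : List ℕ} : w ∈ NO k t E ↔ Near t w ∧ w.sum = k ∧ val w ∉ E := by
  classical
  rw [NO, Finset.mem_filter, mem_W]
  constructor
  · rintro ⟨⟨-, h1⟩, h2, h3⟩
    exact ⟨h2, h1, h3⟩
  · rintro ⟨h1, h2, h3⟩
    exact ⟨⟨near_adm h1, h2⟩, h1, h3⟩

theorem near_hoffman : ∃ m : ℕ, 1 ≤ m ∧ ∀ (e k : ℕ) (E : Submodule RA ℝ), 2 * (m * e) ≤ k → Module.rank RA E ≤ e →
    Real.pi ^ k ∉ E → (HW (k - 2 * (m * e))).card ≤ k.choose (2 * (m * e)) * (NO k (m * e + 1) E).card := by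
  by_cases h : ∀ s, IsHoff s → val s / Real.pi ^ s.sum ∈ RA
  · refine ⟨1, le_rfl, ?_⟩
    intro e k E hk _ hpi
    have h1 : HW k ⊆ NO k (1 * e + 1) E := by
      intro w hw
      rw [mem_HW] at hw
      rw [mem_NO]
      refine ⟨near_mono (Nat.zero_le _) (hoff_near hw.1), hw.2, fun hE => hpi ?_⟩
      have h3 := h w hw.1
      have h4 : Real.pi ^ k = (⟨_, h3⟩ : RA)⁻¹ • val w := by
        rw [IntermediateField.smul_def, smul_eq_mul]
        simp only [IntermediateField.coe_inv]
        rw [inv_div, hw.2, div_mul_cancel₀ _ (val_pos w (near_adm (hoff_near hw.1))).ne']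
      rw [h4]
      exact E.smul_mem _ hE
    have h2 := Finset.card_le_card h1
    have h3 := HW_mono (k - 2 * (1 * e)) (1 * e)
    rw [Nat.sub_add_cancel hk] at h3
    have h4 : 1 ≤ k.choose (2 * (1 * e)) := Nat.choose_pos hk
    calc (HW (k - 2 * (1 * e))).card ≤ 1 * (NO k (1 * e + 1) E).card := by omega
      _ ≤ _ := Nat.mul_le_mul_right _ h4
  · push Not at h
    obtain ⟨v, hvH, hθ⟩ := h
    have hv : Adm v := near_adm (hoff_near hvH)
    refine ⟨v.sum, sum_pos_of_notMem hv hθ, fun e k E hk hE _ => ?_⟩
    have hlen : 2 * e * v.length + 1 ≤ v.sum * e + 1 := by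
      have := hoff_length hvH
      have h1 : 2 * v.length * e ≤ v.sum * e := Nat.mul_le_mul_right _ this
      calc 2 * e * v.length + 1 = 2 * v.length * e + 1 := by ring
        _ ≤ _ := by omega
    refine core2 hv hθ e k E hE Near (fun i j w hij hw => near_mono hij hw) ?_ (HW (k - 2 * (v.sum * e))) ?_
      (NO k (v.sum * e + 1) E) (fun w hw => (mem_NO.1 hw).2.1) ?_
    · intro i hi x hx j u w hu hw
      refine near_st x u ?_ j hu w hw
      intro a ha
      rw [PL] at hx
      have hs := sum_pos_of_notMem hv hθ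
      rcases List.mem_append.1 hx with hx | hx
      · rw [List.eq_of_mem_replicate hx] at ha
        exact (hoff_near hvH).1 a ha
      · split_ifs at hx with hie
        · rw [List.mem_singleton] at hx
          subst hx
          rw [List.mem_singleton] at ha
          subst ha
          have : 1 ≤ v.sum * (e - i) := Nat.mul_pos hs (by omega)
          omega
        · simp at hx
    · intro u hu
      rw [mem_HW] at hu
      exact ⟨near_adm (hoff_near hu.1), by omega, hoff_near hu.1⟩
    · intro w hw1 hw2 hw3 hw4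
      by_contra hcon
      exact hw4 (mem_NO.2 ⟨near_mono hlen hw3, hw2, hcon⟩)

end Pool.Agent.H491.Hit
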