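import Mathlib

set_option autoImplicit false

/-! # The Littlewood–Offord inequality of Erdős in a rational vector space -/

namespace Pool.Agent.H491.LO

open Finset

/-- at most `C(n, n/2)` subset sums of `n` nonzero rational numbers have a given value -/
theorem erdos {ι : Type*} [Fintype ι] [DecidableEq ι] (a : ι → ℚ) (ha : ∀ i, a i ≠ 0) (c : ℚ) :
    ((Finset.univ : Finset (Finset ι)).filter fun A => ∑ i ∈ A, a i = c).card ≤
      (Fintype.card ι).choose (Fintype.card ι / 2) := by
  classical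
  set Neg : Finset ι := Finset.univ.filter fun i => a i < 0 with hNeg
  set F := (Finset.univ : Finset (Finset ι)).filter fun A => ∑ i ∈ A, a i = c with hF
  have hinj : Function.Injective (fun A : Finset ι => symmDiff A Neg) := fun A B h => by
    have := congrArg (fun X => symmDiff X Neg) h
    simpa using this
  have key : ∀ A : Finset ι, ∑ i ∈ symmDiff A Neg, |a i| = ∑ i ∈ A, a i + ∑ i ∈ Neg, |a i| := by
    intro A
    have h1 : ∀ S : Finset ι, ∑ i ∈ S, |a i| = ∑ i, if i ∈ S then |a i| else 0 := by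
      intro S
      rw [Finset.sum_ite_mem, Finset.univ_inter]
    have h2 : ∑ i ∈ A, a i = ∑ i, if i ∈ A then a i else 0 := by
      rw [Finset.sum_ite_mem, Finset.univ_inter]
    rw [h1, h1, h2, ← Finset.sum_add_distrib]
    refine Finset.sum_congr rfl fun i _ => ?_
    have hN : i ∈ Neg ↔ a i < 0 := by rw [hNeg, Finset.mem_filter]; simp
    by_cases hA : i ∈ A
    · by_cases hn : a i < 0
      · have h3 : i ∈ Neg := hN.2 hn
        have h4 : i ∉ symmDiff A Neg := by
          rw [Finset.mem_symmDiff]; tauto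
        rw [if_neg h4, if_pos hA, if_pos h3, abs_of_neg hn]
        ring
      · have h3 : i ∉ Neg := fun h => hn (hN.1 h)
        have h4 : i ∈ symmDiff A Neg := by
          rw [Finset.mem_symmDiff]; tauto
        rw [if_pos h4, if_pos hA, if_neg h3, abs_of_nonneg (not_lt.1 hn)]
        ring
    · by_cases hn : a i < 0
      · have h3 : i ∈ Neg := hN.2 hn
        have h4 : i ∈ symmDiff A Neg := by
          rw [Finset.mem_symmDiff]; tauto
        rw [if_pos h4, if_neg hA, if_pos h3]
        ring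
      · have h3 : i ∉ Neg := fun h => hn (hN.1 h)
        have h4 : i ∉ symmDiff A Neg := by
          rw [Finset.mem_symmDiff]; tauto
        rw [if_neg h4, if_neg hA, if_neg h3]
        ring
  have hanti : IsAntichain (· ⊆ ·) ((F.image fun A => symmDiff A Neg : Finset (Finset ι)) : Set (Finset ι)) := by
    rintro _ hX _ hY hne hsub
    rw [Finset.coe_image, Set.mem_image] at hX hY
    obtain ⟨A, hA, rfl⟩ := hX
    obtain ⟨B, hB, rfl⟩ := hY
    rw [Finset.mem_coe, hF, Finset.mem_filter] at hA hB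
    have h1 : ∑ i ∈ symmDiff A Neg, |a i| < ∑ i ∈ symmDiff B Neg, |a i| := by
      have hss : symmDiff A Neg ⊂ symmDiff B Neg := lt_of_le_of_ne hsub hne
      obtain ⟨i, hi1, hi2⟩ := Finset.exists_of_ssubset hss
      exact Finset.sum_lt_sum_of_subset hsub hi1 hi2 (abs_pos.2 (ha i)) fun j _ _ => abs_nonneg _
    rw [key, key, hA.2, hB.2] at h1
    exact lt_irrefl _ h1
  have h1 := hanti.sperner
  rwa [Finset.card_image_of_injective _ hinj] at h1

/-- the same for vectors, of which those in `T` are not zero -/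
theorem vector {α M : Type*} [DecidableEq α] [AddCommGroup M] [Module ℚ M] (x : α → M) (S T : Finset α) (hTS : T ⊆ S)
    (hx : ∀ w ∈ T, x w ≠ 0) (y : M) [DecidablePred fun A : Finset α => ∑ w ∈ A, x w = y] :
    (S.powerset.filter fun A => ∑ w ∈ A, x w = y).card ≤ 2 ^ (S.card - T.card) * T.card.choose (T.card / 2) := by
  classical
  obtain ⟨f, hf⟩ := Module.exists_dual_forall_apply_ne_zero (K := ℚ) (fun w : {w // w ∈ T} => x w.1) fun w => hx w.1 w.2
  set P := S.powerset.filter fun A => ∑ w ∈ A, x w = y with hP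
  have h1 : P.card ≤ ∑ R ∈ (S \ T).powerset, T.card.choose (T.card / 2) := by
    have h2 : P ⊆ (S \ T).powerset.biUnion fun R => P.filter fun A => A \ T = R := by
      intro A hA
      rw [Finset.mem_biUnion]
      refine ⟨A \ T, ?_, ?_⟩
      · rw [Finset.mem_powerset]
        have : A ⊆ S := Finset.mem_powerset.1 (Finset.mem_filter.1 hA).1
        exact Finset.sdiff_subset_sdiff this (Finset.Subset.refl T)
      · rw [Finset.mem_filter]
        exact ⟨hA, rfl⟩
    refine (Finset.card_le_card h2).trans (Finset.card_biUnion_le.trans (Finset.sum_le_sum fun R _ => ?_))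
    -- fixed part outside `T`
    have h3 := erdos (fun w : {w // w ∈ T} => f (x w.1)) hf (f y - ∑ w ∈ R, f (x w))
    rw [Fintype.card_coe] at h3
    refine le_trans ?_ h3
    apply Finset.card_le_card_of_injOn (fun A : Finset α => A.subtype (· ∈ T))
    · intro A hA
      rw [Finset.mem_coe, Finset.mem_filter] at hA
      obtain ⟨hA1, hA2⟩ := hA
      rw [hP, Finset.mem_filter] at hA1
      rw [Finset.mem_coe, Finset.mem_filter]
      refine ⟨Finset.mem_univ _, ?_⟩
      have e1 : ∑ i ∈ A.subtype (· ∈ T), f (x i.1) = ∑ w ∈ A with w ∈ T, f (x w) :=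
        Finset.sum_subtype_eq_sum_filter (fun w => f (x w))
      rw [e1]
      have e2 : ∑ w ∈ A, f (x w) = f y := by
        rw [← map_sum, hA1.2]
      have e3 : ∑ w ∈ A, f (x w) = ∑ w ∈ A with w ∈ T, f (x w) + ∑ w ∈ A with ¬ w ∈ T, f (x w) :=
        (Finset.sum_filter_add_sum_filter_not A (· ∈ T) _).symm
      have e4 : (A.filter fun w => ¬ w ∈ T) = R := by
        rw [← hA2]
        ext w
        simp
      rw [e4] at e3
      linarith
    · intro A hA B hB hAB
      rw [Finset.mem_coe, Finset.mem_filter] at hA hB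
      have h4 : A \ T = B \ T := hA.2.trans hB.2.symm
      have h5 : ∀ w ∈ T, (w ∈ A ↔ w ∈ B) := by
        intro w hw
        have := congrArg (fun X : Finset {w // w ∈ T} => (⟨w, hw⟩ : {w // w ∈ T}) ∈ X) hAB
        simpa using this
      ext w
      by_cases hw : w ∈ T
      · exact h5 w hw
      · have h6 : w ∈ A \ T ↔ w ∈ B \ T := by rw [h4]
        simp only [Finset.mem_sdiff, hw, not_false_eq_true, and_true] at h6
        exact h6
  refine h1.trans_eq ?_
  rw [Finset.sum_const, Finset.card_powerset, Finset.card_sdiff_of_subset hTS, smul_eq_mul]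

theorem centralBinom_sq (n : ℕ) : (Nat.centralBinom n) ^ 2 * (2 * n + 1) ≤ 16 ^ n := by
  induction n with
  | zero => simp
  | succ n ih =>
    have h1 := Nat.succ_mul_centralBinom_succ n
    have h2 : (n + 1) ^ 2 * ((Nat.centralBinom (n + 1)) ^ 2 * (2 * (n + 1) + 1)) ≤ (n + 1) ^ 2 * 16 ^ (n + 1) := by
      have e1 : (n + 1) ^ 2 * ((Nat.centralBinom (n + 1)) ^ 2 * (2 * (n + 1) + 1)) =
          ((n + 1) * Nat.centralBinom (n + 1)) ^ 2 * (2 * n + 3) := by ring
      rw [e1, h1]
      have e2 : (2 * (2 * n + 1) * n.centralBinom) ^ 2 * (2 * n + 3) =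
          (n.centralBinom ^ 2 * (2 * n + 1)) * (4 * (2 * n + 1) * (2 * n + 3)) := by ring
      rw [e2]
      calc _ ≤ 16 ^ n * (4 * (2 * n + 1) * (2 * n + 3)) := Nat.mul_le_mul_right _ ih
        _ ≤ 16 ^ n * (16 * (n + 1) ^ 2) := Nat.mul_le_mul_left _ (by nlinarith)
        _ = _ := by ring
    exact Nat.le_of_mul_le_mul_left h2 (by positivity)

theorem choose_half_sq (n : ℕ) : (n.choose (n / 2)) ^ 2 * (n + 1) ≤ 4 ^ n := by
  rcases Nat.even_or_odd' n with ⟨m, rfl | rfl⟩
  · have h := centralBinom_sq m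
    rw [Nat.mul_div_cancel_left m (by norm_num)]
    rw [Nat.centralBinom_eq_two_mul_choose] at h
    have e : 4 ^ (2 * m) = 16 ^ m := by rw [pow_mul]; norm_num
    rw [e]
    exact h
  · have h := centralBinom_sq (m + 1)
    have e1 : (2 * m + 1) / 2 = m := by omega
    rw [e1]
    have e2 : Nat.centralBinom (m + 1) = 2 * (2 * m + 1).choose m := by
      rw [Nat.centralBinom_eq_two_mul_choose]
      have h3 : (2 * (m + 1)).choose (m + 1) = (2 * m + 1).choose m + (2 * m + 1).choose (m + 1) := by
        rw [show 2 * (m + 1) = (2 * m + 1) + 1 by ring, Nat.choose_succ_succ]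
      have h4 : (2 * m + 1).choose (m + 1) = (2 * m + 1).choose m := by
        apply Nat.choose_symm_of_eq_add
        ring
      rw [h3, h4]
      ring
    rw [e2] at h
    have e3 : 4 ^ (2 * m + 1) * 4 = 16 ^ (m + 1) := by
      rw [← pow_succ, show 2 * m + 1 + 1 = 2 * (m + 1) by ring, pow_mul]; norm_num
    nlinarith

/-- a proportion of at most `1 / √(n + 1)` -/
theorem choose_half_le (n : ℕ) : ((n.choose (n / 2) : ℕ) : ℝ) ≤ 2 ^ n / Real.sqrt (n + 1) := by
  have h1 : (((n.choose (n / 2)) ^ 2 * (n + 1) : ℕ) : ℝ) ≤ ((4 ^ n : ℕ) : ℝ) := by exact_mod_cast choose_half_sq n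
  push_cast at h1
  have h2 : (0 : ℝ) < (n : ℝ) + 1 := by positivity
  rw [le_div_iff₀ (Real.sqrt_pos.2 h2)]
  have h3 : (((n.choose (n / 2) : ℕ) : ℝ) * Real.sqrt (n + 1)) ^ 2 ≤ (2 ^ n) ^ 2 := by
    rw [mul_pow, Real.sq_sqrt h2.le, ← pow_mul, mul_comm n 2, pow_mul]
    norm_num
    exact h1
  exact le_of_sq_le_sq h3 (by positivity)

end Pool.Agent.H491.LO
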