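import Mathlib
import Pool.Agent.H491.Dist
import Pool.Agent.H491.LO

set_option autoImplicit false

/-! # Random combinations of multiple zeta values of distinct weights -/

namespace Pool.Agent.H491.Hit

open Pool.Agent.H447R2.MZ Filter Topology

/-- the combination of all multiple zeta values of weight `k`, the coefficient of `ζ(w)` is `q w` for `w` in `A` and
`p w` for the others -/
noncomputable def zz (p q : List ℕ → RA) (k : ℕ) (A : Finset (List ℕ)) : ℝ :=
  ∑ w ∈ W k, ((if w ∈ A then q w else p w : RA) : ℝ) * val w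

theorem zz_mem_V (p q : List ℕ → RA) (k : ℕ) (A : Finset (List ℕ)) : zz p q k A ∈ V k := by
  refine Submodule.sum_mem _ fun w hw => ?_
  have h := mem_W.1 hw
  have h1 := val_mem_V w h.1
  rw [h.2] at h1
  have h2 := Submodule.smul_mem _ (if w ∈ A then q w else p w) h1
  rwa [IntermediateField.smul_def, smul_eq_mul] at h2

theorem zz_eq (p q : List ℕ → RA) (k : ℕ) (A : Finset (List ℕ)) (hA : A ⊆ W k) :
    zz p q k A = ∑ w ∈ W k, (p w : ℝ) * val w + ∑ w ∈ A, ((q w - p w : RA) : ℝ) * val w := by
  have h1 : ∑ w ∈ A, ((q w - p w : RA) : ℝ) * val w =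
      ∑ w ∈ W k, if w ∈ A then ((q w - p w : RA) : ℝ) * val w else 0 := by
    rw [Finset.sum_ite_mem, Finset.inter_eq_right.2 hA]
  rw [h1, ← Finset.sum_add_distrib, zz]
  refine Finset.sum_congr rfl fun w _ => ?_
  split_ifs with h
  · push_cast
    ring
  · ring

open scoped Classical in
/-- the Littlewood–Offord bound for the number of the combinations in `E` -/
theorem card_zz_mem (p q : List ℕ → RA) (hpq : ∀ w, p w ≠ q w) (k : ℕ) (E : Submodule RA ℝ) :
    ((((W k).powerset.filter fun A => zz p q k A ∈ E).card : ℕ) : ℝ) ≤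
      2 ^ (W k).card / Real.sqrt ((outside k E).card + 1) := by
  let x : List ℕ → ℝ ⧸ E := fun w => Submodule.Quotient.mk (((q w - p w : RA) : ℝ) * val w)
  have hTS : outside k E ⊆ W k := fun s hs => mem_W.2 (mem_outside.1 hs).1
  have hx : ∀ w ∈ outside k E, x w ≠ 0 := by
    intro w hw h0
    rw [mem_outside] at hw
    have h1 : ((q w - p w : RA) : ℝ) * val w ∈ E := (Submodule.Quotient.mk_eq_zero E).1 h0
    apply hw.2
    have h2 : q w - p w ≠ 0 := sub_ne_zero.2 (hpq w).symm
    have h3 := E.smul_mem (q w - p w)⁻¹ h1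
    rw [IntermediateField.smul_def, smul_eq_mul, ← mul_assoc, IntermediateField.coe_inv,
      inv_mul_cancel₀ (by exact_mod_cast h2), one_mul] at h3
    exact h3
  have h1 := Pool.Agent.H491.LO.vector x (W k) (outside k E) hTS hx
    (-Submodule.Quotient.mk (∑ w ∈ W k, (p w : ℝ) * val w))
  have h2 : (W k).powerset.filter (fun A => zz p q k A ∈ E) = (W k).powerset.filter fun A => ∑ w ∈ A, x w =
      (-Submodule.Quotient.mk (∑ w ∈ W k, (p w : ℝ) * val w) : ℝ ⧸ E) := by
    refine Finset.filter_congr fun A hA => ?_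
    rw [zz_eq p q k A (Finset.mem_powerset.1 hA), ← Submodule.Quotient.mk_eq_zero E, Submodule.Quotient.mk_add,
      add_comm, ← eq_neg_iff_add_eq_zero]
    have h3 : (Submodule.Quotient.mk (∑ w ∈ A, ((q w - p w : RA) : ℝ) * val w) : ℝ ⧸ E) = ∑ w ∈ A, x w := by
      rw [← Submodule.mkQ_apply, map_sum]
      rfl
    rw [h3]
  rw [h2]
  have h4 : (((outside k E).card.choose ((outside k E).card / 2) : ℕ) : ℝ) ≤
      2 ^ (outside k E).card / Real.sqrt ((outside k E).card + 1) := Pool.Agent.H491.LO.choose_half_le _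
  have h5 : (outside k E).card ≤ (W k).card := Finset.card_le_card hTS
  calc _ ≤ ((2 ^ ((W k).card - (outside k E).card) * (outside k E).card.choose ((outside k E).card / 2) : ℕ) : ℝ) := by
        exact_mod_cast h1
    _ = 2 ^ ((W k).card - (outside k E).card) * (((outside k E).card.choose ((outside k E).card / 2) : ℕ) : ℝ) := by
        push_cast
        ring
    _ ≤ 2 ^ ((W k).card - (outside k E).card) * (2 ^ (outside k E).card / Real.sqrt ((outside k E).card + 1)) :=
        mul_le_mul_of_nonneg_left h4 (by positivity)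
    _ = _ := by
        rw [← mul_div_assoc, ← pow_add]
        congr 2
        omega

/-- the numbers `1, z_1, …, z_r` -/
noncomputable def famz (p q : List ℕ → RA) {r : ℕ} (k : Fin r → ℕ) (A : Fin r → Finset (List ℕ)) : Fin (r + 1) → ℝ :=
  Fin.cons 1 fun i => zz p q (k i) (A i)

open scoped Classical in
/-- the choices for which `1, z_1, …, z_r` are linearly dependent over the real algebraic numbers -/
noncomputable def Bad (p q : List ℕ → RA) {r : ℕ} (k : Fin r → ℕ) : Finset (Fin r → Finset (List ℕ)) :=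
  (Fintype.piFinset fun i => (W (k i)).powerset).filter fun A => ¬ LinearIndependent RA (famz p q k A)

theorem mem_Bad {p q : List ℕ → RA} {r : ℕ} {k : Fin r → ℕ} {A : Fin r → Finset (List ℕ)} :
    A ∈ Bad p q k ↔ (∀ i, A i ⊆ W (k i)) ∧ ¬ LinearIndependent RA (famz p q k A) := by
  simp only [Bad, Finset.mem_filter, Fintype.mem_piFinset, Finset.mem_powerset]

theorem famz_snoc (p q : List ℕ → RA) {r : ℕ} (k : Fin (r + 1) → ℕ) (A : Fin (r + 1) → Finset (List ℕ)) :
    famz p q k A = Fin.snoc (famz p q (fun i => k i.castSucc) (fun i => A i.castSucc))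
      (zz p q (k (Fin.last r)) (A (Fin.last r))) := by
  unfold famz
  rw [← Fin.cons_snoc_eq_snoc_cons]
  congr 1
  funext i
  induction i using Fin.lastCases with
  | last => simp
  | cast i => simp

/-- the span of the numbers `1, z_1, …, z_r` -/
noncomputable def Ez (p q : List ℕ → RA) {r : ℕ} (k : Fin r → ℕ) (A : Fin r → Finset (List ℕ)) : Submodule RA ℝ :=
  Submodule.span RA (Set.range (famz p q k A))

theorem rank_Ez (p q : List ℕ → RA) {r : ℕ} (k : Fin r → ℕ) (A : Fin r → Finset (List ℕ)) :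
    Module.rank RA (Ez p q k A) ≤ (r + 1 : ℕ) := by
  refine (rank_span_le _).trans ?_
  refine Cardinal.mk_range_le.trans ?_
  rw [Cardinal.mk_fin]

theorem Ez_le (p q : List ℕ → RA) {r : ℕ} (k : Fin r → ℕ) (A : Fin r → Finset (List ℕ)) (n : ℕ) (hn : n ≠ 0)
    (hk : ∀ i, k i ≠ n) : Ez p q k A ≤ ⨆ j ∈ {j : ℕ | j ≠ n}, V j := by
  rw [Ez, Submodule.span_le]
  rintro _ ⟨i, rfl⟩
  induction i using Fin.cases with
  | zero => exact (le_iSup₂_of_le (f := fun j (_ : j ∈ {j : ℕ | j ≠ n}) => V j) 0 (Ne.symm hn) le_rfl) one_mem_V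
  | succ i =>
    exact (le_iSup₂_of_le (f := fun j (_ : j ∈ {j : ℕ | j ≠ n}) => V j) (k i) (hk i) le_rfl) (zz_mem_V p q (k i) (A i))

theorem card_Bad_succ (p q : List ℕ → RA) (hpq : ∀ w, p w ≠ q w) {r : ℕ} (k : Fin (r + 1) → ℕ)
    (hinj : Function.Injective k) (hk : k (Fin.last r) ≠ 0) (a : ℝ)
    (ha : ∀ E : Submodule RA ℝ, Module.rank RA E ≤ (r + 1 : ℕ) → E ≤ ⨆ j ∈ {j : ℕ | j ≠ k (Fin.last r)}, V j →
      1 / Real.sqrt ((outside (k (Fin.last r)) E).card + 1) ≤ a) :
    ((Bad p q k).card : ℝ) ≤ ((Bad p q (fun i : Fin r => k i.castSucc)).card : ℝ) * 2 ^ (W (k (Fin.last r))).card +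
      a * ∏ i, (2 : ℝ) ^ (W (k i)).card := by
  classical
  set n := k (Fin.last r) with hn
  set all := Fintype.piFinset (fun i : Fin r => (W (k i.castSucc)).powerset) with hall
  set S1 := (Bad p q (fun i : Fin r => k i.castSucc)) ×ˢ (W n).powerset with hS1
  set S2 := all.sigma (fun A => (W n).powerset.filter fun B => zz p q n B ∈ Ez p q (fun i : Fin r => k i.castSucc) A)
    with hS2
  have hsub : Bad p q k ⊆ (S1.image fun x => (Fin.snoc x.1 x.2 : Fin (r + 1) → Finset (List ℕ))) ∪
      (S2.image fun x => (Fin.snoc x.1 x.2 : Fin (r + 1) → Finset (List ℕ))) := by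
    intro A hA
    rw [mem_Bad] at hA
    obtain ⟨hA1, hA2⟩ := hA
    have e : (Fin.snoc (fun i : Fin r => A i.castSucc) (A (Fin.last r)) : Fin (r + 1) → Finset (List ℕ)) = A := by
      funext i
      induction i using Fin.lastCases with
      | last => simp
      | cast i => simp
    rw [famz_snoc, linearIndependent_finSnoc, not_and_or, not_not] at hA2
    rw [Finset.mem_union]
    rcases hA2 with h | h
    · left
      rw [Finset.mem_image]
      refine ⟨⟨fun i => A i.castSucc, A (Fin.last r)⟩, ?_, e⟩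
      rw [hS1, Finset.mem_product]
      exact ⟨mem_Bad.2 ⟨fun i => hA1 _, h⟩, Finset.mem_powerset.2 (hA1 _)⟩
    · right
      rw [Finset.mem_image]
      refine ⟨⟨fun i => A i.castSucc, A (Fin.last r)⟩, ?_, e⟩
      rw [hS2, Finset.mem_sigma]
      refine ⟨?_, ?_⟩
      · rw [hall, Fintype.mem_piFinset]
        exact fun i => Finset.mem_powerset.2 (hA1 _)
      · rw [Finset.mem_filter]
        exact ⟨Finset.mem_powerset.2 (hA1 _), h⟩
  have h1 : ((Bad p q k).card : ℝ) ≤ (S1.card : ℝ) + (S2.card : ℝ) := by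
    have := (Finset.card_le_card hsub).trans (Finset.card_union_le _ _)
    have h2 := this.trans (Nat.add_le_add Finset.card_image_le Finset.card_image_le)
    exact_mod_cast h2
  have h2 : (S1.card : ℝ) = ((Bad p q (fun i : Fin r => k i.castSucc)).card : ℝ) * 2 ^ (W n).card := by
    rw [hS1, Finset.card_product, Finset.card_powerset]
    push_cast
    ring
  have h3 : (S2.card : ℝ) ≤ a * ∏ i, (2 : ℝ) ^ (W (k i)).card := by
    have e1 : (S2.card : ℝ) = ∑ A ∈ all, ((((W n).powerset.filter fun B => zz p q n B ∈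
        Ez p q (fun i : Fin r => k i.castSucc) A).card : ℕ) : ℝ) := by
      rw [hS2, Finset.card_sigma]
      push_cast
      rfl
    rw [e1]
    have e2 : ∀ A ∈ all, ((((W n).powerset.filter fun B => zz p q n B ∈
        Ez p q (fun i : Fin r => k i.castSucc) A).card : ℕ) : ℝ) ≤ 2 ^ (W n).card * a := by
      intro A _
      refine (card_zz_mem p q hpq n _).trans ?_
      have h5 := ha (Ez p q (fun i : Fin r => k i.castSucc) A) (rank_Ez _ _ _ _)
        (Ez_le _ _ _ _ _ hk fun i hi => (Fin.castSucc_lt_last i).ne (hinj hi))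
      rw [div_eq_mul_one_div]
      exact mul_le_mul_of_nonneg_left h5 (by positivity)
    refine (Finset.sum_le_sum e2).trans_eq ?_
    rw [Finset.sum_const, hall, Fintype.card_piFinset, nsmul_eq_mul, Fin.prod_univ_castSucc]
    push_cast
    simp only [Finset.card_powerset, Nat.cast_pow, Nat.cast_ofNat]
    ring
  rw [h2] at h1
  linarith

/-- **Random combinations of distinct weights are linearly independent.** -/
theorem card_Bad (r : ℕ) : ∃ c : ℝ, 0 < c ∧ ∃ C K : ℕ, 1 ≤ K ∧ ∀ k : Fin r → ℕ, Function.Injective k → (∀ i, K ≤ k i) →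
    ∀ p q : List ℕ → RA, (∀ w, p w ≠ q w) →
    ((Bad p q k).card : ℝ) ≤ (∑ i, c * (k i : ℝ) ^ C / (Real.sqrt 2) ^ (k i)) * ∏ i, (2 : ℝ) ^ (W (k i)).card := by
  induction r with
  | zero =>
    refine ⟨1, one_pos, 0, 1, le_rfl, ?_⟩
    intro k _ _ p q _
    have h1 : Bad p q k = ∅ := by
      rw [Finset.eq_empty_iff_forall_notMem]
      intro A hA
      rw [mem_Bad] at hA
      apply hA.2
      rw [famz, linearIndependent_finCons]
      refine ⟨linearIndependent_empty_type, ?_⟩
      rw [Set.range_eq_empty, Submodule.span_empty, Submodule.mem_bot]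
      exact one_ne_zero
    rw [h1]
    simp
  | succ r ih =>
    obtain ⟨c, hc, C, K, hK, h1⟩ := ih
    obtain ⟨c', hc', C', K', hK', h2⟩ := robust (r + 1)
    refine ⟨max c (1 / Real.sqrt c'), lt_max_of_lt_left hc, max C C', max K K', le_max_of_le_left hK, ?_⟩
    intro k hinj hk p q hpq
    have hlast : K' ≤ k (Fin.last r) := (le_max_right _ _).trans (hk _)
    have hterm : ∀ (n A B : ℕ) (x y : ℝ), 1 ≤ n → A ≤ B → 0 ≤ x → x ≤ y →
        x * (n : ℝ) ^ A / (Real.sqrt 2) ^ n ≤ y * (n : ℝ) ^ B / (Real.sqrt 2) ^ n := by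
      intro n A B x y hn hAB hx hxy
      have hn1 : (1 : ℝ) ≤ n := by exact_mod_cast hn
      apply div_le_div_of_nonneg_right _ (by positivity)
      exact mul_le_mul hxy (pow_le_pow_right₀ hn1 hAB) (by positivity) (hx.trans hxy)
    have h3 := card_Bad_succ p q hpq k hinj (by omega)
      ((1 / Real.sqrt c') * (k (Fin.last r) : ℝ) ^ C' / (Real.sqrt 2) ^ (k (Fin.last r))) (by
        intro E hE1 hE2
        have h4 := h2 _ hlast E hE1 hE2
        set n := k (Fin.last r) with hn
        have hn1 : 1 ≤ n := hK'.trans hlast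
        have hn1' : (1 : ℝ) ≤ n := by exact_mod_cast hn1
        have h5 : Real.sqrt (c' * (2 ^ n / (n : ℝ) ^ C')) ≤ Real.sqrt ((outside n E).card + 1) := by
          apply Real.sqrt_le_sqrt
          linarith
        have h6 : Real.sqrt (c' * (2 ^ n / (n : ℝ) ^ C')) = Real.sqrt c' * (Real.sqrt 2) ^ n / Real.sqrt ((n : ℝ) ^ C') := by
          rw [Real.sqrt_mul hc'.le, Real.sqrt_div (by positivity)]
          have : Real.sqrt (2 ^ n) = (Real.sqrt 2) ^ n := by
            rw [Real.sqrt_eq_iff_mul_self_eq (by positivity) (by positivity), ← mul_pow,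
              Real.mul_self_sqrt (by norm_num)]
          rw [this]
          ring
        have h7 : Real.sqrt ((n : ℝ) ^ C') ≤ (n : ℝ) ^ C' := by
          rw [Real.sqrt_le_left (by positivity)]
          have h8 : (1 : ℝ) ≤ (n : ℝ) ^ C' := one_le_pow₀ hn1'
          nlinarith
        have hc0 : 0 < Real.sqrt c' := Real.sqrt_pos.2 hc'
        have h20 : 0 < Real.sqrt 2 := by positivity
        have hnC : 0 < Real.sqrt ((n : ℝ) ^ C') := Real.sqrt_pos.2 (by positivity)
        calc 1 / Real.sqrt ((outside n E).card + 1) ≤ 1 / (Real.sqrt c' * (Real.sqrt 2) ^ n / Real.sqrt ((n : ℝ) ^ C')) := by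
              apply one_div_le_one_div_of_le (by positivity)
              rw [← h6]
              exact h5
          _ = (1 / Real.sqrt c') * Real.sqrt ((n : ℝ) ^ C') / (Real.sqrt 2) ^ n := by
              field_simp
          _ ≤ _ := by
              apply div_le_div_of_nonneg_right _ (by positivity)
              exact mul_le_mul_of_nonneg_left h7 (by positivity))
    have h9 := h1 (fun i : Fin r => k i.castSucc) (hinj.comp (Fin.castSucc_injective r))
      (fun i => (le_max_left _ _).trans (hk _)) p q hpq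
    refine h3.trans ?_
    rw [Fin.sum_univ_castSucc, add_mul]
    apply add_le_add
    · rw [Fin.prod_univ_castSucc, ← mul_assoc]
      apply mul_le_mul_of_nonneg_right _ (by positivity)
      refine h9.trans ?_
      apply mul_le_mul_of_nonneg_right _ (by positivity)
      refine Finset.sum_le_sum fun i _ => ?_
      exact hterm _ _ _ _ _ (hK.trans ((le_max_left _ _).trans (hk _))) (le_max_left _ _) hc.le (le_max_left _ _)
    · apply mul_le_mul_of_nonneg_right _ (by positivity)
      exact hterm _ _ _ _ _ (hK'.trans hlast) (le_max_right _ _) (by positivity) (le_max_right _ _)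

end Pool.Agent.H491.Hit
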