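import Mathlib
import Pool.Agent.H491.Red
import Pool.Agent.H491.Dist
import Pool.Agent.H491.Rand

set_option autoImplicit false

/-! # The estimates with dimensions proportional to the weight -/

namespace Pool.Agent.H491.Hit

open Pool.Agent.H447R2.MZ

/-- robust directness in the linear range -/
theorem robust2 : ∃ m : ℕ, 1 ≤ m ∧ ∀ (e k : ℕ) (E : Submodule RA ℝ), 2 * (m * e) + 2 ≤ k → Module.rank RA E ≤ e →
    E ≤ ⨆ j ∈ {j : ℕ | j ≠ k}, V j → 2 ^ (k - 2 * (m * e) - 2) ≤ k.choose (2 * (m * e)) * (outside k E).card := by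
  by_cases h : ∀ s, Adm s → val s / Real.pi ^ s.sum ∈ RA
  · refine ⟨1, le_rfl, ?_⟩
    intro e k E hk _ hE2
    have h1 : outside k E = W k := by
      apply Finset.Subset.antisymm
      · intro s hs
        exact mem_W.2 (mem_outside.1 hs).1
      · intro s hs
        rw [mem_outside]
        have := mem_W.1 hs
        exact ⟨this, notMem_of_algebraic h k E hE2 s this.1 this.2⟩
    rw [h1]
    have h2 := card_W k (by omega)
    have h3 : 2 ^ (k - 2 * (1 * e) - 2) ≤ 2 ^ (k - 2) := Nat.pow_le_pow_right (by norm_num) (by omega)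
    have h4 : 1 ≤ k.choose (2 * (1 * e)) := Nat.choose_pos (by omega)
    calc 2 ^ (k - 2 * (1 * e) - 2) ≤ 1 * (W k).card := by omega
      _ ≤ _ := Nat.mul_le_mul_right _ h4
  · push Not at h
    obtain ⟨v, hv, hθ⟩ := h
    exact ⟨v.sum, sum_pos_of_notMem hv hθ, fun e k E hk hE _ => outside_card2 hv hθ e k hk E hE⟩

/-- the lower bound for the part of the tuples -/
noncomputable def bd (m e n : ℕ) : ℝ := 2 ^ (n - 2 * (m * e) - 2) / (n.choose (2 * (m * e)) : ℝ)

theorem bd_pos (m e n : ℕ) (h : 2 * (m * e) + 2 ≤ n) : 0 < bd m e n := by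
  have h1 : 0 < n.choose (2 * (m * e)) := Nat.choose_pos (by omega)
  have h2 : (0 : ℝ) < (n.choose (2 * (m * e)) : ℝ) := by exact_mod_cast h1
  unfold bd
  positivity

theorem bd_le {m e n : ℕ} (h : 2 * (m * e) + 2 ≤ n) {x : ℕ}
    (hx : 2 ^ (n - 2 * (m * e) - 2) ≤ n.choose (2 * (m * e)) * x) : bd m e n ≤ (x : ℝ) := by
  have h1 : 0 < n.choose (2 * (m * e)) := Nat.choose_pos (by omega)
  have h2 : (0 : ℝ) < (n.choose (2 * (m * e)) : ℝ) := by exact_mod_cast h1
  unfold bd
  rw [div_le_iff₀ h2]
  have h3 : ((2 ^ (n - 2 * (m * e) - 2) : ℕ) : ℝ) ≤ ((n.choose (2 * (m * e)) * x : ℕ) : ℝ) := by exact_mod_cast hx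
  push_cast at h3
  linarith

/-- many tuples of distinct weights are linearly independent -/
theorem card_G2 : ∃ m : ℕ, 1 ≤ m ∧ ∀ (r : ℕ) (k : Fin r → ℕ), Function.Injective k → (∀ i, 2 * (m * r) + 2 ≤ k i) →
    ∏ i, bd m r (k i) ≤ ((G k).card : ℝ) := by
  obtain ⟨m, hm, h⟩ := robust2
  refine ⟨m, hm, ?_⟩
  intro R
  have key : ∀ r : ℕ, r ≤ R → ∀ k : Fin r → ℕ, Function.Injective k → (∀ i, 2 * (m * R) + 2 ≤ k i) →
      ∏ i, bd m R (k i) ≤ ((G k).card : ℝ) := by
    intro r
    induction r with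
    | zero =>
      intro _ k _ _
      have h1 : (fun i => i.elim0) ∈ G k := by
        rw [mem_G]
        refine ⟨fun i => i.elim0, ?_⟩
        rw [fam, linearIndependent_finCons]
        refine ⟨linearIndependent_empty_type, ?_⟩
        rw [Set.range_eq_empty, Submodule.span_empty, Submodule.mem_bot]
        exact one_ne_zero
      have h2 : 1 ≤ (G k).card := Finset.card_pos.2 ⟨_, h1⟩
      simpa using h2
    | succ r ih =>
      intro hr k hinj hk
      have h3 := ih (by omega) (fun i : Fin r => k i.castSucc) (hinj.comp (Fin.castSucc_injective r)) (fun i => hk _)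
      have hlast := hk (Fin.last r)
      have h4 := card_G_succ k hinj (by omega) (bd m R (k (Fin.last r))) (fun w hw1 hw2 =>
        bd_le hlast (h R _ (E w) hlast (hw1.trans (by exact_mod_cast hr)) hw2))
      refine le_trans ?_ h4
      rw [Fin.prod_univ_castSucc]
      exact mul_le_mul_of_nonneg_right h3 (bd_pos _ _ _ hlast).le
  exact key R le_rfl

/-- most tuples of random combinations are linearly independent -/
theorem card_Bad2 : ∃ m : ℕ, 1 ≤ m ∧ ∀ (r : ℕ) (k : Fin r → ℕ), Function.Injective k → (∀ i, 2 * (m * r) + 2 ≤ k i) →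
    ∀ p q : List ℕ → RA, (∀ w, p w ≠ q w) →
    ((Bad p q k).card : ℝ) ≤ (∑ i, Real.sqrt ((k i).choose (2 * (m * r)) / 2 ^ (k i - 2 * (m * r) - 2))) *
      ∏ i, (2 : ℝ) ^ (W (k i)).card := by
  obtain ⟨m, hm, h⟩ := robust2
  refine ⟨m, hm, ?_⟩
  intro R
  have key : ∀ r : ℕ, r ≤ R → ∀ k : Fin r → ℕ, Function.Injective k → (∀ i, 2 * (m * R) + 2 ≤ k i) →
      ∀ p q : List ℕ → RA, (∀ w, p w ≠ q w) →
      ((Bad p q k).card : ℝ) ≤ (∑ i, Real.sqrt ((k i).choose (2 * (m * R)) / 2 ^ (k i - 2 * (m * R) - 2))) *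
        ∏ i, (2 : ℝ) ^ (W (k i)).card := by
    intro r
    induction r with
    | zero =>
      intro _ k _ _ p q _
      have h1 : Bad p q k = ∅ := by
        rw [Finset.eq_empty_iff_forall_notMem]
        intro A hA
        rw [mem_Bad] at hA
        apply hA.2
        rw [famz, linearIndependent_finCons]
        refine ⟨linearIndependent_empty_type, ?_⟩
        rw [Set.range_eq_empty, Submodule.span_empty, Submodule.mem_bot]
        exact one_ne_zero
      rw [h1]
      simp
    | succ r ih =>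
      intro hr k hinj hk p q hpq
      have hlast := hk (Fin.last r)
      have h3 := card_Bad_succ p q hpq k hinj (by omega)
        (Real.sqrt ((k (Fin.last r)).choose (2 * (m * R)) / 2 ^ (k (Fin.last r) - 2 * (m * R) - 2))) (by
          intro E hE1 hE2
          have h4 := bd_le hlast (h R _ E hlast (hE1.trans (by exact_mod_cast hr)) hE2)
          have h5 := bd_pos m R _ hlast
          have e1 : ((k (Fin.last r)).choose (2 * (m * R)) : ℝ) / 2 ^ (k (Fin.last r) - 2 * (m * R) - 2) =
              (bd m R (k (Fin.last r)))⁻¹ := by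
            rw [bd, inv_div]
          rw [e1, Real.sqrt_inv, ← one_div]
          apply one_div_le_one_div_of_le (Real.sqrt_pos.2 h5)
          apply Real.sqrt_le_sqrt
          linarith)
      have h9 := ih (by omega) (fun i : Fin r => k i.castSucc) (hinj.comp (Fin.castSucc_injective r))
        (fun i => hk _) p q hpq
      refine h3.trans ?_
      rw [Fin.sum_univ_castSucc, add_mul]
      apply add_le_add_left
      rw [Fin.prod_univ_castSucc, ← mul_assoc]
      exact mul_le_mul_of_nonneg_right h9 (by positivity)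
  exact key R le_rfl

end Pool.Agent.H491.Hit
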