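import Mathlib
import Pool.Agent.H491.Rep
import Pool.Agent.H491.Core

set_option autoImplicit false

/-! # The multiple zeta values `ζ(m, …, m)`: dimensions -/

namespace Pool.Agent.H491.Rep

open Pool.Agent.H447R2.MZ Pool.Agent.H491.Hit
open Finset.HasAntidiagonal (antidiagonal)

/-- independent elements among the products of the elements of a space -/
theorem card_le_of_products (V : Submodule RA ℝ) (d : ℕ) (hV : Module.rank RA V ≤ d) (n : ℕ) (c : Fin n → ℝ)
    (hc : LinearIndependent RA c) (hcV : ∀ i, c i ∈ Submodule.span RA {x : ℝ | ∃ v ∈ V, ∃ w ∈ V, x = v * w}) :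
    2 * n ≤ d * (d + 1) := by
  have hfin : Module.Finite RA V := Module.rank_lt_aleph0_iff.1 (hV.trans_lt (Cardinal.natCast_lt_aleph0))
  have hd : Module.finrank RA V ≤ d := Module.finrank_le_of_rank_le hV
  set k := Module.finrank RA V with hk
  let b := Module.finBasis RA V
  let f : Sym2 (Fin k) → ℝ := Sym2.lift ⟨fun i j => (b i : ℝ) * (b j : ℝ), fun i j => mul_comm _ _⟩
  have h1 : ∀ v ∈ V, ∀ w ∈ V, v * w ∈ Submodule.span RA (Set.range f) := by
    intro v hv w hw
    have e1 := b.sum_repr ⟨v, hv⟩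
    have e2 := b.sum_repr ⟨w, hw⟩
    have e1' : ∑ i, b.repr ⟨v, hv⟩ i • (b i : ℝ) = v := by
      have h := congrArg V.subtype e1
      rw [map_sum] at h
      exact h
    have e2' : ∑ i, b.repr ⟨w, hw⟩ i • (b i : ℝ) = w := by
      have h := congrArg V.subtype e2
      rw [map_sum] at h
      exact h
    rw [← e1', ← e2', Finset.sum_mul_sum]
    refine Submodule.sum_mem _ fun i _ => Submodule.sum_mem _ fun j _ => ?_
    have e3 : (b.repr ⟨v, hv⟩ i • (b i : ℝ)) * (b.repr ⟨w, hw⟩ j • (b j : ℝ)) =
        (b.repr ⟨v, hv⟩ i * b.repr ⟨w, hw⟩ j) • ((b i : ℝ) * (b j : ℝ)) := by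
      rw [smul_mul_smul_comm]
    rw [e3]
    refine Submodule.smul_mem _ _ (Submodule.subset_span ⟨s(i, j), ?_⟩)
    rfl
  have h2 : Submodule.span RA {x : ℝ | ∃ v ∈ V, ∃ w ∈ V, x = v * w} ≤ Submodule.span RA (Set.range f) := by
    rw [Submodule.span_le]
    rintro _ ⟨v, hv, w, hw, rfl⟩
    exact h1 v hv w hw
  have h3 : Set.range c ≤ Submodule.span RA (Set.range f) := by
    rintro _ ⟨i, rfl⟩
    exact h2 (hcV i)
  have h4 := linearIndependent_le_span' c hc (Set.range f) h3
  rw [Cardinal.mk_fin] at h4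
  have h5 : Fintype.card (Set.range f) ≤ Fintype.card (Sym2 (Fin k)) := Fintype.card_range_le f
  rw [Sym2.card, Fintype.card_fin] at h5
  have h6 : n ≤ (k + 1).choose 2 := by
    refine le_trans ?_ h5
    exact_mod_cast h4
  have h7 : (k + 1).choose 2 * 2 = (k + 1) * k := by
    rw [Nat.choose_two_right, Nat.add_sub_cancel]
    exact Nat.div_mul_cancel (by rw [mul_comm]; exact (Nat.even_mul_succ_self k).two_dvd)
  calc 2 * n ≤ (k + 1).choose 2 * 2 := by omega
    _ = k * (k + 1) := by rw [h7]; ring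
    _ ≤ d * (d + 1) := Nat.mul_le_mul hd (by omega)

open scoped Classical in
/-- the main estimate -/
theorem rep_main (m : ℕ) (hm : 2 ≤ m) (N e : ℕ) (E : Submodule RA ℝ) (hE : Module.rank RA E ≤ e) :
    let s := ((Finset.range (2 * N + 1)).filter fun n => val (List.replicate n m) ∉ E).card
    2 * (N + 1) ≤ (e + s) * (e + s + 1) := by
  intro s
  set T := (Finset.range (2 * N + 1)).filter fun n => val (List.replicate n m) ∉ E with hT
  set V := E ⊔ Submodule.span RA (T.image fun n => val (List.replicate n m) : Set ℝ) with hVdef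
  have hV : Module.rank RA V ≤ ((e + s : ℕ) : Cardinal) := by
    refine (Submodule.rank_add_le_rank_add_rank _ _).trans ?_
    push_cast
    refine add_le_add hE ?_
    refine (rank_span_finset_le _).trans ?_
    exact_mod_cast Finset.card_image_le
  have hmem : ∀ n, n ≤ 2 * N → val (List.replicate n m) ∈ V := by
    intro n hn
    by_cases h : val (List.replicate n m) ∈ E
    · exact (le_sup_left : E ≤ V) h
    · refine (le_sup_right : _ ≤ V) (Submodule.subset_span ?_)
      rw [Finset.mem_coe, Finset.mem_image]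
      exact ⟨n, Finset.mem_filter.2 ⟨Finset.mem_range.2 (by omega), h⟩, rfl⟩
  choose q hq hqv using fun n : ℕ => rep_even m (by omega) n
  refine card_le_of_products V (e + s) hV (N + 1) (fun n => (-1) ^ (n : ℕ) * val (List.replicate n (2 * m))) ?_ ?_
  · have hpi : Real.pi ∉ RA := by
      have := pi_pow_notMem 1 one_ne_zero
      rwa [pow_one] at this
    have hθ : Real.pi ^ (2 * m) ∉ RA := pi_pow_notMem (2 * m) (by omega)
    have h1 := linInd_scaled hθ 1 one_ne_zero (N + 1) (fun n => (-1) ^ (n : ℕ) * q n)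
      (fun n => mul_ne_zero (pow_ne_zero _ (by norm_num)) (hq n))
    have e1 : (fun n : Fin (N + 1) => (-1) ^ (n : ℕ) * val (List.replicate n (2 * m))) = fun n : Fin (N + 1) =>
        ((((-1) ^ (n : ℕ) * q n : ℚ)) : ℝ) * 1 * (Real.pi ^ (2 * m)) ^ (n : ℕ) := by
      funext n
      rw [hqv, ← pow_mul]
      push_cast
      ring
    rw [e1]
    exact h1
  · intro n
    rw [← val_id m n hm]
    refine Submodule.sum_mem _ fun p hp => ?_
    rw [Finset.HasAntidiagonal.mem_antidiagonal] at hp
    have h1 : (-1 : ℝ) ^ p.2 * val (List.replicate p.2 m) ∈ V := by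
      have h2 := hmem p.2 (by omega)
      rcases Nat.even_or_odd p.2 with h | h
      · rw [h.neg_one_pow, one_mul]
        exact h2
      · rw [h.neg_one_pow, neg_one_mul]
        exact V.neg_mem h2
    exact Submodule.subset_span ⟨_, hmem p.1 (by omega), _, h1, rfl⟩

end Pool.Agent.H491.Rep
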