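import Mathlib
import Pool.Agent.H491.Base
import Pool.Agent.H491.LO

set_option autoImplicit false

/-! # Random combinations: a general form -/

namespace Pool.Agent.H491.Rnd

open Pool.Agent.H491.Hit

variable {α : Type} (val : α → ℝ) (S : Finset α)

open scoped Classical in
/-- the combination with the coefficients `q w` for `w` in `A` and `p w` for the other elements of `S` -/
noncomputable def comb (p q : α → RA) (A : Finset α) : ℝ := ∑ w ∈ S, ((if w ∈ A then q w else p w : RA) : ℝ) * val w

open scoped Classical in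
/-- the elements with values outside `E` -/
noncomputable def out (E : Submodule RA ℝ) : Finset α := S.filter fun w => val w ∉ E

open scoped Classical in
theorem comb_eq (p q : α → RA) (A : Finset α) (hA : A ⊆ S) :
    comb val S p q A = ∑ w ∈ S, (p w : ℝ) * val w + ∑ w ∈ A, ((q w - p w : RA) : ℝ) * val w := by
  have h1 : ∑ w ∈ A, ((q w - p w : RA) : ℝ) * val w =
      ∑ w ∈ S, if w ∈ A then ((q w - p w : RA) : ℝ) * val w else 0 := by
    rw [Finset.sum_ite_mem, Finset.inter_eq_right.2 hA]
  rw [h1, ← Finset.sum_add_distrib, comb]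
  refine Finset.sum_congr rfl fun w _ => ?_
  split_ifs with h
  · push_cast
    ring
  · ring

open scoped Classical in
/-- the Littlewood–Offord bound -/
theorem card_comb_mem (p q : α → RA) (hpq : ∀ w, p w ≠ q w) (E : Submodule RA ℝ) :
    (((S.powerset.filter fun A => comb val S p q A ∈ E).card : ℕ) : ℝ) ≤
      2 ^ S.card / Real.sqrt ((out val S E).card + 1) := by
  let x : α → ℝ ⧸ E := fun w => Submodule.Quotient.mk (((q w - p w : RA) : ℝ) * val w)
  have hTS : out val S E ⊆ S := Finset.filter_subset _ _
  have hx : ∀ w ∈ out val S E, x w ≠ 0 := by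
    intro w hw h0
    rw [out, Finset.mem_filter] at hw
    have h1 : ((q w - p w : RA) : ℝ) * val w ∈ E := (Submodule.Quotient.mk_eq_zero E).1 h0
    apply hw.2
    have h2 : q w - p w ≠ 0 := sub_ne_zero.2 (hpq w).symm
    have h3 := E.smul_mem (q w - p w)⁻¹ h1
    rw [IntermediateField.smul_def, smul_eq_mul, ← mul_assoc, IntermediateField.coe_inv,
      inv_mul_cancel₀ (by exact_mod_cast h2), one_mul] at h3
    exact h3
  have h1 := Pool.Agent.H491.LO.vector x S (out val S E) hTS hx
    (-Submodule.Quotient.mk (∑ w ∈ S, (p w : ℝ) * val w))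
  have h2 : S.powerset.filter (fun A => comb val S p q A ∈ E) = S.powerset.filter fun A => ∑ w ∈ A, x w =
      (-Submodule.Quotient.mk (∑ w ∈ S, (p w : ℝ) * val w) : ℝ ⧸ E) := by
    refine Finset.filter_congr fun A hA => ?_
    rw [comb_eq val S p q A (Finset.mem_powerset.1 hA), ← Submodule.Quotient.mk_eq_zero E, Submodule.Quotient.mk_add,
      add_comm, ← eq_neg_iff_add_eq_zero]
    have h3 : (Submodule.Quotient.mk (∑ w ∈ A, ((q w - p w : RA) : ℝ) * val w) : ℝ ⧸ E) = ∑ w ∈ A, x w := by
      rw [← Submodule.mkQ_apply, map_sum]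
      rfl
    rw [h3]
  rw [h2]
  have h4 : (((out val S E).card.choose ((out val S E).card / 2) : ℕ) : ℝ) ≤
      2 ^ (out val S E).card / Real.sqrt ((out val S E).card + 1) := Pool.Agent.H491.LO.choose_half_le _
  have h5 : (out val S E).card ≤ S.card := Finset.card_le_card hTS
  calc _ ≤ ((2 ^ (S.card - (out val S E).card) * (out val S E).card.choose ((out val S E).card / 2) : ℕ) : ℝ) := by
        exact_mod_cast h1
    _ = 2 ^ (S.card - (out val S E).card) * (((out val S E).card.choose ((out val S E).card / 2) : ℕ) : ℝ) := by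
        push_cast
        ring
    _ ≤ 2 ^ (S.card - (out val S E).card) * (2 ^ (out val S E).card / Real.sqrt ((out val S E).card + 1)) :=
        mul_le_mul_of_nonneg_left h4 (by positivity)
    _ = _ := by
        rw [← mul_div_assoc, ← pow_add]
        congr 2
        omega

/-- the classes of the random elements modulo `E` -/
noncomputable def cls (E : Submodule RA ℝ) {r : ℕ} (p q : Fin r → α → RA) (A : Fin r → Finset α) : Fin r → ℝ ⧸ E :=
  fun i => E.mkQ (comb val S (p i) (q i) (A i))

open scoped Classical in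
/-- the choices that give dependent elements -/
noncomputable def Bad (E : Submodule RA ℝ) {r : ℕ} (p q : Fin r → α → RA) : Finset (Fin r → Finset α) :=
  (Fintype.piFinset fun _ => S.powerset).filter fun A => ¬ LinearIndependent RA (cls val S E p q A)

theorem mem_Bad {E : Submodule RA ℝ} {r : ℕ} {p q : Fin r → α → RA} {A : Fin r → Finset α} :
    A ∈ Bad val S E p q ↔ (∀ i, A i ⊆ S) ∧ ¬ LinearIndependent RA (cls val S E p q A) := by
  simp only [Bad, Finset.mem_filter, Fintype.mem_piFinset, Finset.mem_powerset]

theorem cls_snoc (E : Submodule RA ℝ) {r : ℕ} (p q : Fin (r + 1) → α → RA) (A : Fin (r + 1) → Finset α) :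
    cls val S E p q A = Fin.snoc (cls val S E (fun i => p i.castSucc) (fun i => q i.castSucc) (fun i => A i.castSucc))
      (E.mkQ (comb val S (p (Fin.last r)) (q (Fin.last r)) (A (Fin.last r)))) := by
  funext i
  induction i using Fin.lastCases with
  | last => simp [cls]
  | cast i => simp [cls]

/-- the space spanned by `E` and the random elements -/
noncomputable def Ez (E : Submodule RA ℝ) {r : ℕ} (p q : Fin r → α → RA) (A : Fin r → Finset α) : Submodule RA ℝ :=
  E ⊔ Submodule.span RA (Set.range fun i => comb val S (p i) (q i) (A i))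

theorem rank_Ez (E : Submodule RA ℝ) (e : ℕ) (hE : Module.rank RA E ≤ e) {r : ℕ} (p q : Fin r → α → RA)
    (A : Fin r → Finset α) : Module.rank RA (Ez val S E p q A) ≤ ((e + r : ℕ) : Cardinal) := by
  refine (Submodule.rank_add_le_rank_add_rank _ _).trans ?_
  push_cast
  refine add_le_add hE ((rank_span_le _).trans ?_)
  refine Cardinal.mk_range_le.trans ?_
  rw [Cardinal.mk_fin]

theorem mem_span_cls (E : Submodule RA ℝ) {r : ℕ} (p q : Fin r → α → RA) (A : Fin r → Finset α) (x : ℝ)
    (h : E.mkQ x ∈ Submodule.span RA (Set.range (cls val S E p q A))) : x ∈ Ez val S E p q A := by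
  have e1 : Set.range (cls val S E p q A) = E.mkQ '' (Set.range fun i => comb val S (p i) (q i) (A i)) := by
    rw [← Set.range_comp]
    rfl
  rw [e1, Submodule.span_image] at h
  have h2 : x ∈ Submodule.comap E.mkQ (Submodule.map E.mkQ (Submodule.span RA (Set.range fun i =>
      comb val S (p i) (q i) (A i)))) := h
  rw [Submodule.comap_map_eq, Submodule.ker_mkQ] at h2
  rw [Ez, sup_comm]
  exact h2

theorem card_Bad_succ (E : Submodule RA ℝ) (e : ℕ) (hE : Module.rank RA E ≤ e) {r : ℕ} (p q : Fin (r + 1) → α → RA)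
    (hpq : ∀ i w, p i w ≠ q i w) (b : ℝ)
    (hb : ∀ F : Submodule RA ℝ, Module.rank RA F ≤ ((e + r : ℕ) : Cardinal) →
      1 / Real.sqrt ((out val S F).card + 1) ≤ b) :
    ((Bad val S E p q).card : ℝ) ≤ ((Bad val S E (fun i => p i.castSucc) (fun i => q i.castSucc)).card : ℝ) *
      2 ^ S.card + b * (2 ^ S.card) ^ (r + 1) := by
  classical
  set all := Fintype.piFinset (fun _ : Fin r => S.powerset) with hall
  set S1 := (Bad val S E (fun i => p i.castSucc) (fun i => q i.castSucc)) ×ˢ S.powerset with hS1
  set S2 := all.sigma (fun A => S.powerset.filter fun B => comb val S (p (Fin.last r)) (q (Fin.last r)) B ∈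
    Ez val S E (fun i => p i.castSucc) (fun i => q i.castSucc) A) with hS2
  have hsub : Bad val S E p q ⊆ (S1.image fun x => (Fin.snoc x.1 x.2 : Fin (r + 1) → Finset α)) ∪
      (S2.image fun x => (Fin.snoc x.1 x.2 : Fin (r + 1) → Finset α)) := by
    intro A hA
    rw [mem_Bad] at hA
    obtain ⟨hA1, hA2⟩ := hA
    have e : (Fin.snoc (fun i : Fin r => A i.castSucc) (A (Fin.last r)) : Fin (r + 1) → Finset α) = A := by
      funext i
      induction i using Fin.lastCases with
      | last => simp
      | cast i => simp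
    rw [cls_snoc, linearIndependent_finSnoc, not_and_or, not_not] at hA2
    rw [Finset.mem_union]
    rcases hA2 with h | h
    · left
      rw [Finset.mem_image]
      refine ⟨⟨fun i => A i.castSucc, A (Fin.last r)⟩, ?_, e⟩
      rw [hS1, Finset.mem_product]
      exact ⟨(mem_Bad val S).2 ⟨fun i => hA1 _, h⟩, Finset.mem_powerset.2 (hA1 _)⟩
    · right
      rw [Finset.mem_image]
      refine ⟨⟨fun i => A i.castSucc, A (Fin.last r)⟩, ?_, e⟩
      rw [hS2, Finset.mem_sigma]
      refine ⟨?_, ?_⟩
      · rw [hall, Fintype.mem_piFinset]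
        exact fun i => Finset.mem_powerset.2 (hA1 _)
      · rw [Finset.mem_filter]
        exact ⟨Finset.mem_powerset.2 (hA1 _), mem_span_cls val S E _ _ _ _ h⟩
  have h1 : ((Bad val S E p q).card : ℝ) ≤ (S1.card : ℝ) + (S2.card : ℝ) := by
    have := (Finset.card_le_card hsub).trans (Finset.card_union_le _ _)
    have h2 := this.trans (Nat.add_le_add Finset.card_image_le Finset.card_image_le)
    exact_mod_cast h2
  have h2 : (S1.card : ℝ) = ((Bad val S E (fun i => p i.castSucc) (fun i => q i.castSucc)).card : ℝ) * 2 ^ S.card := by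
    rw [hS1, Finset.card_product, Finset.card_powerset]
    push_cast
    ring
  have h3 : (S2.card : ℝ) ≤ b * (2 ^ S.card) ^ (r + 1) := by
    have e1 : (S2.card : ℝ) = ∑ A ∈ all, (((S.powerset.filter fun B => comb val S (p (Fin.last r)) (q (Fin.last r)) B ∈
        Ez val S E (fun i => p i.castSucc) (fun i => q i.castSucc) A).card : ℕ) : ℝ) := by
      rw [hS2, Finset.card_sigma]
      push_cast
      rfl
    rw [e1]
    have e2 : ∀ A ∈ all, (((S.powerset.filter fun B => comb val S (p (Fin.last r)) (q (Fin.last r)) B ∈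
        Ez val S E (fun i => p i.castSucc) (fun i => q i.castSucc) A).card : ℕ) : ℝ) ≤ 2 ^ S.card * b := by
      intro A _
      refine (card_comb_mem val S _ _ (hpq (Fin.last r)) _).trans ?_
      have h5 := hb (Ez val S E (fun i => p i.castSucc) (fun i => q i.castSucc) A) (rank_Ez val S E e hE _ _ _)
      rw [div_eq_mul_one_div]
      exact mul_le_mul_of_nonneg_left h5 (by positivity)
    refine (Finset.sum_le_sum e2).trans_eq ?_
    rw [Finset.sum_const, hall, Fintype.card_piFinset, nsmul_eq_mul]
    simp only [Finset.card_powerset, Finset.prod_const, Finset.card_univ, Fintype.card_fin]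
    push_cast
    rw [pow_succ]
    ring
  rw [h2] at h1
  linarith

/-- the number of the choices that give elements which are dependent modulo `E` -/
theorem card_Bad (E : Submodule RA ℝ) (e : ℕ) (hE : Module.rank RA E ≤ e) (b : ℕ → ℝ) (R : ℕ)
    (hb : ∀ n, n < R → ∀ F : Submodule RA ℝ, Module.rank RA F ≤ ((e + n : ℕ) : Cardinal) →
      1 / Real.sqrt ((out val S F).card + 1) ≤ b n) :
    ∀ r, r ≤ R → ∀ p q : Fin r → α → RA, (∀ i w, p i w ≠ q i w) →
    ((Bad val S E p q).card : ℝ) ≤ (∑ i ∈ Finset.range r, b i) * (2 ^ S.card) ^ r := by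
  intro r
  induction r with
  | zero =>
    intro _ p q _
    have h1 : Bad val S E p q = ∅ := by
      rw [Finset.eq_empty_iff_forall_notMem]
      intro A hA
      rw [mem_Bad] at hA
      exact hA.2 linearIndependent_empty_type
    rw [h1]
    simp
  | succ r ih =>
    intro hr p q hpq
    refine (card_Bad_succ val S E e hE p q hpq (b r) (hb r (by omega))).trans ?_
    have h1 := ih (by omega) (fun i => p i.castSucc) (fun i => q i.castSucc) fun i w => hpq _ w
    rw [Finset.sum_range_succ, add_mul, pow_succ, ← mul_assoc, ← mul_assoc]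
    have h2 : (0 : ℝ) ≤ 2 ^ S.card := by positivity
    have h3 := mul_le_mul_of_nonneg_right h1 h2
    linarith

end Pool.Agent.H491.Rnd
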