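import Mathlib
import Pool.Agent.H491.Un2

set_option autoImplicit false

/-! # Fixed combinations of the orderings -/

namespace Pool.Agent.H491.Der

open Equiv

variable {D : ℕ}

/-- the combinations that are good for the set `A` of the odd letters -/
def WA (A : Finset (Fin D)) : Submodule ℚ (V D) :=
  Submodule.span ℚ {c | (∃ i, i ∉ A ∧ c ∈ U i) ∨ ∃ i j, i ≠ j ∧ c ∈ U i ∧ c ∈ U j}

theorem mem_split (a b : Fin D) (h : b ≠ a) : b ∈ pre a ++ suf a := by
  have h6 : b ∈ List.finRange D := List.mem_finRange b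
  rw [split_fin a] at h6
  simp only [List.mem_append, List.mem_cons] at h6 ⊢
  tauto

theorem Ps_zero (a b : Fin D) (h : b ≠ a) (c : V D) (hc : c ∈ U b) : Ps a (Th (suf a) c) = 0 := by
  rw [Ps, LinearMap.comp_apply]
  exact Th_eq_zero b _ (mem_split a b h) _ (R_mem' b a _ (Th_mem b _ c hc))

theorem WA_spec (A : Finset (Fin D)) (c : V D) (hc : c ∈ WA A) :
    Th (List.finRange D) c = 0 ∧ ∀ a ∈ A, Ps a (Th (suf a) c) = 0 := by
  refine Submodule.span_induction (p := fun c _ => Th (List.finRange D) c = 0 ∧ ∀ a ∈ A, Ps a (Th (suf a) c) = 0)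
    ?_ ?_ ?_ ?_ hc
  · rintro c (⟨i, hi, hc⟩ | ⟨i, j, hij, hci, hcj⟩)
    · refine ⟨Th_eq_zero i _ (List.mem_finRange i) c hc, fun a ha => Ps_zero a i ?_ c hc⟩
      rintro rfl
      exact hi ha
    · refine ⟨Th_eq_zero i _ (List.mem_finRange i) c hci, fun a _ => ?_⟩
      by_cases h : i = a
      · exact Ps_zero a j (fun h' => hij (h.trans h'.symm)) c hcj
      · exact Ps_zero a i h c hci
  · exact ⟨map_zero _, fun a _ => by rw [map_zero, map_zero]⟩
  · rintro x y _ _ ⟨h1, h2⟩ ⟨h3, h4⟩
    refine ⟨by rw [map_add, h1, h3, add_zero], fun a ha => by rw [map_add, map_add, h2 a ha, h4 a ha, add_zero]⟩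
  · rintro q x _ ⟨h1, h2⟩
    refine ⟨by rw [map_smul, h1, smul_zero], fun a ha => by rw [map_smul, map_smul, h2 a ha, smul_zero]⟩

/-- the tuples with odd entries exactly at the places of `A` -/
def tuples {D : ℕ} (A : Finset (Fin D)) (n : ℕ) : Finset (Fin D → ℕ) :=
  (Fintype.piFinset fun _ => Finset.Icc 2 (2 * n + 1)).filter fun a => ∀ i, Odd (a i) ↔ i ∈ A

theorem tuple_eq (A : Finset (Fin D)) (n : ℕ) (a : Fin D → ℕ) (ha : a ∈ tuples A n) :
    (∀ i, (a i - All.par A i) / 2 < n) ∧ (fun i => 2 * ((a i - All.par A i) / 2) + All.par A i) = a := by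
  rw [tuples, Finset.mem_filter, Fintype.mem_piFinset] at ha
  obtain ⟨h1, h2⟩ := ha
  have key : ∀ i, (a i - All.par A i) / 2 < n ∧ 2 * ((a i - All.par A i) / 2) + All.par A i = a i := by
    intro i
    have h3 := Finset.mem_Icc.1 (h1 i)
    have h4 := h2 i
    unfold All.par
    by_cases h : i ∈ A
    · rw [if_pos h]
      obtain ⟨k, hk⟩ := h4.2 h
      constructor <;> omega
    · rw [if_neg h]
      have h5 : Even (a i) := by
        rw [← Nat.not_odd_iff_even]
        exact fun h' => h (h4.1 h')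
      obtain ⟨k, hk⟩ := h5
      constructor <;> omega
  exact ⟨fun i => (key i).1, funext fun i => (key i).2⟩

theorem card_tuples (A : Finset (Fin D)) (n : ℕ) : n ^ D ≤ (tuples A n).card := by
  classical
  have h1 : (Fintype.piFinset fun _ : Fin D => Finset.range n).card = n ^ D := by
    rw [Fintype.card_piFinset_const, Finset.card_range]
  rw [← h1]
  apply Finset.card_le_card_of_injOn (fun x i => 2 * x i + All.par A i)
  · intro x hx
    rw [Finset.mem_coe, Fintype.mem_piFinset] at hx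
    rw [Finset.mem_coe, tuples, Finset.mem_filter, Fintype.mem_piFinset]
    constructor
    · intro i
      have := Finset.mem_range.1 (hx i)
      rw [Finset.mem_Icc]
      unfold All.par
      beta_reduce
      split_ifs <;> omega
    · intro i
      unfold All.par
      beta_reduce
      split_ifs with h
      · simp only [h, iff_true]
        exact ⟨x i + 1, by ring⟩
      · simp only [h, iff_false, Nat.not_odd_iff_even]
        exact ⟨x i + 1, by ring⟩
  · intro x _ x' _ h
    funext i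
    have := congrFun h i
    simp only at this
    omega

open Classical in
/-- **Density one.** -/
theorem almost_all {D : ℕ} (A : Finset (Fin D)) (c : V D) (hc : c ∈ WA A) (hc0 : c ≠ 0) (ε : ℝ) (hε : 0 < ε) :
    ∃ C : ℕ, ∀ n r : ℕ, C * (r + 1) ≤ n → ∀ (L : Subfield ℝ), Transcendental L Real.pi → ∀ (E : Submodule L ℝ),
      Module.rank L E ≤ (r : Cardinal) →
      (((tuples A n).filter fun a => GG c a ∈ E).card : ℝ) ≤ ε * ((tuples A n).card : ℝ) := by
  rcases Nat.eq_zero_or_pos D with rfl | hD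
  · exfalso
    apply hc0
    have h1 : WA A = ⊥ := by
      rw [WA, Submodule.span_eq_bot]
      rintro c (⟨i, -⟩ | ⟨i, -⟩)
      · exact i.elim0
      · exact i.elim0
    rw [h1] at hc
    exact (Submodule.mem_bot ℚ).1 hc
  obtain ⟨d, rfl⟩ : ∃ d, D = d + 1 := ⟨D - 1, by omega⟩
  have hp : ∀ i, 2 ≤ All.par A i := by
    intro i
    unfold All.par
    split_ifs <;> omega
  obtain ⟨hΘ, hΨ⟩ := WA_spec A c hc
  have key : ∃ C : ℕ, ∀ n r : ℕ, C * (r + 1) ≤ n → ∀ (L : Subfield ℝ), Transcendental L Real.pi →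
      ∀ (E : Submodule L ℝ), Module.rank L E ≤ (r : Cardinal) → ∀ X : Finset (Fin (d + 1) → ℕ),
      (∀ x ∈ X, (∀ i, x i < n) ∧ GG c (fun i => 2 * x i + All.par A i) ∈ E) → (X.card : ℝ) ≤ ε * (n : ℝ) ^ (d + 1) := by
    rcases decomp2 A c hc0 hΘ hΨ with ⟨a, l', c₀, h1, h2, h3, h4, h5, h6, h7⟩ |
        ⟨a, b, l', c₀, h1, h1', hab, h2, h2', h3, h4, h5, h5', h6, h7⟩
    · have hpa : Even (All.par A a) := by
        unfold All.par
        rw [if_neg h1]
        exact even_two
      exact rigidU (All.par A) hp a hpa l' h2 h3 c c₀ h4 h5 h6 h7 ε hε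
    · have hpab : Even (All.par A a + All.par A b) := by
        unfold All.par
        rw [if_pos h1, if_pos h1']
        exact ⟨3, rfl⟩
      exact rigidU2 (All.par A) hp a b hab hpab l' h2 h2' h3 c c₀ h4 h5 h5' h6 h7 ε hε
  obtain ⟨C, hC⟩ := key
  refine ⟨C, ?_⟩
  intro n r hn L hL E hE
  set X : Finset (Fin (d + 1) → ℕ) := ((tuples A n).filter fun a => GG c a ∈ E).image
    fun a i => (a i - All.par A i) / 2 with hX
  have hcard : ((tuples A n).filter fun a => GG c a ∈ E).card = X.card := by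
    rw [hX, Finset.card_image_of_injOn]
    intro a ha a' ha' h
    rw [Finset.mem_coe, Finset.mem_filter] at ha ha'
    rw [← (tuple_eq A n a ha.1).2, ← (tuple_eq A n a' ha'.1).2]
    funext i
    have := congrFun h i
    simp only at this ⊢
    rw [this]
  have h1 := hC n r hn L hL E hE X (by
    intro x hx
    rw [hX, Finset.mem_image] at hx
    obtain ⟨a, ha, rfl⟩ := hx
    rw [Finset.mem_filter] at ha
    obtain ⟨h2, h3⟩ := tuple_eq A n a ha.1
    refine ⟨h2, ?_⟩
    simp only [h3]
    exact ha.2)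
  rw [hcard]
  refine h1.trans (mul_le_mul_of_nonneg_left ?_ hε.le)
  exact_mod_cast card_tuples A n

end Pool.Agent.H491.Der
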