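import Mathlib
import Pool.Agent.H491.Un1

set_option autoImplicit false

/-! # Arbitrary functions of the merged indices are killed -/

namespace Pool.Agent.H491.Der

open Equiv

variable {D : ℕ}

/-- `g` depends only on `a_i + a_j` and on the other entries -/
def Mg (i j : Fin D) (g : (Fin D → ℕ) → ℝ) : Prop :=
  ∀ a a' : Fin D → ℕ, (∀ k, k ≠ i → k ≠ j → a k = a' k) → a i + a j = a' i + a' j → g a = g a'

/-- sums of functions of the merged indices -/
def Noise (Q : PP D → Prop) (g : (Fin D → ℕ) → ℝ) : Prop :=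
  ∃ γ : PP D → (Fin D → ℕ) → ℝ, (∀ q, Q q → Mg q.1.1 q.1.2 (γ q)) ∧ (∀ q, ¬ Q q → γ q = fun _ => 0) ∧ ∀ a, g a = ∑ q, γ q a

theorem mmv_off (M : ℕ) (v v' : PP D → ℕ) (q0 : PP D) (h : ∀ q, q ≠ q0 → v q = v' q) (i : Fin D) (h1 : i ≠ q0.1.1)
    (h2 : i ≠ q0.1.2) : mmv M v i = mmv M v' i := by
  unfold mmv
  refine Finset.sum_congr rfl fun q _ => ?_
  by_cases hq : q = q0
  · subst hq
    rw [if_neg (Ne.symm h1), if_neg (Ne.symm h2), if_neg (Ne.symm h1), if_neg (Ne.symm h2)]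
  · rw [h q hq]

theorem mmv_on (M : ℕ) (v v' : PP D → ℕ) (q0 : PP D) (h : ∀ q, q ≠ q0 → v q = v' q) (hv : v q0 ≤ M) (hv' : v' q0 ≤ M) :
    mmv M v q0.1.1 + mmv M v q0.1.2 = mmv M v' q0.1.1 + mmv M v' q0.1.2 := by
  have key : ∀ u : PP D → ℕ, u q0 ≤ M → mmv M u q0.1.1 + mmv M u q0.1.2 = M + ∑ q ∈ Finset.univ.erase q0,
      (((if q.1.1 = q0.1.1 then u q else 0) + if q.1.2 = q0.1.1 then M - u q else 0) +
        ((if q.1.1 = q0.1.2 then u q else 0) + if q.1.2 = q0.1.2 then M - u q else 0)) := by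
    intro u hu
    unfold mmv
    rw [← Finset.sum_add_distrib, ← Finset.add_sum_erase _ _ (Finset.mem_univ q0)]
    congr 1
    rw [if_pos rfl, if_neg (Ne.symm q0.2), if_neg q0.2, if_pos rfl]
    omega
  rw [key v hv, key v' hv']
  congr 1
  refine Finset.sum_congr rfl fun q hq => ?_
  rw [h q (Finset.ne_of_mem_erase hq)]

theorem aa_upd {w : ℕ} (p y : Fin D → ℕ) (M : ℕ) (t : (Fin D ⊕ PP D) → Fin w → ℕ) (htM : ∀ κ k, t κ k ≤ M) (a : Fin D)
    (e : (Fin D ⊕ PP D) → Fin w) (b : ℕ) (q0 : PP D) (k : Fin w) (g : (Fin D → ℕ) → ℝ) (hg : Mg q0.1.1 q0.1.2 g) :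
    g (aa p y M t a (Function.update e (Sum.inr q0) k) b) = g (aa p y M t a e b) := by
  have hinl : ∀ i, Function.update e (Sum.inr q0) k (Sum.inl i) = e (Sum.inl i) := by
    intro i
    rw [Function.update_of_ne]
    exact Sum.inl_ne_inr
  have hinr : ∀ q, q ≠ q0 → t (Sum.inr q) (Function.update e (Sum.inr q0) k (Sum.inr q)) = t (Sum.inr q) (e (Sum.inr q)) := by
    intro q hq
    rw [Function.update_of_ne]
    exact fun h => hq (Sum.inr_injective h)
  apply hg
  · intro i h1 h2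
    rw [aa, aa, hinl, mmv_off M _ (fun q => t (Sum.inr q) (e (Sum.inr q))) q0 hinr i h1 h2]
  · have h3 := mmv_on M (fun q => t (Sum.inr q) (Function.update e (Sum.inr q0) k (Sum.inr q)))
      (fun q => t (Sum.inr q) (e (Sum.inr q))) q0 hinr (htM _ _) (htM _ _)
    simp only [aa, hinl]
    omega

/-- a sum over one direction of the cube -/
theorem sum_dir {w : ℕ} {κ : Type*} [Fintype κ] [DecidableEq κ] (κ0 : κ) (F : (κ → Fin w) → ℝ)
    (hF : ∀ e, ∑ k, F (Function.update e κ0 k) = 0) : ∑ e, F e = 0 := by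
  rw [← (Equiv.funSplitAt κ0 (Fin w)).symm.sum_comp F, Fintype.sum_prod_type_right]
  apply Finset.sum_eq_zero
  intro f _
  rcases Nat.eq_zero_or_pos w with hw | hw
  · subst hw
    simp
  · let k0 : Fin w := ⟨0, hw⟩
    rw [← hF ((Equiv.funSplitAt κ0 (Fin w)).symm (k0, f))]
    refine Finset.sum_congr rfl fun k _ => ?_
    congr 1
    funext j
    by_cases hj : j = κ0
    · subst hj
      simp [Equiv.funSplitAt, Equiv.piSplitAt]
    · simp [Equiv.funSplitAt, Equiv.piSplitAt, hj]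

theorem noise_zero {w : ℕ} (wt : PP D → Fin w → ℝ) (Q : PP D → Prop) (hwt : ∀ q, Q q → ∑ k, wt q k = 0)
    (p y : Fin D → ℕ) (M : ℕ) (t : (Fin D ⊕ PP D) → Fin w → ℕ) (htM : ∀ κ k, t κ k ≤ M) (a : Fin D) (b : ℕ)
    (lam : Fin D → Fin w → ℝ) (g : (Fin D → ℕ) → ℝ) (hg : Noise Q g) :
    ∑ e : (Fin D ⊕ PP D) → Fin w, ((∏ i, lam i (e (Sum.inl i))) * ∏ q : PP D, wt q (e (Sum.inr q))) *
      g (aa p y M t a e b) = 0 := by
  classical
  obtain ⟨γ, h1, h2, h3⟩ := hg
  simp only [h3, Finset.mul_sum]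
  rw [Finset.sum_comm]
  apply Finset.sum_eq_zero
  intro q0 _
  by_cases hQ : Q q0
  · apply sum_dir (Sum.inr q0)
    intro e
    have key : ∀ k, ((∏ i, lam i (Function.update e (Sum.inr q0) k (Sum.inl i))) *
        ∏ q : PP D, wt q (Function.update e (Sum.inr q0) k (Sum.inr q))) *
        γ q0 (aa p y M t a (Function.update e (Sum.inr q0) k) b) =
        wt q0 k * (((∏ i, lam i (e (Sum.inl i))) * ∏ q ∈ Finset.univ.erase q0, wt q (e (Sum.inr q))) *
          γ q0 (aa p y M t a e b)) := by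
      intro k
      rw [aa_upd p y M t htM a e b q0 k (γ q0) (h1 q0 hQ), ← Finset.mul_prod_erase _ _ (Finset.mem_univ q0),
        Function.update_self]
      have e1 : ∏ i, lam i (Function.update e (Sum.inr q0) k (Sum.inl i)) = ∏ i, lam i (e (Sum.inl i)) := by
        refine Finset.prod_congr rfl fun i _ => ?_
        rw [Function.update_of_ne Sum.inl_ne_inr]
      have e2 : ∏ q ∈ Finset.univ.erase q0, wt q (Function.update e (Sum.inr q0) k (Sum.inr q)) =
          ∏ q ∈ Finset.univ.erase q0, wt q (e (Sum.inr q)) := by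
        refine Finset.prod_congr rfl fun q hq => ?_
        rw [Function.update_of_ne]
        exact fun h => (Finset.ne_of_mem_erase hq) (Sum.inr_injective h)
      rw [e1, e2]
      ring
    simp only [key]
    rw [← Finset.sum_mul, hwt q0 hQ, zero_mul]
  · rw [h2 q0 hQ]
    simp

theorem sum_sw_zero {w : ℕ} (k0 k1 : Fin w) (h : k0 ≠ k1) : ∑ k, sw k0 k1 k = 0 := by
  have := sum_sw k0 k1 h fun _ => 1
  simp only [mul_one, Fin.sum_univ_two, Fin.val_zero, pow_zero, Fin.val_one, pow_one] at this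
  rw [this]
  norm_num

end Pool.Agent.H491.Der
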