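import Mathlib
import Pool.Agent.H491.Un4

set_option autoImplicit false

/-! # The main lemmas modulo arbitrary functions of the merged indices -/

namespace Pool.Agent.H491.Der

open Filter Topology

variable {D : ℕ}

open Polynomial in
theorem analyticR {d : ℕ} (Q : PP (d + 1) → Prop) (p : Fin (d + 1) → ℕ) (hp : ∀ i, 2 ≤ p i) (a : Fin (d + 1)) (hpa : Even (p a))
    (l' : List (Fin (d + 1))) (hal : a ∉ l') (hl' : l'.Nodup) (c c₀ : V (d + 1)) (hc₀ : c₀ ≠ 0) (hc₀a : c₀ ∈ U a)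
    (hTh : Th l' c₀ = c₀) (hcc : c - c₀ ∈ UU l') (w : ℕ)
    (hw : (d + 1) + (d + 1) * 2 ^ (Fintype.card (PP (d + 1))) + 2 ≤ w) (M : ℕ)
    (t : (Fin (d + 1) ⊕ PP (d + 1)) → Fin w → ℕ) (ht : ∀ κ, Function.Injective (t κ)) (htM : ∀ κ k, t κ k ≤ M) :
    ∃ Y : ℕ, ∀ y : Fin (d + 1) → ℕ, (∀ i, Y ≤ y i) → ∀ (L : Subfield ℝ), Transcendental L Real.pi →
      ∀ (E : Submodule L ℝ) (r : ℕ), Module.rank L E ≤ (r : Cardinal) → ∀ gn : (Fin (d + 1) → ℕ) → ℝ, Noise Q gn →
      ∀ B : Finset ℕ, (∀ b ∈ B, ∀ e, GG c (aa p y M t a e b) + gn (aa p y M t a e b) ∈ E) →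
      B.card < w ^ (Fintype.card (Fin (d + 1) ⊕ PP (d + 1))) * r + 2 ^ (Fintype.card (PP (d + 1))) := by
  classical
  set μ := 2 ^ (Fintype.card (PP (d + 1))) with hμ
  let k0 : Fin w := ⟨0, by omega⟩
  let k1 : Fin w := ⟨1, by omega⟩
  have hk : k0 ≠ k1 := by simp [k0, k1, Fin.ext_iff]
  set tt : PP (d + 1) → Fin 2 → ℕ := fun q k => t (Sum.inr q) (![k0, k1] k) with htt
  have httM : ∀ q k, tt q k ≤ M := fun q k => htM _ _
  have htt01 : ∀ q, tt q 0 ≠ tt q 1 := by
    intro q h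
    apply hk
    exact ht (Sum.inr q) (by simpa [htt] using h)
  obtain ⟨ν₀, hν₀, hν₀D, hct⟩ := exists_point c₀ hc₀
  -- the moments
  let Ms : Fin (d + 1) → Finset ℕ := fun j => Finset.univ.image fun ε => mm M tt ε j
  have hMs : ∀ j, (Ms j).card ≤ μ := by
    intro j
    refine (Finset.card_image_le).trans ?_
    rw [Finset.card_univ, Fintype.card_fun, Fintype.card_fin]
  let s : Fin (d + 1) → ℕ := fun j => (Ms j).card
  let mo : (j : Fin (d + 1)) → Fin (s j) → ℕ := fun j => (Ms j).orderEmbOfFin rfl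
  have hmo : ∀ j, Function.Injective (mo j) := fun j => ((Ms j).orderEmbOfFin rfl).injective
  have hmo' : ∀ j ε, ∃ q, mo j q = mm M tt ε j := by
    intro j ε
    have h1 : mm M tt ε j ∈ Ms j := Finset.mem_image_of_mem _ (Finset.mem_univ ε)
    have h2 := Finset.range_orderEmbOfFin (Ms j) rfl
    have h3 : mm M tt ε j ∈ Set.range ((Ms j).orderEmbOfFin rfl) := by
      rw [h2]
      exact h1
    obtain ⟨q, hq⟩ := h3
    exact ⟨q, hq⟩
  let g : (j : Fin (d + 1)) → Fin (s j) → ℕ := fun j q => (d + 1) + l'.idxOf j * μ + (q : ℕ)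
  have hg : ∀ j, Function.Injective (g j) := by
    intro j q q' h
    simp only [g] at h
    exact Fin.ext (by omega)
  have hgw : ∀ j ∈ l', ∀ q, g j q < w := by
    intro j hj q
    have h1 : l'.idxOf j < l'.length := List.idxOf_lt_length_of_mem hj
    have h2 : l'.length ≤ d + 1 := by
      have := hl'.length_le_card
      simpa using this
    have h3 : (l'.idxOf j + 1) * μ ≤ (d + 1) * μ := Nat.mul_le_mul_right _ (by omega)
    have h4 := q.2
    have h5 := hMs j
    rw [add_mul, one_mul] at h3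
    simp only [g]
    simp only [s] at h4
    omega
  -- the letters
  have hlet : ∀ j ∈ l', ∃ x₀ : Fin (s j) → ℝ, (∀ r, X (ν₀ j) ^ (2 * mo j r) + ∑ q, x₀ q * X (g j q) ^ (2 * mo j r) = 0) ∧
      ∀ ε : ℝ, 0 < ε → ∃ Y : ℕ, ∀ y : ℕ, Y ≤ y → ∃ lam : Fin w → ℝ,
        (∀ r, ∑' n, psi (t (Sum.inl j)) (p j) y lam n * X n ^ (2 * mo j r) = 0) ∧
        ∑' n, ‖psi (t (Sum.inl j)) (p j) y lam n - th (ν₀ j) (g j) x₀ n‖ ≤ ε := by
    intro j hj
    exact letter (t (Sum.inl j)) (ht _) (p j) (hp j) (ν₀ j) (by have := hν₀D j; omega) (g j) (hg j) (hgw j hj) (mo j) (hmo j)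
  have hlet' : ∀ j, ∃ x₀ : Fin (s j) → ℝ, j ∈ l' → ((∀ r, X (ν₀ j) ^ (2 * mo j r) + ∑ q, x₀ q * X (g j q) ^ (2 * mo j r) = 0) ∧
      ∀ ε : ℝ, 0 < ε → ∃ Y : ℕ, ∀ y : ℕ, Y ≤ y → ∃ lam : Fin w → ℝ,
        (∀ r, ∑' n, psi (t (Sum.inl j)) (p j) y lam n * X n ^ (2 * mo j r) = 0) ∧
        ∑' n, ‖psi (t (Sum.inl j)) (p j) y lam n - th (ν₀ j) (g j) x₀ n‖ ≤ ε) := by
    intro j
    by_cases hj : j ∈ l'
    · obtain ⟨x, hx⟩ := hlet j hj
      exact ⟨x, fun _ => hx⟩
    · exact ⟨fun _ => 0, fun h => absurd h hj⟩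
  choose x₀ hx₀ using hlet'
  set θ : Fin (d + 1) → ℕ → ℝ := fun i => if i ∈ l' then th (ν₀ i) (g i) (x₀ i) else dl (ν₀ i) with hθ
  have hθs : Sm θ := by
    intro i
    by_cases hi : i ∈ l'
    · simp only [hθ, hi, if_true]
      exact summable_th _ _ _
    · simp only [hθ, hi, if_false]
      exact summable_dl _
  have hval : OmK (KQ M tt c₀) θ = ct c₀ ν₀ * QQ M tt ν₀ := by
    have h1 := eval_QQ M tt s g x₀ c₀ l' (d + 1) ν₀ hν₀ hν₀D hl' (by
      have := chain_idxOf l' hl' s μ hMs (d + 1) l' [] (by simp)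
      simpa using this) (by
      intro ε j hj
      obtain ⟨q, hq⟩ := hmo' j ε
      have := (hx₀ j hj).1 q
      rw [hq] at this
      exact this)
    rw [hTh] at h1
    exact h1
  set Z : ℝ := |ct c₀ ν₀ * QQ M tt ν₀| with hZ
  have hZ0 : 0 < Z := abs_pos.2 (mul_ne_zero hct (QQ_ne M tt httM htt01 ν₀ hν₀))
  set Bd : ℝ := 1 + ∑ i, nn (θ i) with hBd
  have hBd1 : 1 ≤ Bd := by
    have : 0 ≤ ∑ i, nn (θ i) := Finset.sum_nonneg fun i _ => nn_nonneg _
    linarith
  have hθB : ∀ i, nn (θ i) + 1 ≤ Bd := by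
    intro i
    have := Finset.single_le_sum (f := fun i => nn (θ i)) (fun i _ => nn_nonneg _) (Finset.mem_univ i)
    linarith
  set T : ℝ := nc c₀ * Bd ^ (d + 1) * (d + 1) + 1 with hT
  have hT0 : 0 < T := by
    have := nc_nonneg c₀
    positivity
  set ε₀ : ℝ := min 1 (Z / (2 * T)) with hε₀
  have hε₀0 : 0 < ε₀ := lt_min one_pos (by positivity)
  -- the coefficients for all letters
  have hall : ∀ j, j ≠ a → ∃ Y : ℕ, ∀ y : ℕ, Y ≤ y → ∃ lam : Fin w → ℝ,
      (j ∈ l' → ∀ ε, ∑' n, psi (t (Sum.inl j)) (p j) y lam n * X n ^ (2 * mm M tt ε j) = 0) ∧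
      ∑' n, ‖psi (t (Sum.inl j)) (p j) y lam n - θ j n‖ ≤ ε₀ := by
    intro j hja
    by_cases hj : j ∈ l'
    · obtain ⟨Y, hY⟩ := (hx₀ j hj).2 ε₀ hε₀0
      refine ⟨Y, fun y hy => ?_⟩
      obtain ⟨lam, h1, h2⟩ := hY y hy
      refine ⟨lam, fun _ ε => ?_, ?_⟩
      · obtain ⟨q, hq⟩ := hmo' j ε
        have := h1 q
        rw [hq] at this
        exact this
      · simp only [hθ, hj, if_true]
        exact h2
    · obtain ⟨x, -, hx⟩ := letter (t (Sum.inl j)) (ht _) (p j) (hp j) (ν₀ j) (by have := hν₀D j; omega) (s := 0)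
        (fun q => q.elim0) (fun q => q.elim0) (fun q => q.elim0) (fun q => q.elim0) (fun q => q.elim0)
      obtain ⟨Y, hY⟩ := hx ε₀ hε₀0
      refine ⟨Y, fun y hy => ?_⟩
      obtain ⟨lam, -, h2⟩ := hY y hy
      refine ⟨lam, fun h => absurd h hj, ?_⟩
      simp only [hθ, hj, if_false]
      have e : th (ν₀ j) (fun q : Fin 0 => q.elim0) x = dl (ν₀ j) := by
        funext n
        rw [th_eq]
        simp
      rw [← e]
      exact h2
  have hall' : ∀ j, ∃ Y : ℕ, j ≠ a → ∀ y : ℕ, Y ≤ y → ∃ lam : Fin w → ℝ,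
      (j ∈ l' → ∀ ε, ∑' n, psi (t (Sum.inl j)) (p j) y lam n * X n ^ (2 * mm M tt ε j) = 0) ∧
      ∑' n, ‖psi (t (Sum.inl j)) (p j) y lam n - θ j n‖ ≤ ε₀ := by
    intro j
    by_cases hj : j = a
    · exact ⟨0, fun h => absurd hj h⟩
    · obtain ⟨Y, hY⟩ := hall j hj
      exact ⟨Y, fun _ => hY⟩
  choose Yf hYf using hall'
  refine ⟨∑ j, Yf j, ?_⟩
  intro y hy L hL E r hE gn hgn B hB
  have hlam : ∀ j, ∃ lam : Fin w → ℝ, j ≠ a → ((j ∈ l' → ∀ ε, ∑' n, psi (t (Sum.inl j)) (p j) (y j) lam n *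
      X n ^ (2 * mm M tt ε j) = 0) ∧ ∑' n, ‖psi (t (Sum.inl j)) (p j) (y j) lam n - θ j n‖ ≤ ε₀) := by
    intro j
    by_cases hj : j = a
    · exact ⟨fun _ => 0, fun h => absurd hj h⟩
    · obtain ⟨lam, h⟩ := hYf j hj (y j) ((Finset.single_le_sum (f := Yf) (fun _ _ => Nat.zero_le _) (Finset.mem_univ j)).trans (hy j))
      exact ⟨lam, fun _ => h⟩
  choose lam' hlam' using hlam
  set lam : Fin (d + 1) → Fin w → ℝ := fun i => if i = a then fun k => if k = k0 then 1 else 0 else lam' i with hlamdef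
  have hlam_ne : ∀ i, i ≠ a → lam i = lam' i := fun i hi => by simp only [hlamdef, hi, if_false]
  have hpsia : ∀ n, psi (t (Sum.inl a)) (p a) (y a) (lam a) n = X n ^ (2 * y a + p a + 2 * t (Sum.inl a) k0) := by
    intro n
    simp only [psi, hlamdef, if_true]
    rw [Finset.sum_eq_single k0]
    · rw [if_pos rfl, one_mul, ← pow_add]
    · intro k _ hk'
      rw [if_neg hk', zero_mul]
    · intro h
      exact absurd (Finset.mem_univ _) h
  -- the functions
  set φ₁ : Fin (d + 1) → ℕ → ℝ := fun i => if i = a then dl (ν₀ a) else psi (t (Sum.inl i)) (p i) (y i) (lam i) with hφ₁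
  have hφ₁s : Sm φ₁ := by
    intro i
    by_cases hi : i = a
    · simp only [hφ₁, hi, if_true]
      exact summable_dl _
    · simp only [hφ₁, hi, if_false]
      exact summable_psi _ _ _ (hp i) _
  let fb : ℕ → ℕ → ℝ := fun b n => X n ^ (2 * b) * psi (t (Sum.inl a)) (p a) (y a) (lam a) n
  have hfb : ∀ b, Summable fun n => ‖fb b n‖ := by
    intro b
    refine Summable.of_nonneg_of_le (fun n => norm_nonneg _) (fun n => ?_) (summable_psi (t (Sum.inl a)) (p a) (y a) (hp a) (lam a))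
    rw [norm_mul, Real.norm_of_nonneg (pow_nonneg (X_pos n).le _)]
    exact mul_le_of_le_one_left (norm_nonneg _) (pow_le_one₀ (X_pos n).le (X_le n))
  obtain ⟨om, hom⟩ := factor M tt httM c₀ a hc₀a φ₁ hφ₁s
  set W : ℝ[X] := ∑ ε : PP (d + 1) → Fin 2, C (sgn ε * om ε) * Polynomial.X ^ (2 * mm M tt ε a) with hW
  set Pp : ℕ := 2 * y a + p a + 2 * t (Sum.inl a) k0 with hPp
  have hPpe : Even Pp := by
    rw [hPp]
    obtain ⟨x, hx⟩ := hpa
    exact ⟨y a + x + t (Sum.inl a) k0, by omega⟩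
  have hPp2 : 2 ≤ Pp := by
    have := hp a
    omega
  -- the relation
  let χ : ((Fin (d + 1) ⊕ PP (d + 1)) → Fin w) → ℝ := fun e =>
    (∏ i, lam i (e (Sum.inl i))) * ∏ q : PP (d + 1), sw k0 k1 (e (Sum.inr q))
  have hrel : ∀ b, ∑ e, χ e * GG c (aa p y M t a e b) = All.pz (Polynomial.X ^ (2 * b + Pp) * W) := by
    intro b
    have haa : ∀ e i, 2 ≤ aa p y M t a e b i := by
      intro e i
      have := hp i
      unfold aa
      omega
    have h1 : HasSum (fun ν : Fin (d + 1) → ℕ => ∑ e, χ e * (ct c ν * ∏ i, X (ν i) ^ aa p y M t a e b i))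
        (∑ e, χ e * GG c (aa p y M t a e b)) := hasSum_sum fun e _ => (hasSum_GG c _ (haa e)).mul_left _
    have h2 : ∀ ν : Fin (d + 1) → ℕ, ∑ e, χ e * (ct c ν * ∏ i, X (ν i) ^ aa p y M t a e b i) =
        KQ M tt c ν * ∏ i, (Function.update φ₁ a (fb b)) i (ν i) := by
      intro ν
      have h3 := sum_e k0 k1 hk p y M t a b lam ν
      have h4 : ∑ e, χ e * (ct c ν * ∏ i, X (ν i) ^ aa p y M t a e b i) =
          ct c ν * ∑ e, χ e * ∏ i, X (ν i) ^ aa p y M t a e b i := by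
        rw [Finset.mul_sum]
        refine Finset.sum_congr rfl fun e _ => ?_
        ring
      rw [h4, h3, KQ, mul_assoc]
      congr 2
      refine Finset.prod_congr rfl fun i _ => ?_
      by_cases hi : i = a
      · subst hi
        rw [if_pos rfl, Function.update_self]
      · rw [if_neg hi, Function.update_of_ne hi, one_mul]
        simp only [hφ₁, hi, if_false]
    simp only [h2] at h1
    have hSmb := Sm_update φ₁ hφ₁s a (fb b) (hfb b)
    have h5 : ∑ e, χ e * GG c (aa p y M t a e b) = OmK (KQ M tt c) (Function.update φ₁ a (fb b)) := h1.tsum_eq.symm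
    have h6 : OmK (KQ M tt c) (Function.update φ₁ a (fb b)) = OmK (KQ M tt c₀) (Function.update φ₁ a (fb b)) +
        OmK (KQ M tt (c - c₀)) (Function.update φ₁ a (fb b)) := by
      rw [OmK, OmK, OmK, ← (OmK_summable _ _ (KQ_le M tt c₀) _ hSmb).tsum_add (OmK_summable _ _ (KQ_le M tt (c - c₀)) _ hSmb)]
      refine tsum_congr fun ν => ?_
      rw [KQ, KQ, KQ, ct_sub]
      ring
    have h7 : OmK (KQ M tt (c - c₀)) (Function.update φ₁ a (fb b)) = 0 := by
      apply kill M tt httM _ hSmb l' _ _ hcc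
      intro j hj ε
      have hja : j ≠ a := fun h => hal (h ▸ hj)
      rw [Function.update_of_ne hja]
      simp only [hφ₁, hja, if_false]
      rw [hlam_ne j hja]
      exact (hlam' j hja).1 hj ε
    rw [h5, h6, h7, add_zero, hom (fb b) (hfb b), hW, Finset.mul_sum, map_sum]
    refine Finset.sum_congr rfl fun ε _ => ?_
    have h8 : ∑' n, fb b n * X n ^ (2 * mm M tt ε a) = Sq.z (2 * b + Pp + 2 * mm M tt ε a) := by
      rw [← (hasSum_X (2 * b + Pp + 2 * mm M tt ε a) (by omega)).tsum_eq]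
      refine tsum_congr fun n => ?_
      simp only [fb]
      rw [hpsia, ← pow_add, ← pow_add]
    have h9 : (Polynomial.X : ℝ[X]) ^ (2 * b + Pp) * (C (sgn ε * om ε) * Polynomial.X ^ (2 * mm M tt ε a)) =
        C (sgn ε * om ε) * Polynomial.X ^ (2 * b + Pp + 2 * mm M tt ε a) := by
      rw [pow_add _ (2 * b + Pp)]
      ring
    rw [h8, h9, All.pz_C_mul_X_pow]
    ring
  -- the space
  set Nn := Fintype.card ((Fin (d + 1) ⊕ PP (d + 1)) → Fin w) with hNn
  have hNn' : Nn = w ^ (Fintype.card (Fin (d + 1) ⊕ PP (d + 1))) := by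
    rw [hNn, Fintype.card_fun, Fintype.card_fin]
  let en := Fintype.equivFin ((Fin (d + 1) ⊕ PP (d + 1)) → Fin w)
  let cf : ℕ → ℝ := fun n => if h : n < Nn then χ (en.symm ⟨n, h⟩) else 0
  have hcf : ∀ e, cf (en e : ℕ) = χ e := by
    intro e
    simp only [cf]
    rw [dif_pos (en e).2]
    simp
  have hrank := All.rank_SS E cf r hE Nn
  have hmem : ∀ b ∈ B, All.pz (Polynomial.X ^ (2 * b + Pp) * W) ∈ All.SS E cf Nn := by
    intro b hb
    have hz : ∑ e, χ e * gn (aa p y M t a e b) = 0 :=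
      noise_zero (fun _ => sw k0 k1) Q (fun _ _ => sum_sw_zero k0 k1 hk) p y M t htM a b lam gn hgn
    have hr : All.pz (Polynomial.X ^ (2 * b + Pp) * W) =
        ∑ e, χ e * (GG c (aa p y M t a e b) + gn (aa p y M t a e b)) := by
      simp only [mul_add, Finset.sum_add_distrib]
      rw [hz, add_zero, hrel b]
    rw [hr]
    apply Submodule.sum_mem
    intro e _
    rw [← hcf e]
    exact All.mem_SS E cf Nn _ (en e).2 _ (hB b hb e)
  by_cases hW0 : W = 0
  · exfalso
    have h1 : OmK (KQ M tt c₀) φ₁ = 0 := by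
      have h2 := hom (dl (ν₀ a)) (summable_dl _)
      have h3 : Function.update φ₁ a (dl (ν₀ a)) = φ₁ := by
        funext i
        by_cases hi : i = a
        · subst hi
          rw [Function.update_self]
          simp only [hφ₁, if_true]
        · rw [Function.update_of_ne hi]
      rw [h3] at h2
      rw [h2]
      have h4 : W.eval (X (ν₀ a)) = 0 := by rw [hW0]; simp
      rw [hW, Polynomial.eval_finsetSum] at h4
      rw [← h4]
      refine Finset.sum_congr rfl fun ε _ => ?_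
      have h5 : ∑' n, dl (ν₀ a) n * X n ^ (2 * mm M tt ε a) = X (ν₀ a) ^ (2 * mm M tt ε a) := by
        rw [tsum_eq_single (ν₀ a)]
        · simp [dl]
        · intro n hn
          rw [dl, if_neg hn, zero_mul]
      rw [h5, Polynomial.eval_mul, Polynomial.eval_C, Polynomial.eval_pow, Polynomial.eval_X]
      ring
    have hclose : ∀ i, nn (fun n => φ₁ i n - θ i n) ≤ ε₀ := by
      intro i
      by_cases hi : i = a
      · have e : (fun n => φ₁ i n - θ i n) = fun _ => 0 := by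
          funext n
          simp only [hφ₁, hθ, hi, if_true, hal, if_false, sub_self]
        rw [e, nn]
        simp only [norm_zero, tsum_zero]
        exact hε₀0.le
      · have h2 := (hlam' i hi).2
        have e : (fun n => φ₁ i n - θ i n) = fun n => psi (t (Sum.inl i)) (p i) (y i) (lam' i) n - θ i n := by
          funext n
          simp only [hφ₁, hi, if_false]
          rw [hlam_ne i hi]
        rw [e]
        exact h2
    have hφB : ∀ i, nn (φ₁ i) ≤ Bd := by
      intro i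
      have h2 := nn_le_add (φ₁ i) (θ i) (hφ₁s i) (hθs i)
      have h3 := hclose i
      have h4 := hθB i
      have h5 : ε₀ ≤ 1 := min_le_left _ _
      linarith
    have h2 := OmK_close (KQ M tt c₀) (nc c₀) (nc_nonneg c₀) (KQ_le M tt c₀) φ₁ θ hφ₁s hθs Bd hBd1 hφB
      (fun i => by have := hθB i; linarith)
    rw [h1, hval, zero_sub, abs_neg, ← hZ] at h2
    have h3 : ∑ i, nn (fun n => φ₁ i n - θ i n) ≤ (d + 1) * ε₀ := by
      calc _ ≤ ∑ _i : Fin (d + 1), ε₀ := Finset.sum_le_sum fun i _ => hclose i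
        _ = (d + 1) * ε₀ := by simp
    have h4 : Z ≤ T * ε₀ := by
      have h5 : 0 ≤ nc c₀ * Bd ^ (d + 1) := mul_nonneg (nc_nonneg c₀) (by positivity)
      calc Z ≤ _ := h2
        _ ≤ nc c₀ * Bd ^ (d + 1) * ((d + 1) * ε₀) := mul_le_mul_of_nonneg_left h3 h5
        _ ≤ T * ε₀ := by
            rw [hT]
            nlinarith
    have h5 : ε₀ ≤ Z / (2 * T) := min_le_right _ _
    have h6 : T * ε₀ ≤ Z / 2 := by
      calc T * ε₀ ≤ T * (Z / (2 * T)) := mul_le_mul_of_nonneg_left h5 hT0.le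
        _ = Z / 2 := by field_simp
    linarith
  · have h1 := All.final_step' hL (All.SS E cf Nn) (Nn * r) hrank μ Pp W hW0 ?_ ?_ B hmem
    · rw [← hNn']
      exact h1
    · have h2 : W.support ⊆ Finset.univ.image fun ε : PP (d + 1) → Fin 2 => 2 * mm M tt ε a := by
        intro k hk'
        rw [Finset.mem_image]
        by_contra hcon
        push Not at hcon
        rw [Polynomial.mem_support_iff] at hk'
        apply hk'
        rw [hW, Polynomial.finsetSum_coeff]
        apply Finset.sum_eq_zero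
        intro ε _
        rw [Polynomial.coeff_C_mul_X_pow, if_neg]
        exact fun h => hcon ε (Finset.mem_univ ε) h.symm
      refine (Finset.card_le_card h2).trans (Finset.card_image_le.trans ?_)
      rw [Finset.card_univ, Fintype.card_fun, Fintype.card_fin]
    · intro k hk'
      rw [Polynomial.mem_support_iff] at hk'
      have h2 : ∃ ε : PP (d + 1) → Fin 2, k = 2 * mm M tt ε a := by
        by_contra hcon
        push Not at hcon
        apply hk'
        rw [hW, Polynomial.finsetSum_coeff]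
        apply Finset.sum_eq_zero
        intro ε _
        rw [Polynomial.coeff_C_mul_X_pow, if_neg]
        exact hcon ε
      obtain ⟨ε, rfl⟩ := h2
      exact ⟨(even_two_mul _).add hPpe, by omega⟩

open Polynomial in
theorem analytic2R {d : ℕ} (Q : PP (d + 1) → Prop) (p : Fin (d + 1) → ℕ) (hp : ∀ i, 2 ≤ p i) (a b : Fin (d + 1)) (hab : a ≠ b)
    (hQ : ∀ q, Q q → ¬ isP a b q) (hpab : Even (p a + p b))
    (l' : List (Fin (d + 1))) (hal : a ∉ l') (hbl : b ∉ l') (hl' : l'.Nodup) (c c₀ : V (d + 1)) (hc₀ : c₀ ≠ 0)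
    (hc₀a : c₀ ∈ U a) (hc₀b : c₀ ∈ U b)
    (hTh : Th l' c₀ = c₀) (hcc : c - c₀ ∈ UU l') (w : ℕ)
    (hw : (d + 1) + (d + 1) * 2 ^ (Fintype.card (PP (d + 1))) + 2 ≤ w) (M : ℕ)
    (t : (Fin (d + 1) ⊕ PP (d + 1)) → Fin w → ℕ) (ht : ∀ κ, Function.Injective (t κ)) (htM : ∀ κ k, t κ k ≤ M) :
    ∃ Y : ℕ, ∀ y : Fin (d + 1) → ℕ, (∀ i, Y ≤ y i) → ∀ (L : Subfield ℝ), Transcendental L Real.pi →
      ∀ (E : Submodule L ℝ) (r : ℕ), Module.rank L E ≤ (r : Cardinal) → ∀ gn : (Fin (d + 1) → ℕ) → ℝ, Noise Q gn →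
      ∀ B : Finset ℕ, (∀ β ∈ B, ∀ e, GG c (aa p y M t b e β) + gn (aa p y M t b e β) ∈ E) →
      B.card < w ^ (Fintype.card (Fin (d + 1) ⊕ PP (d + 1))) * r + w * 2 ^ (Fintype.card (PP (d + 1))) := by
  classical
  set μ := 2 ^ (Fintype.card (PP (d + 1))) with hμ
  let k0 : Fin w := ⟨0, by omega⟩
  let k1 : Fin w := ⟨1, by omega⟩
  have hk : k0 ≠ k1 := by simp [k0, k1, Fin.ext_iff]
  set tt : PP (d + 1) → Fin 2 → ℕ := fun q k => t (Sum.inr q) (![k0, k1] k) with htt
  have httM : ∀ q k, tt q k ≤ M := fun q k => htM _ _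
  have htt01 : ∀ q, tt q 0 ≠ tt q 1 := by
    intro q h
    apply hk
    exact ht (Sum.inr q) (by simpa [htt] using h)
  obtain ⟨ν₀, hν₀, hν₀D, hct⟩ := exists_point c₀ hc₀
  have hal' : (a :: l').Nodup := List.nodup_cons.2 ⟨hal, hl'⟩
  have hlen : l'.length + 1 ≤ d + 1 := by
    have := hal'.length_le_card
    simpa using this
  -- the moments
  let Ms : Fin (d + 1) → Finset ℕ := fun j => Finset.univ.image fun ε => mm M tt ε j
  have hMs : ∀ j, (Ms j).card ≤ μ := by
    intro j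
    refine (Finset.card_image_le).trans ?_
    rw [Finset.card_univ, Fintype.card_fun, Fintype.card_fin]
  let s : Fin (d + 1) → ℕ := fun j => (Ms j).card
  let mo : (j : Fin (d + 1)) → Fin (s j) → ℕ := fun j => (Ms j).orderEmbOfFin rfl
  have hmo : ∀ j, Function.Injective (mo j) := fun j => ((Ms j).orderEmbOfFin rfl).injective
  have hmo' : ∀ j ε, ∃ q, mo j q = mm M tt ε j := by
    intro j ε
    have h1 : mm M tt ε j ∈ Ms j := Finset.mem_image_of_mem _ (Finset.mem_univ ε)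
    have h2 := Finset.range_orderEmbOfFin (Ms j) rfl
    have h3 : mm M tt ε j ∈ Set.range ((Ms j).orderEmbOfFin rfl) := by
      rw [h2]
      exact h1
    obtain ⟨q, hq⟩ := h3
    exact ⟨q, hq⟩
  let g : (j : Fin (d + 1)) → Fin (s j) → ℕ := fun j q => (d + 1) + l'.idxOf j * μ + (q : ℕ)
  have hg : ∀ j, Function.Injective (g j) := by
    intro j q q' h
    simp only [g] at h
    exact Fin.ext (by omega)
  have hgw : ∀ j q, g j q < w := by
    intro j q
    have h1 : l'.idxOf j ≤ l'.length := List.idxOf_le_length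
    have h3 : (l'.idxOf j + 1) * μ ≤ (d + 1) * μ := Nat.mul_le_mul_right _ (by omega)
    have h4 := q.2
    have h5 := hMs j
    rw [add_mul, one_mul] at h3
    simp only [g]
    simp only [s] at h4
    omega
  -- the letters
  have hlet : ∀ j, ∃ x₀ : Fin (s j) → ℝ, (∀ r, X (ν₀ j) ^ (2 * mo j r) + ∑ q, x₀ q * X (g j q) ^ (2 * mo j r) = 0) ∧
      ∀ ε : ℝ, 0 < ε → ∃ Y : ℕ, ∀ y : ℕ, Y ≤ y → ∃ lam : Fin w → ℝ,
        (∀ r, ∑' n, psi (t (Sum.inl j)) (p j) y lam n * X n ^ (2 * mo j r) = 0) ∧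
        ∑' n, ‖psi (t (Sum.inl j)) (p j) y lam n - th (ν₀ j) (g j) x₀ n‖ ≤ ε := by
    intro j
    exact letter (t (Sum.inl j)) (ht _) (p j) (hp j) (ν₀ j) (by have := hν₀D j; omega) (g j) (hg j) (hgw j) (mo j) (hmo j)
  choose x₀ hx₀ using hlet
  set θ : Fin (d + 1) → ℕ → ℝ := fun i => if i ∈ l' then th (ν₀ i) (fun q => (d + 1) + l'.idxOf i * μ + (q : ℕ)) (x₀ i)
    else dl (ν₀ i) with hθ
  have hθs : Sm θ := by
    intro i
    by_cases hi : i ∈ l'
    · simp only [hθ, hi, if_true]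
      exact summable_th _ _ _
    · simp only [hθ, hi, if_false]
      exact summable_dl _
  set n₁ : ℕ := ν₀ a with hn₁
  have hval : OmK (KK a b M tt c₀ n₁) θ = ct c₀ ν₀ * QG a b M tt (at2 a b n₁ ν₀) := by
    apply eval_KK a b hab M tt c₀ hc₀a hc₀b n₁ l' hl' hal hbl μ s hMs x₀ ν₀ hν₀ hν₀D _ hTh
    intro ε j _
    obtain ⟨q, hq⟩ := hmo' j ε
    have := (hx₀ j).1 q
    rw [hq] at this
    exact this
  have hQne : QG a b M tt (at2 a b n₁ ν₀) ≠ 0 := by
    apply QG_ne a b M tt httM htt01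
    intro i j hij hne h
    unfold at2 at h
    by_cases hi : i = a ∨ i = b
    · by_cases hj : j = a ∨ j = b
      · apply hne
        unfold isP
        simp only
        rcases hi with hi | hi <;> rcases hj with hj | hj
        · exact absurd (hi.trans hj.symm) hij
        · exact Or.inl ⟨hi, hj⟩
        · exact Or.inr ⟨hi, hj⟩
        · exact absurd (hi.trans hj.symm) hij
      · rw [if_pos hi, if_neg hj, hn₁] at h
        exact hj (Or.inl (hν₀ h).symm)
    · by_cases hj : j = a ∨ j = b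
      · rw [if_neg hi, if_pos hj, hn₁] at h
        exact hi (Or.inl (hν₀ h))
      · rw [if_neg hi, if_neg hj] at h
        exact hij (hν₀ h)
  -- the limit with both letters at zero
  set θ₂ : Fin (d + 1) → ℕ → ℝ := Function.update (Function.update θ a (dl 0)) b (dl 0) with hθ₂
  have hθ₂s : Sm θ₂ := Sm_update _ (Sm_update θ hθs a _ (summable_dl 0)) b _ (summable_dl 0)
  have hθa : θ a = dl (ν₀ a) := by simp only [hθ, hal, if_false]
  have hθb : θ b = dl (ν₀ b) := by simp only [hθ, hbl, if_false]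
  have hval2 : OmK (KK a b M tt c₀ n₁) θ₂ = ct c₀ ν₀ * QG a b M tt (at2 a b n₁ ν₀) := by
    have e1 : OmK (KK a b M tt c₀ n₁) (Function.update (Function.update θ a (dl 0)) b (dl (ν₀ b))) =
        (∑' n, dl (ν₀ b) n) * OmK (KK a b M tt c₀ n₁) θ₂ :=
      sep (KK a b M tt c₀ n₁) (nc c₀) (KK_le a b M tt c₀ n₁) b (KK_upd_b a b hab M tt c₀ n₁)
        (Function.update θ a (dl 0)) (Sm_update θ hθs a _ (summable_dl 0)) (dl (ν₀ b)) (summable_dl _)
    have e2 : OmK (KK a b M tt c₀ n₁) (Function.update θ a (dl (ν₀ a))) =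
        (∑' n, dl (ν₀ a) n) * OmK (KK a b M tt c₀ n₁) (Function.update θ a (dl 0)) :=
      sep (KK a b M tt c₀ n₁) (nc c₀) (KK_le a b M tt c₀ n₁) a (KK_upd_a a b M tt c₀ n₁)
        θ hθs (dl (ν₀ a)) (summable_dl _)
    have e3 : Function.update θ a (dl (ν₀ a)) = θ := by rw [← hθa, Function.update_eq_self]
    have e4 : Function.update (Function.update θ a (dl 0)) b (dl (ν₀ b)) = Function.update θ a (dl 0) := by
      have : Function.update θ a (dl 0) b = dl (ν₀ b) := by rw [Function.update_of_ne hab.symm, hθb]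
      rw [← this, Function.update_eq_self]
    rw [e4, tsum_dl, one_mul] at e1
    rw [e3, tsum_dl, one_mul, e1] at e2
    rw [← e2]
    exact hval
  set Z : ℝ := |ct c₀ ν₀ * QG a b M tt (at2 a b n₁ ν₀)| with hZ
  have hZ0 : 0 < Z := abs_pos.2 (mul_ne_zero hct hQne)
  set Bd : ℝ := 1 + ∑ i, nn (θ₂ i) with hBd
  have hBd1 : 1 ≤ Bd := by
    have : 0 ≤ ∑ i, nn (θ₂ i) := Finset.sum_nonneg fun i _ => nn_nonneg _
    linarith
  have hθB : ∀ i, nn (θ₂ i) + 1 ≤ Bd := by
    intro i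
    have := Finset.single_le_sum (f := fun i => nn (θ₂ i)) (fun i _ => nn_nonneg _) (Finset.mem_univ i)
    linarith
  set T : ℝ := nc c₀ * Bd ^ (d + 1) * (d + 1) + 1 with hT
  have hT0 : 0 < T := by
    have := nc_nonneg c₀
    positivity
  set ε₀ : ℝ := min (1 / 2) (Z / (2 * T)) with hε₀
  have hε₀0 : 0 < ε₀ := lt_min (by norm_num) (by positivity)
  -- the coefficients for all letters
  have hall : ∀ j, j ≠ a → ∃ Y : ℕ, ∀ y : ℕ, Y ≤ y → ∃ lam : Fin w → ℝ,
      (j ∈ l' → ∀ ε, ∑' n, psi (t (Sum.inl j)) (p j) y lam n * X n ^ (2 * mm M tt ε j) = 0) ∧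
      ∑' n, ‖psi (t (Sum.inl j)) (p j) y lam n - θ j n‖ ≤ ε₀ := by
    intro j hja
    by_cases hj : j ∈ l'
    · obtain ⟨Y, hY⟩ := (hx₀ j).2 ε₀ hε₀0
      refine ⟨Y, fun y hy => ?_⟩
      obtain ⟨lam, h1, h2⟩ := hY y hy
      refine ⟨lam, fun _ ε => ?_, ?_⟩
      · obtain ⟨q, hq⟩ := hmo' j ε
        have := h1 q
        rw [hq] at this
        exact this
      · simp only [hθ, hj, if_true]
        exact h2
    · obtain ⟨x, -, hx⟩ := letter (t (Sum.inl j)) (ht _) (p j) (hp j) (ν₀ j) (by have := hν₀D j; omega) (s := 0)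
        (fun q => q.elim0) (fun q => q.elim0) (fun q => q.elim0) (fun q => q.elim0) (fun q => q.elim0)
      obtain ⟨Y, hY⟩ := hx ε₀ hε₀0
      refine ⟨Y, fun y hy => ?_⟩
      obtain ⟨lam, -, h2⟩ := hY y hy
      refine ⟨lam, fun h => absurd h hj, ?_⟩
      simp only [hθ, hj, if_false]
      have e : th (ν₀ j) (fun q : Fin 0 => q.elim0) x = dl (ν₀ j) := by
        funext n
        rw [th_eq]
        simp
      rw [← e]
      exact h2
  have hall' : ∀ j, ∃ Y : ℕ, j ≠ a → ∀ y : ℕ, Y ≤ y → ∃ lam : Fin w → ℝ,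
      (j ∈ l' → ∀ ε, ∑' n, psi (t (Sum.inl j)) (p j) y lam n * X n ^ (2 * mm M tt ε j) = 0) ∧
      ∑' n, ‖psi (t (Sum.inl j)) (p j) y lam n - θ j n‖ ≤ ε₀ := by
    intro j
    by_cases hj : j = a
    · exact ⟨0, fun h => absurd hj h⟩
    · obtain ⟨Y, hY⟩ := hall j hj
      exact ⟨Y, fun _ => hY⟩
  choose Yf hYf using hall'
  obtain ⟨Ya, hYa⟩ := (hx₀ a).2 ε₀ hε₀0
  refine ⟨Ya + ∑ j, Yf j, ?_⟩
  intro y hy L hL E r hE gn hgn B hB
  have hlam : ∀ j, ∃ lam : Fin w → ℝ, j ≠ a → ((j ∈ l' → ∀ ε, ∑' n, psi (t (Sum.inl j)) (p j) (y j) lam n *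
      X n ^ (2 * mm M tt ε j) = 0) ∧ ∑' n, ‖psi (t (Sum.inl j)) (p j) (y j) lam n - θ j n‖ ≤ ε₀) := by
    intro j
    by_cases hj : j = a
    · exact ⟨fun _ => 0, fun h => absurd hj h⟩
    · have h1 := (Finset.single_le_sum (f := Yf) (fun _ _ => Nat.zero_le _) (Finset.mem_univ j))
      have h2 := hy j
      obtain ⟨lam, h⟩ := hYf j hj (y j) (by omega)
      exact ⟨lam, fun _ => h⟩
  choose lam' hlam' using hlam
  obtain ⟨lama, hlama1, hlama2⟩ := hYa (y a) (by have := hy a; omega)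
  set lam : Fin (d + 1) → Fin w → ℝ := fun i => if i = a then lama else if i = b then fun k => if k = k0 then 1 else 0
    else lam' i with hlamdef
  have hlam_a : lam a = lama := by simp only [hlamdef, if_true]
  have hlam_ne : ∀ i, i ≠ a → i ≠ b → lam i = lam' i := fun i hi hi' => by simp only [hlamdef, hi, hi', if_false]
  have hlam_b : lam b = fun k => if k = k0 then 1 else 0 := by simp only [hlamdef, hab.symm, if_false, if_true]
  have hpsib : ∀ n, psi (t (Sum.inl b)) (p b) (y b) (lam b) n = X n ^ (2 * y b + p b + 2 * t (Sum.inl b) k0) := by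
    intro n
    rw [hlam_b]
    simp only [psi]
    rw [Finset.sum_eq_single k0]
    · rw [if_pos rfl, one_mul, ← pow_add]
    · intro k _ hk'
      rw [if_neg hk', zero_mul]
    · intro h
      exact absurd (Finset.mem_univ _) h
  -- the functions
  set φ₀ : Fin (d + 1) → ℕ → ℝ := fun i => psi (t (Sum.inl i)) (p i) (y i) (lam i) with hφ₀
  have hφ₀s : Sm φ₀ := fun i => summable_psi _ _ _ (hp i) _
  set φ₁ : Fin (d + 1) → ℕ → ℝ := Function.update (Function.update φ₀ a (dl 0)) b (dl 0) with hφ₁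
  have hφ₁s : Sm φ₁ := Sm_update _ (Sm_update φ₀ hφ₀s a _ (summable_dl 0)) b _ (summable_dl 0)
  let fb : ℕ → ℕ → ℝ := fun β n => X n ^ (2 * β) * psi (t (Sum.inl b)) (p b) (y b) (lam b) n
  have hfb : ∀ β, Summable fun n => ‖fb β n‖ := by
    intro β
    refine Summable.of_nonneg_of_le (fun n => norm_nonneg _) (fun n => ?_) (summable_psi (t (Sum.inl b)) (p b) (y b) (hp b) (lam b))
    rw [norm_mul, Real.norm_of_nonneg (pow_nonneg (X_pos n).le _)]
    exact mul_le_of_le_one_left (norm_nonneg _) (pow_le_one₀ (X_pos n).le (X_le n))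
  have hfa : Summable fun n => ‖φ₀ a n‖ := hφ₀s a
  have hmoma : ∀ ε, ∑' n, φ₀ a n * X n ^ (2 * mm M tt ε a) = 0 := by
    intro ε
    obtain ⟨q, hq⟩ := hmo' a ε
    have := hlama1 q
    rw [hq] at this
    simp only [hφ₀]
    rw [hlam_a]
    exact this
  set om : (PP (d + 1) → Fin 2) → ℝ := fun ε => OmK (fun ν => K2 a b c₀ ν * Mo a b M tt ε ν) φ₁ with hom
  set Wa : ℝ[X] := ∑ k : Fin w, C (lam a k) * Polynomial.X ^ (2 * t (Sum.inl a) k) with hWa
  set W2 : ℝ[X] := ∑ ε : PP (d + 1) → Fin 2, C (sgG a b ε * om ε) * Polynomial.X ^ (2 * mm M tt ε a + 2 * mm M tt ε b) with hW2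
  set W : ℝ[X] := ∑ z : (PP (d + 1) → Fin 2) × Fin w, C (-(sgG a b z.1 * om z.1 * lam a z.2)) *
    Polynomial.X ^ (2 * t (Sum.inl a) z.2 + (2 * mm M tt z.1 a + 2 * mm M tt z.1 b)) with hW
  have hWeq : W = -(W2 * Wa) := by
    rw [hW, hW2, hWa, Finset.sum_mul_sum, ← Finset.sum_product', ← Finset.sum_neg_distrib]
    refine Finset.sum_congr rfl fun z _ => ?_
    simp only [map_mul, map_neg]
    ring
  set Pp : ℕ := 2 * y a + p a + (2 * y b + p b + 2 * t (Sum.inl b) k0) with hPp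
  have hPpe : Even Pp := by
    rw [hPp]
    obtain ⟨x, hx⟩ := hpab
    exact ⟨y a + y b + x + t (Sum.inl b) k0, by omega⟩
  have hPp2 : 2 ≤ Pp := by
    have := hp a
    omega
  -- the relation
  let χ : ((Fin (d + 1) ⊕ PP (d + 1)) → Fin w) → ℝ := fun e =>
    (∏ i, lam i (e (Sum.inl i))) * ∏ q : PP (d + 1), swG a b k0 k1 q (e (Sum.inr q))
  have hrel : ∀ β, ∑ e, χ e * GG c (aa p y M t b e β) = All.pz (Polynomial.X ^ (2 * β + Pp) * W) := by
    intro β
    have haa : ∀ e i, 2 ≤ aa p y M t b e β i := by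
      intro e i
      have := hp i
      unfold aa
      omega
    have h1 : HasSum (fun ν : Fin (d + 1) → ℕ => ∑ e, χ e * (ct c ν * ∏ i, X (ν i) ^ aa p y M t b e β i))
        (∑ e, χ e * GG c (aa p y M t b e β)) := hasSum_sum fun e _ => (hasSum_GG c _ (haa e)).mul_left _
    have h2 : ∀ ν : Fin (d + 1) → ℕ, ∑ e, χ e * (ct c ν * ∏ i, X (ν i) ^ aa p y M t b e β i) =
        KG a b M tt c ν * ∏ i, (Function.update (Function.update φ₀ a (φ₀ a)) b (fb β)) i (ν i) := by
      intro ν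
      have h3 := sum_eG a b k0 k1 hk p y M t b β lam ν
      have h4 : ∑ e, χ e * (ct c ν * ∏ i, X (ν i) ^ aa p y M t b e β i) =
          ct c ν * ∑ e, χ e * ∏ i, X (ν i) ^ aa p y M t b e β i := by
        rw [Finset.mul_sum]
        refine Finset.sum_congr rfl fun e _ => ?_
        ring
      rw [h4, h3, KG, mul_assoc, Function.update_eq_self]
      congr 2
      refine Finset.prod_congr rfl fun i _ => ?_
      by_cases hi : i = b
      · subst hi
        rw [if_pos rfl, Function.update_self]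
      · rw [if_neg hi, Function.update_of_ne hi, one_mul]
    simp only [h2] at h1
    have hSmb := Sm_update _ (Sm_update φ₀ hφ₀s a (φ₀ a) hfa) b (fb β) (hfb β)
    have h5 : ∑ e, χ e * GG c (aa p y M t b e β) = OmK (KG a b M tt c) (Function.update (Function.update φ₀ a (φ₀ a)) b (fb β)) :=
      h1.tsum_eq.symm
    have h6 : OmK (KG a b M tt c) (Function.update (Function.update φ₀ a (φ₀ a)) b (fb β)) =
        OmK (KG a b M tt c₀) (Function.update (Function.update φ₀ a (φ₀ a)) b (fb β)) +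
        OmK (KG a b M tt (c - c₀)) (Function.update (Function.update φ₀ a (φ₀ a)) b (fb β)) := by
      rw [OmK, OmK, OmK, ← (OmK_summable _ _ (KG_le a b M tt c₀) _ hSmb).tsum_add
        (OmK_summable _ _ (KG_le a b M tt (c - c₀)) _ hSmb)]
      refine tsum_congr fun ν => ?_
      rw [KG, KG, KG, ct_sub]
      ring
    have h7 : OmK (KG a b M tt (c - c₀)) (Function.update (Function.update φ₀ a (φ₀ a)) b (fb β)) = 0 := by
      apply killG a b M tt httM _ hSmb l' hal hbl _ _ hcc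
      intro j hj ε
      have hja : j ≠ a := fun h => hal (h ▸ hj)
      have hjb : j ≠ b := fun h => hbl (h ▸ hj)
      rw [Function.update_of_ne hjb, Function.update_of_ne hja]
      simp only [hφ₀]
      rw [hlam_ne j hja hjb]
      exact (hlam' j hja).1 hj ε
    rw [h5, h6, h7, add_zero, pair_lemma a b hab M tt httM c₀ hc₀a hc₀b φ₀ hφ₀s (φ₀ a) (fb β) hfa (hfb β) hmoma]
    have h8 : ∀ ε, ∑' n, φ₀ a n * fb β n * X n ^ (2 * mm M tt ε a + 2 * mm M tt ε b) =
        ∑ k : Fin w, lam a k * Sq.z (2 * β + Pp + (2 * t (Sum.inl a) k + (2 * mm M tt ε a + 2 * mm M tt ε b))) := by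
      intro ε
      have h9 : HasSum (fun n => ∑ k : Fin w, lam a k *
          X n ^ (2 * β + Pp + (2 * t (Sum.inl a) k + (2 * mm M tt ε a + 2 * mm M tt ε b))))
          (∑ k : Fin w, lam a k * Sq.z (2 * β + Pp + (2 * t (Sum.inl a) k + (2 * mm M tt ε a + 2 * mm M tt ε b)))) :=
        hasSum_sum fun k _ => (hasSum_X _ (by omega)).mul_left _
      rw [← h9.tsum_eq]
      refine tsum_congr fun n => ?_
      simp only [fb, hφ₀]
      rw [hpsib, psi, Finset.mul_sum, Finset.sum_mul, Finset.sum_mul]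
      refine Finset.sum_congr rfl fun k _ => ?_
      rw [hPp]
      simp only [pow_add]
      ring
    rw [hW, Finset.mul_sum, map_sum, ← Finset.sum_neg_distrib, ← Finset.univ_product_univ, Finset.sum_product]
    refine Finset.sum_congr rfl fun ε _ => ?_
    rw [h8 ε, Finset.sum_mul, Finset.mul_sum, ← Finset.sum_neg_distrib]
    refine Finset.sum_congr rfl fun k _ => ?_
    have h9 : (Polynomial.X : ℝ[X]) ^ (2 * β + Pp) * (C (-(sgG a b ε * om ε * lam a k)) *
        Polynomial.X ^ (2 * t (Sum.inl a) k + (2 * mm M tt ε a + 2 * mm M tt ε b))) =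
        C (-(sgG a b ε * om ε * lam a k)) * Polynomial.X ^ (2 * β + Pp + (2 * t (Sum.inl a) k +
          (2 * mm M tt ε a + 2 * mm M tt ε b))) := by
      rw [pow_add _ (2 * β + Pp)]
      ring
    rw [h9, All.pz_C_mul_X_pow]
    simp only [hom]
    ring
  -- the space
  set Nn := Fintype.card ((Fin (d + 1) ⊕ PP (d + 1)) → Fin w) with hNn
  have hNn' : Nn = w ^ (Fintype.card (Fin (d + 1) ⊕ PP (d + 1))) := by
    rw [hNn, Fintype.card_fun, Fintype.card_fin]
  let en := Fintype.equivFin ((Fin (d + 1) ⊕ PP (d + 1)) → Fin w)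
  let cf : ℕ → ℝ := fun n => if h : n < Nn then χ (en.symm ⟨n, h⟩) else 0
  have hcf : ∀ e, cf (en e : ℕ) = χ e := by
    intro e
    simp only [cf]
    rw [dif_pos (en e).2]
    simp
  have hrank := All.rank_SS E cf r hE Nn
  have hmem : ∀ β ∈ B, All.pz (Polynomial.X ^ (2 * β + Pp) * W) ∈ All.SS E cf Nn := by
    intro β hβ
    have hz : ∑ e, χ e * gn (aa p y M t b e β) = 0 := by
      refine noise_zero (swG a b k0 k1) Q (fun q hq => ?_) p y M t htM b β lam gn hgn
      simp only [swG, hQ q hq, if_false]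
      exact sum_sw_zero k0 k1 hk
    have hr : All.pz (Polynomial.X ^ (2 * β + Pp) * W) =
        ∑ e, χ e * (GG c (aa p y M t b e β) + gn (aa p y M t b e β)) := by
      simp only [mul_add, Finset.sum_add_distrib]
      rw [hz, add_zero, hrel β]
    rw [hr]
    apply Submodule.sum_mem
    intro e _
    rw [← hcf e]
    exact All.mem_SS E cf Nn _ (en e).2 _ (hB β hβ e)
  by_cases hW0 : W = 0
  · exfalso
    -- the letter `a` does not vanish at its place
    have hWa0 : Wa ≠ 0 := by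
      intro h0
      have h1 : psi (t (Sum.inl a)) (p a) (y a) (lam a) (ν₀ a) = 0 := by
        have h2 : Wa.eval (X (ν₀ a)) = 0 := by rw [h0]; simp
        rw [hWa, Polynomial.eval_finsetSum] at h2
        simp only [Polynomial.eval_mul, Polynomial.eval_C, Polynomial.eval_pow, Polynomial.eval_X] at h2
        rw [psi, h2, mul_zero]
      have h2 : th (ν₀ a) (g a) (x₀ a) (ν₀ a) = 1 := by
        rw [th, if_pos rfl, Finset.sum_eq_zero, add_zero]
        intro q _
        rw [if_neg, mul_zero]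
        have := hν₀D a
        simp only [g]
        omega
      have h3 : Summable fun n => ‖psi (t (Sum.inl a)) (p a) (y a) lama n - th (ν₀ a) (g a) (x₀ a) n‖ :=
        ((summable_psi (t (Sum.inl a)) (p a) (y a) (hp a) lama).of_norm.sub (summable_th (ν₀ a) (g a) (x₀ a)).of_norm).norm
      have h4 := h3.le_tsum (ν₀ a) fun _ _ => norm_nonneg _
      rw [hlam_a] at h1
      rw [h1, h2, zero_sub, norm_neg, norm_one] at h4
      have h5 : ε₀ ≤ 1 / 2 := min_le_left _ _
      linarith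
    have hW20 : W2 = 0 := by
      rw [hWeq, neg_eq_zero, mul_eq_zero] at hW0
      exact hW0.resolve_right hWa0
    have h1 : OmK (KK a b M tt c₀ n₁) φ₁ = 0 := by
      rw [OmK_KK a b hab M tt c₀ n₁ φ₁ hφ₁s]
      have h4 : W2.eval (X n₁) = 0 := by rw [hW20]; simp
      rw [hW2, Polynomial.eval_finsetSum] at h4
      rw [← h4]
      refine Finset.sum_congr rfl fun ε _ => ?_
      rw [Polynomial.eval_mul, Polynomial.eval_C, Polynomial.eval_pow, Polynomial.eval_X]
      simp only [hom]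
      ring
    have hclose : ∀ i, nn (fun n => φ₁ i n - θ₂ i n) ≤ ε₀ := by
      intro i
      by_cases hib : i = b
      · have e : (fun n => φ₁ i n - θ₂ i n) = fun _ => 0 := by
          funext n
          simp only [hφ₁, hθ₂]
          rw [hib, Function.update_self, Function.update_self, sub_self]
        rw [e, nn]
        simp only [norm_zero, tsum_zero]
        exact hε₀0.le
      · by_cases hia : i = a
        · have e : (fun n => φ₁ i n - θ₂ i n) = fun _ => 0 := by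
            funext n
            simp only [hφ₁, hθ₂]
            rw [Function.update_of_ne hib, Function.update_of_ne hib, hia, Function.update_self, Function.update_self, sub_self]
          rw [e, nn]
          simp only [norm_zero, tsum_zero]
          exact hε₀0.le
        · have h2 := (hlam' i hia).2
          have e : (fun n => φ₁ i n - θ₂ i n) = fun n => psi (t (Sum.inl i)) (p i) (y i) (lam' i) n - θ i n := by
            funext n
            simp only [hφ₁, hθ₂]
            rw [Function.update_of_ne hib, Function.update_of_ne hib, Function.update_of_ne hia, Function.update_of_ne hia]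
            simp only [hφ₀]
            rw [hlam_ne i hia hib]
          rw [e]
          exact h2
    have hφB : ∀ i, nn (φ₁ i) ≤ Bd := by
      intro i
      have h2 := nn_le_add (φ₁ i) (θ₂ i) (hφ₁s i) (hθ₂s i)
      have h3 := hclose i
      have h4 := hθB i
      have h5 : ε₀ ≤ 1 / 2 := min_le_left _ _
      linarith
    have h2 := OmK_close (KK a b M tt c₀ n₁) (nc c₀) (nc_nonneg c₀) (KK_le a b M tt c₀ n₁) φ₁ θ₂ hφ₁s hθ₂s Bd hBd1 hφB
      (fun i => by have := hθB i; linarith)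
    rw [h1, hval2, zero_sub, abs_neg, ← hZ] at h2
    have h3 : ∑ i, nn (fun n => φ₁ i n - θ₂ i n) ≤ (d + 1) * ε₀ := by
      calc _ ≤ ∑ _i : Fin (d + 1), ε₀ := Finset.sum_le_sum fun i _ => hclose i
        _ = (d + 1) * ε₀ := by simp
    have h4 : Z ≤ T * ε₀ := by
      have h5 : 0 ≤ nc c₀ * Bd ^ (d + 1) := mul_nonneg (nc_nonneg c₀) (by positivity)
      calc Z ≤ _ := h2
        _ ≤ nc c₀ * Bd ^ (d + 1) * ((d + 1) * ε₀) := mul_le_mul_of_nonneg_left h3 h5
        _ ≤ T * ε₀ := by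
            rw [hT]
            nlinarith
    have h5 : ε₀ ≤ Z / (2 * T) := min_le_right _ _
    have h6 : T * ε₀ ≤ Z / 2 := by
      calc T * ε₀ ≤ T * (Z / (2 * T)) := mul_le_mul_of_nonneg_left h5 hT0.le
        _ = Z / 2 := by field_simp
    linarith
  · have h1 := All.final_step' hL (All.SS E cf Nn) (Nn * r) hrank (w * μ) Pp W hW0 ?_ ?_ B hmem
    · rw [← hNn']
      exact h1
    · have h2 : W.support ⊆ Finset.univ.image fun z : (PP (d + 1) → Fin 2) × Fin w =>
          2 * t (Sum.inl a) z.2 + (2 * mm M tt z.1 a + 2 * mm M tt z.1 b) := by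
        intro k hk'
        rw [Finset.mem_image]
        by_contra hcon
        push Not at hcon
        rw [Polynomial.mem_support_iff] at hk'
        apply hk'
        rw [hW, Polynomial.finsetSum_coeff]
        apply Finset.sum_eq_zero
        intro z _
        rw [Polynomial.coeff_C_mul_X_pow, if_neg]
        exact fun h => hcon z (Finset.mem_univ z) h.symm
      refine (Finset.card_le_card h2).trans (Finset.card_image_le.trans ?_)
      rw [Finset.card_univ, Fintype.card_prod, Fintype.card_fun, Fintype.card_fin, Fintype.card_fin, mul_comm w μ]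
    · intro k hk'
      rw [Polynomial.mem_support_iff] at hk'
      have h2 : ∃ z : (PP (d + 1) → Fin 2) × Fin w,
          k = 2 * t (Sum.inl a) z.2 + (2 * mm M tt z.1 a + 2 * mm M tt z.1 b) := by
        by_contra hcon
        push Not at hcon
        apply hk'
        rw [hW, Polynomial.finsetSum_coeff]
        apply Finset.sum_eq_zero
        intro z _
        rw [Polynomial.coeff_C_mul_X_pow, if_neg]
        exact hcon z
      obtain ⟨z, rfl⟩ := h2
      refine ⟨?_, by omega⟩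
      apply Even.add _ hPpe
      exact (even_two_mul _).add ((even_two_mul _).add (even_two_mul _))

/-- **Rigidity**, uniformly in the dimension and modulo the noise. -/
theorem rigidGR {d : ℕ} (Q : PP (d + 1) → Prop) (p : Fin (d + 1) → ℕ) (a : Fin (d + 1)) (c : V (d + 1)) (w μ : ℕ)
    (hyp : ∀ (M : ℕ) (t : (Fin (d + 1) ⊕ PP (d + 1)) → Fin w → ℕ), (∀ κ, Function.Injective (t κ)) → (∀ κ k, t κ k ≤ M) →
      ∃ Y : ℕ, ∀ y : Fin (d + 1) → ℕ, (∀ i, Y ≤ y i) → ∀ (L : Subfield ℝ), Transcendental L Real.pi →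
      ∀ (E : Submodule L ℝ) (r : ℕ), Module.rank L E ≤ (r : Cardinal) → ∀ gn : (Fin (d + 1) → ℕ) → ℝ, Noise Q gn →
      ∀ B : Finset ℕ, (∀ b ∈ B, ∀ e, GG c (aa p y M t a e b) + gn (aa p y M t a e b) ∈ E) →
      B.card < w ^ (Fintype.card (Fin (d + 1) ⊕ PP (d + 1))) * r + μ) (δ : ℝ) (hδ : 0 < δ) :
    ∃ C : ℕ, ∀ n r : ℕ, C * (r + 1) ≤ n → ∀ (L : Subfield ℝ), Transcendental L Real.pi →
      ∀ (E : Submodule L ℝ), Module.rank L E ≤ (r : Cardinal) → ∀ gn : (Fin (d + 1) → ℕ) → ℝ, Noise Q gn →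
      ∀ X : Finset (Fin (d + 1) → ℕ),
      (∀ x ∈ X, (∀ i, x i < n) ∧ GG c (fun i => 2 * x i + p i) + gn (fun i => 2 * x i + p i) ∈ E) →
      (X.card : ℝ) ≤ δ * (n : ℝ) ^ (d + 1) := by
  classical
  set m := Fintype.card (Fin (d + 1) ⊕ PP (d + 1)) with hm
  let eq : (Fin (d + 1) ⊕ PP (d + 1)) ≃ Fin m := Fintype.equivFin _
  have hden : 0 < (δ / 2) ^ (w ^ m) := by positivity
  obtain ⟨N, hN⟩ := exists_nat_gt ((m * w ^ 2 : ℝ) * 2 / (δ / 2) ^ (w ^ m))
  have hN0 : 0 < N := by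
    have h1 : (0 : ℝ) ≤ (m * w ^ 2 : ℝ) * 2 / (δ / 2) ^ (w ^ m) := by positivity
    have h2 : (0 : ℝ) < N := lt_of_le_of_lt h1 hN
    exact_mod_cast h2
  have hN0' : (0 : ℝ) < N := by exact_mod_cast hN0
  obtain ⟨c₁, hc₁⟩ := exists_nat_gt (((w : ℝ) ^ m + μ) * 2 / (δ / 2) ^ (w ^ m))
  have hc₁0 : 0 < c₁ := by
    have h1 : (0 : ℝ) ≤ ((w : ℝ) ^ m + μ) * 2 / (δ / 2) ^ (w ^ m) := by positivity
    have h2 : (0 : ℝ) < c₁ := lt_of_le_of_lt h1 hc₁
    exact_mod_cast h2
  -- the thresholds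
  have hYt : ∀ t : (Fin (d + 1) ⊕ PP (d + 1)) → Fin w → Fin N, ∃ Y : ℕ, (∀ κ, Function.Injective (t κ)) →
      ∀ y : Fin (d + 1) → ℕ, (∀ i, Y ≤ y i) → ∀ (L : Subfield ℝ), Transcendental L Real.pi →
      ∀ (E : Submodule L ℝ) (r : ℕ), Module.rank L E ≤ (r : Cardinal) → ∀ gn : (Fin (d + 1) → ℕ) → ℝ, Noise Q gn →
      ∀ B : Finset ℕ, (∀ b ∈ B, ∀ e, GG c (aa p y N (fun κ k => (t κ k : ℕ)) a e b) +
        gn (aa p y N (fun κ k => (t κ k : ℕ)) a e b) ∈ E) →
      B.card < w ^ (Fintype.card (Fin (d + 1) ⊕ PP (d + 1))) * r + μ := by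
    intro t
    by_cases h : ∀ κ, Function.Injective (t κ)
    · obtain ⟨Y, hY⟩ := hyp N (fun κ k => (t κ k : ℕ)) (fun κ => Fin.val_injective.comp (h κ)) (fun κ k => (t κ k).2.le)
      exact ⟨Y, fun _ => hY⟩
    · exact ⟨0, fun h' => absurd h' h⟩
  choose Yt hYt using hYt
  set Y := ∑ t, Yt t with hY
  have hYle : ∀ t, Yt t ≤ Y := fun t => Finset.single_le_sum (f := Yt) (fun _ _ => Nat.zero_le _) (Finset.mem_univ t)
  obtain ⟨n₀, hn₀⟩ := exists_nat_gt ((((d : ℝ) + 1) * (((1 + 2 * Fintype.card (PP (d + 1))) * N + c₁ + Y : ℕ) : ℝ)) / (δ / 2))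
  refine ⟨n₀ + 1, ?_⟩
  intro n r hn L hL E hE gn hgn X hX
  by_contra hcon
  push Not at hcon
  set K := c₁ * (r + 1) with hK
  have hK0 : 0 < K := Nat.mul_pos hc₁0 (Nat.succ_pos r)
  have hK0' : (0 : ℝ) < K := by exact_mod_cast hK0
  set R := w ^ m * r + μ with hR
  have hn1 : 0 < n := lt_of_lt_of_le (Nat.mul_pos (Nat.succ_pos n₀) (Nat.succ_pos r)) hn
  have hnn : (n₀ : ℝ) * (r + 1) ≤ n := by
    have h1 : n₀ * (r + 1) ≤ n := (Nat.mul_le_mul_right _ (Nat.le_succ n₀)).trans hn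
    exact_mod_cast h1
  have hn' : ((d : ℝ) + 1) * (((1 + 2 * Fintype.card (PP (d + 1))) * N + K + Y : ℕ) : ℝ) ≤ δ / 2 * n := by
    rw [div_lt_iff₀ (by positivity)] at hn₀
    have h1 : (((1 + 2 * Fintype.card (PP (d + 1))) * N + K + Y : ℕ) : ℝ) ≤
        (((1 + 2 * Fintype.card (PP (d + 1))) * N + c₁ + Y : ℕ) : ℝ) * (r + 1) := by
      have h2 : (1 + 2 * Fintype.card (PP (d + 1))) * N + K + Y ≤
          ((1 + 2 * Fintype.card (PP (d + 1))) * N + c₁ + Y) * (r + 1) := by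
        rw [hK]
        have h3 : (1 + 2 * Fintype.card (PP (d + 1))) * N ≤ (1 + 2 * Fintype.card (PP (d + 1))) * N * (r + 1) :=
          Nat.le_mul_of_pos_right _ (Nat.succ_pos r)
        have h4 : Y ≤ Y * (r + 1) := Nat.le_mul_of_pos_right _ (Nat.succ_pos r)
        calc _ ≤ (1 + 2 * Fintype.card (PP (d + 1))) * N * (r + 1) + c₁ * (r + 1) + Y * (r + 1) := by omega
          _ = _ := by ring
      exact_mod_cast h2
    have h5 : (0 : ℝ) ≤ (r : ℝ) + 1 := by positivity
    calc _ ≤ ((d : ℝ) + 1) * ((((1 + 2 * Fintype.card (PP (d + 1))) * N + c₁ + Y : ℕ) : ℝ) * (r + 1)) :=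
          mul_le_mul_of_nonneg_left h1 (by positivity)
      _ = (((d : ℝ) + 1) * (((1 + 2 * Fintype.card (PP (d + 1))) * N + c₁ + Y : ℕ) : ℝ)) * (r + 1) := by ring
      _ ≤ (n₀ * (δ / 2)) * (r + 1) := mul_le_mul_of_nonneg_right hn₀.le h5
      _ = (δ / 2) * (n₀ * (r + 1)) := by ring
      _ ≤ δ / 2 * n := mul_le_mul_of_nonneg_left hnn (by positivity)
  obtain ⟨y, hy, hS⟩ := exists_base2 m N K Y n eq a hn1 hN0 hK0 X (fun x hx => (hX x hx).1) δ hcon hn'
  set S := (Finset.univ : Finset ((Fin m → Fin N) × Fin K)).filter fun q =>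
        (fun i => y i + sh N a (fun κ => (q.1 (eq κ) : ℕ)) q.2 i) ∈ X with hSdef
  have hd := All.density2 m w N K R hN0 hK0 S ?_
  · have h1 : δ / 2 ≤ (S.card : ℝ) / ((N : ℝ) ^ m * K) := by
      rw [le_div_iff₀ (by positivity)]
      exact hS
    have h2 : (δ / 2) ^ (w ^ m) ≤ ((S.card : ℝ) / ((N : ℝ) ^ m * K)) ^ (w ^ m) := pow_le_pow_left₀ (by positivity) h1 _
    have h3 := h2.trans hd
    have h4 : (m * w ^ 2 : ℝ) / N < (δ / 2) ^ (w ^ m) / 2 := by
      rw [div_lt_iff₀ hden] at hN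
      rw [div_lt_iff₀ hN0']
      linarith
    have h5 : (R : ℝ) / K < (δ / 2) ^ (w ^ m) / 2 := by
      rw [div_lt_iff₀ hden] at hc₁
      rw [div_lt_iff₀ hK0', hR, hK]
      push_cast
      have h6 : ((w : ℝ) ^ m * r + μ) ≤ ((w : ℝ) ^ m + μ) * (r + 1) := by
        have h7 : (0 : ℝ) ≤ (w : ℝ) ^ m := by positivity
        have h8 : (0 : ℝ) ≤ (μ : ℝ) := Nat.cast_nonneg _
        have h9 : (0 : ℝ) ≤ (r : ℝ) := Nat.cast_nonneg _
        nlinarith
      have h7 : (0 : ℝ) < (r : ℝ) + 1 := by positivity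
      calc ((w : ℝ) ^ m * r + μ) ≤ ((w : ℝ) ^ m + μ) * (r + 1) := h6
        _ < (c₁ * (δ / 2) ^ (w ^ m) / 2) * (r + 1) := by
            apply mul_lt_mul_of_pos_right _ h7
            linarith
        _ = _ := by ring
    linarith
  · intro t ht
    have h1 := hYt (fun κ => t (eq κ)) (fun κ => ht (eq κ)) y (fun i => (hYle _).trans (hy i)) L hL E r hE gn hgn
      (((Finset.univ : Finset (Fin K)).filter fun b => ∀ e : Fin m → Fin w, ((fun i => t i (e i)), b) ∈ S).image
        fun b : Fin K => (b : ℕ)) (by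
        intro b' hb' e
        rw [Finset.mem_image] at hb'
        obtain ⟨b, hb, rfl⟩ := hb'
        rw [Finset.mem_filter] at hb
        have h2 := hb.2 (fun i => e (eq.symm i))
        rw [hSdef, Finset.mem_filter] at h2
        have h3 := (hX _ h2.2).2
        rw [aa_eq]
        simp only [Equiv.symm_apply_apply] at h3
        exact h3)
    rw [Finset.card_image_of_injective _ Fin.val_injective] at h1
    exact h1.le


end Pool.Agent.H491.Der
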