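import Mathlib
import Pool.Agent.H491.Un5
import Pool.Agent.H491.Un3

set_option autoImplicit false

/-! # Fixed combinations of the orderings modulo arbitrary functions of the merged indices -/

namespace Pool.Agent.H491.Der

open Equiv

variable {D : ℕ}

/-- a maximal list that does not kill `c` -/
theorem exists_max (c : V D) : ∀ (m : ℕ) (l : List (Fin D)), l.Nodup → Th l c ≠ 0 → D - l.length = m →
    ∃ l' : List (Fin D), l'.Nodup ∧ Th l' c ≠ 0 ∧ ∀ x, x ∉ l' → Th l' c ∈ U x := by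
  intro m
  induction m using Nat.strong_induction_on with
  | _ m ih =>
    intro l hl hne hm
    by_cases h : ∃ x, x ∉ l ∧ Th (x :: l) c ≠ 0
    · obtain ⟨x, hx, hx2⟩ := h
      have hnd : (x :: l).Nodup := List.nodup_cons.2 ⟨hx, hl⟩
      have hlen : (x :: l).length ≤ D := by
        have := hnd.length_le_card
        simpa using this
      refine ih (D - (x :: l).length) ?_ (x :: l) hnd hx2 rfl
      simp only [List.length_cons] at hlen ⊢
      omega
    · push Not at h
      refine ⟨l, hl, hne, fun x hx => ?_⟩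
      have h1 := h x hx
      rw [Th_cons, sub_eq_zero] at h1
      rw [h1]
      exact R_mem x _

/-- the combinations that are good for the odd letters `A` and the noise `N` -/
def WN (A : Finset (Fin D)) (N : Finset (Fin D × Fin D)) : Submodule ℚ (V D) :=
  Submodule.span ℚ {c | (∃ i, i ∉ A ∧ c ∈ U i) ∨ ∃ i j, i ≠ j ∧ (i, j) ∉ N ∧ (j, i) ∉ N ∧ c ∈ U i ∧ c ∈ U j}

theorem WN_spec (A : Finset (Fin D)) (N : Finset (Fin D × Fin D)) (c : V D) (hc : c ∈ WN A N) (l' : List (Fin D))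
    (h1 : ∀ i, i ∉ A → i ∈ l') (h2 : ∀ i j, i ≠ j → (i, j) ∉ N → (j, i) ∉ N → i ∈ l' ∨ j ∈ l') : Th l' c = 0 := by
  refine Submodule.span_induction (p := fun c _ => Th l' c = 0) ?_ ?_ ?_ ?_ hc
  · rintro c (⟨i, hi, hc⟩ | ⟨i, j, hij, hN, hN', hci, hcj⟩)
    · exact Th_eq_zero i _ (h1 i hi) c hc
    · rcases h2 i j hij hN hN' with h | h
      · exact Th_eq_zero i _ h c hci
      · exact Th_eq_zero j _ h c hcj
  · exact map_zero _
  · intro x y _ _ hx hy
    rw [map_add, hx, hy, add_zero]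
  · intro q x _ hx
    rw [map_smul, hx, smul_zero]

theorem find_letters (A : Finset (Fin D)) (N : Finset (Fin D × Fin D)) (c : V D) (hc : c ∈ WN A N) (hc0 : c ≠ 0) :
    ∃ l' : List (Fin D), l'.Nodup ∧ Th l' c ≠ 0 ∧ (∀ x, x ∉ l' → Th l' c ∈ U x) ∧
      ((∃ a, a ∉ A ∧ a ∉ l') ∨ ∃ a b, a ≠ b ∧ (a, b) ∉ N ∧ (b, a) ∉ N ∧ a ∉ l' ∧ b ∉ l') := by
  obtain ⟨l', h1, h2, h3⟩ := exists_max c (D - ([] : List (Fin D)).length) [] List.nodup_nil hc0 rfl
  refine ⟨l', h1, h2, h3, ?_⟩
  by_contra hcon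
  rw [not_or] at hcon
  obtain ⟨hcon1, hcon2⟩ := hcon
  push Not at hcon1 hcon2
  apply h2
  apply WN_spec A N c hc l' hcon1
  intro i j hij hN hN'
  by_contra h
  rw [not_or] at h
  exact h.2 (hcon2 i j hij hN hN' h.1)

open Classical in
/-- **Density one** modulo arbitrary functions of the merged indices. -/
theorem almost_all_robust {D : ℕ} (A : Finset (Fin D)) (N : Finset (Fin D × Fin D)) (hN : ∀ p ∈ N, p.1 ≠ p.2)
    (c : V D) (hc : c ∈ WN A N) (hc0 : c ≠ 0) (ε : ℝ) (hε : 0 < ε) :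
    ∃ C : ℕ, ∀ n r : ℕ, C * (r + 1) ≤ n → ∀ (L : Subfield ℝ), Transcendental L Real.pi → ∀ (E : Submodule L ℝ),
      Module.rank L E ≤ (r : Cardinal) → ∀ g : Fin D × Fin D → (Fin D → ℕ) → ℝ, (∀ p ∈ N, Mg p.1 p.2 (g p)) →
      (((tuples A n).filter fun a => GG c a + ∑ p ∈ N, g p a ∈ E).card : ℝ) ≤ ε * ((tuples A n).card : ℝ) := by
  rcases Nat.eq_zero_or_pos D with rfl | hD
  · exfalso
    apply hc0
    have h1 : WN A N = ⊥ := by
      rw [WN, Submodule.span_eq_bot]
      rintro c (⟨i, -⟩ | ⟨i, -⟩)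
      · exact i.elim0
      · exact i.elim0
    rw [h1] at hc
    exact (Submodule.mem_bot ℚ).1 hc
  obtain ⟨d, rfl⟩ : ∃ d, D = d + 1 := ⟨D - 1, by omega⟩
  have hp : ∀ i, 2 ≤ All.par A i := by
    intro i
    unfold All.par
    split_ifs <;> omega
  have hpe : ∀ i, i ∉ A → Even (All.par A i) := by
    intro i hi
    unfold All.par
    rw [if_neg hi]
    exact even_two
  let Q : PP (d + 1) → Prop := fun q => q.1 ∈ N
  have key : ∃ C : ℕ, ∀ n r : ℕ, C * (r + 1) ≤ n → ∀ (L : Subfield ℝ), Transcendental L Real.pi →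
      ∀ (E : Submodule L ℝ), Module.rank L E ≤ (r : Cardinal) → ∀ gn : (Fin (d + 1) → ℕ) → ℝ, Noise Q gn →
      ∀ X : Finset (Fin (d + 1) → ℕ),
      (∀ x ∈ X, (∀ i, x i < n) ∧ GG c (fun i => 2 * x i + All.par A i) + gn (fun i => 2 * x i + All.par A i) ∈ E) →
      (X.card : ℝ) ≤ ε * (n : ℝ) ^ (d + 1) := by
    obtain ⟨l', h1, h2, h3, h4⟩ := find_letters A N c hc hc0
    have hone : ∀ a, a ∉ A → a ∉ l' → ∃ C : ℕ, ∀ n r : ℕ, C * (r + 1) ≤ n → ∀ (L : Subfield ℝ),
        Transcendental L Real.pi → ∀ (E : Submodule L ℝ), Module.rank L E ≤ (r : Cardinal) →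
        ∀ gn : (Fin (d + 1) → ℕ) → ℝ, Noise Q gn → ∀ X : Finset (Fin (d + 1) → ℕ),
        (∀ x ∈ X, (∀ i, x i < n) ∧ GG c (fun i => 2 * x i + All.par A i) + gn (fun i => 2 * x i + All.par A i) ∈ E) →
        (X.card : ℝ) ≤ ε * (n : ℝ) ^ (d + 1) := fun a ha hal =>
      rigidGR Q (All.par A) a c _ _ (fun M t ht htM => analyticR Q (All.par A) hp a (hpe a ha) l' hal h1 c (Th l' c) h2
        (h3 a hal) (Th_Th l' c) (sub_Th_mem l' c) _ le_rfl M t ht htM) ε hε
    rcases h4 with ⟨a, ha, hal⟩ | ⟨a, b, hab, hN1, hN2, hal, hbl⟩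
    · exact hone a ha hal
    · by_cases ha : a ∈ A
      · by_cases hb : b ∈ A
        · have hpab : Even (All.par A a + All.par A b) := by
            unfold All.par
            rw [if_pos ha, if_pos hb]
            exact ⟨3, rfl⟩
          have hQ : ∀ q : PP (d + 1), Q q → ¬ isP a b q := by
            rintro ⟨⟨i, j⟩, hij⟩ hq hp
            unfold isP at hp
            simp only at hp
            rcases hp with ⟨rfl, rfl⟩ | ⟨rfl, rfl⟩
            · exact hN1 hq
            · exact hN2 hq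
          exact rigidGR Q (All.par A) b c _ _ (fun M t ht htM => analytic2R Q (All.par A) hp a b hab hQ hpab l' hal hbl h1
            c (Th l' c) h2 (h3 a hal) (h3 b hbl) (Th_Th l' c) (sub_Th_mem l' c) _ le_rfl M t ht htM) ε hε
        · exact hone b hb hbl
      · exact hone a ha hal
  obtain ⟨C, hC⟩ := key
  refine ⟨C, ?_⟩
  intro n r hn L hL E hE g hg
  have hnoise : Noise Q (fun a => ∑ p ∈ N, g p a) := by
    refine ⟨fun q => if q.1 ∈ N then g q.1 else fun _ => 0, ?_, ?_, ?_⟩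
    · intro q hq
      have hq' : q.1 ∈ N := hq
      simp only [hq', if_true]
      exact hg q.1 hq'
    · intro q hq
      have hq' : q.1 ∉ N := hq
      simp only [hq', if_false]
    · intro a
      have e : ∀ q : PP (d + 1), (if q.1 ∈ N then g q.1 else fun _ => (0 : ℝ)) a = if q.1 ∈ N then g q.1 a else 0 := by
        intro q
        split_ifs <;> rfl
      simp only [e]
      rw [← Finset.sum_filter]
      symm
      apply Finset.sum_bij (fun (q : PP (d + 1)) _ => q.1)
      · intro q hq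
        exact (Finset.mem_filter.1 hq).2
      · intro q _ q' _ h
        exact Subtype.ext h
      · intro p hp
        exact ⟨⟨p, hN p hp⟩, Finset.mem_filter.2 ⟨Finset.mem_univ _, hp⟩, rfl⟩
      · intro q _
        rfl
  set X : Finset (Fin (d + 1) → ℕ) := ((tuples A n).filter fun a => GG c a + ∑ p ∈ N, g p a ∈ E).image
    fun a i => (a i - All.par A i) / 2 with hX
  have hcard : ((tuples A n).filter fun a => GG c a + ∑ p ∈ N, g p a ∈ E).card = X.card := by
    rw [hX, Finset.card_image_of_injOn]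
    intro a ha a' ha' h
    rw [Finset.mem_coe, Finset.mem_filter] at ha ha'
    rw [← (tuple_eq A n a ha.1).2, ← (tuple_eq A n a' ha'.1).2]
    funext i
    have := congrFun h i
    simp only at this ⊢
    rw [this]
  have h1 := hC n r hn L hL E hE _ hnoise X (by
    intro x hx
    rw [hX, Finset.mem_image] at hx
    obtain ⟨a, ha, rfl⟩ := hx
    rw [Finset.mem_filter] at ha
    obtain ⟨h2, h3⟩ := tuple_eq A n a ha.1
    refine ⟨h2, ?_⟩
    simp only [h3]
    exact ha.2)
  rw [hcard]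
  refine h1.trans (mul_le_mul_of_nonneg_left ?_ hε.le)
  exact_mod_cast card_tuples A n

end Pool.Agent.H491.Der
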