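import Mathlib
import Pool.Agent.H491.Un6

set_option autoImplicit false

/-! # The dimension of the space of the good combinations -/

namespace Pool.Agent.H491.Der

open Equiv

variable {D : ℕ}

theorem tele (S : Submodule ℚ (V D)) (c : V D) (l : List (Fin D))
    (h : ∀ (pr : List (Fin D)) (a : Fin D) (l' : List (Fin D)), l = pr ++ a :: l' → R a (Th l' c) ∈ S) : c - Th l c ∈ S := by
  induction l with
  | nil =>
    have : c - Th [] c = 0 := sub_self c
    rw [this]
    exact Submodule.zero_mem _
  | cons a l ih =>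
    rw [Th_cons]
    have e : c - (Th l c - R a (Th l c)) = (c - Th l c) + R a (Th l c) := by abel
    rw [e]
    refine Submodule.add_mem _ (ih fun pr a' l' hl => h (a :: pr) a' l' (by rw [hl]; rfl)) (h [] a l rfl)

theorem nodup_ps (a : Fin D) : a ∉ pre a ++ suf a := by
  have hnd : (pre a ++ a :: suf a).Nodup := by rw [← split_fin]; exact List.nodup_finRange D
  have h1 := List.nodup_middle.1 hnd
  exact (List.nodup_cons.1 h1).1

theorem mem_WA_iff (A : Finset (Fin D)) (c : V D) :
    c ∈ WA A ↔ Th (List.finRange D) c = 0 ∧ ∀ a ∈ A, Ps a (Th (suf a) c) = 0 := by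
  refine ⟨WA_spec A c, ?_⟩
  rintro ⟨h1, h2⟩
  have h3 := tele (WA A) c (List.finRange D) ?_
  · rw [h1, sub_zero] at h3
    exact h3
  · intro pr a l' hl
    obtain ⟨-, rfl⟩ := split_unique a pr l' hl
    by_cases ha : a ∈ A
    · have h4 := h2 a ha
      rw [Ps, LinearMap.comp_apply] at h4
      have h5 := tele (WA A) (R a (Th (suf a) c)) (pre a ++ suf a) ?_
      · rw [h4, sub_zero] at h5
        exact h5
      · intro pr' j l'' hl'
        have hja : j ≠ a := by
          rintro rfl
          exact nodup_ps j (by rw [hl']; simp)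
        exact Submodule.subset_span (Or.inr ⟨j, a, hja, R_mem j _, R_mem' a j _ (Th_mem a _ _ (R_mem a _))⟩)
    · exact Submodule.subset_span (Or.inl ⟨a, ha, R_mem a _⟩)

theorem Ps_mem (a : Fin D) (c : V D) : Ps a c ∈ U a := by
  rw [Ps, LinearMap.comp_apply]
  exact Th_mem a _ _ (R_mem a c)

theorem Ps_Th (a : Fin D) (x : V D) (hx : Ps a x = x) : Ps a (Th (suf a) x) = x := by
  have hU : x ∈ U a := by rw [← hx]; exact Ps_mem a x
  have h1 : Th (suf a) x ∈ U a := Th_mem a _ _ hU
  have h2 : Th (pre a ++ suf a) x = x := by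
    have h3 := hx
    rw [Ps, LinearMap.comp_apply, R_eq a x hU] at h3
    exact h3
  rw [Ps, LinearMap.comp_apply, R_eq a _ h1, Th_append, Th_Th, ← Th_append]
  exact h2

theorem finrank_WA (A : Finset (Fin D)) : Module.finrank ℚ (WA A) = fixCount2 D (D - A.card) := by
  classical
  let Φ : V D →ₗ[ℚ] (LinearMap.range (Th (List.finRange D)) × ((a : A) → LinearMap.range (Ps (a : Fin D)))) :=
    ((Th (List.finRange D)).rangeRestrict).prod
        (LinearMap.pi fun a : A => ((Ps (a : Fin D)).rangeRestrict) ∘ₗ (Th (suf (a : Fin D))))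
  have hker : LinearMap.ker Φ = WA A := by
    ext c
    rw [mem_WA_iff, LinearMap.mem_ker]
    constructor
    · intro h
      have e2 := congrArg Prod.fst h
      have e3 := congrArg Prod.snd h
      exact ⟨congrArg Subtype.val e2, fun a ha => congrArg Subtype.val (congrFun e3 ⟨a, ha⟩)⟩
    · rintro ⟨h1, h2⟩
      refine Prod.ext (Subtype.ext h1) ?_
      funext a
      exact Subtype.ext (h2 a a.2)
  have hsurj : Function.Surjective Φ := by
    rintro ⟨⟨t, t', rfl⟩, s⟩
    set t := Th (List.finRange D) t' with ht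
    have hΘt : Th (List.finRange D) t = t := Th_Th _ _
    have hs : ∀ a : A, Ps (a : Fin D) (s a : V D) = s a := by
      intro a
      obtain ⟨y, hy⟩ := (s a).2
      rw [← hy, Ps_idem]
    let u : A → V D := fun a => Ps (a : Fin D) (Th (suf (a : Fin D)) t)
    have hu : ∀ a : A, Ps (a : Fin D) (u a) = u a := fun a => Ps_idem _ _
    have hd : ∀ a : A, Ps (a : Fin D) ((s a : V D) - u a) = (s a : V D) - u a := by
      intro a
      rw [map_sub, hs, hu]
    have hdU : ∀ a : A, (s a : V D) - u a ∈ U (a : Fin D) := by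
      intro a
      rw [← hd a]
      exact Ps_mem _ _
    refine ⟨t + ∑ a : A, ((s a : V D) - u a), ?_⟩
    refine Prod.ext (Subtype.ext ?_) ?_
    · change Th (List.finRange D) (t + ∑ a : A, ((s a : V D) - u a)) = t
      rw [map_add, hΘt, map_sum, Finset.sum_eq_zero, add_zero]
      intro a _
      exact Th_eq_zero (a : Fin D) _ (List.mem_finRange _) _ (hdU a)
    · funext a
      refine Subtype.ext ?_
      change Ps (a : Fin D) (Th (suf (a : Fin D)) (t + ∑ b : A, ((s b : V D) - u b))) = (s a : V D)
      rw [map_add, map_add, map_sum, map_sum, Finset.sum_eq_single a]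
      · rw [Ps_Th _ _ (hd a)]
        change u a + ((s a : V D) - u a) = _
        abel
      · intro b _ hba
        exact Ps_zero (a : Fin D) (b : Fin D) (fun h => hba (Subtype.ext h)) _ (hdU b)
      · intro h
        exact absurd (Finset.mem_univ a) h
  have h1 := LinearMap.finrank_range_add_finrank_ker Φ
  rw [LinearMap.range_eq_top.2 hsurj, finrank_top, hker, Module.finrank_prod, finrank_Th_range, Module.finrank_pi_fintype] at h1
  have f2 : ∑ a : A, Module.finrank ℚ (LinearMap.range (Ps (a : Fin D))) =
      ∑ a ∈ A, ((Finset.univ : Finset (Perm (Fin D))).filter fun π => π a = a ∧ ∀ b, b ≠ a → π b ≠ b).card := by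
    rw [← Finset.sum_coe_sort A]
    exact Finset.sum_congr rfl fun a _ => finrank_Ps (a : Fin D)
  have f3 : Module.finrank ℚ (V D) = (Finset.univ : Finset (Perm (Fin D))).card := by
    rw [Module.finrank_fintype_fun_eq_card, Finset.card_univ]
  have h3 := fixA_add A
  rw [f2, f3, ← h3] at h1
  rw [← fixA_eq]
  omega

theorem finrank_WN (A : Finset (Fin D)) : Module.finrank ℚ (WN A ∅) = fixCount2 D (D - A.card) := by
  rw [← finrank_WA]
  have e : WN A ∅ = WA A := by
    rw [WN, WA]
    congr 1
    ext c
    simp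
  rw [e]

end Pool.Agent.H491.Der
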