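import Mathlib
import Pool.Agent.H491.Un6

set_option autoImplicit false

/-! # Fixed combinations of the orderings, in boxes -/

namespace Pool.Agent.H491.Der

open Equiv

variable {D : ℕ}

theorem rigidGRL {d : ℕ} (Q : PP (d + 1) → Prop) (p : Fin (d + 1) → ℕ) (a : Fin (d + 1)) (c : V (d + 1)) (w μ : ℕ)
    (hyp : ∀ (M : ℕ) (t : (Fin (d + 1) ⊕ PP (d + 1)) → Fin w → ℕ), (∀ κ, Function.Injective (t κ)) → (∀ κ k, t κ k ≤ M) →
      ∃ Y : ℕ, ∀ y : Fin (d + 1) → ℕ, (∀ i, Y ≤ y i) → ∀ (L : Subfield ℝ), Transcendental L Real.pi →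
      ∀ (E : Submodule L ℝ) (r : ℕ), Module.rank L E ≤ (r : Cardinal) → ∀ gn : (Fin (d + 1) → ℕ) → ℝ, Noise Q gn →
      ∀ B : Finset ℕ, (∀ b ∈ B, ∀ e, GG c (aa p y M t a e b) + gn (aa p y M t a e b) ∈ E) →
      B.card < w ^ (Fintype.card (Fin (d + 1) ⊕ PP (d + 1))) * r + μ) (δ : ℝ) (hδ : 0 < δ) :
    ∃ C : ℕ, ∀ n r : ℕ, C * (r + 1) ≤ n → ∀ (L : Subfield ℝ), Transcendental L Real.pi →
      ∀ (E : Submodule L ℝ), Module.rank L E ≤ (r : Cardinal) → ∀ gn : (Fin (d + 1) → ℕ) → ℝ, Noise Q gn →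
      ∀ (y₀ : Fin (d + 1) → ℕ) (X : Finset (Fin (d + 1) → ℕ)),
      (∀ x ∈ X, (∀ i, x i < n) ∧ GG c (fun i => 2 * (y₀ i + x i) + p i) + gn (fun i => 2 * (y₀ i + x i) + p i) ∈ E) →
      (X.card : ℝ) ≤ δ * (n : ℝ) ^ (d + 1) := by
  classical
  set m := Fintype.card (Fin (d + 1) ⊕ PP (d + 1)) with hm
  let eq : (Fin (d + 1) ⊕ PP (d + 1)) ≃ Fin m := Fintype.equivFin _
  have hden : 0 < (δ / 2) ^ (w ^ m) := by positivity
  obtain ⟨N, hN⟩ := exists_nat_gt ((m * w ^ 2 : ℝ) * 2 / (δ / 2) ^ (w ^ m))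
  have hN0 : 0 < N := by
    have h1 : (0 : ℝ) ≤ (m * w ^ 2 : ℝ) * 2 / (δ / 2) ^ (w ^ m) := by positivity
    have h2 : (0 : ℝ) < N := lt_of_le_of_lt h1 hN
    exact_mod_cast h2
  have hN0' : (0 : ℝ) < N := by exact_mod_cast hN0
  obtain ⟨c₁, hc₁⟩ := exists_nat_gt (((w : ℝ) ^ m + μ) * 2 / (δ / 2) ^ (w ^ m))
  have hc₁0 : 0 < c₁ := by
    have h1 : (0 : ℝ) ≤ ((w : ℝ) ^ m + μ) * 2 / (δ / 2) ^ (w ^ m) := by positivity
    have h2 : (0 : ℝ) < c₁ := lt_of_le_of_lt h1 hc₁
    exact_mod_cast h2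
  -- the thresholds
  have hYt : ∀ t : (Fin (d + 1) ⊕ PP (d + 1)) → Fin w → Fin N, ∃ Y : ℕ, (∀ κ, Function.Injective (t κ)) →
      ∀ y : Fin (d + 1) → ℕ, (∀ i, Y ≤ y i) → ∀ (L : Subfield ℝ), Transcendental L Real.pi →
      ∀ (E : Submodule L ℝ) (r : ℕ), Module.rank L E ≤ (r : Cardinal) → ∀ gn : (Fin (d + 1) → ℕ) → ℝ, Noise Q gn →
      ∀ B : Finset ℕ, (∀ b ∈ B, ∀ e, GG c (aa p y N (fun κ k => (t κ k : ℕ)) a e b) +
        gn (aa p y N (fun κ k => (t κ k : ℕ)) a e b) ∈ E) →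
      B.card < w ^ (Fintype.card (Fin (d + 1) ⊕ PP (d + 1))) * r + μ := by
    intro t
    by_cases h : ∀ κ, Function.Injective (t κ)
    · obtain ⟨Y, hY⟩ := hyp N (fun κ k => (t κ k : ℕ)) (fun κ => Fin.val_injective.comp (h κ)) (fun κ k => (t κ k).2.le)
      exact ⟨Y, fun _ => hY⟩
    · exact ⟨0, fun h' => absurd h' h⟩
  choose Yt hYt using hYt
  set Y := ∑ t, Yt t with hY
  have hYle : ∀ t, Yt t ≤ Y := fun t => Finset.single_le_sum (f := Yt) (fun _ _ => Nat.zero_le _) (Finset.mem_univ t)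
  obtain ⟨n₀, hn₀⟩ := exists_nat_gt ((((d : ℝ) + 1) * (((1 + 2 * Fintype.card (PP (d + 1))) * N + c₁ + Y : ℕ) : ℝ)) / (δ / 2))
  refine ⟨n₀ + 1, ?_⟩
  intro n r hn L hL E hE gn hgn y₀ X hX
  by_contra hcon
  push Not at hcon
  set K := c₁ * (r + 1) with hK
  have hK0 : 0 < K := Nat.mul_pos hc₁0 (Nat.succ_pos r)
  have hK0' : (0 : ℝ) < K := by exact_mod_cast hK0
  set R := w ^ m * r + μ with hR
  have hn1 : 0 < n := lt_of_lt_of_le (Nat.mul_pos (Nat.succ_pos n₀) (Nat.succ_pos r)) hn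
  have hnn : (n₀ : ℝ) * (r + 1) ≤ n := by
    have h1 : n₀ * (r + 1) ≤ n := (Nat.mul_le_mul_right _ (Nat.le_succ n₀)).trans hn
    exact_mod_cast h1
  have hn' : ((d : ℝ) + 1) * (((1 + 2 * Fintype.card (PP (d + 1))) * N + K + Y : ℕ) : ℝ) ≤ δ / 2 * n := by
    rw [div_lt_iff₀ (by positivity)] at hn₀
    have h1 : (((1 + 2 * Fintype.card (PP (d + 1))) * N + K + Y : ℕ) : ℝ) ≤
        (((1 + 2 * Fintype.card (PP (d + 1))) * N + c₁ + Y : ℕ) : ℝ) * (r + 1) := by
      have h2 : (1 + 2 * Fintype.card (PP (d + 1))) * N + K + Y ≤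
          ((1 + 2 * Fintype.card (PP (d + 1))) * N + c₁ + Y) * (r + 1) := by
        rw [hK]
        have h3 : (1 + 2 * Fintype.card (PP (d + 1))) * N ≤ (1 + 2 * Fintype.card (PP (d + 1))) * N * (r + 1) :=
          Nat.le_mul_of_pos_right _ (Nat.succ_pos r)
        have h4 : Y ≤ Y * (r + 1) := Nat.le_mul_of_pos_right _ (Nat.succ_pos r)
        calc _ ≤ (1 + 2 * Fintype.card (PP (d + 1))) * N * (r + 1) + c₁ * (r + 1) + Y * (r + 1) := by omega
          _ = _ := by ring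
      exact_mod_cast h2
    have h5 : (0 : ℝ) ≤ (r : ℝ) + 1 := by positivity
    calc _ ≤ ((d : ℝ) + 1) * ((((1 + 2 * Fintype.card (PP (d + 1))) * N + c₁ + Y : ℕ) : ℝ) * (r + 1)) :=
          mul_le_mul_of_nonneg_left h1 (by positivity)
      _ = (((d : ℝ) + 1) * (((1 + 2 * Fintype.card (PP (d + 1))) * N + c₁ + Y : ℕ) : ℝ)) * (r + 1) := by ring
      _ ≤ (n₀ * (δ / 2)) * (r + 1) := mul_le_mul_of_nonneg_right hn₀.le h5
      _ = (δ / 2) * (n₀ * (r + 1)) := by ring
      _ ≤ δ / 2 * n := mul_le_mul_of_nonneg_left hnn (by positivity)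
  obtain ⟨y, hy, hS⟩ := exists_base2 m N K Y n eq a hn1 hN0 hK0 X (fun x hx => (hX x hx).1) δ hcon hn'
  set S := (Finset.univ : Finset ((Fin m → Fin N) × Fin K)).filter fun q =>
        (fun i => y i + sh N a (fun κ => (q.1 (eq κ) : ℕ)) q.2 i) ∈ X with hSdef
  have hd := All.density2 m w N K R hN0 hK0 S ?_
  · have h1 : δ / 2 ≤ (S.card : ℝ) / ((N : ℝ) ^ m * K) := by
      rw [le_div_iff₀ (by positivity)]
      exact hS
    have h2 : (δ / 2) ^ (w ^ m) ≤ ((S.card : ℝ) / ((N : ℝ) ^ m * K)) ^ (w ^ m) := pow_le_pow_left₀ (by positivity) h1 _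
    have h3 := h2.trans hd
    have h4 : (m * w ^ 2 : ℝ) / N < (δ / 2) ^ (w ^ m) / 2 := by
      rw [div_lt_iff₀ hden] at hN
      rw [div_lt_iff₀ hN0']
      linarith
    have h5 : (R : ℝ) / K < (δ / 2) ^ (w ^ m) / 2 := by
      rw [div_lt_iff₀ hden] at hc₁
      rw [div_lt_iff₀ hK0', hR, hK]
      push_cast
      have h6 : ((w : ℝ) ^ m * r + μ) ≤ ((w : ℝ) ^ m + μ) * (r + 1) := by
        have h7 : (0 : ℝ) ≤ (w : ℝ) ^ m := by positivity
        have h8 : (0 : ℝ) ≤ (μ : ℝ) := Nat.cast_nonneg _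
        have h9 : (0 : ℝ) ≤ (r : ℝ) := Nat.cast_nonneg _
        nlinarith
      have h7 : (0 : ℝ) < (r : ℝ) + 1 := by positivity
      calc ((w : ℝ) ^ m * r + μ) ≤ ((w : ℝ) ^ m + μ) * (r + 1) := h6
        _ < (c₁ * (δ / 2) ^ (w ^ m) / 2) * (r + 1) := by
            apply mul_lt_mul_of_pos_right _ h7
            linarith
        _ = _ := by ring
    linarith
  · intro t ht
    have h1 := hYt (fun κ => t (eq κ)) (fun κ => ht (eq κ)) (fun i => y₀ i + y i)
      (fun i => (hYle _).trans ((hy i).trans (Nat.le_add_left _ _))) L hL E r hE gn hgn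
      (((Finset.univ : Finset (Fin K)).filter fun b => ∀ e : Fin m → Fin w, ((fun i => t i (e i)), b) ∈ S).image
        fun b : Fin K => (b : ℕ)) (by
        intro b' hb' e
        rw [Finset.mem_image] at hb'
        obtain ⟨b, hb, rfl⟩ := hb'
        rw [Finset.mem_filter] at hb
        have h2 := hb.2 (fun i => e (eq.symm i))
        rw [hSdef, Finset.mem_filter] at h2
        have h3 := (hX _ h2.2).2
        rw [aa_eq]
        simp only [Equiv.symm_apply_apply, ← add_assoc] at h3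
        exact h3)
    rw [Finset.card_image_of_injective _ Fin.val_injective] at h1
    exact h1.le


/-- the tuples in the box at `y` with odd entries exactly at the places of `A` -/
def tuplesL {D : ℕ} (A : Finset (Fin D)) (y : Fin D → ℕ) (n : ℕ) : Finset (Fin D → ℕ) :=
  (Fintype.piFinset fun i => Finset.Icc (2 * y i + 2) (2 * y i + 2 * n + 1)).filter fun a => ∀ i, Odd (a i) ↔ i ∈ A

theorem tuple_eqL (A : Finset (Fin D)) (y : Fin D → ℕ) (n : ℕ) (a : Fin D → ℕ) (ha : a ∈ tuplesL A y n) :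
    (∀ i, (a i - All.par A i) / 2 - y i < n) ∧
      (fun i => 2 * (y i + ((a i - All.par A i) / 2 - y i)) + All.par A i) = a := by
  rw [tuplesL, Finset.mem_filter, Fintype.mem_piFinset] at ha
  obtain ⟨h1, h2⟩ := ha
  have key : ∀ i, (a i - All.par A i) / 2 - y i < n ∧
      2 * (y i + ((a i - All.par A i) / 2 - y i)) + All.par A i = a i := by
    intro i
    have h3 := Finset.mem_Icc.1 (h1 i)
    have h4 := h2 i
    rw [Nat.odd_iff] at h4
    unfold All.par
    by_cases h : i ∈ A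
    · rw [if_pos h]
      have h5 := h4.2 h
      omega
    · rw [if_neg h]
      have h5 : ¬ a i % 2 = 1 := fun h' => h (h4.1 h')
      omega
  exact ⟨fun i => (key i).1, funext fun i => (key i).2⟩

theorem card_tuplesL (A : Finset (Fin D)) (y : Fin D → ℕ) (n : ℕ) : n ^ D ≤ (tuplesL A y n).card := by
  classical
  have h1 : (Fintype.piFinset fun _ : Fin D => Finset.range n).card = n ^ D := by
    rw [Fintype.card_piFinset_const, Finset.card_range]
  rw [← h1]
  apply Finset.card_le_card_of_injOn (fun x i => 2 * (y i + x i) + All.par A i)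
  · intro x hx
    rw [Finset.mem_coe, Fintype.mem_piFinset] at hx
    rw [Finset.mem_coe, tuplesL, Finset.mem_filter, Fintype.mem_piFinset]
    constructor
    · intro i
      have := Finset.mem_range.1 (hx i)
      rw [Finset.mem_Icc]
      unfold All.par
      beta_reduce
      split_ifs <;> omega
    · intro i
      unfold All.par
      beta_reduce
      split_ifs with h
      · simp only [h, iff_true]
        exact ⟨y i + x i + 1, by ring⟩
      · simp only [h, iff_false, Nat.not_odd_iff_even]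
        exact ⟨y i + x i + 1, by ring⟩
  · intro x _ x' _ h
    funext i
    have := congrFun h i
    simp only at this
    omega

open Classical in
/-- **Density one** modulo arbitrary functions of the merged indices, in boxes. -/
theorem almost_all_local {D : ℕ} (A : Finset (Fin D)) (N : Finset (Fin D × Fin D)) (hN : ∀ p ∈ N, p.1 ≠ p.2)
    (c : V D) (hc : c ∈ WN A N) (hc0 : c ≠ 0) (ε : ℝ) (hε : 0 < ε) :
    ∃ C : ℕ, ∀ n r : ℕ, C * (r + 1) ≤ n → ∀ (L : Subfield ℝ), Transcendental L Real.pi → ∀ (E : Submodule L ℝ),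
      Module.rank L E ≤ (r : Cardinal) → ∀ g : Fin D × Fin D → (Fin D → ℕ) → ℝ, (∀ p ∈ N, Mg p.1 p.2 (g p)) →
      ∀ y : Fin D → ℕ,
      (((tuplesL A y n).filter fun a => GG c a + ∑ p ∈ N, g p a ∈ E).card : ℝ) ≤ ε * ((tuplesL A y n).card : ℝ) := by
  rcases Nat.eq_zero_or_pos D with rfl | hD
  · exfalso
    apply hc0
    have h1 : WN A N = ⊥ := by
      rw [WN, Submodule.span_eq_bot]
      rintro c (⟨i, -⟩ | ⟨i, -⟩)
      · exact i.elim0
      · exact i.elim0
    rw [h1] at hc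
    exact (Submodule.mem_bot ℚ).1 hc
  obtain ⟨d, rfl⟩ : ∃ d, D = d + 1 := ⟨D - 1, by omega⟩
  have hp : ∀ i, 2 ≤ All.par A i := by
    intro i
    unfold All.par
    split_ifs <;> omega
  have hpe : ∀ i, i ∉ A → Even (All.par A i) := by
    intro i hi
    unfold All.par
    rw [if_neg hi]
    exact even_two
  let Q : PP (d + 1) → Prop := fun q => q.1 ∈ N
  have key : ∃ C : ℕ, ∀ n r : ℕ, C * (r + 1) ≤ n → ∀ (L : Subfield ℝ), Transcendental L Real.pi →
      ∀ (E : Submodule L ℝ), Module.rank L E ≤ (r : Cardinal) → ∀ gn : (Fin (d + 1) → ℕ) → ℝ, Noise Q gn →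
      ∀ (y₀ : Fin (d + 1) → ℕ) (X : Finset (Fin (d + 1) → ℕ)),
      (∀ x ∈ X, (∀ i, x i < n) ∧ GG c (fun i => 2 * (y₀ i + x i) + All.par A i) +
        gn (fun i => 2 * (y₀ i + x i) + All.par A i) ∈ E) →
      (X.card : ℝ) ≤ ε * (n : ℝ) ^ (d + 1) := by
    obtain ⟨l', h1, h2, h3, h4⟩ := find_letters A N c hc hc0
    have hone : ∀ a, a ∉ A → a ∉ l' → ∃ C : ℕ, ∀ n r : ℕ, C * (r + 1) ≤ n → ∀ (L : Subfield ℝ),
        Transcendental L Real.pi → ∀ (E : Submodule L ℝ), Module.rank L E ≤ (r : Cardinal) →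
        ∀ gn : (Fin (d + 1) → ℕ) → ℝ, Noise Q gn → ∀ (y₀ : Fin (d + 1) → ℕ) (X : Finset (Fin (d + 1) → ℕ)),
        (∀ x ∈ X, (∀ i, x i < n) ∧ GG c (fun i => 2 * (y₀ i + x i) + All.par A i) +
          gn (fun i => 2 * (y₀ i + x i) + All.par A i) ∈ E) →
        (X.card : ℝ) ≤ ε * (n : ℝ) ^ (d + 1) := fun a ha hal =>
      rigidGRL Q (All.par A) a c _ _ (fun M t ht htM => analyticR Q (All.par A) hp a (hpe a ha) l' hal h1 c (Th l' c) h2
        (h3 a hal) (Th_Th l' c) (sub_Th_mem l' c) _ le_rfl M t ht htM) ε hε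
    rcases h4 with ⟨a, ha, hal⟩ | ⟨a, b, hab, hN1, hN2, hal, hbl⟩
    · exact hone a ha hal
    · by_cases ha : a ∈ A
      · by_cases hb : b ∈ A
        · have hpab : Even (All.par A a + All.par A b) := by
            unfold All.par
            rw [if_pos ha, if_pos hb]
            exact ⟨3, rfl⟩
          have hQ : ∀ q : PP (d + 1), Q q → ¬ isP a b q := by
            rintro ⟨⟨i, j⟩, hij⟩ hq hp
            unfold isP at hp
            simp only at hp
            rcases hp with ⟨rfl, rfl⟩ | ⟨rfl, rfl⟩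
            · exact hN1 hq
            · exact hN2 hq
          exact rigidGRL Q (All.par A) b c _ _ (fun M t ht htM => analytic2R Q (All.par A) hp a b hab hQ hpab l' hal hbl h1
            c (Th l' c) h2 (h3 a hal) (h3 b hbl) (Th_Th l' c) (sub_Th_mem l' c) _ le_rfl M t ht htM) ε hε
        · exact hone b hb hbl
      · exact hone a ha hal
  obtain ⟨C, hC⟩ := key
  refine ⟨C, ?_⟩
  intro n r hn L hL E hE g hg y
  have hnoise : Noise Q (fun a => ∑ p ∈ N, g p a) := by
    refine ⟨fun q => if q.1 ∈ N then g q.1 else fun _ => 0, ?_, ?_, ?_⟩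
    · intro q hq
      have hq' : q.1 ∈ N := hq
      simp only [hq', if_true]
      exact hg q.1 hq'
    · intro q hq
      have hq' : q.1 ∉ N := hq
      simp only [hq', if_false]
    · intro a
      have e : ∀ q : PP (d + 1), (if q.1 ∈ N then g q.1 else fun _ => (0 : ℝ)) a = if q.1 ∈ N then g q.1 a else 0 := by
        intro q
        split_ifs <;> rfl
      simp only [e]
      rw [← Finset.sum_filter]
      symm
      apply Finset.sum_bij (fun (q : PP (d + 1)) _ => q.1)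
      · intro q hq
        exact (Finset.mem_filter.1 hq).2
      · intro q _ q' _ h
        exact Subtype.ext h
      · intro p hp
        exact ⟨⟨p, hN p hp⟩, Finset.mem_filter.2 ⟨Finset.mem_univ _, hp⟩, rfl⟩
      · intro q _
        rfl
  set X : Finset (Fin (d + 1) → ℕ) := ((tuplesL A y n).filter fun a => GG c a + ∑ p ∈ N, g p a ∈ E).image
    fun a i => (a i - All.par A i) / 2 - y i with hX
  have hcard : ((tuplesL A y n).filter fun a => GG c a + ∑ p ∈ N, g p a ∈ E).card = X.card := by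
    rw [hX, Finset.card_image_of_injOn]
    intro a ha a' ha' h
    rw [Finset.mem_coe, Finset.mem_filter] at ha ha'
    rw [← (tuple_eqL A y n a ha.1).2, ← (tuple_eqL A y n a' ha'.1).2]
    funext i
    have := congrFun h i
    simp only at this ⊢
    rw [this]
  have h1 := hC n r hn L hL E hE _ hnoise y X (by
    intro x hx
    rw [hX, Finset.mem_image] at hx
    obtain ⟨a, ha, rfl⟩ := hx
    rw [Finset.mem_filter] at ha
    obtain ⟨h2, h3⟩ := tuple_eqL A y n a ha.1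
    refine ⟨h2, ?_⟩
    simp only [h3]
    exact ha.2)
  rw [hcard]
  refine h1.trans (mul_le_mul_of_nonneg_left ?_ hε.le)
  exact_mod_cast card_tuplesL A y n

end Pool.Agent.H491.Der
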